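import Mathlib
import Pool.Agent.Work.MP_e1e788_gt.FlowA

/-!
Smooth global flows and smooth parametric integrals (generic).
Hints. exists_flow: for each R cut off X by chi(F) (chi = 1 on (-inf,R], 0 on [R+1,inf)), extend by 0;
the field (tau,x) -> (0, tau * X_R x) on R x V (cut off in tau too) has a smooth time-one map by
SpunKnot.FlowAAux.core and exists_lip, which is the flow at time tau. F is conserved, so on F < R
the cut-off flow solves X; glue by uniqueness (locally Lipschitz ODE uniqueness on intervals).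
contDiffOn_integral: induction on the order as in Work/MP_c4e502_gt/Calc.lean, locally on a closed ball in U.
-/

set_option maxSynthPendingDepth 3

open Set Filter Topology MeasureTheory
open scoped ContDiff

noncomputable section
namespace Pool.Agent.Work.MP_8c604c_gt

/-- Uniqueness of solutions of a smooth autonomous equation on an open interval. -/
theorem ode_unique {V : Type} [NormedAddCommGroup V] [NormedSpace ℝ V] {U : Set V} (hU : IsOpen U)
    {X : V → V} (hX : ContDiffOn ℝ 1 X U) {a b t₀ : ℝ} (ht : t₀ ∈ Ioo a b) {c c' : ℝ → V}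
    (hc : ∀ t ∈ Ioo a b, c t ∈ U ∧ HasDerivAt c (X (c t)) t)
    (hc' : ∀ t ∈ Ioo a b, c' t ∈ U ∧ HasDerivAt c' (X (c' t)) t) (h0 : c t₀ = c' t₀) :
    ∀ t ∈ Ioo a b, c t = c' t := by
  have hloc : ∀ t ∈ Ioo a b, c t = c' t → c =ᶠ[𝓝 t] c' := by
    intro t htI he
    obtain ⟨K, s, hs, hK⟩ :=
      (hX.contDiffAt (hU.mem_nhds (hc t htI).1)).exists_lipschitzOnWith
    have hI : ∀ᶠ r in 𝓝 t, r ∈ Ioo a b := isOpen_Ioo.mem_nhds htI
    have h1 : ∀ᶠ r in 𝓝 t, c r ∈ s := (hc t htI).2.continuousAt.preimage_mem_nhds hs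
    have h2 : ∀ᶠ r in 𝓝 t, c' r ∈ s := (hc' t htI).2.continuousAt.preimage_mem_nhds (he ▸ hs)
    exact ODE_solution_unique_of_eventually (v := fun _ => X) (s := fun _ => s) (K := K)
      (Eventually.of_forall fun _ => hK)
      ((hI.and h1).mono fun r hr => ⟨(hc r hr.1).2, hr.2⟩)
      ((hI.and h2).mono fun r hr => ⟨(hc' r hr.1).2, hr.2⟩) he
  have hsub : Ioo a b ⊆ {t | ∀ᶠ r in 𝓝 t, c r = c' r} := by
    refine isPreconnected_Ioo.subset_of_closure_inter_subset isOpen_setOfPred_eventually_nhds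
      ⟨t₀, ht, hloc t₀ ht h0⟩ ?_
    rintro t ⟨h1, h2⟩
    refine hloc t h2 (tendsto_nhds_unique_of_frequently_eq (l := 𝓝 t) (hc t h2).2.continuousAt
      (hc' t h2).2.continuousAt ?_)
    exact (mem_closure_iff_frequently.1 h1).mono fun r hr => hr.self_of_nhds
  exact fun t htI => (hsub htI).self_of_nhds

section Aux
variable {V : Type} [NormedAddCommGroup V] [NormedSpace ℝ V]
  {U : Set V} {X : V → V} {F : V → ℝ}

/-- The cut-off function attached to a level of the first integral. -/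
theorem odeAux_cut (hU : IsOpen U) (hX : ContDiffOn ℝ ∞ X U) (hF : ContDiffOn ℝ ∞ F U)
    (hXF : ∀ x ∈ U, fderiv ℝ F x (X x) = 0) (hp : ∀ R : ℝ, IsCompact {x ∈ U | F x ≤ R}) (R : ℝ) :
    ∃ (G : V → ℝ) (C : Set V), IsCompact C ∧ ContDiff ℝ ∞ G ∧ (ContDiff ℝ ∞ fun x => G x • X x) ∧
      (∀ x ∉ C, G x = 0) ∧ (∀ x ∈ U, F x ≤ R → G x = 1) ∧ (∀ x, G x = 1 → x ∈ U) ∧
      ∀ x, fderiv ℝ G x (G x • X x) = 0 := by
  obtain ⟨χ, hχ⟩ : ∃ χ : ℝ → ℝ, χ = fun r => Real.smoothTransition (R + 1 - r) := ⟨_, rfl⟩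
  have sχ : ContDiff ℝ ∞ χ :=
    hχ ▸ Real.smoothTransition.contDiff.comp (contDiff_const.sub contDiff_id)
  obtain ⟨G, hG⟩ : ∃ G : V → ℝ, G = U.indicator fun x => χ (F x) := ⟨_, rfl⟩
  have hC := hp (R + 1)
  have g1 : ∀ x ∈ U, G x = χ (F x) := fun x hx => by rw [hG, indicator_of_mem hx]
  have g2 : ∀ x ∉ U, G x = 0 := fun x hx => by rw [hG, indicator_of_notMem hx]
  have g0 : ∀ x ∉ {x ∈ U | F x ≤ R + 1}, G x = 0 := by
    intro x hx
    by_cases h : x ∈ U
    · have h1 : R + 1 < F x := not_le.1 fun h' => hx ⟨h, h'⟩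
      rw [g1 x h, hχ]
      exact Real.smoothTransition.zero_of_nonpos (by linarith)
    · exact g2 x h
  have g3 : ∀ x ∈ U, G =ᶠ[𝓝 x] fun x => χ (F x) := fun x hx => by
    filter_upwards [hU.mem_nhds hx] with y hy using g1 y hy
  have g4 : ∀ x ∉ U, G =ᶠ[𝓝 x] fun _ => 0 := fun x hx => by
    filter_upwards [hC.isClosed.isOpen_compl.mem_nhds fun h => hx h.1] with y hy using g0 y hy
  have sG : ContDiff ℝ ∞ G := by
    refine contDiff_iff_contDiffAt.2 fun x => ?_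
    by_cases h : x ∈ U
    · exact (sχ.contDiffAt.comp x (hF.contDiffAt (hU.mem_nhds h))).congr_of_eventuallyEq (g3 x h)
    · exact contDiffAt_const.congr_of_eventuallyEq (g4 x h)
  refine ⟨G, _, hC, sG, contDiff_iff_contDiffAt.2 fun x => ?_, g0, fun x hx h => ?_,
    fun x h => ?_, fun x => ?_⟩
  · by_cases h : x ∈ U
    · exact sG.contDiffAt.smul (hX.contDiffAt (hU.mem_nhds h))
    · refine (contDiffAt_const (c := (0 : V))).congr_of_eventuallyEq ?_
      filter_upwards [g4 x h] with y hy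
      rw [hy, zero_smul]
  · rw [g1 x hx, hχ]
    exact Real.smoothTransition.one_of_one_le (by linarith)
  · by_contra hx
    rw [g2 x hx] at h
    exact zero_ne_one h
  · by_cases h : x ∈ U
    · have a1 := ((hF.contDiffAt (hU.mem_nhds h)).differentiableAt (by simp)).hasFDerivAt
      have a2 := (sχ.differentiable (by simp) (F x)).hasDerivAt.comp_hasFDerivAt x a1
      rw [(g3 x h).fderiv_eq, map_smul, show (fun x => χ (F x)) = χ ∘ F from rfl, a2.fderiv,
        smul_apply, hXF x h, smul_zero, smul_zero]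
    · rw [g2 x h, zero_smul, map_zero]

theorem odeAux_const {f : ℝ → ℝ} {T : ℝ} (hf : ∀ t ∈ Ioo (-T) T, HasDerivAt f 0 t) {t : ℝ}
    (ht : t ∈ Ioo (-T) T) : f t = f 0 :=
  isOpen_Ioo.is_const_of_deriv_eq_zero isPreconnected_Ioo
    (fun r hr => (hf r hr).differentiableAt.differentiableWithinAt)
    (fun r hr => (hf r hr).deriv) ht ⟨by linarith [ht.1, ht.2], by linarith [ht.1, ht.2]⟩

theorem odeAux_sol [CompleteSpace V] (hU : IsOpen U) (hX : ContDiffOn ℝ ∞ X U)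
    (hF : ContDiffOn ℝ ∞ F U) (hXF : ∀ x ∈ U, fderiv ℝ F x (X x) = 0)
    (hp : ∀ R : ℝ, IsCompact {x ∈ U | F x ≤ R}) {x : V} (hx : x ∈ U) {T : ℝ} (hT : 0 < T) :
    ∃ c : ℝ → V, c 0 = x ∧ ∀ t ∈ Ioo (-T) T, c t ∈ U ∧ HasDerivAt c (X (c t)) t := by
  obtain ⟨G, C, hC, sG, sY, g0, g1, g2, g3⟩ := odeAux_cut hU hX hF hXF hp (F x)
  have hs : HasCompactSupport fun x => G x • X x :=
    HasCompactSupport.intro hC fun y hy => by rw [g0 y hy, zero_smul]
  obtain ⟨K, hK⟩ := sY.lipschitzWith_of_hasCompactSupport hs (by simp)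
  obtain ⟨L, hL⟩ := sY.continuous.bounded_above_of_compact_support hs
  have hL0 : 0 ≤ L := (norm_nonneg _).trans (hL x)
  have hPL : IsPicardLindelof (fun _ x => G x • X x) (tmin := -T) (tmax := T)
      ⟨0, by linarith, hT.le⟩ x ⟨L * T, by positivity⟩ 0 ⟨L, hL0⟩ K :=
    IsPicardLindelof.of_time_independent (fun y _ => hL y) hK.lipschitzOnWith (by
      change L * max (T - 0) (0 - -T) ≤ L * T - 0
      simp)
  obtain ⟨c, c0, hc⟩ := hPL.exists_eq_forall_mem_Icc_hasDerivWithinAt₀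
  have hc' : ∀ t ∈ Ioo (-T) T, HasDerivAt c (G (c t) • X (c t)) t := fun t ht =>
    (hc t (Ioo_subset_Icc_self ht)).hasDerivAt (Icc_mem_nhds ht.1 ht.2)
  have c0' : c 0 = x := c0
  refine ⟨c, c0', fun t ht => ?_⟩
  have h1 : G (c t) = 1 := by
    have h2 := odeAux_const (f := fun t => G (c t)) (fun r hr => by
      have := (sG.differentiable (by simp) (c r)).hasFDerivAt.comp_hasDerivAt r (hc' r hr)
      rwa [g3] at this) ht
    rw [h2, c0', g1 x hx le_rfl]
  refine ⟨g2 _ h1, ?_⟩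
  have := hc' t ht
  rwa [h1, one_smul] at this

theorem odeAux_smooth [CompleteSpace V] (hU : IsOpen U) (hX : ContDiffOn ℝ ∞ X U)
    (hF : ContDiffOn ℝ ∞ F U) (hXF : ∀ x ∈ U, fderiv ℝ F x (X x) = 0)
    (hp : ∀ R : ℝ, IsCompact {x ∈ U | F x ≤ R}) {φ : ℝ → V → V} (h0 : ∀ x ∈ U, φ 0 x = x)
    (hU' : ∀ t, ∀ x ∈ U, φ t x ∈ U)
    (hd : ∀ t, ∀ x ∈ U, HasDerivAt (fun s => φ s x) (X (φ t x)) t) :
    ContDiffOn ℝ ∞ (fun p : ℝ × V => φ p.1 p.2) {p | p.2 ∈ U} := by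
  rintro ⟨t₀, x₀⟩ (hx₀ : x₀ ∈ U)
  refine ContDiffAt.contDiffWithinAt ?_
  obtain ⟨G, C, hC, -, sY, g0, g1, -, -⟩ := odeAux_cut hU hX hF hXF hp (F x₀ + 1)
  have hcons : ∀ x ∈ U, ∀ t, F (φ t x) = F x := by
    intro x hx t
    have h2 := odeAux_const (f := fun t => F (φ t x)) (T := |t| + 1) (t := t) (fun r _ => by
      have := ((hF.contDiffAt (hU.mem_nhds (hU' r x hx))).differentiableAt
        (by simp)).hasFDerivAt.comp_hasDerivAt r (hd r x hx)
      rwa [hXF _ (hU' r x hx)] at this)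
      ⟨by linarith [neg_abs_le t], by linarith [le_abs_self t]⟩
    rw [h2, h0 x hx]
  let b : ContDiffBump t₀ := ⟨1, 2, one_pos, one_lt_two⟩
  obtain ⟨v, hv⟩ : ∃ v : ℝ × ℝ × V → ℝ × V,
      v = fun z => (0, (b z.2.1 * z.2.1) • G z.2.2 • X z.2.2) := ⟨_, rfl⟩
  have sv : ContDiff ℝ ∞ v := by
    rw [hv]
    exact contDiff_const.prodMk
      (((b.contDiff.comp contDiff_snd.fst).mul contDiff_snd.fst).smul (sY.comp contDiff_snd.snd))
  obtain ⟨K, hK⟩ := SpunKnot.FlowAAux.exists_lip sv ((isCompact_closedBall t₀ 2).prod hC) (by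
    rintro s ⟨τ, x⟩ hz
    rw [hv]
    by_cases h : x ∈ C
    · have h1 : b.rOut ≤ dist τ t₀ := (not_le.1 fun h' => hz ⟨h', h⟩).le
      simp [b.zero_of_le_dist h1]
    · simp [g0 x h])
  obtain ⟨Ξ, sΞ, hΞ⟩ := SpunKnot.FlowAAux.core sv hK
  refine (sΞ.snd.contDiffAt (x := (t₀, x₀))).congr_of_eventuallyEq ?_
  have n1 : ∀ᶠ x in 𝓝 x₀, F x < F x₀ + 1 :=
    (hF.continuousOn.continuousAt (hU.mem_nhds hx₀)).eventually_lt continuousAt_const
      (lt_add_one _)
  filter_upwards [prod_mem_nhds (Metric.closedBall_mem_nhds t₀ one_pos)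
    (n1.and (hU.mem_nhds hx₀))] with ⟨τ, x⟩ ⟨hτ, hx1, hx⟩
  obtain ⟨γ, γ0, γ1, hγ⟩ := hΞ (τ, x)
  have hδ : ∀ s ∈ Icc (0 : ℝ) 1, HasDerivAt (fun s => (τ, φ (τ * s) x))
      (v (s, (fun s => (τ, φ (τ * s) x)) s)) s := by
    intro s _
    have a1 : HasDerivAt (fun s : ℝ => τ * s) τ s := by
      simpa using (hasDerivAt_id s).const_mul τ
    have a2 := (hd (τ * s) x hx).scomp s a1
    have a3 : G (φ (τ * s) x) = 1 := g1 _ (hU' _ x hx) (by rw [hcons x hx]; exact le_of_lt hx1)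
    have a4 : b τ = 1 := b.one_of_mem_closedBall hτ
    refine ((hasDerivAt_const s τ).prodMk a2).congr_deriv ?_
    simp only [hv, a3, a4, one_mul, one_smul]
  have := SpunKnot.FlowAAux.unique hK hγ hδ (by simp [γ0, h0 x hx])
  rw [← γ1, this, mul_one]

end Aux

/-- A smooth field on an open set with a proper first integral has a smooth global flow. -/
theorem exists_flow {V : Type} [NormedAddCommGroup V] [NormedSpace ℝ V] [FiniteDimensional ℝ V]
    {U : Set V} (hU : IsOpen U) {X : V → V} (hX : ContDiffOn ℝ ∞ X U) {F : V → ℝ}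
    (hF : ContDiffOn ℝ ∞ F U) (hXF : ∀ x ∈ U, fderiv ℝ F x (X x) = 0)
    (hp : ∀ R : ℝ, IsCompact {x ∈ U | F x ≤ R}) :
    ∃ φ : ℝ → V → V, ContDiffOn ℝ ∞ (fun p : ℝ × V => φ p.1 p.2) {p | p.2 ∈ U} ∧
      (∀ x ∈ U, φ 0 x = x) ∧ (∀ t, ∀ x ∈ U, φ t x ∈ U) ∧
      ∀ t, ∀ x ∈ U, HasDerivAt (fun s => φ s x) (X (φ t x)) t := by
  have : CompleteSpace V := FiniteDimensional.complete ℝ V
  have hX1 : ContDiffOn ℝ 1 X U := hX.of_le (by exact_mod_cast le_top)
  have hex : ∀ (T : ℝ) (x : V), ∃ c : ℝ → V, x ∈ U → 0 < T →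
      c 0 = x ∧ ∀ t ∈ Ioo (-T) T, c t ∈ U ∧ HasDerivAt c (X (c t)) t := by
    intro T x
    by_cases h : x ∈ U ∧ 0 < T
    · obtain ⟨c, hc⟩ := odeAux_sol hU hX hF hXF hp h.1 h.2
      exact ⟨c, fun _ _ => hc⟩
    · exact ⟨fun _ => x, fun h1 h2 => absurd ⟨h1, h2⟩ h⟩
  choose c hc using hex
  have hm : ∀ t : ℝ, t ∈ Ioo (-(|t| + 1)) (|t| + 1) := fun t =>
    ⟨by linarith [neg_abs_le t], by linarith [le_abs_self t]⟩
  have hpos : ∀ t : ℝ, 0 < |t| + 1 := fun t => by positivity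
  have hagree : ∀ x ∈ U, ∀ T : ℝ, ∀ t ∈ Ioo (-T) T, c (|t| + 1) x t = c T x t := by
    intro x hx T t ht
    have hT : 0 < T := by linarith [ht.1, ht.2]
    have h1 := hc (|t| + 1) x hx (hpos t)
    have h2 := hc T x hx hT
    have hmin : 0 < min (|t| + 1) T := lt_min (hpos t) hT
    have s1 : Ioo (-min (|t| + 1) T) (min (|t| + 1) T) ⊆ Ioo (-(|t| + 1)) (|t| + 1) :=
      Ioo_subset_Ioo (neg_le_neg (min_le_left _ _)) (min_le_left _ _)
    have s2 : Ioo (-min (|t| + 1) T) (min (|t| + 1) T) ⊆ Ioo (-T) T :=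
      Ioo_subset_Ioo (neg_le_neg (min_le_right _ _)) (min_le_right _ _)
    refine ode_unique hU hX1 (t₀ := 0) ⟨neg_lt_zero.2 hmin, hmin⟩ (fun r hr => h1.2 r (s1 hr))
      (fun r hr => h2.2 r (s2 hr)) (h1.1.trans h2.1.symm) t ?_
    exact ⟨neg_lt.1 (lt_min (neg_lt.1 (hm t).1) (neg_lt.1 ht.1)), lt_min (hm t).2 ht.2⟩
  have h0 : ∀ x ∈ U, c (|(0 : ℝ)| + 1) x 0 = x := fun x hx => (hc _ x hx (hpos 0)).1
  have hU' : ∀ t, ∀ x ∈ U, c (|t| + 1) x t ∈ U := fun t x hx =>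
    ((hc _ x hx (hpos t)).2 t (hm t)).1
  have hd : ∀ t, ∀ x ∈ U, HasDerivAt (fun s => c (|s| + 1) x s) (X (c (|t| + 1) x t)) t := by
    intro t x hx
    refine ((hc _ x hx (hpos t)).2 t (hm t)).2.congr_of_eventuallyEq ?_
    filter_upwards [isOpen_Ioo.mem_nhds (hm t)] with s hs using hagree x hx _ s hs
  exact ⟨fun t x => c (|t| + 1) x t,
    odeAux_smooth (φ := fun t x => c (|t| + 1) x t) hU hX hF hXF hp h0 hU' hd, h0, hU', hd⟩

section Param
variable {V W : Type} [NormedAddCommGroup V] [NormedSpace ℝ V] [FiniteDimensional ℝ V]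
  [NormedAddCommGroup W] [NormedSpace ℝ W] [CompleteSpace W]

theorem hasFDerivAt_integral {U : Set V} (hU : IsOpen U) {F : ℝ × V → W}
    (hF : ContDiffOn ℝ 1 F {p | p.2 ∈ U}) (a b : ℝ) {x : V} (hx : x ∈ U) :
    HasFDerivAt (fun y => ∫ t in a..b, F (t, y))
      (∫ t in a..b, (fderiv ℝ F (t, x)).comp (ContinuousLinearMap.inr ℝ ℝ V)) x := by
  have := FiniteDimensional.proper_real V
  have hO : IsOpen {p : ℝ × V | p.2 ∈ U} := hU.preimage continuous_snd
  obtain ⟨ε, hε, hb⟩ := Metric.nhds_basis_closedBall.mem_iff.1 (hU.mem_nhds hx)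
  have hc := hF.continuousOn
  have hc1 : ContinuousOn (fun p : ℝ × V => (fderiv ℝ F p).comp (ContinuousLinearMap.inr ℝ ℝ V))
      {p | p.2 ∈ U} := (hF.continuousOn_fderiv_of_isOpen hO le_rfl).clm_comp continuousOn_const
  have hs : ∀ {T : Type} [TopologicalSpace T] {G : ℝ × V → T}, ContinuousOn G {p | p.2 ∈ U} →
      ∀ y ∈ U, Continuous fun t => G (t, y) := fun hG y hy =>
    hG.comp_continuous (by fun_prop) fun _ => hy
  obtain ⟨C, hC⟩ := ((isCompact_uIcc (a := a) (b := b)).prod (isCompact_closedBall x ε)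
    ).exists_bound_of_continuousOn (hc1.mono fun p hp => hb hp.2)
  refine intervalIntegral.hasFDerivAt_integral_of_dominated_of_fderiv_le
    (F := fun y t => F (t, y))
    (F' := fun y t => (fderiv ℝ F (t, y)).comp (ContinuousLinearMap.inr ℝ ℝ V))
    (bound := fun _ => C) (Metric.closedBall_mem_nhds x hε) ?_
    ((hs hc x hx).intervalIntegrable _ _) (hs hc1 x hx).aestronglyMeasurable
    (Eventually.of_forall fun t ht y hy => hC (t, y) ⟨uIoc_subset_uIcc ht, hy⟩)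
    intervalIntegrable_const (Eventually.of_forall fun t _ y hy => ?_)
  · filter_upwards [hU.mem_nhds hx] with y hy using (hs hc y hy).aestronglyMeasurable
  · exact ((hF.contDiffAt (hO.mem_nhds (x := (t, y)) (hb hy))).differentiableAt
      one_ne_zero).hasFDerivAt.comp y (hasFDerivAt_prodMk_right t y)

theorem odeAux_int {U : Set V} (hU : IsOpen U) (a b : ℝ) (m : ℕ) :
    ∀ {W : Type} [NormedAddCommGroup W] [NormedSpace ℝ W] [CompleteSpace W] (F : ℝ × V → W),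
      ContDiffOn ℝ ∞ F {p | p.2 ∈ U} → ContDiffOn ℝ m (fun y => ∫ t in a..b, F (t, y)) U := by
  have hO : IsOpen {p : ℝ × V | p.2 ∈ U} := hU.preimage continuous_snd
  induction m with
  | zero =>
    intro W _ _ _ F hF
    exact contDiffOn_zero.2 fun x hx => (hasFDerivAt_integral hU
      (hF.of_le (by exact_mod_cast le_top)) a b hx).continuousAt.continuousWithinAt
  | succ m ih =>
    intro W _ _ _ F hF
    have hd := fun x (hx : x ∈ U) =>
      hasFDerivAt_integral hU (hF.of_le (by exact_mod_cast le_top)) a b hx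
    rw [Nat.cast_succ, contDiffOn_succ_iff_fderiv_of_isOpen hU]
    refine ⟨fun x hx => (hd x hx).differentiableAt.differentiableWithinAt, by simp, ?_⟩
    exact (ih (fun p => (fderiv ℝ F p).comp (ContinuousLinearMap.inr ℝ ℝ V))
      ((hF.fderiv_of_isOpen hO le_rfl).clm_comp contDiffOn_const)).congr
      fun x hx => (hd x hx).fderiv

theorem contDiffOn_integral {U : Set V} (hU : IsOpen U) {F : ℝ × V → W}
    (hF : ContDiffOn ℝ ∞ F {p | p.2 ∈ U}) (a b : ℝ) :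
    ContDiffOn ℝ ∞ (fun y => ∫ t in a..b, F (t, y)) U := by
  exact contDiffOn_infty.2 fun m => odeAux_int hU a b m F hF

/-- Variable upper limit. -/
theorem contDiffOn_primitive {U : Set V} (hU : IsOpen U) {F : ℝ × V → W}
    (hF : ContDiffOn ℝ ∞ F {p | p.2 ∈ U}) :
    ContDiffOn ℝ ∞ (fun p : ℝ × V => ∫ t in (0 : ℝ)..p.1, F (t, p.2)) {p | p.2 ∈ U} := by
  have h1 : (fun p : ℝ × V => ∫ t in (0 : ℝ)..p.1, F (t, p.2)) =
      fun p => p.1 • ∫ s in (0 : ℝ)..1, F (p.1 * s, p.2) := by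
    funext p
    have := intervalIntegral.smul_integral_comp_mul_left (fun s => F (s, p.2)) p.1 (a := 0) (b := 1)
    simp only [mul_zero, mul_one] at this
    exact this.symm
  rw [h1]
  refine contDiffOn_fst.smul (contDiffOn_integral (U := {p : ℝ × V | p.2 ∈ U})
    (F := fun u : ℝ × ℝ × V => F (u.2.1 * u.1, u.2.2)) (hU.preimage continuous_snd) ?_ 0 1)
  exact hF.comp (f := fun u : ℝ × ℝ × V => (u.2.1 * u.1, u.2.2)) (by fun_prop) fun _ hu => hu

end Param

/-- Taylor estimate used for all second variation arguments. -/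
theorem taylor_two {V : Type} [NormedAddCommGroup V] [NormedSpace ℝ V] [FiniteDimensional ℝ V]
    {U : Set V} (hU : IsOpen U) {L : V → ℝ} (hL : ContDiffOn ℝ ∞ L U) {K : Set V}
    (hK : IsCompact K) (hKU : K ⊆ U) :
    ∃ C δ : ℝ, 0 < C ∧ 0 < δ ∧ ∀ p ∈ K, ∀ (y ξ : V) (s : ℝ), 0 ≤ s → ‖y‖ + s * ‖ξ‖ ≤ δ →
      p + y + s • ξ ∈ U ∧
      L (p + y + s • ξ) - L (p + y) ≤ s * fderiv ℝ L p ξ + s * fderiv ℝ (fderiv ℝ L) p y ξ +
        s ^ 2 / 2 * fderiv ℝ (fderiv ℝ L) p ξ ξ + C * s * (‖y‖ + s * ‖ξ‖) ^ 2 * ‖ξ‖ := by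
  have := FiniteDimensional.proper_real V
  obtain ⟨δ, hδ, hδU⟩ := hK.exists_cthickening_subset_open hU hKU
  have h1 : ContDiffOn ℝ ∞ (fderiv ℝ L) U := hL.fderiv_of_isOpen hU le_rfl
  have h2 : ContDiffOn ℝ ∞ (fderiv ℝ (fderiv ℝ L)) U := h1.fderiv_of_isOpen hU le_rfl
  have h3 := h2.continuousOn_fderiv_of_isOpen hU (by exact_mod_cast le_top)
  obtain ⟨M, hM⟩ := (hK.cthickening (r := δ)).exists_bound_of_continuousOn (h3.mono hδU)
  have hd : ∀ {T : Type} [NormedAddCommGroup T] [NormedSpace ℝ T] {G : V → T},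
      ContDiffOn ℝ ∞ G U → ∀ x ∈ U, HasFDerivAt G (fderiv ℝ G x) x := fun hG x hx =>
    ((hG.contDiffAt (hU.mem_nhds hx)).differentiableAt (by simp)).hasFDerivAt
  refine ⟨max M 1, δ, lt_max_of_lt_right one_pos, hδ, fun p hp y ξ s hs hy => ?_⟩
  have hC : 0 ≤ max M 1 := le_max_of_le_right zero_le_one
  have hb : Metric.closedBall p δ ⊆ Metric.cthickening δ K :=
    Metric.closedBall_subset_cthickening hp δ
  set ρ := ‖y‖ + s * ‖ξ‖ with hρ
  have hρ0 : 0 ≤ ρ := by positivity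
  have hb' : Metric.closedBall p ρ ⊆ Metric.cthickening δ K :=
    (Metric.closedBall_subset_closedBall hy).trans hb
  have hp0 : p ∈ Metric.closedBall p ρ := Metric.mem_closedBall_self hρ0
  have e2 : ∀ q ∈ Metric.closedBall p ρ,
      ‖fderiv ℝ (fderiv ℝ L) q - fderiv ℝ (fderiv ℝ L) p‖ ≤ max M 1 * ρ := by
    intro q hq
    have := (convex_closedBall p ρ).norm_image_sub_le_of_norm_hasFDerivWithin_le
      (f := fderiv ℝ (fderiv ℝ L)) (C := max M 1)
      (fun x hx => (hd h2 x (hδU (hb' hx))).hasFDerivWithinAt)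
      (fun x hx => (hM x (hb' hx)).trans (le_max_left _ _)) hp0 hq
    exact this.trans (mul_le_mul_of_nonneg_left (mem_closedBall_iff_norm.1 hq) hC)
  have e1 : ∀ q ∈ Metric.closedBall p ρ,
      ‖fderiv ℝ L q - fderiv ℝ L p - fderiv ℝ (fderiv ℝ L) p (q - p)‖ ≤ max M 1 * ρ * ρ := by
    intro q hq
    have := (convex_closedBall p ρ).norm_image_sub_le_of_norm_hasFDerivWithin_le'
      (f := fderiv ℝ L) (fun x hx => (hd h1 x (hδU (hb' hx))).hasFDerivWithinAt) e2 hp0 hq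
    exact this.trans (mul_le_mul_of_nonneg_left (mem_closedBall_iff_norm.1 hq) (by positivity))
  have hm : ∀ r ∈ Icc 0 s, p + y + r • ξ ∈ Metric.closedBall p ρ := by
    intro r hr
    rw [mem_closedBall_iff_norm, add_assoc, add_sub_cancel_left]
    refine (norm_add_le _ _).trans ?_
    rw [norm_smul, Real.norm_eq_abs, abs_of_nonneg hr.1]
    exact add_le_add le_rfl (mul_le_mul_of_nonneg_right hr.2 (norm_nonneg _))
  refine ⟨hδU (hb' (hm s ⟨hs, le_rfl⟩)), ?_⟩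
  have hg : ∀ r ∈ Icc 0 s, HasDerivWithinAt (fun r : ℝ => L (p + y + r • ξ) -
      (r * fderiv ℝ L p ξ + r * fderiv ℝ (fderiv ℝ L) p y ξ +
        r ^ 2 / 2 * fderiv ℝ (fderiv ℝ L) p ξ ξ))
      ((fderiv ℝ L (p + y + r • ξ) - fderiv ℝ L p -
        fderiv ℝ (fderiv ℝ L) p (p + y + r • ξ - p)) ξ) (Icc 0 s) r := by
    intro r hr
    have a1 : HasDerivAt (fun r : ℝ => p + y + r • ξ) ξ r := by
      simpa using ((hasDerivAt_id r).smul_const ξ).const_add (p + y)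
    have a2 := (hd hL _ (hδU (hb' (hm r hr)))).comp_hasDerivAt r a1
    have a3 := (((hasDerivAt_id r).mul_const (fderiv ℝ L p ξ)).add
      ((hasDerivAt_id r).mul_const (fderiv ℝ (fderiv ℝ L) p y ξ))).add
      (((hasDerivAt_pow 2 r).div_const 2).mul_const (fderiv ℝ (fderiv ℝ L) p ξ ξ))
    refine ((a2.sub a3).congr_deriv ?_).hasDerivWithinAt
    rw [add_assoc p, add_sub_cancel_left]
    simp only [map_add, map_smul, sub_apply, add_apply, smul_apply, smul_eq_mul]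
    push_cast
    ring
  have key := norm_image_sub_le_of_norm_deriv_le_segment' hg (C := max M 1 * ρ * ρ * ‖ξ‖)
    (fun r hr => (ContinuousLinearMap.le_opNorm _ _).trans (mul_le_mul_of_nonneg_right
      (e1 _ (hm r (Ico_subset_Icc_self hr))) (norm_nonneg _))) s ⟨hs, le_rfl⟩
  have key2 := (le_abs_self _).trans key
  simp only [zero_smul, add_zero, zero_mul, sub_zero] at key2
  nlinarith [key2]

end Pool.Agent.Work.MP_8c604c_gt
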