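import Pool.Agent.Work.MP_8c604c_gt.StokesA
import Pool.Agent.Work.MP_8c604c_gt.ODE

-- merged part: Pool.Agent.Work.MP_8c604c_gt.JacA
section
/-!
The unit speed flow and Jacobi fields.
Hints. psi t x = phi (t / spd x) x; vel (psi t x) is the t-derivative of Z. var: differentiate el in x (swap the t and x
derivatives with ContDiffAt.isSymmSndFDerivAt for the jointly smooth functions of (t,x)), use D2_apply.
al_inv: the t-derivative of the left side is the x-derivative of the constant energy 1/2.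
om_inv: by var and D2_symm the t-derivative vanishes. star: J = JH + c Z, use PP_apply, fderiv_vert, fderiv_vert_arg.
-/

set_option maxSynthPendingDepth 3

open Set Filter Topology MeasureTheory
open scoped ContDiff

noncomputable section
namespace Pool.Agent.Work.MP_8c604c_gt

variable {n : ℕ} {g : Met n}

theorem jacA_fd {F : Type} [NormedAddCommGroup F] [NormedSpace ℝ F] (f : ℝ → VV n → F)
    (hf : ContDiffOn ℝ ∞ (fun p : ℝ × VV n => f p.1 p.2) {p | p.2 ∈ OO n}) :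
    ContDiffOn ℝ ∞ (fun p : ℝ × VV n => fderiv ℝ (f p.1) p.2) {p | p.2 ∈ OO n} := by
  intro p hp
  have ho : IsOpen {p : ℝ × VV n | p.2 ∈ OO n} := isOpen_OO.preimage continuous_snd
  have h1 : ContDiffAt ℝ ∞ (Function.uncurry fun (p : ℝ × VV n) (y : VV n) => f p.1 y)
      (p, p.2) :=
    (hf.contDiffAt (ho.mem_nhds (show ((p.1, p.2) : ℝ × VV n) ∈ _ from hp))).comp (p, p.2)
      (f := fun q : (ℝ × VV n) × VV n => ((q.1.1, q.2) : ℝ × VV n)) (by fun_prop)
  exact (h1.fderiv (m := ∞) contDiffAt_snd (by simp)).contDiffWithinAt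

namespace Geo
variable (G : Geo g) (h : IsMetric g)

theorem φ_ne (t : ℝ) {x : VV n} (hx : x.1 ≠ 0) : (G.φ t x).1 ≠ 0 := by
  rw [← norm_ne_zero_iff, G.norm_fst t x hx, norm_ne_zero_iff]
  exact hx

theorem ex_ne {q : E n} (hq : q ≠ 0) (u : E n) : G.ex q u ≠ 0 := by
  exact G.φ_ne 1 (x := (q, u)) hq

theorem contDiffOn_ex : ContDiffOn ℝ ∞ (fun p : VV n => G.ex p.1 p.2) {p | p.1 ≠ 0} := by
  exact (G.smooth.comp (f := fun p : VV n => ((1 : ℝ), p)) (by fun_prop) fun p hp => hp).fst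

theorem contDiffOn_Ex : ContDiffOn ℝ ∞ (fun p : VV n => G.Ex p.1 p.2) {p | p.1 ≠ 0} := by
  intro p hp
  have hp' : p.1 ≠ 0 := hp
  have ho : IsOpen {p : VV n | p.1 ≠ 0} := isOpen_ne_fun continuous_fst continuous_const
  have h1 : ContDiffAt ℝ ∞ (fun p : VV n => nu p.1 p.2) p :=
    ((contDiffOn_nuL.contDiffAt (isOpen_compl_singleton.mem_nhds hp')).comp p
      contDiffAt_fst).clm_apply contDiffAt_snd
  have h2 : ContDiffAt ℝ ∞ (fun p : VV n => ((‖p.1‖ : ℝ) : ℂ)) p :=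
    Complex.ofRealCLM.contDiff.contDiffAt.comp p (contDiffAt_fst.norm ℂ hp')
  have h3 := (h1.cexp.mul (h2.inv (by simpa using hp'))).smul
    (G.contDiffOn_ex.contDiffAt (ho.mem_nhds hp))
  simp only [Ex, div_eq_mul_inv]
  exact h3.contDiffWithinAt

theorem ex_add_vert {q : E n} (hq : q ≠ 0) (u : E n) (c : ℂ) : G.ex q (u + c • q) = G.ex q u := by
  have := congrArg Prod.fst (G.shift c 1 (q, u) hq)
  exact this

theorem ex_hor {q : E n} (hq : q ≠ 0) (u : E n) : G.ex q (hor q u) = G.ex q u := by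
  rw [hor_def, sub_eq_add_neg, ← neg_smul, G.ex_add_vert hq]

theorem ex_zero {q : E n} (hq : q ≠ 0) : G.ex q 0 = q := by
  have := congrArg Prod.fst (G.scale 0 1 (q, 0) hq)
  simpa [G.zero (q, 0) hq, ex] using this

theorem ex_smul {c : ℂ} (hc : c ≠ 0) {q : E n} (hq : q ≠ 0) (u : E n) :
    G.ex (c • q) (c • u) = c • G.ex q u := by
  exact congrArg Prod.fst (G.smul c 1 (q, u) hc hq)

theorem ex_real_smul {q : E n} (hq : q ≠ 0) (u : E n) (t : ℝ) :
    G.ex q (t • u) = (G.φ t (q, u)).1 := by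
  have := congrArg Prod.fst (G.scale t 1 (q, u) hq)
  simpa [ex] using this

theorem norm_ex {q : E n} (hq : q ≠ 0) (u : E n) : ‖G.ex q u‖ = ‖q‖ := by
  exact G.norm_fst 1 (q, u) hq

theorem hasFDerivAt_ex_zero {q : E n} (hq : q ≠ 0) : HasFDerivAt (G.ex q) (horL q) 0 := by
  have ho : IsOpen {p : VV n | p.1 ≠ 0} := isOpen_ne_fun continuous_fst continuous_const
  have h1 : DifferentiableAt ℝ (G.ex q) 0 :=
    ((G.contDiffOn_ex.contDiffAt (ho.mem_nhds (show ((q, 0) : VV n) ∈ _ from hq))).comp (0 : E n)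
      (f := fun u : E n => ((q, u) : VV n)) (by fun_prop)).differentiableAt (by simp)
  have h2 : fderiv ℝ (G.ex q) 0 = horL q := by
    ext1 u
    have a1 : HasDerivAt (fun t : ℝ => t • u) u 0 := by
      simpa using (hasDerivAt_id (0 : ℝ)).smul_const u
    have a2 : HasDerivAt (fun t : ℝ => G.ex q (t • u)) (fderiv ℝ (G.ex q) 0 u) 0 :=
      HasFDerivAt.comp_hasDerivAt_of_eq (hl := h1.hasFDerivAt) (hf := a1) (hy := by simp)
    have a3 := G.deriv_fst 0 (q, u) hq
    rw [G.zero (q, u) hq] at a3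
    simp only [G.ex_real_smul hq] at a2
    exact a2.unique a3
  exact h2 ▸ h1.hasFDerivAt

include h

theorem psi_mem (t : ℝ) {x : VV n} (hx : x ∈ OO n) : G.psi t x ∈ OO n := by
  refine ⟨G.φ_ne _ hx.1, fun c hc => ?_⟩
  have h1 := G.energy (t / spd g x) x hx.1
  have h2 := h.spd_pos hx
  rw [← h.spd_sq hx.1] at h1
  change (G.φ _ x).2 = c • (G.φ _ x).1 at hc
  rw [hc, h.vert c _ _ (G.φ_ne _ hx.1)] at h1
  exact absurd h1.symm (by positivity)

theorem Z_ne (t : ℝ) {x : VV n} (hx : x ∈ OO n) : G.Z t x ≠ 0 := by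
  exact (G.psi_mem h t hx).1

theorem spd_psi (t : ℝ) {x : VV n} (hx : x ∈ OO n) : spd g (G.psi t x) = spd g x := by
  exact congrArg Real.sqrt (G.energy _ x hx.1)

theorem psi_zero {x : VV n} (hx : x ∈ OO n) : G.psi 0 x = x := by
  rw [psi, zero_div, G.zero x hx.1]

theorem psi_add (s t : ℝ) {x : VV n} (hx : x ∈ OO n) : G.psi (s + t) x = G.psi s (G.psi t x) := by
  rw [psi, psi, G.spd_psi h t hx, add_div, G.add _ _ x hx.1, psi]

theorem norm_Z (t : ℝ) {x : VV n} (hx : x ∈ OO n) : ‖G.Z t x‖ = ‖x.1‖ := by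
  exact G.norm_fst _ x hx.1

theorem nu_psi (t : ℝ) {x : VV n} (hx : x ∈ OO n) :
    nu (G.psi t x).1 (G.psi t x).2 = nu x.1 x.2 := by
  exact G.nu_eq _ x hx.1

theorem psi_act (t : ℝ) {l : ℂ} {m : ℝ} (c : ℂ) {x : VV n} (hl : l ≠ 0) (hm : 0 < m)
    (hx : x ∈ OO n) : G.psi t (act l m c x) = act l m c (G.psi t x) := by
  have h0 := (h.spd_pos hx).ne'
  have e1 : act l m c x = l • ((x.1, m • x.2 + c • x.1) : VV n) := rfl
  have e2 := G.shift c (t / (m * spd g x)) (x.1, m • x.2) hx.1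
  have e3 := G.scale m (t / (m * spd g x)) x hx.1
  have e4 : m * (t / (m * spd g x)) = t / spd g x := by field_simp
  rw [psi, h.spd_act c hl hm hx.1, e1, G.smul l _ (x.1, m • x.2 + c • x.1) hl hx.1]
  simp only at e2
  rw [e2, e3, e4]
  rfl

theorem psi_smul (t : ℝ) {l : ℂ} {x : VV n} (hl : l ≠ 0) (hx : x ∈ OO n) :
    G.psi t (l • x) = l • G.psi t x := by
  have e : ∀ y : VV n, act l 1 0 y = l • y := fun y => by simp [act, Prod.ext_iff]
  rw [← e, ← e, G.psi_act h t 0 hl one_pos hx]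

theorem Z_eqv (t : ℝ) : Eqv (G.Z t) := by
  intro l m c x hl hm hx
  rw [Z, G.psi_act h t c hl hm hx]
  rfl

/-- Only the foot point and the unit velocity matter. -/
theorem Z_vel (t : ℝ) {x : VV n} (hx : x ∈ OO n) : G.Z t (x.1, vel g x) = G.Z t x := by
  have e : ((x.1, vel g x) : VV n) =
      act 1 (spd g x)⁻¹ (-((((spd g x)⁻¹ : ℝ) : ℂ) * nu x.1 x.2)) x := by
    simp only [act, one_smul, vel, hor_def, smul_sub, neg_smul, mul_smul, Complex.coe_smul,
      sub_eq_add_neg, smul_add, smul_neg]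
  rw [e, G.Z_eqv h t 1 _ _ x one_ne_zero (inv_pos.2 (h.spd_pos hx)) hx, one_smul]

/-- Reversal. -/
theorem psi_neg (t : ℝ) {x : VV n} (hx : x ∈ OO n) :
    G.psi t (x.1, -x.2) = ((G.psi (-t) x).1, -(G.psi (-t) x).2) := by
  have e1 : spd g (x.1, -x.2) = spd g x := by simp [spd]
  have e2 := G.scale (-1) (t / spd g x) x hx.1
  simp only [neg_smul, one_smul, neg_mul, one_mul] at e2
  rw [psi, e1, e2, psi, neg_div]

theorem ex_vel (t : ℝ) {x : VV n} (hx : x ∈ OO n) : G.ex x.1 (t • vel g x) = G.Z t x := by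
  have h1 := (h.unit_mem hx.1 (h.nu_vel hx.1) (h.vel_unit hx)).2.1
  rw [G.ex_real_smul hx.1, ← G.Z_vel h t hx, Z, psi, h1, div_one]

theorem ex_eq_Z {x : VV n} (hx : x ∈ OO n) : G.ex x.1 x.2 = G.Z (spd g x) x := by
  rw [Z, psi, div_self (h.spd_pos hx).ne']
  rfl

theorem contDiffOn_psi : ContDiffOn ℝ ∞ (fun p : ℝ × VV n => G.psi p.1 p.2) {p | p.2 ∈ OO n} := by
  refine G.smooth.comp (f := fun p : ℝ × VV n => (p.1 / spd g p.2, p.2)) ?_ fun p hp => hp.1
  refine ContDiffOn.prodMk (contDiffOn_fst.div ?_ fun p hp => (h.spd_pos hp).ne') contDiffOn_snd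
  exact h.contDiffOn_spd.comp contDiffOn_snd fun p hp => hp

theorem contDiffOn_Z : ContDiffOn ℝ ∞ (fun p : ℝ × VV n => G.Z p.1 p.2) {p | p.2 ∈ OO n} := by
  exact (G.contDiffOn_psi h).fst

theorem jacA_vel :
    ContDiffOn ℝ ∞ (fun p : ℝ × VV n => vel g (G.psi p.1 p.2)) {p | p.2 ∈ OO n} :=
  h.contDiffOn_vel.comp (G.contDiffOn_psi h) fun p hp => G.psi_mem h p.1 hp

theorem jacA_mom : ContDiffOn ℝ ∞
    (fun p : ℝ × VV n => g (G.Z p.1 p.2) (vel g (G.psi p.1 p.2))) {p | p.2 ∈ OO n} :=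
  (h.smooth.comp (G.contDiffOn_Z h) fun p hp => G.Z_ne h p.1 hp).clm_apply (G.jacA_vel h)

theorem contDiffOn_JJ : ContDiffOn ℝ ∞ (fun p : ℝ × VV n => G.JJ p.1 p.2) {p | p.2 ∈ OO n} := by
  exact jacA_fd G.Z (G.contDiffOn_Z h)

theorem contDiffOn_JD : ContDiffOn ℝ ∞ (fun p : ℝ × VV n => G.JD p.1 p.2) {p | p.2 ∈ OO n} := by
  exact jacA_fd (fun t y => vel g (G.psi t y)) (G.jacA_vel h)

theorem contDiffOn_JH : ContDiffOn ℝ ∞ (fun p : ℝ × VV n => G.JH p.1 p.2) {p | p.2 ∈ OO n} := by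
  exact (contDiffOn_horL.comp (G.contDiffOn_Z h) fun p hp => G.Z_ne h p.1 hp).clm_comp
    (G.contDiffOn_JJ h)

theorem contDiffOn_PP : ContDiffOn ℝ ∞ (fun p : ℝ × VV n => G.PP p.1 p.2) {p | p.2 ∈ OO n} := by
  exact jacA_fd (fun t y => g (G.Z t y) (vel g (G.psi t y))) (G.jacA_mom h)

theorem hasDerivAt_Z (t : ℝ) {x : VV n} (hx : x ∈ OO n) :
    HasDerivAt (fun s => G.Z s x) (vel g (G.psi t x)) t := by
  have a1 := (G.deriv_fst (t / spd g x) x hx.1).scomp t ((hasDerivAt_id t).div_const (spd g x))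
  rw [vel, G.spd_psi h t hx, ← one_div]
  exact a1

theorem el_Z (t : ℝ) {x : VV n} (hx : x ∈ OO n) (η : E n) :
    HasDerivAt (fun s => g (G.Z s x) (vel g (G.psi s x)) η)
      (1 / 2 * fderiv ℝ g (G.Z t x) η (vel g (G.psi t x)) (vel g (G.psi t x))) t := by
  have a1 := ((G.el (t / spd g x) x η hx.1).comp t
    ((hasDerivAt_id t).div_const (spd g x))).const_mul (spd g x)⁻¹
  have e1 : (fun s => g (G.Z s x) (vel g (G.psi s x)) η) =
      fun s => (spd g x)⁻¹ * g (G.φ (s / spd g x) x).1 (G.φ (s / spd g x) x).2 η := by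
    funext s
    rw [vel, G.spd_psi h s hx, map_smul, ContinuousLinearMap.smul_apply, smul_eq_mul]
    exact congrArg _ (h.hor_left (G.Z_ne h s hx) _ _)
  rw [e1]
  refine a1.congr_deriv ?_
  rw [vel, G.spd_psi h t hx]
  simp only [map_smul, ContinuousLinearMap.smul_apply, smul_eq_mul, Z, psi]
  ring

/-- First variation of the energy. -/
theorem first_var (t : ℝ) {x : VV n} (hx : x ∈ OO n) {η : ℝ → E n} {η' : E n}
    (hη : HasDerivAt η η' t) :
    HasDerivAt (fun s => g (G.Z s x) (vel g (G.psi s x)) (η s))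
      (fderiv ℝ (Lg g) (G.Z t x, vel g (G.psi t x)) (η t, η')) t := by
  have ho : IsOpen {p : ℝ × VV n | p.2 ∈ OO n} := isOpen_OO.preimage continuous_snd
  have h1 : DifferentiableAt ℝ (fun s => g (G.Z s x) (vel g (G.psi s x))) t :=
    (((G.jacA_mom h).contDiffAt (ho.mem_nhds (show ((t, x) : ℝ × VV n) ∈ _ from hx))).comp t
      (f := fun s : ℝ => ((s, x) : ℝ × VV n)) (by fun_prop)).differentiableAt (by simp)
  have h2 := h1.hasDerivAt.clm_apply (hasDerivAt_const t (η t))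
  have h3 := h2.unique (G.el_Z h t hx (η t))
  refine (h1.hasDerivAt.clm_apply hη).congr_deriv ?_
  rw [h.fderiv_Lg (p := (G.Z t x, vel g (G.psi t x))) (G.Z_ne h t hx), ← h3]
  simp

theorem isUnitGeodesic_Z {x : VV n} (hx : x ∈ OO n) : IsUnitGeodesic g fun t => G.Z t x := by
  have hd : deriv (fun t => G.Z t x) = fun t => vel g (G.psi t x) :=
    funext fun t => (G.hasDerivAt_Z h t hx).deriv
  refine ⟨?_, fun t => G.Z_ne h t hx, fun t η => ?_, fun t => ?_⟩
  · exact (G.contDiffOn_Z h).comp_contDiff (f := fun s : ℝ => ((s, x) : ℝ × VV n)) (by fun_prop)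
      fun _ => hx
  · rw [hd]
    exact G.el_Z h t hx η
  · rw [hd]
    exact h.vel_unit (G.psi_mem h t hx)

end Geo

end Pool.Agent.Work.MP_8c604c_gt
end
end

-- merged part: Pool.Agent.Work.MP_8c604c_gt.DistA
section
/-!
The Riemannian distance of the projections, as a pseudo-metric upstairs.
Hints. dd_le_curve: reparametrise by a + (b-a) * Real.smoothTransition s. dd_triangle: concatenate two such
reparametrised paths (both are constant outside [0,1]; rescale the second path by a constant).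
dd_symm: reverse and rescale. dd_local: use the straight segment between c1 eps and c2 eps.
corner: triangle inequality through Z (-eps) and Z eps, dd_local with a = -v, b = v', |v + v'|_g < 2.
orth: pi/2 = dd (q tau) y <= dd (q tau) (Z eps) + pi/2 - eps with tau = k eps, so |v - k a|_g >= 1 for all real k.
-/

set_option maxSynthPendingDepth 3

open Set Filter Topology MeasureTheory
open scoped ContDiff

noncomputable section
namespace Pool.Agent.Work.MP_8c604c_gt

variable {n : ℕ} {g : Met n}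

/-- Infimum of the lengths of joining paths. -/
def dd (g : Met n) (y y' : E n) : ℝ := sInf {l | ∃ c, Joins c y y' ∧ l = len g c}

theorem exists_joins {y y' : E n} (hy : y ≠ 0) (hy' : y' ≠ 0) : ∃ c, Joins c y y' := by
  by_cases h : ∃ a : ℂ, y = a • y'
  · exact ⟨fun _ => y, contDiff_const, fun _ => hy, rfl, h⟩
  · refine ⟨fun s => y + s • (y' - y), by fun_prop, fun s hs => ?_, by simp, 1, by simp⟩
    by_cases h1 : s = 1
    · apply hy'
      simpa [h1] using hs
    · refine h ⟨((-s / (1 - s) : ℝ) : ℂ), ?_⟩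
      have h2 : (1 - s) ≠ 0 := sub_ne_zero.2 (Ne.symm h1)
      have h3 : (1 - s) • y = (-s) • y' := by
        have hs' : y + s • (y' - y) = 0 := hs
        linear_combination (norm := module) hs'
      rw [Complex.coe_smul, div_eq_inv_mul, ← smul_smul, ← h3, smul_smul, inv_mul_cancel₀ h2,
        one_smul]

theorem distA_len_nonneg (c : ℝ → E n) : 0 ≤ len g c :=
  intervalIntegral.integral_nonneg zero_le_one fun _ _ => Real.sqrt_nonneg _

theorem dd_nonneg (y y' : E n) : 0 ≤ dd g y y' := by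
  refine Real.sInf_nonneg ?_
  rintro l ⟨c, -, rfl⟩
  exact distA_len_nonneg c

theorem dd_le_len {c : ℝ → E n} {y y' : E n} (hc : Joins c y y') : dd g y y' ≤ len g c := by
  refine csInf_le ⟨0, ?_⟩ ⟨c, hc, rfl⟩
  rintro l ⟨c, -, rfl⟩
  exact distA_len_nonneg c

theorem exists_len_lt {y y' : E n} (hy : y ≠ 0) (hy' : y' ≠ 0) {r : ℝ} (hr : dd g y y' < r) :
    ∃ c, Joins c y y' ∧ len g c < r := by
  obtain ⟨c, hc⟩ := exists_joins hy hy'
  obtain ⟨l, ⟨c', h1, rfl⟩, h2⟩ := exists_lt_of_csInf_lt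
    (s := {l | ∃ c, Joins c y y' ∧ l = len g c}) ⟨_, c, hc, rfl⟩ hr
  exact ⟨c', h1, h2⟩

theorem dd_smul_right {c : ℂ} (hc : c ≠ 0) (y y' : E n) : dd g y (c • y') = dd g y y' := by
  unfold dd
  congr 1
  ext l
  refine exists_congr fun d => and_congr_left fun _ => ⟨fun h => ?_, fun h => ?_⟩
  · obtain ⟨a, ha⟩ := h.stop
    exact ⟨h.smooth, h.ne, h.start, a * c, by rw [ha, smul_smul]⟩
  · obtain ⟨a, ha⟩ := h.stop
    exact ⟨h.smooth, h.ne, h.start, a * c⁻¹, by
      rw [ha, smul_smul, mul_assoc, inv_mul_cancel₀ hc, mul_one]⟩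

namespace IsMetric
variable (h : IsMetric g)
include h

theorem distA_cont {X : Type} [TopologicalSpace X] {S : Set X} {c u : X → E n}
    (hc : ContinuousOn c S) (hu : ContinuousOn u S) (h0 : ∀ t ∈ S, c t ≠ 0) :
    ContinuousOn (fun t => g (c t) (u t) (u t)) S :=
  ((h.smooth.continuousOn.comp hc h0).clm_apply hu).clm_apply hu

theorem distA_reparam {c c' : ℝ → E n} {a b : ℝ} (hab : a ≤ b)
    (hc : ∀ t ∈ Icc a b, HasDerivAt c (c' t) t) (hc' : ContinuousOn c' (Icc a b))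
    (h0 : ∀ t ∈ Icc a b, c t ≠ 0) :
    ∃ γ : ℝ → E n, ContDiff ℝ 1 γ ∧ (∀ s, γ s ≠ 0) ∧ (∀ s ≤ 0, γ s = c a) ∧
      (∀ s, 1 ≤ s → γ s = c b) ∧ len g γ = ∫ t in a..b, √(g (c t) (c' t) (c' t)) := by
  set φ : ℝ → ℝ := fun s => a + (b - a) * Real.smoothTransition s with hφ
  have hba : 0 ≤ b - a := sub_nonneg.2 hab
  have hm : ∀ s, φ s ∈ Icc a b := fun s => by
    have h1 := Real.smoothTransition.nonneg s
    have h2 := Real.smoothTransition.le_one s
    constructor
    · simp only [hφ]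
      nlinarith
    · simp only [hφ]
      nlinarith
  have hd : ∀ s, HasDerivAt φ ((b - a) * wt s) s := fun s =>
    ((((Real.smoothTransition.contDiff (n := 1)).differentiable one_ne_zero) s).hasDerivAt.const_mul
      (b - a)).const_add a
  have hφc : Continuous φ := continuous_iff_continuousAt.2 fun s => (hd s).continuousAt
  have hw : Continuous fun s => (b - a) * wt s := continuous_const.mul contDiff_wt.continuous
  have hγ : ∀ s, HasDerivAt (c ∘ φ) (((b - a) * wt s) • c' (φ s)) s := fun s =>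
    (hc _ (hm s)).scomp s (hd s)
  have hγ' : deriv (c ∘ φ) = fun s => ((b - a) * wt s) • c' (φ s) := funext fun s => (hγ s).deriv
  have h1 : φ 0 = a := by simp [hφ]
  have h2 : φ 1 = b := by simp [hφ]
  refine ⟨c ∘ φ, contDiff_one_iff_deriv.2 ⟨fun s => (hγ s).differentiableAt, ?_⟩,
    fun s => h0 _ (hm s), fun s hs => ?_, fun s hs => ?_, ?_⟩
  · rw [hγ']
    exact hw.smul (hc'.comp_continuous hφc hm)
  · simp [hφ, Real.smoothTransition.zero_of_nonpos hs]
  · simp [hφ, Real.smoothTransition.one_of_one_le hs]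
  · have h3 : ContinuousOn (fun t => √(g (c t) (c' t) (c' t))) (Icc a b) :=
      (h.distA_cont (fun t ht => (hc t ht).continuousAt.continuousWithinAt) hc' h0).sqrt
    have h4 := intervalIntegral.integral_comp_mul_deriv'' (a := 0) (b := 1) hφc.continuousOn
      (fun s _ => (hd s).hasDerivWithinAt) hw.continuousOn
      (h3.mono (by rintro _ ⟨s, -, rfl⟩; exact hm s))
    rw [h1, h2] at h4
    rw [← h4, len, hγ']
    refine intervalIntegral.integral_congr fun s _ => ?_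
    have h5 : 0 ≤ (b - a) * wt s := mul_nonneg hba (wt_nonneg s)
    simp only [Function.comp, map_smul, ContinuousLinearMap.smul_apply, smul_eq_mul]
    rw [← mul_assoc, Real.sqrt_mul (mul_self_nonneg _), Real.sqrt_mul_self h5, mul_comm]

theorem dd_le_curve {c c' : ℝ → E n} {a b : ℝ} (hab : a ≤ b)
    (hc : ∀ t ∈ Icc a b, HasDerivAt c (c' t) t) (hc' : ContinuousOn c' (Icc a b))
    (h0 : ∀ t ∈ Icc a b, c t ≠ 0) :
    dd g (c a) (c b) ≤ ∫ t in a..b, √(g (c t) (c' t) (c' t)) := by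
  obtain ⟨γ, h1, h2, h3, h4, h5⟩ := h.distA_reparam hab hc hc' h0
  rw [← h5]
  exact dd_le_len ⟨h1, h2, h3 0 le_rfl, 1, by rw [h4 1 le_rfl, one_smul]⟩

theorem distA_len_smul {c : ℂ} (hc : c ≠ 0) {d : ℝ → E n} (hd : ContDiff ℝ 1 d)
    (h0 : ∀ s, d s ≠ 0) : len g (fun s => c • d s) = len g d := by
  refine intervalIntegral.integral_congr fun s _ => ?_
  have h1 : deriv (fun s => c • d s) s = c • deriv d s :=
    ((hd.differentiable one_ne_zero s).hasDerivAt.const_smul c).deriv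
  simp only [h1, h.inv c _ _ _ hc (h0 s)]

theorem dd_smul_left {c : ℂ} (hc : c ≠ 0) (y y' : E n) : dd g (c • y) y' = dd g y y' := by
  have key : ∀ {c : ℂ}, c ≠ 0 → ∀ y : E n, {l | ∃ d, Joins d y y' ∧ l = len g d} ⊆
      {l | ∃ d, Joins d (c • y) y' ∧ l = len g d} := by
    rintro c hc y l ⟨d, h1, rfl⟩
    obtain ⟨a, ha⟩ := h1.stop
    exact ⟨fun s => c • d s, ⟨h1.smooth.const_smul c, fun s => smul_ne_zero hc (h1.ne s),
      by simp only [h1.start], c * a, by simp only [ha, smul_smul]⟩,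
      (h.distA_len_smul hc h1.smooth h1.ne).symm⟩
  unfold dd
  congr 1
  refine Subset.antisymm ?_ (key hc y)
  have := key (inv_ne_zero hc) (c • y)
  rwa [smul_smul, inv_mul_cancel₀ hc, one_smul] at this

theorem dd_self {y : E n} (hy : y ≠ 0) : dd g y y = 0 := by
  refine le_antisymm ?_ (dd_nonneg _ _)
  have h1 := dd_le_len (g := g) (c := fun _ => y) (y := y) (y' := y)
    ⟨contDiff_const, fun _ => hy, rfl, 1, by simp⟩
  simpa [len] using h1

theorem dd_symm {y y' : E n} (hy : y ≠ 0) (hy' : y' ≠ 0) : dd g y y' = dd g y' y := by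
  have key : ∀ {y y' : E n}, y ≠ 0 → y' ≠ 0 → dd g y' y ≤ dd g y y' := by
    intro y y' hy hy'
    refine le_of_forall_gt_imp_ge_of_dense fun r hr => ?_
    obtain ⟨c, hc, h1⟩ := exists_len_lt hy hy' hr
    obtain ⟨a, ha⟩ := hc.stop
    have ha0 : a ≠ 0 := by
      rintro rfl
      exact hc.ne 1 (by rw [ha, zero_smul])
    have h2 : Joins (fun s => c (1 - s)) (a • y') y :=
      ⟨hc.smooth.comp (contDiff_const.sub contDiff_id), fun s => hc.ne _, by simp [ha], 1,
        by simp [hc.start]⟩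
    have h3 : len g (fun s => c (1 - s)) = len g c := by
      have h4 := intervalIntegral.integral_comp_sub_left (a := 0) (b := 1)
        (fun t => √(g (c t) (deriv c t) (deriv c t))) 1
      rw [sub_self, sub_zero] at h4
      rw [len, len, ← h4]
      refine intervalIntegral.integral_congr fun s _ => ?_
      simp only [deriv_comp_const_sub, map_neg, ContinuousLinearMap.neg_apply, neg_neg]
    rw [← h.dd_smul_left ha0]
    exact (dd_le_len h2).trans (h3.trans_le h1.le)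
  exact le_antisymm (key hy' hy) (key hy hy')

theorem distA_flat {c : ℝ → E n} (hc : ContDiff ℝ 1 c) (h0 : ∀ s, c s ≠ 0) :
    ∃ γ : ℝ → E n, ContDiff ℝ 1 γ ∧ (∀ s, γ s ≠ 0) ∧ (∀ s ≤ 0, γ s = c 0) ∧
      (∀ s, 1 ≤ s → γ s = c 1) ∧ len g γ = len g c :=
  h.distA_reparam zero_le_one (fun t _ => (hc.differentiable one_ne_zero t).hasDerivAt)
    (hc.continuous_deriv le_rfl).continuousOn fun t _ => h0 t

theorem distA_concat {c₁ c₂ : ℝ → E n} (h₁ : ContDiff ℝ 1 c₁) (n₁ : ∀ s, c₁ s ≠ 0)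
    (h₂ : ContDiff ℝ 1 c₂) (n₂ : ∀ s, c₂ s ≠ 0) (e : c₂ 0 = c₁ 1) :
    dd g (c₁ 0) (c₂ 1) ≤ len g c₁ + len g c₂ := by
  obtain ⟨γ₁, a1, a2, a3, a4, a5⟩ := h.distA_flat h₁ n₁
  obtain ⟨γ₂, b1, b2, b3, b4, b5⟩ := h.distA_flat h₂ n₂
  set d : ℝ → E n := fun t => γ₁ t + γ₂ (t - 1) - c₁ 1 with hd
  have d1 : ContDiff ℝ 1 d := (a1.add (b1.comp (contDiff_id.sub contDiff_const))).sub contDiff_const
  have d2 : ∀ t ≤ 1, d t = γ₁ t := fun t ht => by
    simp only [hd, b3 (t - 1) (by linarith), e, add_sub_cancel_right]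
  have d3 : ∀ t, 1 ≤ t → d t = γ₂ (t - 1) := fun t ht => by
    simp only [hd, a4 t ht, add_sub_cancel_left]
  have d4 : ∀ t, d t ≠ 0 := fun t => by
    rcases le_total t 1 with k | k
    · rw [d2 t k]
      exact a2 _
    · rw [d3 t k]
      exact b2 _
  have d5 : Continuous fun t => √(g (d t) (deriv d t) (deriv d t)) :=
    (continuousOn_univ.1 (h.distA_cont d1.continuous.continuousOn
      (d1.continuous_deriv le_rfl).continuousOn fun t _ => d4 t)).sqrt
  have h1 := h.dd_le_curve (c := d) (c' := deriv d) (a := 0) (b := 2) zero_le_two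
    (fun t _ => (d1.differentiable one_ne_zero t).hasDerivAt)
    (d1.continuous_deriv le_rfl).continuousOn fun t _ => d4 t
  rw [d2 0 zero_le_one, d3 2 one_le_two, a3 0 le_rfl, b4 _ (by norm_num),
    ← intervalIntegral.integral_add_adjacent_intervals (b := 1) (d5.intervalIntegrable _ _)
      (d5.intervalIntegrable _ _)] at h1
  have h2 : ∫ t in (0 : ℝ)..1, √(g (d t) (deriv d t) (deriv d t)) = len g γ₁ := by
    refine intervalIntegral.integral_congr_Ioo_of_le zero_le_one fun t ht => ?_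
    have k : d =ᶠ[𝓝 t] γ₁ := (eventually_lt_nhds ht.2).mono fun s hs => d2 s hs.le
    simp only [k.deriv_eq, k.eq_of_nhds]
  have h3 : ∫ t in (1 : ℝ)..2, √(g (d t) (deriv d t) (deriv d t)) = len g γ₂ := by
    have k1 := intervalIntegral.integral_comp_sub_right (a := 1) (b := 2)
      (fun t => √(g (γ₂ t) (deriv γ₂ t) (deriv γ₂ t))) 1
    rw [sub_self, show (2 : ℝ) - 1 = 1 by norm_num] at k1
    rw [len, ← k1]
    refine intervalIntegral.integral_congr_Ioo_of_le one_le_two fun t ht => ?_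
    have k : d =ᶠ[𝓝 t] fun s => γ₂ (s - 1) := (eventually_gt_nhds ht.1).mono fun s hs => d3 s hs.le
    simp only [k.deriv_eq, k.eq_of_nhds, deriv_comp_sub_const]
  rw [h2, h3, a5, b5] at h1
  exact h1

theorem dd_triangle {y y' y'' : E n} (hy : y ≠ 0) (hy' : y' ≠ 0) (hy'' : y'' ≠ 0) :
    dd g y y'' ≤ dd g y y' + dd g y' y'' := by
  have key : ∀ c₁ c₂, Joins c₁ y y' → Joins c₂ y' y'' → dd g y y'' ≤ len g c₁ + len g c₂ := by
    intro c₁ c₂ j₁ j₂
    obtain ⟨a, ha⟩ := j₁.stop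
    have ha0 : a ≠ 0 := by
      rintro rfl
      exact j₁.ne 1 (by rw [ha, zero_smul])
    obtain ⟨b, hb⟩ := j₂.stop
    have hb0 : b ≠ 0 := by
      rintro rfl
      exact j₂.ne 1 (by rw [hb, zero_smul])
    have h1 := h.distA_concat j₁.smooth j₁.ne (j₂.smooth.const_smul a)
      (fun s => smul_ne_zero ha0 (j₂.ne s)) (by simp only [j₂.start, ha])
    rw [h.distA_len_smul ha0 j₂.smooth j₂.ne, j₁.start, hb, dd_smul_right ha0,
      dd_smul_right hb0] at h1
    exact h1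
  refine le_of_forall_pos_le_add fun ε hε => ?_
  obtain ⟨c₁, j₁, k₁⟩ := exists_len_lt hy hy' (lt_add_of_pos_right (dd g y y') (half_pos hε))
  obtain ⟨c₂, j₂, k₂⟩ := exists_len_lt hy' hy'' (lt_add_of_pos_right (dd g y' y'') (half_pos hε))
  linarith [key c₁ c₂ j₁ j₂]

theorem distA_seg {z u : E n} {M : ℝ}
    (H : ∀ s ∈ Icc (0 : ℝ) 1, z + s • u ≠ 0 ∧ √(g (z + s • u) u u) ≤ M) :
    dd g z (z + u) ≤ M := by
  have h1 := h.dd_le_curve (c := fun s : ℝ => z + s • u) (c' := fun _ => u) zero_le_one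
    (fun t _ => by simpa using ((hasDerivAt_id t).smul_const u).const_add z) continuousOn_const
    fun t ht => (H t ht).1
  simp only [zero_smul, add_zero, one_smul] at h1
  refine h1.trans ?_
  have h2 : ContinuousOn (fun s : ℝ => √(g (z + s • u) u u)) (Icc 0 1) :=
    (h.distA_cont (c := fun s : ℝ => z + s • u) (u := fun _ => u) (by fun_prop) continuousOn_const
      fun t ht => (H t ht).1).sqrt
  have h3 := intervalIntegral.integral_mono_on (μ := volume) zero_le_one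
    (h2.intervalIntegrable_of_Icc zero_le_one) intervalIntegrable_const fun s hs => (H s hs).2
  simpa using h3

theorem dd_local {y a b : E n} (hy : y ≠ 0) {c₁ c₂ : ℝ → E n} (h₁ : HasDerivAt c₁ a 0)
    (h₂ : HasDerivAt c₂ b 0) (e₁ : c₁ 0 = y) (e₂ : c₂ 0 = y) {η : ℝ} (hη : 0 < η) :
    ∀ᶠ ε in 𝓝[>] (0 : ℝ), dd g (c₁ ε) (c₂ ε) ≤ ε * (√(g y (a - b) (a - b)) + η) := by
  have h1 : ContinuousAt (fun p : VV n => √(g p.1 p.2 p.2)) (y, b - a) :=
    ((h.distA_cont (S := {p : VV n | p.1 ≠ 0}) continuousOn_fst continuousOn_snd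
      fun _ k => k).continuousAt
        ((isOpen_ne_fun continuous_fst continuous_const).mem_nhds hy)).sqrt
  have h2 : g y (b - a) (b - a) = g y (a - b) (a - b) := by
    rw [← neg_sub a b]
    simp only [map_neg, ContinuousLinearMap.neg_apply, neg_neg]
  have h3 : ∀ᶠ p : VV n in 𝓝 (y, b - a),
      p.1 ≠ 0 ∧ √(g p.1 p.2 p.2) ≤ √(g y (a - b) (a - b)) + η := by
    refine Eventually.and ((isOpen_ne_fun continuous_fst continuous_const).mem_nhds hy)
      (h1.eventually (ge_mem_nhds ?_))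
    simp only [h2]
    linarith
  obtain ⟨δ, hδ, h4⟩ := Metric.eventually_nhds_iff_ball.1 h3
  have k1 : ∀ᶠ ε in 𝓝[>] (0 : ℝ), c₁ ε ∈ Metric.ball y δ :=
    (h₁.continuousAt.eventually (e₁ ▸ Metric.ball_mem_nhds _ hδ)).filter_mono nhdsWithin_le_nhds
  have k2 : ∀ᶠ ε in 𝓝[>] (0 : ℝ), c₂ ε ∈ Metric.ball y δ :=
    (h₂.continuousAt.eventually (e₂ ▸ Metric.ball_mem_nhds _ hδ)).filter_mono nhdsWithin_le_nhds
  have k3 := (h₂.sub h₁).tendsto_slope_zero_right.eventually (Metric.ball_mem_nhds _ hδ)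
  filter_upwards [k1, k2, k3, self_mem_nhdsWithin] with ε m1 m2 m3 (hε : 0 < ε)
  simp only [Pi.sub_apply, zero_add, e₁, e₂, sub_self, sub_zero] at m3
  have m4 := h.distA_seg (z := c₁ ε) (u := c₂ ε - c₁ ε)
    (M := ε * (√(g y (a - b) (a - b)) + η)) fun s hs => by
      have m5 : c₁ ε + s • (c₂ ε - c₁ ε) ∈ Metric.ball y δ :=
        (convex_ball y δ).add_smul_sub_mem m1 m2 hs
      obtain ⟨m6, m7⟩ := h4 (c₁ ε + s • (c₂ ε - c₁ ε), ε⁻¹ • (c₂ ε - c₁ ε)) (by
        rw [← ball_prod_same]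
        exact ⟨m5, m3⟩)
      refine ⟨m6, ?_⟩
      simp only [map_smul, ContinuousLinearMap.smul_apply, smul_eq_mul] at m7
      rw [← mul_assoc, Real.sqrt_mul (mul_self_nonneg _), Real.sqrt_mul_self (inv_pos.2 hε).le,
        inv_mul_le_iff₀ hε] at m7
      exact m7
  rwa [add_sub_cancel] at m4

theorem distA_tendsto {y : E n} (hy : y ≠ 0) : Tendsto (dd g y) (𝓝 y) (𝓝 0) := by
  have h1 : ContinuousAt (fun z => ‖g z‖) y := (h.contDiffAt hy).continuousAt.norm
  have h3 : ∀ᶠ z in 𝓝 y, z ≠ 0 ∧ ‖g z‖ ≤ ‖g y‖ + 1 :=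
    (eventually_ne_nhds hy).and (h1.eventually (ge_mem_nhds (lt_add_one _)))
  obtain ⟨δ, hδ, h4⟩ := Metric.eventually_nhds_iff_ball.1 h3
  have h5 : Tendsto (fun z => √(‖g y‖ + 1) * ‖z - y‖) (𝓝 y) (𝓝 0) := by
    have : Continuous fun z => √(‖g y‖ + 1) * ‖z - y‖ := by fun_prop
    simpa using this.tendsto y
  refine squeeze_zero' (Eventually.of_forall fun _ => dd_nonneg _ _) ?_ h5
  filter_upwards [Metric.ball_mem_nhds y hδ] with z hz
  have m4 := h.distA_seg (z := y) (u := z - y) (M := √(‖g y‖ + 1) * ‖z - y‖) fun s hs => by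
    obtain ⟨m6, m7⟩ := h4 _ ((convex_ball y δ).add_smul_sub_mem (Metric.mem_ball_self hδ) hz hs)
    refine ⟨m6, ?_⟩
    rw [← Real.sqrt_sq (norm_nonneg (z - y)), ← Real.sqrt_mul (by positivity)]
    refine Real.sqrt_le_sqrt ((le_abs_self _).trans ?_)
    refine (((g _).le_opNorm₂ (z - y) (z - y))).trans ?_
    rw [mul_assoc, ← sq]
    exact mul_le_mul_of_nonneg_right m7 (by positivity)
  rwa [add_sub_cancel] at m4

theorem continuousOn_dd :
    ContinuousOn (fun p : VV n => dd g p.1 p.2) {p | p.1 ≠ 0 ∧ p.2 ≠ 0} := by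
  rintro p ⟨hp1, hp2⟩
  have h1 : Tendsto (fun q : VV n => dd g p.1 q.1 + dd g p.2 q.2) (𝓝 p) (𝓝 0) := by
    simpa using ((h.distA_tendsto hp1).comp continuous_fst.continuousAt).add
      ((h.distA_tendsto hp2).comp continuous_snd.continuousAt)
  rw [ContinuousWithinAt, tendsto_iff_dist_tendsto_zero]
  refine squeeze_zero' (Eventually.of_forall fun _ => dist_nonneg) ?_
    (h1.mono_left nhdsWithin_le_nhds)
  filter_upwards [self_mem_nhdsWithin] with q ⟨hq1, hq2⟩
  have k1 := h.dd_triangle hq1 hp1 hq2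
  have k2 := h.dd_triangle hp1 hp2 hq2
  have k3 := h.dd_triangle hp1 hq1 hp2
  have k4 := h.dd_triangle hq1 hq2 hp2
  rw [h.dd_symm hq1 hp1] at k1
  rw [h.dd_symm hq2 hp2] at k4
  rw [Real.dist_eq, abs_le]
  constructor <;> linarith

/-- Length is controlled by energy. -/
theorem len_le_energy {c c' : ℝ → E n} {a b : ℝ} (hab : a ≤ b)
    (hc : ContinuousOn c (Icc a b)) (hc' : ContinuousOn c' (Icc a b))
    (h0 : ∀ t ∈ Icc a b, c t ≠ 0) :
    (∫ t in a..b, √(g (c t) (c' t) (c' t))) ≤ (b - a) / 2 + ∫ t in a..b, Lg g (c t, c' t) := by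
  have h1 := h.distA_cont hc hc' h0
  have h2 : IntervalIntegrable (fun t => Lg g (c t, c' t)) volume a b :=
    (continuousOn_const.mul h1).intervalIntegrable_of_Icc hab
  have h3 := intervalIntegral.integral_mono_on (μ := volume) hab
    (h1.sqrt.intervalIntegrable_of_Icc hab)
    ((intervalIntegrable_const (c := (1 / 2 : ℝ))).add h2) fun t ht => by
      have k1 := Real.sq_sqrt (h.nonneg (h0 t ht) (c' t))
      simp only [Lg]
      nlinarith [sq_nonneg (√(g (c t) (c' t) (c' t)) - 1)]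
  rw [intervalIntegral.integral_add intervalIntegrable_const h2] at h3
  simp only [intervalIntegral.integral_const, smul_eq_mul] at h3
  linarith

theorem distA_φ (G : Geo g) {x : VV n} (hx : x.1 ≠ 0) (s t : ℝ) :
    dd g (G.φ s x).1 (G.φ t x).1 ≤ |t - s| * spd g x := by
  have h1 : Continuous fun t => G.φ t x :=
    G.smooth.continuousOn.comp_continuous (f := fun t : ℝ => (t, x)) (by fun_prop) fun _ => hx
  have h2 : Continuous fun t => hor (G.φ t x).1 (G.φ t x).2 :=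
    (contDiffOn_horL.continuousOn.comp_continuous h1.fst fun t => G.φ_ne t hx).clm_apply h1.snd
  have key : ∀ s t, s ≤ t → dd g (G.φ s x).1 (G.φ t x).1 ≤ (t - s) * spd g x := by
    intro s t hst
    refine (h.dd_le_curve hst (fun r _ => G.deriv_fst r x hx) h2.continuousOn
      fun r _ => G.φ_ne r hx).trans_eq ?_
    simp only [h.hor_left (G.φ_ne _ hx), h.hor_right (G.φ_ne _ hx), G.energy _ x hx,
      intervalIntegral.integral_const, smul_eq_mul, spd]
  rcases le_total s t with k | k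
  · rw [abs_of_nonneg (sub_nonneg.2 k)]
    exact key s t k
  · rw [abs_sub_comm, abs_of_nonneg (sub_nonneg.2 k), h.dd_symm (G.φ_ne _ hx) (G.φ_ne _ hx)]
    exact key t s k

theorem dd_Z_le (G : Geo g) {x : VV n} (hx : x ∈ OO n) (s t : ℝ) :
    dd g (G.Z s x) (G.Z t x) ≤ |t - s| := by
  have h1 := h.distA_φ G hx.1 (s / spd g x) (t / spd g x)
  have h2 := h.spd_pos hx
  rwa [← sub_div, abs_div, abs_of_pos h2, div_mul_cancel₀ _ h2.ne'] at h1

theorem dd_φ_le (G : Geo g) {x : VV n} (hx : x.1 ≠ 0) (s t : ℝ) :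
    dd g (G.φ s x).1 (G.φ t x).1 ≤ |t - s| * spd g x := by
  exact h.distA_φ G hx s t

/-- A corner can be cut. -/
theorem corner (G : Geo g) {x x' : VV n} (hx : x ∈ OO n) (hx' : x' ∈ OO n) (e : x'.1 = x.1)
    (hv : vel g x' ≠ vel g x) {r r' : ℝ} (hr : 0 < r) (hr' : 0 < r') :
    dd g (G.Z (-r) x) (G.Z r' x') < r + r' := by
  have h1 : HasDerivAt (fun ε => G.Z (-ε) x) (-vel g x) 0 := by
    have k := G.hasDerivAt_Z h (-0) hx
    have k2 := k.scomp (0 : ℝ) (hasDerivAt_neg (0 : ℝ))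
    rw [neg_zero, G.psi_zero h hx, neg_one_smul] at k2
    exact k2
  have h2 : HasDerivAt (fun ε => G.Z ε x') (vel g x') 0 := by
    have k := G.hasDerivAt_Z h 0 hx'
    rwa [G.psi_zero h hx'] at k
  have h3 : g x.1 (vel g x) (vel g x) = 1 := h.vel_unit hx
  have h4 : g x.1 (vel g x') (vel g x') = 1 := e ▸ h.vel_unit hx'
  have h5 : 0 < g x.1 (vel g x - vel g x') (vel g x - vel g x') := by
    refine (h.nonneg hx.1 _).lt_of_ne fun k => hv ?_
    have k1 := h.hor_eq_zero hx.1 k.symm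
    have k2 : nu x.1 (vel g x') = 0 := e ▸ h.nu_vel hx'.1
    rw [hor_of_nu (by rw [← nuL_apply, map_sub, nuL_apply, nuL_apply, k2, h.nu_vel hx.1, sub_self]),
      sub_eq_zero] at k1
    exact k1.symm
  have h6 : √(g x.1 (-vel g x - vel g x') (-vel g x - vel g x')) < 2 := by
    rw [Real.sqrt_lt' two_pos]
    simp only [map_sub, map_neg, ContinuousLinearMap.sub_apply, ContinuousLinearMap.neg_apply, h3,
      h4] at h5 ⊢
    linarith
  set q := √(g x.1 (-vel g x - vel g x') (-vel g x - vel g x')) with hq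
  have h7 := h.dd_local hx.1 h1 h2 (by simp only [neg_zero, Geo.Z, G.psi_zero h hx])
    (by simp only [Geo.Z, G.psi_zero h hx', e]) (η := (2 - q) / 2) (by linarith)
  obtain ⟨ε, k1, k2, k3⟩ := (h7.and (Ioo_mem_nhdsGT (lt_min hr hr'))).exists
  have k4 := h.dd_Z_le G hx (-r) (-ε)
  have k5 := h.dd_Z_le G hx' ε r'
  have k6 := h.dd_triangle (G.Z_ne h (-r) hx) (G.Z_ne h (-ε) hx) (G.Z_ne h r' hx')
  have k7 := h.dd_triangle (G.Z_ne h (-ε) hx) (G.Z_ne h ε hx') (G.Z_ne h r' hx')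
  rw [abs_of_nonneg (by linarith [min_le_left r r'])] at k4
  rw [abs_of_nonneg (by linarith [min_le_right r r'])] at k5
  rw [← hq] at k1
  nlinarith

end IsMetric

/-- `E n` with the pseudo-metric `dd`. -/
def Mg (_h : IsMetric g) : Type := E n

/-- Replace the origin by a fixed nonzero vector. -/
def fixz (y : E n) : E n := by
  classical exact if y = 0 then EuclideanSpace.single 0 1 else y

theorem fixz_ne (y : E n) : fixz y ≠ 0 := by
  unfold fixz
  split_ifs with h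
  · simp
  · exact h

theorem fixz_of_ne {y : E n} (hy : y ≠ 0) : fixz y = y := by
  unfold fixz
  exact if_neg hy

instance (h : IsMetric g) : PseudoMetricSpace (Mg h) where
  dist a b := dd g (fixz a) (fixz b)
  dist_self a := h.dd_self (fixz_ne a)
  dist_comm a b := h.dd_symm (fixz_ne a) (fixz_ne b)
  dist_triangle a b c := h.dd_triangle (fixz_ne a) (fixz_ne b) (fixz_ne c)

/-- The identity map to the pseudo-metric space. -/
def toM (h : IsMetric g) (y : E n) : Mg h := y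

theorem dist_toM (h : IsMetric g) {y y' : E n} (hy : y ≠ 0) (hy' : y' ≠ 0) :
    dist (toM h y) (toM h y') = dd g y y' := by
  show dd g (fixz y) (fixz y') = _
  rw [fixz_of_ne hy, fixz_of_ne hy']

/-- Metric length of a curve on `[a, b]`. -/
def Var (h : IsMetric g) (c : ℝ → E n) (a b : ℝ) : ENNReal :=
  eVariationOn (fun t => toM h (c t)) (Icc a b)

theorem Var_le_curve (h : IsMetric g) {c c' : ℝ → E n} {a b : ℝ} (hab : a ≤ b)
    (hc : ∀ t ∈ Icc a b, HasDerivAt c (c' t) t) (hc' : ContinuousOn c' (Icc a b))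
    (h0 : ∀ t ∈ Icc a b, c t ≠ 0) :
    Var h c a b ≤ ENNReal.ofReal (∫ t in a..b, √(g (c t) (c' t) (c' t))) := by
  have h1 : ContinuousOn (fun t => √(g (c t) (c' t) (c' t))) (Icc a b) :=
    (h.distA_cont (fun t ht => (hc t ht).continuousAt.continuousWithinAt) hc' h0).sqrt
  have h2 : ∀ s ∈ Icc a b, ∀ t ∈ Icc a b,
      IntervalIntegrable (fun t => √(g (c t) (c' t) (c' t))) volume s t := fun s hs t ht =>
    (h1.mono (uIcc_subset_Icc hs ht)).intervalIntegrable
  set P : ℝ → ℝ := fun t => ∫ s in a..t, √(g (c s) (c' s) (c' s)) with hP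
  have h3 : ∀ s ∈ Icc a b, ∀ t ∈ Icc a b, s ≤ t → dd g (c s) (c t) ≤ P t - P s := by
    intro s hs t ht hst
    have k : Icc s t ⊆ Icc a b := Icc_subset_Icc hs.1 ht.2
    rw [hP, intervalIntegral.integral_interval_sub_left (h2 a (left_mem_Icc.2 hab) t ht)
      (h2 a (left_mem_Icc.2 hab) s hs)]
    exact h.dd_le_curve hst (fun r hr => hc r (k hr)) (hc'.mono k) fun r hr => h0 r (k hr)
  have h4 : MonotoneOn P (Icc a b) := fun s hs t ht hst =>
    sub_nonneg.1 ((dd_nonneg _ _).trans (h3 s hs t ht hst))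
  have h5 := h4.eVariationOn_le (left_mem_Icc.2 hab) (right_mem_Icc.2 hab)
  rw [inter_self, show P b - P a = P b by simp [hP]] at h5
  refine le_trans (iSup_le ?_) h5
  rintro ⟨k, u, hu, us⟩
  refine le_trans (Finset.sum_le_sum fun i _ => ?_) (eVariationOn.sum_le hu us)
  rw [edist_dist, edist_dist, dist_comm, dist_toM h (h0 _ (us i)) (h0 _ (us (i + 1)))]
  exact ENNReal.ofReal_le_ofReal
    ((h3 _ (us i) _ (us (i + 1)) (hu (Nat.le_succ i))).trans (le_abs_self _))

theorem Var_add (h : IsMetric g) (c : ℝ → E n) {a b d : ℝ} (hab : a ≤ b) (hbd : b ≤ d) :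
    Var h c a b + Var h c b d = Var h c a d := by
  simpa only [univ_inter, Var] using
    eVariationOn.Icc_add_Icc (fun t => toM h (c t)) (s := univ) hab hbd (mem_univ b)

theorem Var_congr (h : IsMetric g) {c c' : ℝ → E n} {a b : ℝ} (h0 : ∀ t ∈ Icc a b, c t ≠ 0)
    (hl : ∀ t ∈ Icc a b, ∃ l : ℂ, l ≠ 0 ∧ c' t = l • c t) : Var h c' a b = Var h c a b := by
  refine eVariationOn.eq_of_edist_zero_on fun t ht => ?_
  obtain ⟨l, h1, h2⟩ := hl t ht
  rw [edist_dist, h2, dist_toM h (smul_ne_zero h1 (h0 t ht)) (h0 t ht), h.dd_smul_left h1,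
    h.dd_self (h0 t ht), ENNReal.ofReal_zero]

theorem Var_shift (h : IsMetric g) (c : ℝ → E n) (a b s : ℝ) :
    Var h (fun t => c (t + s)) a b = Var h c (a + s) (b + s) := by
  have h1 := eVariationOn.comp_eq_of_monotoneOn (fun t => toM h (c t)) (t := Icc a b)
    (fun t => t + s) fun x _ y _ k => add_le_add_left k s
  rw [image_add_const_Icc] at h1
  exact h1

/-- On a short loop every point is closer than `π/2` to the base point. -/
theorem dd_lt_of_Var (h : IsMetric g) {c : ℝ → E n} (h0 : ∀ t ∈ Icc 0 Real.pi, c t ≠ 0)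
    (hl : ∃ l : ℂ, c Real.pi = l • c 0) (hV : Var h c 0 Real.pi < ENNReal.ofReal Real.pi) :
    ∀ t ∈ Icc 0 Real.pi, dd g (c 0) (c t) < Real.pi / 2 := by
  intro t ht
  have hp := Real.pi_pos
  have m0 : (0 : ℝ) ∈ Icc 0 Real.pi := left_mem_Icc.2 hp.le
  have m1 : Real.pi ∈ Icc 0 Real.pi := right_mem_Icc.2 hp.le
  obtain ⟨l, hl⟩ := hl
  have hl0 : l ≠ 0 := by
    rintro rfl
    exact h0 _ m1 (by rw [hl, zero_smul])
  have h1 : edist (toM h (c 0)) (toM h (c t)) ≤ Var h c 0 t :=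
    eVariationOn.edist_le (fun t => toM h (c t)) (left_mem_Icc.2 ht.1) (right_mem_Icc.2 ht.1)
  have h2 : edist (toM h (c Real.pi)) (toM h (c t)) ≤ Var h c t Real.pi :=
    eVariationOn.edist_le (fun t => toM h (c t)) (right_mem_Icc.2 ht.2) (left_mem_Icc.2 ht.2)
  rw [edist_dist, dist_toM h (h0 _ m0) (h0 t ht)] at h1
  rw [edist_dist, dist_toM h (h0 _ m1) (h0 t ht), hl, h.dd_smul_left hl0] at h2
  have h3 := (add_le_add h1 h2).trans_lt ((Var_add h c ht.1 ht.2).trans_lt hV)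
  rw [← ENNReal.ofReal_add (dd_nonneg _ _) (dd_nonneg _ _), ENNReal.ofReal_lt_ofReal_iff hp] at h3
  linarith

end Pool.Agent.Work.MP_8c604c_gt
end
end

-- merged part: Pool.Agent.Work.MP_8c604c_gt.Dist
section
/-!
The Riemannian distance of the projections, as a pseudo-metric upstairs.
Hints. dd_le_curve: reparametrise by a + (b-a) * Real.smoothTransition s. dd_triangle: concatenate two such
reparametrised paths (both are constant outside [0,1]; rescale the second path by a constant).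
dd_symm: reverse and rescale. dd_local: use the straight segment between c1 eps and c2 eps.
corner: triangle inequality through Z (-eps) and Z eps, dd_local with a = -v, b = v', |v + v'|_g < 2.
orth: pi/2 = dd (q tau) y <= dd (q tau) (Z eps) + pi/2 - eps with tau = k eps, so |v - k a|_g >= 1 for all real k.
-/

set_option maxSynthPendingDepth 3

open Set Filter Topology MeasureTheory
open scoped ContDiff

noncomputable section
namespace Pool.Agent.Work.MP_8c604c_gt

variable {n : ℕ} {g : Met n}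

theorem dist_smul_mem_OO {c : ℂ} (hc : c ≠ 0) {x : VV n} (hx : x ∈ OO n) : c • x ∈ OO n := by
  refine ⟨smul_ne_zero hc hx.1, fun d hd => hx.2 d (smul_right_injective _ hc ?_)⟩
  show c • x.2 = c • d • x.1
  rw [smul_comm c d]
  exact hd

theorem dist_Z_add (G : Geo g) (h : IsMetric g) (s t : ℝ) {x : VV n} (hx : x ∈ OO n) :
    G.Z s (G.psi t x) = G.Z (s + t) x := by
  rw [Geo.Z, Geo.Z, G.psi_add h s t hx]

theorem dist_Z_zero (G : Geo g) (h : IsMetric g) {x : VV n} (hx : x ∈ OO n) : G.Z 0 x = x.1 := by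
  rw [Geo.Z, G.psi_zero h hx]

theorem dist_quad {A C : ℝ} (hA : 0 ≤ A) (h : ∀ k : ℝ, 0 ≤ k * (k * A) - 2 * (k * C)) : C = 0 := by
  have h1 := h (C / (A + 1))
  obtain ⟨k, hk⟩ : ∃ k, k = C / (A + 1) := ⟨_, rfl⟩
  have h2 : C = k * (A + 1) := by rw [hk, div_mul_cancel₀ _ (by linarith)]
  rw [← hk, h2] at h1
  have h3 : k ^ 2 ≤ 0 := by nlinarith [mul_nonneg (sq_nonneg k) hA]
  rw [h2, pow_eq_zero_iff two_ne_zero |>.1 (le_antisymm h3 (sq_nonneg k)), zero_mul]

namespace Bl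
variable {G : Geo g} (B : Bl g G)
include B

theorem dist_dd_Z {x : VV n} (hx : x ∈ OO n) {s t : ℝ} (h0 : s ≤ t) (hst : t - s ≤ Real.pi / 2) :
    t - s ≤ dd g (G.Z s x) (G.Z t x) := by
  obtain ⟨c, hc⟩ := exists_joins (G.Z_ne B.met s hx) (G.Z_ne B.met t hx)
  refine le_csInf ⟨_, c, hc, rfl⟩ ?_
  rintro _ ⟨c, hc, rfl⟩
  refine B.min _ (G.psi_mem B.met s hx) (t - s) ⟨by linarith, hst⟩ c ?_
  rwa [dist_Z_add G B.met _ _ hx, sub_add_cancel]

theorem dd_Z {x : VV n} (hx : x ∈ OO n) {s t : ℝ} (hst : |t - s| ≤ Real.pi / 2) :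
    dd g (G.Z s x) (G.Z t x) = |t - s| := by
  refine le_antisymm (B.met.dd_Z_le G hx s t) ?_
  rcases le_total s t with h | h
  · rw [abs_of_nonneg (by linarith)] at hst ⊢
    exact B.dist_dd_Z hx h hst
  · rw [abs_sub_comm, abs_of_nonneg (by linarith)] at hst ⊢
    rw [B.met.dd_symm (G.Z_ne B.met s hx) (G.Z_ne B.met t hx)]
    exact B.dist_dd_Z hx h hst

theorem dd_ex {q u : E n} (hq : q ≠ 0) (hu : √(g q u u) ≤ Real.pi / 2) :
    dd g q (G.ex q u) = √(g q u u) := by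
  by_cases h : hor q u = 0
  · rw [← G.ex_hor hq, ← B.met.hor_left hq, h, G.ex_zero hq, B.met.dd_self hq]
    simp
  · have hx : (q, u) ∈ OO n := mem_OO.2 ⟨hq, h⟩
    have h1 : |spd g (q, u) - 0| = √(g q u u) := by
      rw [sub_zero]
      exact abs_of_nonneg (Real.sqrt_nonneg _)
    have h2 := B.dd_Z hx (h1.trans_le hu)
    rw [dist_Z_zero G B.met hx, ← G.ex_eq_Z B.met hx, h1] at h2
    exact h2

theorem Z_not_mem {x : VV n} (hx : x ∈ OO n) {t : ℝ} (ht : t ∈ Ioo 0 Real.pi) (c : ℂ) :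
    G.Z t x ≠ c • x.1 := by
  intro e
  have hc : c ≠ 0 := by
    rintro rfl
    exact G.Z_ne B.met t hx (by rw [e, zero_smul])
  rcases le_total t (Real.pi / 2) with h | h
  · have h1 := B.dist_dd_Z hx ht.1.le (by linarith)
    rw [dist_Z_zero G B.met hx, e, dd_smul_right hc, B.met.dd_self hx.1] at h1
    linarith [ht.1]
  · have h1 := B.dist_dd_Z hx ht.2.le (by linarith)
    obtain ⟨c', e'⟩ := B.per x hx 0
    rw [zero_add, dist_Z_zero G B.met hx] at e'
    have hc' : c' ≠ 0 := by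
      rintro rfl
      exact G.Z_ne B.met Real.pi hx (by rw [e', zero_smul])
    rw [e, e', dd_smul_right hc', B.met.dd_smul_left hc, B.met.dd_self hx.1] at h1
    linarith [ht.2]

/-- First variation at a point of maximal distance. -/
theorem orth {x : VV n} (hx : x ∈ OO n) {q : ℝ → E n} {a : E n} (hq : HasDerivAt q a 0)
    (h0 : q 0 = x.1) (hd : ∀ᶠ τ in 𝓝 (0 : ℝ), dd g (q τ) (G.Z (Real.pi / 2) x) = Real.pi / 2) :
    g x.1 a x.2 = 0 := by
  have key : ∀ k : ℝ, 1 ≤ √(g x.1 (k • a - vel g x) (k • a - vel g x)) := by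
    intro k
    refine le_of_forall_pos_le_add fun η hη => ?_
    have hk : HasDerivAt (fun ε : ℝ => k * ε) k 0 := by simpa using (hasDerivAt_id 0).const_mul k
    have h1 : HasDerivAt (fun ε : ℝ => q (k * ε)) (k • a) 0 :=
      HasDerivAt.scomp_of_eq 0 hq hk (by simp)
    have h2 := G.hasDerivAt_Z B.met 0 hx
    rw [G.psi_zero B.met hx] at h2
    have h3 := B.met.dd_local hx.1 h1 h2 (by simpa using h0) (dist_Z_zero G B.met hx) hη
    have h4 : ∀ᶠ ε in 𝓝 (0 : ℝ), q (k * ε) ≠ 0 :=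
      h1.continuousAt.eventually_ne (by simpa [h0] using hx.1)
    have ht : Tendsto (fun ε : ℝ => k * ε) (𝓝 0) (𝓝 0) := by
      simpa using hk.continuousAt.tendsto
    have h5 : ∀ᶠ ε in 𝓝[>] (0 : ℝ), ε ∈ Ioo 0 (Real.pi / 2) :=
      Ioo_mem_nhdsGT (by linarith [Real.pi_pos])
    obtain ⟨ε, e3, e5, e4, e6⟩ := (h3.and (h5.and
      ((h4.and (ht.eventually hd)).filter_mono nhdsWithin_le_nhds))).exists
    have e7 := B.met.dd_triangle e4 (G.Z_ne B.met ε hx) (G.Z_ne B.met (Real.pi / 2) hx)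
    have e8 := B.met.dd_Z_le G hx ε (Real.pi / 2)
    rw [abs_of_nonneg (by linarith [e5.2])] at e8
    refine le_of_mul_le_mul_left ?_ e5.1
    linarith
  have hv : g x.1 a (vel g x) = 0 := by
    refine dist_quad (B.met.nonneg hx.1 a) fun k => ?_
    have h1 := Real.one_le_sqrt.1 (key k)
    simp only [map_sub, map_smul, sub_apply, smul_apply,
      smul_eq_mul, B.met.vel_unit hx, B.met.symm x.1 (vel g x) a hx.1] at h1
    linarith
  rw [B.met.snd_eq hx, map_add, map_smul, hv, B.met.vert' _ _ hx.1, smul_zero, add_zero]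

/-- The exponential map is injective on the open ball of radius `π/2`. -/
theorem ex_inj {q u u' : E n} (hq : q ≠ 0) (hu : √(g q u u) < Real.pi / 2)
    (hu' : √(g q u' u') < Real.pi / 2) {c : ℂ} (e : G.ex q u = c • G.ex q u') :
    hor q u = hor q u' ∧ c = 1 := by
  have hc : c ≠ 0 := by
    rintro rfl
    exact G.ex_ne hq u (by rw [e, zero_smul])
  have hone : q = c • q → c = 1 := fun h =>
    smul_left_injective ℂ hq (show c • q = (1 : ℂ) • q by rw [one_smul, ← h])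
  have hr : √(g q u u) = √(g q u' u') := by
    rw [← B.dd_ex hq hu.le, ← B.dd_ex hq hu'.le, e, dd_smul_right hc]
  have hz : ∀ w, hor q w = 0 ↔ √(g q w w) = 0 := fun w => by
    rw [Real.sqrt_eq_zero (B.met.nonneg hq w)]
    refine ⟨fun h => ?_, B.met.hor_eq_zero hq⟩
    rw [← B.met.hor_left hq, h]
    simp
  by_cases h : hor q u = 0
  · have h' : hor q u' = 0 := by rwa [hz, ← hr, ← hz]
    rw [← G.ex_hor hq u, ← G.ex_hor hq u', h, h', G.ex_zero hq] at e
    exact ⟨h.trans h'.symm, hone e⟩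
  have h' : hor q u' ≠ 0 := by rwa [Ne, hz, ← hr, ← hz]
  have hx : (q, u) ∈ OO n := mem_OO.2 ⟨hq, h⟩
  have hx' : (q, u') ∈ OO n := mem_OO.2 ⟨hq, h'⟩
  obtain ⟨r, hr1⟩ : ∃ r, spd g (q, u) = r := ⟨_, rfl⟩
  have hr2 : spd g (q, u') = r := hr.symm.trans hr1
  have hr3 : r < Real.pi / 2 := hr1 ▸ hu
  have hr0 : 0 < r := hr1 ▸ B.met.spd_pos hx
  have e1 : G.Z r (q, u) = c • G.Z r (q, u') := by
    have e2 := G.ex_eq_Z B.met hx
    have e3 := G.ex_eq_Z B.met hx'
    rw [hr1] at e2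
    rw [hr2] at e3
    rw [← e2, ← e3]
    exact e
  have hy := G.psi_mem B.met r hx
  have hy0 := G.psi_mem B.met r hx'
  have hy' := dist_smul_mem_OO hc hy0
  have hZ' : ∀ t, G.Z t (c • G.psi r (q, u')) = c • G.Z (t + r) (q, u') := fun t => by
    rw [← dist_Z_add G B.met _ _ hx', Geo.Z, G.psi_smul B.met t hc hy0]
    rfl
  have hv : vel g (G.psi r (q, u)) = vel g (c • G.psi r (q, u')) := by
    by_contra hv
    have h1 := B.met.corner G hy' hy e1 hv hr0 (sub_pos.2 hr3)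
    have h2 := B.dist_dd_Z hx (s := 0) (t := Real.pi / 2) (by linarith) (by linarith)
    rw [hZ', dist_Z_add G B.met _ _ hx, neg_add_cancel, sub_add_cancel, B.met.dd_smul_left hc,
      dist_Z_zero G B.met hx'] at h1
    rw [dist_Z_zero G B.met hx] at h2
    linarith
  have hZ : ∀ t, G.Z t (q, u) = c • G.Z t (q, u') := fun t => by
    have h1 := G.Z_vel B.met (t - r) hy
    have h2 := G.Z_vel B.met (t - r) hy'
    rw [hZ', sub_add_cancel, ← hv] at h2
    rw [dist_Z_add G B.met _ _ hx, sub_add_cancel] at h1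
    rw [← h1, ← h2]
    exact congrArg (fun z => G.Z (t - r) (z, vel g (G.psi r (q, u)))) e1
  have hc1 : c = 1 := by
    have h1 := hZ 0
    rw [dist_Z_zero G B.met hx, dist_Z_zero G B.met hx'] at h1
    exact hone h1
  refine ⟨?_, hc1⟩
  have h1 := G.hasDerivAt_Z B.met 0 hx
  have h2 := G.hasDerivAt_Z B.met 0 hx'
  rw [G.psi_zero B.met hx, funext hZ, hc1] at h1
  rw [G.psi_zero B.met hx'] at h2
  simp only [one_smul] at h1
  have h3 := h1.unique h2
  rw [vel, vel, hr1, hr2] at h3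
  exact smul_right_injective _ (inv_ne_zero hr0.ne') h3

end Bl

end Pool.Agent.Work.MP_8c604c_gt
end
end

-- merged part: Pool.Agent.Work.MP_8c604c_gt.JacAux
section
/-! Calculus lemmas for the Jacobi fields. -/

set_option maxSynthPendingDepth 3

open Set Filter Topology
open scoped ContDiff

noncomputable section
namespace Pool.Agent.Work.MP_8c604c_gt

section calculus
variable {X Y : Type} [NormedAddCommGroup X] [NormedSpace ℝ X] [NormedAddCommGroup Y]
  [NormedSpace ℝ Y]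

theorem jac_curve {f : X → Y} {x v : X} (hf : DifferentiableAt ℝ f x) {c : ℝ → X}
    (hc : HasDerivAt c v 0) (h0 : c 0 = x) : HasDerivAt (fun s => f (c s)) (fderiv ℝ f x v) 0 := by
  subst h0
  exact hf.hasFDerivAt.comp_hasDerivAt 0 hc

theorem jac_line (x v : X) : HasDerivAt (fun s : ℝ => x + s • v) v 0 := by
  simpa using ((hasDerivAt_id (0 : ℝ)).smul_const v).const_add x

theorem jac_snd {F : ℝ → X → Y} {t : ℝ} {x : X}
    (hF : DifferentiableAt ℝ (fun p : ℝ × X => F p.1 p.2) (t, x)) :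
    HasFDerivAt (F t) ((fderiv ℝ (fun p : ℝ × X => F p.1 p.2) (t, x)).comp
      (ContinuousLinearMap.inr ℝ ℝ X)) x :=
  hF.hasFDerivAt.comp x (hasFDerivAt_prodMk_right t x)

theorem jac_fst {F : ℝ → X → Y} {t : ℝ} {x : X}
    (hF : DifferentiableAt ℝ (fun p : ℝ × X => F p.1 p.2) (t, x)) :
    HasDerivAt (fun s => F s x) (fderiv ℝ (fun p : ℝ × X => F p.1 p.2) (t, x) (1, 0)) t :=
  HasFDerivAt.comp_hasDerivAt (f := fun s => (s, x)) t hF.hasFDerivAt
    ((hasDerivAt_id t).prodMk (hasDerivAt_const t x))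

theorem jac_total {F : ℝ → X → Y} {t : ℝ} {x : X}
    (hF : DifferentiableAt ℝ (fun p : ℝ × X => F p.1 p.2) (t, x)) {F' : Y}
    (h : HasDerivAt (fun s => F s x) F' t) (a : ℝ) (δ : X) :
    fderiv ℝ (fun p : ℝ × X => F p.1 p.2) (t, x) (a, δ) = a • F' + fderiv ℝ (F t) x δ := by
  rw [h.unique (jac_fst hF), (jac_snd hF).fderiv, ContinuousLinearMap.comp_apply, ← map_smul,
    ← map_add]
  simp

theorem jac_at {F : ℝ → X → Y} {U : Set X} (hU : IsOpen U)
    (hF : ContDiffOn ℝ ∞ (fun p : ℝ × X => F p.1 p.2) {p | p.2 ∈ U}) (t : ℝ) {x : X} (hx : x ∈ U) :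
    ContDiffAt ℝ ∞ (fun p : ℝ × X => F p.1 p.2) (t, x) :=
  hF.contDiffAt ((hU.preimage continuous_snd).mem_nhds hx)

theorem jac_swap {F : ℝ → X → Y} {U : Set X} (hU : IsOpen U)
    (hF : ContDiffOn ℝ ∞ (fun p : ℝ × X => F p.1 p.2) {p | p.2 ∈ U}) {t : ℝ} {x : X} (hx : x ∈ U)
    {F' : X → Y} (h : ∀ y ∈ U, HasDerivAt (fun s => F s y) (F' y) t) (δ : X) :
    HasDerivAt (fun s => fderiv ℝ (F s) x δ) (fderiv ℝ F' x δ) t := by
  have hd : ∀ s, ∀ y ∈ U, DifferentiableAt ℝ (fun p : ℝ × X => F p.1 p.2) (s, y) :=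
    fun s y hy => (jac_at hU hF s hy).differentiableAt (by simp)
  set f : ℝ × X → Y := fun p => F p.1 p.2 with hf
  have h2 : DifferentiableAt ℝ (fderiv ℝ f) (t, x) :=
    ((jac_at hU hF t hx).fderiv_right (m := 1) (by norm_cast)).differentiableAt (by simp)
  have e1 : (fun s => fderiv ℝ (F s) x δ) = fun s => fderiv ℝ f (s, x) (0, δ) := by
    funext s
    rw [(jac_snd (hd s x hx)).fderiv]
    rfl
  have e2 : F' =ᶠ[𝓝 x] fun y => fderiv ℝ f (t, y) (1, 0) := by
    filter_upwards [hU.mem_nhds hx] with y hy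
    exact (h y hy).unique (jac_fst (hd t y hy))
  have e3 := ((jac_snd (F := fun s y => fderiv ℝ f (s, y)) h2).clm_apply
    (hasFDerivAt_const ((1, 0) : ℝ × X) x)).fderiv
  have hs := ((jac_at hU hF t hx).isSymmSndFDerivAt (by simp; norm_cast)).eq (0, δ) (1, 0)
  rw [e1, e2.fderiv_eq, e3]
  have := (jac_fst (F := fun s y => fderiv ℝ f (s, y)) h2).clm_apply
    (hasDerivAt_const t ((0, δ) : ℝ × X))
  convert this using 1
  simpa using hs

end calculus

variable {n : ℕ} {g : Met n}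

theorem jac_act (l c : ℂ) (a : ℝ) (x : VV n) :
    HasDerivAt (fun s : ℝ => act (Complex.exp (s * l)) (Real.exp (s * a)) (s * c) x)
      (l • x.1, l • x.2 + c • x.1 + a • x.2) 0 := by
  have h0 : ∀ l : ℂ, HasDerivAt (fun s : ℝ => (s : ℂ) * l) l 0 := fun l => by
    simpa using (Complex.ofRealCLM.hasDerivAt (x := 0)).mul_const l
  have h1 : HasDerivAt (fun s : ℝ => Complex.exp (s * l)) l 0 := by simpa using (h0 l).cexp
  have h2 : HasDerivAt (fun s : ℝ => Real.exp (s * a)) a 0 := by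
    simpa using ((hasDerivAt_id (0 : ℝ)).mul_const a).exp
  have := (h1.smul_const x.1).prodMk (h1.smul ((h2.smul_const x.2).add ((h0 c).smul_const x.1)))
  refine this.congr_deriv (Prod.ext rfl ?_)
  simp
  abel

theorem jac_act0 (l c : ℂ) (a : ℝ) (x : VV n) :
    act (Complex.exp (((0 : ℝ) : ℂ) * l)) (Real.exp (0 * a)) (((0 : ℝ) : ℂ) * c) x = x := by
  simp [act]

theorem jac_eqv {f : VV n → E n} (hf : Eqv f) {x : VV n} (hx : x ∈ OO n)
    (hd : DifferentiableAt ℝ f x) (l c : ℂ) (a : ℝ) :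
    fderiv ℝ f x (l • x.1, l • x.2 + c • x.1 + a • x.2) = l • f x := by
  refine (jac_curve hd (jac_act l c a x) (jac_act0 l c a x)).unique ?_
  simp only [hf _ _ _ x (Complex.exp_ne_zero _) (Real.exp_pos _) hx]
  have h1 : HasDerivAt (fun s : ℝ => Complex.exp (s * l)) l 0 := by
    simpa using ((Complex.ofRealCLM.hasDerivAt (x := 0)).mul_const l).cexp
  exact h1.smul_const _

theorem jac_nu {z u : ℝ → E n} {z' u' : E n} {t : ℝ} (hz : HasDerivAt z z' t)
    (hu : HasDerivAt u u' t) (h0 : z t ≠ 0) : ∃ c', HasDerivAt (fun s => nu (z s) (u s)) c' t :=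
  ⟨_, (((contDiffOn_nuL.contDiffAt (isOpen_compl_singleton.mem_nhds h0)).differentiableAt
    (by simp)).hasFDerivAt.comp_hasDerivAt t hz).clm_apply hu⟩

namespace IsMetric
variable (h : IsMetric g)
include h

theorem jac_dvel {x : VV n} (hx : x ∈ OO n) : DifferentiableAt ℝ (vel g) x :=
  (h.contDiffOn_vel.contDiffAt (isOpen_OO.mem_nhds hx)).differentiableAt (by simp)

theorem jac_spd {x : VV n} (hx : x ∈ OO n) (u : E n) :
    HasDerivAt (fun s : ℝ => spd g (x.1, x.2 + s • u)) (g x.1 (vel g x) u) 0 := by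
  have hp := h.spd_pos hx
  have h1 := ((g x.1).hasFDerivAt.comp_hasDerivAt 0 (jac_line x.2 u)).clm_apply (jac_line x.2 u)
  have h2 := h1.sqrt (by
    simp only [Function.comp_apply, zero_smul, add_zero]
    rw [← h.spd_sq hx.1]
    positivity)
  refine h2.congr_deriv ?_
  simp only [Function.comp_apply, zero_smul, add_zero]
  rw [h.symm _ u _ hx.1, vel, map_smul, smul_apply, h.hor_left hx.1,
    smul_eq_mul]
  change _ / (2 * spd g x) = _
  field_simp
  ring

theorem jac_vel {x : VV n} (hx : x ∈ OO n) (u : E n) : fderiv ℝ (vel g) x (0, u) =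
    (spd g x)⁻¹ • (hor x.1 u - g x.1 (vel g x) u • vel g x) := by
  have hp := h.spd_pos hx
  refine (jac_curve (h.jac_dvel hx) ((hasDerivAt_const 0 x.1).prodMk (jac_line x.2 u))
    (by simp)).unique ?_
  have h1 := ((h.jac_spd hx u).inv (by simpa using hp.ne')).smul
    ((horL x.1).hasFDerivAt.comp_hasDerivAt 0 (jac_line x.2 u))
  refine h1.congr_deriv ?_
  simp only [Pi.inv_apply, Function.comp_apply, zero_smul, add_zero, horL_apply, Prod.mk.eta]
  generalize g x.1 (vel g x) u = a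
  rw [vel, smul_sub, smul_smul, smul_smul, sub_eq_add_neg, ← neg_smul]
  congr 2
  field_simp

theorem jac_DP {x : VV n} (hx : x ∈ OO n) (δ : VV n) (η : E n) :
    fderiv ℝ (fun y : VV n => g y.1 (vel g y)) x δ η =
      fderiv ℝ g x.1 δ.1 (vel g x) η + g x.1 (fderiv ℝ (vel g) x δ) η := by
  have h1 := (((h.contDiffAt hx.1).differentiableAt (by simp)).hasFDerivAt.comp x
    (hasFDerivAt_fst (𝕜 := ℝ) (p := x))).clm_apply (h.jac_dvel hx).hasFDerivAt
  rw [show (fun y : VV n => g y.1 (vel g y)) = fun y => (g ∘ Prod.fst) y (vel g y) from rfl,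
    h1.fderiv]
  simp [add_comm]

end IsMetric

namespace Geo
variable (G : Geo g) (h : IsMetric g)
include h

theorem jac_dpsi (t : ℝ) {x : VV n} (hx : x ∈ OO n) : DifferentiableAt ℝ (G.psi t) x :=
  (jac_snd ((jac_at isOpen_OO (G.contDiffOn_psi h) t hx).differentiableAt
    (by simp))).differentiableAt

theorem jac_dZ (t : ℝ) {x : VV n} (hx : x ∈ OO n) : DifferentiableAt ℝ (G.Z t) x :=
  (G.jac_dpsi h t hx).fst

theorem jac_dV (t : ℝ) {x : VV n} (hx : x ∈ OO n) :
    DifferentiableAt ℝ (fun y => vel g (G.psi t y)) x :=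
  (h.jac_dvel (G.psi_mem h t hx)).comp x (G.jac_dpsi h t hx)

theorem jac_dP (t : ℝ) {x : VV n} (hx : x ∈ OO n) :
    DifferentiableAt ℝ (fun y => g (G.Z t y) (vel g (G.psi t y))) x :=
  (((h.contDiffAt (G.Z_ne h t hx)).differentiableAt (by simp)).comp x
    (G.jac_dZ h t hx)).clm_apply (G.jac_dV h t hx)

theorem jac_chain {Y : Type} [NormedAddCommGroup Y] [NormedSpace ℝ Y] (t : ℝ) {x : VV n}
    (hx : x ∈ OO n) {f f' : VV n → Y} (hf : DifferentiableAt ℝ f (G.psi t x))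
    (he : ∀ y ∈ OO n, f' y = f (G.psi t y)) (δ : VV n) :
    fderiv ℝ f' x δ = fderiv ℝ f (G.psi t x) (fderiv ℝ (G.psi t) x δ) := by
  have : f' =ᶠ[𝓝 x] f ∘ G.psi t := by
    filter_upwards [isOpen_OO.mem_nhds hx] with y hy using he y hy
  rw [this.fderiv_eq, fderiv_comp x hf (G.jac_dpsi h t hx)]
  rfl

theorem jac_zero {Y : Type} [NormedAddCommGroup Y] [NormedSpace ℝ Y] {x : VV n}
    (hx : x ∈ OO n) (f : VV n → Y) : fderiv ℝ (fun y => f (G.psi 0 y)) x = fderiv ℝ f x := by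
  refine Filter.EventuallyEq.fderiv_eq ?_
  filter_upwards [isOpen_OO.mem_nhds hx] with y hy
  rw [G.psi_zero h hy]

theorem jac_pair (t : ℝ) {x : VV n} (hx : x ∈ OO n) :
    HasFDerivAt (fun y => (G.Z t y, vel g (G.psi t y))) ((G.JJ t x).prod (G.JD t x)) x :=
  (G.jac_dZ h t hx).hasFDerivAt.prodMk (G.jac_dV h t hx).hasFDerivAt

theorem jac_Lg (t : ℝ) {x : VV n} (hx : x ∈ OO n) :
    ContDiffAt ℝ ∞ (Lg g) (G.Z t x, vel g (G.psi t x)) :=
  h.contDiffOn_Lg.contDiffAt ((isOpen_ne.preimage continuous_fst).mem_nhds (G.Z_ne h t hx))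

theorem jac_D2 (t : ℝ) {x : VV n} (hx : x ∈ OO n) (δ b : VV n) :
    fderiv ℝ (fun y => fderiv ℝ (Lg g) (G.Z t y, vel g (G.psi t y)) b) x δ =
      D2 g (G.Z t x, vel g (G.psi t x)) (G.JJ t x δ, G.JD t x δ) b := by
  have h2 : DifferentiableAt ℝ (fderiv ℝ (Lg g)) (G.Z t x, vel g (G.psi t x)) :=
    ((G.jac_Lg h t hx).fderiv_right (m := 1) (by norm_cast)).differentiableAt (by simp)
  have h3 := (h2.hasFDerivAt.comp x (G.jac_pair h t hx)).clm_apply (hasFDerivAt_const b x)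
  refine (congrArg (fun L => L δ) h3.fderiv).trans ?_
  simp [D2]

theorem jac_cP : ContDiffOn ℝ ∞ (fun p : ℝ × VV n => g (G.Z p.1 p.2) (vel g (G.psi p.1 p.2)))
    {p | p.2 ∈ OO n} :=
  (h.smooth.comp (G.contDiffOn_Z h) fun p hp => G.Z_ne h p.1 hp).clm_apply
    (h.contDiffOn_vel.comp (G.contDiffOn_psi h) fun p hp => G.psi_mem h p.1 hp)

end Geo

end Pool.Agent.Work.MP_8c604c_gt
end
end

-- merged part: Pool.Agent.Work.MP_8c604c_gt.Jac
section
/-!
The unit speed flow and Jacobi fields.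
Hints. psi t x = phi (t / spd x) x; vel (psi t x) is the t-derivative of Z. var: differentiate el in x (swap the t and x
derivatives with ContDiffAt.isSymmSndFDerivAt for the jointly smooth functions of (t,x)), use D2_apply.
al_inv: the t-derivative of the left side is the x-derivative of the constant energy 1/2.
om_inv: by var and D2_symm the t-derivative vanishes. star: J = JH + c Z, use PP_apply, fderiv_vert, fderiv_vert_arg.
-/

set_option maxSynthPendingDepth 3

open Set Filter Topology MeasureTheory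
open scoped ContDiff

noncomputable section
namespace Pool.Agent.Work.MP_8c604c_gt

variable {n : ℕ} {g : Met n}

namespace Geo
variable (G : Geo g) (h : IsMetric g)
include h

theorem jac_JJ_zero {x : VV n} (hx : x ∈ OO n) (δ : VV n) : G.JJ 0 x δ = δ.1 := by
  have := G.jac_zero h hx Prod.fst
  rw [fderiv_fst] at this
  exact congrArg (fun L => L δ) this

theorem jac_PP_zero {x : VV n} (hx : x ∈ OO n) :
    G.PP 0 x = fderiv ℝ (fun y : VV n => g y.1 (vel g y)) x :=
  G.jac_zero h hx fun y : VV n => g y.1 (vel g y)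

theorem jac_JJ_Bdir (t : ℝ) {x : VV n} (hx : x ∈ OO n) (l c : ℂ) (a : ℝ) :
    G.JJ t x (l • x.1, l • x.2 + c • x.1 + a • x.2) = l • G.Z t x :=
  jac_eqv (G.Z_eqv h t) hx (G.jac_dZ h t hx) l c a

theorem hasDerivAt_JJ (t : ℝ) {x : VV n} (hx : x ∈ OO n) (δ : VV n) :
    HasDerivAt (fun s => G.JJ s x δ) (G.JD t x δ) t := by
  exact jac_swap isOpen_OO (G.contDiffOn_Z h) hx (fun y hy => G.hasDerivAt_Z h t hy) δ

theorem PP_apply (t : ℝ) {x : VV n} (hx : x ∈ OO n) (δ : VV n) (η : E n) :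
    G.PP t x δ η = fderiv ℝ g (G.Z t x) (G.JJ t x δ) (vel g (G.psi t x)) η +
      g (G.Z t x) (G.JD t x δ) η := by
  have h1 := (((h.contDiffAt (G.Z_ne h t hx)).differentiableAt (by simp)).hasFDerivAt.comp x
    (G.jac_dZ h t hx).hasFDerivAt).clm_apply (G.jac_dV h t hx).hasFDerivAt
  refine (congrArg (fun L => L δ η) h1.fderiv).trans ?_
  simp [JJ, JD, add_comm]

/-- The Jacobi equation in weak form. -/
theorem var (t : ℝ) {x : VV n} (hx : x ∈ OO n) (δ : VV n) {η : ℝ → E n} {η' : E n}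
    (hη : HasDerivAt η η' t) :
    HasDerivAt (fun s => G.PP s x δ (η s))
      (D2 g (G.Z t x, vel g (G.psi t x)) (G.JJ t x δ, G.JD t x δ) (η t, η')) t := by
  obtain ⟨P', hP⟩ : ∃ P', HasDerivAt (fun s => G.PP s x δ) P' t :=
    ⟨_, (jac_fst ((jac_at isOpen_OO (G.contDiffOn_PP h) t hx).differentiableAt
      (by simp))).clm_apply (hasDerivAt_const t δ)⟩
  have h1 : ∀ s, G.PP s x δ (η t) =
      fderiv ℝ (fun y => g (G.Z s y) (vel g (G.psi s y)) (η t)) x δ := by
    intro s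
    rw [((G.jac_dP h s hx).hasFDerivAt.clm_apply (hasFDerivAt_const (η t) x)).fderiv]
    simp [PP]
  have h2 := jac_swap (F := fun s y => g (G.Z s y) (vel g (G.psi s y)) (η t)) isOpen_OO
    ((G.jac_cP h).clm_apply contDiffOn_const) hx
    (fun y hy => G.first_var h t hy (hasDerivAt_const t (η t))) δ
  rw [G.jac_D2 h t hx] at h2
  have h3 := (hP.clm_apply (hasDerivAt_const t (η t))).unique (by simpa only [h1] using h2)
  refine (hP.clm_apply hη).congr_deriv ?_
  rw [map_zero, add_zero] at h3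
  have hz : (G.Z t x, vel g (G.psi t x)).1 ≠ 0 := G.Z_ne h t hx
  rw [h3, G.PP_apply h t hx, h.D2_apply hz, h.D2_apply hz]
  simp only [map_zero]
  ring

/-- Gauss lemma. -/
theorem al_inv (t : ℝ) {x : VV n} (hx : x ∈ OO n) (δ : VV n) :
    g (G.Z t x) (vel g (G.psi t x)) (G.JJ t x δ) = al g x δ := by
  have h1 : ∀ s, HasDerivAt (fun s => g (G.Z s x) (vel g (G.psi s x)) (G.JJ s x δ)) 0 s := by
    intro s
    refine (G.first_var h s hx (G.hasDerivAt_JJ h s hx δ)).congr_deriv ?_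
    have h2 := (((G.jac_Lg h s hx).differentiableAt (by simp)).hasFDerivAt.comp x
      (G.jac_pair h s hx)).fderiv
    have h3 : (Lg g ∘ fun y => (G.Z s y, vel g (G.psi s y))) =ᶠ[𝓝 x] fun _ => 1 / 2 := by
      filter_upwards [isOpen_OO.mem_nhds hx] with y hy
      have := h.vel_unit (G.psi_mem h s hy)
      simp only [Function.comp_apply, Lg, Z, this, mul_one]
    rw [h3.fderiv_eq, fderiv_fun_const] at h2
    exact (congrArg (fun L => L δ) h2).symm
  have h2 := is_const_of_deriv_eq_zero (fun s => (h1 s).differentiableAt)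
    (fun s => (h1 s).deriv) t 0
  simp only [G.jac_JJ_zero h hx] at h2
  rw [h2, Z, G.psi_zero h hx]
  rfl

theorem om_inv (t : ℝ) {x : VV n} (hx : x ∈ OO n) (δ₁ δ₂ : VV n) :
    G.PP t x δ₁ (G.JJ t x δ₂) - G.PP t x δ₂ (G.JJ t x δ₁) = om g x δ₁ δ₂ := by
  have h1 : ∀ s, HasDerivAt
      (fun s => G.PP s x δ₁ (G.JJ s x δ₂) - G.PP s x δ₂ (G.JJ s x δ₁)) 0 s := by
    intro s
    refine ((G.var h s hx δ₁ (G.hasDerivAt_JJ h s hx δ₂)).sub
      (G.var h s hx δ₂ (G.hasDerivAt_JJ h s hx δ₁))).congr_deriv ?_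
    rw [h.D2_symm (p := (G.Z s x, vel g (G.psi s x))) (G.Z_ne h s hx), sub_self]
  have h2 := is_const_of_deriv_eq_zero (fun s => (h1 s).differentiableAt)
    (fun s => (h1 s).deriv) t 0
  simp only [G.jac_JJ_zero h hx, G.jac_PP_zero h hx] at h2
  exact h2

theorem fst_fderiv_psi (t : ℝ) {x : VV n} (hx : x ∈ OO n) (δ : VV n) :
    (fderiv ℝ (G.psi t) x δ).1 = G.JJ t x δ := by
  exact (congrArg (fun L => L δ) (G.jac_dpsi h t hx).hasFDerivAt.fst.fderiv).symm

theorem JJ_add (s t : ℝ) {x : VV n} (hx : x ∈ OO n) (δ : VV n) :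
    G.JJ (s + t) x δ = G.JJ s (G.psi t x) (fderiv ℝ (G.psi t) x δ) := by
  exact G.jac_chain h t hx (G.jac_dZ h s (G.psi_mem h t hx))
    (fun y hy => by rw [Z, G.psi_add h s t hy, Z]) δ

theorem JD_add (s t : ℝ) {x : VV n} (hx : x ∈ OO n) (δ : VV n) :
    G.JD (s + t) x δ = G.JD s (G.psi t x) (fderiv ℝ (G.psi t) x δ) := by
  exact G.jac_chain h t hx (G.jac_dV h s (G.psi_mem h t hx))
    (fun y hy => by rw [G.psi_add h s t hy]) δ

theorem PP_add (s t : ℝ) {x : VV n} (hx : x ∈ OO n) (δ : VV n) :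
    G.PP (s + t) x δ = G.PP s (G.psi t x) (fderiv ℝ (G.psi t) x δ) := by
  exact G.jac_chain h t hx (G.jac_dP h s (G.psi_mem h t hx))
    (fun y hy => by rw [Z, G.psi_add h s t hy, Z]) δ

theorem fderiv_psi_neg (t : ℝ) {x : VV n} (hx : x ∈ OO n) (δ : VV n) :
    fderiv ℝ (G.psi (-t)) (G.psi t x) (fderiv ℝ (G.psi t) x δ) = δ := by
  rw [← G.jac_chain h t hx (f' := id) (G.jac_dpsi h (-t) (G.psi_mem h t hx))
    (fun y hy => by rw [← G.psi_add h _ _ hy, neg_add_cancel, G.psi_zero h hy, id]) δ, fderiv_id]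
  rfl

theorem om_psi (t : ℝ) {x : VV n} (hx : x ∈ OO n) (δ₁ δ₂ : VV n) :
    om g (G.psi t x) (fderiv ℝ (G.psi t) x δ₁) (fderiv ℝ (G.psi t) x δ₂) = om g x δ₁ δ₂ := by
  rw [← G.om_inv h 0 (G.psi_mem h t hx), ← G.PP_add h 0 t hx, ← G.PP_add h 0 t hx,
    ← G.JJ_add h 0 t hx, ← G.JJ_add h 0 t hx, zero_add, G.om_inv h t hx]

theorem al_psi (t : ℝ) {x : VV n} (hx : x ∈ OO n) (δ : VV n) :
    al g (G.psi t x) (fderiv ℝ (G.psi t) x δ) = al g x δ := by
  rw [← G.al_inv h t hx, ← G.fst_fderiv_psi h t hx]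
  rfl

theorem JJ_zero {x : VV n} (hx : x ∈ OO n) (δ : VV n) : G.JJ 0 x δ = δ.1 := by
  exact G.jac_JJ_zero h hx δ

/-- Initial derivative of the fields vanishing at time zero. -/
theorem JD_zero {x : VV n} (hx : x ∈ OO n) (u : E n) :
    G.JD 0 x (0, u) = (spd g x)⁻¹ • (hor x.1 u - g x.1 (vel g x) u • vel g x) := by
  rw [← h.jac_vel hx, ← G.jac_zero h hx (vel g)]
  rfl

theorem JJ_gauge (t : ℝ) {x : VV n} (hx : x ∈ OO n) (c : ℂ) : G.JJ t x (c • x) = c • G.Z t x := by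
  rw [← G.jac_JJ_Bdir h t hx c 0 0]
  simp only [zero_smul, add_zero]
  rfl

theorem JJ_Bs (t : ℝ) {x : VV n} (hx : x ∈ OO n) {u : E n} (hu : u ∈ Bs x) :
    G.JJ t x (0, u) = 0 := by
  obtain ⟨c, a, rfl⟩ := mem_Bs.1 hu
  simpa using G.jac_JJ_Bdir h t hx 0 c a

theorem JH_Bdir (t : ℝ) {x : VV n} (hx : x ∈ OO n) {v : VV n} (hv : v ∈ Bdir x) :
    G.JH t x v = 0 := by
  obtain ⟨l, c, a, rfl⟩ := mem_Bdir.1 hv
  rw [JH, ContinuousLinearMap.comp_apply, G.jac_JJ_Bdir h t hx, horL_apply]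
  exact (hor_eq_zero_iff (G.Z_ne h t hx) _).2 ⟨l, rfl⟩

theorem fderiv_psi_Bdir (t : ℝ) {x : VV n} (hx : x ∈ OO n) {v : VV n} (hv : v ∈ Bdir x) :
    fderiv ℝ (G.psi t) x v ∈ Bdir (G.psi t x) := by
  obtain ⟨l, c, a, rfl⟩ := mem_Bdir.1 hv
  refine mem_Bdir.2 ⟨l, c, a, (jac_curve (G.jac_dpsi h t hx) (jac_act l c a x)
    (jac_act0 l c a x)).unique ?_⟩
  simp only [G.psi_act h t _ (Complex.exp_ne_zero _) (Real.exp_pos _) hx]
  exact jac_act l c a _

theorem JJ_act (t : ℝ) {l : ℂ} {m : ℝ} (c : ℂ) {x : VV n} (hl : l ≠ 0) (hm : 0 < m)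
    (hx : x ∈ OO n) (δ : VV n) : G.JJ t (act l m c x) (act l m c δ) = l • G.JJ t x δ := by
  have h1 : HasDerivAt (fun s : ℝ => act l m c (x + s • δ)) (act l m c δ) 0 := by
    refine (jac_line (act l m c x) (act l m c δ)).congr_of_eventuallyEq
      (Eventually.of_forall fun s => ?_)
    simp only [act, Prod.fst_add, Prod.snd_add, Prod.smul_fst, Prod.smul_snd, Prod.smul_mk,
      Prod.mk_add_mk, smul_add, smul_comm s l, smul_comm s m, smul_comm s c]
    congr 1
    abel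
  refine (jac_curve (G.jac_dZ h t (act_mem c hl hm hx)) h1 (by simp)).unique ?_
  have h2 := (jac_curve (G.jac_dZ h t hx) (jac_line x δ) (by simp)).const_smul l
  refine h2.congr_of_eventuallyEq ?_
  have h3 : ∀ᶠ s : ℝ in 𝓝 0, x + s • δ ∈ OO n :=
    (jac_line x δ).continuousAt.eventually (isOpen_OO.mem_nhds (by simpa using hx))
  filter_upwards [h3] with s hs
  exact G.Z_eqv h t l m c _ hl hm hs

omit G in
theorem _root_.Pool.Agent.Work.MP_8c604c_gt.om_Bdir {x : VV n} (hx : x ∈ OO n) {v : VV n}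
    (hv : v ∈ Bdir x) (δ : VV n) : om g x v δ = 0 := by
  obtain ⟨l, c, a, rfl⟩ := mem_Bdir.1 hv
  rw [om, h.jac_DP hx, h.jac_DP hx, jac_eqv h.vel_eqv hx (h.jac_dvel hx), h.fderiv_vert l hx.1,
    h.fderiv_vert_arg l hx.1, h.vert' l _ hx.1]
  ring

omit G in
theorem _root_.Pool.Agent.Work.MP_8c604c_gt.al_Bdir {x : VV n} (hx : x ∈ OO n) {v : VV n}
    (hv : v ∈ Bdir x) : al g x v = 0 := by
  obtain ⟨l, c, a, rfl⟩ := mem_Bdir.1 hv
  exact h.vert' l _ hx.1

omit G in
theorem _root_.Pool.Agent.Work.MP_8c604c_gt.om_fibre {x : VV n} (hx : x ∈ OO n) (u : E n)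
    (δ : VV n) : om g x (0, u) δ =
      (spd g x)⁻¹ * (g x.1 u δ.1 - g x.1 (vel g x) u * g x.1 (vel g x) δ.1) := by
  rw [om, h.jac_DP hx, h.jac_vel hx]
  simp [h.hor_left hx.1]

/-- At a zero of a horizontal Jacobi field its derivative represents the symplectic form. -/
theorem star (t : ℝ) {x : VV n} (hx : x ∈ OO n) {ξ : VV n} (hξ : G.JH t x ξ = 0) (η : VV n) :
    g (G.Z t x) (deriv (fun s => G.JH s x ξ) t) (G.JJ t x η) = om g x ξ η := by
  have hz := G.Z_ne h t hx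
  obtain ⟨c', hc⟩ := jac_nu (G.hasDerivAt_Z h t hx) (G.hasDerivAt_JJ h t hx ξ) hz
  have h1 : HasDerivAt (fun s => G.JH s x ξ) _ t :=
    ((G.hasDerivAt_JJ h t hx ξ).sub (hc.smul (G.hasDerivAt_Z h t hx))).congr_of_eventuallyEq
      (Eventually.of_forall fun s => hor_def _ _)
  have h2 : G.JJ t x ξ = nu (G.Z t x) (G.JJ t x ξ) • G.Z t x :=
    sub_eq_zero.1 ((hor_def _ _).symm.trans hξ)
  generalize nu (G.Z t x) (G.JJ t x ξ) = c at h1 h2
  rw [h1.deriv, ← G.om_inv h t hx, G.PP_apply h t hx, G.PP_apply h t hx, h2, h.fderiv_vert c hz,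
    h.fderiv_vert_arg c hz, h.vert' c _ hz, map_sub, map_add, sub_apply, add_apply,
    h.vert c' _ _ hz]
  ring

/-- If the only fields from the fibre vanishing at time `t` are trivial, they fill the normal space. -/
theorem JH_surj (t : ℝ) {x : VV n} (hx : x ∈ OO n) (hi : ∀ u, G.JH t x (0, u) = 0 → u ∈ Bs x)
    {y : E n} (hy : nu (G.Z t x) y = 0) (hy' : g (G.Z t x) (vel g (G.psi t x)) y = 0) :
    ∃ u, G.JH t x (0, u) = y := by
  have hz := G.Z_ne h t hx
  have hp := G.psi_mem h t hx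
  let T : E n →ₗ[ℝ] E n := (G.JH t x : VV n →ₗ[ℝ] E n).comp (LinearMap.inr ℝ (E n) (E n))
  let S : E n →ₗ[ℝ] ℂ × ℝ := (nuL (G.Z t x) : E n →ₗ[ℝ] ℂ).prod
    (g (G.Z t x) (vel g (G.psi t x)) : E n →ₗ[ℝ] ℝ)
  have hS : ∀ y, S y = (nu (G.Z t x) y, g (G.Z t x) (vel g (G.psi t x)) y) := fun _ => rfl
  have hT : ∀ u, T u = G.JH t x (0, u) := fun _ => rfl
  have h1 : LinearMap.ker T = Bs x := by
    ext u
    rw [LinearMap.mem_ker, hT]
    refine ⟨hi u, fun hu => ?_⟩
    rw [JH, ContinuousLinearMap.comp_apply, G.JJ_Bs h t hx hu, map_zero]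
  have h2 : LinearMap.range S = ⊤ := by
    refine LinearMap.range_eq_top.2 fun p => ⟨p.1 • G.Z t x + p.2 • vel g (G.psi t x), ?_⟩
    have e1 : nu (G.Z t x) (vel g (G.psi t x)) = 0 := h.nu_vel hp.1
    have e2 : g (G.Z t x) (vel g (G.psi t x)) (vel g (G.psi t x)) = 1 := h.vel_unit hp
    rw [map_add, map_smul S p.2, hS, hS, nu_smul, nu_self hz, h.vert' _ _ hz, e1, e2]
    simp
  have h3 : LinearMap.range T ≤ LinearMap.ker S := by
    rintro _ ⟨u, rfl⟩
    rw [LinearMap.mem_ker, hS, hT, JH, ContinuousLinearMap.comp_apply, horL_apply, nu_hor hz,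
      h.hor_right hz, G.al_inv h t hx]
    simp [al]
  have h4 := T.finrank_range_add_finrank_ker
  have h5 := S.finrank_range_add_finrank_ker
  rw [h1, finrank_Bs hx] at h4
  rw [h2, finrank_top, Module.finrank_prod, Complex.finrank_real_complex,
    Module.finrank_self] at h5
  have h6 := Submodule.eq_of_le_of_finrank_eq h3 (by omega)
  have h7 : y ∈ LinearMap.range T := by
    rw [h6, LinearMap.mem_ker, hS, hy, hy']
    rfl
  exact h7

/-- Derivative of the exponential map along a ray. -/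
theorem fderiv_ex (τ : ℝ) {x : VV n} (hx : x ∈ OO n) (hτ : 0 < τ) (u : E n) :
    fderiv ℝ (G.ex x.1) (τ • vel g x) u =
      g x.1 (vel g x) u • vel g (G.psi τ x) + (spd g x / τ) • G.JJ τ x (0, u) := by
  have hp := h.spd_pos hx
  have hm : 0 < τ / spd g x := div_pos hτ hp
  set c : ℂ := -((τ / spd g x) • nu x.1 x.2) with hc
  have e0 : act 1 (τ / spd g x) c x = (x.1, τ • vel g x) := by
    rw [act, one_smul, one_smul]
    congr 1
    conv_lhs => rw [h.snd_eq hx]
    rw [smul_add, smul_smul, div_mul_cancel₀ _ hp.ne', hc, neg_smul, smul_assoc,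
      add_neg_cancel_right]
  have hx0 : (x.1, τ • vel g x) ∈ OO n := e0 ▸ act_mem c one_ne_zero hm hx
  have e1 : spd g (x.1, τ • vel g x) = τ := by
    rw [← e0, h.spd_act c one_ne_zero hm hx.1, div_mul_cancel₀ _ hp.ne']
  have e2 : vel g (x.1, τ • vel g x) = vel g x := by
    rw [← e0, h.vel_eqv _ _ _ _ one_ne_zero hm hx, one_smul]
  have e3 : vel g (G.psi τ (x.1, τ • vel g x)) = vel g (G.psi τ x) := by
    rw [← e0, G.psi_act h τ c one_ne_zero hm hx,
      h.vel_eqv _ _ _ _ one_ne_zero hm (G.psi_mem h τ hx), one_smul]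
  have e4 : G.JJ τ (x.1, τ • vel g x) (0, u) = (spd g x / τ) • G.JJ τ x (0, u) := by
    have := G.JJ_act h τ c one_ne_zero hm hx ((spd g x / τ) • (0, u))
    rw [e0, one_smul, map_smul] at this
    rw [← this]
    congr 1
    simp only [act, Prod.smul_mk, smul_zero, one_smul, add_zero, smul_smul]
    rw [div_mul_div_comm, mul_comm τ, div_self (by positivity), one_smul]
  have hd : DifferentiableAt ℝ (G.ex x.1) (τ • vel g x) :=
    ((G.contDiffOn_ex.contDiffAt (x := (x.1, τ • vel g x))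
      ((isOpen_ne.preimage continuous_fst).mem_nhds hx.1)).differentiableAt (by simp)).comp
        (τ • vel g x) (hasFDerivAt_prodMk_right x.1 _).differentiableAt
  have hl := (hasDerivAt_const (0 : ℝ) x.1).prodMk (jac_line (τ • vel g x) u)
  have hZ := (jac_at isOpen_OO (G.contDiffOn_Z h) τ hx0).differentiableAt (by simp)
  have h1 := jac_curve hZ ((h.jac_spd hx0 u).prodMk hl) (by simp [e1])
  rw [jac_total hZ (G.hasDerivAt_Z h τ hx0), e2, e3] at h1
  rw [← e4]
  refine (jac_curve hd (jac_line (τ • vel g x) u) (by simp)).unique (h1.congr_of_eventuallyEq ?_)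
  have h3 : ∀ᶠ s : ℝ in 𝓝 0, (x.1, τ • vel g x + s • u) ∈ OO n :=
    hl.continuousAt.eventually (isOpen_OO.mem_nhds (by simpa using hx0))
  filter_upwards [h3] with s hs
  exact G.ex_eq_Z h hs

end Geo

namespace Bl
variable {G : Geo g} (B : Bl g G)
include B

/-- Holonomy of the closed geodesics. -/
theorem psi_pi {x : VV n} (hx : x ∈ OO n) :
    G.psi Real.pi x = nu x.1 (G.Z Real.pi x) • x ∧ ‖nu x.1 (G.Z Real.pi x)‖ = 1 := by
  have h := B.met
  have e : ∀ t, G.Z (t + Real.pi) x = nu (G.Z t x) (G.Z (t + Real.pi) x) • G.Z t x := by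
    intro t
    obtain ⟨c, hc⟩ := B.per x hx t
    rw [hc, nu_smul, nu_self (G.Z_ne h t hx), mul_one]
  have z0 : G.Z 0 x = x.1 := by rw [Geo.Z, G.psi_zero h hx]
  have h1 : HasDerivAt (fun s => G.Z (s + Real.pi) x) (vel g (G.psi (0 + Real.pi) x)) 0 :=
    HasDerivAt.comp_add_const 0 Real.pi (G.hasDerivAt_Z h _ hx)
  obtain ⟨c', hc⟩ := jac_nu (G.hasDerivAt_Z h 0 hx) h1 (G.Z_ne h 0 hx)
  have h2 := h1.unique ((hc.smul (G.hasDerivAt_Z h 0 hx)).congr_of_eventuallyEq
    (Eventually.of_forall e))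
  have e0 := e 0
  rw [zero_add, z0] at e0
  rw [zero_add, z0, G.psi_zero h hx] at h2
  generalize nu x.1 (G.Z Real.pi x) = c at e0 h2 ⊢
  have hn : ‖c‖ = 1 := by
    have := G.norm_Z h Real.pi hx
    rw [e0, norm_smul] at this
    exact mul_right_cancel₀ (norm_ne_zero_iff.2 hx.1) (this.trans (one_mul _).symm)
  have hc0 : c ≠ 0 := by
    rintro rfl
    simp at hn
  have hp := G.psi_mem h Real.pi hx
  have h3 : c' = 0 := by
    have h4 : nu (G.Z Real.pi x) (vel g (G.psi Real.pi x)) = 0 := h.nu_vel hp.1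
    rw [h2, e0, ← smul_inv_smul₀ hc0 (c' • x.1), ← smul_add, nu_smul_smul hc0, nu_add,
      h.nu_vel hx.1, zero_add, nu_smul, nu_smul, nu_self hx.1, mul_one] at h4
    exact (mul_eq_zero.1 h4).resolve_left (inv_ne_zero hc0)
  refine ⟨Prod.ext e0 ?_, hn⟩
  have e1 : (G.psi Real.pi x).1 = c • x.1 := e0
  rw [h.snd_eq hp, G.spd_psi h _ hx, G.nu_psi h _ hx, h2, h3, zero_smul, add_zero, e1,
    Prod.smul_snd]
  conv_rhs => rw [h.snd_eq hx]
  rw [smul_add, smul_comm c, smul_comm c]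

theorem psi_add_pi (t : ℝ) {x : VV n} (hx : x ∈ OO n) :
    G.psi (t + Real.pi) x = nu x.1 (G.Z Real.pi x) • G.psi t x := by
  obtain ⟨h1, h2⟩ := B.psi_pi hx
  rw [G.psi_add B.met _ _ hx, h1, G.psi_smul B.met t (norm_ne_zero_iff.1 (h2 ▸ one_ne_zero)) hx]

theorem JH_add_pi (t : ℝ) {x : VV n} (hx : x ∈ OO n) (δ : VV n) :
    G.JH (t + Real.pi) x δ = nu x.1 (G.Z Real.pi x) • G.JH t x δ := by
  have h := B.met
  have hc0 := norm_ne_zero_iff.1 ((B.psi_pi hx).2 ▸ one_ne_zero)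
  have e : ∀ y ∈ OO n, G.Z (t + Real.pi) y = nu y.1 (G.Z Real.pi y) • G.Z t y := fun y hy =>
    congrArg Prod.fst (B.psi_add_pi t hy)
  have hl := jac_line x δ
  have h0 : x + (0 : ℝ) • δ = x := by simp
  obtain ⟨c', hc⟩ := jac_nu hl.fst (jac_curve (G.jac_dZ h Real.pi hx) hl h0)
    (by simpa using hx.1)
  have h3 : ∀ᶠ s : ℝ in 𝓝 0, x + s • δ ∈ OO n :=
    hl.continuousAt.eventually (isOpen_OO.mem_nhds (by simpa using hx))
  have h1 := (jac_curve (G.jac_dZ h (t + Real.pi) hx) hl h0).unique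
    ((hc.smul (jac_curve (G.jac_dZ h t hx) hl h0)).congr_of_eventuallyEq
      (h3.mono fun s hs => e _ hs))
  rw [h0] at h1
  have h2 := (hor_eq_zero_iff (G.Z_ne h t hx) (c' • G.Z t x)).2 ⟨c', rfl⟩
  change hor (G.Z (t + Real.pi) x) (fderiv ℝ (G.Z (t + Real.pi)) x δ) =
    _ • hor (G.Z t x) (fderiv ℝ (G.Z t) x δ)
  rw [h1, e x hx, hor_smul_left hc0, ← horL_apply, map_add, horL_apply, horL_apply, h2, add_zero,
    hor_smul]

end Bl

end Pool.Agent.Work.MP_8c604c_gt
end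
end

-- merged part: Pool.Agent.Work.MP_8c604c_gt.NCAux
section
/-!
Second variation estimate for one smooth piece of a varied geodesic.
-/

set_option maxSynthPendingDepth 3

open Set Filter Topology MeasureTheory
open scoped ContDiff

noncomputable section
namespace Pool.Agent.Work.MP_8c604c_gt

variable {n : ℕ} {g : Met n}

theorem nc_open : IsOpen {p : VV n | p.1 ≠ 0} :=
  isOpen_ne_fun continuous_fst continuous_const

theorem IsMetric.nc_cont_D1 (h : IsMetric g) :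
    ContinuousOn (fderiv ℝ (Lg g)) {p : VV n | p.1 ≠ 0} :=
  h.contDiffOn_Lg.continuousOn_fderiv_of_isOpen nc_open (by simp)

theorem IsMetric.nc_cont_D2 (h : IsMetric g) :
    ContinuousOn (fderiv ℝ (fderiv ℝ (Lg g))) {p : VV n | p.1 ≠ 0} := by
  have h1 : ContDiffOn ℝ ∞ (fderiv ℝ (Lg g)) {p : VV n | p.1 ≠ 0} :=
    h.contDiffOn_Lg.fderiv_of_isOpen nc_open (by simp)
  exact h1.continuousOn_fderiv_of_isOpen nc_open (by simp)

namespace Geo
variable (G : Geo g) (h : IsMetric g)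
include h

theorem nc_cont_Z {x : VV n} (hx : x ∈ OO n) : Continuous fun t => G.Z t x :=
  continuous_iff_continuousAt.2 fun t => (G.hasDerivAt_Z h t hx).continuousAt

theorem nc_cont_vel {x : VV n} (hx : x ∈ OO n) : Continuous fun t => vel g (G.psi t x) := by
  have h1 : Continuous fun t => G.psi t x :=
    (G.contDiffOn_psi h).continuousOn.comp_continuous (f := fun t : ℝ => (t, x)) (by fun_prop)
      (fun _ => hx)
  exact h.contDiffOn_vel.continuousOn.comp_continuous h1 (fun t => G.psi_mem h t hx)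

theorem nc_cont_JD {x : VV n} (hx : x ∈ OO n) (ξ : VV n) : Continuous fun t => G.JD t x ξ := by
  have h1 : Continuous fun t => G.JD t x :=
    (G.contDiffOn_JD h).continuousOn.comp_continuous (f := fun t : ℝ => (t, x)) (by fun_prop)
      (fun _ => hx)
  exact h1.clm_apply continuous_const

theorem nc_cont_p {x : VV n} (hx : x ∈ OO n) :
    Continuous fun t => ((G.Z t x, vel g (G.psi t x)) : VV n) :=
  (G.nc_cont_Z h hx).prodMk (G.nc_cont_vel h hx)

theorem nc_cont_second {x : VV n} (hx : x ∈ OO n) :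
    Continuous fun t => fderiv ℝ (fderiv ℝ (Lg g)) ((G.Z t x, vel g (G.psi t x)) : VV n) :=
  h.nc_cont_D2.comp_continuous (G.nc_cont_p h hx) (fun t => G.Z_ne h t hx)

theorem nc_cont_DD {x : VV n} (hx : x ∈ OO n) {η η' : ℝ → E n} (hη : Continuous η)
    (hη' : Continuous η') :
    Continuous fun t => D2 g (G.Z t x, vel g (G.psi t x)) (η t, η' t) (η t, η' t) :=
  ((G.nc_cont_second h hx).clm_apply (hη.prodMk hη')).clm_apply (hη.prodMk hη')

theorem nc_piece {x : VV n} (hx : x ∈ OO n) {a b : ℝ} (hab : a ≤ b) {η η' : ℝ → E n}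
    (hη : ∀ t, HasDerivAt η (η' t) t) (hη' : Continuous η') :
    ∃ C δ : ℝ, 0 < δ ∧ ∀ ε : ℝ, 0 ≤ ε → ε ≤ δ →
      (G.Z a x + ε • η a ≠ 0 ∧ G.Z b x + ε • η b ≠ 0) ∧
      dd g (G.Z a x + ε • η a) (G.Z b x + ε • η b) ≤ (b - a) +
        ε * (g (G.Z b x) (vel g (G.psi b x)) (η b) - g (G.Z a x) (vel g (G.psi a x)) (η a)) +
        ε ^ 2 / 2 * (∫ t in a..b, D2 g (G.Z t x, vel g (G.psi t x)) (η t, η' t) (η t, η' t)) +
        C * ε ^ 3 := by
  have hηc : Continuous η := continuous_iff_continuousAt.2 fun t => (hη t).continuousAt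
  have hp := G.nc_cont_p h hx
  have hξ : Continuous fun t => ((η t, η' t) : VV n) := hηc.prodMk hη'
  obtain ⟨C₀, δ₀, hC₀, hδ₀, hT⟩ := taylor_two nc_open h.contDiffOn_Lg
    (isCompact_Icc (a := a) (b := b) |>.image hp)
    (by rintro _ ⟨t, _, rfl⟩; exact G.Z_ne h t hx)
  obtain ⟨M, hM⟩ := (isCompact_Icc (a := a) (b := b)).exists_bound_of_continuousOn hξ.continuousOn
  have hM0 : 0 ≤ M := (norm_nonneg _).trans (hM a ⟨le_rfl, hab⟩)
  refine ⟨(b - a) * (C₀ * M ^ 3), δ₀ / (M + 1), by positivity, fun ε hε hεδ => ?_⟩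
  have key : ∀ t ∈ Icc a b, G.Z t x + ε • η t ≠ 0 ∧
      Lg g (G.Z t x + ε • η t, vel g (G.psi t x) + ε • η' t) ≤ 1 / 2 +
        ε * fderiv ℝ (Lg g) (G.Z t x, vel g (G.psi t x)) (η t, η' t) +
        ε ^ 2 / 2 * D2 g (G.Z t x, vel g (G.psi t x)) (η t, η' t) (η t, η' t) +
        C₀ * M ^ 3 * ε ^ 3 := by
    intro t ht
    have hm := hM t ht
    have h1 : ε * ‖((η t, η' t) : VV n)‖ ≤ δ₀ := by
      calc ε * ‖((η t, η' t) : VV n)‖ ≤ δ₀ / (M + 1) * (M + 1) := by
            apply mul_le_mul hεδ (by linarith) (norm_nonneg _) (by positivity)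
        _ = δ₀ := by field_simp
    obtain ⟨h2, h3⟩ := hT (G.Z t x, vel g (G.psi t x)) ⟨t, ht, rfl⟩ 0 (η t, η' t) ε hε
      (by simpa using h1)
    have e1 : ((G.Z t x, vel g (G.psi t x)) : VV n) + 0 + ε • ((η t, η' t) : VV n) =
        (G.Z t x + ε • η t, vel g (G.psi t x) + ε • η' t) := by simp
    rw [e1] at h2 h3
    refine ⟨h2, ?_⟩
    have e2 : Lg g ((G.Z t x, vel g (G.psi t x)) + 0) = 1 / 2 := by
      rw [add_zero]
      have := h.vel_unit (G.psi_mem h t hx)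
      show 1 / 2 * g (G.psi t x).1 (vel g (G.psi t x)) (vel g (G.psi t x)) = 1 / 2
      rw [this]; norm_num
    rw [e2] at h3
    simp only [map_zero, zero_apply, mul_zero, add_zero, norm_zero,
      zero_add] at h3
    have h4 : C₀ * ε * (ε * ‖((η t, η' t) : VV n)‖) ^ 2 * ‖((η t, η' t) : VV n)‖ ≤
        C₀ * M ^ 3 * ε ^ 3 := by
      have : ‖((η t, η' t) : VV n)‖ ^ 3 ≤ M ^ 3 := pow_le_pow_left₀ (norm_nonneg _) hm 3
      calc C₀ * ε * (ε * ‖((η t, η' t) : VV n)‖) ^ 2 * ‖((η t, η' t) : VV n)‖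
          = C₀ * ‖((η t, η' t) : VV n)‖ ^ 3 * ε ^ 3 := by ring
        _ ≤ C₀ * M ^ 3 * ε ^ 3 := by gcongr
    unfold D2
    linarith
  refine ⟨⟨(key a ⟨le_rfl, hab⟩).1, (key b ⟨hab, le_rfl⟩).1⟩, ?_⟩
  have hc : ∀ t, HasDerivAt (fun s => G.Z s x + ε • η s) (vel g (G.psi t x) + ε • η' t) t :=
    fun t => (G.hasDerivAt_Z h t hx).add ((hη t).const_smul ε)
  have hcc : Continuous fun s => G.Z s x + ε • η s := (G.nc_cont_Z h hx).add (hηc.const_smul ε)
  have hcc' : Continuous fun t => vel g (G.psi t x) + ε • η' t :=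
    (G.nc_cont_vel h hx).add (hη'.const_smul ε)
  have i1 := h.dd_le_curve (c := fun s => G.Z s x + ε • η s)
    (c' := fun t => vel g (G.psi t x) + ε • η' t) hab (fun t _ => hc t) hcc'.continuousOn
    (fun t ht => (key t ht).1)
  have i2 := h.len_le_energy (c := fun s => G.Z s x + ε • η s)
    (c' := fun t => vel g (G.psi t x) + ε • η' t) hab hcc.continuousOn hcc'.continuousOn
    (fun t ht => (key t ht).1)
  have c1 : Continuous fun t => fderiv ℝ (Lg g) (G.Z t x, vel g (G.psi t x)) (η t, η' t) :=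
    (h.nc_cont_D1.comp_continuous hp (fun t => G.Z_ne h t hx)).clm_apply hξ
  have c2 := G.nc_cont_DD h hx hηc hη'
  have c3 : ContinuousOn (fun t => Lg g (G.Z t x + ε • η t, vel g (G.psi t x) + ε • η' t))
      (Icc a b) :=
    h.contDiffOn_Lg.continuousOn.comp (hcc.prodMk hcc').continuousOn (fun t ht => (key t ht).1)
  have i3 : (∫ t in a..b, Lg g (G.Z t x + ε • η t, vel g (G.psi t x) + ε • η' t)) ≤
      ∫ t in a..b, (1 / 2 +
        ε * fderiv ℝ (Lg g) (G.Z t x, vel g (G.psi t x)) (η t, η' t) +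
        ε ^ 2 / 2 * D2 g (G.Z t x, vel g (G.psi t x)) (η t, η' t) (η t, η' t) +
        C₀ * M ^ 3 * ε ^ 3) := by
    apply intervalIntegral.integral_mono_on hab
    · exact (c3.mono (by rw [uIcc_of_le hab])).intervalIntegrable
    · exact Continuous.intervalIntegrable (by fun_prop) _ _
    · exact fun t ht => (key t ht).2
  have i4 : (∫ t in a..b, fderiv ℝ (Lg g) (G.Z t x, vel g (G.psi t x)) (η t, η' t)) =
      g (G.Z b x) (vel g (G.psi b x)) (η b) - g (G.Z a x) (vel g (G.psi a x)) (η a) :=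
    intervalIntegral.integral_eq_sub_of_hasDerivAt
      (f := fun s => g (G.Z s x) (vel g (G.psi s x)) (η s))
      (fun t _ => G.first_var h t hx (hη t)) (c1.intervalIntegrable _ _)
  rw [intervalIntegral.integral_add (Continuous.intervalIntegrable (by fun_prop) _ _)
      (Continuous.intervalIntegrable (by fun_prop) _ _),
    intervalIntegral.integral_add (Continuous.intervalIntegrable (by fun_prop) _ _)
      (Continuous.intervalIntegrable (by fun_prop) _ _),
    intervalIntegral.integral_add (Continuous.intervalIntegrable (by fun_prop) _ _)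
      (Continuous.intervalIntegrable (by fun_prop) _ _),
    intervalIntegral.integral_const_mul, intervalIntegral.integral_const_mul, i4,
    intervalIntegral.integral_const, intervalIntegral.integral_const, smul_eq_mul,
    smul_eq_mul] at i3
  nlinarith [i1, i2, i3]

end Geo

end Pool.Agent.Work.MP_8c604c_gt
end
end
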