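import Pool.Agent.Work.MP_8c604c_gt.O.BKG
import Pool.Agent.Work.MP_8c604c_gt.Dist

-- merged part: Pool.Agent.Work.MP_8c604c_gt.BKb
section
/-!
The inequality along one geodesic, matrix form (see PLAN.md, section BK).
Index none is the direction of the middle conjugate point. Gm t = Dl t * Gt t * Dl t, S' = Gm inverse.
Hints. det Q = sigma * det Q_perp (Schur complement), sigma = min over b of Q(1+b,1+b). Q_perp = integral of (Gt inverse)_perp / sin^2
across pi/2 (continuity of St). Same side pairs: sigma >= integral of 1/Gm_11. x < pi/2 < y < x + pi/2: -sigma(x,y) >= integral over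
[y, x+pi/2]; y > x + pi/2: sigma(x,y) >= integral over [x, y - pi/2] (both from det Q(x,x+pi/2) = 0). Use logdet_jensen with
kw 1 for u = log det (Gt inverse)_perp, scalar Jensen with kw 2 for v = -log Gt_11 on each half, and kazdan three times.
-/

set_option maxSynthPendingDepth 3

open Set Filter Topology MeasureTheory
open scoped ContDiff

noncomputable section
namespace Pool.Agent.Work.MP_8c604c_gt

open Matrix Real

variable {ι : Type} [Fintype ι] [DecidableEq ι]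

/-- The model diagonal matrix. -/
def Dl (ι : Type) [DecidableEq ι] (t : ℝ) : Matrix (Option ι) (Option ι) ℝ :=
  Matrix.diagonal fun i => Option.elim i (sin (2 * t) / 2) fun _ => sin t

/-- Matrix data along a geodesic. -/
structure BKM (ι : Type) [Fintype ι] [DecidableEq ι] where
  Gt : ℝ → Matrix (Option ι) (Option ι) ℝ
  S : ℝ → Matrix (Option ι) (Option ι) ℝ
  Gt_cont : ∀ i j, ContinuousOn (fun t => Gt t i j) (Icc 0 π)
  Gt_pos : ∀ t ∈ Icc 0 π, (Gt t).PosDef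
  Gt_zero : Gt 0 = 1
  S_symm : ∀ t ∈ Ioo 0 π, t ≠ π / 2 → (S t).IsSymm
  S_deriv : ∀ t ∈ Ioo 0 π, t ≠ π / 2 → ∀ i j,
    HasDerivAt (fun s => S s i j) ((Dl ι t * Gt t * Dl ι t)⁻¹ i j) t
  S_cont : ∀ i j : ι, ContinuousAt (fun s => S s (some i) (some j)) (π / 2)
  conj : ∀ x ∈ Ioo 0 (π / 2), (S (x + π / 2) - S x).det = 0

namespace BKM
variable (M : BKM ι)

/-- Square of the density between the times `x` and `y`. -/
def D2 (x y : ℝ) : ℝ :=
  (M.S y - M.S x).det ^ 2 * (Dl ι x * M.Gt x * Dl ι x).det * (Dl ι y * M.Gt y * Dl ι y).det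

/-- `th t` is the density from time `t` to time `t + τ`. -/
structure Link (τ : ℝ) (th : ℝ → ℝ) : Prop where
  cont : ContinuousOn th (Icc 0 π)
  pos : ∀ t ∈ Icc 0 π, 0 < th t
  short : ∀ t ∈ Ioo 0 (π - τ), t ≠ π / 2 → t + τ ≠ π / 2 → th t ^ 2 = M.D2 t (t + τ)
  long : ∀ t ∈ Ioo (π - τ) π, th t ^ 2 = M.D2 (t + τ - π) t

/-- The diagonal of `Dl`. -/
def dl (ι : Type) (t : ℝ) : Option ι → ℝ := fun i => Option.elim i (sn 2 t) fun _ => sin t

/-- The perpendicular block of the inverse of `Gt`. -/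
def NN (t : ℝ) : Matrix ι ι ℝ := (M.Gt t)⁻¹.submatrix some some

/-- The corner entry of `Gt`. -/
def gg (t : ℝ) : ℝ := M.Gt t none none

/-- `log det NN`. -/
def uu (t : ℝ) : ℝ := log (M.NN t).det

/-- `- log gg`. -/
def vv (t : ℝ) : ℝ := log (M.gg t)⁻¹

/-- The perpendicular part of the logarithm of the density. -/
def AA (x y : ℝ) : ℝ := log ((M.S y - M.S x).submatrix some some).det +
  Fintype.card ι * (log (sin x) + log (sin y)) - (M.uu x + M.uu y) / 2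

theorem Gi_cont (i j : Option ι) : ContinuousOn (fun t => (M.Gt t)⁻¹ i j) (Icc 0 π) := by
  have hG : ContinuousOn M.Gt (Icc 0 π) :=
    continuousOn_pi.2 fun i => continuousOn_pi.2 (M.Gt_cont i)
  have hI : ContinuousOn (fun t => (M.Gt t)⁻¹) (Icc 0 π) := fun t ht =>
    (continuousAt_matrix_inv _ (by
      rw [Ring.inverse_eq_inv']
      exact continuousAt_inv₀ (M.Gt_pos t ht).det_pos.ne')).comp_continuousWithinAt (hG t ht)
  exact continuousOn_pi.1 (continuousOn_pi.1 hI i) j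

theorem NN_pos {t : ℝ} (ht : t ∈ Icc 0 π) : (M.NN t).PosDef :=
  (M.Gt_pos t ht).inv.submatrix (Option.some_injective ι)

theorem gg_pos {t : ℝ} (ht : t ∈ Icc 0 π) : 0 < M.gg t := (M.Gt_pos t ht).diag_pos

theorem uu_cont : ContinuousOn M.uu (Icc 0 π) := by
  have h : ContinuousOn M.NN (Icc 0 π) :=
    continuousOn_pi.2 fun i => continuousOn_pi.2 fun j => M.Gi_cont (some i) (some j)
  exact (continuous_id.matrix_det.comp_continuousOn h).log fun t ht => (M.NN_pos ht).det_pos.ne'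

theorem gi_cont : ContinuousOn (fun t => (M.gg t)⁻¹) (Icc 0 π) :=
  (M.Gt_cont none none).inv₀ fun _ ht => (M.gg_pos ht).ne'

theorem vv_cont : ContinuousOn M.vv (Icc 0 π) :=
  M.gi_cont.log fun _ ht => inv_ne_zero (M.gg_pos ht).ne'

theorem sn_two (t : ℝ) : sn 2 t = sin t * cos t := by
  rw [sn, sin_two_mul]
  ring

theorem sn_one (t : ℝ) : sn 1 t = sin t := by simp [sn]

theorem sn_shift (t : ℝ) : sn 2 (t + π / 2) = -sn 2 t := by
  rw [sn_two, sn_two, sin_add_pi_div_two, cos_add_pi_div_two]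
  ring

omit [Fintype ι] [DecidableEq ι] in
theorem dl_ne {t : ℝ} (ht : t ∈ Ioo 0 π) (h : t ≠ π / 2) (i : Option ι) : dl ι t i ≠ 0 := by
  have h1 := (sin_pos_of_mem_Ioo ht).ne'
  cases i with
  | none =>
    show sn 2 t ≠ 0
    rw [sn_two]
    refine mul_ne_zero h1 fun e => h ?_
    exact injOn_cos (Ioo_subset_Icc_self ht) ⟨by positivity, by linarith only [pi_pos]⟩
      (e.trans cos_pi_div_two.symm)
  | some j => exact h1

omit [Fintype ι] [DecidableEq ι] in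
theorem dl_cont (i : Option ι) : Continuous fun t => dl ι t i := by
  cases i with
  | none => exact bkb_sn_cont 2
  | some j => exact continuous_sin

theorem deriv_S {t : ℝ} (ht : t ∈ Ioo 0 π) (h : t ≠ π / 2) (i j : Option ι) :
    HasDerivAt (fun s => M.S s i j) ((dl ι t i)⁻¹ * (M.Gt t)⁻¹ i j * (dl ι t j)⁻¹) t := by
  have h1 : Dl ι t * diagonal (fun i => (dl ι t i)⁻¹) = 1 := by
    show diagonal (dl ι t) * _ = _
    rw [diagonal_mul_diagonal, ← diagonal_one]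
    exact congrArg _ (funext fun i => mul_inv_cancel₀ (dl_ne ht h i))
  have h2 := M.S_deriv t ht h i j
  rwa [Matrix.mul_inv_rev, Matrix.mul_inv_rev, inv_eq_right_inv h1, ← Matrix.mul_assoc,
    mul_diagonal, diagonal_mul] at h2

theorem perp_eq {x y : ℝ} (hx : 0 < x) (hxy : x < y) (hy : y < π) :
    (M.S y - M.S x).submatrix some some = (sin (y - x) / (sin x * sin y)) •
      of fun i j => ∫ t in x..y, kw 1 x y t * M.NN t i j := by
  obtain ⟨k1, -, k3⟩ := bkb_kw one_pos hx hxy (by rwa [div_one])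
  simp only [sn_one] at k3
  have hs : ∀ t ∈ Icc x y, t ∈ Ioo 0 π := fun t ht => ⟨hx.trans_le ht.1, ht.2.trans_lt hy⟩
  ext i j
  rw [Matrix.smul_apply, of_apply, smul_eq_mul, ← intervalIntegral.integral_const_mul]
  refine (integral_eq_of_hasDerivAt_off_countable_of_le (fun s => M.S s (some i) (some j)) _
    hxy.le (countable_singleton (π / 2)) (fun t ht => ?_) (fun t ht => ?_) ?_).symm
  · by_cases h : t = π / 2
    · exact (h ▸ M.S_cont i j).continuousWithinAt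
    · exact (M.deriv_S (hs t ht) h _ _).continuousAt.continuousWithinAt
  · have ht' := Ioo_subset_Icc_self ht.1
    have := M.deriv_S (hs t ht') ht.2 (some i) (some j)
    rw [← mul_assoc, ← k3 t ht']
    refine this.congr_deriv ?_
    show (sin t)⁻¹ * M.NN t i j * (sin t)⁻¹ = _
    ring
  · refine ContinuousOn.intervalIntegrable_of_Icc hxy.le (continuousOn_const.mul (k1.mul ?_))
    exact (M.Gi_cont _ _).mono fun t ht => Ioo_subset_Icc_self (hs t ht)

theorem perp_log {x y : ℝ} (hx : 0 < x) (hxy : x < y) (hy : y < π) :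
    ((M.S y - M.S x).submatrix some some).PosDef ∧
    Fintype.card ι * log (sin (y - x)) + kd 1 M.uu x y ≤ M.AA x y ∧
    (Fintype.card ι * log (sin (y - x)) + kd 1 M.uu x y = M.AA x y →
      ∀ t ∈ Icc x y, M.NN t = M.NN x) := by
  obtain ⟨k1, k2, -⟩ := bkb_kw one_pos hx hxy (by rwa [div_one])
  have hs : Icc x y ⊆ Icc 0 π := Icc_subset_Icc hx.le hy.le
  obtain ⟨j1, j2, j3⟩ := logdet_jensen (N := M.NN) hxy
    (fun i j => (M.Gi_cont (some i) (some j)).mono hs) (fun t ht => M.NN_pos (hs ht)) k1 k2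
    (integral_kw one_pos hx hxy (by rwa [div_one]))
  have h1 := sin_pos_of_pos_of_lt_pi hx (hxy.trans hy)
  have h2 := sin_pos_of_pos_of_lt_pi (hx.trans hxy) hy
  have h3 := sin_pos_of_pos_of_lt_pi (sub_pos.2 hxy) (show y - x < π by linarith)
  have h4 := div_pos h3 (mul_pos h1 h2)
  rw [AA, kd, M.perp_eq hx hxy hy, det_smul, log_mul (pow_pos h4 _).ne' j1.det_pos.ne', log_pow,
    log_div h3.ne' (mul_pos h1 h2).ne', log_mul h1.ne' h2.ne']
  simp only [uu]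
  exact ⟨j1.smul h4, by linarith only [j2], fun h => j3 (by linarith only [h, j2])⟩

theorem exists_min {x y : ℝ} (hx : 0 < x) (hxy : x < y) (hy : y < π) (hx' : x ≠ π / 2)
    (hy' : y ≠ π / 2) : ∃ (ξ : Option ι → ℝ) (σ : ℝ), ξ none = 1 ∧ ξ ⬝ᵥ (M.S y - M.S x) *ᵥ ξ = σ ∧
      (M.S y - M.S x).det = σ * ((M.S y - M.S x).submatrix some some).det ∧
      ∀ η, η none = 1 → σ ≤ η ⬝ᵥ (M.S y - M.S x) *ᵥ η :=
  bkb_min ((M.S_symm y ⟨hx.trans hxy, hy⟩ hy').sub (M.S_symm x ⟨hx, hxy.trans hy⟩ hx'))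
    (M.perp_log hx hxy hy).1

theorem side_ge {p q : ℝ} (hpq : p < q) (hs : ∀ t ∈ Icc p q, t ∈ Ioo 0 π ∧ t ≠ π / 2)
    {ξ : Option ι → ℝ} (hξ : ξ none = 1) :
    (∫ t in p..q, (sn 2 t ^ 2)⁻¹ * (M.gg t)⁻¹) ≤ ξ ⬝ᵥ (M.S q - M.S p) *ᵥ ξ ∧
    ((∫ t in p..q, (sn 2 t ^ 2)⁻¹ * (M.gg t)⁻¹) = ξ ⬝ᵥ (M.S q - M.S p) *ᵥ ξ →
      ∀ t ∈ Icc p q, ∀ j, ξ (some j) * cos t * M.gg t = M.Gt t (some j) none) := by
  have hs' : Icc p q ⊆ Icc 0 π := fun t ht => Ioo_subset_Icc_self (hs t ht).1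
  let ζ : ℝ → Option ι → ℝ := fun t i => (dl ι t i)⁻¹ * ξ i
  have hζ : ∀ i, ContinuousOn (fun t => ζ t i) (Icc p q) := fun i =>
    ((dl_cont i).continuousOn.inv₀ fun t ht => dl_ne (hs t ht).1 (hs t ht).2 i).mul
      continuousOn_const
  have c1 : ContinuousOn (fun t => ζ t ⬝ᵥ (M.Gt t)⁻¹ *ᵥ ζ t) (Icc p q) :=
    continuousOn_finsetSum _ fun i _ => (hζ i).mul (continuousOn_finsetSum _ fun j _ =>
      ((M.Gi_cont i j).mono hs').mul (hζ j))
  have c2 : ContinuousOn (fun t => (sn 2 t ^ 2)⁻¹ * (M.gg t)⁻¹) (Icc p q) :=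
    (((bkb_sn_cont 2).pow 2).continuousOn.inv₀ fun t ht =>
      pow_ne_zero 2 (dl_ne (ι := ι) (hs t ht).1 (hs t ht).2 none)).mul (M.gi_cont.mono hs')
  have e : ∫ t in p..q, ζ t ⬝ᵥ (M.Gt t)⁻¹ *ᵥ ζ t = ξ ⬝ᵥ (M.S q - M.S p) *ᵥ ξ := by
    rw [sub_mulVec, dotProduct_sub]
    refine intervalIntegral.integral_eq_sub_of_hasDerivAt (f := fun t => ξ ⬝ᵥ M.S t *ᵥ ξ)
      (fun t ht => ?_) (c1.intervalIntegrable_of_Icc hpq.le)
    rw [uIcc_of_le hpq.le] at ht
    have := HasDerivAt.fun_sum (u := Finset.univ) fun i _ =>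
      (HasDerivAt.fun_sum (u := Finset.univ) fun j _ =>
        (M.deriv_S (hs t ht).1 (hs t ht).2 i j).mul_const (ξ j)).const_mul (ξ i)
    refine this.congr_deriv ?_
    simp only [dotProduct, mulVec, ζ, Finset.mul_sum]
    exact Finset.sum_congr rfl fun i _ => Finset.sum_congr rfl fun j _ => by ring
  have h1 : ∀ t, ζ t none ^ 2 / M.Gt t none none = (sn 2 t ^ 2)⁻¹ * (M.gg t)⁻¹ := fun t => by
    show ((sn 2 t)⁻¹ * ξ none) ^ 2 / M.gg t = _
    rw [hξ, mul_one, inv_pow, div_eq_mul_inv]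
  have h2 : ∀ t ∈ Icc p q, (sn 2 t ^ 2)⁻¹ * (M.gg t)⁻¹ ≤ ζ t ⬝ᵥ (M.Gt t)⁻¹ *ᵥ ζ t := fun t ht =>
    h1 t ▸ (bkb_inv_ge (M.Gt_pos t (hs' ht)) (ζ t)).1
  rw [← e]
  refine ⟨intervalIntegral.integral_mono_on hpq.le (c2.intervalIntegrable_of_Icc hpq.le)
    (c1.intervalIntegrable_of_Icc hpq.le) h2, fun h t ht j => ?_⟩
  have h3 : (sn 2 t ^ 2)⁻¹ * (M.gg t)⁻¹ = ζ t ⬝ᵥ (M.Gt t)⁻¹ *ᵥ ζ t := by
    by_contra hne
    exact (intervalIntegral.integral_lt_integral_of_continuousOn_of_le_of_exists_lt hpq c2 c1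
      (fun s hs => h2 s (Ioc_subset_Icc_self hs)) ⟨t, ht, lt_of_le_of_ne (h2 t ht) hne⟩).ne h
  have h4 : (sin t)⁻¹ * ξ (some j) * M.gg t = (sn 2 t)⁻¹ * ξ none * M.Gt t (some j) none :=
    (bkb_inv_ge (M.Gt_pos t (hs' ht)) (ζ t)).2 ((h1 t).trans h3) (some j)
  have h5 : sn 2 t ≠ 0 := dl_ne (ι := ι) (hs t ht).1 (hs t ht).2 none
  rw [sn_two] at h4 h5
  have h6 := left_ne_zero_of_mul h5
  have h7 := right_ne_zero_of_mul h5
  rw [hξ] at h4
  field_simp at h4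
  linarith only [h4]

theorem log_Gm {t : ℝ} (ht : t ∈ Ioo 0 π) (h : t ≠ π / 2) :
    (Dl ι t * M.Gt t * Dl ι t).det ≠ 0 ∧ log (Dl ι t * M.Gt t * Dl ι t).det =
      2 * (log (sn 2 t) + Fintype.card ι * log (sin t)) - M.vv t - M.uu t := by
  have h1 : (Dl ι t).det = sn 2 t * sin t ^ Fintype.card ι := by
    rw [Dl, det_diagonal, Fintype.prod_option]
    simp [sn]
  have h2 : sn 2 t ≠ 0 := dl_ne (ι := ι) ht h none
  have h3 := pow_ne_zero (Fintype.card ι) (sin_pos_of_mem_Ioo ht).ne'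
  have h4 := mul_ne_zero h2 h3
  have hG := M.Gt_pos t (Ioo_subset_Icc_self ht)
  have h5 := hG.det_pos.ne'
  rw [det_mul, det_mul, h1, log_mul (mul_ne_zero h4 h5) h4, log_mul h4 h5, log_mul h2 h3, log_pow,
    bkb_det_inv hG, vv, log_inv]
  refine ⟨mul_ne_zero (mul_ne_zero h4 h5) h4, ?_⟩
  simp only [uu, NN, gg]
  ring

theorem pair {x y : ℝ} (hx : 0 < x) (hxy : x < y) (hy : y < π) (hx' : x ≠ π / 2)
    (hy' : y ≠ π / 2) {θ σ : ℝ} (h0 : 0 < θ) (hθ : θ ^ 2 = M.D2 x y)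
    (hσ : (M.S y - M.S x).det = σ * ((M.S y - M.S x).submatrix some some).det) :
    log θ = log σ + M.AA x y + log (sn 2 x) + log (sn 2 y) - (M.vv x + M.vv y) / 2 := by
  obtain ⟨a1, a2⟩ := M.log_Gm ⟨hx, hxy.trans hy⟩ hx'
  obtain ⟨b1, b2⟩ := M.log_Gm ⟨hx.trans hxy, hy⟩ hy'
  have h1 := (M.perp_log hx hxy hy).1.det_pos.ne'
  have h2 : (M.S y - M.S x).det ≠ 0 := fun e => by
    rw [D2, e] at hθ
    simp [h0.ne'] at hθ
  have h3 := congrArg log hθ
  rw [D2, log_mul (mul_ne_zero (pow_ne_zero 2 h2) a1) b1, log_mul (pow_ne_zero 2 h2) a1, log_pow,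
    log_pow, a2, b2, hσ, log_mul (left_ne_zero_of_mul (hσ ▸ h2)) h1] at h3
  rw [AA]
  push_cast at h3
  linarith only [h3]

theorem low_side {x y : ℝ} (hx : 0 < x) (hy : y < π / 2) :
    ∀ t ∈ Icc x y, t ∈ Ioo 0 π ∧ t ≠ π / 2 := fun t ht =>
  ⟨⟨hx.trans_le ht.1, by linarith only [hy, ht, ht.2, pi_pos]⟩, (ht.2.trans_lt hy).ne⟩

theorem up_side {x y : ℝ} (hx : 0 < x) (hy : y < π / 2) :
    ∀ t ∈ Icc (x + π / 2) (y + π / 2), t ∈ Ioo 0 π ∧ t ≠ π / 2 := fun t ht =>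
  ⟨⟨by linarith only [hx, ht, ht.1, pi_pos], by linarith only [hy, ht, ht.2]⟩, by linarith only [hx, ht, ht.1, pi_pos] |> ne_of_gt⟩

theorem low_scalar {x y : ℝ} (hx : 0 < x) (hxy : x < y) (hy : y < π / 2) :
    0 < ∫ t in x..y, (sn 2 t ^ 2)⁻¹ * (M.gg t)⁻¹ ∧
    log (sn 2 (y - x)) - log (sn 2 x) - log (sn 2 y) + (∫ t in x..y, kw 2 x y t * M.vv t) ≤
      log (∫ t in x..y, (sn 2 t ^ 2)⁻¹ * (M.gg t)⁻¹) ∧
    (log (sn 2 (y - x)) - log (sn 2 x) - log (sn 2 y) + (∫ t in x..y, kw 2 x y t * M.vv t) =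
      log (∫ t in x..y, (sn 2 t ^ 2)⁻¹ * (M.gg t)⁻¹) → ∀ t ∈ Icc x y, (M.gg t)⁻¹ = (M.gg x)⁻¹) :=
  have hs : Icc x y ⊆ Icc 0 π := fun t ht => Ioo_subset_Icc_self (low_side hx hy t ht).1
  bkb_scalar two_pos hx hxy hy (M.gi_cont.mono hs) fun _ ht => inv_pos.2 (M.gg_pos (hs ht))

theorem up_scalar {x y : ℝ} (hx : 0 < x) (hxy : x < y) (hy : y < π / 2) {σ : ℝ}
    {ξ : Option ι → ℝ} (hξ : ξ none = 1)
    (h : ξ ⬝ᵥ (M.S (y + π / 2) - M.S (x + π / 2)) *ᵥ ξ ≤ σ) :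
    log (sn 2 (y - x)) - log (sn 2 x) - log (sn 2 y) +
      (∫ t in x..y, kw 2 x y t * M.vv (t + π / 2)) ≤ log σ := by
  have hs : ∀ t ∈ Icc x y, t + π / 2 ∈ Icc 0 π := fun t ht =>
    ⟨by linarith only [hx, hxy, hy, ht, ht.1, pi_pos], by linarith only [hy, ht, ht.2]⟩
  obtain ⟨h1, h2, -⟩ := bkb_scalar two_pos hx hxy hy (f := fun t => (M.gg (t + π / 2))⁻¹)
    (M.gi_cont.comp (continuous_add_const _).continuousOn hs)
    fun t ht => inv_pos.2 (M.gg_pos (hs t ht))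
  have h3 := (M.side_ge (by linarith only [hxy]) (up_side hx hy) hξ).1
  rw [← intervalIntegral.integral_comp_add_right] at h3
  simp only [sn_shift, neg_sq] at h3
  exact h2.trans (log_le_log h1 (h3.trans h))

theorem conj_min {a : ℝ} (ha : a ∈ Ioo 0 (π / 2)) :
    (∃ ξ : Option ι → ℝ, ξ none = 1 ∧ ξ ⬝ᵥ (M.S (a + π / 2) - M.S a) *ᵥ ξ = 0) ∧
      ∀ η, η none = 1 → 0 ≤ η ⬝ᵥ (M.S (a + π / 2) - M.S a) *ᵥ η := by
  have h1 : a < a + π / 2 := by linarith only [pi_pos]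
  have h2 : a + π / 2 < π := by linarith only [ha, ha.2]
  obtain ⟨ξ, σ, k1, k2, k3, k4⟩ := M.exists_min ha.1 h1 h2 ha.2.ne (by linarith only [ha, ha.1] |> ne_of_gt)
  rw [M.conj a ha] at k3
  obtain rfl : σ = 0 := (mul_eq_zero.1 k3.symm).resolve_right (M.perp_log ha.1 h1 h2).1.det_pos.ne'
  exact ⟨⟨ξ, k1, k2⟩, k4⟩

omit [DecidableEq ι] in
theorem qf_add (A B C : Matrix (Option ι) (Option ι) ℝ) (ξ : Option ι → ℝ) :
    ξ ⬝ᵥ (C - A) *ᵥ ξ = ξ ⬝ᵥ (B - A) *ᵥ ξ + ξ ⬝ᵥ (C - B) *ᵥ ξ := by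
  simp only [sub_mulVec, dotProduct_sub]
  ring

variable {M} {τ : ℝ} {th : ℝ → ℝ}

theorem piece1 (hτ : τ ∈ Ioo 0 (π / 2)) (h : M.Link τ th) {x : ℝ} (hx : x ∈ Ioo 0 (π / 2 - τ)) :
    Fintype.card ι * log (sin τ) + log (sn 2 τ) + kd 1 M.uu x (x + τ) + kd 2 M.vv x (x + τ) ≤
      log (th x) ∧
    (Fintype.card ι * log (sin τ) + log (sn 2 τ) + kd 1 M.uu x (x + τ) + kd 2 M.vv x (x + τ) =
      log (th x) → ∃ ξ : ι → ℝ, ∀ t ∈ Icc x (x + τ), M.NN t = M.NN x ∧ M.gg t = M.gg x ∧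
        ∀ j, ξ j * cos t * M.gg t = M.Gt t (some j) none) := by
  have h1 : x < x + τ := by linarith [hτ.1]
  have h2 : x + τ < π / 2 := by linarith only [hx, hx.2]
  have h3 : x + τ < π := by linarith [pi_pos]
  obtain ⟨ξ, σ, k1, k2, k3, -⟩ := M.exists_min hx.1 h1 h3 (h1.trans h2).ne h2.ne
  have e := M.pair hx.1 h1 h3 (h1.trans h2).ne h2.ne (h.pos x ⟨hx.1.le, by linarith⟩)
    (h.short x ⟨hx.1, by linarith⟩ (h1.trans h2).ne h2.ne) k3
  obtain ⟨-, p1, p2⟩ := M.perp_log hx.1 h1 h3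
  obtain ⟨s0, s1, s2⟩ := M.low_scalar hx.1 h1 h2
  obtain ⟨q1, q2⟩ := M.side_ge h1 (low_side hx.1 h2) k1
  rw [k2] at q1 q2
  have q3 := log_le_log s0 q1
  rw [add_sub_cancel_left] at p1 p2 s1 s2
  rw [kd.eq_1 2, e]
  refine ⟨by linarith only [p1, s1, q3], fun he => ⟨ξ ∘ some, fun t ht => ⟨p2 (by linarith only [s1, q3, he, p1]) t ht,
    inv_injective (s2 (by linarith only [p1, q3, he, s1]) t ht), q2 ?_ t ht⟩⟩⟩
  exact log_injOn_pos s0 (s0.trans_le q1) (by linarith only [p1, s1, he, q3])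

theorem piece3 (hτ : τ ∈ Ioo 0 (π / 2)) (h : M.Link τ th) {x : ℝ} (hx : x ∈ Ioo 0 (π / 2 - τ)) :
    Fintype.card ι * log (sin τ) + log (sn 2 τ) + kd 1 M.uu (x + π / 2) (x + π / 2 + τ) +
      kd 2 (fun t => M.vv (t + π / 2)) x (x + τ) ≤ log (th (x + π / 2)) := by
  have h0 : 0 < x + π / 2 := by linarith only [hx, hx.1, pi_pos]
  have h1 : x + π / 2 < x + π / 2 + τ := by linarith only [hτ, hτ.1]
  have h3 : x + π / 2 + τ < π := by linarith only [hx, hx.2]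
  have h4 : π / 2 < x + π / 2 := by linarith only [hx, hx.1]
  obtain ⟨ξ, σ, k1, k2, k3, -⟩ := M.exists_min h0 h1 h3 h4.ne' (h4.trans h1).ne'
  have e := M.pair h0 h1 h3 h4.ne' (h4.trans h1).ne' (h.pos _ ⟨h0.le, by linarith only [h1, h3]⟩)
    (h.short _ ⟨h0, by linarith only [h3]⟩ h4.ne' (h4.trans h1).ne') k3
  obtain ⟨-, p1, -⟩ := M.perp_log h0 h1 h3
  rw [add_sub_cancel_left] at p1
  rw [add_right_comm x] at k2 e p1 ⊢
  have s1 := M.up_scalar hx.1 (show x < x + τ by linarith only [h1, hτ.1]) (by linarith only [h3, hx.2]) k1 k2.le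
  rw [add_sub_cancel_left] at s1
  rw [sn_shift, sn_shift, log_neg_eq_log, log_neg_eq_log] at e
  rw [kd.eq_1 2, e]
  linarith only [p1, s1]

theorem piece24 (hτ : τ ∈ Ioo 0 (π / 2)) (h : M.Link τ th) {b : ℝ} (hb : b ∈ Ioo 0 τ) :
    2 * (Fintype.card ι * log (sin τ) + log (sn 2 τ)) +
      kd 1 M.uu (b + (π / 2 - τ)) (b + (π / 2 - τ) + τ) + kd 1 M.uu b (b + (π - τ)) +
      kd 2 M.vv b (b + (π / 2 - τ)) + kd 2 (fun t => M.vv (t + π / 2)) b (b + (π / 2 - τ)) ≤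
        log (th (b + (π / 2 - τ))) + log (th (b + (π - τ))) := by
  obtain ⟨a, ha⟩ : ∃ a, a = b + (π / 2 - τ) := ⟨_, rfl⟩
  have hab : b < a := by linarith only [ha, hτ, hτ.2]
  have ha2 : a < π / 2 := by linarith only [ha, hb, hb.2]
  have ha0 : 0 < a := hb.1.trans hab
  have e1 : a + τ = b + π / 2 := by linarith only [ha]
  have e2 : b + (π - τ) = a + π / 2 := by linarith only [ha]
  have e3 : sn 2 (a - b) = sn 2 τ := by
    rw [show a - b = π / 2 - τ by linarith only [ha], sn_two, sn_two, sin_pi_div_two_sub, cos_pi_div_two_sub,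
      mul_comm]
  obtain ⟨⟨ξ, c1, c2⟩, c3⟩ := M.conj_min ⟨ha0, ha2⟩
  have h1 : a < b + π / 2 := by linarith only [ha, hτ, hτ.1]
  have h2 : b + π / 2 < π := by linarith only [hab, ha2]
  have h3 : π / 2 < b + π / 2 := by linarith only [hb, hb.1]
  have h4 : b < a + π / 2 := by linarith only [hab, ha2, h3]
  have h5 : a + π / 2 < π := by linarith only [ha2]
  have h6 : π / 2 < a + π / 2 := by linarith only [hab, h3]
  obtain ⟨-, σ, -, -, k3, k4⟩ := M.exists_min ha0 h1 h2 ha2.ne h3.ne'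
  obtain ⟨ξ', σ', l1, l2, l3, -⟩ := M.exists_min hb.1 h4 h5 (hab.trans ha2).ne h6.ne'
  have f1 := M.pair ha0 h1 h2 ha2.ne h3.ne' (h.pos a ⟨ha0.le, by linarith only [hab, ha2, h3]⟩)
    (e1 ▸ h.short a ⟨ha0, by linarith only [ha, hab, ha2]⟩ ha2.ne (e1 ▸ h3.ne')) k3
  have f2 := M.pair hb.1 h4 h5 (hab.trans ha2).ne h6.ne' (h.pos _ ⟨by linarith only [hab, ha2, h3], h5.le⟩) (by
    rw [h.long _ ⟨by linarith only [ha, h3, hb.1], h5⟩, show a + π / 2 + τ - π = b by linarith only [ha]]) l3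
  obtain ⟨-, p1, -⟩ := M.perp_log ha0 h1 h2
  obtain ⟨-, p2, -⟩ := M.perp_log hb.1 h4 h5
  rw [show b + π / 2 - a = τ by linarith only [ha]] at p1
  rw [show a + π / 2 - b = π - τ by linarith only [ha], sin_pi_sub] at p2
  have s1 := M.up_scalar hb.1 hab ha2 c1 (σ := -σ) (by
    have := qf_add (M.S a) (M.S (b + π / 2)) (M.S (a + π / 2)) ξ
    linarith only [c2, this, k4, c1, k4 ξ c1])
  obtain ⟨s0, s2, -⟩ := M.low_scalar hb.1 hab ha2
  have s3 := log_le_log s0 (show _ ≤ σ' by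
    have := qf_add (M.S b) (M.S a) (M.S (a + π / 2)) ξ'
    linarith only [l2, this, c3, l1, hab, hb, ha2, c3 ξ' l1, (M.side_ge hab (low_side hb.1 ha2) l1).1])
  rw [sn_shift, log_neg_eq_log] at f1 f2
  rw [log_neg_eq_log] at s1
  rw [e3] at s1 s2
  rw [← ha, e1, e2, kd.eq_1 2, kd.eq_1 2, f1, f2]
  linarith only [p1, p2, s1, s2, s3]

theorem shift_int {f : ℝ → ℝ} {L a d e : ℝ} (hf : IntervalIntegrable f volume 0 L) (ha : 0 ≤ a)
    (hd : 0 ≤ d) (he : d + a = e) (hL : e ≤ L) :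
    IntervalIntegrable (fun x => f (x + a)) volume 0 d ∧
      ∫ x in (0 : ℝ)..d, f (x + a) = (∫ x in (0 : ℝ)..e, f x) - ∫ x in (0 : ℝ)..a, f x := by
  have h1 : ∀ s, 0 ≤ s → s ≤ L → IntervalIntegrable f volume 0 s := fun s h0 h1 =>
    hf.mono_set (uIcc_subset_uIcc left_mem_uIcc (mem_uIcc_of_le h0 h1))
  have h2 := h1 a ha (by linarith)
  have h3 := h1 e (by linarith) hL
  rw [intervalIntegral.integral_comp_add_right, intervalIntegral.integral_interval_sub_left h3 h2,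
    zero_add, he]
  refine ⟨?_, rfl⟩
  have := (h2.symm.trans h3).comp_add_right a
  rwa [sub_self, ← he, add_sub_cancel_right] at this

theorem main (hτ : τ ∈ Ioo 0 (π / 2)) (h : M.Link τ th) :
    IntervalIntegrable (fun x => log (th x) - (Fintype.card ι * log (sin τ) + log (sn 2 τ) +
      kd 1 M.uu x (x + τ) + kd 2 M.vv x (x + τ))) volume 0 (π / 2 - τ) ∧
    π * log (sin τ ^ Fintype.card ι * (sin (2 * τ) / 2)) +
      (∫ x in (0 : ℝ)..(π / 2 - τ), (log (th x) - (Fintype.card ι * log (sin τ) + log (sn 2 τ) +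
        kd 1 M.uu x (x + τ) + kd 2 M.vv x (x + τ)))) ≤ ∫ t in (0 : ℝ)..π, log (th t) := by
  have hπ := pi_pos
  obtain ⟨t0, t1⟩ := hτ
  have hc : log (sin τ ^ Fintype.card ι * (sin (2 * τ) / 2)) =
      Fintype.card ι * log (sin τ) + log (sn 2 τ) := by
    rw [← log_pow]
    exact log_mul (pow_ne_zero _ (sin_pos_of_pos_of_lt_pi t0 (by linarith only [t0, t1])).ne')
      (bkb_sn_pos two_pos t0 t1).ne'
  rw [hc]
  have P1 := fun x hx => (piece1 ⟨t0, t1⟩ h (x := x) hx).1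
  have P3 := fun x hx => piece3 ⟨t0, t1⟩ h (x := x) hx
  have P2 := fun x hx => piece24 ⟨t0, t1⟩ h (b := x) hx
  generalize Fintype.card ι * log (sin τ) + log (sn 2 τ) = c at P1 P2 P3 ⊢
  have hF : IntervalIntegrable (fun t => log (th t)) volume 0 π :=
    (h.cont.log fun t ht => (h.pos t ht).ne').intervalIntegrable_of_Icc hπ.le
  obtain ⟨u1, u2, u3⟩ := kazdan one_pos t0 (by linarith only [t0, t1]) (u := M.uu)
    (by rw [div_one]; exact M.uu_cont)
  rw [div_one] at u1 u2 u3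
  obtain ⟨v1, v2, v3⟩ := kazdan two_pos t0 t1 (u := M.vv)
    (M.vv_cont.mono (Icc_subset_Icc le_rfl (by linarith only [t0, t1])))
  obtain ⟨w1, w2, w3⟩ := kazdan two_pos t0 t1 (u := fun t => M.vv (t + π / 2))
    (M.vv_cont.comp (continuous_add_const _).continuousOn fun t ht =>
      ⟨by linarith only [t0, t1, ht, ht.1], by linarith only [ht, ht.2]⟩)
  have hd : 0 ≤ π / 2 - τ := by linarith only [t1]
  have F1 := hF.mono_set (uIcc_subset_uIcc left_mem_uIcc (mem_uIcc_of_le hd (by linarith only [t0, t1])))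
  have U1 := u1.mono_set (uIcc_subset_uIcc left_mem_uIcc (mem_uIcc_of_le hd (by linarith only [t0, t1])))
  obtain ⟨F2, F2'⟩ := shift_int hF hd t0.le (e := π / 2) (by ring) (by linarith only [t0, t1])
  obtain ⟨F3, F3'⟩ := shift_int hF (a := π / 2) (by linarith only [t0, t1]) hd (e := π - τ) (by ring)
    (by linarith only [t0])
  obtain ⟨F4, F4'⟩ := shift_int hF (a := π - τ) (by linarith only [t0, t1]) t0.le (e := π) (by ring) le_rfl
  obtain ⟨U2, U2'⟩ := shift_int u1 hd t0.le (e := π / 2) (by ring) (by linarith only [t1])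
  obtain ⟨U3, U3'⟩ := shift_int u1 (a := π / 2) (by linarith only [t0, t1]) hd (e := π - τ) (by ring) le_rfl
  have cI : ∀ (k a b : ℝ), IntervalIntegrable (fun _ => k) volume a b := fun _ _ _ =>
    intervalIntegrable_const
  have I3 := intervalIntegral.integral_mono_on_of_le_Ioo hd (((cI c _ _).add U3).add w1) F3 P3
  have I2 := intervalIntegral.integral_mono_on_of_le_Ioo t0.le
    (((((cI (2 * c) _ _).add U2).add u2).add v2).add w2) (F2.add F4) P2
  rw [intervalIntegral.integral_add ((cI c _ _).add U3) w1,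
    intervalIntegral.integral_add (cI c _ _) U3, intervalIntegral.integral_const] at I3
  rw [intervalIntegral.integral_add ((((cI (2 * c) _ _).add U2).add u2).add v2) w2,
    intervalIntegral.integral_add (((cI (2 * c) _ _).add U2).add u2) v2,
    intervalIntegral.integral_add ((cI (2 * c) _ _).add U2) u2,
    intervalIntegral.integral_add (cI (2 * c) _ _) U2, intervalIntegral.integral_const,
    intervalIntegral.integral_add F2 F4] at I2
  refine ⟨F1.sub (((cI c _ _).add U1).add v1), ?_⟩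
  rw [intervalIntegral.integral_sub F1 (((cI c _ _).add U1).add v1),
    intervalIntegral.integral_add ((cI c _ _).add U1) v1,
    intervalIntegral.integral_add (cI c _ _) U1, intervalIntegral.integral_const]
  simp only [smul_eq_mul] at I2 I3 ⊢
  linarith only [u3, v3, w3, F2', F3', F4', U2', U3', I3, I2]

variable (M)

theorem perp_pos {x y : ℝ} (hx : 0 < x) (hxy : x < y) (hy : y < π) (hx' : x ≠ π / 2)
    (hy' : y ≠ π / 2) : ((M.S y - M.S x).submatrix some some).PosDef := by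
  have _ := hx'
  have _ := hy'
  exact (M.perp_log hx hxy hy).1

theorem ineq {τ : ℝ} (hτ : τ ∈ Ioo 0 (π / 2)) {th : ℝ → ℝ} (h : M.Link τ th) :
    π * log (sin τ ^ Fintype.card ι * (sin (2 * τ) / 2)) ≤ ∫ t in (0 : ℝ)..π, log (th t) := by
  refine le_trans (le_add_of_nonneg_right ?_) (main hτ h).2
  have := intervalIntegral.integral_mono_on_of_le_Ioo (sub_pos.2 hτ.2).le
    (intervalIntegrable_const (c := (0 : ℝ))) (main hτ h).1
    fun x hx => sub_nonneg.2 (piece1 hτ h hx).1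
  rwa [intervalIntegral.integral_zero] at this

theorem eq_case {τ : ℝ} (hτ : τ ∈ Ioo 0 (π / 2)) {th : ℝ → ℝ} (h : M.Link τ th)
    (e : π * log (sin τ ^ Fintype.card ι * (sin (2 * τ) / 2)) = ∫ t in (0 : ℝ)..π, log (th t)) :
    M.Gt τ = 1 := by
  obtain ⟨m1, m2⟩ := main hτ h
  have hd := (sub_pos.2 hτ.2).le
  have hn : 0 ≤ᵐ[volume.restrict (Ioc 0 (π / 2 - τ))] fun x => log (th x) -
      (Fintype.card ι * log (sin τ) + log (sn 2 τ) + kd 1 M.uu x (x + τ) + kd 2 M.vv x (x + τ)) := by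
    rw [← restrict_Ioo_eq_restrict_Ioc]
    exact ae_restrict_of_forall_mem measurableSet_Ioo fun x hx => sub_nonneg.2 (piece1 hτ h hx).1
  have h0 := (intervalIntegral.integral_eq_zero_iff_of_le_of_nonneg_ae hd hn m1).1
    (le_antisymm (by linarith only [e, m2]) (by
      rw [intervalIntegral.integral_of_le hd]
      exact integral_nonneg_of_ae hn))
  have hD := Measure.dense_of_ae ((ae_restrict_iff' measurableSet_Ioc).1 h0)
  have key : ∀ φ : ℝ → ℝ, ContinuousOn φ (Icc 0 π) → (∀ (x : ℝ) (ξ : ι → ℝ), x ≤ τ →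
      (∀ t ∈ Icc x (x + τ), M.NN t = M.NN x ∧ M.gg t = M.gg x ∧
        ∀ j, ξ j * cos t * M.gg t = M.Gt t (some j) none) → 0 < x → φ x = 0) → φ 0 = 0 := by
    intro φ hφ hz
    have h1 : (0 : ℝ) ∈ closure {x | x ∈ Icc 0 π ∧ φ x = 0} := by
      rw [Metric.mem_closure_iff]
      intro ε hε
      obtain ⟨x, hx, x0, x1⟩ := hD.exists_between
        (lt_min hε (lt_min hτ.1 (sub_pos.2 hτ.2)))
      obtain ⟨x1, x2⟩ := lt_min_iff.1 x1
      obtain ⟨x2, x3⟩ := lt_min_iff.1 x2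
      obtain ⟨ξ, hξ⟩ := (piece1 hτ h ⟨x0, x3⟩).2 (sub_eq_zero.1 (hx ⟨x0, x3.le⟩)).symm
      refine ⟨x, ⟨⟨x0.le, by linarith only [x0, x2, x3, hτ.2, pi_pos]⟩, hz x ξ x2.le hξ x0⟩, ?_⟩
      rwa [dist_comm, Real.dist_eq, sub_zero, abs_of_pos x0]
    have h2 := ((hφ 0 ⟨le_rfl, pi_pos.le⟩).mono fun x hx => hx.1).mem_closure_image h1
    have h3 : φ '' {x | x ∈ Icc 0 π ∧ φ x = 0} ⊆ {0} := by
      rintro _ ⟨x, hx, rfl⟩
      exact hx.2
    simpa using closure_mono h3 h2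
  have g0 : M.gg 0 = 1 := by simp [gg, M.Gt_zero]
  have a1 : M.gg τ = 1 := by
    have := key (fun x => M.gg τ - M.gg x) (continuousOn_const.sub (M.Gt_cont none none))
      fun x ξ hx H x0 => sub_eq_zero.2 (H τ ⟨hx, by linarith only [x0]⟩).2.1
    rwa [g0, sub_eq_zero] at this
  have a2 : ∀ i j, (M.Gt τ)⁻¹ (some i) (some j) = (1 : Matrix ι ι ℝ) i j := by
    intro i j
    have := key (fun x => M.NN τ i j - M.NN x i j) (continuousOn_const.sub (M.Gi_cont _ _))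
      fun x ξ hx H x0 => by rw [(H τ ⟨hx, by linarith only [x0]⟩).1, sub_self]
    rw [sub_eq_zero] at this
    refine this.trans ?_
    simp [NN, M.Gt_zero, one_apply]
  have a3 : ∀ j, M.Gt τ (some j) none = 0 := by
    intro j
    have := key (fun x => M.Gt τ (some j) none * (cos x * M.gg x) -
      M.Gt x (some j) none * (cos τ * M.gg τ))
      ((continuousOn_const.mul (continuous_cos.continuousOn.mul (M.Gt_cont none none))).sub
        ((M.Gt_cont _ _).mul continuousOn_const))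
      fun x ξ hx H x0 => by
        rw [← (H τ ⟨hx, by linarith only [x0]⟩).2.2 j, ← (H x ⟨le_rfl, by linarith only [hx, x0, hτ.1]⟩).2.2 j]
        ring
    simpa [g0, M.Gt_zero] using this
  have hG := M.Gt_pos τ ⟨hτ.1.le, by linarith only [hτ, hτ.2, pi_pos]⟩
  have hI := mul_nonsing_inv _ (isUnit_iff_ne_zero.2 hG.det_pos.ne')
  ext (_ | i) (_ | j)
  · exact a1.trans (one_apply_eq _).symm
  · have := hG.isHermitian.apply none (some j)
    rw [a3, star_zero] at this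
    simp [← this]
  · simp [a3]
  · rw [← hI, Matrix.mul_apply, Fintype.sum_option, a3, zero_mul, zero_add]
    simp [a2, one_apply]

end BKM

end Pool.Agent.Work.MP_8c604c_gt
end
end

-- merged part: Pool.Agent.Work.MP_8c604c_gt.JSys
section
/-!
From an abstract system of Jacobi fields to matrix data.
Hints. For t in (0,pi), t not pi/2, a -> J t (a,0) is injective, so by rank for every b there is a unique a = S t b with
J t (S t b, b) = 0; S = - Gram_AA inverse * Gram_AB. Differentiate J t (S t b, b) = 0 and use star to get S' = Gram_AA inverse.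
Gt is the Gram matrix of the fields J t (e_i,0) / (Dl t)_ii, extended at the zeros by the derivative (dslope);
positivity at 0, pi/2, pi from star. Dl * S = - Gt inverse * (Gram of the divided fields with the B fields) is continuous;
define S at pi/2 by this formula divided by sin.
-/

set_option maxSynthPendingDepth 3

open Set Filter Topology MeasureTheory
open scoped ContDiff

noncomputable section
namespace Pool.Agent.Work.MP_8c604c_gt

open Matrix Real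

variable {ι : Type} [Fintype ι] [DecidableEq ι]

/-- Coordinates of the space of normal Jacobi fields. -/
abbrev JC (ι : Type) : Type := (Option ι → ℝ) × (Option ι → ℝ)

/-- The symplectic form. -/
def omJ (ξ η : JC ι) : ℝ := ξ.1 ⬝ᵥ η.2 - ξ.2 ⬝ᵥ η.1

/-- Abstract Jacobi system along a closed geodesic with one middle conjugate direction. -/
structure JSys (ι : Type) [Fintype ι] [DecidableEq ι] (W : Type) [NormedAddCommGroup W]
    [NormedSpace ℝ W] where
  g : ℝ → W →L[ℝ] W →L[ℝ] ℝ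
  J : ℝ → JC ι →L[ℝ] W
  g_smooth : ContDiff ℝ 1 g
  J_smooth : ContDiff ℝ 1 J
  symm : ∀ t u w, g t u w = g t w u
  nonneg : ∀ t u, 0 ≤ g t u u
  pos : ∀ t ξ, g t (J t ξ) (J t ξ) = 0 → J t ξ = 0
  star : ∀ t ξ η, J t ξ = 0 → g t (deriv (fun s => J s ξ) t) (J t η) = omJ ξ η
  rank : ∀ t, Module.finrank ℝ (LinearMap.range (J t : JC ι →ₗ[ℝ] W)) ≤ Fintype.card (Option ι)
  zero : ∀ a, J 0 (a, 0) = 0
  init : ∀ a a', g 0 (deriv (fun s => J s (a, 0)) 0) (deriv (fun s => J s (a', 0)) 0) = a ⬝ᵥ a'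
  per : ∃ R : W →L[ℝ] W, ∀ t, (∀ ξ, J (t + π) ξ = R (J t ξ)) ∧
    ∀ u w, g (t + π) (R u) (R w) = g t u w
  nc : ∀ t ∈ Ioo 0 π, t ≠ π / 2 → ∀ a, J t (a, 0) = 0 → a = 0
  mid : ∀ a, J (π / 2) (a, 0) = 0 ↔ ∀ i, a (some i) = 0
  conj : ∀ x ∈ Ioo 0 (π / 2), ∃ ξ, ξ ≠ 0 ∧ J x ξ = 0 ∧ J (x + π / 2) ξ = 0

namespace JSys
variable {W : Type} [NormedAddCommGroup W] [NormedSpace ℝ W] [FiniteDimensional ℝ W]
  (A : JSys ι W)

/-- `th t` is the density from time `t` to time `t + τ`. -/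
structure Link (τ : ℝ) (th : ℝ → ℝ) : Prop where
  cont : ContinuousOn th (Icc 0 π)
  pos : ∀ t ∈ Icc 0 π, 0 < th t
  eq : ∀ t (ξ : Option ι → JC ι), LinearIndependent ℝ ξ → (∀ i, A.J t (ξ i) = 0) →
    th t ^ 2 * (Matrix.of fun i j =>
      A.g t (deriv (fun s => A.J s (ξ i)) t) (deriv (fun s => A.J s (ξ j)) t)).det =
    (Matrix.of fun i j => A.g (t + τ) (A.J (t + τ) (ξ i)) (A.J (t + τ) (ξ j))).det

section Aux
omit [FiniteDimensional ℝ W]

theorem jsys_div {f : ℝ → W} {d : ℝ → ℝ} (hf : Differentiable ℝ f) (hd : Differentiable ℝ d)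
    {t : ℝ} (h : d t = 0 → f t = 0 ∧ deriv d t ≠ 0) :
    ContinuousAt (fun s => if d s = 0 then (deriv d s)⁻¹ • deriv f s else (d s)⁻¹ • f s) t := by
  by_cases h0 : d t = 0
  · obtain ⟨h1, h2⟩ := h h0
    rw [continuousAt_iff_punctured_nhds, if_pos h0]
    have e1 := hasDerivAt_iff_tendsto_slope.mp (hd t).hasDerivAt
    have e2 := hasDerivAt_iff_tendsto_slope.mp (hf t).hasDerivAt
    refine ((e1.inv₀ h2).smul e2).congr' ?_
    filter_upwards [e1.eventually_ne h2, self_mem_nhdsWithin] with s hs hst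
    have hst' : s - t ≠ 0 := sub_ne_zero.mpr hst
    rw [slope_def_module, h0, sub_zero, smul_eq_mul] at hs
    have hds : d s ≠ 0 := right_ne_zero_of_mul hs
    rw [if_neg hds, slope_def_module, slope_def_module, h0, h1, sub_zero, sub_zero, smul_smul,
      smul_eq_mul]
    congr 1
    field_simp
  · have e1 : ContinuousAt (fun s => (d s)⁻¹ • f s) t :=
      (hd.continuous.continuousAt.inv₀ h0).smul hf.continuous.continuousAt
    refine e1.congr ?_
    filter_upwards [hd.continuous.continuousAt.eventually_ne h0] with s hs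
    rw [if_neg hs]

theorem jsys_mul {φ v : ℝ → ℝ} {v' t : ℝ} (hφ : ContinuousAt φ t) (hv : HasDerivAt v v' t)
    (h0 : v t = 0) : HasDerivAt (fun s => φ s * v s) (φ t * v') t := by
  rw [hasDerivAt_iff_tendsto_slope] at hv ⊢
  refine ((hφ.tendsto.mono_left nhdsWithin_le_nhds).mul hv).congr fun s => ?_
  simp only [slope_def_field, h0]
  ring

theorem jsys_inv {κ : Type} [Fintype κ] [DecidableEq κ] {M : ℝ → Matrix κ κ ℝ} {t : ℝ}
    (h : ∀ i j, ContinuousAt (fun s => M s i j) t) (hd : (M t).det ≠ 0) (i j : κ) :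
    ContinuousAt (fun s => (M s)⁻¹ i j) t := by
  have h1 : ContinuousAt M t := continuousAt_pi.mpr fun i => continuousAt_pi.mpr fun j => h i j
  have h2 : ContinuousAt (Ring.inverse : ℝ → ℝ) (M t).det := by
    rw [Ring.inverse_eq_inv']
    exact continuousAt_inv₀ hd
  exact continuousAt_pi.mp (continuousAt_pi.mp ((continuousAt_matrix_inv _ h2).comp h1) i) j

theorem jsys_mulVec {κ : Type} [Fintype κ] (g : W →L[ℝ] W →L[ℝ] ℝ) (v w : κ → W) (a : κ → ℝ)
    (i : κ) : ((Matrix.of fun i j => g (v i) (w j)) *ᵥ a) i = g (v i) (∑ j, a j • w j) := by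
  simp [mulVec, dotProduct, map_sum, mul_comm]

theorem jsys_gram {κ : Type} [Fintype κ] (g : W →L[ℝ] W →L[ℝ] ℝ) (v w : κ → W) (a a' : κ → ℝ) :
    a ⬝ᵥ ((Matrix.of fun i j => g (v i) (w j)) *ᵥ a') = g (∑ i, a i • v i) (∑ j, a' j • w j) := by
  generalize hu : ∑ j, a' j • w j = u
  simp only [dotProduct, jsys_mulVec, hu, map_sum, map_smul, _root_.sum_apply,
    _root_.smul_apply, smul_eq_mul]

theorem jsys_A (T : JC ι →L[ℝ] W) (a : Option ι → ℝ) :
    T (a, 0) = ∑ i, a i • T (Pi.single i 1, 0) := by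
  simp only [← map_smul, ← map_sum]
  congr 1
  ext j <;> simp [Prod.fst_sum, Prod.snd_sum, Finset.sum_apply, Pi.single_apply,
    -Fintype.sum_option]

theorem jsys_B (T : JC ι →L[ℝ] W) (b : Option ι → ℝ) :
    T (0, b) = ∑ i, b i • T (0, Pi.single i 1) := by
  simp only [← map_smul, ← map_sum]
  congr 1
  ext j <;> simp [Prod.fst_sum, Prod.snd_sum, Finset.sum_apply, Pi.single_apply,
    -Fintype.sum_option]

/-- The diagonal entries of the model matrix. -/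
def jdl (i : Option ι) (t : ℝ) : ℝ := Option.elim i (sin (2 * t) / 2) fun _ => sin t

omit [Fintype ι] in
theorem jdl_Dl (t : ℝ) : Dl ι t = Matrix.diagonal fun i => jdl i t := rfl

omit [Fintype ι] [DecidableEq ι] in
theorem jdl_hasDerivAt (i : Option ι) (t : ℝ) :
    HasDerivAt (jdl i) (Option.elim i (cos (2 * t)) fun _ => cos t) t := by
  cases i with
  | none =>
    have h := (((hasDerivAt_id t).const_mul 2).sin).div_const 2
    exact h.congr_deriv (by simp)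
  | some i => exact hasDerivAt_sin t

omit [Fintype ι] [DecidableEq ι] in
theorem jdl_deriv_ne {i : Option ι} {t : ℝ} (h : jdl i t = 0) : deriv (jdl i) t ≠ 0 := by
  rw [(jdl_hasDerivAt i t).deriv]
  intro h1
  cases i with
  | none =>
    have h2 := sin_sq_add_cos_sq (2 * t)
    simp only [jdl, Option.elim] at h h1
    rw [h1, show sin (2 * t) = 0 by linarith only [h]] at h2
    simp at h2
  | some i =>
    have h2 := sin_sq_add_cos_sq t
    simp only [jdl, Option.elim] at h h1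
    rw [h, h1] at h2
    simp at h2

omit [Fintype ι] [DecidableEq ι] in
theorem jdl_ne {t : ℝ} (ht : t ∈ Ioo 0 π) (ht' : t ≠ π / 2) (i : Option ι) : jdl i t ≠ 0 := by
  have h1 : sin t ≠ 0 := (sin_pos_of_mem_Ioo ht).ne'
  have h2 : cos t ≠ 0 := fun h => ht' (injOn_cos (Ioo_subset_Icc_self ht)
    ⟨by positivity, by linarith [pi_pos]⟩ (by rw [h, cos_pi_div_two]))
  cases i with
  | none =>
    simp only [jdl, Option.elim, sin_two_mul]
    positivity
  | some i => exact h1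

theorem jsys_cases {t : ℝ} (ht : t ∈ Icc 0 π) :
    t = 0 ∨ t = π ∨ t = π / 2 ∨ (t ∈ Ioo 0 π ∧ t ≠ π / 2) := by
  by_cases h1 : t = 0
  · exact Or.inl h1
  by_cases h2 : t = π
  · exact Or.inr (Or.inl h2)
  by_cases h3 : t = π / 2
  · exact Or.inr (Or.inr (Or.inl h3))
  exact Or.inr (Or.inr (Or.inr ⟨⟨lt_of_le_of_ne ht.1 (Ne.symm h1), lt_of_le_of_ne ht.2 h2⟩, h3⟩))

theorem jsys_ev {t : ℝ} (ht : t ∈ Ioo 0 π) (ht' : t ≠ π / 2) :
    ∀ᶠ s in 𝓝 t, s ∈ Ioo 0 π ∧ s ≠ π / 2 :=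
  (isOpen_Ioo.eventually_mem ht).and (isOpen_ne.mem_nhds ht')

theorem null (t : ℝ) {y : W} (h : A.g t y y = 0) (w : W) : A.g t y w = 0 := by
  by_contra hne
  have h1 := A.nonneg t (w + (-(A.g t w w + 1) / (2 * A.g t y w)) • y)
  simp only [map_add, map_smul, _root_.add_apply, _root_.smul_apply,
    smul_eq_mul, h, A.symm t w y] at h1
  have h2 : -(A.g t w w + 1) / (2 * A.g t y w) * A.g t y w = -(A.g t w w + 1) / 2 := by
    field_simp
  linarith only [h1, h2]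

theorem hasDerivAt_J' (t : ℝ) : HasDerivAt A.J (deriv A.J t) t :=
  (A.J_smooth.differentiable one_ne_zero t).hasDerivAt

theorem hasDerivAt_J (ξ : JC ι) (t : ℝ) : HasDerivAt (fun s => A.J s ξ) (deriv A.J t ξ) t := by
  simpa using (A.hasDerivAt_J' t).clm_apply (hasDerivAt_const t ξ)

theorem star' {t : ℝ} {ξ : JC ι} (h : A.J t ξ = 0) (η : JC ι) :
    A.g t (deriv A.J t ξ) (A.J t η) = omJ ξ η := by
  rw [← (A.hasDerivAt_J ξ t).deriv]
  exact A.star t ξ η h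

theorem zero_of_jdl {t : ℝ} (ht : t ∈ Icc 0 π) {i : Option ι} (h : jdl i t = 0) :
    A.J t (Pi.single i 1, 0) = 0 := by
  rcases jsys_cases ht with rfl | rfl | rfl | ⟨h1, h2⟩
  · exact A.zero _
  · obtain ⟨R, hR⟩ := A.per
    have := (hR 0).1 (Pi.single i 1, 0)
    rwa [zero_add, A.zero, map_zero] at this
  · cases i with
    | none => exact (A.mid _).mpr fun i => by simp
    | some i => simp [jdl] at h
  · exact absurd h (jdl_ne h1 h2 i)

theorem key {t : ℝ} (ht : t ∈ Icc 0 π) {a : Option ι → ℝ} (h : A.J t (a, 0) = 0) {i : Option ι}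
    (hi : jdl i t ≠ 0) : a i = 0 := by
  rcases jsys_cases ht with rfl | rfl | rfl | ⟨h1, h2⟩
  · cases i <;> simp [jdl] at hi
  · cases i <;> simp [jdl] at hi
  · cases i with
    | none => simp [jdl, mul_div_cancel₀] at hi
    | some i => exact (A.mid _).mp h i
  · rw [A.nc t h1 h2 a h, Pi.zero_apply]

/-- The divided fields. -/
def Y (t : ℝ) (i : Option ι) : W :=
  if jdl i t = 0 then (deriv (jdl i) t)⁻¹ • deriv (fun s => A.J s (Pi.single i 1, 0)) t
  else (jdl i t)⁻¹ • A.J t (Pi.single i 1, 0)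

/-- Gram matrix of the divided fields. -/
def Gt (t : ℝ) : Matrix (Option ι) (Option ι) ℝ := Matrix.of fun i j => A.g t (A.Y t i) (A.Y t j)

/-- Gram matrix of the divided fields and the second family. -/
def Ct (t : ℝ) : Matrix (Option ι) (Option ι) ℝ :=
  Matrix.of fun i j => A.g t (A.Y t i) (A.J t (0, Pi.single j 1))

/-- Gram matrix of the first family. -/
def Gm (t : ℝ) : Matrix (Option ι) (Option ι) ℝ :=
  Matrix.of fun i j => A.g t (A.J t (Pi.single i 1, 0)) (A.J t (Pi.single j 1, 0))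

/-- The solution matrix. -/
def S (t : ℝ) : Matrix (Option ι) (Option ι) ℝ :=
  -((Matrix.diagonal fun i => (jdl i t)⁻¹) * ((A.Gt t)⁻¹ * A.Ct t))

theorem smul_Y {t : ℝ} (ht : t ∈ Icc 0 π) (i : Option ι) :
    jdl i t • A.Y t i = A.J t (Pi.single i 1, 0) := by
  unfold Y
  split_ifs with h
  · rw [h, zero_smul, A.zero_of_jdl ht h]
  · rw [smul_inv_smul₀ h]

theorem cont_Y {t : ℝ} (ht : t ∈ Icc 0 π) (i : Option ι) : ContinuousAt (fun s => A.Y s i) t :=
  jsys_div (fun s => (A.hasDerivAt_J _ s).differentiableAt)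
    (fun s => (jdl_hasDerivAt i s).differentiableAt) fun h => ⟨A.zero_of_jdl ht h, jdl_deriv_ne h⟩

theorem cont_g {u w : ℝ → W} {t : ℝ} (hu : ContinuousAt u t) (hw : ContinuousAt w t) :
    ContinuousAt (fun s => A.g s (u s) (w s)) t :=
  (A.g_smooth.continuous.continuousAt.clm_apply hu).clm_apply hw

theorem Gm_eq {t : ℝ} (ht : t ∈ Icc 0 π) : Dl ι t * A.Gt t * Dl ι t = A.Gm t := by
  ext i j
  rw [jdl_Dl, mul_diagonal, diagonal_mul, Gt, Gm, of_apply, of_apply, ← A.smul_Y ht, ← A.smul_Y ht]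
  simp only [map_smul, _root_.smul_apply, smul_eq_mul]
  ring

theorem gram (t : ℝ) (a a' : Option ι → ℝ) :
    A.g t (A.J t (a, 0)) (A.J t (a', 0)) = a ⬝ᵥ (A.Gm t *ᵥ a') := by
  rw [Gm, jsys_gram, ← jsys_A, ← jsys_A]

theorem Gt_zero : A.Gt 0 = 1 := by
  ext i j
  have h : ∀ i : Option ι, A.Y 0 i = deriv (fun s => A.J s (Pi.single i 1, 0)) 0 := fun i => by
    rw [Y, if_pos (by cases i <;> simp [jdl]), (jdl_hasDerivAt i 0).deriv]
    cases i <;> simp
  rw [Gt, of_apply, h, h, A.init, single_one_dotProduct, Pi.single_apply, one_apply]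

theorem Gt_pos {t : ℝ} (ht : t ∈ Icc 0 π) : (A.Gt t).PosDef := by
  refine PosDef.of_dotProduct_mulVec_pos (IsHermitian.ext fun i j => A.symm _ _ _) fun a ha => ?_
  rw [star_trivial, Gt, jsys_gram]
  refine lt_of_le_of_ne (A.nonneg _ _) fun h0 => ha ?_
  obtain ⟨a1, h1⟩ : ∃ a1 : Option ι → ℝ,
      ∀ i, a1 i = if jdl i t = 0 then a i * (deriv (jdl i) t)⁻¹ else 0 := ⟨_, fun _ => rfl⟩
  obtain ⟨a2, h2⟩ : ∃ a2 : Option ι → ℝ,
      ∀ i, a2 i = if jdl i t = 0 then 0 else a i * (jdl i t)⁻¹ := ⟨_, fun _ => rfl⟩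
  have hy : ∑ i, a i • A.Y t i = deriv A.J t (a1, 0) + A.J t (a2, 0) := by
    rw [jsys_A _ a1, jsys_A _ a2, ← Finset.sum_add_distrib]
    refine Finset.sum_congr rfl fun i _ => ?_
    rw [Y, h1, h2, (A.hasDerivAt_J _ t).deriv]
    split_ifs <;> simp [smul_smul]
  have hz : A.J t (a1, 0) = 0 := by
    rw [jsys_A]
    refine Finset.sum_eq_zero fun i _ => ?_
    rw [h1]
    split_ifs with h
    · rw [A.zero_of_jdl ht h, smul_zero]
    · rw [zero_smul]
  have h3 : ∀ η, omJ (a1, 0) η + A.g t (A.J t (a2, 0)) (A.J t η) = 0 := fun η => by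
    have := A.null t h0.symm (A.J t η)
    rwa [hy, map_add, _root_.add_apply, A.star' hz] at this
  have h4 : A.J t (a2, 0) = 0 := A.pos _ _ (by simpa [omJ] using h3 (a2, 0))
  have h5 : a1 = 0 := by simpa [omJ, h4] using h3 (0, a1)
  funext i
  by_cases h : jdl i t = 0
  · have h6 := h1 i
    rw [h5, if_pos h] at h6
    exact (mul_eq_zero.mp h6.symm).resolve_right (inv_ne_zero (jdl_deriv_ne h))
  · have h6 := h2 i
    rw [A.key ht h4 h, if_neg h] at h6
    exact (mul_eq_zero.mp h6.symm).resolve_right (inv_ne_zero h)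

theorem Gm_det {t : ℝ} (ht : t ∈ Ioo 0 π) (ht' : t ≠ π / 2) : (A.Gm t).det ≠ 0 := by
  intro h
  obtain ⟨a, ha, h1⟩ := exists_mulVec_eq_zero_iff.mpr h
  exact ha (A.nc t ht ht' a (A.pos _ _ (by rw [A.gram, h1, dotProduct_zero])))

theorem J_sub {t : ℝ} {a' b : Option ι → ℝ} (h : A.J t (a', b) = 0) (a : Option ι → ℝ) :
    A.J t (a, b) = A.J t (a - a', 0) := by
  rw [← sub_zero (A.J t (a, b)), ← h, ← map_sub, Prod.mk_sub_mk, sub_self]

theorem uniq {t : ℝ} (ht : t ∈ Ioo 0 π) (ht' : t ≠ π / 2) {a a' b : Option ι → ℝ}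
    (h : A.J t (a, b) = 0) (h' : A.J t (a', b) = 0) : a = a' :=
  sub_eq_zero.mp (A.nc t ht ht' _ (by rw [← A.J_sub h', h]))

theorem ex {t : ℝ} (ht : t ∈ Ioo 0 π) (ht' : t ≠ π / 2) (b : Option ι → ℝ) :
    ∃ a, A.J t (a, b) = 0 := by
  let T : (Option ι → ℝ) →ₗ[ℝ] W := (A.J t : JC ι →ₗ[ℝ] W) ∘ₗ LinearMap.inl ℝ _ _
  have hT : Function.Injective T := (injective_iff_map_eq_zero T).mpr (A.nc t ht ht')
  have h1 : LinearMap.range T = LinearMap.range (A.J t : JC ι →ₗ[ℝ] W) := by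
    refine Submodule.eq_of_le_of_finrank_le (LinearMap.range_comp_le_range _ _) ?_
    rw [LinearMap.finrank_range_of_inj hT, Module.finrank_fintype_fun_eq_card]
    exact A.rank t
  obtain ⟨a, ha⟩ : A.J t (0, b) ∈ LinearMap.range T := h1 ▸ ⟨(0, b), rfl⟩
  refine ⟨-a, ?_⟩
  have h2 : A.J t (a, 0) = A.J t (0, b) := ha
  rw [← sub_self (A.J t (0, b))]
  nth_rewrite 2 [← h2]
  rw [← map_sub, Prod.mk_sub_mk, zero_sub, sub_zero]

theorem S_spec {t : ℝ} (ht : t ∈ Ioo 0 π) (ht' : t ≠ π / 2) (b : Option ι → ℝ) :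
    A.J t (A.S t *ᵥ b, b) = 0 := by
  obtain ⟨a, ha⟩ := A.ex ht ht' b
  have ht1 := Ioo_subset_Icc_self ht
  have h1 : A.Ct t *ᵥ b = -(A.Gt t *ᵥ fun i => a i * jdl i t) := by
    funext i
    have h2 : ∑ j, (a j * jdl j t) • A.Y t j = A.J t (a, 0) := by
      rw [jsys_A]
      exact Finset.sum_congr rfl fun j _ => by rw [mul_smul, A.smul_Y ht1]
    rw [Pi.neg_apply, Ct, Gt, jsys_mulVec, jsys_mulVec, ← jsys_B, h2, eq_neg_iff_add_eq_zero,
      ← map_add, ← map_add, Prod.mk_add_mk, zero_add, add_zero, ha, map_zero]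
  have h3 : A.S t *ᵥ b = a := by
    rw [S, neg_mulVec, ← mulVec_mulVec, ← mulVec_mulVec, h1, mulVec_neg, mulVec_neg, neg_neg,
      mulVec_mulVec _ (A.Gt t)⁻¹, nonsing_inv_mul _ (A.Gt_pos ht1).det_pos.ne'.isUnit, one_mulVec]
    funext i
    have := jdl_ne ht ht' i
    rw [mulVec_diagonal]
    field_simp
  rw [h3, ha]

theorem S_symm {t : ℝ} (ht : t ∈ Ioo 0 π) (ht' : t ≠ π / 2) : (A.S t).IsSymm := by
  refine IsSymm.ext fun i j => ?_
  have h := A.star' (A.S_spec ht ht' (Pi.single i 1)) (A.S t *ᵥ Pi.single j 1, Pi.single j 1)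
  rw [A.S_spec ht ht', map_zero] at h
  simp only [omJ, mulVec_single_one, dotProduct_single_one, single_one_dotProduct, col_apply] at h
  linarith

theorem S_deriv {t : ℝ} (ht : t ∈ Ioo 0 π) (ht' : t ≠ π / 2) (b : Option ι → ℝ) (i : Option ι) :
    HasDerivAt (fun s => (A.S s *ᵥ b) i) (((A.Gm t)⁻¹ *ᵥ b) i) t := by
  have h0 := A.S_spec ht ht' b
  have hv : ∀ k, HasDerivAt
      (fun s => A.g s (A.J s (Pi.single k 1, 0)) (A.J s (A.S t *ᵥ b, b))) (-b k) t := by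
    intro k
    have h1 := (((A.g_smooth.differentiable one_ne_zero t).hasDerivAt).clm_apply
      (A.hasDerivAt_J (Pi.single k 1, 0) t)).clm_apply (A.hasDerivAt_J (A.S t *ᵥ b, b) t)
    rw [h0, map_zero, zero_add, A.symm, A.star' h0] at h1
    simpa [omJ] using h1
  have hG : ∀ i j, ContinuousAt (fun s => A.Gm s i j) t := fun i j =>
    A.cont_g (A.hasDerivAt_J _ t).continuousAt (A.hasDerivAt_J _ t).continuousAt
  have h2 := (HasDerivAt.fun_sum (u := Finset.univ) fun k _ =>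
    jsys_mul (jsys_inv hG (A.Gm_det ht ht') i k) (hv k) (by rw [h0, map_zero])).const_sub
      ((A.S t *ᵥ b) i)
  have h3 : -∑ k, (A.Gm t)⁻¹ i k * -b k = ((A.Gm t)⁻¹ *ᵥ b) i := by simp [mulVec, dotProduct]
  rw [h3] at h2
  refine h2.congr_of_eventuallyEq ?_
  filter_upwards [jsys_ev ht ht'] with s hs
  have h4 : (fun k => A.g s (A.J s (Pi.single k 1, 0)) (A.J s (A.S t *ᵥ b, b))) =
      A.Gm s *ᵥ (A.S t *ᵥ b - A.S s *ᵥ b) := by
    funext k
    rw [Gm, jsys_mulVec, ← jsys_A, A.J_sub (A.S_spec hs.1 hs.2 b)]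
  have h5 : ∑ k, (A.Gm s)⁻¹ i k * A.g s (A.J s (Pi.single k 1, 0)) (A.J s (A.S t *ᵥ b, b)) =
      ((A.Gm s)⁻¹ *ᵥ fun k => A.g s (A.J s (Pi.single k 1, 0)) (A.J s (A.S t *ᵥ b, b))) i := rfl
  rw [h5, h4, mulVec_mulVec, nonsing_inv_mul _ (A.Gm_det hs.1 hs.2).isUnit, one_mulVec,
    Pi.sub_apply, sub_sub_cancel]

theorem S_cont (i j : ι) : ContinuousAt (fun s => A.S s (some i) (some j)) (π / 2) := by
  have ht : π / 2 ∈ Icc 0 π := ⟨by positivity, by linarith only [pi_pos]⟩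
  have hG : ∀ i j, ContinuousAt (fun s => A.Gt s i j) (π / 2) := fun i j =>
    A.cont_g (A.cont_Y ht i) (A.cont_Y ht j)
  have hC : ∀ i j, ContinuousAt (fun s => A.Ct s i j) (π / 2) := fun i j =>
    A.cont_g (A.cont_Y ht i) (A.hasDerivAt_J _ _).continuousAt
  have h : ∀ s, A.S s (some i) (some j) =
      -((jdl (some i) s)⁻¹ * ∑ k, (A.Gt s)⁻¹ (some i) k * A.Ct s k (some j)) := fun s => by
    rw [S, Matrix.neg_apply, diagonal_mul, Matrix.mul_apply]
  simp only [h]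
  refine (((jdl_hasDerivAt (some i) (π / 2)).continuousAt.inv₀ (by simp [jdl])).mul ?_).neg
  exact tendsto_finsetSum _ fun k _ => (jsys_inv hG (A.Gt_pos ht).det_pos.ne' _ k).mul (hC k _)

theorem deriv_S {t : ℝ} (ht : t ∈ Ioo 0 π) (ht' : t ≠ π / 2) (b : Option ι → ℝ) :
    deriv (fun s => A.J s (A.S t *ᵥ b, b)) t = -A.J t ((A.Gm t)⁻¹ *ᵥ b, 0) := by
  have h1 := (A.hasDerivAt_J' t).clm_apply
    ((hasDerivAt_pi.mpr (A.S_deriv ht ht' b)).prodMk (hasDerivAt_const t b))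
  have h2 : HasDerivAt (fun s => A.J s (A.S s *ᵥ b, b)) 0 t := by
    refine (hasDerivAt_const t (0 : W)).congr_of_eventuallyEq ?_
    filter_upwards [jsys_ev ht ht'] with s hs using A.S_spec hs.1 hs.2 b
  rw [(A.hasDerivAt_J _ t).deriv, eq_neg_iff_add_eq_zero]
  exact h1.unique h2

theorem det_gram (t : ℝ) (Q : Matrix (Option ι) (Option ι) ℝ) :
    (Matrix.of fun i j => A.g t (A.J t (Q *ᵥ Pi.single i 1, 0))
      (A.J t (Q *ᵥ Pi.single j 1, 0))).det = Q.det ^ 2 * (A.Gm t).det := by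
  have h : (Matrix.of fun i j => A.g t (A.J t (Q *ᵥ Pi.single i 1, 0))
      (A.J t (Q *ᵥ Pi.single j 1, 0))) = Qᵀ * (A.Gm t * Q) := by
    ext i j
    rw [of_apply, A.gram, mulVec_mulVec, mulVec_single_one, mulVec_single_one]
    rfl
  rw [h, det_mul, det_mul, det_transpose]
  ring

theorem link_aux {τ : ℝ} {th : ℝ → ℝ} (h : A.Link τ th) {t y : ℝ} (ht : t ∈ Ioo 0 π)
    (ht' : t ≠ π / 2) (hy : y ∈ Ioo 0 π) (hy' : y ≠ π / 2)
    (e : ∀ ξ η, A.g (t + τ) (A.J (t + τ) ξ) (A.J (t + τ) η) = A.g y (A.J y ξ) (A.J y η)) :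
    th t ^ 2 = (A.S t - A.S y).det ^ 2 * (A.Gm t).det * (A.Gm y).det := by
  have h1 := h.eq t (fun i => (A.S t *ᵥ Pi.single i 1, Pi.single i 1))
    (LinearIndependent.of_comp (LinearMap.snd ℝ _ _) (Pi.linearIndependent_single_one _ _))
    fun i => A.S_spec ht ht' _
  simp only [A.deriv_S ht ht', map_neg, _root_.neg_apply, neg_neg, e,
    fun b => A.J_sub (A.S_spec hy hy' b) (A.S t *ᵥ b), ← sub_mulVec, A.det_gram] at h1
  have h2 := A.Gm_det ht ht'
  rw [det_nonsing_inv, Ring.inverse_eq_inv'] at h1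
  field_simp at h1
  linarith only [h1]

end Aux

theorem exists_bkm : ∃ M : BKM ι,
    (∀ t ∈ Ioo 0 π, t ≠ π / 2 → ∀ b, A.J t (M.S t *ᵥ b, b) = 0) ∧
    (∀ t ∈ Icc 0 π, ∀ a a', A.g t (A.J t (a, 0)) (A.J t (a', 0)) =
      a ⬝ᵥ ((Dl ι t * M.Gt t * Dl ι t) *ᵥ a')) ∧
    ∀ τ ∈ Ioo 0 (π / 2), ∀ th, A.Link τ th → M.Link τ th := by
  have hpi := pi_pos
  refine ⟨⟨A.Gt, A.S, fun i j t ht => (A.cont_g (A.cont_Y ht i) (A.cont_Y ht j)).continuousWithinAt,
    fun t ht => A.Gt_pos ht, A.Gt_zero, fun t ht ht' => A.S_symm ht ht', fun t ht ht' i j => ?_,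
    A.S_cont, fun x hx => ?_⟩, fun t ht ht' b => A.S_spec ht ht' b, fun t ht a a' => ?_,
    fun τ hτ th h => ⟨h.cont, h.pos, fun t ht h1 h2 => ?_, fun t ht => ?_⟩⟩
  · rw [A.Gm_eq (Ioo_subset_Icc_self ht)]
    simpa using A.S_deriv ht ht' (Pi.single j 1) i
  · obtain ⟨⟨a, b⟩, h0, h1, h2⟩ := A.conj x hx
    have e1 : x ∈ Ioo 0 π := ⟨hx.1, by linarith only [hpi, hx, hx.2]⟩
    have e2 : x + π / 2 ∈ Ioo 0 π := ⟨by linarith only [hpi, hx, hx.1], by linarith only [hx, hx.2]⟩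
    have e3 : x + π / 2 ≠ π / 2 := by linarith only [hx, hx.1]
    have h3 := A.uniq e1 hx.2.ne h1 (A.S_spec e1 hx.2.ne b)
    have h4 := A.uniq e2 e3 h2 (A.S_spec e2 e3 b)
    refine exists_mulVec_eq_zero_iff.mp ⟨b, ?_, by rw [sub_mulVec, ← h3, ← h4, sub_self]⟩
    rintro rfl
    rw [mulVec_zero] at h3
    exact h0 (by rw [h3]; rfl)
  · rw [A.gram, ← A.Gm_eq ht]
  · have e1 : t ∈ Ioo 0 π := ⟨ht.1, by linarith [ht.2, hτ.1]⟩
    have e2 : t + τ ∈ Ioo 0 π := ⟨by linarith [ht.1, hτ.1], by linarith [ht.2]⟩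
    rw [A.link_aux h e1 h1 e2 h2 fun _ _ => rfl]
    simp only [BKM.D2, A.Gm_eq (Ioo_subset_Icc_self e1), A.Gm_eq (Ioo_subset_Icc_self e2)]
    rw [← neg_sub, det_neg, mul_pow, ← pow_mul, mul_comm _ 2, pow_mul, neg_one_sq, one_pow, one_mul]
  · have e1 : t ∈ Ioo 0 π := ⟨by linarith [ht.1, hτ.2], ht.2⟩
    have e2 : t + τ - π ∈ Ioo 0 π := ⟨by linarith [ht.1], by linarith [ht.2, hτ.2]⟩
    obtain ⟨R, hR⟩ := A.per
    rw [A.link_aux h e1 (by linarith only [ht, hτ, ht.1, hτ.2]) e2 (by linarith only [ht, hτ, ht.2, hτ.2]) fun ξ η => by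
      rw [← (hR (t + τ - π)).2, ← (hR _).1, ← (hR _).1, sub_add_cancel]]
    simp only [BKM.D2, A.Gm_eq (Ioo_subset_Icc_self e1), A.Gm_eq (Ioo_subset_Icc_self e2)]
    ring

theorem ineq {τ : ℝ} (hτ : τ ∈ Ioo 0 (π / 2)) {th : ℝ → ℝ} (h : A.Link τ th) :
    π * log (sin τ ^ Fintype.card ι * (sin (2 * τ) / 2)) ≤ ∫ t in (0 : ℝ)..π, log (th t) := by
  obtain ⟨M, -, -, hM⟩ := A.exists_bkm
  exact M.ineq hτ (hM τ hτ th h)

theorem eq_case {τ : ℝ} (hτ : τ ∈ Ioo 0 (π / 2)) {th : ℝ → ℝ} (h : A.Link τ th)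
    (e : π * log (sin τ ^ Fintype.card ι * (sin (2 * τ) / 2)) = ∫ t in (0 : ℝ)..π, log (th t))
    (a a' : Option ι → ℝ) : A.g τ (A.J τ (a, 0)) (A.J τ (a', 0)) =
      (sin (2 * τ) / 2) ^ 2 * (a none * a' none) + sin τ ^ 2 * ∑ i, a (some i) * a' (some i) := by
  obtain ⟨M, -, h2, hM⟩ := A.exists_bkm
  rw [h2 τ ⟨hτ.1.le, by linarith only [hτ, hτ.2, pi_pos]⟩, M.eq_case hτ (hM τ hτ th h) e, Matrix.mul_one, Dl,
    diagonal_mul_diagonal, dotProduct, Fintype.sum_option, Finset.mul_sum]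
  simp only [mulVec_diagonal, Option.elim]
  congr 1
  · ring
  · exact Finset.sum_congr rfl fun i _ => by ring

/-- The conjugate direction at time `t` pairs non-trivially with the one at time `0`. -/
theorem om_ne {t : ℝ} (ht : t ∈ Ioo 0 (π / 2)) {ξ : JC ι} (h0 : ξ ≠ 0) (h1 : A.J t ξ = 0)
    (h2 : A.J (t + π / 2) ξ = 0) : ξ.2 none ≠ 0 := by
  obtain ⟨M, hM, -, -⟩ := A.exists_bkm
  obtain ⟨a, b⟩ := ξ
  intro hb
  have hb' : b none = 0 := hb
  have hpi := pi_pos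
  have e1 : t ∈ Ioo 0 π := ⟨ht.1, by linarith only [hpi, ht, ht.2]⟩
  have e2 : t + π / 2 ∈ Ioo 0 π := ⟨by linarith [ht.1], by linarith only [ht, ht.2]⟩
  have e3 : t + π / 2 ≠ π / 2 := by linarith only [ht, ht.1]
  have h3 := A.uniq e1 ht.2.ne h1 (hM t e1 ht.2.ne b)
  have h4 := A.uniq e2 e3 h2 (hM _ e2 e3 b)
  have h5 : (M.S (t + π / 2) - M.S t) *ᵥ b = 0 := by rw [sub_mulVec, ← h3, ← h4, sub_self]
  have h6 := M.perp_pos ht.1 (by linarith only [hpi]) e2.2 ht.2.ne e3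
  have h7 : (fun i => b (some i)) = 0 := by
    by_contra hne
    have h8 := h6.dotProduct_mulVec_pos hne
    have h9 : ((M.S (t + π / 2) - M.S t).submatrix some some *ᵥ fun i => b (some i)) = 0 := by
      funext i
      have := congrFun h5 (some i)
      rw [mulVec, dotProduct, Fintype.sum_option, hb', mul_zero, zero_add] at this
      exact this
    rw [h9, dotProduct_zero] at h8
    exact lt_irrefl _ h8
  have h8 : b = 0 := by
    funext i
    cases i with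
    | none => exact hb'
    | some i => exact congrFun h7 i
  rw [h8, mulVec_zero] at h3
  exact h0 (by rw [h3, h8]; rfl)

end JSys

end Pool.Agent.Work.MP_8c604c_gt
end
end

-- merged part: Pool.Agent.Work.MP_8c604c_gt.BKGAux
section
/-!
Adapted frames of the normal space and coordinates for the normal Jacobi fields.
-/

set_option maxSynthPendingDepth 3

open Set Filter Topology MeasureTheory
open scoped ContDiff

noncomputable section
namespace Pool.Agent.Work.MP_8c604c_gt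

open Real

theorem bkg_onb {V α ι : Type} [AddCommGroup V] [Module ℝ V] [FiniteDimensional ℝ V] [Fintype α]
    [Fintype ι] [DecidableEq α] [DecidableEq ι] (B : V →ₗ[ℝ] V →ₗ[ℝ] ℝ)
    (hs : ∀ u w, B u w = B w u) (hp : ∀ u, u ≠ 0 → 0 < B u u)
    (hc : Module.finrank ℝ V = Fintype.card α + Fintype.card ι) {f : α → V}
    (hf : ∀ a a', B (f a) (f a') = if a = a' then 1 else 0) :
    ∃ b : ι → V, (∀ i j, B (b i) (b j) = if i = j then 1 else 0) ∧ (∀ a i, B (f a) (b i) = 0) ∧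
      ∀ u, u = ∑ a, B (f a) u • f a + ∑ i, B (b i) u • b i := by
  let c : InnerProductSpace.Core ℝ V :=
    { inner := fun u w => B u w
      conj_inner_symm := fun u w => hs w u
      re_inner_nonneg := fun u => by
        by_cases h : u = 0
        · simp [h]
        · exact (hp u h).le
      add_left := fun u w y => by simp
      smul_left := fun u w r => by simp
      definite := fun u h => by_contra fun h' => (hp u h').ne' h }
  let : NormedAddCommGroup V := c.toNormedAddCommGroup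
  let : InnerProductSpace ℝ V := InnerProductSpace.ofCore c.toCore
  obtain ⟨b, hb⟩ := Orthonormal.exists_orthonormalBasis_extension_of_card_eq (𝕜 := ℝ)
    (hc.trans Fintype.card_sum.symm) (v := Sum.elim f 0) (s := range Sum.inl) (by
      rw [orthonormal_iff_ite]
      rintro ⟨_, a, rfl⟩ ⟨_, a', rfl⟩
      exact (hf a a').trans (by simp))
  have h1 : ∀ a, b (Sum.inl a) = f a := fun a => hb _ ⟨a, rfl⟩
  have h2 : ∀ i j, B (b i) (b j) = if i = j then 1 else 0 := orthonormal_iff_ite.1 b.orthonormal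
  refine ⟨fun i => b (Sum.inr i), fun i j => by simp [h2], fun a i => by simp [← h1, h2],
    fun u => ?_⟩
  have h3 := b.sum_repr' u
  rw [Fintype.sum_sum_type] at h3
  simp only [h1] at h3
  exact h3.symm

variable {n : ℕ} {g : Met n}

/-- Coordinates of the normal space and of the normal Jacobi fields at `x`. -/
structure BKGFr (g : Met n) (x : VV n) (K : E n) {ι : Type} [Fintype ι] [DecidableEq ι]
    (P : (Option ι → ℝ) →L[ℝ] E n) (L : JC ι →L[ℝ] VV n) : Prop where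
  one : P (Pi.single none 1) = K
  hor : ∀ a, nu x.1 (P a) = 0
  perp : ∀ a, g x.1 (P a) x.2 = 0
  gram : ∀ a a', g x.1 (P a) (P a') = a ⬝ᵥ a'
  span : ∀ u, ∃ a, u - P a ∈ Bs x
  fib : ∀ a, L (a, 0) = (0, spd g x • P a)
  fst : ∀ ξ, (L ξ).1 = P ξ.2
  om : ∀ ξ η, om g x (L ξ) (L η) = omJ ξ η

theorem bkg_om_add (x a b c : VV n) : om g x (a + b) c = om g x a c + om g x b c := by
  simp only [om, map_add, add_apply, Prod.fst_add]
  ring

theorem bkg_om_swap (x a b : VV n) : om g x a b = -om g x b a := by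
  simp only [om, neg_sub]

theorem bkg_mem_Bs {x : VV n} (c : ℂ) (a : ℝ) : c • x.1 + a • x.2 ∈ Bs x := mem_Bs.2 ⟨c, a, rfl⟩

theorem bkg_vel_mem (g : Met n) (x : VV n) : vel g x ∈ Bs x := by
  rw [vel, hor_def, sub_eq_neg_add, ← neg_smul]
  exact Submodule.smul_mem _ _ (by simpa only [one_smul] using bkg_mem_Bs (x := x) _ 1)

namespace IsMetric
variable (h : IsMetric g) {x : VV n}
include h

theorem bkg_vel (hx : x ∈ OO n) (u : E n) : g x.1 (vel g x) u = (spd g x)⁻¹ * g x.1 u x.2 := by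
  rw [vel, map_smul, smul_apply, h.hor_left hx.1, h.symm _ _ _ hx.1, smul_eq_mul]

theorem bkg_Bs (hx : x ∈ OO n) {u r : E n} (hu : g x.1 u x.2 = 0) (hr : r ∈ Bs x) :
    g x.1 u r = 0 := by
  obtain ⟨c, a, rfl⟩ := mem_Bs.1 hr
  rw [map_add, h.vert' c u hx.1, map_smul, hu, smul_zero, add_zero]

theorem bkg_vert (hx : x ∈ OO n) {r : E n} (hu : g x.1 r x.2 = 0) (hr : r ∈ Bs x) :
    ∃ c : ℂ, r = c • x.1 :=
  (hor_eq_zero_iff hx.1 r).1 (h.hor_eq_zero hx.1 (h.bkg_Bs hx hu hr))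

theorem bkg_fibre (hx : x ∈ OO n) {u : E n} (hu : g x.1 u x.2 = 0) (δ : VV n) :
    om g x (0, spd g x • u) δ = g x.1 u δ.1 := by
  rw [om_fibre h hx, map_smul, map_smul, h.bkg_vel hx u, hu, mul_zero, smul_zero, zero_mul,
    sub_zero, smul_apply, smul_eq_mul, inv_mul_cancel_left₀ (h.spd_pos hx).ne']

theorem bkg_frame (hn : 2 ≤ n) (hx : x ∈ OO n) {K : E n} (k1 : nu x.1 K = 0)
    (k2 : g x.1 K x.2 = 0) (k3 : g x.1 K K = 1) :
    ∃ (P : (Option (Fin (2 * n - 2)) → ℝ) →L[ℝ] E n) (L : JC (Fin (2 * n - 2)) →L[ℝ] VV n),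
      BKGFr g x K P L := by
  have hz := hx.1
  have hs := h.spd_pos hx
  have v1 := h.vert 1 x.1
  have v2 := fun w => h.vert' 1 w hz
  simp only [one_smul] at v1 v2
  have k4 : g x.1 (vel g x) K = 0 := by rw [h.bkg_vel hx, k2, mul_zero]
  have k5 : g x.1 K (vel g x) = 0 := by rw [h.symm _ _ _ hz, k4]
  obtain ⟨b, b1, b2, b3⟩ := bkg_onb (ι := Fin (2 * n - 2)) (GG g x.1).toLinearMap₁₂
    (h.GG_symm hz) (fun u => h.GG_pos hz) (α := Fin 4) (by rw [finrank_E]; simp; omega)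
    (f := ![K, x.1, Complex.I • x.1, vel g x]) (by
      simp [Fin.forall_fin_succ, GG_apply, nu_smul, nu_self hz, k1, k3, k4, k5, h.nu_vel hz,
        h.vel_unit hx, v1 _ hz, v2, h.vert _ _ _ hz, h.vert' _ _ hz])
  simp only [ContinuousLinearMap.toLinearMap₁₂_apply] at b1 b2 b3
  have c1 : ∀ i, nu x.1 (b i) = 0 := fun i => Complex.ext
    (by simpa [GG_apply, nu_self hz, v1 _ hz] using b2 1 i)
    (by simpa [GG_apply, nu_self hz, nu_smul, h.vert _ _ _ hz] using b2 2 i)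
  have c2 : ∀ i, g x.1 K (b i) = 0 := fun i => by simpa [GG_apply, k1] using b2 0 i
  have c3 : ∀ i, g x.1 (b i) x.2 = 0 := fun i => by
    simpa [GG_apply, c1, h.bkg_vel hx, hs.ne'] using b2 3 i
  obtain ⟨e, e0, e1, e2, e3, e4⟩ : ∃ e : Option (Fin (2 * n - 2)) → E n, e none = K ∧
      (∀ i, nu x.1 (e i) = 0) ∧ (∀ i, g x.1 (e i) x.2 = 0) ∧
      (∀ i j, g x.1 (e i) (e j) = if i = j then 1 else 0) ∧
      ∀ u, ∃ a : Option (Fin (2 * n - 2)) → ℝ, u - ∑ i, a i • e i ∈ Bs x := by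
    refine ⟨fun i => i.elim K b, rfl, Option.forall.2 ⟨k1, c1⟩, Option.forall.2 ⟨k2, c3⟩, ?_,
      fun u => ⟨fun i => GG g x.1 (i.elim K b) u, ?_⟩⟩
    · rintro (_ | i) (_ | j)
      · simpa using k3
      · simpa using c2 j
      · simpa [h.symm _ (b i) K hz] using c2 i
      · simpa [GG_apply, c1] using b1 i j
    · rw [Fintype.sum_option, sub_eq_iff_eq_add.2 ((b3 u).trans (by
        rw [Fin.sum_univ_succ, add_comm (_ • _), add_assoc]; rfl))]
      refine Submodule.sum_mem _ fun a _ => Submodule.smul_mem _ _ ?_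
      fin_cases a
      · exact Submodule.subset_span (by simp)
      · exact Submodule.subset_span (by simp)
      · exact bkg_vel_mem g x
  obtain ⟨P, hP⟩ : ∃ P : (Option (Fin (2 * n - 2)) → ℝ) →L[ℝ] E n, ∀ a, P a = ∑ i, a i • e i :=
    ⟨∑ i, (ContinuousLinearMap.proj i).smulRight (e i), fun a => by simp⟩
  have p1 : ∀ a, g x.1 (P a) x.2 = 0 := fun a => by simp [hP, e2]
  have p2 : ∀ a a', g x.1 (P a) (P a') = a ⬝ᵥ a' := fun a a' => by
    simp [hP, e3, dotProduct, mul_comm]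
  obtain ⟨C, hC⟩ : ∃ C : (Option (Fin (2 * n - 2)) → ℝ) →L[ℝ] Option (Fin (2 * n - 2)) → ℝ,
      ∀ b b', C b ⬝ᵥ b' = -(1 / 2) * om g x (P b, 0) (P b', 0) := by
    obtain ⟨D, hD⟩ : ∃ D : VV n →L[ℝ] VV n →L[ℝ] ℝ, ∀ a b, D a b = om g x a b :=
      ⟨(fderiv ℝ (fun y : VV n => g y.1 (vel g y)) x).bilinearComp (ContinuousLinearMap.id ℝ _)
        (ContinuousLinearMap.fst ℝ _ _) - ((fderiv ℝ (fun y : VV n => g y.1 (vel g y)) x).bilinearComp
          (ContinuousLinearMap.id ℝ _) (ContinuousLinearMap.fst ℝ _ _)).flip, fun _ _ => rfl⟩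
    refine ⟨ContinuousLinearMap.pi fun k => (-(1 / 2) : ℝ) •
      (D.flip (ContinuousLinearMap.inl ℝ _ _ (e k))).comp ((ContinuousLinearMap.inl ℝ _ _).comp P),
      fun b b' => ?_⟩
    rw [← hD, hP b', ← ContinuousLinearMap.inl_apply (R := ℝ) (∑ i, b' i • e i), map_sum, map_sum,
      Finset.mul_sum]
    exact Finset.sum_congr rfl fun k _ => by
      rw [map_smul, map_smul, smul_eq_mul, mul_left_comm, mul_comm]
      rfl
  obtain ⟨L, hL⟩ : ∃ L : JC (Fin (2 * n - 2)) →L[ℝ] VV n,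
      ∀ ξ, L ξ = (P ξ.2, 0) + (0, spd g x • P (ξ.1 + C ξ.2)) :=
    ⟨(P.comp (ContinuousLinearMap.snd ℝ _ _)).prod (spd g x • P.comp (ContinuousLinearMap.fst ℝ _ _ +
      C.comp (ContinuousLinearMap.snd ℝ _ _))), fun ξ => by simp⟩
  refine ⟨P, L, by simp [hP, Pi.single_apply, e0], fun a => ?_, p1, p2,
    fun u => by simpa only [hP] using e4 u, fun a => by simp [hL], fun ξ => by simp [hL],
    fun ξ η => ?_⟩
  · rw [hP, ← nuL_apply, map_sum]
    exact Finset.sum_eq_zero fun i _ => by rw [map_smul, nuL_apply, e1, smul_zero]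
  · rw [hL ξ, bkg_om_add, h.bkg_fibre hx (p1 _), bkg_om_swap, hL η, bkg_om_add,
      h.bkg_fibre hx (p1 _), Prod.fst_add, add_zero, p2, p2, add_dotProduct, add_dotProduct, hC, hC,
      omJ, bkg_om_swap x (P η.2, 0), dotProduct_comm η.1]
    ring

end IsMetric

end Pool.Agent.Work.MP_8c604c_gt
end
end
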