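import Pool.Agent.Work.MP_8c604c_gt.Dist
import Pool.Agent.Work.MP_8c604c_gt.ODE
import Pool.Agent.Work.MP_8c604c_gt.O.KS

-- merged part: Pool.Agent.Work.MP_8c604c_gt.NC
section
/-!
No conjugate points before pi/2 (Jacobi).
Hints. Suppose JH t0 x (0,u) = 0, u not in Bs x. Let J = JJ . x (0,u) - c Z = JJ . x xi with xi = (0,u) - c x, so that J t0 = 0,
J 0 = - c z is vertical. By star and om_fibre-type nondegeneracy (om_psi, om_fibre) g(J' t0, J' t0) > 0. For s < t0 close to t0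
let eta = J on [0,s], eta t = ((t1 - t)/(t1 - s)) J s on [s,t1], t0 < t1 < pi/2. Second variation = [PP xi (J)]_0^s + O(|J s|^2)
= -(t0 - s) g(J',J') + O((t0-s)^2) < 0 (PP 0 xi (J 0) = 0 by gauge invariance). By taylor_two (y = 0), first_var and
len_le_energy the two-piece curve Z + eps eta has length < t1, contradicting dd_Z via dd_triangle and dd_le_curve.
-/

set_option maxSynthPendingDepth 3

open Set Filter Topology MeasureTheory
open scoped ContDiff

noncomputable section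
namespace Pool.Agent.Work.MP_8c604c_gt

variable {n : ℕ} {g : Met n}

theorem nc_om_sub (x a b δ : VV n) : om g x (a - b) δ = om g x a δ - om g x b δ := by
  simp only [om, map_sub, Prod.fst_sub, sub_apply]
  ring

theorem nc_smul_mem (x : VV n) (c : ℂ) : c • x ∈ Bdir x :=
  mem_Bdir.2 ⟨c, 0, 0, by ext1 <;> simp⟩

namespace Geo
variable (G : Geo g) (h : IsMetric g)
include h

/-- A fibre vector in the kernel of the symplectic form is trivial. -/
theorem nc_fibre_ker {x : VV n} (hx : x ∈ OO n) {u : E n} (hu : ∀ δ, om g x (0, u) δ = 0) :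
    u ∈ Bs x := by
  have hs := h.spd_pos hx
  have h1 := hu (u - g x.1 (vel g x) u • vel g x, 0)
  rw [om_fibre h hx] at h1
  have h2 := (mul_eq_zero.1 h1).resolve_left (inv_ne_zero hs.ne')
  have hv := h.vel_unit hx
  have hsym := h.symm x.1 u (vel g x) hx.1
  have h3 : g x.1 (u - g x.1 (vel g x) u • vel g x) (u - g x.1 (vel g x) u • vel g x) = 0 := by
    simp only [map_sub, map_smul, sub_apply, smul_apply,
      smul_eq_mul] at h2 ⊢
    rw [hv, hsym] at h2 ⊢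
    linarith
  obtain ⟨c, hc⟩ := (hor_eq_zero_iff hx.1 _).1 (h.hor_eq_zero hx.1 h3)
  set a := g x.1 (vel g x) u
  refine mem_Bs.2 ⟨c - ((a * (spd g x)⁻¹ : ℝ) : ℂ) * nu x.1 x.2, a * (spd g x)⁻¹, ?_⟩
  have e : u = c • x.1 + a • vel g x := by rw [← hc]; abel
  rw [e, vel, hor_def, smul_smul, smul_sub, sub_smul, mul_smul _ (nu x.1 x.2), Complex.coe_smul]
  abel

/-- At a zero of a nontrivial Jacobi field the derivative is not vertical. -/
theorem nc_pos {x : VV n} (hx : x ∈ OO n) {t : ℝ} {u : E n} {c : ℂ}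
    (h0 : G.JJ t x ((0, u) - c • x) = 0) (hu : u ∉ Bs x) :
    0 < g (G.Z t x) (G.JD t x ((0, u) - c • x)) (G.JD t x ((0, u) - c • x)) := by
  have hZ := G.Z_ne h t hx
  refine lt_of_le_of_ne (h.nonneg hZ _) fun e => hu ?_
  obtain ⟨c', hc'⟩ := (hor_eq_zero_iff hZ _).1 (h.hor_eq_zero hZ e.symm)
  refine nc_fibre_ker h hx fun δ => ?_
  have h1 := G.om_inv h t hx ((0, u) - c • x) δ
  rw [nc_om_sub, om_Bdir h hx (nc_smul_mem x c), G.PP_apply h t hx, h0, hc', h.vert _ _ _ hZ]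
    at h1
  simpa using h1.symm

theorem nc_PP_zero {x : VV n} (hx : x ∈ OO n) (ξ : VV n) {c : ℂ} (h0 : G.JJ 0 x ξ = c • x.1) :
    G.PP 0 x ξ (G.JJ 0 x ξ) = 0 := by
  have hZ : G.Z 0 x = x.1 := by rw [Geo.Z, G.psi_zero h hx]
  rw [G.PP_apply h 0 hx, h0, hZ, h.vert' _ _ hx.1, h.fderiv_vert_arg c hx.1, smul_smul,
    h.vert' _ _ hx.1]
  simp

/-- The second variation of the linear piece is quadratically small. -/
theorem nc_lin_bound {x : VV n} (hx : x ∈ OO n) {t₀ t₁ : ℝ} (h01 : t₀ < t₁) :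
    ∃ C : ℝ, ∀ s ∈ Icc 0 t₀, ∀ w : E n,
      (∫ t in s..t₁, D2 g (G.Z t x, vel g (G.psi t x))
        (((t₁ - t) / (t₁ - s)) • w, (-1 / (t₁ - s)) • w)
        (((t₁ - t) / (t₁ - s)) • w, (-1 / (t₁ - s)) • w)) ≤ C * ‖w‖ ^ 2 := by
  obtain ⟨M, hM⟩ := (isCompact_Icc (a := 0) (b := t₁)).exists_bound_of_continuousOn
    (G.nc_cont_second h hx).continuousOn
  refine ⟨t₁ * (|M| * (1 + 1 / (t₁ - t₀)) ^ 2), fun s hs w => ?_⟩
  have hst : s < t₁ := lt_of_le_of_lt hs.2 h01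
  have hd : 0 < t₁ - s := by linarith
  have hd0 : 0 < t₁ - t₀ := by linarith
  have key : ∀ t ∈ Icc s t₁, D2 g (G.Z t x, vel g (G.psi t x))
        (((t₁ - t) / (t₁ - s)) • w, (-1 / (t₁ - s)) • w)
        (((t₁ - t) / (t₁ - s)) • w, (-1 / (t₁ - s)) • w) ≤
        |M| * (1 + 1 / (t₁ - t₀)) ^ 2 * ‖w‖ ^ 2 := by
    intro t ht
    have hm := (hM t ⟨hs.1.trans ht.1, ht.2⟩).trans (le_abs_self M)
    have hq : 0 < 1 / (t₁ - t₀) := by positivity
    have hn : ‖((((t₁ - t) / (t₁ - s)) • w, (-1 / (t₁ - s)) • w) : VV n)‖ ≤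
        (1 + 1 / (t₁ - t₀)) * ‖w‖ := by
      rw [Prod.norm_def]
      apply max_le
      · rw [norm_smul, Real.norm_eq_abs, abs_of_nonneg (div_nonneg (by linarith [ht.2]) hd.le)]
        have : (t₁ - t) / (t₁ - s) ≤ 1 := (div_le_one hd).2 (by linarith [ht.1])
        exact mul_le_mul_of_nonneg_right (by linarith) (norm_nonneg _)
      · rw [norm_smul, Real.norm_eq_abs, abs_div, abs_neg, abs_one, abs_of_pos hd]
        have : 1 / (t₁ - s) ≤ 1 / (t₁ - t₀) := one_div_le_one_div_of_le hd0 (by linarith [hs.2])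
        exact mul_le_mul_of_nonneg_right (by linarith) (norm_nonneg _)
    refine (le_abs_self _).trans ?_
    rw [← Real.norm_eq_abs]
    refine (ContinuousLinearMap.le_opNorm₂ _ _ _).trans ?_
    calc _ ≤ |M| * ((1 + 1 / (t₁ - t₀)) * ‖w‖) * ((1 + 1 / (t₁ - t₀)) * ‖w‖) := by gcongr
      _ = _ := by ring
  have hc := G.nc_cont_DD h hx (η := fun t => ((t₁ - t) / (t₁ - s)) • w)
    (η' := fun _ => (-1 / (t₁ - s)) • w) (by fun_prop) (by fun_prop)
  have i1 := intervalIntegral.integral_mono_on (μ := volume) hst.le (hc.intervalIntegrable _ _)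
    (continuous_const.intervalIntegrable _ _) key
  refine i1.trans ?_
  rw [intervalIntegral.integral_const, smul_eq_mul, mul_assoc t₁]
  exact mul_le_mul_of_nonneg_right (by linarith [hs.1]) (by positivity)

end Geo

theorem nc_neg_left {F : ℝ → ℝ} {F' t₀ : ℝ} (hF : HasDerivAt F F' t₀) (hp : 0 < F')
    (h0 : F t₀ = 0) (ht : 0 < t₀) : ∃ s ∈ Ioo 0 t₀, F s < 0 := by
  have h1 : Tendsto (slope F t₀) (𝓝[<] t₀) (𝓝 F') :=
    (hasDerivAt_iff_tendsto_slope.1 hF).mono_left (nhdsLT_le_nhdsNE t₀)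
  have h2 : ∀ᶠ s in 𝓝[<] t₀, 0 < slope F t₀ s := h1.eventually (lt_mem_nhds hp)
  obtain ⟨s, hs1, hs2⟩ := (h2.and (Ioo_mem_nhdsLT ht)).exists
  refine ⟨s, hs2, ?_⟩
  rw [slope_def_field, h0, sub_zero] at hs1
  have : s - t₀ < 0 := by linarith [hs2.2]
  rcases div_pos_iff.1 hs1 with h | h
  · linarith [h.2]
  · exact h.1

theorem nc_small {A C δ : ℝ} (hA : A < 0) (hδ : 0 < δ) :
    ∃ ε : ℝ, 0 ≤ ε ∧ ε ≤ δ ∧ ε ^ 2 / 2 * A + C * ε ^ 3 < 0 := by
  have hq : 0 < -A / (4 * (|C| + 1)) := div_pos (by linarith) (by positivity)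
  refine ⟨min δ (-A / (4 * (|C| + 1))), (lt_min hδ hq).le, min_le_left _ _, ?_⟩
  set ε := min δ (-A / (4 * (|C| + 1)))
  have hε : 0 < ε := lt_min hδ hq
  have h1 : ε ≤ -A / (4 * (|C| + 1)) := min_le_right _ _
  rw [le_div_iff₀ (by positivity)] at h1
  have h2 : C * ε ≤ (|C| + 1) * ε :=
    mul_le_mul_of_nonneg_right (by linarith [le_abs_self C]) hε.le
  have h3 : A / 2 + C * ε < 0 := by linarith
  have h4 : ε ^ 2 / 2 * A + C * ε ^ 3 = ε ^ 2 * (A / 2 + C * ε) := by ring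
  rw [h4]
  exact mul_neg_of_pos_of_neg (by positivity) h3

theorem Geo.nc_fderiv_ex_vert (G : Geo g) {q : E n} (hq : q ≠ 0) (u₀ : E n) (c : ℂ) :
    fderiv ℝ (G.ex q) (u₀ + c • q) = fderiv ℝ (G.ex q) u₀ := by
  rw [← fderiv_comp_add_right]
  congr 1
  funext u
  exact G.ex_add_vert hq u c

theorem Geo.nc_diff_ex (G : Geo g) {q : E n} (hq : q ≠ 0) (u₀ : E n) :
    DifferentiableAt ℝ (G.ex q) u₀ := by
  have h1 : ContDiffAt ℝ ∞ (fun p : VV n => G.ex p.1 p.2) (q, u₀) :=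
    G.contDiffOn_ex.contDiffAt (nc_open.mem_nhds hq)
  have h2 : DifferentiableAt ℝ (fun u : E n => ((q, u) : VV n)) u₀ := by fun_prop
  exact (h1.differentiableAt (by simp)).comp u₀ h2

theorem Geo.nc_fderiv_ex_kill (G : Geo g) {q : E n} (hq : q ≠ 0) (u₀ : E n) (c : ℂ) :
    fderiv ℝ (G.ex q) u₀ (c • q) = 0 := by
  have h1 : HasDerivAt (fun τ : ℝ => u₀ + τ • (c • q)) (c • q) 0 := by
    simpa using ((hasDerivAt_id (0 : ℝ)).smul_const (c • q)).const_add u₀
  have h2 : HasFDerivAt (G.ex q) (fderiv ℝ (G.ex q) u₀) (u₀ + (0 : ℝ) • (c • q)) := by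
    rw [zero_smul, add_zero]
    exact (G.nc_diff_ex hq u₀).hasFDerivAt
  have h3 := h2.comp_hasDerivAt (0 : ℝ) h1
  have h4 : (G.ex q ∘ fun τ : ℝ => u₀ + τ • (c • q)) = fun _ => G.ex q u₀ := by
    funext τ
    simp only [Function.comp]
    rw [← Complex.coe_smul, smul_smul, G.ex_add_vert hq]
  rw [h4] at h3
  exact h3.unique (hasDerivAt_const _ _)

namespace Bl
variable {G : Geo g} (B : Bl g G)
include B

theorem no_conj {x : VV n} (hx : x ∈ OO n) {t : ℝ} (ht : t ∈ Ioo 0 (Real.pi / 2)) {u : E n}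
    (hu : G.JH t x (0, u) = 0) : u ∈ Bs x := by
  by_contra hB
  have h := B.met
  have hZ := G.Z_ne h t hx
  obtain ⟨c, hc⟩ := (hor_eq_zero_iff hZ (G.JJ t x (0, u))).1 hu
  set ξ : VV n := (0, u) - c • x with hξ
  have hJ : ∀ s, G.JJ s x ξ = G.JJ s x (0, u) - c • G.Z s x := fun s => by
    rw [hξ, map_sub, G.JJ_gauge h s hx]
  have h0 : G.JJ t x ξ = 0 := by rw [hJ, hc, sub_self]
  have hJ0 : G.JJ 0 x ξ = (-c) • x.1 := by
    rw [G.JJ_zero h hx, hξ]
    simp
  have hZ0 : G.Z 0 x = x.1 := by rw [Geo.Z, G.psi_zero h hx]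
  have hpos := G.nc_pos h hx h0 hB
  obtain ⟨C, hC⟩ := G.nc_lin_bound h hx ht.2
  have hd := fun s => G.hasDerivAt_JJ h s hx ξ
  have hF : HasDerivAt (fun s => G.PP s x ξ (G.JJ s x ξ) + C * ‖G.JJ s x ξ‖ ^ 2)
      (g (G.Z t x) (G.JD t x ξ) (G.JD t x ξ)) t := by
    have h1 := G.var h t hx ξ (hd t)
    have h2 := ((hd t).norm_sq).const_mul C
    refine (h1.add h2).congr_deriv ?_
    rw [h.D2_apply (p := (G.Z t x, vel g (G.psi t x))) hZ, h0]
    simp
  obtain ⟨s, hs, hneg⟩ := nc_neg_left hF hpos (by simp [h0]) ht.1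
  have hsp : s < Real.pi / 2 := hs.2.trans ht.2
  have hd' : 0 < Real.pi / 2 - s := by linarith
  obtain ⟨C₁, δ₁, hδ₁, p₁⟩ := G.nc_piece h hx hs.1.le hd (G.nc_cont_JD h hx ξ)
  obtain ⟨C₂, δ₂, hδ₂, p₂⟩ := G.nc_piece h hx hsp.le
    (η := fun τ => ((Real.pi / 2 - τ) / (Real.pi / 2 - s)) • G.JJ s x ξ)
    (η' := fun _ => (-1 / (Real.pi / 2 - s)) • G.JJ s x ξ)
    (fun τ => by
      have := (((hasDerivAt_id τ).const_sub (Real.pi / 2)).div_const
        (Real.pi / 2 - s)).smul_const (G.JJ s x ξ)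
      simpa using this) continuous_const
  obtain ⟨ε, hε0, hε1, hε⟩ := nc_small (C := C₁ + C₂) hneg (lt_min hδ₁ hδ₂)
  obtain ⟨⟨n₁, n₂⟩, q₁⟩ := p₁ ε hε0 (hε1.trans (min_le_left _ _))
  obtain ⟨-, q₂⟩ := p₂ ε hε0 (hε1.trans (min_le_right _ _))
  have i1 : (∫ τ in (0 : ℝ)..s, D2 g (G.Z τ x, vel g (G.psi τ x)) (G.JJ τ x ξ, G.JD τ x ξ)
      (G.JJ τ x ξ, G.JD τ x ξ)) = G.PP s x ξ (G.JJ s x ξ) - G.PP 0 x ξ (G.JJ 0 x ξ) :=
    intervalIntegral.integral_eq_sub_of_hasDerivAt (f := fun τ => G.PP τ x ξ (G.JJ τ x ξ))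
      (fun τ _ => G.var h τ hx ξ (hd τ))
      ((G.nc_cont_DD h hx (continuous_iff_continuousAt.2 fun τ => (hd τ).continuousAt)
        (G.nc_cont_JD h hx ξ)).intervalIntegrable _ _)
  rw [G.nc_PP_zero h hx ξ hJ0, sub_zero] at i1
  have i2 := hC s ⟨hs.1.le, hs.2.le⟩ (G.JJ s x ξ)
  rw [i1] at q₁
  simp only [div_self hd'.ne', one_smul, sub_self, zero_div, zero_smul, smul_zero, add_zero,
    map_zero] at q₂
  have e0 : G.Z 0 x + ε • G.JJ 0 x ξ = (1 - ε * c) • G.Z 0 x := by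
    rw [hJ0, hZ0, ← Complex.coe_smul, smul_smul, sub_smul, one_smul, mul_neg, neg_smul]
    abel
  have hl : (1 - ε * c : ℂ) ≠ 0 := by
    intro e
    apply n₁
    rw [e0, e, zero_smul]
  have e1 : g (G.Z 0 x) (vel g (G.psi 0 x)) (G.JJ 0 x ξ) = 0 := by
    rw [hJ0, hZ0, h.vert' _ _ hx.1]
  have tri := h.dd_triangle n₁ n₂ (G.Z_ne h (Real.pi / 2) hx)
  have e2 : dd g (G.Z 0 x + ε • G.JJ 0 x ξ) (G.Z (Real.pi / 2) x) = Real.pi / 2 := by
    have hp : (0 : ℝ) ≤ Real.pi / 2 := by positivity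
    rw [e0, h.dd_smul_left hl, B.dd_Z hx (by rw [sub_zero, abs_of_nonneg hp]), sub_zero,
      abs_of_nonneg hp]
  rw [e1] at q₁
  rw [e2] at tri
  have i3 := mul_le_mul_of_nonneg_left i2 (by positivity : (0 : ℝ) ≤ ε ^ 2 / 2)
  nlinarith [q₁, q₂, tri, i3, hε]

theorem nc_pair_small {x : VV n} (hx : x ∈ OO n) {s t : ℝ} (hst : t - s ∈ Ioo 0 (Real.pi / 2))
    {ξ : VV n} (hs : G.JH s x ξ = 0) (ht : G.JH t x ξ = 0) : ξ ∈ Bdir x := by
  have h := B.met
  have hy := G.psi_mem h s hx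
  set y := G.psi s x with hyd
  set ξ' := fderiv ℝ (G.psi s) x ξ with hξ'
  have hJH : ∀ τ, G.JH τ y ξ' = G.JH (τ + s) x ξ := fun τ => by
    have e : G.Z (τ + s) x = G.Z τ y := by rw [Geo.Z, G.psi_add h τ s hx]; rfl
    simp only [Geo.JH, ContinuousLinearMap.comp_apply]
    rw [G.JJ_add h τ s hx, e]
  have h1 : hor y.1 ξ'.1 = 0 := by
    have := hJH 0
    rw [zero_add, hs] at this
    simp only [Geo.JH, ContinuousLinearMap.comp_apply] at this
    rw [G.JJ_zero h hy, Geo.Z, G.psi_zero h hy] at this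
    exact this
  obtain ⟨c, hc⟩ := (hor_eq_zero_iff hy.1 _).1 h1
  have e : ((0, ξ'.2 - c • y.2) : VV n) = ξ' - c • y := by
    ext1
    · simp [hc]
    · simp
  have h2 : G.JH (t - s) y (0, ξ'.2 - c • y.2) = 0 := by
    rw [e, map_sub, hJH, sub_add_cancel, ht, G.JH_Bdir h _ hy (nc_smul_mem y c), sub_zero]
  obtain ⟨c', a, hu⟩ := mem_Bs.1 (B.no_conj hy hst h2)
  have h3 : ξ' ∈ Bdir y := by
    refine mem_Bdir.2 ⟨c, c', a, ?_⟩
    ext1
    · exact hc
    · show ξ'.2 = c • y.2 + c' • y.1 + a • y.2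
      rw [add_assoc, ← hu]
      abel
  have h4 := G.fderiv_psi_Bdir h (-s) hy h3
  rw [hξ', hyd, G.fderiv_psi_neg h s hx, ← G.psi_add h (-s) s hx, neg_add_cancel,
    G.psi_zero h hx] at h4
  exact h4

/-- A field vanishing at two times whose difference is not a multiple of `π/2` is trivial. -/
theorem no_conj_pair {x : VV n} (hx : x ∈ OO n) {s t : ℝ} (hst : t - s ∈ Ioo 0 Real.pi)
    (hne : t - s ≠ Real.pi / 2) {ξ : VV n} (hs : G.JH s x ξ = 0) (ht : G.JH t x ξ = 0) :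
    ξ ∈ Bdir x := by
  rcases lt_or_gt_of_ne hne with hlt | hgt
  · exact B.nc_pair_small hx ⟨hst.1, hlt⟩ hs ht
  · refine B.nc_pair_small hx (s := t) (t := s + Real.pi) ⟨by linarith [hst.2], by linarith⟩ ht ?_
    rw [B.JH_add_pi s hx, hs, smul_zero]

theorem no_conj' {x : VV n} (hx : x ∈ OO n) {t : ℝ} (ht : t ∈ Ioo 0 Real.pi)
    (hne : t ≠ Real.pi / 2) {u : E n} (hu : G.JH t x (0, u) = 0) : u ∈ Bs x := by
  have h := B.met
  have h0 : G.JH 0 x (0, u) = 0 := by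
    simp only [Geo.JH, ContinuousLinearMap.comp_apply]
    rw [G.JJ_zero h hx]
    simp
  obtain ⟨l, c, a, e⟩ := mem_Bdir.1
    (B.no_conj_pair hx (s := 0) (t := t) (by simpa using ht) (by simpa using hne) h0 hu)
  have e1 : (0 : E n) = l • x.1 := congrArg Prod.fst e
  have e2 : u = l • x.2 + c • x.1 + a • x.2 := congrArg Prod.snd e
  have hl : l = 0 := (smul_eq_zero.1 e1.symm).resolve_right hx.1
  exact mem_Bs.2 ⟨c, a, by rw [e2, hl, zero_smul, zero_add]⟩

/-- The exponential map is an immersion on the open ball. -/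
theorem ex_immersion {q u₀ u : E n} (hq : q ≠ 0) (h0 : √(g q u₀ u₀) < Real.pi / 2)
    (hu : hor (G.ex q u₀) (fderiv ℝ (G.ex q) u₀ u) = 0) : hor q u = 0 := by
  have h := B.met
  by_cases hh : hor q u₀ = 0
  · obtain ⟨c, hc⟩ := (hor_eq_zero_iff hq _).1 hh
    have e : u₀ = 0 + c • q := by rw [hc, zero_add]
    rw [e, G.nc_fderiv_ex_vert hq, G.ex_add_vert hq, G.ex_zero hq,
      (G.hasFDerivAt_ex_zero hq).fderiv, horL_apply, hor_of_nu (nu_hor hq u)] at hu
    exact hu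
  · have hx : ((q, u₀) : VV n) ∈ OO n := mem_OO.2 ⟨hq, hh⟩
    set x : VV n := (q, u₀) with hxd
    have hs := h.spd_pos hx
    have hlt : spd g x < Real.pi / 2 := h0
    have e : u₀ = spd g x • vel g x + nu q u₀ • q := h.snd_eq hx
    have e1 : fderiv ℝ (G.ex q) u₀ = fderiv ℝ (G.ex x.1) (spd g x • vel g x) := by
      conv_lhs => rw [e]
      exact G.nc_fderiv_ex_vert hq _ _
    have e2 : G.ex q u₀ = G.Z (spd g x) x := G.ex_eq_Z h hx
    rw [e1, e2, G.fderiv_ex h _ hx hs, div_self hs.ne', one_smul] at hu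
    have hZ := G.Z_ne h (spd g x) hx
    obtain ⟨c, hc⟩ := (hor_eq_zero_iff hZ _).1 hu
    have h1 := h.vert' c (vel g (G.psi (spd g x) x)) hZ
    have hv : g (G.Z (spd g x) x) (vel g (G.psi (spd g x) x)) (vel g (G.psi (spd g x) x)) = 1 :=
      h.vel_unit (G.psi_mem h _ hx)
    rw [← hc, map_add, map_smul, hv, G.al_inv h _ hx] at h1
    have h2 : g x.1 (vel g x) u = 0 := by simpa [al] using h1
    rw [h2, zero_smul, zero_add] at hu
    obtain ⟨c', a, hb⟩ := mem_Bs.1 (B.no_conj hx ⟨hs, hlt⟩ hu)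
    have h3 : g x.1 (vel g x) x.2 = spd g x := by
      conv_lhs => rw [h.snd_eq hx]
      rw [map_add, map_smul, h.vel_unit hx, h.vert' _ _ hx.1]
      simp
    rw [hb, map_add, h.vert' _ _ hx.1, map_smul, h3, zero_add, smul_eq_mul] at h2
    have ha : a = 0 := (mul_eq_zero.1 h2).resolve_right hs.ne'
    exact (hor_eq_zero_iff hq _).2 ⟨c', by rw [hb, ha, zero_smul, add_zero]⟩

theorem det_Ex_ne {q u₀ : E n} (hq : q ≠ 0) (h0 : √(g q u₀ u₀) < Real.pi / 2) :
    (fderiv ℝ (G.Ex q) u₀).det ≠ 0 := by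
  have hn : HasFDerivAt (fun u => Complex.exp (nu q u) / (‖q‖ : ℂ))
      ((Complex.exp (nu q u₀) / (‖q‖ : ℂ)) • nuL q) u₀ := by
    have h1 := ((nuL q).hasFDerivAt (x := u₀)).cexp.mul_const ((‖q‖ : ℂ)⁻¹)
    refine (h1.congr_fderiv ?_)
    ext w
    simp only [smul_apply, smul_eq_mul, nuL_apply]
    ring
  have hE : HasFDerivAt (G.Ex q) ((Complex.exp (nu q u₀) / (‖q‖ : ℂ)) • fderiv ℝ (G.ex q) u₀ +
      ((Complex.exp (nu q u₀) / (‖q‖ : ℂ)) • nuL q).smulRight (G.ex q u₀)) u₀ :=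
    hn.smul (G.nc_diff_ex hq u₀).hasFDerivAt
  have hk : Complex.exp (nu q u₀) / (‖q‖ : ℂ) ≠ 0 :=
    div_ne_zero (Complex.exp_ne_zero _) (by exact_mod_cast norm_ne_zero_iff.2 hq)
  have hex := G.ex_ne hq u₀
  intro hdet
  have hker := LinearMap.det_eq_zero_iff_ker_ne_bot.1 hdet
  apply hker
  rw [LinearMap.ker_eq_bot']
  intro w hw
  have hw1 : fderiv ℝ (G.Ex q) u₀ w = 0 := hw
  rw [hE.fderiv] at hw1
  simp only [add_apply, smul_apply,
    ContinuousLinearMap.smulRight_apply, smul_eq_mul, nuL_apply] at hw1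
  rw [mul_smul, ← smul_add] at hw1
  have hw2 := (smul_eq_zero.1 hw1).resolve_left hk
  have hw3 : hor q w = 0 := by
    apply B.ex_immersion hq h0
    exact (hor_eq_zero_iff hex _).2 ⟨-nu q w, by rw [neg_smul]; exact eq_neg_of_add_eq_zero_left hw2⟩
  obtain ⟨c, hc⟩ := (hor_eq_zero_iff hq _).1 hw3
  rw [hc, G.nc_fderiv_ex_kill hq, zero_add, nu_smul, nu_self hq, mul_one] at hw2
  rw [hc, (smul_eq_zero.1 hw2).resolve_right hex, zero_smul]

end Bl

end Pool.Agent.Work.MP_8c604c_gt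
end
end

-- merged part: Pool.Agent.Work.MP_8c604c_gt.Idx
section
/-!
The multiplicity of the middle conjugate point is constant.
Hints. jump: if q t0 has signature (p, k, m) then for t > t0 it is nonnegative on a subspace of dimension p + k and (near t0)
negative definite on one of dimension m; use sigPos, QuadraticForm.sigPos_add_sigNeg_add_radical. sigPos is locally constant on
nondegenerate forms. Geometry: y = psi (pi/4) x; for t in (pi/4, 3pi/4) and b in E let a(b) be the solution, GG-orthogonal to Bs y, of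
JH t x (0,b) + JH (t - pi/4) y (0,a) = 0 (JH_surj, no_conj; solve with the inverse of the positive form g(J a, J a') + penalty).
q t (b,b') = om y (0,a(b)) (D psi (0,b')) + penalty on Bs x. It is symmetric, nondecreasing in t (differentiate and use star),
nondegenerate for t not pi/2, with radical of dimension kdim x - 3 at pi/2, continuous in x.
-/

set_option maxSynthPendingDepth 3

open Set Filter Topology MeasureTheory
open scoped ContDiff

noncomputable section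
namespace Pool.Agent.Work.MP_8c604c_gt

open Real

section Pure
variable {V : Type} [NormedAddCommGroup V] [NormedSpace ℝ V]

/-- Penalty form attached to a finite family of vectors. -/
def idxPen {ι : Type} [Fintype ι] (β : V →L[ℝ] V →L[ℝ] ℝ) (v : ι → V) : V →L[ℝ] V →L[ℝ] ℝ :=
  ∑ i, (β (v i)).smulRight (β (v i))

theorem idxPen_apply {ι : Type} [Fintype ι] (β : V →L[ℝ] V →L[ℝ] ℝ) (v : ι → V) (a b : V) :
    idxPen β v a b = ∑ i, β (v i) a * β (v i) b := by
  simp [idxPen]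

theorem idxPen_eq {ι : Type} [Fintype ι] (β : V →L[ℝ] V →L[ℝ] ℝ) (v : ι → V) (a b : V) :
    idxPen β v a b = β (∑ i, β (v i) a • v i) b := by
  simp [idxPen_apply]

theorem idxPen_nonneg {ι : Type} [Fintype ι] (β : V →L[ℝ] V →L[ℝ] ℝ) (v : ι → V) (a : V) :
    0 ≤ idxPen β v a a := by
  rw [idxPen_apply]
  exact Finset.sum_nonneg fun i _ => mul_self_nonneg _

theorem idxPen_self {ι : Type} [Fintype ι] {β : V →L[ℝ] V →L[ℝ] ℝ} {v : ι → V} {a : V}
    (h : idxPen β v a a = 0) {w : V} (hw : w ∈ Submodule.span ℝ (range v)) : β w a = 0 := by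
  rw [idxPen_apply, Finset.sum_eq_zero_iff_of_nonneg fun i _ => mul_self_nonneg _] at h
  induction hw using Submodule.span_induction with
  | mem w hw =>
    obtain ⟨i, rfl⟩ := hw
    exact mul_self_eq_zero.1 (h i (Finset.mem_univ i))
  | zero => simp
  | add u w _ _ h1 h2 => rw [map_add, add_apply, h1, h2, add_zero]
  | smul c w _ h1 => rw [map_smul, smul_apply, h1, smul_zero]

theorem idxPen_zero {ι : Type} [Fintype ι] {β : V →L[ℝ] V →L[ℝ] ℝ} (hβ : ∀ v, β v v = 0 → v = 0)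
    {v : ι → V} {a : V} (h : ∀ w ∈ Submodule.span ℝ (range v), idxPen β v a w = 0) (b : V) :
    idxPen β v a b = 0 := by
  have h1 := h _ (Submodule.sum_mem _ fun i (_ : i ∈ Finset.univ) =>
    Submodule.smul_mem _ (β (v i) a) (Submodule.subset_span ⟨i, rfl⟩))
  rw [idxPen_eq] at h1 ⊢
  rw [hβ _ h1]
  simp

theorem idx_invertible [FiniteDimensional ℝ V] {M : V →L[ℝ] V →L[ℝ] ℝ}
    (h : ∀ a, M a a = 0 → a = 0) : M.IsInvertible := by
  have h1 : Function.Injective (M : V →ₗ[ℝ] V →L[ℝ] ℝ) :=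
    (injective_iff_map_eq_zero _).2 fun a ha => h a (by
      rw [show M a = 0 from ha]
      rfl)
  have h2 : Module.finrank ℝ V = Module.finrank ℝ (V →L[ℝ] ℝ) := by
    rw [← (LinearMap.toContinuousLinearMap (𝕜 := ℝ) (E := V) (F' := ℝ)).finrank_eq]
    exact Subspace.dual_finrank_eq.symm
  exact ⟨(LinearMap.linearEquivOfInjective _ h1 h2).toContinuousLinearEquiv, by ext; rfl⟩

/-- Smooth solution operators for families of linear systems with a known kernel. -/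
theorem idx_solve [FiniteDimensional ℝ V] {X W B : Type} [NormedAddCommGroup X] [NormedSpace ℝ X]
    [NormedAddCommGroup W] [NormedSpace ℝ W] [NormedAddCommGroup B] [NormedSpace ℝ B]
    [FiniteDimensional ℝ B] {β : V →L[ℝ] V →L[ℝ] ℝ} (hβ : ∀ v, β v v = 0 → v = 0)
    {γ : W →L[ℝ] W →L[ℝ] ℝ} (hγ : ∀ w, γ w w = 0 → w = 0) (hγ0 : ∀ w, 0 ≤ γ w w)
    {ι : Type} [Fintype ι] {U : Set X} {T : X → V →L[ℝ] W} {R : X → B →L[ℝ] W} {v : X → ι → V}
    (hT : ContDiffOn ℝ 1 T U) (hR : ContDiffOn ℝ 1 R U)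
    (hv : ∀ i, ContDiffOn ℝ 1 (fun p => v p i) U)
    (hker : ∀ p ∈ U, ∀ a, T p a = 0 ↔ a ∈ Submodule.span ℝ (range (v p)))
    (hr : ∀ p ∈ U, ∀ b, ∃ a, T p a = R p b) :
    ∃ A : X → B →L[ℝ] V, ContDiffOn ℝ 1 A U ∧ ∀ p ∈ U, ∀ b, T p (A p b) = R p b := by
  let M : X → V →L[ℝ] V →L[ℝ] ℝ := fun p => γ.bilinearComp (T p) (T p) + idxPen β (v p)
  let N : X → B →L[ℝ] V →L[ℝ] ℝ := fun p => γ.bilinearComp (R p) (T p)
  have eM : ∀ p a a', M p a a' = γ (T p a) (T p a') + idxPen β (v p) a a' := fun _ _ _ => rfl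
  have eN : ∀ p b a', N p b a' = γ (R p b) (T p a') := fun _ _ _ => rfl
  have hM : ContDiffOn ℝ 1 M U := by
    refine contDiffOn_clm_apply.2 fun a => contDiffOn_clm_apply.2 fun a' => ?_
    simp only [eM, idxPen_apply]
    refine ((contDiffOn_const.clm_apply (hT.clm_apply contDiffOn_const)).clm_apply
      (hT.clm_apply contDiffOn_const)).add (ContDiffOn.sum fun i _ => ?_)
    exact ((contDiffOn_const.clm_apply (hv i)).clm_apply contDiffOn_const).mul
      ((contDiffOn_const.clm_apply (hv i)).clm_apply contDiffOn_const)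
  have hN : ContDiffOn ℝ 1 N U := by
    refine contDiffOn_clm_apply.2 fun a => contDiffOn_clm_apply.2 fun a' => ?_
    simp only [eN]
    exact (contDiffOn_const.clm_apply (hR.clm_apply contDiffOn_const)).clm_apply
      (hT.clm_apply contDiffOn_const)
  have hI : ∀ p ∈ U, (M p).IsInvertible := fun p hp => idx_invertible fun a ha => by
    rw [eM] at ha
    have h1 := hγ0 (T p a)
    have h2 := idxPen_nonneg β (v p) a
    exact hβ a (idxPen_self (by linarith) ((hker p hp a).1 (hγ _ (by linarith))))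
  refine ⟨fun p => (M p).inverse.comp (N p), ContDiffOn.clm_comp (fun p hp =>
    (hI p hp).contDiffAt_map_inverse.comp_contDiffWithinAt p (hM p hp)) hN, fun p hp b => ?_⟩
  have e1 : ∀ a', M p ((M p).inverse (N p b)) a' = N p b a' := fun a' => by
    rw [(hI p hp).self_apply_inverse]
  change T p ((M p).inverse (N p b)) = R p b
  generalize (M p).inverse (N p b) = a at e1 ⊢
  simp only [eM, eN] at e1
  have e2 := idxPen_zero hβ (v := v p) (a := a) fun w hw => by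
    have := e1 w
    rw [(hker p hp w).2 hw] at this
    simpa using this
  obtain ⟨a₁, h1⟩ := hr p hp b
  have e3 := e1 (a - a₁)
  rw [e2, map_sub, h1] at e3
  refine sub_eq_zero.1 (hγ _ ?_)
  rw [map_sub γ, sub_apply]
  linarith

end Pure

variable {n : ℕ} {g : Met n}

/-- The Euclidean form on `E n`. -/
def idxE (n : ℕ) : E n →L[ℝ] E n →L[ℝ] ℝ := innerSL ℝ (E := E n)

theorem idxE_apply (u w : E n) : idxE n u w = inner ℝ u w := rfl

/-- The Euclidean form on `VV n`. -/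
def idxV (n : ℕ) : VV n →L[ℝ] VV n →L[ℝ] ℝ :=
  (idxE n).bilinearComp (ContinuousLinearMap.fst ℝ _ _) (ContinuousLinearMap.fst ℝ _ _) +
    (idxE n).bilinearComp (ContinuousLinearMap.snd ℝ _ _) (ContinuousLinearMap.snd ℝ _ _)

theorem idxV_apply (u w : VV n) : idxV n u w = inner ℝ u.1 w.1 + inner ℝ u.2 w.2 := rfl

theorem idxV_nonneg (u : VV n) : 0 ≤ idxV n u u := by
  rw [idxV_apply]
  exact add_nonneg real_inner_self_nonneg real_inner_self_nonneg

theorem idxV_pos (u : VV n) (h : idxV n u u = 0) : u = 0 := by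
  rw [idxV_apply] at h
  have h1 : 0 ≤ inner ℝ u.1 u.1 := real_inner_self_nonneg
  have h2 : 0 ≤ inner ℝ u.2 u.2 := real_inner_self_nonneg
  exact Prod.ext ((inner_self_eq_zero (𝕜 := ℝ)).1 (by linarith))
    ((inner_self_eq_zero (𝕜 := ℝ)).1 (by linarith))

/-- Generators of `Bdir x`. -/
def idxGen (x : VV n) : Fin 5 → VV n :=
  ![x, Complex.I • x, (0, x.1), (0, Complex.I • x.1), (0, x.2)]

/-- Generators of `Bs x`. -/
def idxGen' (x : VV n) : Fin 3 → E n := ![x.1, Complex.I • x.1, x.2]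

theorem idxGen_span (x : VV n) : Submodule.span ℝ (range (idxGen x)) = Bdir x := by
  unfold Bdir idxGen
  congr 1
  simp only [Matrix.range_cons, Matrix.range_empty, union_empty, singleton_union]

theorem idxGen'_span (x : VV n) : Submodule.span ℝ (range (idxGen' x)) = Bs x := by
  unfold Bs idxGen'
  congr 1
  simp only [Matrix.range_cons, Matrix.range_empty, union_empty, singleton_union]

theorem idxGen_smooth (i : Fin 5) : ContDiff ℝ 1 fun x : VV n => idxGen x i := by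
  fin_cases i
  · exact contDiff_id
  · exact contDiff_id.const_smul Complex.I
  · exact contDiff_const.prodMk contDiff_fst
  · exact contDiff_const.prodMk (contDiff_fst.const_smul Complex.I)
  · exact contDiff_const.prodMk contDiff_snd

theorem idxGen'_smooth (i : Fin 3) : ContDiff ℝ 1 fun x : VV n => idxGen' x i := by
  fin_cases i
  · exact contDiff_fst
  · exact contDiff_fst.const_smul Complex.I
  · exact contDiff_snd

theorem idx_Bs_Bdir {x : VV n} {u : E n} (hu : u ∈ Bs x) : ((0, u) : VV n) ∈ Bdir x := by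
  obtain ⟨c, a, rfl⟩ := mem_Bs.1 hu
  exact mem_Bdir.2 ⟨0, c, a, by simp⟩

theorem idx_om_add_left (x a b c : VV n) : om g x (a + b) c = om g x a c + om g x b c := by
  simp only [om, map_add, add_apply, Prod.fst_add]
  ring

theorem idx_om_anti (x a b : VV n) : om g x a b = -om g x b a := by
  simp only [om]
  ring

namespace Geo
variable (G : Geo g) (h : IsMetric g)

theorem idx_JH (t : ℝ) (x δ : VV n) : G.JH t x δ = hor (G.Z t x) (G.JJ t x δ) := rfl

include h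

theorem idx_g (t : ℝ) {x : VV n} (hx : x ∈ OO n) (u : E n) (δ : VV n) :
    g (G.Z t x) u (G.JJ t x δ) = g (G.Z t x) u (G.JH t x δ) :=
  (h.hor_right (G.Z_ne h t hx) _ _).symm

theorem idx_lag (t : ℝ) {x : VV n} (hx : x ∈ OO n) {ξ η : VV n} (hξ : G.JH t x ξ = 0)
    (hη : G.JH t x η = 0) : om g x ξ η = 0 := by
  rw [← G.star h t hx hξ, G.idx_g h t hx, hη, map_zero]

theorem idx_fibre (t : ℝ) {x : VV n} (hx : x ∈ OO n) {δ : VV n} (hδ : G.JH t x δ = 0) (u : E n) :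
    om g x (0, u) δ = (spd g x)⁻¹ * g x.1 u δ.1 := by
  have h1 : g x.1 (vel g x) δ.1 = 0 := by
    have := G.al_inv h t hx δ
    rw [G.idx_g h t hx, hδ, map_zero] at this
    exact this.symm
  rw [om_fibre h hx, h1, mul_zero, sub_zero]

theorem idx_add (s t : ℝ) {x : VV n} (hx : x ∈ OO n) (δ : VV n) :
    G.JH (s + t) x δ = G.JH s (G.psi t x) (fderiv ℝ (G.psi t) x δ) := by
  rw [idx_JH, idx_JH, G.JJ_add h s t hx, Z, G.psi_add h s t hx]
  rfl

theorem idx_zero {x : VV n} (hx : x ∈ OO n) (δ : VV n) : G.JH 0 x δ = hor x.1 δ.1 := by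
  rw [idx_JH, G.JJ_zero h hx, Z, G.psi_zero h hx]

end Geo

/-- The parameter domain. -/
def idxU (n : ℕ) : Set (ℝ × VV n) := {p | p.1 ∈ Ioo (π / 4) (3 * π / 4) ∧ p.2 ∈ OO n}

theorem isOpen_idxU : IsOpen (idxU n) :=
  (isOpen_Ioo.preimage continuous_fst).inter (isOpen_OO.preimage continuous_snd)

namespace Bl
variable {G : Geo g} (B : Bl g G)
include B

theorem idx_pair {p : ℝ × VV n} (hp : p ∈ idxU n) {a : VV n} (h1 : G.JH (π / 4) p.2 a = 0)
    (h2 : G.JH p.1 p.2 a = 0) : a ∈ Bdir p.2 :=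
  B.no_conj_pair hp.2 ⟨by linarith [hp.1.1], by linarith [hp.1.2, pi_pos]⟩
    (by linarith [hp.1.2] : p.1 - π / 4 < π / 2).ne h1 h2

theorem idx_range {p : ℝ × VV n} (hp : p ∈ idxU n) (b : E n) :
    ∃ a, G.JH (π / 4) p.2 a = 0 ∧ G.JH p.1 p.2 a = -G.JH p.1 p.2 (0, b) := by
  obtain ⟨t, x⟩ := p
  obtain ⟨ht, hx⟩ := hp
  dsimp only at ht hx ⊢
  have h := B.met
  have hy := G.psi_mem h (π / 4) hx
  have e0 : G.psi (t - π / 4) (G.psi (π / 4) x) = G.psi t x := by
    rw [← G.psi_add h _ _ hx, sub_add_cancel]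
  have e1 : G.psi (-(π / 4)) (G.psi (π / 4) x) = x := by
    rw [← G.psi_add h _ _ hx, neg_add_cancel, G.psi_zero h hx]
  obtain ⟨u, hu⟩ := G.JH_surj h (t - π / 4) hy
    (fun u hu => B.no_conj hy ⟨by linarith [ht.1], by linarith [ht.2]⟩ hu)
    (y := -G.JH t x (0, b))
    (by
      rw [Geo.Z, e0, ← neg_one_smul ℂ, nu_smul]
      exact mul_eq_zero_of_right _ (nu_hor (G.Z_ne h t hx) _))
    (by
      have := G.al_inv h t hx (0, b)
      rw [G.idx_g h t hx] at this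
      rw [Geo.Z, e0, map_neg, neg_eq_zero]
      exact this.trans (map_zero (g x.1 (vel g x))))
  have e2 := G.fderiv_psi_neg h (-(π / 4)) hy (0, u)
  rw [neg_neg, e1] at e2
  refine ⟨fderiv ℝ (G.psi (-(π / 4))) (G.psi (π / 4) x) (0, u), ?_, ?_⟩
  · have := G.idx_add h 0 (π / 4) hx (fderiv ℝ (G.psi (-(π / 4))) (G.psi (π / 4) x) (0, u))
    rw [zero_add, e2, G.idx_zero h hy] at this
    exact this.trans (map_zero (horL _))
  · have := G.idx_add h (t - π / 4) (π / 4) hx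
      (fderiv ℝ (G.psi (-(π / 4))) (G.psi (π / 4) x) (0, u))
    rw [sub_add_cancel, e2, hu] at this
    exact this

theorem idx_exists : ∃ A : ℝ × VV n → E n →L[ℝ] VV n, ContDiffOn ℝ 1 A (idxU n) ∧
    ∀ p ∈ idxU n, ∀ b, G.JH (π / 4) p.2 (A p b) = 0 ∧ G.JH p.1 p.2 ((0, b) + A p b) = 0 := by
  have h := B.met
  have hJ := (G.contDiffOn_JH h).of_le (m := 1) (by exact_mod_cast le_top)
  have hJ1 : ContDiffOn ℝ 1 (fun p : ℝ × VV n => G.JH p.1 p.2) (idxU n) :=
    hJ.mono fun p hp => hp.2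
  have hJ0 : ContDiffOn ℝ 1 (fun p : ℝ × VV n => G.JH (π / 4) p.2) (idxU n) :=
    hJ.comp (f := fun p : ℝ × VV n => (π / 4, p.2)) (contDiffOn_const.prodMk contDiffOn_snd)
      fun p hp => hp.2
  obtain ⟨A, hA, h1⟩ := idx_solve (U := idxU n) idxV_pos idxV_pos idxV_nonneg
    (T := fun p => (G.JH (π / 4) p.2).prod (G.JH p.1 p.2))
    (R := fun p => (0 : E n →L[ℝ] E n).prod
      (-(G.JH p.1 p.2).comp (ContinuousLinearMap.inr ℝ (E n) (E n))))
    (v := fun p => idxGen p.2)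
    (contDiffOn_clm_apply.2 fun a =>
      (hJ0.clm_apply contDiffOn_const).prodMk (hJ1.clm_apply contDiffOn_const))
    (contDiffOn_clm_apply.2 fun b =>
      contDiffOn_const.prodMk (hJ1.clm_apply (contDiffOn_const (c := ((0, b) : VV n)))).neg)
    (fun i => ((idxGen_smooth i).comp contDiff_snd).contDiffOn)
    (fun p hp a => by
      rw [idxGen_span]
      exact ⟨fun ha => B.idx_pair hp (congrArg Prod.fst ha) (congrArg Prod.snd ha),
        fun ha => Prod.ext (G.JH_Bdir h _ hp.2 ha) (G.JH_Bdir h _ hp.2 ha)⟩)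
    (fun p hp b => by
      obtain ⟨a, h1, h2⟩ := B.idx_range hp b
      exact ⟨a, Prod.ext h1 h2⟩)
  refine ⟨A, hA, fun p hp b => ⟨congrArg Prod.fst (h1 p hp b), ?_⟩⟩
  have h2 : G.JH p.1 p.2 (A p b) = -G.JH p.1 p.2 (0, b) := congrArg Prod.snd (h1 p hp b)
  rw [map_add, h2, add_neg_cancel]

end Bl

/-- The family of forms. -/
def idxQ (g : Met n) (A : ℝ × VV n → E n →L[ℝ] VV n) (p : ℝ × VV n) : E n →L[ℝ] E n →L[ℝ] ℝ :=
  idxPen (idxE n) (idxGen' p.2) - (g p.2.1).comp ((ContinuousLinearMap.fst ℝ _ _).comp (A p))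

theorem idxQ_apply (A : ℝ × VV n → E n →L[ℝ] VV n) (p : ℝ × VV n) (b b' : E n) :
    idxQ g A p b b' = idxPen (idxE n) (idxGen' p.2) b b' - g p.2.1 (A p b).1 b' := rfl

section Q
variable {G : Geo g} (B : Bl g G) {A : ℝ × VV n → E n →L[ℝ] VV n}
  (hA : ContDiffOn ℝ 1 A (idxU n))
  (hS : ∀ p ∈ idxU n, ∀ b, G.JH (π / 4) p.2 (A p b) = 0 ∧ G.JH p.1 p.2 ((0, b) + A p b) = 0)

include B hA in
theorem idxQ_cont : ContinuousOn (idxQ g A) (idxU n) := by
  refine continuousOn_clm_apply.2 fun b => continuousOn_clm_apply.2 fun b' => ?_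
  simp only [idxQ_apply, idxPen_apply, idxE_apply]
  refine ContinuousOn.sub (continuousOn_finsetSum _ fun i _ => ?_) ?_
  · have := ((idxGen'_smooth (n := n) i).continuous.comp
      (continuous_snd (X := ℝ) (Y := VV n))).continuousOn (s := idxU n)
    exact (this.inner (𝕜 := ℝ) continuousOn_const).mul (this.inner (𝕜 := ℝ) continuousOn_const)
  · have h1 : ContinuousOn (fun p : ℝ × VV n => g p.2.1) (idxU n) :=
      B.met.smooth.continuousOn.comp (f := fun p : ℝ × VV n => p.2.1)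
        continuous_snd.fst.continuousOn fun p hp => hp.2.1
    exact (h1.clm_apply (hA.continuousOn.clm_apply continuousOn_const).fst).clm_apply
      continuousOn_const

include B hS in
theorem idxQ_symm {p : ℝ × VV n} (hp : p ∈ idxU n) (b b' : E n) :
    idxQ g A p b b' = idxQ g A p b' b := by
  have h := B.met
  have hx := hp.2
  have e := G.idx_lag h p.1 hx (hS p hp b).2 (hS p hp b').2
  rw [idx_om_add_left, idx_om_anti p.2 (0, b), idx_om_anti p.2 (A p b), idx_om_add_left,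
    idx_om_add_left, G.idx_lag h _ hx (hS p hp b').1 (hS p hp b).1,
    G.idx_fibre h _ hx (hS p hp b).1, idx_om_anti p.2 (A p b'),
    G.idx_fibre h _ hx (hS p hp b').1, om_fibre h hx] at e
  simp only [map_zero, mul_zero, sub_zero] at e
  have e1 : g p.2.1 b (A p b').1 = g p.2.1 b' (A p b).1 :=
    mul_left_cancel₀ (inv_ne_zero (h.spd_pos hx).ne') (by linarith)
  rw [idxQ_apply, idxQ_apply, h.symm _ _ b' hx.1, h.symm _ _ b hx.1, e1, idxPen_apply,
    idxPen_apply]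
  simp only [mul_comm]

include B hS in
theorem idxQ_ker {p : ℝ × VV n} (hp : p ∈ idxU n) (b : E n) :
    idxQ g A p b = 0 ↔ b ∈ (Bs p.2)ᗮ ∧ G.JH p.1 p.2 (0, b) = 0 := by
  have h := B.met
  have hx := hp.2
  have e0 : A p b ∈ Bdir p.2 → ∀ b', g p.2.1 (A p b).1 b' = 0 := fun ha b' => by
    obtain ⟨l, c, a, e⟩ := mem_Bdir.1 ha
    rw [e]
    exact h.vert l _ _ hx.1
  constructor
  · intro hq
    have e1 : ∀ b', idxPen (idxE n) (idxGen' p.2) b b' = g p.2.1 (A p b).1 b' := fun b' => by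
      rw [← sub_eq_zero, ← idxQ_apply, hq]
      rfl
    have e2 := idxPen_zero (β := idxE n) (fun v hv => (inner_self_eq_zero (𝕜 := ℝ)).1 hv)
      (v := idxGen' p.2) (a := b) fun w hw => by
        rw [idxGen'_span] at hw
        have := G.idx_fibre h _ hx (hS p hp b).1 w
        rw [om_Bdir h hx (idx_Bs_Bdir hw)] at this
        rw [e1, h.symm _ _ _ hx.1]
        exact (mul_eq_zero.1 this.symm).resolve_left (inv_ne_zero (h.spd_pos hx).ne')
    refine ⟨(Submodule.mem_orthogonal _ _).2 fun w hw =>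
      idxPen_self (e2 b) (by rwa [idxGen'_span]), ?_⟩
    have e3 : G.JH 0 p.2 (A p b) = 0 := by
      rw [G.idx_zero h hx]
      exact h.hor_eq_zero hx.1 (by rw [← e1, e2])
    have e4 : A p b ∈ Bdir p.2 :=
      B.no_conj_pair hx (s := 0) (t := π / 4) ⟨by linarith [pi_pos], by linarith [pi_pos]⟩
        (by linarith [pi_pos] : π / 4 - 0 < π / 2).ne e3 (hS p hp b).1
    have := (hS p hp b).2
    rwa [map_add, G.JH_Bdir h _ hx e4, add_zero] at this
  · rintro ⟨h1, h2⟩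
    have e4 : A p b ∈ Bdir p.2 := B.idx_pair hp (hS p hp b).1 (by
      have := (hS p hp b).2
      rwa [map_add, h2, zero_add] at this)
    ext b'
    rw [idxQ_apply, e0 e4, idxPen_apply, sub_zero]
    refine Finset.sum_eq_zero fun i _ => mul_eq_zero_of_left ?_ _
    exact (Submodule.mem_orthogonal _ _).1 h1 _
      (idxGen'_span p.2 ▸ Submodule.subset_span ⟨i, rfl⟩)

include B hS in
theorem idxQ_nondeg {p : ℝ × VV n} (hp : p ∈ idxU n) (hne : p.1 ≠ π / 2) (b : E n)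
    (hb : idxQ g A p b = 0) : b = 0 := by
  obtain ⟨h1, h2⟩ := (idxQ_ker B hS hp b).1 hb
  have h3 := B.no_conj' hp.2 ⟨by linarith [hp.1.1, pi_pos], by linarith [hp.1.2, pi_pos]⟩ hne h2
  exact (inner_self_eq_zero (𝕜 := ℝ)).1 ((Submodule.mem_orthogonal _ _).1 h1 b h3)

include B hA hS in
theorem idxQ_deriv {t : ℝ} {x : VV n} (hp : (t, x) ∈ idxU n) (b : E n) :
    ∃ d, 0 ≤ d ∧ HasDerivAt (fun s => idxQ g A (s, x) b b) d t := by
  have h := B.met
  have hx : x ∈ OO n := hp.2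
  have hc : ContDiffAt ℝ 1 (fun s : ℝ => (s, x)) t := contDiffAt_id.prodMk contDiffAt_const
  have hev : ∀ᶠ s in 𝓝 t, (s, x) ∈ idxU n :=
    hc.continuousAt.preimage_mem_nhds (isOpen_idxU.mem_nhds hp)
  obtain ⟨a', ha⟩ : ∃ a', HasDerivAt (fun s => A (s, x) b) a' t :=
    ⟨_, ((((hA.contDiffAt (isOpen_idxU.mem_nhds hp)).comp t hc).clm_apply
      (contDiffAt_const (c := b))).differentiableAt one_ne_zero).hasDerivAt⟩
  have hJ1 : ContDiffAt ℝ 1 (fun p : ℝ × VV n => G.JH p.1 p.2) (t, x) :=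
    ((G.contDiffOn_JH h).contDiffAt
      ((isOpen_OO.preimage continuous_snd).mem_nhds (x := (t, x)) hx)).of_le
        (by exact_mod_cast le_top)
  obtain ⟨J', hJ⟩ : ∃ J', HasDerivAt (fun s => G.JH s x) J' t :=
    ⟨_, ((ContDiffAt.comp (g := fun p : ℝ × VV n => G.JH p.1 p.2) t hJ1 hc).differentiableAt
      one_ne_zero).hasDerivAt⟩
  have e1 : G.JH (π / 4) x a' = 0 := by
    have h1 := (G.JH (π / 4) x).hasFDerivAt.comp_hasDerivAt t ha
    exact h1.unique ((hasDerivAt_const t (0 : E n)).congr_of_eventuallyEq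
      (hev.mono fun s hs => (hS _ hs b).1))
  have e2 : J' ((0, b) + A (t, x) b) + G.JH t x a' = 0 := by
    have h1 := hJ.clm_apply (ha.const_add ((0, b) : VV n))
    exact h1.unique ((hasDerivAt_const t (0 : E n)).congr_of_eventuallyEq
      (hev.mono fun s hs => (hS _ hs b).2))
  have e3 : deriv (fun s => G.JH s x ((0, b) + A (t, x) b)) t = J' ((0, b) + A (t, x) b) := by
    have := (hJ.clm_apply (hasDerivAt_const t ((0, b) + A (t, x) b))).deriv
    rwa [map_zero, add_zero] at this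
  have e4 := G.star h t hx (hS _ hp b).2 a'
  rw [e3, G.idx_g h t hx, eq_neg_of_add_eq_zero_right e2, map_neg, idx_om_add_left,
    G.idx_lag h _ hx (hS _ hp b).1 e1, G.idx_fibre h _ hx e1, add_zero] at e4
  have e5 := h.nonneg (G.Z_ne h t hx) (J' ((0, b) + A (t, x) b))
  have e6 : g x.1 b a'.1 ≤ 0 := by
    by_contra hc
    have := mul_pos (inv_pos.2 (h.spd_pos hx)) (not_le.1 hc)
    linarith
  refine ⟨-g x.1 a'.1 b, by rw [h.symm _ _ _ hx.1]; linarith, ?_⟩
  exact ((((g x.1).flip b).comp (ContinuousLinearMap.fst ℝ (E n) (E n))).hasFDerivAt.comp_hasDerivAt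
    t ha).const_sub (idxPen (idxE n) (idxGen' x) b b)

end Q

/-- Dimension of the space of `u` with `JH (π/2) x (0,u) = 0` (it contains `Bs x`). -/
def Geo.kdim (G : Geo g) (x : VV n) : ℕ :=
  Module.finrank ℝ (LinearMap.ker
    ((G.JH (π / 2) x).comp (ContinuousLinearMap.inr ℝ (E n) (E n)) : E n →ₗ[ℝ] E n))

theorem Bl.kdim_const {G : Geo g} (B : Bl g G) {x y : VV n} (hx : x ∈ OO n) (hy : y ∈ OO n) :
    G.kdim x = G.kdim y := by
  obtain ⟨A, hA, hS⟩ := B.idx_exists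
  have hU : ∀ t ∈ Icc (3 * π / 8) (5 * π / 8), ∀ x ∈ OO n, (t, x) ∈ idxU n := fun t ht x hx =>
    ⟨⟨by linarith [ht.1, pi_pos], by linarith [ht.2, pi_pos]⟩, hx⟩
  have ha : 3 * π / 8 < π / 2 := by linarith [pi_pos]
  have hb : π / 2 < 5 * π / 8 := by linarith [pi_pos]
  have hcont := idxQ_cont B hA
  have jump : ∀ x ∈ OO n, npos (idxQ g A (5 * π / 8, x)) + 3 =
      npos (idxQ g A (3 * π / 8, x)) + G.kdim x := by
    intro x hx
    have h1 := npos_jump (q := fun t => idxQ g A (t, x)) ha hb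
      (hcont.comp (f := fun t : ℝ => (t, x)) (continuous_id.prodMk continuous_const).continuousOn
        fun t ht => hU t ht x hx)
      (fun t ht => idxQ_symm B hS (hU t ht x hx))
      (fun u => by
        choose! d hd using fun t (ht : t ∈ Icc (3 * π / 8) (5 * π / 8)) =>
          idxQ_deriv B hA hS (hU t ht x hx) u
        exact monotoneOn_of_hasDerivWithinAt_nonneg (convex_Icc _ _) (f' := d)
          (fun t ht => (hd t ht).2.continuousAt.continuousWithinAt)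
          (fun t ht => (hd t (interior_subset ht)).2.hasDerivWithinAt)
          fun t ht => (hd t (interior_subset ht)).1)
      fun t ht hne => idxQ_nondeg B hS (hU t ht x hx) hne
    have h2 := Submodule.finrank_add_inf_finrank_orthogonal (𝕜 := ℝ) (K₁ := Bs x)
      (K₂ := LinearMap.ker ((G.JH (π / 2) x).comp (ContinuousLinearMap.inr ℝ (E n) (E n)) :
        E n →ₗ[ℝ] E n)) fun u hu => G.JH_Bdir B.met _ hx (idx_Bs_Bdir hu)
    have h3 : LinearMap.ker (idxQ g A (π / 2, x) : E n →ₗ[ℝ] E n →L[ℝ] ℝ) = (Bs x)ᗮ ⊓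
        LinearMap.ker ((G.JH (π / 2) x).comp (ContinuousLinearMap.inr ℝ (E n) (E n)) :
          E n →ₗ[ℝ] E n) :=
      Submodule.ext fun b => idxQ_ker B hS (hU _ ⟨ha.le, hb.le⟩ x hx) b
    rw [finrank_Bs hx, ← h3] at h2
    unfold Geo.kdim
    omega
  have const : ∀ t ∈ Icc (3 * π / 8) (5 * π / 8), t ≠ π / 2 →
      npos (idxQ g A (t, x)) = npos (idxQ g A (t, y)) := by
    intro t ht hne
    refine (isPreconnected_OO (le_trans one_le_two B.two)).constant
      (f := fun z => npos (idxQ g A (t, z))) (fun z hz => ContinuousAt.continuousWithinAt ?_) hx hy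
    exact Filter.EventuallyEq.continuousAt (npos_eventually (q := fun z => idxQ g A (t, z))
      ((hcont.continuousAt (isOpen_idxU.mem_nhds (hU t ht z hz))).comp (f := fun z => (t, z))
        (continuous_const.prodMk continuous_id).continuousAt)
      (Filter.mem_of_superset (isOpen_OO.mem_nhds hz) fun w hw => idxQ_symm B hS (hU t ht w hw))
      (idxQ_nondeg B hS (hU t ht z hz) hne))
  have e1 := const _ ⟨le_rfl, (ha.trans hb).le⟩ ha.ne
  have e2 := const _ ⟨(ha.trans hb).le, le_rfl⟩ hb.ne'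
  have e3 := jump x hx
  have e4 := jump y hy
  omega

end Pool.Agent.Work.MP_8c604c_gt
end
end

-- merged part: Pool.Agent.Work.MP_8c604c_gt.Log
section
/-!
The smooth logarithm on pairs at distance < pi/2.
Hints. Local inverses: (q,u) -> (q, Ex q u) has invertible derivative where |u|_g < pi/2 (det_Ex_ne), use
ContDiffAt.toOpenPartialHomeomorph / to_localInverse. exists_ex: for a path c of length < r < pi/2 the set of t with
c t in the image of the open r-ball is open, equals the set for the closed r-ball (dd_ex), which is closed (compact image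
of horizontal vectors times the scalar |c t|/|q| on a circle), so it is everything. Define lg, sig by choice, uniqueness by ex_inj.
-/

set_option maxSynthPendingDepth 3

open Set Filter Topology MeasureTheory
open scoped ContDiff

noncomputable section
namespace Pool.Agent.Work.MP_8c604c_gt

variable {n : ℕ} {g : Met n}

/-- Pairs at distance less than `π/2`. -/
def DD (g : Met n) : Set (VV n) := {p | p.1 ≠ 0 ∧ p.2 ≠ 0 ∧ dd g p.1 p.2 < Real.pi / 2}

theorem IsMetric.isOpen_DD (h : IsMetric g) : IsOpen (DD g) := by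
  have ho : IsOpen {p : VV n | p.1 ≠ 0 ∧ p.2 ≠ 0} :=
    (isOpen_ne.preimage continuous_fst).inter (isOpen_ne.preimage continuous_snd)
  have h1 := h.continuousOn_dd.isOpen_inter_preimage ho (isOpen_Iio (a := Real.pi / 2))
  convert h1 using 1
  ext p
  simp only [DD, mem_ofPred_eq, mem_inter_iff, mem_preimage, mem_Iio, and_assoc]

theorem Log_open : IsOpen {p : VV n | p.1 ≠ 0} := isOpen_ne.preimage continuous_fst

theorem Log_inverse {V : Type} [NormedAddCommGroup V] [NormedSpace ℝ V] [FiniteDimensional ℝ V]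
    {F : V × V → V} {q u : V} (hF : ContDiffAt ℝ ∞ F (q, u))
    (hd : (fderiv ℝ (fun v => F (q, v)) u).det ≠ 0) :
    ∃ U : V × V → V, ContDiffAt ℝ ∞ U (q, F (q, u)) ∧ U (q, F (q, u)) = u ∧
      ∀ᶠ p in 𝓝 (q, F (q, u)), F (p.1, U p) = p.2 := by
  have := FiniteDimensional.complete ℝ V
  have h1 : HasFDerivAt F (fderiv ℝ F (q, u)) (q, u) :=
    (hF.differentiableAt (by simp)).hasFDerivAt
  have h2 : HasFDerivAt (fun v => F (q, v))
      ((fderiv ℝ F (q, u)).comp (ContinuousLinearMap.inr ℝ V V)) u :=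
    h1.comp u (hasFDerivAt_prodMk_right q u)
  have h3 : HasFDerivAt (fun p : V × V => (p.1, F p))
      ((ContinuousLinearMap.fst ℝ V V).prod (fderiv ℝ F (q, u))) (q, u) :=
    hasFDerivAt_fst.prodMk h1
  have h4 : Function.Injective
      ((ContinuousLinearMap.fst ℝ V V).prod (fderiv ℝ F (q, u))).toLinearMap := by
    rw [injective_iff_map_eq_zero]
    rintro ⟨a, b⟩ hab
    have h5 : a = 0 := congrArg Prod.fst hab
    have h6 : fderiv ℝ F (q, u) (a, b) = 0 := congrArg Prod.snd hab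
    have h7 : (fderiv ℝ (fun v => F (q, v)) u).toContinuousLinearEquivOfDetNeZero hd b = 0 := by
      rw [ContinuousLinearMap.toContinuousLinearEquivOfDetNeZero_apply, h2.fderiv, ← h6, h5]
      rfl
    rw [h5, (map_eq_zero_iff _ (ContinuousLinearEquiv.injective _)).1 h7]
    rfl
  let e : (V × V) ≃L[ℝ] V × V := (LinearEquiv.ofInjectiveEndo _ h4).toContinuousLinearEquiv
  have h5 : HasFDerivAt (fun p : V × V => (p.1, F p)) (e : V × V →L[ℝ] V × V) (q, u) := by
    convert h3 using 1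
    exact ContinuousLinearMap.ext fun _ => rfl
  have h6 : ContDiffAt ℝ ∞ (fun p : V × V => (p.1, F p)) (q, u) := contDiffAt_fst.prodMk hF
  have hn : (∞ : WithTop ℕ∞) ≠ 0 := by simp
  refine ⟨fun p => (h6.localInverse h5 hn p).2, (h6.to_localInverse h5 hn).snd,
    congrArg Prod.snd (h6.localInverse_apply_image h5 hn), ?_⟩
  filter_upwards [(h6.hasStrictFDerivAt' h5 hn).eventually_right_inverse] with p hp
  have h7 : (h6.localInverse h5 hn p).1 = p.1 := (Prod.ext_iff.1 hp).1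
  rw [← h7]
  exact (Prod.ext_iff.1 hp).2

theorem Log_continuousAt (h : IsMetric g) {p : VV n} (hp : p.1 ≠ 0) {U : VV n → E n}
    (hU : ContinuousAt U p) : ContinuousAt (fun y : VV n => √(g y.1 (U y) (U y))) p :=
  ((((h.contDiffAt hp).continuousAt.comp continuousAt_fst).clm_apply hU).clm_apply hU).sqrt

theorem Log_hor (h : IsMetric g) {q : E n} (hq : q ≠ 0) (u : E n) :
    g q (hor q u) (hor q u) = g q u u := by
  rw [h.hor_left hq, h.hor_right hq]

theorem Log_exists_Ex (G : Geo g) (h : IsMetric g) {q : E n} (hq : q ≠ 0) (u : E n) {c : ℂ}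
    (hc : c ≠ 0) : ∃ u', g q u' u' = g q u u ∧ G.Ex q u' = c • G.ex q u := by
  have h0 : (‖q‖ : ℂ) ≠ 0 := by exact_mod_cast norm_ne_zero_iff.2 hq
  refine ⟨hor q u + Complex.log (c * ‖q‖) • q, ?_, ?_⟩
  · rw [map_add, map_add, add_apply, add_apply,
      h.vert' _ _ hq, h.vert _ _ _ hq, h.vert _ _ _ hq, Log_hor h hq]
    ring
  · rw [Geo.Ex, G.ex_add_vert hq, G.ex_hor hq, nu_add, nu_hor hq, nu_smul, nu_self hq, zero_add,
      mul_one, Complex.exp_log (mul_ne_zero hc h0), mul_div_cancel_right₀ _ h0]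

theorem Log_compact (h : IsMetric g) {q : E n} (hq : q ≠ 0) (r : ℝ) :
    IsCompact {u : E n | nu q u = 0 ∧ √(g q u u) ≤ r} := by
  obtain ⟨A, hA, hb⟩ := h.exists_comp
  refine Metric.isCompact_of_isClosed_isBounded ?_ ?_
  · have h1 : IsClosed {u : E n | √(g q u u) ≤ r} :=
      isClosed_le ((g q).continuous.clm_apply continuous_id).sqrt continuous_const
    exact (isClosed_eq (nuL q).continuous continuous_const).inter h1
  · refine (Metric.isBounded_closedBall (x := (0 : E n)) (r := √(A * ‖q‖ ^ 2 * r ^ 2))).subset ?_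
    rintro u ⟨h1, h2⟩
    have h3 := (hb q u hq).1
    rw [hor_of_nu h1] at h3
    rw [mem_closedBall_zero_iff]
    refine Real.le_sqrt_of_sq_le (h3.trans ?_)
    have h4 : g q u u ≤ r ^ 2 := by
      rw [← Real.sq_sqrt (h.nonneg hq u)]
      exact pow_le_pow_left₀ (Real.sqrt_nonneg _) h2 2
    exact mul_le_mul_of_nonneg_left h4 (by positivity)

theorem Log_closed (G : Geo g) (h : IsMetric g) {q : E n} (hq : q ≠ 0) (r : ℝ) {c : ℝ → E n}
    (hc : Continuous c) (h0 : ∀ t, c t ≠ 0) :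
    IsClosed {t | ∃ (u : E n) (a : ℂ), a ≠ 0 ∧ √(g q u u) ≤ r ∧ c t = a • G.ex q u} := by
  have hq' : 0 < ‖q‖ := norm_pos_iff.2 hq
  have h1 : Continuous (G.ex q) := by
    have h2 := G.contDiffOn_ex.continuousOn.comp_continuous
      (f := fun u : E n => ((q, u) : VV n)) (by fun_prop) fun _ => hq
    exact h2
  have h2 : IsCompact ((fun p : ℂ × E n => p.1 • G.ex q p.2) ''
      (Metric.sphere (0 : ℂ) 1 ×ˢ {u : E n | nu q u = 0 ∧ √(g q u u) ≤ r})) :=
    ((isCompact_sphere _ _).prod (Log_compact h hq r)).image (by fun_prop)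
  have h3 : Continuous fun t => (((‖q‖ / ‖c t‖ : ℝ) : ℂ)) • c t :=
    (Complex.continuous_ofReal.comp
      (continuous_const.div hc.norm fun t => norm_ne_zero_iff.2 (h0 t))).smul hc
  convert h2.isClosed.preimage h3 using 1
  ext t
  have ht : 0 < ‖c t‖ := norm_pos_iff.2 (h0 t)
  have ht' : ((‖q‖ / ‖c t‖ : ℝ) : ℂ) ≠ 0 := by exact_mod_cast (div_pos hq' ht).ne'
  constructor
  · rintro ⟨u, a, ha, hu, e⟩
    refine ⟨(((‖q‖ / ‖c t‖ : ℝ) : ℂ) * a, hor q u), ⟨?_, nu_hor hq u, ?_⟩, ?_⟩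
    · have h4 : ‖c t‖ = ‖a‖ * ‖q‖ := by rw [e, norm_smul, G.norm_ex hq]
      have h5 : 0 < ‖a‖ := norm_pos_iff.2 ha
      rw [mem_sphere_zero_iff_norm, norm_mul, Complex.norm_real, Real.norm_eq_abs,
        abs_of_pos (div_pos hq' ht), h4]
      field_simp
    · rwa [Log_hor h hq]
    · change (((‖q‖ / ‖c t‖ : ℝ) : ℂ) * a) • G.ex q (hor q u) = ((‖q‖ / ‖c t‖ : ℝ) : ℂ) • c t
      rw [G.ex_hor hq, mul_smul, ← e]
  · rintro ⟨⟨a, u⟩, ⟨ha, -, hu⟩, e⟩
    change a • G.ex q u = ((‖q‖ / ‖c t‖ : ℝ) : ℂ) • c t at e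
    have h5 : a ≠ 0 := by
      rintro rfl
      simp at ha
    refine ⟨u, ((‖q‖ / ‖c t‖ : ℝ) : ℂ)⁻¹ * a, mul_ne_zero (inv_ne_zero ht') h5, hu, ?_⟩
    rw [mul_smul, e, inv_smul_smul₀ ht']

theorem Log_dd_le (h : IsMetric g) {c : ℝ → E n} {q y : E n} (hc : Joins c q y) {t : ℝ}
    (ht : t ∈ Icc (0 : ℝ) 1) : dd g q (c t) ≤ len g c := by
  have h1 : Continuous (deriv c) := hc.smooth.continuous_deriv le_rfl
  have h2 : Continuous fun s => √(g (c s) (deriv c s) (deriv c s)) :=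
    (((h.smooth.continuousOn.comp_continuous hc.smooth.continuous hc.ne).clm_apply h1).clm_apply
      h1).sqrt
  have h3 := h.dd_le_curve (c := c) (c' := deriv c) ht.1
    (fun s _ => (hc.smooth.differentiable (by simp) s).hasDerivAt) h1.continuousOn fun s _ => hc.ne s
  rw [hc.start] at h3
  refine h3.trans (intervalIntegral.integral_mono_interval le_rfl ht.1 ht.2 ?_
    (h2.intervalIntegrable _ _))
  exact Eventually.of_forall fun s => Real.sqrt_nonneg _

/-- Logarithm and the scalar comparing a point with its canonical lift. -/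
structure Lgm (g : Met n) (G : Geo g) where
  lg : E n → E n → E n
  sig : E n → E n → ℂ
  smooth_lg : ContDiffOn ℝ ∞ (fun p : VV n => lg p.1 p.2) (DD g)
  smooth_sig : ContDiffOn ℝ ∞ (fun p : VV n => sig p.1 p.2) (DD g)
  nu_lg : ∀ q y, (q, y) ∈ DD g → nu q (lg q y) = 0
  norm_lg : ∀ q y, (q, y) ∈ DD g → √(g q (lg q y) (lg q y)) = dd g q y
  sig_ne : ∀ q y, (q, y) ∈ DD g → sig q y ≠ 0
  eq : ∀ q y, (q, y) ∈ DD g → y = sig q y • G.ex q (lg q y)
  uniq : ∀ q u (c : ℂ), q ≠ 0 → c ≠ 0 → √(g q u u) < Real.pi / 2 →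
    lg q (c • G.ex q u) = hor q u ∧ sig q (c • G.ex q u) = c

namespace Bl
variable {G : Geo g} (B : Bl g G)
include B

theorem Log_local {q u : E n} (hq : q ≠ 0) {r : ℝ} (hu : √(g q u u) < r) (hr : r ≤ Real.pi / 2) :
    ∃ U : VV n → E n, ContDiffAt ℝ ∞ U (q, G.Ex q u) ∧
      ∀ᶠ p in 𝓝 ((q, G.Ex q u) : VV n), p.1 ≠ 0 ∧ √(g p.1 (U p) (U p)) < r ∧
        p.2 = (Complex.exp (nu p.1 (U p)) / (‖p.1‖ : ℂ)) • G.ex p.1 (U p) := by
  obtain ⟨U, h1, h2, h3⟩ := Log_inverse (F := fun p : VV n => G.Ex p.1 p.2) (q := q) (u := u)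
    (G.contDiffOn_Ex.contDiffAt (Log_open.mem_nhds hq)) (B.det_Ex_ne hq (hu.trans_le hr))
  refine ⟨U, h1, ?_⟩
  have h4 := (Log_continuousAt B.met (p := (q, G.Ex q u)) hq h1.continuousAt).eventually_lt
    (continuousAt_const (y := r)) (by rwa [h2])
  filter_upwards [h3, h4, Log_open.mem_nhds (show ((q, G.Ex q u) : VV n) ∈ {p | p.1 ≠ 0} from hq)]
    with p e hp hp'
  exact ⟨hp', hp, e.symm⟩

theorem Log_dd {q u : E n} (hq : q ≠ 0) (hu : √(g q u u) < Real.pi / 2) {c : ℂ} (hc : c ≠ 0) :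
    dd g q (c • G.ex q u) = √(g q u u) := by
  rw [dd_smul_right hc, B.dd_ex hq hu.le]

theorem Log_mem {q u : E n} (hq : q ≠ 0) (hu : √(g q u u) < Real.pi / 2) {c : ℂ} (hc : c ≠ 0) :
    (q, c • G.ex q u) ∈ DD g :=
  ⟨hq, smul_ne_zero hc (G.ex_ne hq u), (B.Log_dd hq hu hc).trans_lt hu⟩

theorem exists_ex {q y : E n} (h : (q, y) ∈ DD g) :
    ∃ (u : E n) (c : ℂ), c ≠ 0 ∧ √(g q u u) < Real.pi / 2 ∧ y = c • G.ex q u := by
  obtain ⟨hq, hy, hd⟩ := h
  obtain ⟨c, hc, hl⟩ := exists_len_lt hq hy hd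
  obtain ⟨r, hr, hr'⟩ := exists_between hl
  have hcc := hc.smooth.continuous
  have key := ((Log_closed G B.met hq r hcc hc.ne).inter isClosed_Icc
    ).Icc_subset_of_forall_mem_nhdsWithin (a := 0) (b := 1) ?_ ?_
  · obtain ⟨u, a, ha, hu, e⟩ := key (right_mem_Icc.2 zero_le_one)
    obtain ⟨b, hb⟩ := hc.stop
    have hb0 : b ≠ 0 := by
      rintro rfl
      exact hc.ne 1 (by rw [hb, zero_smul])
    refine ⟨u, b⁻¹ * a, mul_ne_zero (inv_ne_zero hb0) ha, hu.trans_lt hr', ?_⟩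
    rw [mul_smul, ← e, hb, inv_smul_smul₀ hb0]
  · refine ⟨0, 1, one_ne_zero, ?_, ?_⟩
    · rw [map_zero, Real.sqrt_zero]
      exact ((dd_nonneg _ _).trans (dd_le_len hc)).trans hr.le
    · rw [G.ex_zero hq, one_smul, hc.start]
  · rintro t ⟨⟨u, a, ha, hu, e⟩, ht⟩
    have h1 : √(g q u u) < r := by
      rw [← B.Log_dd hq (hu.trans_lt hr') ha, ← e]
      exact (Log_dd_le B.met hc (Ico_subset_Icc_self ht)).trans_lt hr
    obtain ⟨u', h2, h3⟩ := Log_exists_Ex G B.met hq u ha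
    obtain ⟨U, -, h4⟩ := B.Log_local (u := u') hq (by rwa [h2]) hr'.le
    rw [h3, ← e] at h4
    have h5 : Tendsto (fun s => ((q, c s) : VV n)) (𝓝 t) (𝓝 (q, c t)) :=
      tendsto_const_nhds.prodMk_nhds hcc.continuousAt
    refine mem_nhdsWithin_of_mem_nhds ?_
    filter_upwards [h5.eventually h4] with s hs
    refine ⟨_, _, div_ne_zero (Complex.exp_ne_zero _) ?_, hs.2.1.le, hs.2.2⟩
    exact_mod_cast norm_ne_zero_iff.2 hq

theorem exists_lgm : Nonempty (Lgm g G) := by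
  classical
  have h := B.met
  choose! u c hc hu e using fun (q y : E n) (hp : (q, y) ∈ DD g) => B.exists_ex hp
  have huniq : ∀ q v (a : ℂ), q ≠ 0 → a ≠ 0 → √(g q v v) < Real.pi / 2 →
      hor q (u q (a • G.ex q v)) = hor q v ∧ c q (a • G.ex q v) = a := by
    intro q v a hq ha hv
    have hm := B.Log_mem hq hv ha
    have h1 := e _ _ hm
    have h2 : G.ex q v = (a⁻¹ * c q (a • G.ex q v)) • G.ex q (u q (a • G.ex q v)) := by
      rw [mul_smul, ← h1, inv_smul_smul₀ ha]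
    have h3 := B.ex_inj hq hv (hu _ _ hm) h2
    exact ⟨h3.1.symm, ((inv_mul_eq_one₀ ha).1 h3.2).symm⟩
  have hloc : ∀ p ∈ DD g, ∃ U : VV n → E n, ContDiffAt ℝ ∞ U p ∧ ∀ᶠ x in 𝓝 p,
      hor x.1 (u x.1 x.2) = hor x.1 (U x) ∧
        c x.1 x.2 = Complex.exp (nu x.1 (U x)) / (‖x.1‖ : ℂ) := by
    rintro ⟨q, y⟩ hp
    obtain ⟨u', h2, h3⟩ := Log_exists_Ex G h hp.1 (u q y) (hc _ _ hp)
    obtain ⟨U, h4, h5⟩ := B.Log_local (u := u') hp.1 (by rw [h2]; exact hu _ _ hp) le_rfl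
    rw [h3, ← e _ _ hp] at h4 h5
    refine ⟨U, h4, ?_⟩
    filter_upwards [h5] with x hx
    have h6 := huniq x.1 (U x) _ hx.1 (div_ne_zero (Complex.exp_ne_zero (nu x.1 (U x)))
      (show (‖x.1‖ : ℂ) ≠ 0 by exact_mod_cast norm_ne_zero_iff.2 hx.1)) hx.2.1
    rwa [← hx.2.2] at h6
  refine ⟨⟨fun q y => hor q (u q y), c, fun p hp => ?_, fun p hp => ?_, fun q y hp => nu_hor hp.1 _,
    fun q y hp => ?_, hc, fun q y hp => ?_, huniq⟩⟩
  · obtain ⟨U, h1, h2⟩ := hloc p hp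
    have h3 : ContDiffAt ℝ ∞ (fun x : VV n => hor x.1 (U x)) p :=
      ((contDiffOn_horL.contDiffAt (isOpen_compl_singleton.mem_nhds hp.1)).comp p
        contDiffAt_fst).clm_apply h1
    exact (h3.congr_of_eventuallyEq (h2.mono fun x hx => hx.1)).contDiffWithinAt
  · obtain ⟨U, h1, h2⟩ := hloc p hp
    have h3 : ContDiffAt ℝ ∞ (fun x : VV n => nu x.1 (U x)) p :=
      ((contDiffOn_nuL.contDiffAt (isOpen_compl_singleton.mem_nhds hp.1)).comp p
        contDiffAt_fst).clm_apply h1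
    have h4 : ContDiffAt ℝ ∞ (fun x : VV n => ((‖x.1‖⁻¹ : ℝ) : ℂ)) p :=
      Complex.ofRealCLM.contDiff.contDiffAt.comp p
        ((contDiffAt_fst.norm ℂ hp.1).inv (norm_ne_zero_iff.2 hp.1))
    have h5 := h3.cexp.mul h4
    refine (h5.congr_of_eventuallyEq (h2.mono fun x hx => ?_)).contDiffWithinAt
    exact hx.2.trans (by beta_reduce; rw [Complex.ofReal_inv, div_eq_mul_inv])
  · rw [Log_hor h hp.1, ← B.Log_dd hp.1 (hu _ _ hp) (hc _ _ hp), ← e _ _ hp]
  · rw [G.ex_hor hp.1]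
    exact e _ _ hp

end Bl

namespace Lgm
variable {G : Geo g} (B : Bl g G) (L : Lgm g G)
include B

theorem smul_right {q y : E n} (h : (q, y) ∈ DD g) {c : ℂ} (hc : c ≠ 0) :
    (q, c • y) ∈ DD g ∧ L.lg q (c • y) = L.lg q y ∧ L.sig q (c • y) = c * L.sig q y := by
  have h1 : √(g q (L.lg q y) (L.lg q y)) < Real.pi / 2 := (L.norm_lg q y h).trans_lt h.2.2
  have h2 := L.uniq q (L.lg q y) (c * L.sig q y) h.1 (mul_ne_zero hc (L.sig_ne q y h)) h1
  have h3 := B.Log_mem h.1 h1 (mul_ne_zero hc (L.sig_ne q y h))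
  rw [mul_smul, ← L.eq q y h] at h2 h3
  exact ⟨h3, h2.1.trans (hor_of_nu (L.nu_lg q y h)), h2.2⟩

theorem smul_left {q y : E n} (h : (q, y) ∈ DD g) {c : ℂ} (hc : c ≠ 0) :
    (c • q, y) ∈ DD g ∧ L.lg (c • q) y = c • L.lg q y ∧ L.sig (c • q) y = c⁻¹ * L.sig q y := by
  have h0 : c • q ≠ 0 := smul_ne_zero hc h.1
  have h1 : √(g (c • q) (c • L.lg q y) (c • L.lg q y)) < Real.pi / 2 := by
    rw [B.met.inv c _ _ _ hc h.1]
    exact (L.norm_lg q y h).trans_lt h.2.2
  have h4 := mul_ne_zero (inv_ne_zero hc) (L.sig_ne q y h)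
  have h2 := L.uniq (c • q) (c • L.lg q y) _ h0 h4 h1
  have h3 := B.Log_mem h0 h1 h4
  have h5 : (c⁻¹ * L.sig q y) • G.ex (c • q) (c • L.lg q y) = y := by
    rw [G.ex_smul hc h.1, smul_smul, mul_right_comm, inv_mul_cancel₀ hc, one_mul, ← L.eq q y h]
  rw [h5] at h2 h3
  refine ⟨h3, h2.1.trans (hor_of_nu ?_), h2.2⟩
  rw [nu_smul_smul hc, L.nu_lg q y h]

theorem self {q : E n} (hq : q ≠ 0) {c : ℂ} (hc : c ≠ 0) :
    (q, c • q) ∈ DD g ∧ L.lg q (c • q) = 0 ∧ L.sig q (c • q) = c := by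
  have h1 : √(g q 0 0) < Real.pi / 2 := by
    rw [map_zero, Real.sqrt_zero]
    positivity
  have h2 := L.uniq q 0 c hq hc h1
  have h3 := B.Log_mem hq h1 hc
  rw [G.ex_zero hq] at h2 h3
  exact ⟨h3, h2.1.trans (map_zero (horL q)), h2.2⟩

end Lgm

end Pool.Agent.Work.MP_8c604c_gt
end
end
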