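import Pool.Agent.Work.MP_8c604c_gt.Top
import Pool.Agent.Work.MP_8c604c_gt.Idx
import Pool.Agent.Work.MP_8c604c_gt.Dist
import Pool.Agent.Work.MP_8c604c_gt.ODE

-- merged part: Pool.Agent.Work.MP_8c604c_gt.TNZ
section
-- merged part: Pool.Agent.Work.MP_8c604c_gt.TNZAux
section
/-!
Algebraic and analytic helper lemmas for the non-vanishing of the degree integral.
-/

set_option maxSynthPendingDepth 3

open Set Filter Topology MeasureTheory
open scoped ContDiff

noncomputable section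
namespace Pool.Agent.Work.MP_8c604c_gt

open TopologicalSpace Lam Om

section Alg
variable {V W : Type} [NormedAddCommGroup V] [NormedSpace ℝ V] [FiniteDimensional ℝ V]
  [NormedAddCommGroup W] [NormedSpace ℝ W] [FiniteDimensional ℝ W]

theorem TNZ_top_list (l : List (V →L[ℝ] ℝ)) (hl : l.length = Module.finrank ℝ V)
    (h : ∀ v, (∀ θ ∈ l, θ v = 0) → v = 0) : top (l.map io).prod ≠ 0 := by
  have h1 : (List.ofFn fun i => io (l.get i)) = l.map io := by
    conv_rhs => rw [← List.ofFn_get l]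
    rw [List.map_ofFn]; rfl
  rw [← h1]
  refine top_prod_ne hl _ ?_
  let F : V →ₗ[ℝ] (Fin l.length → ℝ) := LinearMap.pi fun i => (l.get i : V →ₗ[ℝ] ℝ)
  have hinj : Function.Injective F := by
    rw [← LinearMap.ker_eq_bot, LinearMap.ker_eq_bot']
    intro v hv
    refine h v fun θ hθ => ?_
    obtain ⟨i, rfl⟩ := List.mem_iff_get.1 hθ
    exact congrFun hv i
  have hsurj := (LinearMap.injective_iff_surjective_of_finrank_eq_finrank (by simp [hl])).1 hinj
  rw [Fintype.linearIndependent_iff]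
  intro c hc j
  obtain ⟨v, hv⟩ := hsurj (Pi.single j 1)
  have hv' : ∀ i, l.get i v = (Pi.single j 1 : Fin l.length → ℝ) i := fun i => congrFun hv i
  have h2 := congrArg (fun θ : V →L[ℝ] ℝ => θ v) hc
  simp only [sum_apply, smul_apply, hv', smul_eq_mul, zero_apply] at h2
  simpa [Pi.single_apply] using h2

theorem TNZ_list_deg (l : List (V →L[ℝ] ℝ)) : (l.map io).prod ∈ deg V l.length := by
  induction l with
  | nil => simpa using one_mem_deg
  | cons θ l ih =>
    rw [List.map_cons, List.prod_cons, List.length_cons, add_comm]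
    exact mul_mem_deg (io_mem_deg θ) ih

theorem TNZ_exists_list {a : Lam V} (ha : a ∈ deg V (Module.finrank ℝ V)) (h : top a ≠ 0) :
    ∃ (l : List (V →L[ℝ] ℝ)) (c : ℝ), l.length = Module.finrank ℝ V ∧
      (∀ v, (∀ θ ∈ l, θ v = 0) → v = 0) ∧ c ≠ 0 ∧ a = c • (l.map io).prod := by
  have hl : (List.ofFn (cob V)).length = Module.finrank ℝ V := List.length_ofFn
  have hk : ∀ v, (∀ θ ∈ List.ofFn (cob V), θ v = 0) → v = 0 := fun v hv => by
    refine (bas V).forall_coord_eq_zero_iff.1 fun i => ?_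
    have := hv (cob V i) (List.mem_ofFn.2 ⟨i, rfl⟩)
    simpa [cob] using this
  have h0 := TNZ_top_list _ hl hk
  refine ⟨_, top a / top ((List.ofFn (cob V)).map io).prod, hl, hk, div_ne_zero h h0, ?_⟩
  refine sub_eq_zero.1 (eq_zero_of_top (Submodule.sub_mem _ ha (Submodule.smul_mem _ _ ?_)) ?_)
  · have := TNZ_list_deg (List.ofFn (cob V))
    rwa [hl] at this
  · rw [map_sub, map_smul, smul_eq_mul, div_mul_cancel₀ _ h0, sub_self]

theorem TNZ_lmap_list (L : W →L[ℝ] V) (l : List (V →L[ℝ] ℝ)) :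
    lmap L (l.map io).prod = ((l.map fun θ => θ.comp L).map io).prod := by
  rw [map_list_prod, List.map_map, List.map_map]
  exact congrArg List.prod (List.map_congr_left fun θ _ => lmap_io L θ)

theorem TNZ_top3 {L1 L2 : W →L[ℝ] V} {r : W →L[ℝ] ℝ}
    (hd : Module.finrank ℝ W = 2 * Module.finrank ℝ V + 1)
    (hi : ∀ w, L1 w = 0 → L2 w = 0 → r w = 0 → w = 0) {a1 a2 : Lam V}
    (d1 : a1 ∈ deg V (Module.finrank ℝ V)) (d2 : a2 ∈ deg V (Module.finrank ℝ V))
    (t1 : top a1 ≠ 0) (t2 : top a2 ≠ 0) : top (lmap L1 a1 * lmap L2 a2 * io r) ≠ 0 := by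
  obtain ⟨l1, c1, n1, k1, h1, rfl⟩ := TNZ_exists_list d1 t1
  obtain ⟨l2, c2, n2, k2, h2, rfl⟩ := TNZ_exists_list d2 t2
  have h := TNZ_top_list ((l1.map fun θ => θ.comp L1) ++ (l2.map fun θ => θ.comp L2) ++ [r])
    (by simp [n1, n2, hd]; ring) fun w hw => hi w
      (k1 _ fun θ hθ => hw (θ.comp L1) (List.mem_append_left _ (List.mem_append_left _
        (List.mem_map.2 ⟨θ, hθ, rfl⟩))))
      (k2 _ fun θ hθ => hw (θ.comp L2) (List.mem_append_left _ (List.mem_append_right _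
        (List.mem_map.2 ⟨θ, hθ, rfl⟩))))
      (hw r (List.mem_append_right _ (List.mem_singleton_self r)))
  rw [List.map_append, List.map_append, List.prod_append, List.prod_append, List.map_singleton,
    List.prod_singleton] at h
  rw [map_smul, map_smul, TNZ_lmap_list, TNZ_lmap_list, smul_mul_smul_comm, smul_mul_assoc,
    map_smul, smul_eq_mul]
  exact mul_ne_zero (mul_ne_zero h1 h2) h

theorem TNZ_swap (θ θ' : V →L[ℝ] ℝ) (a : Lam V) : io θ * (io θ' * a) = -(io θ' * (io θ * a)) := by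
  rw [← mul_assoc, io_anti, neg_mul, mul_assoc]

theorem TNZ_perm (a b c e f : V →L[ℝ] ℝ) {X Y : Lam V} (hX : ∀ r, Commute X r)
    (hY : ∀ r, Commute Y r) :
    io a * io b * io c * io e * io f * (X * Y) =
      -(io a * io f * X * (io c * io e * Y) * io b) := by
  have h1 : io a * io f * X * (io c * io e * Y) * io b =
      io a * (io f * (io c * (io e * (io b * (X * Y))))) := by
    simp only [mul_assoc]
    rw [(hY (io b)).eq, (hX (io c * (io e * (io b * Y)))).eq]
    simp only [mul_assoc]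
    rw [(hX Y).eq]
  rw [h1]
  simp only [mul_assoc]
  rw [TNZ_swap e f, TNZ_swap e b]
  simp only [mul_neg]
  rw [TNZ_swap c f, TNZ_swap c b]
  simp only [mul_neg, neg_neg]
  rw [TNZ_swap b f, mul_neg]

theorem TNZ_ctr_mul {v : V} {a b : Lam V} (ha : ctr v a = 0) (hb : ctr v b = 0) :
    ctr v (a * b) = 0 := by
  rw [ctr_mul, ha, hb, zero_mul, mul_zero, add_zero]

theorem TNZ_ctr_pow {v : V} {a : Lam V} (ha : ctr v a = 0) (k : ℕ) : ctr v (a ^ k) = 0 := by
  induction k with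
  | zero => simpa using ctr_algebraMap v 1
  | succ k ih => rw [pow_succ]; exact TNZ_ctr_mul ih ha

variable {U : Opens V}

theorem TNZ_d_mul {a b : Om U} (ha : d a = 0) (hb : d b = 0) : d (a * b) = 0 := by
  rw [d_mul, ha, hb, zero_mul, mul_zero, add_zero]

theorem TNZ_d_pow {a : Om U} (ha : d a = 0) (k : ℕ) : d (a ^ k) = 0 := by
  induction k with
  | zero => simpa using d_one
  | succ k ih => rw [pow_succ]; exact TNZ_d_mul ih ha

theorem TNZ_ev_snd (γ : Om U) (t : ℝ) {x : V} (hx : x ∈ U) :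
    ev (pull (SMap.snd ⊤ U) γ) (t, x) = lmap (ContinuousLinearMap.snd ℝ ℝ V) (ev γ x) := by
  rw [ev_pull _ _ (show (t, x) ∈ cyl U from ⟨trivial, hx⟩)]
  exact congrArg (fun L => lmap L (ev γ x)) fderiv_snd

theorem TNZ_ev_slc (γ : Om (cyl U)) (t : ℝ) {x : V} (hx : x ∈ U) :
    ev (pull (SMap.slc U t) γ) x = lmap (ContinuousLinearMap.inr ℝ ℝ V) (ev γ (t, x)) := by
  rw [ev_pull _ _ hx]
  exact congrArg (fun L => lmap L (ev γ (t, x))) (hasFDerivAt_prodMk_right t x).fderiv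

/-- Fibre integrand in terms of the top coefficient on the cylinder. -/
theorem TNZ_fibre : ∃ κ : ℝ, κ ≠ 0 ∧ ∀ (a : Lam V) (b : Lam (ℝ × V)), invol a = -a →
    top (a * lmap (ContinuousLinearMap.inr ℝ ℝ V) (ctr ((1 : ℝ), (0 : V)) b)) =
      κ * top (lmap (ContinuousLinearMap.snd ℝ ℝ V) a * b) := by
  obtain ⟨κ, hκ, h⟩ := top_fibre (V := V)
  refine ⟨-κ, neg_ne_zero.2 hκ, fun a b ha => ?_⟩
  have h1 : ctr ((1 : ℝ), (0 : V)) (lmap (ContinuousLinearMap.snd ℝ ℝ V) a) = 0 := by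
    rw [ctr_lmap]; simp
  have h2 := h (lmap (ContinuousLinearMap.snd ℝ ℝ V) a * b)
  rw [ctr_mul, h1, zero_mul, zero_add, invol_lmap, ha, map_neg, neg_mul, map_neg, map_neg,
    map_mul, ← lmap_comp, ContinuousLinearMap.snd_comp_inr, lmap_id] at h2
  linarith

theorem TNZ_sign {X : Type} [TopologicalSpace X] {s : Set X} (hs : IsPreconnected s) {f : X → ℝ}
    (hf : ContinuousOn f s) (h : ∀ x ∈ s, f x ≠ 0) : ∃ c : ℝ, ∀ x ∈ s, 0 < c * f x := by
  by_cases h1 : ∀ x ∈ s, 0 < f x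
  · exact ⟨1, by simpa using h1⟩
  · push Not at h1
    obtain ⟨a, ha, h1⟩ := h1
    refine ⟨-1, fun b hb => ?_⟩
    by_contra h2
    obtain ⟨x, hx, h3⟩ := hs.intermediate_value ha hb hf (⟨h1, by linarith⟩ : (0 : ℝ) ∈ Icc _ _)
    exact h x hx h3

omit [FiniteDimensional ℝ V] in
/-- Directional derivative computed along a line. -/
theorem TNZ_line {f : V → ℝ} {x v : V} (hf : DifferentiableAt ℝ f x) {φ : ℝ → ℝ} {a : ℝ}
    (hφ : HasDerivAt φ a 0) (h : ∀ᶠ s in 𝓝 (0 : ℝ), f (x + s • v) = φ s) :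
    fderiv ℝ f x v = a := by
  have h1 : HasDerivAt (fun s : ℝ => x + s • v) v 0 := by
    simpa using ((hasDerivAt_id (0 : ℝ)).smul_const v).const_add x
  have h2 : HasDerivAt (fun s : ℝ => f (x + s • v)) (fderiv ℝ f x v) 0 :=
    HasFDerivAt.comp_hasDerivAt_of_eq (0 : ℝ) hf.hasFDerivAt h1 (by simp)
  exact h2.unique (hφ.congr_of_eventuallyEq h)

end Alg

variable {n : ℕ}

theorem TNZ_comm {W : Type} [NormedAddCommGroup W] [NormedSpace ℝ W] [FiniteDimensional ℝ W]
    (L : W →L[ℝ] E n) {z : E n} (hz : z ≠ 0) (a : Lam W) :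
    Commute (lmap L (ev (d (Theta n)) z)) a := by
  rw [Theta, ev_d_one1 _ _ (show z ∈ UE n from hz), lmap_dop_io]
  exact commute_dop_io _ a

theorem TNZ_vol_deg {z : E n} (hz : z ≠ 0) :
    io (rhL z) * io (thL z) * ev (d (Theta n)) z ^ n ∈ deg (E n) (Module.finrank ℝ (E n)) := by
  rw [finrank_E, show 2 * n + 2 = 1 + 1 + 2 * n by ring, Theta,
    ev_d_one1 _ _ (show z ∈ UE n from hz)]
  exact mul_mem_deg (mul_mem_deg (io_mem_deg _) (io_mem_deg _)) (pow_mem_deg (dop_io_mem_deg _) n)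

theorem TNZ_ev_Th0 {x : VV n} (hx : x ∈ OO n) :
    ev (Th0 n) x = io ((thL x.1).comp (ContinuousLinearMap.fst ℝ (E n) (E n))) := by
  rw [Th0, ev_pull_theta _ (show x ∈ UO n from hx)]
  exact congrArg (fun L => io ((thL x.1).comp L)) fderiv_fst

theorem TNZ_ev_x0 {x : VV n} (hx : x ∈ OO n) :
    ev (x0 n) x = lmap (ContinuousLinearMap.fst ℝ (E n) (E n)) (ev (d (Theta n)) x.1) := by
  rw [x0, Th0, d_pull, ev_pull _ _ (show x ∈ UO n from hx)]
  exact congrArg (fun L => lmap L (ev (d (Theta n)) x.1)) fderiv_fst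

theorem TNZ_x0_pow : x0 n ^ (n + 1) = 0 := by
  rw [x0, Th0, d_pull, ← map_pow, dTheta_pow, map_zero]

theorem TNZ_df1 {x : VV n} (hx : x ∈ OO n) : fderiv ℝ (fun x : VV n => Real.log ‖x.1‖) x =
    (rhL x.1).comp (ContinuousLinearMap.fst ℝ (E n) (E n)) :=
  ((hasFDerivAt_log_norm hx.1).comp x hasFDerivAt_fst).fderiv

theorem TNZ_diff {f : VV n → ℝ} (hf : ContDiffOn ℝ ∞ f (UO n)) {x : VV n} (hx : x ∈ OO n) :
    DifferentiableAt ℝ f x :=
  (hf.contDiffAt (isOpen_OO.mem_nhds hx)).differentiableAt (by simp)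

theorem TNZ_nu_line (x : VV n) (u : E n) (s : ℝ) :
    nu (x + s • ((0 : E n), u)).1 (x + s • ((0 : E n), u)).2 = nu x.1 x.2 + s * nu x.1 u := by
  simp only [Prod.fst_add, Prod.snd_add, Prod.smul_mk, smul_zero, add_zero, nu, map_add, map_smul,
    Complex.real_smul]

theorem TNZ_df3 {x : VV n} (hx : x ∈ OO n) (u : E n) :
    fderiv ℝ (fun x : VV n => (nu x.1 x.2).re) x (0, u) = (nu x.1 u).re := by
  refine TNZ_line (TNZ_diff smooth_f3 hx) (φ := fun s => (nu x.1 x.2).re + s * (nu x.1 u).re)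
    (by simpa using ((hasDerivAt_id (0 : ℝ)).mul_const (nu x.1 u).re).const_add (nu x.1 x.2).re)
    (Eventually.of_forall fun s => ?_)
  rw [TNZ_nu_line]; simp

theorem TNZ_df4 {x : VV n} (hx : x ∈ OO n) (u : E n) :
    fderiv ℝ (fun x : VV n => (nu x.1 x.2).im) x (0, u) = (nu x.1 u).im := by
  refine TNZ_line (TNZ_diff smooth_f4 hx) (φ := fun s => (nu x.1 x.2).im + s * (nu x.1 u).im)
    (by simpa using ((hasDerivAt_id (0 : ℝ)).mul_const (nu x.1 u).im).const_add (nu x.1 x.2).im)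
    (Eventually.of_forall fun s => ?_)
  rw [TNZ_nu_line]; simp

theorem TNZ_df2 {s : VV n → ℝ} (hs : Adm s) {x : VV n} (hx : x ∈ OO n) (c : ℂ) (a : ℝ) :
    fderiv ℝ (fun x => Real.log (s x)) x (0, c • x.1 + a • x.2) = a := by
  have h0 : HasDerivAt (fun r : ℝ => 1 + r * a) a 0 := by
    simpa using ((hasDerivAt_id (0 : ℝ)).mul_const a).const_add 1
  refine TNZ_line (TNZ_diff hs.smooth_f2 hx) (φ := fun r => Real.log (1 + r * a) + Real.log (s x))
    (by simpa using (h0.log (by simp)).add_const (Real.log (s x))) ?_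
  have h1 : ∀ᶠ r in 𝓝 (0 : ℝ), 0 < 1 + r * a :=
    h0.continuousAt.eventually (lt_mem_nhds (by simp))
  filter_upwards [h1] with r hr
  have h2 : x + r • ((0 : E n), c • x.1 + a • x.2) = act 1 (1 + r * a) (r * c) x := by
    refine Prod.ext (by simp [act]) ?_
    simp only [act, Prod.snd_add, Prod.smul_mk, one_smul, smul_add, add_smul, mul_smul,
      Complex.coe_smul]
    abel
  rw [h2, hs.hom _ _ _ _ one_ne_zero hr hx, Real.log_mul hr.ne' (hs.pos x hx).ne']

/-- The product of the four weights. -/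
def TNZ_w (s : VV n → ℝ) (x : VV n) : ℝ :=
  wt (Real.log ‖x.1‖) * wt (Real.log (s x)) * wt (nu x.1 x.2).re * wt (nu x.1 x.2).im

/-- The five-form without weights. -/
def TNZ_five {s : VV n → ℝ} (hs : Adm s) : Om (UO n) :=
  d (fn _ smooth_f1) * d (fn _ hs.smooth_f2) * d (fn _ smooth_f3) * d (fn _ smooth_f4) * Th0 n

theorem TNZ_ev_five {s : VV n → ℝ} (hs : Adm s) {x : VV n} (hx : x ∈ OO n) :
    ev (TNZ_five hs) x = io ((rhL x.1).comp (ContinuousLinearMap.fst ℝ (E n) (E n))) *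
      io (fderiv ℝ (fun x => Real.log (s x)) x) *
      io (fderiv ℝ (fun x : VV n => (nu x.1 x.2).re) x) *
      io (fderiv ℝ (fun x : VV n => (nu x.1 x.2).im) x) *
      io ((thL x.1).comp (ContinuousLinearMap.fst ℝ (E n) (E n))) := by
  have hx' : x ∈ UO n := hx
  simp only [TNZ_five, ev_mul, ev_d_fn _ _ hx', TNZ_ev_Th0 hx, TNZ_df1 hx]

theorem TNZ_ev_wg {s : VV n → ℝ} (hs : Adm s) {x : VV n} (hx : x ∈ OO n) :
    ev (wg hs) x = TNZ_w s x • ev (TNZ_five hs) x := by
  have hx' : x ∈ UO n := hx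
  simp only [wg, TNZ_five, TNZ_w, ev_mul, ev_d_fn _ _ hx', ev_dst _ _ hx]
  rw [smul_mul_smul_comm, smul_mul_smul_comm, smul_mul_smul_comm, smul_mul_assoc]

theorem TNZ_invol_five {s : VV n → ℝ} (hs : Adm s) {x : VV n} (hx : x ∈ OO n) :
    invol (ev (TNZ_five hs) x) = -ev (TNZ_five hs) x := by
  rw [TNZ_ev_five hs hx]
  simp only [map_mul, invol_io, neg_mul, mul_neg, neg_neg]

theorem TNZ_w_nonneg (s : VV n → ℝ) (x : VV n) : 0 ≤ TNZ_w s x :=
  mul_nonneg (mul_nonneg (mul_nonneg (wt_nonneg _) (wt_nonneg _)) (wt_nonneg _)) (wt_nonneg _)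

theorem TNZ_w_cont {s : VV n → ℝ} (hs : Adm s) : ContinuousOn (TNZ_w s) (OO n) := by
  have h := contDiff_wt.continuous
  exact (((h.comp_continuousOn smooth_f1.continuousOn).mul
    (h.comp_continuousOn hs.smooth_f2.continuousOn)).mul
    (h.comp_continuousOn smooth_f3.continuousOn)).mul (h.comp_continuousOn smooth_f4.continuousOn)

theorem TNZ_OO_nonempty (hn : 1 ≤ n) : (OO n).Nonempty := by
  have h01 : (0 : Fin (n + 1)) ≠ ⟨1, by omega⟩ := by simp [Fin.ext_iff]
  refine ⟨(EuclideanSpace.single 0 1, EuclideanSpace.single ⟨1, by omega⟩ 1), fun h => ?_,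
    fun c h => ?_⟩
  · have := congrArg (fun v : E n => v 0) h
    simp at this
  · have := congrArg (fun v : E n => v ⟨1, by omega⟩) h
    simp at this

theorem TNZ_w_pos (hn : 1 ≤ n) {s : VV n → ℝ} (hs : Adm s) : ∃ x ∈ OO n, 0 < TNZ_w s x := by
  obtain ⟨r, hr⟩ : ∃ r, wt r ≠ 0 := by
    by_contra h
    push Not at h
    have := integral_wt
    simp [h] at this
  have hr' : 0 < wt r := lt_of_le_of_ne (wt_nonneg r) hr.symm
  obtain ⟨x, hx⟩ := TNZ_OO_nonempty hn
  have hz : 0 < ‖x.1‖ := norm_pos_iff.2 hx.1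
  have hp := hs.pos x hx
  have hl : ((Real.exp r / ‖x.1‖ : ℝ) : ℂ) ≠ 0 := by
    exact_mod_cast (div_pos (Real.exp_pos r) hz).ne'
  have hm : 0 < Real.exp r / s x := div_pos (Real.exp_pos r) hp
  refine ⟨act _ _ (r + r * Complex.I - (Real.exp r / s x : ℝ) * nu x.1 x.2) x,
    act_mem _ hl hm hx, ?_⟩
  have h1 : ∀ m c, ‖(act ((Real.exp r / ‖x.1‖ : ℝ) : ℂ) m c x).1‖ = Real.exp r := fun m c => by
    simp only [act]
    rw [norm_smul, Complex.norm_real, Real.norm_of_nonneg (div_pos (Real.exp_pos r) hz).le,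
      div_mul_cancel₀ _ hz.ne']
  have h2 : ∀ (l : ℂ) (m : ℝ) c, l ≠ 0 →
      nu (act l m c x).1 (act l m c x).2 = m * nu x.1 x.2 + c := fun l m c hl => by
    simp only [act]
    rw [nu_smul_smul hl, nu_add, nu_smul, nu_self hx.1, ← Complex.coe_smul, nu_smul, mul_one]
  rw [TNZ_w, h1, h2 _ _ _ hl, hs.hom _ _ _ _ hl hm hx, div_mul_cancel₀ _ hp.ne', Real.log_exp,
    add_sub_cancel]
  simp only [Complex.add_re, Complex.ofReal_re, Complex.mul_re, Complex.I_re, Complex.ofReal_im,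
    Complex.I_im, Complex.add_im, Complex.mul_im, mul_zero, sub_zero, add_zero, mul_one,
    zero_add]
  positivity

/-- A form on the cylinder whose top coefficient against the five-form has no zeros has a
non-zero fibre integral. -/
theorem TNZ_II_J (hn : 1 ≤ n) {s : VV n → ℝ} (hs : Adm s) (γ : Om (cyl (UO n))) {b : ℝ}
    (hb : 0 < b) (h : ∀ t ∈ Ioo 0 b, ∀ x ∈ OO n,
      top (ev (pull (SMap.snd ⊤ (UO n)) (TNZ_five hs) * γ) (t, x)) ≠ 0) :
    II hs (J 0 b γ) ≠ 0 := by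
  obtain ⟨κ, hκ, hfib⟩ := TNZ_fibre (V := VV n)
  have hsm : ContinuousOn (ev (pull (SMap.snd ⊤ (UO n)) (TNZ_five hs) * γ)) (cyl (UO n)) :=
    ContDiffOn.continuousOn (Om.smooth _)
  obtain ⟨c, hc⟩ := TNZ_sign (s := Ioo 0 b ×ˢ OO n)
    (isPreconnected_Ioo.prod (isPreconnected_OO hn))
    (f := fun p => top (ev (pull (SMap.snd ⊤ (UO n)) (TNZ_five hs) * γ) p))
    ((top (V := ℝ × VV n)).continuous.comp_continuousOn (hsm.mono fun p hp => ⟨trivial, hp.2⟩))
    fun p hp => h p.1 hp.1 p.2 hp.2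
  have hval : ∀ t, ∀ x ∈ OO n, top (ev (wg hs * pull (SMap.slc (UO n) t) (dT γ)) x) =
      TNZ_w s x * (κ * top (ev (pull (SMap.snd ⊤ (UO n)) (TNZ_five hs) * γ) (t, x))) := by
    intro t x hx
    have hx' : x ∈ UO n := hx
    rw [ev_mul, ev_mul, TNZ_ev_wg hs hx, TNZ_ev_slc _ _ hx', TNZ_ev_snd _ _ hx', dT,
      ev_ctrF _ _ _ (show (t, x) ∈ cyl (UO n) from ⟨trivial, hx⟩), smul_mul_assoc, map_smul,
      hfib _ _ (TNZ_invol_five hs hx), smul_eq_mul]
  have hpos : ∀ t ∈ Ioo 0 b, 0 < c / κ * II hs (pull (SMap.slc (UO n) t) (dT γ)) := by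
    intro t ht
    have hv : ∀ x ∈ OO n, c / κ * top (ev (wg hs * pull (SMap.slc (UO n) t) (dT γ)) x) =
        TNZ_w s x * (c * top (ev (pull (SMap.snd ⊤ (UO n)) (TNZ_five hs) * γ) (t, x))) :=
      fun x hx => by rw [hval t x hx]; field_simp
    rw [II_apply, ← integral_const_mul, integral_pos_iff_support_of_nonneg (fun x => ?_)
      ((integrable_wg hs _).const_mul _)]
    · obtain ⟨x, hx, hw⟩ := TNZ_w_pos hn hs
      have hO : IsOpen (OO n ∩ TNZ_w s ⁻¹' Ioi 0) :=
        (TNZ_w_cont hs).isOpen_inter_preimage isOpen_OO isOpen_Ioi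
      refine (hO.measure_pos volume ⟨x, hx, hw⟩).trans_le (measure_mono fun y hy => ?_)
      rw [Function.mem_support, hv y hy.1]
      exact (mul_pos hy.2 (hc (t, y) ⟨ht, hy.1⟩)).ne'
    · by_cases hx : x ∈ OO n
      · exact (mul_nonneg (TNZ_w_nonneg s x) (hc (t, x) ⟨ht, hx⟩).le).trans_eq (hv x hx).symm
      · simp [ev_of_not_mem _ (show x ∉ UO n from hx)]
  have hint := intervalIntegral.intervalIntegral_pos_of_pos_on
    (f := fun t => c / κ * II hs (pull (SMap.slc (UO n) t) (dT γ)))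
    ((continuous_const.mul (continuous_II_slc hs (dT γ))).intervalIntegrable 0 b) hpos hb
  rw [intervalIntegral.integral_const_mul, ← II_Sl] at hint
  intro h0
  rw [show II hs (Sl 0 b (dT γ)) = 0 from h0, mul_zero] at hint
  exact lt_irrefl _ hint

end Pool.Agent.Work.MP_8c604c_gt
end
end

-- merged part: Pool.Agent.Work.MP_8c604c_gt.TNZ
section
/-!
Non-vanishing of the degree integral and its two consequences.
Hints. On the cylinder let Y = d (pull Z Theta), X = pull snd x0, tau = pull Z Theta - pull snd Th0 (basic, zero on the slice 0).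
d (tau X^n Y^(n-1)) = X^n Y^n, so T t1 = II (slice t1 of tau X^n Y^(n-1)) = II (J 0 t1 (X^n Y^n)) (homotopy, II_d).
The integrand is wt wt wt wt times R(t,x) = top of dlog|z| dlog s dnu1 dnu2 Th0 * slice (dT (X^n Y^n)), continuous, and nonzero where
u -> JH t x (0,u) has kernel Bs x: up to Lam.top_fibre it is the pull-back of vol * vol * dr under the linear isomorphism
D(z, exp(nu) Z, log s) from R x VV to E x E x R (top_vol_ne, top_lmap_equiv, al_inv; the tau term dies by top_horizontal).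
So R has a constant sign on (0,t1) x OO (isPreconnected_OO) and T t1 is not 0. For t1 = pi, Y = X on the slice (d_theta_line) and
x0^(2n-1) = 0. For t1 = pi/2 add d(f x0^n y^(n-1)) and use II_hor with v = (0,u).
-/

set_option maxSynthPendingDepth 3

open Set Filter Topology MeasureTheory
open scoped ContDiff

noncomputable section
namespace Pool.Agent.Work.MP_8c604c_gt

open Real

variable {n : ℕ} {g : Met n}

section Aux
open TopologicalSpace Lam Om

variable (G : Geo g) (h : IsMetric g)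

/-- The foot point of the flow as a map on the cylinder. -/
def TNZ_ZM : SMap (cyl (UO n)) (UE n) :=
  ⟨fun p => G.Z p.1 p.2, (G.contDiffOn_Z h).mono fun _ hp => hp.2, fun p hp => G.Z_ne h p.1 hp.2⟩

/-- The initial point as a map on the cylinder. -/
def TNZ_PM (n : ℕ) : SMap (cyl (UO n)) (UE n) := (fstM n).comp (SMap.snd ⊤ (UO n))

/-- The foot point at time `t`. -/
def TNZ_Zs (t : ℝ) : SMap (UO n) (UE n) := (TNZ_ZM G h).comp (SMap.slc (UO n) t)

/-- The transgression form. -/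
def TNZ_k : Om (cyl (UO n)) :=
  (pull (TNZ_ZM G h) (Theta n) - pull (TNZ_PM n) (Theta n)) * d (pull (TNZ_PM n) (Theta n)) ^ n *
    d (pull (TNZ_ZM G h) (Theta n)) ^ (n - 1)

theorem TNZ_PM_eq : pull (TNZ_PM n) (Theta n) = pull (SMap.snd ⊤ (UO n)) (Th0 n) :=
  pull_comp _ _ _

theorem TNZ_ZM_eqv : ∀ p ∈ WB, ∀ y ∈ cyl (UO n),
    (TNZ_ZM G h).toFun ((actB n).cyl.a.toFun (p, y)) = p.1 • (TNZ_ZM G h).toFun y :=
  fun p hp y hy => G.Z_eqv h y.1 p.1 p.2.1 p.2.2 y.2 hp.1 hp.2 hy.2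

theorem TNZ_k_basic : TNZ_k G h ∈ (actB n).cyl.Basic :=
  mul_mem (mul_mem (theta_sub_basic _ _ _ (fun _ _ _ _ => rfl) (TNZ_ZM_eqv G h))
    (pow_mem (d_theta_basic _ _ fun _ _ _ _ => rfl) _))
    (pow_mem (d_theta_basic _ _ (TNZ_ZM_eqv G h)) _)

theorem TNZ_d_k (hn : 1 ≤ n) : d (TNZ_k G h) =
    d (pull (TNZ_PM n) (Theta n)) ^ n * d (pull (TNZ_ZM G h) (Theta n)) ^ n := by
  have h1 : d (pull (TNZ_PM n) (Theta n)) ^ (n + 1) = 0 := by
    rw [d_pull, ← map_pow, dTheta_pow, map_zero]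
  have h2 : IsOne (pull (TNZ_ZM G h) (Theta n)) := (isOne_one1 _ _).pull _
  rw [TNZ_k, mul_assoc, d_mul, TNZ_d_mul (TNZ_d_pow (d_d _) _) (TNZ_d_pow (d_d _) _), mul_zero,
    add_zero, map_sub, sub_mul, ← mul_assoc (d (pull (TNZ_PM n) (Theta n))), ← pow_succ', h1,
    zero_mul, sub_zero, ← mul_assoc, (h2.commute_d _).eq, mul_assoc, ← pow_succ',
    Nat.sub_add_cancel hn]

theorem TNZ_slc_k (t : ℝ) : pull (SMap.slc (UO n) t) (TNZ_k G h) =
    (pull (TNZ_Zs G h t) (Theta n) - Th0 n) * x0 n ^ n *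
      d (pull (TNZ_Zs G h t) (Theta n)) ^ (n - 1) := by
  rw [TNZ_k, map_mul, map_mul, map_sub, map_pow, map_pow, ← d_pull, ← d_pull, TNZ_PM_eq,
    pull_slc_snd, TNZ_Zs, pull_comp, x0]

theorem TNZ_slc_zero : pull (SMap.slc (UO n) 0) (TNZ_k G h) = 0 := by
  have h1 : pull (TNZ_Zs G h 0) (Theta n) = Th0 n :=
    pull_congr (fun x hx => congrArg Prod.fst (G.psi_zero h hx)) _
  rw [TNZ_slc_k, h1, sub_self, zero_mul, zero_mul]

include h in
theorem TNZ_DZ (t : ℝ) {x : VV n} (hx : x ∈ OO n) (a : ℝ) (ξ : VV n) :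
    fderiv ℝ (fun p : ℝ × VV n => G.Z p.1 p.2) (t, x) (a, ξ) =
      a • vel g (G.psi t x) + G.JJ t x ξ := by
  have hd : HasFDerivAt (fun p : ℝ × VV n => G.Z p.1 p.2)
      (fderiv ℝ (fun p : ℝ × VV n => G.Z p.1 p.2) (t, x)) (t, x) :=
    (((G.contDiffOn_Z h).contDiffAt ((isOpen_OO.preimage continuous_snd).mem_nhds
      (show (t, x) ∈ Prod.snd ⁻¹' OO n from hx))).differentiableAt (by simp)).hasFDerivAt
  have h1 : HasDerivAt (fun s => G.Z s x)
      (fderiv ℝ (fun p : ℝ × VV n => G.Z p.1 p.2) (t, x) (1, 0)) t :=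
    HasFDerivAt.comp_hasDerivAt (f := fun s : ℝ => (s, x)) t hd
      ((hasDerivAt_id t).prodMk (hasDerivAt_const t x))
  have h2 : G.JJ t x = (fderiv ℝ (fun p : ℝ × VV n => G.Z p.1 p.2) (t, x)).comp
      (ContinuousLinearMap.inr ℝ ℝ (VV n)) :=
    (hd.comp x (hasFDerivAt_prodMk_right t x)).fderiv
  rw [← h1.unique (G.hasDerivAt_Z h t hx), h2, ← map_smul, ContinuousLinearMap.comp_apply,
    ← map_add]
  simp

theorem TNZ_top_ne (t : ℝ) {x : VV n} (hx : x ∈ OO n)
    (hk : ∀ u, G.JH t x (0, u) = 0 → u ∈ Bs x) :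
    top (ev (pull (SMap.snd ⊤ (UO n)) (TNZ_five h.adm) * (d (pull (TNZ_PM n) (Theta n)) ^ n *
      d (pull (TNZ_ZM G h) (Theta n)) ^ n)) (t, x)) ≠ 0 := by
  have hx' : x ∈ UO n := hx
  have hp : (t, x) ∈ cyl (UO n) := ⟨trivial, hx⟩
  have hZ := G.Z_ne h t hx
  set sn := ContinuousLinearMap.snd ℝ ℝ (VV n) with hsn
  set DZ := fderiv ℝ (fun p : ℝ × VV n => G.Z p.1 p.2) (t, x) with hDZ
  set f2 := fderiv ℝ (fun x => Real.log (spd g x)) x with hf2
  set f3 := fderiv ℝ (fun x : VV n => (nu x.1 x.2).re) x with hf3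
  set f4 := fderiv ℝ (fun x : VV n => (nu x.1 x.2).im) x with hf4
  let L1 : ℝ × VV n →L[ℝ] E n := (ContinuousLinearMap.fst ℝ (E n) (E n)).comp sn
  let L2 : ℝ × VV n →L[ℝ] E n := (horL (G.Z t x)).comp DZ + (f3.comp sn).smulRight (G.Z t x) +
    (f4.comp sn).smulRight (Complex.I • G.Z t x)
  have hL2 : ∀ w, L2 w = hor (G.Z t x) (DZ w) + (f3 w.2 + f4 w.2 * Complex.I : ℂ) • G.Z t x :=
    fun w => by
      rw [add_smul, mul_smul, Complex.coe_smul, Complex.coe_smul, ← add_assoc]; rfl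
  have hnu : ∀ w, nu (G.Z t x) (L2 w) = f3 w.2 + f4 w.2 * Complex.I := fun w => by
    rw [hL2, nu_add, nu_hor hZ, nu_smul, nu_self hZ, zero_add, mul_one]
  have e3 : (rhL (G.Z t x)).comp L2 = f3.comp sn := ContinuousLinearMap.ext fun w => by
    rw [ContinuousLinearMap.comp_apply, rhL_apply, hnu]; simp [hsn]
  have e4 : (thL (G.Z t x)).comp L2 = f4.comp sn := ContinuousLinearMap.ext fun w => by
    rw [ContinuousLinearMap.comp_apply, thL_apply, hnu]; simp [hsn]
  have eX : ev (d (pull (TNZ_PM n) (Theta n))) (t, x) = lmap L1 (ev (d (Theta n)) x.1) := by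
    rw [TNZ_PM_eq, d_pull, TNZ_ev_snd _ _ hx', ← x0, TNZ_ev_x0 hx, ← lmap_comp]
  have eY : ev (d (pull (TNZ_ZM G h) (Theta n))) (t, x) = lmap L2 (ev (d (Theta n)) (G.Z t x)) := by
    rw [d_pull, ev_pull _ _ hp]
    refine lmap_congr (S := (Submodule.span ℂ {G.Z t x}).restrictScalars ℝ) (fun w => ?_)
      fun w hw => ?_
    · refine Submodule.mem_span_singleton.2
        ⟨nu (G.Z t x) (DZ w) - (f3 w.2 + f4 w.2 * Complex.I), ?_⟩
      rw [hL2, hor_def, sub_smul]
      change _ = DZ w - _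
      abel
    · obtain ⟨c, rfl⟩ := Submodule.mem_span_singleton.1 hw
      exact ctr_dTheta hZ c
  have key := TNZ_top3 (L1 := L1) (L2 := L2) (r := f2.comp sn)
    (by simp only [Module.finrank_prod, Module.finrank_self]; ring) ?_
    (TNZ_vol_deg hx.1) (TNZ_vol_deg hZ) (top_vol_ne hx.1) (top_vol_ne hZ)
  · rw [ev_mul, ev_mul, ev_pow _ _ hp, ev_pow _ _ hp, eX, eY, TNZ_ev_snd _ _ hx',
      TNZ_ev_five _ hx]
    simp only [map_mul, lmap_io, map_pow, e3, e4] at key ⊢
    rw [TNZ_perm _ _ _ _ _ (fun r => (TNZ_comm L1 hx.1 r).pow_left n)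
      (fun r => (TNZ_comm L2 hZ r).pow_left n), map_neg, neg_ne_zero]
    exact key
  · rintro ⟨a, z, u⟩ h1 h2 h3
    obtain rfl : z = 0 := h1
    have h4 := hnu (a, 0, u)
    rw [h2, nu, map_zero, hf3, hf4, TNZ_df3 hx, TNZ_df4 hx, Complex.re_add_im] at h4
    have h5 := hL2 (a, 0, u)
    rw [h2, hf3, hf4, TNZ_df3 hx, TNZ_df4 hx, Complex.re_add_im, ← h4, zero_smul, add_zero] at h5
    have h6 : g (G.Z t x) (vel g (G.psi t x)) (hor (G.Z t x) (DZ (a, 0, u))) = a := by
      rw [h.hor_right hZ, hDZ, TNZ_DZ G h t hx, map_add, map_smul, G.al_inv h t hx]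
      have := h.vel_unit (G.psi_mem h t hx)
      rw [show g (G.Z t x) (vel g (G.psi t x)) (vel g (G.psi t x)) = 1 from this]
      simp [al]
    rw [← h5, map_zero] at h6
    subst h6
    rw [hDZ, TNZ_DZ G h t hx, zero_smul, zero_add] at h5
    obtain ⟨c, b, rfl⟩ := mem_Bs.1 (hk u h5.symm)
    obtain rfl : b = 0 := (TNZ_df2 h.adm hx c b).symm.trans h3
    rw [zero_smul, add_zero, nu_smul, nu_self hx.1, mul_one] at h4
    rw [← h4, zero_smul, zero_smul, add_zero]
    rfl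

theorem TNZ_main (hn : 1 ≤ n) {b : ℝ} (hb : 0 < b)
    (hk : ∀ t ∈ Ioo 0 b, ∀ x ∈ OO n, ∀ u, G.JH t x (0, u) = 0 → u ∈ Bs x) :
    II h.adm (pull (SMap.slc (UO n) b) (TNZ_k G h)) ≠ 0 := by
  have h1 := congrArg (II h.adm) (homotopy 0 b (TNZ_k G h))
  rw [TNZ_slc_zero, sub_zero, map_add, II_d _ ((actB n).J_mem (TNZ_k_basic G h) 0 b), zero_add,
    TNZ_d_k G h hn] at h1
  rw [← h1]
  exact TNZ_II_J hn _ _ hb fun t ht x hx => TNZ_top_ne G h t hx (hk t ht x hx)

end Aux

namespace Bl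
open Lam Om
variable {G : Geo g} (B : Bl g G)
include B

theorem exists_conj : ∃ x ∈ OO n, ∃ u ∉ Bs x, G.JH (π / 2) x (0, u) = 0 := by
  by_contra hc
  have h2 := B.two
  refine TNZ_main G B.met (by omega) pi_pos (fun t ht x hx u hu => ?_) ?_
  · by_cases hne : t = π / 2
    · by_contra hu'
      exact hc ⟨x, hx, u, hu', hne ▸ hu⟩
    · exact B.no_conj' hx ht hne hu
  · have h1 : d (pull (TNZ_Zs G B.met π) (Theta n)) = x0 n :=
      d_theta_line (fstM n) _ fun x hx => by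
        obtain ⟨c, hc⟩ := B.per x hx 0
        rw [zero_add, Geo.Z, Geo.Z, G.psi_zero B.met hx] at hc
        exact ⟨c, hc⟩
    rw [TNZ_slc_k, h1, mul_assoc, ← pow_add, show n + (n - 1) = n + 1 + (n - 2) by omega, pow_add,
      TNZ_x0_pow, zero_mul, mul_zero, map_zero]

theorem no_potential {f : VV n → ℝ} (hf : ContDiffOn ℝ ∞ f (OO n)) (hi : Inv f) :
    ¬ ∀ x ∈ OO n, ∃ u ∉ Bs x, G.JH (π / 2) x (0, u) = 0 ∧
      fderiv ℝ f x (0, u) + (nu (G.Z (π / 2) x) (G.JJ (π / 2) x (0, u))).im = 0 := by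
  intro hc
  have h2 := B.two
  have hf' : ContDiffOn ℝ ∞ f (UO n) := hf
  refine TNZ_main G B.met (by omega) (half_pos pi_pos) (fun t ht x hx u hu => B.no_conj hx ht hu) ?_
  have hZ : ∀ p ∈ WB, ∀ y ∈ UO n, (TNZ_Zs G B.met (π / 2)).toFun ((actB n).a.toFun (p, y)) =
      p.1 • (TNZ_Zs G B.met (π / 2)).toFun y :=
    fun p hp y hy => G.Z_eqv B.met (π / 2) p.1 p.2.1 p.2.2 y hp.1 hp.2 hy
  have b0 : x0 n ^ n * d (pull (TNZ_Zs G B.met (π / 2)) (Theta n)) ^ (n - 1) ∈ (actB n).Basic :=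
    mul_mem (pow_mem (d_theta_basic _ (fstM n) fun _ _ _ _ => rfl) _)
      (pow_mem (d_theta_basic _ _ hZ) _)
  have b1 : pull (TNZ_Zs G B.met (π / 2)) (Theta n) - Th0 n ∈ (actB n).Basic :=
    theta_sub_basic _ (fstM n) _ (fun _ _ _ _ => rfl) hZ
  have b2 := fn_basic hf' hi
  have e1 := II_d B.met.adm (mul_mem b2 b0)
  rw [d_mul, TNZ_d_mul (TNZ_d_pow (show d (x0 n) = 0 from d_d _) _) (TNZ_d_pow (d_d _) _),
    mul_zero, add_zero] at e1
  have e2 := II_hor B.met.adm (mul_mem (add_mem ((actB n).d_mem b2) b1) b0) fun x hx => ?_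
  · rw [add_mul, map_add, e1, zero_add] at e2
    rw [TNZ_slc_k, mul_assoc, e2]
  · obtain ⟨u, hu, h3, h4⟩ := hc x hx
    have hx' : x ∈ UO n := hx
    have hZ' := G.Z_ne B.met (π / 2) hx
    refine ⟨(0, u), fun hv => hu ?_, ?_⟩
    · obtain ⟨l, c, a, hv⟩ := mem_Bdir.1 hv
      have hl : l = 0 := (smul_eq_zero.1 (congrArg Prod.fst hv).symm).resolve_right hx.1
      rw [hl, zero_smul, zero_smul, zero_add] at hv
      exact mem_Bs.2 ⟨c, a, congrArg Prod.snd hv⟩
    · rw [ev_mul, ev_mul, ev_pow _ _ hx', ev_pow _ _ hx']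
      refine TNZ_ctr_mul ?_ (TNZ_ctr_mul (TNZ_ctr_pow ?_ _) (TNZ_ctr_pow ?_ _))
      · rw [ev_add, ev_sub, ev_d_fn _ _ hx', ev_pull_theta _ hx', TNZ_ev_Th0 hx, map_add, map_sub,
          ctr_io, ctr_io, ctr_io, ← map_sub, ← map_add]
        refine (congrArg _ ?_).trans (map_zero _)
        rw [← h4]
        simp only [ContinuousLinearMap.comp_apply, ContinuousLinearMap.coe_fst', map_zero, sub_zero]
        rfl
      · rw [TNZ_ev_x0 hx, ctr_lmap]
        simp
      · obtain ⟨c, hc⟩ := (hor_eq_zero_iff hZ' _).1 h3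
        rw [d_pull, ev_pull _ _ hx', ctr_lmap]
        exact (congrArg _ ((congrArg (fun v => ctr v _) hc).trans (ctr_dTheta hZ' c))).trans
          (map_zero _)

end Bl

end Pool.Agent.Work.MP_8c604c_gt
end
end
end

-- merged part: Pool.Agent.Work.MP_8c604c_gt.CircA
section
/-!
Multiplicity one, great circles, the winding number and the global field K.
Hints. exists_isK: kdim is constant, >= 4 by exists_conj; if >= 5 pick u in the kernel, not in Bs, with Im nu (JJ (0,u)) = 0 and contradict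
no_potential with f = 0. local_K: M x = Gram form of JH (pi/2) x (0, .) + penalty on Bs x is psd with kernel spanned by K;
k x = inverse (M x + K0 tensor K0) applied to K0-flat, then normalise. circle: integral curves of w' = K (z,w) (Picard-Lindelof) keep the line
of Z (pi/2); every unit w with the same end point is g-orthogonal to the (2n-2)-dimensional image of JH (pi/2) at the reversed geodesic
(Bl.orth), so lies in one fixed 2-plane; open-closed argument in sigma. exists_kdata: kappa (x,sigma) = nu (Z (pi/2) x) (Z (pi/2) (Rot sigma x)),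
a = integral of Im (kappa'/kappa), j(x,K) = a(2 pi)/(2 pi), j(x,-K) = -j(x,K), |j| locally constant. If j = 0 everywhere,
f = (1/2 pi) integral of a over [0, 2 pi] does not depend on the sign of K and contradicts no_potential. Orient K by j > 0.
-/

set_option maxSynthPendingDepth 3

open Set Filter Topology MeasureTheory
open scoped ContDiff

noncomputable section
namespace Pool.Agent.Work.MP_8c604c_gt

open Real

variable {n : ℕ} {g : Met n}

/-- Rotation of the initial direction in the plane spanned by the velocity and `K`. -/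
def Rot (g : Met n) (x : VV n) (K : E n) (σ : ℝ) : VV n := (x.1, cos σ • vel g x + sin σ • K)

theorem CircA_dim {V : Type} [AddCommGroup V] [Module ℝ V] [FiniteDimensional ℝ V]
    {N S : Submodule ℝ V} (φ : V →ₗ[ℝ] ℝ) (h : ∀ u ∈ N, φ u = 0 → u ∈ S) :
    Module.finrank ℝ N ≤ Module.finrank ℝ S + 1 := by
  have h1 := (φ.domRestrict N).finrank_range_add_finrank_ker
  have h2 := (LinearMap.range (φ.domRestrict N)).finrank_le
  have h3 : (LinearMap.ker (φ.domRestrict N)).map N.subtype ≤ S := by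
    rintro _ ⟨u, hu, rfl⟩
    exact h u u.2 hu
  have h4 := Submodule.finrank_mono h3
  rw [Submodule.finrank_map_subtype_eq] at h4
  rw [Module.finrank_self] at h2
  omega

theorem CircA_span {V : Type} [AddCommGroup V] [Module ℝ V] [FiniteDimensional ℝ V]
    {N S : Submodule ℝ V} (hS : S ≤ N) {K : V} (hK : K ∈ N) (hK' : K ∉ S)
    (h : Module.finrank ℝ N ≤ Module.finrank ℝ S + 1) {u : V} (hu : u ∈ N) :
    ∃ a : ℝ, u - a • K ∈ S := by
  have h1 : S < S ⊔ Submodule.span ℝ {K} := lt_of_le_of_ne le_sup_left fun e =>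
    hK' (e ▸ Submodule.mem_sup_right (Submodule.mem_span_singleton_self K))
  rw [← Submodule.eq_of_le_of_finrank_le
    (sup_le hS ((Submodule.span_singleton_le_iff_mem _ _).2 hK))
    (h.trans (Submodule.finrank_lt_finrank_of_lt h1))] at hu
  obtain ⟨s, hs, t, ht, rfl⟩ := Submodule.mem_sup.1 hu
  obtain ⟨a, rfl⟩ := Submodule.mem_span_singleton.1 ht
  exact ⟨a, by rwa [add_sub_cancel_right]⟩

theorem CircA_local {X V W : Type} [NormedAddCommGroup X] [NormedSpace ℝ X]
    [NormedAddCommGroup V] [NormedSpace ℝ V] [FiniteDimensional ℝ V]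
    [NormedAddCommGroup W] [NormedSpace ℝ W] [FiniteDimensional ℝ W] {O : Set X} (hO : IsOpen O)
    {L : X → V →L[ℝ] W} (hL : ∀ u, ContDiffOn ℝ ∞ (fun x => L x u) O) {x₀ : X} (hx : x₀ ∈ O)
    (φ : V →L[ℝ] ℝ) {K₀ : V} (h0 : L x₀ K₀ = 0) (h1 : φ K₀ = 1)
    (hi : ∀ u, L x₀ u = 0 → φ u = 0 → u = 0) :
    ∃ (U : Set X) (k : X → V), IsOpen U ∧ x₀ ∈ U ∧ U ⊆ O ∧ ContDiffOn ℝ ∞ k U ∧
      ∀ x ∈ U, ∀ K, K ≠ 0 → L x K = 0 → ∃ a : ℝ, a ≠ 0 ∧ k x = a • K := by
  have := FiniteDimensional.complete ℝ V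
  obtain ⟨P, hP⟩ := ContinuousLinearMap.HasLeftInverse.of_injective_of_finiteDimensional
    (f := (L x₀).prod φ) ((injective_iff_map_eq_zero _).2 fun u hu =>
      hi u (congrArg Prod.fst hu) (congrArg Prod.snd hu))
  have hM : ContDiffOn ℝ ∞ (fun x => P.comp ((L x).prod φ)) O :=
    contDiffOn_clm_apply.2 fun u => P.contDiff.comp_contDiffOn ((hL u).prodMk contDiffOn_const)
  refine ⟨O ∩ (fun x => P.comp ((L x).prod φ)) ⁻¹' range ((↑) : (V ≃L[ℝ] V) → V →L[ℝ] V),
    fun x => (P.comp ((L x).prod φ)).inverse K₀,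
    hM.continuousOn.isOpen_inter_preimage hO ContinuousLinearEquiv.isOpen,
    ⟨hx, .refl ℝ V, ContinuousLinearMap.ext fun u => (hP u).symm⟩, inter_subset_left,
    ContDiffOn.clm_apply (fun x hx => ?_) contDiffOn_const, fun x hx K hK hK' => ?_⟩
  · exact (ContinuousLinearMap.IsInvertible.contDiffAt_map_inverse hx.2).comp_contDiffWithinAt x
      ((hM x hx.1).mono inter_subset_left)
  · have hI : (P.comp ((L x).prod φ)).IsInvertible := hx.2
    have h2 : P.comp ((L x).prod φ) K = φ K • K₀ := by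
      rw [← hP K₀, ← map_smul]
      simp [h0, h1, hK']
    have h3 : φ K ≠ 0 := fun e => hK (hI.injective (by rw [h2, e, zero_smul, map_zero]))
    exact ⟨(φ K)⁻¹, inv_ne_zero h3, hI.inverse_apply_eq.2 (by
      rw [map_smul, h2, inv_smul_smul₀ h3])⟩

theorem CircA_nu_sub (z u w : E n) (a : ℝ) : nu z (u - a • w) = nu z u - a • nu z w := by
  rw [← nuL_apply, map_sub, map_smul]
  rfl

theorem CircA_zero (h : IsMetric g) {x : VV n} (hx : x ∈ OO n) {u : E n} (hu : u ∈ Bs x)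
    (h1 : nu x.1 u = 0) (h2 : g x.1 u x.2 = 0) : u = 0 := by
  obtain ⟨c, a, rfl⟩ := mem_Bs.1 hu
  rw [map_add, add_apply, h.vert c _ _ hx.1, zero_add, map_smul, smul_apply, smul_eq_mul] at h2
  rw [(mul_eq_zero.1 h2).resolve_right (h.pos _ _ hx.1 hx.2).ne', zero_smul, add_zero] at h1 ⊢
  rw [nu_smul, nu_self hx.1, mul_one] at h1
  rw [h1, zero_smul]

theorem CircA_eq {G : Geo g} (h : IsMetric g) {x : VV n} (hx : x ∈ OO n) {K u : E n}
    (hK : G.IsK x K) (h0 : G.JH (π / 2) x (0, u) = 0) (h1 : nu x.1 u = 0) (h2 : g x.1 u x.2 = 0) :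
    ∃ a : ℝ, u = a • K := by
  obtain ⟨a, ha⟩ := (hK.ker u).1 h0
  exact ⟨a, sub_eq_zero.1 (CircA_zero h hx ha (by rw [CircA_nu_sub, h1, hK.hor]; simp)
    (by simp [h2, hK.perp]))⟩

theorem CircA_self {G : Geo g} {x : VV n} {K : E n} (hK : G.IsK x K) :
    G.JH (π / 2) x (0, K) = 0 := (hK.ker K).2 ⟨1, by simp⟩

theorem CircA_Bs {x : VV n} {l : ℂ} {m : ℝ} (c : ℂ) (hl : l ≠ 0) (hm : 0 < m) {v : E n} :
    l • m • v ∈ Bs (act l m c x) ↔ v ∈ Bs x := by
  have hm' : (m : ℂ) ≠ 0 := Complex.ofReal_ne_zero.2 hm.ne'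
  simp only [mem_Bs, act, ← Complex.coe_smul]
  constructor
  · rintro ⟨d, a, e⟩
    refine ⟨(m : ℂ)⁻¹ * (d + a * c), a, smul_right_injective _ hm' (smul_right_injective _ hl
      (e.trans ?_))⟩
    match_scalars <;> field_simp
  · rintro ⟨d, a, rfl⟩
    exact ⟨m * d - a * c, a, by module⟩

theorem CircA_le {G : Geo g} (h : IsMetric g) {x : VV n} (hx : x ∈ OO n) {u : E n}
    (hu : u ∈ Bs x) : G.JH (π / 2) x (0, u) = 0 := by
  rw [Geo.JH, ContinuousLinearMap.comp_apply, G.JJ_Bs h _ hx hu, map_zero]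

theorem CircA_unit {z K : E n} (h : 0 < g z K K) :
    g z ((√(g z K K))⁻¹ • K) ((√(g z K K))⁻¹ • K) = 1 := by
  simp only [map_smul, smul_apply, smul_eq_mul]
  rw [← mul_assoc, ← mul_inv, Real.mul_self_sqrt h.le, inv_mul_cancel₀ h.ne']

theorem CircA_smul {G : Geo g} {x : VV n} {K : E n} (h1 : nu x.1 K = 0) (h2 : g x.1 K x.2 = 0)
    (h3 : ∀ u, G.JH (π / 2) x (0, u) = 0 ↔ ∃ a : ℝ, u - a • K ∈ Bs x) {a : ℝ} (ha : a ≠ 0)
    (h4 : g x.1 (a • K) (a • K) = 1) : G.IsK x (a • K) := by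
  refine ⟨by rw [← nuL_apply, map_smul, nuL_apply, h1, smul_zero], by simp [h2], h4, fun u => ?_⟩
  rw [h3]
  exact ⟨fun ⟨b, hb⟩ => ⟨b * a⁻¹, by rwa [smul_smul, inv_mul_cancel_right₀ ha]⟩,
    fun ⟨b, hb⟩ => ⟨b * a, by rwa [mul_smul]⟩⟩

theorem Geo.IsK.eq_or {G : Geo g} (h : IsMetric g) {x : VV n} (hx : x ∈ OO n) {K K' : E n}
    (hK : G.IsK x K) (hK' : G.IsK x K') : K' = K ∨ K' = -K := by
  obtain ⟨a, rfl⟩ := CircA_eq h hx hK (CircA_self hK') hK'.hor hK'.perp
  have h1 : a * a = 1 := by simpa [hK.unit] using hK'.unit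
  rcases mul_self_eq_one_iff.1 h1 with rfl | rfl <;> simp

theorem Geo.IsK.neg {G : Geo g} {x : VV n} {K : E n} (hK : G.IsK x K) : G.IsK x (-K) := by
  rw [← neg_one_smul ℝ]
  exact CircA_smul hK.hor hK.perp hK.ker (by simp) (by simpa using hK.unit)

theorem Geo.IsK.act {G : Geo g} (h : IsMetric g) {x : VV n} (hx : x ∈ OO n) {K : E n}
    (hK : G.IsK x K) {l : ℂ} {m : ℝ} (c : ℂ) (hl : l ≠ 0) (hm : 0 < m) :
    G.IsK (act l m c x) (l • K) := by
  refine ⟨(nu_smul_smul hl _ _).trans hK.hor, (h.inv l _ _ _ hl hx.1).trans ?_,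
    (h.inv l _ _ _ hl hx.1).trans hK.unit, fun u => ?_⟩
  · rw [map_add, map_smul, hK.perp, h.vert' c _ hx.1, smul_zero, add_zero]
  · obtain ⟨v, rfl⟩ : ∃ v, u = l • m • v :=
      ⟨m⁻¹ • l⁻¹ • u, by rw [smul_inv_smul₀ hm.ne', smul_inv_smul₀ hl]⟩
    have e : ((0, l • m • v) : VV n) = MP_8c604c_gt.act l m c (0, v) := by simp [MP_8c604c_gt.act]
    rw [e, Geo.JH, ContinuousLinearMap.comp_apply, G.JJ_act h _ c hl hm hx,
      G.Z_eqv h _ l m c x hl hm hx, horL_apply, hor_smul_left hl, hor_smul,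
      smul_eq_zero_iff_right hl]
    refine (hK.ker v).trans ⟨fun ⟨a, ha⟩ => ⟨m * a, ?_⟩, fun ⟨a, ha⟩ => ⟨m⁻¹ * a, ?_⟩⟩
    · convert (CircA_Bs c hl hm).2 ha using 1
      module
    · refine (CircA_Bs c hl hm).1 ?_
      rwa [smul_sub, smul_smul, mul_inv_cancel_left₀ hm.ne', smul_sub, smul_comm l a]

theorem Geo.IsK.rot {G : Geo g} (h : IsMetric g) {x : VV n} (hx : x ∈ OO n) {K : E n}
    (hK : G.IsK x K) (σ : ℝ) : Rot g x K σ ∈ OO n ∧ spd g (Rot g x K σ) = 1 ∧
      vel g (Rot g x K σ) = (Rot g x K σ).2 := by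
  have h1 : g x.1 K (vel g x) = 0 := by
    rw [vel, map_smul, h.hor_right hx.1, hK.perp, smul_zero]
  refine h.unit_mem hx.1 ?_ ?_
  · rw [← nuL_apply, map_add, map_smul, map_smul, nuL_apply, nuL_apply, h.nu_vel hx.1, hK.hor]
    simp
  · simp only [map_add, map_smul, add_apply, smul_apply,
      smul_eq_mul, h.vel_unit hx, hK.unit, h1, h.symm _ (vel g x) K hx.1]
    linarith [Real.cos_sq_add_sin_sq σ]

/-- The oriented conjugate direction. -/
structure KData (g : Met n) (G : Geo g) where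
  K : VV n → E n
  smooth : ContDiffOn ℝ ∞ K (OO n)
  isK : ∀ x ∈ OO n, G.IsK x (K x)
  eqv : Eqv K
  j : ℤ
  j_ne : j ≠ 0
  wind : ∀ x ∈ OO n, ∃ a : ℝ → ℝ, ContDiff ℝ ∞ a ∧ a 0 = 0 ∧
    (∀ σ, a (σ + 2 * π) = a σ + 2 * π * j) ∧
    ∀ σ, G.Z (π / 2) (Rot g x (K x) σ) = Complex.exp (a σ * Complex.I) • G.Z (π / 2) x

namespace Bl
variable {G : Geo g} (B : Bl g G)
include B

theorem CircA_kdim {x : VV n} (hx : x ∈ OO n) : G.kdim x = 4 := by
  refine le_antisymm (by_contra fun hlt => ?_) ?_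
  · refine B.no_potential (f := fun _ => 0) contDiffOn_const (fun _ _ _ _ _ _ _ => rfl)
      fun y hy => by_contra fun hc => hlt ?_
    rw [B.kdim_const hx hy, show 4 = 3 + 1 from rfl, ← finrank_Bs hy]
    refine CircA_dim ((thL (G.Z (π / 2) y)).comp ((G.JJ (π / 2) y).comp
      (ContinuousLinearMap.inr ℝ (E n) (E n)))).toLinearMap fun u hu h0 => by_contra fun h1 => ?_
    exact hc ⟨u, h1, hu, by rw [fderiv_fun_const]; exact (zero_add _).trans h0⟩
  · obtain ⟨y, hy, u, h1, h2⟩ := B.exists_conj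
    rw [B.kdim_const hx hy, show 4 = 3 + 1 from rfl, ← finrank_Bs hy]
    exact Submodule.finrank_lt_finrank_of_lt (lt_of_le_of_ne (fun v hv => CircA_le B.met hy hv)
      fun e => h1 (e ▸ h2))

theorem exists_isK : ∀ x ∈ OO n, ∃ K, G.IsK x K := by
  intro x hx
  have h := B.met
  have hk := B.CircA_kdim hx
  have hw := h.pos _ _ hx.1 hx.2
  let N := LinearMap.ker
    ((G.JH (π / 2) x).comp (ContinuousLinearMap.inr ℝ (E n) (E n)) : E n →ₗ[ℝ] E n)
  have hN : Bs x ≤ N := fun v hv => CircA_le h hx hv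
  obtain ⟨u, h1, h2⟩ : ∃ u ∈ N, u ∉ Bs x := by
    by_contra hc
    have := Submodule.finrank_mono (show N ≤ Bs x from fun u hu => by_contra fun h => hc ⟨u, hu, h⟩)
    rw [finrank_Bs hx, show Module.finrank ℝ N = 4 from hk] at this
    omega
  obtain ⟨K, h3, h4, h5⟩ : ∃ K, u - K ∈ Bs x ∧ nu x.1 K = 0 ∧ g x.1 K x.2 = 0 := by
    refine ⟨hor x.1 (u - (g x.1 u x.2 / g x.1 x.2 x.2) • x.2), mem_Bs.2 ⟨_, _, by
      rw [hor_def, sub_sub, sub_sub_cancel, add_comm]⟩, nu_hor hx.1 _, ?_⟩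
    rw [h.hor_left hx.1]
    simp [hw.ne']
  have h6 : K ∉ Bs x := fun hK => h2 (by simpa using (Bs x).add_mem h3 hK)
  have h7 : K ∈ N := by simpa using N.sub_mem h1 (hN h3)
  have h8 : 0 < g x.1 K K := h.pos _ _ hx.1 fun c e => h6 (mem_Bs.2 ⟨c, 0, by simpa⟩)
  refine ⟨_, CircA_smul h4 h5 (fun v => ⟨fun hv => CircA_span hN h7 h6 ?_ hv, fun ⟨a, ha⟩ => ?_⟩)
    (inv_ne_zero (Real.sqrt_pos.2 h8).ne') (CircA_unit h8)⟩
  · rw [finrank_Bs hx]
    exact hk.le
  · have h9 : v ∈ N := by simpa using N.add_mem (hN ha) (N.smul_mem a h7)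
    exact h9

theorem local_K {x₀ : VV n} (hx : x₀ ∈ OO n) : ∃ (U : Set (VV n)) (k : VV n → E n),
    IsOpen U ∧ x₀ ∈ U ∧ U ⊆ OO n ∧ ContDiffOn ℝ ∞ k U ∧ ∀ x ∈ U, G.IsK x (k x) := by
  have h := B.met
  obtain ⟨K₀, hK⟩ := B.exists_isK x₀ hx
  have hg : ContDiffOn ℝ ∞ (fun x : VV n => g x.1) (OO n) :=
    h.smooth.comp contDiffOn_fst fun x hx => hx.1
  obtain ⟨U, k, h1, h2, h3, h4, h5⟩ := CircA_local isOpen_OO
    (L := fun x : VV n => ((G.JH (π / 2) x).comp (ContinuousLinearMap.inr ℝ (E n) (E n))).prod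
      ((nuL x.1).prod ((g x.1).flip x.2)))
    (fun u => (((G.contDiffOn_JH h).comp (contDiffOn_const.prodMk contDiffOn_id)
      fun x hx => hx).clm_apply contDiffOn_const).prodMk
      (((contDiffOn_nuL.comp contDiffOn_fst fun x hx => hx.1).clm_apply contDiffOn_const).prodMk
        ((hg.clm_apply contDiffOn_const).clm_apply contDiffOn_snd)))
    hx (g x₀.1 K₀) (Prod.ext (CircA_self hK) (Prod.ext hK.hor hK.perp)) hK.unit
    fun u hu h0 => by
      obtain ⟨a, rfl⟩ := CircA_eq h hx hK (congrArg Prod.fst hu)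
        (congrArg (fun p => p.2.1) hu) (congrArg (fun p => p.2.2) hu)
      rw [map_smul, hK.unit, smul_eq_mul, mul_one] at h0
      rw [h0, zero_smul]
  have key : ∀ x ∈ U, 0 < g x.1 (k x) (k x) ∧ G.IsK x ((√(g x.1 (k x) (k x)))⁻¹ • k x) := by
    intro x hx
    obtain ⟨K, hK⟩ := B.exists_isK x (h3 hx)
    obtain ⟨a, ha, e⟩ := h5 x hx K (fun e => by simpa [e] using hK.unit)
      (Prod.ext (CircA_self hK) (Prod.ext hK.hor hK.perp))
    have h6 : 0 < g x.1 (k x) (k x) := by simpa [e, hK.unit] using ha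
    have h7 := CircA_unit h6
    refine ⟨h6, ?_⟩
    generalize hb : (√(g x.1 (k x) (k x)))⁻¹ = b at h7
    rw [e, smul_smul] at h7 ⊢
    exact CircA_smul hK.hor hK.perp hK.ker
      (mul_ne_zero (hb ▸ inv_ne_zero (Real.sqrt_pos.2 h6).ne') ha) h7
  refine ⟨U, _, h1, h2, h3, ContDiffOn.smul (ContDiffOn.inv (ContDiffOn.sqrt
    (((hg.mono h3).clm_apply h4).clm_apply h4) fun x hx => (key x hx).1.ne')
    fun x hx => (Real.sqrt_pos.2 (key x hx).1).ne') h4, fun x hx => (key x hx).2⟩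

end Bl

end Pool.Agent.Work.MP_8c604c_gt
end
end

-- merged part: Pool.Agent.Work.MP_8c604c_gt.CircB
section
/-!
Multiplicity one, great circles, the winding number and the global field K.
Hints. exists_isK: kdim is constant, >= 4 by exists_conj; if >= 5 pick u in the kernel, not in Bs, with Im nu (JJ (0,u)) = 0 and contradict
no_potential with f = 0. local_K: M x = Gram form of JH (pi/2) x (0, .) + penalty on Bs x is psd with kernel spanned by K;
k x = inverse (M x + K0 tensor K0) applied to K0-flat, then normalise. circle: integral curves of w' = K (z,w) (Picard-Lindelof) keep the line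
of Z (pi/2); every unit w with the same end point is g-orthogonal to the (2n-2)-dimensional image of JH (pi/2) at the reversed geodesic
(Bl.orth), so lies in one fixed 2-plane; open-closed argument in sigma. exists_kdata: kappa (x,sigma) = nu (Z (pi/2) x) (Z (pi/2) (Rot sigma x)),
a = integral of Im (kappa'/kappa), j(x,K) = a(2 pi)/(2 pi), j(x,-K) = -j(x,K), |j| locally constant. If j = 0 everywhere,
f = (1/2 pi) integral of a over [0, 2 pi] does not depend on the sign of K and contradicts no_potential. Orient K by j > 0.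
-/

set_option maxSynthPendingDepth 3

open Set Filter Topology MeasureTheory
open scoped ContDiff

noncomputable section
namespace Pool.Agent.Work.MP_8c604c_gt

open Real

variable {n : ℕ} {g : Met n}

theorem CircB_const {W : Type} [NormedAddCommGroup W] [NormedSpace ℝ W] {F : ℝ → W}
    (h : ∀ᶠ s in 𝓝 (0 : ℝ), HasDerivAt F 0 s) : ∀ᶠ s in 𝓝 (0 : ℝ), F s = F 0 := by
  obtain ⟨ε, hε, hb⟩ := Metric.eventually_nhds_iff_ball.1 h
  filter_upwards [Metric.ball_mem_nhds (0 : ℝ) hε] with s hs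
  exact Metric.isOpen_ball.is_const_of_deriv_eq_zero (convex_ball _ _).isPreconnected
    (fun y hy => (hb y hy).differentiableAt.differentiableWithinAt)
    (fun y hy => (hb y hy).deriv) hs (Metric.mem_ball_self hε)

theorem CircB_nu_rsmul (z u : E n) (a : ℝ) : nu z (a • u) = a * nu z u := by
  rw [← nuL_apply, map_smul, nuL_apply, Complex.real_smul]

/-- A curve with vertical derivative stays on a complex line. -/
theorem CircB_line {q : ℝ → E n} (h : ∀ᶠ s in 𝓝 (0 : ℝ), ∃ a : ℂ, HasDerivAt q (a • q s) s)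
    (h0 : q 0 ≠ 0) : ∀ᶠ s in 𝓝 (0 : ℝ), ∃ c : ℂ, q s = c • q 0 := by
  have hc : ContinuousAt (fun s => nuL (q 0) (q s)) 0 :=
    (nuL (q 0)).continuous.continuousAt.comp h.self_of_nhds.choose_spec.continuousAt
  have h1 : nuL (q 0) (q 0) = 1 := nu_self h0
  have hne : ∀ᶠ s in 𝓝 (0 : ℝ), nuL (q 0) (q s) ≠ 0 :=
    hc.eventually_ne (by rw [h1]; exact one_ne_zero)
  have hF : ∀ᶠ s in 𝓝 (0 : ℝ), HasDerivAt (fun s => (nuL (q 0) (q s))⁻¹ • q s) 0 s := by
    filter_upwards [h, hne] with s hs hs'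
    obtain ⟨a, ha⟩ := hs
    have d1 : HasDerivAt (fun s => nuL (q 0) (q s)) (nuL (q 0) (a • q s)) s :=
      (nuL (q 0)).hasFDerivAt.comp_hasDerivAt s ha
    have e : nuL (q 0) (a • q s) = a * nuL (q 0) (q s) := nu_smul a _ _
    rw [e] at d1
    have d3 := (d1.fun_inv hs').fun_smul ha
    refine d3.congr_deriv ?_
    rw [smul_smul, ← add_smul]
    have : (nuL (q 0) (q s))⁻¹ * a + -(a * nuL (q 0) (q s)) / (nuL (q 0) (q s)) ^ 2 = 0 := by
      field_simp
      ring
    rw [this, zero_smul]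
  filter_upwards [CircB_const hF, hne] with s hs hs'
  refine ⟨nuL (q 0) (q s), ?_⟩
  rw [h1, inv_one, one_smul] at hs
  exact (inv_smul_eq_iff₀ hs').1 hs

theorem CircB_om_anti (x a b : VV n) : om g x a b = -om g x b a := by
  simp only [om]
  ring

theorem CircB_hasFDerivAt_Z (G : Geo g) (h : IsMetric g) (t : ℝ) {x : VV n} (hx : x ∈ OO n) :
    HasFDerivAt (G.Z t) (G.JJ t x) x := by
  have ho : IsOpen {p : ℝ × VV n | p.2 ∈ OO n} := isOpen_OO.preimage continuous_snd
  have h1 : ContDiffAt ℝ ∞ (fun p : ℝ × VV n => G.Z p.1 p.2) (t, x) :=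
    (G.contDiffOn_Z h).contDiffAt (ho.mem_nhds hx)
  have h2 : ContDiffAt ℝ ∞ (G.Z t) x :=
    h1.comp x (f := fun y : VV n => (t, y)) (contDiffAt_const.prodMk contDiffAt_id)
  exact (h2.differentiableAt (by simp)).hasFDerivAt

/-- Derivative of the end point along a curve in the fibre. -/
theorem CircB_hasDerivAt_Z (G : Geo g) (h : IsMetric g) (t : ℝ) {z : E n} {w : ℝ → E n} {w' : E n}
    {s : ℝ} (hw : HasDerivAt w w' s) (hx : (z, w s) ∈ OO n) :
    HasDerivAt (fun r => G.Z t (z, w r)) (G.JJ t (z, w s) (0, w')) s := by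
  have := HasFDerivAt.comp_hasDerivAt (l := G.Z t) (f := fun r => (z, w r)) s
    (CircB_hasFDerivAt_Z G h t hx) ((hasDerivAt_const s z).prodMk hw)
  exact this

theorem CircB_vel_mem (h : IsMetric g) {x : VV n} (hx : x ∈ OO n) :
    (x.1, vel g x) ∈ OO n ∧ spd g (x.1, vel g x) = 1 ∧ vel g (x.1, vel g x) = vel g x :=
  h.unit_mem hx.1 (h.nu_vel hx.1) (h.vel_unit hx)

theorem CircB_isK_vel {G : Geo g} (h : IsMetric g) {x : VV n} (hx : x ∈ OO n) {K : E n}
    (hK : G.IsK x K) : G.IsK (x.1, vel g x) K := by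
  have hs := h.spd_pos hx
  have h1 := hK.act h hx (l := 1) (m := (spd g x)⁻¹) (-(((spd g x)⁻¹ : ℝ) * nu x.1 x.2))
    one_ne_zero (inv_pos.2 hs)
  have e : act 1 (spd g x)⁻¹ (-(((spd g x)⁻¹ : ℝ) * nu x.1 x.2)) x = (x.1, vel g x) := by
    simp only [act, one_smul, vel, hor_def, smul_sub]
    rw [neg_smul, mul_smul, Complex.coe_smul, sub_eq_add_neg]
  rwa [e, one_smul] at h1

theorem CircB_perp {G : Geo g} (h : IsMetric g) {x : VV n} (hx : x ∈ OO n) {K : E n}
    (hK : G.IsK x K) : g x.1 K (vel g x) = 0 := (CircB_isK_vel h hx hK).perp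

/-- A horizontal vector in the kernel lies in the plane of the velocity and `K`. -/
theorem CircB_plane {G : Geo g} (h : IsMetric g) {x : VV n} (hx : x ∈ OO n) {K : E n}
    (hK : G.IsK x K) {w : E n} (h0 : nu x.1 w = 0) (hw : G.JH (π / 2) x (0, w) = 0) :
    ∃ a b : ℝ, w = a • vel g x + b • K := by
  obtain ⟨b, hb⟩ := (hK.ker w).1 hw
  obtain ⟨c, a, e⟩ := mem_Bs.1 hb
  have hs := h.spd_pos hx
  refine ⟨a * spd g x, b, ?_⟩
  have e1 := congrArg (horL x.1) e
  have e2 : horL x.1 (c • x.1) = 0 := (hor_eq_zero_iff hx.1 _).2 ⟨c, rfl⟩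
  rw [map_sub, map_add, e2, zero_add, map_smul, map_smul] at e1
  simp only [horL_apply] at e1
  rw [hor_of_nu h0, hor_of_nu hK.hor] at e1
  rw [vel, smul_smul, mul_inv_cancel_right₀ hs.ne', ← e1, sub_add_cancel]

theorem CircB_rot_rot {G : Geo g} (h : IsMetric g) {x : VV n} (hx : x ∈ OO n) {K : E n}
    (hK : G.IsK x K) (σ τ : ℝ) :
    Rot g (Rot g x K σ) (-sin σ • vel g x + cos σ • K) τ = Rot g x K (σ + τ) := by
  have h1 := (hK.rot h hx σ).2.2
  rw [Rot, h1]
  simp only [Rot, cos_add, sin_add]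
  congr 1
  module

theorem CircB_hasDerivAt_rot (v K : E n) (σ : ℝ) :
    HasDerivAt (fun r => cos r • v + sin r • K) (-sin σ • v + cos σ • K) σ :=
  ((hasDerivAt_cos σ).smul_const v).add ((hasDerivAt_sin σ).smul_const K)

namespace Bl
variable {G : Geo g} (B : Bl g G)
include B

/-- A direction with the same end point is in the kernel. -/
theorem CircB_ker {x : VV n} (hx : x ∈ OO n) {w : E n} (hw : (x.1, w) ∈ OO n) {c : ℂ}
    (e : G.Z (π / 2) (x.1, w) = c • G.Z (π / 2) x) : G.JH (π / 2) x (0, w) = 0 := by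
  have h := B.met
  have hx' : G.psi (π / 2) x ∈ OO n := G.psi_mem h _ hx
  have hy : G.Z (π / 2) x ≠ 0 := G.Z_ne h _ hx
  have hback : G.psi (-(π / 2)) (G.psi (π / 2) x) = x := by
    rw [← G.psi_add h _ _ hx, neg_add_cancel, G.psi_zero h hx]
  have hc : c ≠ 0 := by
    rintro rfl
    exact G.Z_ne h _ hw (by rw [e, zero_smul])
  have key : ∀ u, g (G.Z (π / 2) x) u (G.JJ (π / 2) x (0, w)) = 0 := by
    intro u
    have hd : HasDerivAt (fun τ : ℝ => (G.psi (π / 2) x).2 + τ • u) u 0 := by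
      simpa using ((hasDerivAt_id (0 : ℝ)).smul_const u).const_add (G.psi (π / 2) x).2
    have e0 : (G.Z (π / 2) x, (G.psi (π / 2) x).2 + (0 : ℝ) • u) = G.psi (π / 2) x := by
      rw [zero_smul, add_zero]
      rfl
    have hq := CircB_hasDerivAt_Z G h (-(π / 2)) (z := G.Z (π / 2) x) hd (by rw [e0]; exact hx')
    rw [e0] at hq
    have hmem : ∀ᶠ τ in 𝓝 (0 : ℝ), (G.Z (π / 2) x, (G.psi (π / 2) x).2 + τ • u) ∈ OO n := by
      have hcont : ContinuousAt
          (fun τ : ℝ => ((G.Z (π / 2) x, (G.psi (π / 2) x).2 + τ • u) : VV n)) 0 := by fun_prop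
      exact hcont.eventually (isOpen_OO.mem_nhds (by beta_reduce; rw [e0]; exact hx'))
    have ho : g x.1 (G.JJ (-(π / 2)) (G.psi (π / 2) x) (0, u)) w = 0 := by
      refine B.orth (x := (x.1, w)) hw hq ?_ ?_
      · change G.Z (-(π / 2)) _ = x.1
        rw [e0, Geo.Z, hback]
      · filter_upwards [hmem] with τ hτ
        have h1 := B.dd_Z hτ (s := -(π / 2)) (t := 0) (by
          rw [sub_neg_eq_add, zero_add, abs_of_pos (by positivity)])
        have h2 : G.Z 0 (G.Z (π / 2) x, (G.psi (π / 2) x).2 + τ • u) = G.Z (π / 2) x := by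
          rw [Geo.Z, G.psi_zero h hτ]
        rw [h2, sub_neg_eq_add, zero_add, abs_of_pos (by positivity)] at h1
        rw [e, dd_smul_right hc, h1]
    have a1 := G.al_psi h (-(π / 2)) hx' (0, u)
    have a2 := G.om_psi h (-(π / 2)) hx' (fderiv ℝ (G.psi (π / 2)) x (0, w)) (0, u)
    rw [hback] at a1 a2
    rw [G.fderiv_psi_neg h _ hx, om_fibre h hx, CircB_om_anti, om_fibre h hx',
      G.fst_fderiv_psi h _ hx, G.fst_fderiv_psi h _ hx'] at a2
    have a3 : g x.1 (vel g x) (G.JJ (-(π / 2)) (G.psi (π / 2) x) (0, u)) = 0 := by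
      rw [← G.fst_fderiv_psi h _ hx']
      simpa [al] using a1
    have a4 : g (G.Z (π / 2) x) (vel g (G.psi (π / 2) x)) (G.JJ (π / 2) x (0, w)) = 0 := by
      rw [G.al_inv h _ hx]
      simp [al]
    rw [h.symm _ _ _ hx.1] at ho
    have a5 : (G.psi (π / 2) x).1 = G.Z (π / 2) x := rfl
    rw [a5, a3, a4, ho] at a2
    have hs := (h.spd_pos hx').ne'
    simpa [hs] using a2
  exact h.hor_eq_zero hy (key _)

theorem CircB_isK {x : VV n} (hx : x ∈ OO n) {K : E n} (h0 : nu x.1 K = 0)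
    (h1 : g x.1 K (vel g x) = 0) (h2 : g x.1 K K = 1) (h3 : G.JH (π / 2) x (0, K) = 0) :
    G.IsK x K := by
  have h := B.met
  obtain ⟨K', hK'⟩ := B.exists_isK x hx
  obtain ⟨a, b, e⟩ := CircB_plane h hx hK' h0 h3
  have p := CircB_perp h hx hK'
  have ha : a = 0 := by
    rw [e] at h1
    simpa [p, h.vel_unit hx] using h1
  rw [ha, zero_smul, zero_add] at e
  have hb : b * b = 1 := by
    rw [e] at h2
    simpa [hK'.unit] using h2
  rcases mul_self_eq_one_iff.1 hb with rfl | rfl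
  · rwa [e, one_smul]
  · rw [e, neg_smul, one_smul]
    exact hK'.neg

/-- The local statement. -/
theorem CircB_local {x : VV n} (hx : x ∈ OO n) {K : E n} (hK : G.IsK x K) :
    ∀ᶠ σ in 𝓝 (0 : ℝ), ∃ c : ℂ, G.Z (π / 2) (Rot g x K σ) = c • G.Z (π / 2) x := by
  have h := B.met
  have hz := hx.1
  have hx0 := (CircB_vel_mem h hx).1
  obtain ⟨U, k, hU, hxU, hUO, hk, hkK⟩ := B.local_K hx0
  have hf : ContDiffAt ℝ 1 (fun w => k (x.1, w)) (vel g x) :=
    ((hk.contDiffAt (hU.mem_nhds hxU)).comp (vel g x) (f := fun w : E n => (x.1, w))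
      (contDiffAt_const.prodMk contDiffAt_id)).of_le (by simp)
  obtain ⟨w, hw0, ε, hε, hw⟩ :=
    hf.exists_forall_mem_closedBall_exists_eq_forall_mem_Ioo_hasDerivAt₀ (0 : ℝ)
  have hw' : ∀ᶠ s in 𝓝 (0 : ℝ), HasDerivAt w (k (x.1, w s)) s := by
    filter_upwards [Ioo_mem_nhds (show 0 - ε < (0 : ℝ) by linarith) (show (0 : ℝ) < 0 + ε by linarith)]
      with s hs using hw s hs
  have hwc : ContinuousAt w 0 := hw'.self_of_nhds.continuousAt
  have hm : ∀ᶠ s in 𝓝 (0 : ℝ), (x.1, w s) ∈ U :=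
    (continuousAt_const.prodMk hwc).eventually (hU.mem_nhds (by beta_reduce; rw [hw0]; exact hxU))
  have p1 : ∀ᶠ s in 𝓝 (0 : ℝ), nu x.1 (w s) = 0 := by
    have hd : ∀ᶠ s in 𝓝 (0 : ℝ), HasDerivAt (fun r => nuL x.1 (w r)) 0 s := by
      filter_upwards [hw', hm] with s h1 h2
      have d := (nuL x.1).hasFDerivAt.comp_hasDerivAt s h1
      have e : nuL x.1 (k (x.1, w s)) = 0 := (hkK _ h2).hor
      rw [e] at d
      exact d
    filter_upwards [CircB_const hd] with s hs
    rw [hw0] at hs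
    exact hs.trans (h.nu_vel hz)
  have p2 : ∀ᶠ s in 𝓝 (0 : ℝ), g x.1 (w s) (w s) = 1 := by
    have hd : ∀ᶠ s in 𝓝 (0 : ℝ), HasDerivAt (fun r => g x.1 (w r) (w r)) 0 s := by
      filter_upwards [hw', hm] with s h1 h2
      have d := ((g x.1).hasFDerivAt.comp_hasDerivAt s h1).clm_apply h1
      have e : g x.1 (k (x.1, w s)) (w s) = 0 := (hkK _ h2).perp
      have e' : g x.1 (w s) (k (x.1, w s)) = 0 := by rw [h.symm _ _ _ hz, e]
      exact d.congr_deriv (by simp [e, e'])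
    filter_upwards [CircB_const hd] with s hs
    rw [hw0] at hs
    exact hs.trans (h.vel_unit hx)
  have p3 : ∀ᶠ s in 𝓝 (0 : ℝ), ∃ c : ℂ, G.Z (π / 2) (x.1, w s) = c • G.Z (π / 2) x := by
    have e0 : G.Z (π / 2) (x.1, w 0) = G.Z (π / 2) x := by rw [hw0, G.Z_vel h _ hx]
    have := CircB_line (q := fun s => G.Z (π / 2) (x.1, w s)) ?_ (by
      rw [e0]; exact G.Z_ne h _ hx)
    · simpa only [e0] using this
    · filter_upwards [hw', hm] with s h1 h2
      have d := CircB_hasDerivAt_Z G h (π / 2) h1 (hUO h2)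
      have e : G.JH (π / 2) (x.1, w s) (0, k (x.1, w s)) = 0 :=
        ((hkK _ h2).ker _).2 ⟨1, by simp⟩
      obtain ⟨a, ha⟩ := (hor_eq_zero_iff (G.Z_ne h _ (hUO h2)) _).1 e
      exact ⟨a, ha ▸ d⟩
  have p4 : ∀ᶠ s in 𝓝 (0 : ℝ), 0 < g x.1 (vel g x) (w s) := by
    have hc : ContinuousAt (fun s => g x.1 (vel g x) (w s)) 0 :=
      (g x.1 (vel g x)).continuous.continuousAt.comp hwc
    refine hc.eventually (lt_mem_nhds ?_)
    beta_reduce
    rw [hw0, h.vel_unit hx]
    exact one_pos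
  have hβ : HasStrictDerivAt (fun s => g x.1 K (w s)) (g x.1 K (k (x.1, w 0))) 0 := by
    refine hasStrictDerivAt_of_hasDerivAt_of_continuousAt
      (f' := fun s => g x.1 K (k (x.1, w s))) ?_ ?_
    · filter_upwards [hw'] with s hs
      exact (g x.1 K).hasFDerivAt.comp_hasDerivAt s hs
    · refine (g x.1 K).continuous.continuousAt.comp (f := fun s => k (x.1, w s)) ?_
      refine ContinuousAt.comp (f := w) (g := fun w => k (x.1, w)) ?_ hwc
      rw [hw0]
      exact hf.continuousAt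
  have hne : g x.1 K (k (x.1, w 0)) ≠ 0 := by
    rw [hw0]
    rcases (CircB_isK_vel h hx hK).eq_or h hx0 (hkK _ hxU) with e | e
    · rw [e, hK.unit]
      exact one_ne_zero
    · rw [e, map_neg, hK.unit]
      norm_num
  have hmap := hβ.map_nhds_eq hne
  have p := CircB_perp h hx hK
  have p' : g x.1 (vel g x) K = 0 := by rw [h.symm _ _ _ hz, p]
  rw [hw0, p] at hmap
  have him := image_mem_map (m := fun s => g x.1 K (w s)) ((((p1.and p2).and p3).and p4).and hm)
  rw [hmap] at him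
  have hsin : Tendsto sin (𝓝 0) (𝓝 0) := by simpa using continuous_sin.tendsto 0
  have hcos : ∀ᶠ σ in 𝓝 (0 : ℝ), 0 < cos σ :=
    continuous_cos.continuousAt.eventually (lt_mem_nhds (by simp))
  filter_upwards [hsin.eventually him, hcos] with σ hσ hσ'
  obtain ⟨s, ⟨⟨⟨⟨q1, q2⟩, c, q3⟩, q4⟩, q5⟩, q6⟩ := hσ
  obtain ⟨a, b, e⟩ := CircB_plane h hx hK q1 (B.CircB_ker hx (hUO q5) q3)
  have hb : b = sin σ := by
    rw [← q6]
    simp [e, p, hK.unit]
  have ha : 0 < a := by simpa [e, p', h.vel_unit hx] using q4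
  have hab : a * a + b * b = 1 := by simpa [e, p, p', h.vel_unit hx, hK.unit] using q2
  have ha' : a = cos σ := by
    refine (mul_self_inj_of_nonneg ha.le hσ'.le).1 ?_
    rw [hb] at hab
    linear_combination hab - sin_sq_add_cos_sq σ
  refine ⟨c, ?_⟩
  rw [← q3, e, ha', hb]
  rfl

theorem circle {x : VV n} (hx : x ∈ OO n) {K : E n} (hK : G.IsK x K) (σ : ℝ) :
    (∃ c : ℂ, G.Z (π / 2) (Rot g x K σ) = c • G.Z (π / 2) x) ∧
      G.IsK (Rot g x K σ) (-sin σ • vel g x + cos σ • K) := by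
  have h := B.met
  have hz := hx.1
  have hy : G.Z (π / 2) x ≠ 0 := G.Z_ne h _ hx
  have hmem : ∀ σ, Rot g x K σ ∈ OO n := fun σ => (hK.rot h hx σ).1
  have p := CircB_perp h hx hK
  have p' : g x.1 (vel g x) K = 0 := by rw [h.symm _ _ _ hz, p]
  have hisK : ∀ σ, G.JH (π / 2) (Rot g x K σ) (0, -sin σ • vel g x + cos σ • K) = 0 →
      G.IsK (Rot g x K σ) (-sin σ • vel g x + cos σ • K) := by
    intro σ hσ
    refine B.CircB_isK (hmem σ) ?_ ?_ ?_ hσ
    · change nu x.1 _ = 0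
      rw [nu_add, CircB_nu_rsmul, CircB_nu_rsmul, h.nu_vel hz, hK.hor]
      simp
    · rw [(hK.rot h hx σ).2.2]
      simp [Rot, p, p', h.vel_unit hx, hK.unit, mul_comm]
    · simp only [Rot, map_add, map_smul, add_apply, smul_apply,
        p, p', h.vel_unit hx, hK.unit, smul_eq_mul]
      linear_combination sin_sq_add_cos_sq σ
  let A : Set ℝ := {σ | horL (G.Z (π / 2) x) (G.Z (π / 2) (Rot g x K σ)) = 0 ∧
    G.JH (π / 2) (Rot g x K σ) (0, -sin σ • vel g x + cos σ • K) = 0}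
  let A' : Set ℝ := {σ | ∀ᶠ τ in 𝓝 σ, ∃ c : ℂ, G.Z (π / 2) (Rot g x K τ) = c • G.Z (π / 2) x}
  have hrot : Continuous fun σ => ((π / 2, Rot g x K σ) : ℝ × VV n) := by
    unfold Rot
    fun_prop
  have hA : IsClosed A := by
    have c1 : Continuous fun σ => G.Z (π / 2) (Rot g x K σ) := by
      have := (G.contDiffOn_Z h).continuousOn.comp_continuous hrot hmem
      simpa only [Function.comp_def] using this
    have c2 : Continuous fun σ => G.JH (π / 2) (Rot g x K σ) := by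
      have := (G.contDiffOn_JH h).continuousOn.comp_continuous hrot hmem
      simpa only [Function.comp_def] using this
    have c3 : Continuous fun σ => (((0 : E n), -sin σ • vel g x + cos σ • K) : VV n) := by fun_prop
    exact (isClosed_eq ((horL _).continuous.comp c1) continuous_const).inter
      (isClosed_eq (c2.clm_apply c3) continuous_const)
  have hA' : IsOpen A' := isOpen_setOfPred_eventually_nhds
  have s1 : A' ⊆ A := by
    intro σ hσ
    obtain ⟨c, hc⟩ := hσ.self_of_nhds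
    refine ⟨(hor_eq_zero_iff hy _).2 ⟨c, hc⟩, ?_⟩
    have hc0 : c ≠ 0 := by
      rintro rfl
      exact G.Z_ne h _ (hmem σ) (by rw [hc, zero_smul])
    have d := CircB_hasDerivAt_Z G h (π / 2) (CircB_hasDerivAt_rot (vel g x) K σ) (hmem σ)
    have d1 := (horL (G.Z (π / 2) x)).hasFDerivAt.comp_hasDerivAt σ d
    have d2 : HasDerivAt (horL (G.Z (π / 2) x) ∘
        fun r => G.Z (π / 2) (x.1, cos r • vel g x + sin r • K)) 0 σ := by
      refine (hasDerivAt_const σ (0 : E n)).congr_of_eventuallyEq ?_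
      filter_upwards [hσ] with τ hτ
      exact (hor_eq_zero_iff hy _).2 hτ
    have d3 := d1.unique d2
    change hor (G.Z (π / 2) (Rot g x K σ)) _ = 0
    rw [hc, hor_smul_left hc0]
    exact d3
  have s2 : A ⊆ A' := by
    intro σ hσ
    obtain ⟨c, hc⟩ := (hor_eq_zero_iff hy _).1 hσ.1
    have hl := B.CircB_local (hmem σ) (hisK σ hσ.2)
    have ht : Tendsto (fun τ => τ - σ) (𝓝 σ) (𝓝 0) := by
      simpa using (continuous_sub_right σ).tendsto σ
    filter_upwards [ht.eventually hl] with τ hτ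
    obtain ⟨c', hc'⟩ := hτ
    rw [CircB_rot_rot h hx hK, add_sub_cancel, hc, smul_smul] at hc'
    exact ⟨_, hc'⟩
  have e : A = A' := s2.antisymm s1
  have hu : A = univ := IsClopen.eq_univ ⟨hA, e ▸ hA'⟩ ⟨0, s1 (B.CircB_local hx hK)⟩
  have hσ : σ ∈ A := hu ▸ mem_univ σ
  exact ⟨(hor_eq_zero_iff hy _).1 hσ.1, hisK σ hσ.2⟩

end Bl

end Pool.Agent.Work.MP_8c604c_gt
end
end

-- merged part: Pool.Agent.Work.MP_8c604c_gt.Circle
section
/-!
Multiplicity one, great circles, the winding number and the global field K.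
Hints. exists_isK: kdim is constant, >= 4 by exists_conj; if >= 5 pick u in the kernel, not in Bs, with Im nu (JJ (0,u)) = 0 and contradict
no_potential with f = 0. local_K: M x = Gram form of JH (pi/2) x (0, .) + penalty on Bs x is psd with kernel spanned by K;
k x = inverse (M x + K0 tensor K0) applied to K0-flat, then normalise. circle: integral curves of w' = K (z,w) (Picard-Lindelof) keep the line
of Z (pi/2); every unit w with the same end point is g-orthogonal to the (2n-2)-dimensional image of JH (pi/2) at the reversed geodesic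
(Bl.orth), so lies in one fixed 2-plane; open-closed argument in sigma. exists_kdata: kappa (x,sigma) = nu (Z (pi/2) x) (Z (pi/2) (Rot sigma x)),
a = integral of Im (kappa'/kappa), j(x,K) = a(2 pi)/(2 pi), j(x,-K) = -j(x,K), |j| locally constant. If j = 0 everywhere,
f = (1/2 pi) integral of a over [0, 2 pi] does not depend on the sign of K and contradicts no_potential. Orient K by j > 0.
-/

set_option maxSynthPendingDepth 3

open Set Filter Topology MeasureTheory
open scoped ContDiff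

noncomputable section
namespace Pool.Agent.Work.MP_8c604c_gt

open Real

variable {n : ℕ} {g : Met n}

/-- The continuous argument of a smooth function with values in the unit circle. -/
def circArg (κ : ℝ → ℂ) (σ : ℝ) : ℝ := ∫ s in (0 : ℝ)..σ, (deriv κ s / κ s).im

/-- Smooth loops in the unit circle based at `1`. -/
structure CircLoop (κ : ℝ → ℂ) : Prop where
  smooth : ContDiff ℝ ∞ κ
  norm : ∀ σ, ‖κ σ‖ = 1
  zero : κ 0 = 1
  per : ∀ σ, κ (σ + 2 * π) = κ σ

theorem circArg_zero (κ : ℝ → ℂ) : circArg κ 0 = 0 := intervalIntegral.integral_same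

theorem circArg_neg (κ : ℝ → ℂ) (σ : ℝ) : circArg (fun s => κ (-s)) σ = circArg κ (-σ) := by
  unfold circArg
  simp only [deriv_comp_neg, neg_div, Complex.neg_im, intervalIntegral.integral_neg]
  rw [intervalIntegral.integral_comp_neg (fun s => (deriv κ s / κ s).im), neg_zero,
    ← intervalIntegral.integral_symm]

namespace CircLoop
variable {κ : ℝ → ℂ} (h : CircLoop κ)
include h

theorem ne (σ : ℝ) : κ σ ≠ 0 := by
  rw [← norm_ne_zero_iff, h.norm]
  exact one_ne_zero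

theorem hasDerivAt (σ : ℝ) : HasDerivAt κ (deriv κ σ) σ :=
  (h.smooth.differentiable (by simp) σ).hasDerivAt

theorem smooth_rate : ContDiff ℝ ∞ fun s => (deriv κ s / κ s).im := by
  simp only [div_eq_mul_inv]
  exact Complex.imCLM.contDiff.comp ((h.smooth.iterate_deriv 1).mul (h.smooth.inv h.ne))

theorem hasDerivAt_arg (σ : ℝ) : HasDerivAt (circArg κ) (deriv κ σ / κ σ).im σ :=
  (h.smooth_rate.continuous.integral_hasStrictDerivAt 0 σ).hasDerivAt

theorem smooth_arg : ContDiff ℝ ∞ (circArg κ) := by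
  rw [contDiff_infty_iff_deriv]
  refine ⟨fun σ => (h.hasDerivAt_arg σ).differentiableAt, ?_⟩
  rw [show deriv (circArg κ) = fun s => (deriv κ s / κ s).im from
    funext fun σ => (h.hasDerivAt_arg σ).deriv]
  exact h.smooth_rate

theorem re_rate (σ : ℝ) : (deriv κ σ / κ σ).re = 0 := by
  have hr : HasDerivAt (fun s => (κ s).re) (deriv κ σ).re σ :=
    Complex.reCLM.hasFDerivAt.comp_hasDerivAt σ (h.hasDerivAt σ)
  have hi : HasDerivAt (fun s => (κ s).im) (deriv κ σ).im σ :=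
    Complex.imCLM.hasFDerivAt.comp_hasDerivAt σ (h.hasDerivAt σ)
  have h1 : ∀ s, (κ s).re * (κ s).re + (κ s).im * (κ s).im = 1 := fun s => by
    rw [← Complex.normSq_apply, Complex.normSq_eq_norm_sq, h.norm, one_pow]
  have h2 := (hr.fun_mul hr).fun_add (hi.fun_mul hi)
  simp only [h1] at h2
  have h3 := h2.unique (hasDerivAt_const σ (1 : ℝ))
  rw [Complex.div_re, ← add_div, div_eq_zero_iff]
  left
  linarith

theorem eq_exp (σ : ℝ) : κ σ = Complex.exp (circArg κ σ * Complex.I) := by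
  have hd : ∀ s, HasDerivAt (fun s => κ s * Complex.exp (-(circArg κ s * Complex.I))) 0 s := by
    intro s
    have h1 : HasDerivAt (fun s => ((circArg κ s : ℝ) : ℂ)) ((deriv κ s / κ s).im : ℝ) s :=
      (h.hasDerivAt_arg s).ofReal_comp
    have h2 := (h.hasDerivAt s).fun_mul (h1.mul_const Complex.I).fun_neg.cexp
    have h3 : deriv κ s = κ s * ((deriv κ s / κ s).im * Complex.I) := by
      have := Complex.re_add_im (deriv κ s / κ s)
      rw [h.re_rate, Complex.ofReal_zero, zero_add] at this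
      rw [this, mul_div_cancel₀ _ (h.ne s)]
    refine h2.congr_deriv ?_
    linear_combination (Complex.exp (-(circArg κ s * Complex.I))) * h3
  have h4 := is_const_of_deriv_eq_zero (fun s => (hd s).differentiableAt)
    (fun s => (hd s).deriv) σ 0
  simp only [circArg_zero, h.zero, Complex.ofReal_zero, zero_mul, neg_zero, Complex.exp_zero,
    mul_one] at h4
  rw [Complex.exp_neg] at h4
  exact (mul_inv_eq_one₀ (Complex.exp_ne_zero _)).mp h4

theorem arg_shift (τ σ : ℝ) :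
    circArg (fun s => κ (s + τ) / κ τ) σ = circArg κ (σ + τ) - circArg κ τ := by
  unfold circArg
  rw [intervalIntegral.integral_interval_sub_left
    (h.smooth_rate.continuous.intervalIntegrable _ _)
    (h.smooth_rate.continuous.intervalIntegrable _ _)]
  simp only [deriv_div_const, deriv_comp_add_const, div_div_div_cancel_right₀ (h.ne τ)]
  rw [intervalIntegral.integral_comp_add_right (fun s => (deriv κ s / κ s).im), zero_add]

theorem arg_per (σ : ℝ) : circArg κ (σ + 2 * π) = circArg κ σ + circArg κ (2 * π) := by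
  have h1 := h.arg_shift (2 * π) σ
  have h2 : κ (2 * π) = 1 := by simpa [h.zero] using h.per 0
  simp only [h.per, h2, div_one] at h1
  change circArg κ σ = _ at h1
  linarith

theorem arg_int : ∃ j : ℤ, circArg κ (2 * π) = 2 * π * j := by
  have h2 : κ (2 * π) = 1 := by simpa [h.zero] using h.per 0
  rw [h.eq_exp, Complex.exp_eq_one_iff] at h2
  obtain ⟨j, hj⟩ := h2
  refine ⟨j, ?_⟩
  have := congrArg Complex.im hj
  simp at this
  linarith

theorem arg_neg_two_pi : circArg κ (-(2 * π)) = -circArg κ (2 * π) := by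
  have := h.arg_per (-(2 * π))
  rw [neg_add_cancel, circArg_zero] at this
  linarith

end CircLoop

/-- The scalar comparing the end points of the rotated geodesics. -/
def circKap (G : Geo g) (x : VV n) (K : E n) (σ : ℝ) : ℂ :=
  nu (G.Z (π / 2) x) (G.Z (π / 2) (Rot g x K σ))

/-- The total winding. -/
def circW (G : Geo g) (x : VV n) (K : E n) : ℝ := circArg (circKap G x K) (2 * π)

/-- The mean argument. -/
def circF (G : Geo g) (x : VV n) (K : E n) : ℝ :=
  (2 * π)⁻¹ * ∫ σ in (0 : ℝ)..2 * π, circArg (circKap G x K) σ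

theorem circKap_neg (G : Geo g) (x : VV n) (K : E n) :
    circKap G x (-K) = fun s => circKap G x K (-s) := by
  funext s
  simp [circKap, Rot]

theorem circ_Z_smooth (G : Geo g) (h : IsMetric g) (t : ℝ) : ContDiffOn ℝ ∞ (G.Z t) (OO n) :=
  (G.contDiffOn_Z h).comp (f := fun x : VV n => (t, x)) (by fun_prop) fun _ hx => hx

theorem circKap_act (G : Geo g) (h : IsMetric g) {x : VV n} (hx : x ∈ OO n) {K : E n}
    (hK : G.IsK x K) {l : ℂ} {m : ℝ} (c : ℂ) (hl : l ≠ 0) (hm : 0 < m) :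
    circKap G (act l m c x) (l • K) = circKap G x K := by
  funext σ
  have h1 : Rot g (act l m c x) (l • K) σ = l • Rot g x K σ := by
    rw [Rot, h.vel_eqv l m c x hl hm hx, Rot, Prod.smul_mk, smul_add, smul_comm l, smul_comm l]
    rfl
  have h2 : G.Z (π / 2) (l • Rot g x K σ) = l • G.Z (π / 2) (Rot g x K σ) := by
    rw [Geo.Z, G.psi_smul h _ hl (hK.rot h hx σ).1]
    rfl
  rw [circKap, h1, h2, G.Z_eqv h _ l m c x hl hm hx, nu_smul_smul hl, circKap]

theorem circ_param (G : Geo g) (h : IsMetric g) {U : Set (VV n)} {k : VV n → E n} (hU : IsOpen U)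
    (hUO : U ⊆ OO n) (hk : ContDiffOn ℝ ∞ k U) (hK : ∀ x ∈ U, G.IsK x (k x))
    (hne : ∀ x ∈ U, ∀ σ, circKap G x (k x) σ ≠ 0) :
    ContDiffOn ℝ ∞ (fun p : ℝ × VV n => circArg (circKap G p.2 (k p.2)) p.1) {p | p.2 ∈ U} := by
  have hS : IsOpen {p : ℝ × VV n | p.2 ∈ U} := hU.preimage continuous_snd
  have hv : ContDiffOn ℝ ∞ (fun p : ℝ × VV n => vel g p.2) {p | p.2 ∈ U} :=
    h.contDiffOn_vel.comp contDiffOn_snd fun _ hp => hUO hp
  have hk' : ContDiffOn ℝ ∞ (fun p : ℝ × VV n => k p.2) {p | p.2 ∈ U} :=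
    hk.comp contDiffOn_snd fun _ hp => hp
  have hR : ContDiffOn ℝ ∞ (fun p : ℝ × VV n => Rot g p.2 (k p.2) p.1) {p | p.2 ∈ U} :=
    (contDiff_snd.fst).contDiffOn.prodMk ((contDiff_fst.cos.contDiffOn.smul hv).add
      (contDiff_fst.sin.contDiffOn.smul hk'))
  have hZ1 : ContDiffOn ℝ ∞ (fun p : ℝ × VV n => G.Z (π / 2) p.2) {p | p.2 ∈ U} :=
    (circ_Z_smooth G h _).comp contDiffOn_snd fun _ hp => hUO hp
  have hZ2 : ContDiffOn ℝ ∞ (fun p : ℝ × VV n => G.Z (π / 2) (Rot g p.2 (k p.2) p.1))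
      {p | p.2 ∈ U} :=
    (circ_Z_smooth G h _).comp hR fun p hp => ((hK _ hp).rot h (hUO hp) _).1
  have hκ : ContDiffOn ℝ ∞ (fun p : ℝ × VV n => circKap G p.2 (k p.2) p.1) {p | p.2 ∈ U} :=
    (contDiffOn_nuL.comp hZ1 fun p hp => G.Z_ne h _ (hUO hp)).clm_apply hZ2
  set κ : ℝ × VV n → ℂ := fun p => circKap G p.2 (k p.2) p.1 with hκdef
  have hF : ContDiffOn ℝ ∞ (fun p : ℝ × VV n => (fderiv ℝ κ p (1, 0) * (κ p)⁻¹).im)
      {p | p.2 ∈ U} :=
    Complex.imCLM.contDiff.comp_contDiffOn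
      (((hκ.fderiv_of_isOpen hS (m := ∞) (by simp)).clm_apply contDiffOn_const).mul
        (hκ.inv fun p hp => hne _ hp _))
  refine (contDiffOn_primitive hU hF).congr fun p hp => ?_
  unfold circArg
  refine intervalIntegral.integral_congr fun s _ => ?_
  have h1 : HasFDerivAt κ (fderiv ℝ κ (s, p.2)) (s, p.2) :=
    ((hκ.contDiffAt (hS.mem_nhds (show (s, p.2) ∈ {p : ℝ × VV n | p.2 ∈ U} from hp))).differentiableAt
      (by simp)).hasFDerivAt
  have h2 : HasDerivAt (fun t : ℝ => (t, p.2)) ((1 : ℝ), (0 : VV n)) s :=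
    (hasDerivAt_id s).prodMk (hasDerivAt_const s p.2)
  have h3 : HasDerivAt (circKap G p.2 (k p.2)) (fderiv ℝ κ (s, p.2) (1, 0)) s :=
    HasFDerivAt.comp_hasDerivAt (l := κ) (f := fun t : ℝ => (t, p.2)) s h1 h2
  simp only [h3.deriv, div_eq_mul_inv, hκdef]

namespace Bl
variable {G : Geo g} (B : Bl g G)
include B

theorem circ_Z_rot {x : VV n} (hx : x ∈ OO n) {K : E n} (hK : G.IsK x K) (σ : ℝ) :
    G.Z (π / 2) (Rot g x K σ) = circKap G x K σ • G.Z (π / 2) x := by
  obtain ⟨c, hc⟩ := (B.circle hx hK σ).1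
  rw [circKap, hc, nu_smul, nu_self (G.Z_ne B.met _ hx), mul_one]

theorem circ_loop {x : VV n} (hx : x ∈ OO n) {K : E n} (hK : G.IsK x K) :
    CircLoop (circKap G x K) := by
  refine ⟨?_, fun σ => ?_, ?_, fun σ => by simp [circKap, Rot]⟩
  · have hR : ContDiff ℝ ∞ (Rot g x K) := by
      unfold Rot
      fun_prop
    exact (nuL (G.Z (π / 2) x)).contDiff.comp
      ((circ_Z_smooth G B.met _).comp_contDiff hR fun σ => (hK.rot B.met hx σ).1)
  · have h1 := congrArg norm (B.circ_Z_rot hx hK σ)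
    rw [norm_smul, G.norm_Z B.met _ (hK.rot B.met hx σ).1, G.norm_Z B.met _ hx] at h1
    have h2 : ‖x.1‖ ≠ 0 := norm_ne_zero_iff.mpr hx.1
    exact (mul_right_cancel₀ h2 (h1.symm.trans (one_mul _).symm))
  · have h1 : Rot g x K 0 = (x.1, vel g x) := by simp [Rot]
    rw [circKap, h1, G.Z_vel B.met _ hx, nu_self (G.Z_ne B.met _ hx)]

theorem circW_neg {x : VV n} (hx : x ∈ OO n) {K : E n} (hK : G.IsK x K) :
    circW G x (-K) = -circW G x K := by
  rw [circW, circKap_neg, circArg_neg, (B.circ_loop hx hK).arg_neg_two_pi, circW]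

theorem circW_abs {x : VV n} (hx : x ∈ OO n) {K K' : E n} (hK : G.IsK x K) (hK' : G.IsK x K') :
    |circW G x K'| = |circW G x K| := by
  rcases hK.eq_or B.met hx hK' with rfl | rfl
  · rfl
  · rw [B.circW_neg hx hK, abs_neg]

theorem circ_local {x₀ : VV n} (hx : x₀ ∈ OO n) : ∃ (U : Set (VV n)) (k : VV n → E n),
    IsOpen U ∧ x₀ ∈ U ∧ U ⊆ OO n ∧ ContDiffOn ℝ ∞ k U ∧ (∀ x ∈ U, G.IsK x (k x)) ∧
    ContDiffOn ℝ ∞ (fun p : ℝ × VV n => circArg (circKap G p.2 (k p.2)) p.1) {p | p.2 ∈ U} ∧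
    ∀ᶠ x in 𝓝 x₀, circW G x (k x) = circW G x₀ (k x₀) := by
  obtain ⟨U, k, hU, hx0, hUO, hk, hK⟩ := B.local_K hx
  have hp := circ_param G B.met hU hUO hk hK fun x hxU => (B.circ_loop (hUO hxU) (hK x hxU)).ne
  refine ⟨U, k, hU, hx0, hUO, hk, hK, hp, ?_⟩
  have hc : ContinuousOn (fun x => circW G x (k x)) U :=
    hp.continuousOn.comp (f := fun x : VV n => ((2 * π : ℝ), x)) (by fun_prop) fun _ h => h
  have h1 := Metric.tendsto_nhds.mp (hc.continuousAt (hU.mem_nhds hx0)) (2 * π) (by positivity)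
  filter_upwards [h1, hU.mem_nhds hx0] with x hd hxU
  obtain ⟨j, hj⟩ := (B.circ_loop (hUO hxU) (hK x hxU)).arg_int
  obtain ⟨j0, hj0⟩ := (B.circ_loop hx (hK x₀ hx0)).arg_int
  simp only [circW, hj, hj0, Real.dist_eq] at hd ⊢
  rw [← mul_sub, abs_mul, abs_of_pos (by positivity : 0 < 2 * π),
    mul_lt_iff_lt_one_right (by positivity : 0 < 2 * π), ← Int.cast_sub, ← Int.cast_abs] at hd
  have h2 : |j - j0| < 1 := by exact_mod_cast hd
  rw [sub_eq_zero.mp (Int.abs_lt_one_iff.mp h2)]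

theorem circW_const {x y : VV n} (hx : x ∈ OO n) (hy : y ∈ OO n) {K K' : E n} (hK : G.IsK x K)
    (hK' : G.IsK y K') : |circW G y K'| = |circW G x K| := by
  choose! K0 hK0 using B.exists_isK
  have hloc : ∀ z ∈ OO n, ∀ᶠ w in 𝓝 z, |circW G w (K0 w)| = |circW G z (K0 z)| := by
    intro z hz
    obtain ⟨U, k, hU, hz0, hUO, -, hk, -, he⟩ := B.circ_local hz
    filter_upwards [he, hU.mem_nhds hz0] with w hw hwU
    rw [B.circW_abs (hUO hwU) (hk w hwU) (hK0 w (hUO hwU)), hw,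
      B.circW_abs hz (hk z hz0) (hK0 z hz)]
  have hsub : OO n ⊆ {z | ∀ᶠ w in 𝓝 z, |circW G w (K0 w)| = |circW G x (K0 x)|} := by
    refine (isPreconnected_OO (by linarith [B.two])).subset_of_closure_inter_subset
      isOpen_setOfPred_eventually_nhds ⟨x, hx, hloc x hx⟩ ?_
    rintro z ⟨hz1, hz2⟩
    obtain ⟨w, hw1, hw2⟩ := mem_closure_iff_nhds.mp hz1 _ (hloc z hz2)
    have e : |circW G z (K0 z)| = |circW G x (K0 x)| :=
      Eq.trans (Eq.symm hw1)
        (Eventually.self_of_nhds (p := fun w => |circW G w (K0 w)| = |circW G x (K0 x)|) hw2)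
    exact (hloc z hz2).mono fun _ h => h.trans e
  rw [B.circW_abs hy (hK0 y hy) hK', (hsub hy).self_of_nhds, B.circW_abs hx hK (hK0 x hx)]

theorem circF_eq {x : VV n} (hx : x ∈ OO n) {K K' : E n} (hK : G.IsK x K) (hK' : G.IsK x K')
    (h0 : circW G x K = 0) : circF G x K' = circF G x K := by
  rcases hK.eq_or B.met hx hK' with rfl | rfl
  · rfl
  · have hp : Function.Periodic (circArg (circKap G x K)) (2 * π) := fun σ => by
      rw [(B.circ_loop hx hK).arg_per, ← circW, h0, add_zero]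
    simp only [circF, circKap_neg, circArg_neg]
    rw [intervalIntegral.integral_comp_neg (circArg (circKap G x K)), neg_zero]
    have := hp.intervalIntegral_add_eq (-(2 * π)) 0
    rw [neg_add_cancel, zero_add] at this
    rw [this]

theorem circF_rot {x : VV n} (hx : x ∈ OO n) {K : E n} (hK : G.IsK x K)
    (h0 : circW G x K = 0) (τ : ℝ) :
    circF G (Rot g x K τ) (-sin τ • vel g x + cos τ • K) =
      circF G x K - circArg (circKap G x K) τ := by
  have hL := B.circ_loop hx hK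
  have hp : Function.Periodic (circArg (circKap G x K)) (2 * π) := fun σ => by
    rw [hL.arg_per, ← circW, h0, add_zero]
  have h1 : circKap G (Rot g x K τ) (-sin τ • vel g x + cos τ • K) =
      fun s => circKap G x K (s + τ) / circKap G x K τ := by
    funext s
    have e1 : Rot g (Rot g x K τ) (-sin τ • vel g x + cos τ • K) s = Rot g x K (s + τ) := by
      rw [Rot, (hK.rot B.met hx τ).2.2]
      simp only [Rot, cos_add, sin_add]
      congr 1
      module
    have e2 : circKap G x K (s + τ) • G.Z (π / 2) x =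
        (circKap G x K (s + τ) / circKap G x K τ) • circKap G x K τ • G.Z (π / 2) x := by
      rw [smul_smul, div_mul_cancel₀ _ (hL.ne τ)]
    rw [circKap, e1, B.circ_Z_rot hx hK, B.circ_Z_rot hx hK, e2, nu_smul,
      nu_self (smul_ne_zero (hL.ne τ) (G.Z_ne B.met _ hx)), mul_one]
  have hi : ∀ a b : ℝ, IntervalIntegrable (fun σ => circArg (circKap G x K) (σ + τ)) volume a b :=
    fun a b => (hL.smooth_arg.continuous.comp (continuous_add_const τ)).intervalIntegrable a b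
  simp only [circF, h1, hL.arg_shift]
  rw [intervalIntegral.integral_sub (hi _ _) intervalIntegrable_const,
    intervalIntegral.integral_comp_add_right (circArg (circKap G x K)), zero_add,
    add_comm (2 * π) τ, hp.intervalIntegral_add_eq τ 0, zero_add, intervalIntegral.integral_const,
    sub_zero, smul_eq_mul]
  have : (2 * π : ℝ) ≠ 0 := by positivity
  field_simp

theorem circW_ne {x₀ : VV n} (hx₀ : x₀ ∈ OO n) {K₀ : E n} (hK₀ : G.IsK x₀ K₀) :
    circW G x₀ K₀ ≠ 0 := by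
  intro h00
  have hz : ∀ x ∈ OO n, ∀ K, G.IsK x K → circW G x K = 0 := fun x hx K hK => by
    rw [← abs_eq_zero, B.circW_const hx₀ hx hK₀ hK, h00, abs_zero]
  choose! K0 hK0 using B.exists_isK
  set f : VV n → ℝ := fun x => circF G x (K0 x) with hf
  have hfe : ∀ x ∈ OO n, ∀ K, G.IsK x K → f x = circF G x K := fun x hx K hK =>
    B.circF_eq hx hK (hK0 x hx) (hz x hx K hK)
  have hfs : ContDiffOn ℝ ∞ f (OO n) := by
    intro x hx
    obtain ⟨U, k, hU, hx0, hUO, -, hk, hp, -⟩ := B.circ_local hx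
    have h1 : ContDiffOn ℝ ∞ (fun y => circF G y (k y)) U :=
      contDiffOn_const.mul (contDiffOn_integral hU hp 0 (2 * π))
    exact ((h1.congr fun y hy => hfe y (hUO hy) _ (hk y hy)).contDiffAt
      (hU.mem_nhds hx0)).contDiffWithinAt
  have hfi : Inv f := by
    intro l m c x hl hm hx
    rw [hfe _ (act_mem c hl hm hx) _ ((hK0 x hx).act B.met hx c hl hm), circF,
      circKap_act G B.met hx (hK0 x hx) c hl hm]
    rfl
  refine B.no_potential hfs hfi fun x hx => ?_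
  have hK := hK0 x hx
  set K := K0 x with hKdef
  have hL := B.circ_loop hx hK
  have hm := B.met.spd_pos hx
  refine ⟨spd g x • K, fun hu => ?_, (hK.ker _).mpr ⟨spd g x, by simp⟩, ?_⟩
  · obtain ⟨c, a, e⟩ := mem_Bs.mp hu
    have e1 := congrArg (g x.1 K) e
    rw [map_smul, map_add, B.met.vert' c K hx.1, map_smul, hK.unit, hK.perp] at e1
    simp only [smul_eq_mul, mul_one, mul_zero, add_zero] at e1
    exact hm.ne' e1
  · set γ : ℝ → VV n := fun τ => act 1 (spd g x) (nu x.1 x.2) (Rot g x K τ) with hγ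
    have hγ0 : γ 0 = x := by
      simp only [hγ, act, Rot, one_smul, cos_zero, sin_zero, zero_smul, add_zero]
      rw [← B.met.snd_eq hx]
    have hγd : HasDerivAt γ (0, spd g x • K) 0 := by
      have h1 : HasDerivAt (fun τ : ℝ => spd g x • (cos τ • vel g x + sin τ • K) +
          nu x.1 x.2 • x.1) (spd g x • (-sin 0 • vel g x + cos 0 • K)) 0 :=
        ((((hasDerivAt_cos 0).smul_const _).fun_add
          ((hasDerivAt_sin 0).smul_const _)).fun_const_smul _).add_const _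
      have h2 := (hasDerivAt_const (0 : ℝ) x.1).prodMk h1
      simpa [hγ, act, Rot] using h2
    have hR := fun τ => (hK.rot B.met hx τ).1
    have a1 : HasDerivAt (fun τ => f (γ τ)) (fderiv ℝ f x (0, spd g x • K)) 0 := by
      have := ((hfs.contDiffAt (isOpen_OO.mem_nhds hx)).differentiableAt (by simp)).hasFDerivAt
      exact this.comp_hasDerivAt_of_eq (0 : ℝ) hγd hγ0.symm
    have a2 : (fun τ => f (γ τ)) = fun τ => circF G x K - circArg (circKap G x K) τ := by
      funext τ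
      rw [hγ, hfi _ _ _ _ one_ne_zero hm (hR τ), hfe _ (hR τ) _ (B.circle hx hK τ).2,
        B.circF_rot hx hK (hz x hx K hK)]
    have a3 : HasDerivAt (fun τ => G.Z (π / 2) (γ τ)) (G.JJ (π / 2) x (0, spd g x • K)) 0 := by
      have := (((circ_Z_smooth G B.met (π / 2)).contDiffAt
        (isOpen_OO.mem_nhds hx)).differentiableAt (by simp)).hasFDerivAt
      exact this.comp_hasDerivAt_of_eq (0 : ℝ) hγd hγ0.symm
    have a4 : HasDerivAt (circKap G x K)
        (nu (G.Z (π / 2) x) (G.JJ (π / 2) x (0, spd g x • K))) 0 := by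
      have := (nuL (G.Z (π / 2) x)).hasFDerivAt.comp_hasDerivAt (0 : ℝ) a3
      refine HasDerivAt.congr_of_eventuallyEq this (Eventually.of_forall fun τ => ?_)
      simp only [Function.comp_apply, hγ]
      rw [G.Z_eqv B.met _ _ _ _ _ one_ne_zero hm (hR τ), one_smul]
      rfl
    rw [a2] at a1
    have a5 := a1.unique ((hL.hasDerivAt_arg 0).const_sub _)
    rw [a5, a4.deriv, hL.zero, div_one, neg_add_cancel]

theorem exists_kdata : Nonempty (KData g G) := by
  classical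
  have hex : ∀ x ∈ OO n, ∃ K, G.IsK x K ∧ 0 < circW G x K := by
    intro x hx
    obtain ⟨K, hK⟩ := B.exists_isK x hx
    rcases lt_or_gt_of_ne (B.circW_ne hx hK) with h | h
    · exact ⟨-K, hK.neg, by rw [B.circW_neg hx hK]; linarith⟩
    · exact ⟨K, hK, h⟩
  choose! K hK hW using hex
  have huniq : ∀ x ∈ OO n, ∀ K', G.IsK x K' → 0 < circW G x K' → K x = K' := by
    intro x hx K' hK' hW'
    rcases (hK x hx).eq_or B.met hx hK' with e | e
    · exact e.symm
    · rw [e, B.circW_neg hx (hK x hx)] at hW'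
      linarith [hW x hx]
  obtain ⟨x₀, hx₀, -⟩ := B.exists_conj
  obtain ⟨j, hj⟩ := (B.circ_loop hx₀ (hK x₀ hx₀)).arg_int
  have hWj : ∀ x ∈ OO n, circW G x (K x) = 2 * π * j := fun x hx => by
    have := B.circW_const hx₀ hx (hK x₀ hx₀) (hK x hx)
    rw [abs_of_pos (hW x hx), abs_of_pos (hW x₀ hx₀)] at this
    rw [this, circW, hj]
  refine ⟨⟨K, fun x hx => ?_, hK, fun l m c x hl hm hx => ?_, j, fun h0 => ?_, fun x hx => ?_⟩⟩
  · obtain ⟨U, k, hU, hx0, hUO, hks, hk, -, he⟩ := B.circ_local hx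
    have hka := hks.contDiffAt (hU.mem_nhds hx0)
    rcases lt_or_gt_of_ne (B.circW_ne hx (hk x hx0)) with h | h
    · refine (hka.neg.congr_of_eventuallyEq ?_).contDiffWithinAt
      filter_upwards [he, hU.mem_nhds hx0] with y hy hyU
      refine huniq y (hUO hyU) _ (hk y hyU).neg ?_
      rw [B.circW_neg (hUO hyU) (hk y hyU), hy]
      linarith
    · refine (hka.congr_of_eventuallyEq ?_).contDiffWithinAt
      filter_upwards [he, hU.mem_nhds hx0] with y hy hyU
      exact huniq y (hUO hyU) _ (hk y hyU) (by rw [hy]; exact h)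
  · refine huniq _ (act_mem c hl hm hx) _ ((hK x hx).act B.met hx c hl hm) ?_
    rw [circW, circKap_act G B.met hx (hK x hx) c hl hm]
    exact hW x hx
  · have := hW x₀ hx₀
    rw [hWj x₀ hx₀, h0] at this
    simp at this
  · have hL := B.circ_loop hx (hK x hx)
    refine ⟨circArg (circKap G x (K x)), hL.smooth_arg, circArg_zero _, fun σ => ?_, fun σ => ?_⟩
    · rw [hL.arg_per, ← circW, hWj x hx]
    · rw [← hL.eq_exp, B.circ_Z_rot hx (hK x hx)]

end Bl

end Pool.Agent.Work.MP_8c604c_gt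
end
end
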