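import Pool.Agent.Work.MP_8c604c_gt.T.OutS

/-!
Algebraic part of the topological identity.
-/

set_option maxSynthPendingDepth 3

open Set Filter Topology MeasureTheory
open scoped ContDiff

noncomputable section
namespace Pool.Agent.Work.MP_8c604c_gt

open TopologicalSpace Lam Om Finset

set_option linter.unusedSectionVars false

variable {V P : Type} [NormedAddCommGroup V] [NormedSpace ℝ V] [FiniteDimensional ℝ V]
  [NormedAddCommGroup P] [NormedSpace ℝ P] [FiniteDimensional ℝ P]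
variable {U : Opens V} {W : Opens P}

namespace Om

theorem inv_inv (a : Om U) : inv (inv a) = a :=
  ext fun x hx => by rw [ev_inv _ hx, ev_inv _ hx, invol_invol]

/-- Even central elements. -/
structure Ev (a : Om U) : Prop where
  comm : ∀ c, Commute a c
  inv : inv a = a

theorem Ev.add {a b : Om U} (ha : Ev a) (hb : Ev b) : Ev (a + b) :=
  ⟨fun c => (ha.comm c).add_left (hb.comm c), by rw [map_add, ha.inv, hb.inv]⟩

theorem Ev.sub {a b : Om U} (ha : Ev a) (hb : Ev b) : Ev (a - b) :=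
  ⟨fun c => (ha.comm c).sub_left (hb.comm c), by rw [map_sub, ha.inv, hb.inv]⟩

theorem Ev.mul {a b : Om U} (ha : Ev a) (hb : Ev b) : Ev (a * b) :=
  ⟨fun c => (ha.comm c).mul_left (hb.comm c), by rw [map_mul, ha.inv, hb.inv]⟩

theorem Ev.pow {a : Om U} (ha : Ev a) (k : ℕ) : Ev (a ^ k) :=
  ⟨fun c => (ha.comm c).pow_left k, by rw [map_pow, ha.inv]⟩

theorem Ev.smul {a : Om U} (ha : Ev a) (r : ℝ) : Ev (r • a) :=
  ⟨fun c => (ha.comm c).smul_left r, by rw [map_smul, ha.inv]⟩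

theorem IsOne.ev_d {a : Om U} (h : IsOne a) : Ev (Om.d a) := ⟨h.commute_d, h.inv_d⟩

theorem IsFn.ev {a : Om U} (h : IsFn a) : Ev a := ⟨h.commute, h.inv⟩

theorem IsOne.ev_mul {a b : Om U} (ha : IsOne a) (hb : IsOne b) : Ev (a * b) := by
  refine ⟨fun c => ?_, by rw [map_mul, ha.inv, hb.inv, neg_mul_neg]⟩
  change a * b * c = c * (a * b)
  rw [mul_assoc, hb.mul_eq, ← mul_assoc, ha.mul_eq, inv_inv, mul_assoc]

theorem Ev.d_mul {a : Om U} (ha : Ev a) (b : Om U) : d (a * b) = d a * b + a * d b := by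
  rw [Om.d_mul, ha.inv]

theorem Ev.d_pow {a : Om U} (ha : Ev a) (k : ℕ) :
    d (a ^ (k + 1)) = ((k : ℝ) + 1) • (a ^ k * d a) := by
  induction k with
  | zero => simp
  | succ k ih =>
    rw [pow_succ' a (k + 1), ha.d_mul, ih, ← ((ha.pow (k + 1)).comm (d a)).eq, mul_smul_comm,
      ← mul_assoc, ← pow_succ']
    push_cast
    module

theorem d_pow_closed {a : Om U} (ha : d a = 0) (k : ℕ) : d (a ^ k) = 0 := by
  induction k with
  | zero => simpa using d_one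
  | succ k ih => rw [pow_succ, Om.d_mul, ih, ha]; simp

theorem d_mul_closed (a : Om U) {b : Om U} (hb : d b = 0) : d (a * b) = d a * b := by
  rw [Om.d_mul, hb]; simp

theorem d_algebraMap (r : ℝ) : d (algebraMap ℝ (Om U) r) = 0 := by
  rw [Algebra.algebraMap_eq_smul_one, map_smul, d_one, smul_zero]

end Om

/-- The two-variable geometric sum. -/
def gs {R : Type} [Ring R] (a b : R) (k : ℕ) : R := ∑ i ∈ range (k + 1), a ^ i * b ^ (k - i)

theorem gs_succ {R : Type} [Ring R] (a b : R) (k : ℕ) :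
    gs a b (k + 1) = a * gs a b k + b ^ (k + 1) := by
  unfold gs
  rw [sum_range_succ', mul_sum]
  simp only [pow_zero, one_mul, Nat.sub_zero, Nat.add_sub_add_right, pow_succ', mul_assoc]

theorem gs_zero {R : Type} [Ring R] (a b : R) : gs a b 0 = 1 := by simp [gs]

theorem sub_mul_gs {R : Type} [Ring R] {a b : R} (h : Commute a b) (k : ℕ) :
    (a - b) * gs a b k = a ^ (k + 1) - b ^ (k + 1) := by
  have := h.mul_geom_sum₂ (k + 1)
  simpa [gs] using this

theorem map_gs {R S : Type} [Ring R] [Ring S] [Algebra ℝ R] [Algebra ℝ S] (f : R →ₐ[ℝ] S) (a b : R)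
    (k : ℕ) : f (gs a b k) = gs (f a) (f b) k := by
  simp [gs, map_sum]

theorem gs_mem {R : Type} [Ring R] [Algebra ℝ R] (S : Subalgebra ℝ R) {a b : R} (ha : a ∈ S)
    (hb : b ∈ S) (k : ℕ) : gs a b k ∈ S :=
  S.sum_mem fun _ _ => S.mul_mem (S.pow_mem ha _) (S.pow_mem hb _)

theorem d_gs {a b : Om U} (ha : d a = 0) (hb : d b = 0) (k : ℕ) : d (gs a b k) = 0 := by
  unfold gs
  rw [map_sum]
  exact sum_eq_zero fun i _ => by rw [d_mul_closed _ (d_pow_closed hb _), d_pow_closed ha, zero_mul]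

namespace Flw
variable (F : Flw U)

theorem iX_mul (a b : Om U) : F.iX (a * b) = F.iX a * b + Om.inv a * F.iX b := ctrF_mul _ _ _ _

theorem iX_iX (a : Om U) : F.iX (F.iX a) = 0 := ctrF_ctrF _ _ _

theorem iX_one : F.iX (1 : Om U) = 0 := by
  have h := F.iX_mul 1 1
  rw [one_mul, mul_one, map_one Om.inv, one_mul] at h
  exact left_eq_add.1 h

/-- Forms killed by the generator. -/
def Hor : Subalgebra ℝ (Om U) where
  carrier := {a | F.iX a = 0}
  mul_mem' {a b} ha hb := by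
    change F.iX (a * b) = 0
    rw [F.iX_mul, show F.iX a = 0 from ha, show F.iX b = 0 from hb]; simp
  add_mem' {a b} ha hb := by
    change F.iX (a + b) = 0
    rw [map_add, show F.iX a = 0 from ha, show F.iX b = 0 from hb]; simp
  algebraMap_mem' r := by
    change F.iX _ = 0
    rw [Algebra.algebraMap_eq_smul_one, map_smul, F.iX_one, smul_zero]

theorem mem_hor {a : Om U} : a ∈ F.Hor ↔ F.iX a = 0 := Iff.rfl

/-- Invariant forms as a subalgebra. -/
def InvS : Subalgebra ℝ (Om U) where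
  carrier := {a | F.Inv a}
  mul_mem' {a b} ha hb t := by rw [map_mul, ha t, hb t]
  add_mem' {a b} ha hb t := by rw [map_add, ha t, hb t]
  algebraMap_mem' r t := AlgHom.commutes _ r

theorem mem_invS {a : Om U} : a ∈ F.InvS ↔ F.Inv a := Iff.rfl

theorem Inv.d {F : Flw U} {a : Om U} (h : F.Inv a) : F.Inv (d a) := fun t => by
  rw [← d_pull, h t]

theorem iX_pow {a : Om U} (ha : Ev a) (k : ℕ) :
    F.iX (a ^ (k + 1)) = ((k : ℝ) + 1) • (a ^ k * F.iX a) := by
  induction k with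
  | zero => simp
  | succ k ih =>
    rw [pow_succ' a (k + 1), F.iX_mul, ha.inv, ih, ← ((ha.pow (k + 1)).comm (F.iX a)).eq,
      mul_smul_comm, ← mul_assoc, ← pow_succ']
    push_cast
    module

theorem iX_snd (γ : Om U) :
    F.cyl.iX (pull (SMap.snd ⊤ U) γ) = pull (SMap.snd ⊤ U) (F.iX γ) := by
  refine ctrF_pull _ _ _ (fun p hp => ?_) γ
  change fderiv ℝ (Prod.snd : ℝ × V → V) p (F.cyl.X p) = F.X p.2
  rw [fderiv_snd, F.cyl_X hp.2]
  rfl

theorem inv_snd {γ : Om U} (h : F.Inv γ) : F.cyl.Inv (pull (SMap.snd ⊤ U) γ) := fun t => by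
  rw [← pull_comp]
  conv_rhs => rw [← h t, ← pull_comp]
  exact pull_congr (fun p _ => rfl) γ

end Flw

namespace Act
variable (A : Act W U)

theorem snd_mem {γ : Om U} (h : γ ∈ A.Basic) : pull (SMap.snd ⊤ U) γ ∈ A.cyl.Basic :=
  A.cyl.pull_mem A _ (fun _ _ _ _ => rfl) h

theorem slc_mem (s : ℝ) {γ : Om (Pool.Agent.Work.MP_8c604c_gt.cyl U)} (h : γ ∈ A.cyl.Basic) :
    pull (SMap.slc U s) γ ∈ A.Basic :=
  A.pull_mem A.cyl _ (fun _ _ _ _ => rfl) h

end Act

/-- Exact with a basic primitive killed by the generator. -/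
def Exa (A : Act W U) (F : Flw U) (a : Om U) : Prop := ∃ k ∈ A.Basic, F.iX k = 0 ∧ d k = a

namespace Exa
variable {A : Act W U} {F : Flw U}

theorem zero : Exa A F 0 := ⟨0, zero_mem _, map_zero _, map_zero _⟩

theorem add {a b : Om U} (ha : Exa A F a) (hb : Exa A F b) : Exa A F (a + b) := by
  obtain ⟨k, h1, h2, rfl⟩ := ha
  obtain ⟨k', h1', h2', rfl⟩ := hb
  exact ⟨k + k', add_mem h1 h1', by rw [map_add, h2, h2', add_zero], map_add _ _ _⟩

theorem smul {a : Om U} (ha : Exa A F a) (r : ℝ) : Exa A F (r • a) := by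
  obtain ⟨k, h1, h2, rfl⟩ := ha
  exact ⟨r • k, Subalgebra.smul_mem _ h1 r, by rw [map_smul, h2, smul_zero], map_smul _ _ _⟩

theorem mul {a c : Om U} (ha : Exa A F a) (h1 : c ∈ A.Basic) (h2 : c ∈ F.Hor) (h3 : d c = 0) :
    Exa A F (a * c) := by
  obtain ⟨k, k1, k2, rfl⟩ := ha
  exact ⟨k * c, mul_mem k1 h1, F.Hor.mul_mem k2 h2, d_mul_closed _ h3⟩

theorem sum {ι : Type} {s : Finset ι} {a : ι → Om U} (h : ∀ i ∈ s, Exa A F (a i)) :
    Exa A F (∑ i ∈ s, a i) :=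
  sum_induction a (Exa A F) (fun _ _ => add) zero h

theorem pow_sub {u v : Om U} (h : Exa A F (u - v)) (huv : Commute u v) (u1 : u ∈ A.Basic)
    (u2 : u ∈ F.Hor) (u3 : d u = 0) (v1 : v ∈ A.Basic) (v2 : v ∈ F.Hor) (v3 : d v = 0) (i : ℕ) :
    Exa A F (u ^ i - v ^ i) := by
  rcases i with _ | i
  · simpa using zero
  · rw [← sub_mul_gs huv]
    exact h.mul (gs_mem _ u1 v1 _) (gs_mem _ u2 v2 _) (d_gs u3 v3 _)

end Exa

/-- The abstract data. -/
structure Ctx (A : Act W U) (F : Flw U) (n : ℕ) where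
  hc : ∀ t, ∀ p ∈ W, ∀ x ∈ U,
    F.big.toFun (t, A.a.toFun (p, x)) = A.a.toFun (p, F.big.toFun (t, x))
  per : ∀ γ ∈ A.cyl.Basic, pull (F.cyl.tm Real.pi) γ = γ
  al : Om U
  al_one : IsOne al
  al_basic : al ∈ A.Basic
  al_inv : F.Inv al
  al_X : F.iX al = 1
  T : Om (cyl U)
  T_one : IsOne T
  b_basic : d T ∈ A.cyl.Basic
  tau_basic : T - pull (SMap.snd ⊤ U) (pull (SMap.slc U (-1)) T) ∈ A.cyl.Basic
  nil : d T ^ (n + 1) = 0
  xp_inv : F.Inv (d (pull (SMap.slc U 1) T))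
  xm_inv : F.Inv (d (pull (SMap.slc U (-1)) T))
  xp_X : F.iX (d (pull (SMap.slc U 1) T)) = 0
  xm_X : F.iX (d (pull (SMap.slc U (-1)) T)) = 0
  δ : ℝ
  lam_X : F.iX (F.avg (pull (SMap.slc U 1) T - pull (SMap.slc U (-1)) T)) = algebraMap ℝ _ δ

namespace Ctx
variable {A : Act W U} {F : Flw U} {n : ℕ} (C : Ctx A F n)

/-- The curvature form at the upper end. -/
def xp : Om U := d (pull (SMap.slc U 1) C.T)
/-- The curvature form at the lower end. -/
def xm : Om U := d (pull (SMap.slc U (-1)) C.T)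
/-- The averaged transgression form. -/
def lam : Om U := F.avg (pull (SMap.slc U 1) C.T - pull (SMap.slc U (-1)) C.T)

include C in
theorem hc' : ∀ t, ∀ p ∈ W, ∀ x ∈ cyl U, F.cyl.big.toFun (t, A.cyl.a.toFun (p, x)) =
    A.cyl.a.toFun (p, F.cyl.big.toFun (t, x)) := fun t p hp x hx =>
  Prod.ext rfl (C.hc t p hp x.2 hx.2)

theorem xp_ev : Ev C.xp := (C.T_one.pull _).ev_d
theorem xm_ev : Ev C.xm := (C.T_one.pull _).ev_d
theorem d_xp : d C.xp = 0 := d_d _
theorem d_xm : d C.xm = 0 := d_d _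
theorem xp_basic : C.xp ∈ A.Basic := by
  unfold xp; rw [d_pull]; exact A.slc_mem _ C.b_basic
theorem xm_basic : C.xm ∈ A.Basic := by
  unfold xm; rw [d_pull]; exact A.slc_mem _ C.b_basic
theorem xp_hor : C.xp ∈ F.Hor := C.xp_X
theorem xm_hor : C.xm ∈ F.Hor := C.xm_X
theorem xp_nil : C.xp ^ (n + 1) = 0 := by
  unfold xp; rw [d_pull, ← map_pow, C.nil, map_zero]
theorem xm_nil : C.xm ^ (n + 1) = 0 := by
  unfold xm; rw [d_pull, ← map_pow, C.nil, map_zero]

theorem lam0_basic : pull (SMap.slc U 1) C.T - pull (SMap.slc U (-1)) C.T ∈ A.Basic := by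
  have := A.slc_mem 1 C.tau_basic
  rwa [map_sub, pull_slc_snd] at this

theorem lam_basic : C.lam ∈ A.Basic := F.avg_mem A C.hc C.lam0_basic
theorem lam_one : IsOne C.lam := F.avg_isOne ((C.T_one.pull _).sub (C.T_one.pull _))

theorem d_lam : d C.lam = C.xp - C.xm := by
  unfold lam
  rw [F.d_avg, map_sub, map_sub, F.avg_of_inv C.xp_inv, F.avg_of_inv C.xm_inv]
  rfl

theorem e_hor : d C.al ∈ F.Hor := by
  have := F.cartan C.al_inv
  rwa [C.al_X, d_one, add_zero] at this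

theorem lam'_hor : C.lam - C.δ • C.al ∈ F.Hor := by
  rw [Flw.mem_hor, map_sub, map_smul, C.al_X]
  change F.iX (F.avg _) - _ = 0
  rw [C.lam_X, Algebra.algebraMap_eq_smul_one, sub_self]

theorem lam'_basic : C.lam - C.δ • C.al ∈ A.Basic :=
  sub_mem C.lam_basic (Subalgebra.smul_mem _ C.al_basic _)

theorem exa_lam' : Exa A F (C.xp - C.xm - C.δ • d C.al) :=
  ⟨_, C.lam'_basic, C.lam'_hor, by rw [map_sub, map_smul, C.d_lam]⟩

theorem fibre : Exa A F (C.δ • gs (C.xp - C.δ • d C.al) C.xp n) := by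
  set pr : Om U →ₐ[ℝ] Om (cyl U) := pull (SMap.snd ⊤ U) with hpr
  set sp : Om (cyl U) →ₐ[ℝ] Om U := pull (SMap.slc U 1) with hsp
  set sm : Om (cyl U) →ₐ[ℝ] Om U := pull (SMap.slc U (-1)) with hsm
  set F' := F.cyl
  set τ := C.T - pr (sm C.T) with hτ
  set tb := F'.avg τ with htb
  set a := pr C.al with ha
  set bb := pr C.xm + d tb with hbb
  set μ := F'.iX tb with hμ
  set y := bb - d μ * a with hy
  set O := y - μ * d a with hO
  have τ1 : IsOne τ := C.T_one.sub ((C.T_one.pull _).pull _)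
  have tb1 : IsOne tb := F'.avg_isOne τ1
  have tbB : tb ∈ A.cyl.Basic := F'.avg_mem A.cyl C.hc' C.tau_basic
  have tbI : F'.Inv tb := F'.inv_avg (C.per _ C.tau_basic)
  have a1 : IsOne a := C.al_one.pull _
  have aB : a ∈ A.cyl.Basic := A.snd_mem C.al_basic
  have aX : F'.iX a = 1 := by rw [ha, hpr, F.iX_snd, C.al_X, map_one]
  have daX : F'.iX (d a) = 0 := by
    rw [ha, d_pull, F.iX_snd, show F.iX (d C.al) = 0 from C.e_hor, map_zero]
  have μF : IsFn μ := tb1.ctrF _ _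
  have μB : μ ∈ A.cyl.Basic := F'.iX_mem A.cyl C.hc' tbB
  have bbd : bb = d (pr (sm C.T) + tb) := by rw [map_add, d_pull]; rfl
  have bbE : Ev bb := by rw [bbd]; exact (((C.T_one.pull _).pull _).add tb1).ev_d
  have dbb : d bb = 0 := by rw [bbd, d_d]
  have bbB : bb ∈ A.cyl.Basic := add_mem (A.snd_mem C.xm_basic) (A.cyl.d_mem tbB)
  have bbI : F'.Inv bb := F'.InvS.add_mem (F.inv_snd C.xm_inv) tbI.d
  have hcar : F'.iX (d tb) = -d μ := eq_neg_of_add_eq_zero_left (F'.cartan tbI)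
  have bbX : F'.iX bb = -d μ := by
    rw [hbb, map_add, hcar, hpr, F.iX_snd, show F.iX C.xm = 0 from C.xm_X, map_zero, zero_add]
  have dμX : F'.iX (d μ) = 0 := by
    have := F'.iX_iX (d tb)
    rwa [hcar, map_neg, neg_eq_zero] at this
  have yE : Ev y := bbE.sub (μF.d.ev_mul a1)
  have yX : F'.iX y = 0 := by
    rw [hy, map_sub, bbX, F'.iX_mul, dμX, aX, μF.d.inv]; simp
  have dy : d y = d μ * d a := by
    rw [hy, map_sub, dbb, Om.d_mul, d_d, μF.d.inv]; simp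
  have yB : y ∈ A.cyl.Basic := sub_mem bbB (mul_mem (A.cyl.d_mem μB) aB)
  have OE : Ev O := yE.sub (μF.ev.mul a1.ev_d)
  have dO : d O = 0 := by rw [hO, map_sub, dy, d_mul_closed _ (d_d a), sub_self]
  have μX : F'.iX μ = 0 := F'.iX_iX _
  have OX : O ∈ F'.Hor := F'.Hor.sub_mem yX (F'.Hor.mul_mem μX daX)
  have OB : O ∈ A.cyl.Basic := sub_mem yB (mul_mem μB (A.cyl.d_mem aB))
  have hΨ : ∀ k : ℕ, d (μ * gs O y k) = ((k : ℝ) + 1) • (y ^ k * d μ) := by
    intro k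
    induction k with
    | zero => simp [gs_zero]
    | succ k ih =>
      have e1 : μ * gs O y (k + 1) = O * (μ * gs O y k) + μ * y ^ (k + 1) := by
        rw [gs_succ, mul_add, ← mul_assoc, (μF.commute O).eq, mul_assoc]
      have e2 : O * (y ^ k * d μ) + μ * (y ^ k * (d μ * d a)) = y ^ (k + 1) * d μ := by
        have e3 : μ * (y ^ k * (d μ * d a)) = μ * d a * (y ^ k * d μ) := by
          rw [← mul_assoc (y ^ k), ← (a1.commute_d (y ^ k * d μ)).eq, mul_assoc]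
        rw [e3, ← add_mul, hO, sub_add_cancel, ← mul_assoc, ← pow_succ']
      rw [e1, map_add, OE.d_mul, dO, zero_mul, zero_add, ih, μF.ev.d_mul, yE.d_pow, dy,
        mul_smul_comm, mul_smul_comm, ← ((yE.pow (k + 1)).comm (d μ)).eq, add_left_comm,
        ← smul_add, e2]
      push_cast
      module
  have hbd : ∀ k : ℕ, bb ^ k * d μ = y ^ k * d μ := by
    intro k
    have e1 : bb * d μ = y * d μ := by
      rw [hy, sub_mul, mul_assoc, a1.mul_eq, μF.d.inv, neg_mul, mul_neg, ← mul_assoc, μF.d.sq]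
      simp
    induction k with
    | zero => simp
    | succ k ih =>
      rw [pow_succ, mul_assoc, e1, ← mul_assoc, ← (yE.comm (bb ^ k)).eq, mul_assoc, ih,
        ← mul_assoc, ← pow_succ']
  set ζ := F'.avg ((tb - τ) * gs bb (d C.T) n) with hζ
  have ζ0B : (tb - τ) * gs bb (d C.T) n ∈ A.cyl.Basic :=
    mul_mem (sub_mem tbB C.tau_basic) (gs_mem _ bbB C.b_basic _)
  have ζB : ζ ∈ A.cyl.Basic := F'.avg_mem A.cyl C.hc' ζ0B
  have ζI : F'.Inv ζ := F'.inv_avg (C.per _ ζ0B)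
  have dζ : d ζ = bb ^ (n + 1) := by
    have e1 : d (tb - τ) = bb - d C.T := by
      rw [map_sub, hτ, map_sub, bbd, map_add]; abel
    rw [hζ, F'.d_avg, d_mul_closed _ (d_gs dbb (d_d _) _), e1, sub_mul_gs (bbE.comm _), C.nil,
      sub_zero, F'.avg_of_inv (F'.InvS.pow_mem bbI _)]
  have smτ : sm τ = 0 := by rw [hτ, map_sub, hsm, hpr, pull_slc_snd, sub_self]
  have smtb : sm tb = 0 := by rw [htb, hsm, F.slc_avg, ← hsm, smτ, map_zero]
  have spτ : sp τ = sp C.T - sm C.T := by rw [hτ, map_sub, hsp, hpr, pull_slc_snd]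
  have sptb : sp tb = C.lam := by rw [htb, hsp, F.slc_avg, ← hsp, spτ]; rfl
  have spbb : sp bb = C.xp := by
    rw [hbb, map_add, hsp, hpr, pull_slc_snd, ← d_pull, ← hsp, sptb, C.d_lam]; abel
  have lamI : F.Inv C.lam := by
    intro t
    have e1 := congrArg sp (tbI t)
    rw [sptb, hsp, ← pull_comp] at e1
    rw [← sptb, hsp, ← pull_comp, ← hsp, sptb, ← e1]
    exact pull_congr (fun _ _ => rfl) _
  have smζ : sm ζ = 0 := by
    rw [hζ, hsm, F.slc_avg, ← hsm, map_mul, map_sub, smtb, smτ]; simp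
  have spζ : sp ζ = 0 := by
    rw [hζ, hsp, F.slc_avg, ← hsp, map_mul, map_gs, spbb, hsp, ← d_pull, ← hsp,
      F.avg_mul_right (γ := gs C.xp (d (sp C.T)) n) (gs_mem F.InvS C.xp_inv C.xp_inv n), map_sub, map_sub, sptb, spτ,
      F.avg_of_inv lamI]
    change (C.lam - C.lam) * _ = 0
    simp
  have dχ : d (μ * gs O y n - F'.iX ζ) = 0 := by
    have e1 := F'.cartan ζI
    rw [dζ, F'.iX_pow bbE, bbX, mul_neg, hbd] at e1
    rw [smul_neg] at e1
    rw [map_sub, hΨ, neg_add_eq_zero.1 e1, sub_self]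
  have spμ : sp μ = algebraMap ℝ _ C.δ := by
    rw [hμ, hsp, F.slc_iX, ← hsp, sptb]; exact C.lam_X
  have spa : sp a = C.al := by rw [ha, hsp, hpr, pull_slc_snd]
  have spy : sp y = C.xp := by
    rw [hy, map_sub, spbb, map_mul, hsp, ← d_pull, ← hsp, spμ, d_algebraMap]; simp
  have spO : sp O = C.xp - C.δ • d C.al := by
    rw [hO, map_sub, spy, map_mul, spμ, hsp, ← d_pull, ← hsp, spa, Algebra.smul_def]
  refine ⟨J (-1) 1 (μ * gs O y n - F'.iX ζ), A.J_mem (sub_mem (mul_mem μB (gs_mem _ OB yB _))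
    (F'.iX_mem A.cyl C.hc' ζB)) _ _, ?_, ?_⟩
  · rw [F.iX_J, map_sub, F'.iX_iX,
      show F'.iX (μ * gs O y n) = 0 from F'.Hor.mul_mem μX (gs_mem _ OX yX _)]
    simp
  · have e1 := homotopy (-1) 1 (μ * gs O y n - F'.iX ζ)
    rw [dχ, map_zero, add_zero] at e1
    rw [e1, map_sub, map_sub, F.slc_iX, F.slc_iX, ← hsp, ← hsm, spζ, smζ, map_mul, map_mul, map_gs,
      spμ, spO, spy, hμ, hsm, F.slc_iX, ← hsm, smtb, ← Algebra.smul_def]
    simp

theorem exa_r (hδ : C.δ ≠ 0) : Exa A F (gs C.xm C.xp n) := by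
  have h1 := C.fibre.smul C.δ⁻¹
  rw [smul_smul, inv_mul_cancel₀ hδ, one_smul] at h1
  have eB : C.δ • d C.al ∈ A.Basic := Subalgebra.smul_mem _ (A.d_mem C.al_basic) _
  have eH : C.δ • d C.al ∈ F.Hor := Subalgebra.smul_mem _ C.e_hor _
  have h2 : Exa A F (C.xm - (C.xp - C.δ • d C.al)) := by
    have := C.exa_lam'.smul (-1)
    convert this using 1
    module
  have h3 : Exa A F (gs C.xm C.xp n - gs (C.xp - C.δ • d C.al) C.xp n) := by
    unfold gs
    rw [← sum_sub_distrib]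
    refine Exa.sum fun i _ => ?_
    rw [← sub_mul]
    refine (h2.pow_sub (C.xm_ev.comm _) C.xm_basic C.xm_hor C.d_xm (sub_mem C.xp_basic eB)
      (sub_mem C.xp_hor eH) ?_ i).mul (pow_mem C.xp_basic _) (pow_mem C.xp_hor _)
      (d_pow_closed C.d_xp _)
    rw [map_sub, map_smul, d_d, C.d_xp]; simp
  simpa using h3.add h1

/-- Polynomial identity for two nilpotent elements. -/
theorem nil_pow {R : Type} [CommRing R] {a b : R} {m : ℕ} (ha : a ^ (m + 2) = 0)
    (hb : b ^ (m + 2) = 0) : (a - b) ^ (2 * m + 1) =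
      ((-1) ^ m * Nat.choose (2 * m + 1) (m + 1) : ℤ) * (b ^ m * a ^ (m + 1) - b ^ (m + 1) * a ^ m) := by
  rw [sub_eq_add_neg, add_pow, sum_eq_add_of_mem m (m + 1) (by simp; omega) (by simp; omega)
    (by omega)]
  · rw [show 2 * m + 1 - m = m + 1 by omega, show 2 * m + 1 - (m + 1) = m by omega,
      ← Nat.choose_symm_half, neg_pow b, neg_pow b]
    push_cast
    ring
  · intro c hc ⟨h1, h2⟩
    rcases lt_or_gt_of_ne h1 with h | h
    · rw [show 2 * m + 1 - c = (m + 2) + (m - 1 - c) by omega, neg_pow b, pow_add b, hb]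
      simp
    · rw [show c = (m + 2) + (c - (m + 2)) by omega, pow_add a, ha]
      simp

end Ctx

/-- Homotopy invariance of the helicity. -/
theorem helicity (A : Act W U) {I : Om U →ₗ[ℝ] ℝ} (hI : ∀ k ∈ A.Basic, I (d k) = 0)
    {c : Om (cyl U)} (cB : c ∈ A.cyl.Basic) (cE : Ev c) (dc : d c = 0) (cc : c * c = 0)
    (s₀ s₁ : ℝ) {p : Om U} (pB : p ∈ A.Basic) (dp : d p = pull (SMap.slc U s₀) c) :
    ∃ p' ∈ A.Basic, d p' = pull (SMap.slc U s₁) c ∧
      I (pull (SMap.slc U s₁) c * p') = I (pull (SMap.slc U s₀) c * p) := by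
  let Ψ : SMap (cyl (cyl U)) (cyl U) :=
    ⟨fun q => (s₀ + q.1 * (q.2.1 - s₀), q.2.2),
      (contDiffOn_const.add (contDiffOn_fst.mul (contDiffOn_snd.fst.sub contDiffOn_const))).prodMk
        contDiffOn_snd.snd, fun _ hq => ⟨trivial, hq.2.2⟩⟩
  have ΨB : pull Ψ c ∈ A.cyl.cyl.Basic := A.cyl.cyl.pull_mem A.cyl Ψ (fun _ _ _ _ => rfl) cB
  set Pi := pull (SMap.snd ⊤ U) p + J 0 1 (pull Ψ c) with hPi
  have PiB : Pi ∈ A.cyl.Basic := add_mem (A.snd_mem pB) (A.cyl.J_mem ΨB _ _)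
  have dPi : d Pi = c := by
    have e1 := homotopy 0 1 (pull Ψ c)
    rw [d_pull, dc, map_zero, map_zero, add_zero, ← pull_comp, ← pull_comp,
      pull_id (f := Ψ.comp (SMap.slc _ 1)) (fun q _ => by simp [Ψ, SMap.comp, SMap.slc])] at e1
    rw [hPi, map_add, e1, d_pull, dp, ← pull_comp,
      pull_congr (f := Ψ.comp (SMap.slc _ 0)) (f' := (SMap.slc U s₀).comp (SMap.snd ⊤ U))
        (fun q _ => by simp [Ψ, SMap.comp, SMap.slc, SMap.snd])]
    abel
  have s0Pi : pull (SMap.slc U s₀) Pi = p := by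
    rw [hPi, map_add, pull_slc_snd, pull_J, ← pull_comp,
      pull_congr (f := Ψ.comp (SMap.slc U s₀).cylMap) (f' := (SMap.slc U s₀).comp (SMap.snd ⊤ U))
        (fun q _ => by simp [Ψ, SMap.comp, SMap.slc, SMap.snd, SMap.cylMap]), pull_comp]
    change p + Sl 0 1 (dT _) = p
    rw [dT_snd, map_zero, add_zero]
  refine ⟨pull (SMap.slc U s₁) Pi, A.slc_mem _ PiB, by rw [d_pull, dPi], ?_⟩
  have e1 := homotopy s₀ s₁ (c * Pi)
  rw [cE.d_mul, dc, dPi, cc, zero_mul, add_zero, map_zero, add_zero, map_mul (pull _), map_mul (pull _),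
    s0Pi] at e1
  have e2 := hI _ (A.J_mem (mul_mem cB PiB) s₀ s₁)
  rw [e1, map_sub] at e2
  exact sub_eq_zero.1 e2

namespace Ctx
variable {A : Act W U} {F : Flw U} {m : ℕ} (C : Ctx A F (m + 1))

/-- Partial primitives. -/
def q (j : ℕ) : Om U := ∑ i ∈ range j, C.lam * (C.xm ^ i * C.xp ^ (m - i))

theorem q_basic (j : ℕ) : C.q j ∈ A.Basic :=
  sum_mem fun _ _ => mul_mem C.lam_basic (mul_mem (pow_mem C.xm_basic _) (pow_mem C.xp_basic _))

theorem d_q {j : ℕ} (hj : j ≤ m + 1) :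
    d (C.q j) = C.xp ^ (m + 1) - C.xm ^ j * C.xp ^ (m + 1 - j) := by
  induction j with
  | zero => simp [q]
  | succ j ih =>
    have hc : d (C.xm ^ j * C.xp ^ (m - j)) = 0 := by
      rw [d_mul_closed _ (d_pow_closed C.d_xp _), d_pow_closed C.d_xm, zero_mul]
    have e : C.q (j + 1) = C.q j + C.lam * (C.xm ^ j * C.xp ^ (m - j)) := sum_range_succ _ _
    rw [e, map_add, ih (by omega), d_mul_closed _ hc, C.d_lam, sub_mul,
      show m + 1 - j = (m - j) + 1 by omega, show m + 1 - (j + 1) = m - j by omega,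
      (C.xp_ev.comm _).eq, pow_succ' C.xm j, pow_succ C.xp (m - j), mul_assoc, mul_assoc]
    abel

theorem xp_q {j : ℕ} (hj : j ≤ m) : C.xp ^ (m + 1) * C.q j = 0 := by
  unfold q
  rw [mul_sum]
  refine sum_eq_zero fun i hi => ?_
  have hi' := mem_range.1 hi
  rw [((C.xp_ev.pow _).comm _).eq, mul_assoc, mul_assoc, ← pow_add,
    show m - i + (m + 1) = (m + 1 + 1) + (m - i - 1) by omega, pow_add, C.xp_nil]
  simp

theorem xp_q_top : C.xp ^ (m + 1) * C.q (m + 1) = C.lam * (C.xm ^ m * C.xp ^ (m + 1)) := by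
  have e : C.q (m + 1) = C.q m + C.lam * (C.xm ^ m * C.xp ^ (m - m)) := sum_range_succ _ _
  rw [e, mul_add, C.xp_q le_rfl, zero_add, ((C.xp_ev.pow _).comm _).eq]
  simp [mul_assoc]

theorem xm_q (j : ℕ) : C.xm ^ (m + 1) * C.q (j + 1) = C.lam * (C.xm ^ (m + 1) * C.xp ^ m) := by
  unfold q
  rw [sum_range_succ', mul_add, mul_sum, sum_eq_zero, zero_add, ← mul_assoc,
    ((C.xm_ev.pow _).comm C.lam).eq]
  · simp [mul_assoc]
  · intro i _
    rw [← mul_assoc, ((C.xm_ev.pow _).comm C.lam).eq, mul_assoc, ← mul_assoc (C.xm ^ (m + 1)),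
      ← pow_add, show m + 1 + (i + 1) = (m + 1 + 1) + i by omega, pow_add, C.xm_nil]
    simp

theorem main (hδ : C.δ ≠ 0) {I : Om U →ₗ[ℝ] ℝ} (hI : ∀ k ∈ A.Basic, I (d k) = 0)
    (hH : ∀ k ∈ A.Basic, F.iX k = 0 → I k = 0) :
    ∃ p ∈ A.Basic, ∃ p' ∈ A.Basic, d p = C.xp ^ (m + 1) ∧ d p' = C.xm ^ (m + 1) ∧
      C.δ ^ (2 * m + 2) * I (C.al * d C.al ^ (2 * m + 1)) =
        (-1) ^ m * Nat.choose (2 * m + 1) (m + 1) * ((m + 2) *
          (I (C.xp ^ (m + 1) * p) + I (C.xm ^ (m + 1) * p'))) := by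
  obtain ⟨κ, κB, κX, dκ⟩ := C.exa_r hδ
  set Q := ∑ j ∈ range (m + 2), C.q j with hQ
  set p := ((m : ℝ) + 2)⁻¹ • (κ + Q) with hp
  have m2 : (m : ℝ) + 2 ≠ 0 := by positivity
  have pB : p ∈ A.Basic := Subalgebra.smul_mem _ (add_mem κB (sum_mem fun j _ => C.q_basic j)) _
  have dp : d p = C.xp ^ (m + 1) := by
    have e : d Q = ((m : ℝ) + 2) • C.xp ^ (m + 1) - gs C.xm C.xp (m + 1) := by
      rw [hQ, map_sum, sum_congr rfl fun j hj => C.d_q (Nat.lt_succ_iff.1 (mem_range.1 hj)),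
        sum_sub_distrib, sum_const, card_range, ← Nat.cast_smul_eq_nsmul ℝ]
      rw [show ((m + 1).succ : ℕ) = m + 2 from rfl]
      push_cast
      rfl
    rw [hp, map_smul, map_add, dκ, e, add_sub_cancel, smul_smul, inv_mul_cancel₀ m2, one_smul]
  have hκ : κ = ((m : ℝ) + 2) • p - Q := by
    rw [hp, smul_smul, mul_inv_cancel₀ m2, one_smul, add_sub_cancel_right]
  refine ⟨p, pB, p - C.q (m + 1), sub_mem pB (C.q_basic _), dp, ?_, ?_⟩
  · rw [map_sub, dp, C.d_q le_rfl]; simp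
  have e1 := hH _ (mul_mem (pow_mem C.xp_basic (m + 1)) κB)
    (F.Hor.mul_mem (pow_mem C.xp_hor _) κX)
  have e2 := hH _ (mul_mem (pow_mem C.xm_basic (m + 1)) κB)
    (F.Hor.mul_mem (pow_mem C.xm_hor _) κX)
  have q1 : C.xp ^ (m + 1) * Q = C.lam * (C.xm ^ m * C.xp ^ (m + 1)) := by
    rw [hQ, sum_range_succ, mul_add, C.xp_q_top, mul_sum,
      sum_eq_zero fun j hj => C.xp_q (Nat.lt_succ_iff.1 (mem_range.1 hj)), zero_add]
  have q2 : C.xm ^ (m + 1) * Q = ((m : ℝ) + 1) • (C.lam * (C.xm ^ (m + 1) * C.xp ^ m)) := by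
    rw [hQ, sum_range_succ', mul_add, mul_sum, sum_congr rfl fun j _ => C.xm_q j, sum_const,
      card_range, ← Nat.cast_smul_eq_nsmul ℝ]
    simp [q]
  rw [hκ, mul_sub, mul_smul_comm, q1, map_sub, map_smul, smul_eq_mul] at e1
  rw [hκ, mul_sub, mul_smul_comm, q2, map_sub, map_smul, map_smul, smul_eq_mul, smul_eq_mul] at e2
  have eB : C.δ • d C.al ∈ A.Basic := Subalgebra.smul_mem _ (A.d_mem C.al_basic) _
  have eH : C.δ • d C.al ∈ F.Hor := Subalgebra.smul_mem _ C.e_hor _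
  have uB := sub_mem C.xp_basic C.xm_basic
  have uH := sub_mem C.xp_hor C.xm_hor
  obtain ⟨k, kB, kX, dk⟩ := C.exa_lam'.pow_sub ((C.xp_ev.sub C.xm_ev).comm _) uB uH
    (by rw [map_sub, C.d_xp, C.d_xm, sub_zero]) eB eH (by rw [map_smul, d_d, smul_zero]) (2 * m + 1)
  have e3 := hI _ (mul_mem C.al_basic kB)
  rw [Om.d_mul, C.al_one.inv, neg_mul, map_add, map_neg,
    hH _ (mul_mem (A.d_mem C.al_basic) kB) (F.Hor.mul_mem C.e_hor kX), zero_add, neg_eq_zero, dk,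
    mul_sub, map_sub, smul_pow, mul_smul_comm, map_smul, smul_eq_mul] at e3
  have e4 := hH _ (mul_mem C.lam'_basic (pow_mem uB (2 * m + 1)))
    (F.Hor.mul_mem C.lam'_hor (pow_mem uH _))
  rw [sub_mul, smul_mul_assoc, map_sub, map_smul, smul_eq_mul] at e4
  have e5 : (C.xp - C.xm) ^ (2 * m + 1) = ((-1 : ℝ) ^ m * Nat.choose (2 * m + 1) (m + 1)) •
      (C.xm ^ m * C.xp ^ (m + 1) - C.xm ^ (m + 1) * C.xp ^ m) := by
    let a : Subalgebra.center ℝ (Om U) :=
      ⟨C.xp, Subalgebra.mem_center_iff.2 fun b => (C.xp_ev.comm b).eq.symm⟩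
    let b : Subalgebra.center ℝ (Om U) :=
      ⟨C.xm, Subalgebra.mem_center_iff.2 fun b => (C.xm_ev.comm b).eq.symm⟩
    have := congrArg (Subalgebra.center ℝ (Om U)).val (nil_pow (a := a) (b := b) (m := m)
      (Subtype.ext C.xp_nil) (Subtype.ext C.xm_nil))
    have e : algebraMap ℝ (Om U) ((-1 : ℝ) ^ m * Nat.choose (2 * m + 1) (m + 1)) =
        (((-1) ^ m * Nat.choose (2 * m + 1) (m + 1) : ℤ) : Om U) := by simp
    rw [Algebra.smul_def, e]
    rw [map_mul, map_intCast] at this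
    exact this
  rw [e5, mul_smul_comm, map_smul, mul_sub, map_sub, smul_eq_mul, ← e5] at e4
  rw [mul_sub, C.xm_q, map_sub]
  have e6 : I (C.al * (C.xp - C.xm) ^ (2 * m + 1)) =
      C.δ ^ (2 * m + 1) * I (C.al * d C.al ^ (2 * m + 1)) := by linarith
  rw [e6] at e4
  rw [pow_succ' C.δ (2 * m + 1), mul_assoc, ← sub_eq_zero.1 e4]
  congr 1
  linarith

end Ctx

end Pool.Agent.Work.MP_8c604c_gt
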