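import Pool.Agent.Work.MP_8c604c_gt.StokesA
import Pool.Agent.Work.MP_8c604c_gt.TopA
import Pool.Agent.Work.MP_8c604c_gt.Dist

-- merged part: Pool.Agent.Work.MP_8c604c_gt.Stokes
section
/-!
Integration of basic forms over the unit tangent bundle, written upstairs.
Hints. stokes: top (dop A) is a sum of coordinates of A (bas i); each term is the integral of a directional derivative of a smooth
compactly supported function (integral_fderiv_eq_zero type lemma, e.g. integral_bilinear_hasLineDerivAt_right_eq_neg_left_of_integrable).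
The form wg s vanishes outside a compact subset of OO. II_d: d (wg * k) = (four closed one-forms) * (dTheta * k - Theta * d k), and
top of (four one-forms) * (basic form) is 0 by Lam.top_horizontal, finrank_Bdir. II_indep: same with (f2 - f2') df1 df3 df4.
dTheta is basic for the scalar action on UE (actE); dTheta_pow: degree 2n+2 and killed by contraction with z.
-/

set_option maxSynthPendingDepth 3

open Set Filter Topology MeasureTheory
open scoped ContDiff

noncomputable section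
namespace Pool.Agent.Work.MP_8c604c_gt

open TopologicalSpace Lam Om

variable {n : ℕ}

/-- Admissible scale functions. -/
structure Adm (s : VV n → ℝ) : Prop where
  smooth : ContDiffOn ℝ ∞ s (OO n)
  pos : ∀ x ∈ OO n, 0 < s x
  hom : ∀ l m c x, l ≠ 0 → 0 < m → x ∈ OO n → s (act l m c x) = m * s x

theorem IsMetric.adm {g : Met n} (h : IsMetric g) : Adm (spd g) :=
  ⟨h.contDiffOn_spd, fun _ hx => h.spd_pos hx, fun _ _ c _ hl hm hx => h.spd_act c hl hm hx.1⟩

/-- Differential of the smooth step function of `f`. -/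
def dst (f : VV n → ℝ) (hf : ContDiffOn ℝ ∞ f (UO n)) : Om (UO n) :=
  d (fn (fun x => Real.smoothTransition (f x)) (Real.smoothTransition.contDiff.comp_contDiffOn hf))

theorem smooth_f1 : ContDiffOn ℝ ∞ (fun x : VV n => Real.log ‖x.1‖) (UO n) :=
  (contDiffOn_fst.norm ℝ fun _ hx => hx.1).log fun _ hx => norm_ne_zero_iff.2 hx.1

theorem Adm.smooth_f2 {s : VV n → ℝ} (hs : Adm s) :
    ContDiffOn ℝ ∞ (fun x => Real.log (s x)) (UO n) :=
  hs.smooth.log fun x hx => (hs.pos x hx).ne'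

theorem stokes_smooth_nu : ContDiffOn ℝ ∞ (fun x : VV n => nu x.1 x.2) (UO n) :=
  (contDiffOn_nuL.comp contDiffOn_fst fun _ hx => hx.1).clm_apply contDiffOn_snd

theorem smooth_f3 : ContDiffOn ℝ ∞ (fun x : VV n => (nu x.1 x.2).re) (UO n) :=
  Complex.reCLM.contDiff.comp_contDiffOn stokes_smooth_nu

theorem smooth_f4 : ContDiffOn ℝ ∞ (fun x : VV n => (nu x.1 x.2).im) (UO n) :=
  Complex.imCLM.contDiff.comp_contDiffOn stokes_smooth_nu

theorem ev_dst (f : VV n → ℝ) (hf : ContDiffOn ℝ ∞ f (UO n)) {x : VV n} (hx : x ∈ OO n) :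
    ev (dst f hf) x = wt (f x) • io (fderiv ℝ f x) := by
  have h1 : DifferentiableAt ℝ f x :=
    (hf.contDiffAt (isOpen_OO.mem_nhds hx)).differentiableAt (by simp)
  have h2 : HasDerivAt Real.smoothTransition (wt (f x)) (f x) :=
    ((Real.smoothTransition.contDiff (n := 1)).differentiable (by simp) (f x)).hasDerivAt
  rw [dst, ev_d_fn _ _ hx, ← map_smul]
  exact congrArg io (h2.comp_hasFDerivAt x h1.hasFDerivAt).fderiv

theorem stokes_dst_zero {f : VV n → ℝ} (hf : ContDiffOn ℝ ∞ f (UO n)) {x : VV n} (hx : x ∈ OO n)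
    (h : f x ∉ Icc (0 : ℝ) 1) : ev (dst f hf) x = 0 := by
  rw [ev_dst f hf hx, wt_eq_zero h, zero_smul]

theorem stokes_dst_one (f : VV n → ℝ) (hf : ContDiffOn ℝ ∞ f (UO n)) : IsOne (dst f hf) :=
  (isFn_fn _ _).d

theorem stokes_d_dst (f : VV n → ℝ) (hf : ContDiffOn ℝ ∞ f (UO n)) : d (dst f hf) = 0 := d_d _

theorem stokes_th_one : IsOne (Th0 n) := (isOne_one1 _ _).pull _

theorem stokes_x0_basic : x0 n ∈ (actB n).Basic :=
  d_theta_basic (actB n) (fstM n) fun _ _ _ _ => rfl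

theorem stokes_bounds {s : VV n → ℝ} (hs : Adm s) :
    ∃ a b : ℝ, 0 < a ∧ 0 < b ∧ ∀ y ∈ slice n, a ≤ s y ∧ s y ≤ b := by
  have hc : ContinuousOn s (slice n) := hs.smooth.continuousOn.mono slice_subset
  obtain ⟨a, ha, h1⟩ := isCompact_slice.exists_forall_le' hc fun y hy => hs.pos y (slice_subset hy)
  obtain ⟨b, h2⟩ := isCompact_slice.bddAbove_image hc
  exact ⟨a, max b 1, ha, lt_max_of_lt_right one_pos, fun y hy =>
    ⟨h1 y hy, le_max_of_le_left (h2 (mem_image_of_mem s hy))⟩⟩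

theorem stokes_cpt {s s' : VV n → ℝ} (hs : Adm s) (hs' : Adm s') :
    ∃ K, IsCompact K ∧ K ⊆ OO n ∧ ∀ x ∈ OO n, Real.log ‖x.1‖ ∈ Icc (0 : ℝ) 1 →
      (nu x.1 x.2).re ∈ Icc (0 : ℝ) 1 → (nu x.1 x.2).im ∈ Icc (0 : ℝ) 1 →
      (0 ≤ Real.log (s x) ∨ 0 ≤ Real.log (s' x)) → (Real.log (s x) ≤ 1 ∨ Real.log (s' x) ≤ 1) →
      x ∈ K := by
  obtain ⟨a, b, ha, hb, h1⟩ := stokes_bounds hs
  obtain ⟨a', b', ha', hb', h1'⟩ := stokes_bounds hs'
  refine ⟨(fun p : ℝ × ℝ × ℂ × VV n => act (p.1 : ℂ) p.2.1 p.2.2.1 p.2.2.2) ''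
    (Icc 1 (Real.exp 1) ×ˢ Icc (min b⁻¹ b'⁻¹) (max (Real.exp 1 / a) (Real.exp 1 / a')) ×ˢ
      Metric.closedBall 0 2 ×ˢ slice n), ?_, ?_, ?_⟩
  · refine (isCompact_Icc.prod (isCompact_Icc.prod ((isCompact_closedBall _ _).prod
      isCompact_slice))).image ?_
    unfold act
    fun_prop
  · rintro _ ⟨⟨l, m, c, y⟩, ⟨k1, k2, -, k4⟩, rfl⟩
    refine act_mem _ ?_ ((lt_min (inv_pos.2 hb) (inv_pos.2 hb')).trans_le k2.1) (slice_subset k4)
    exact Complex.ofReal_ne_zero.2 (one_pos.trans_le k1.1).ne'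
  · intro x hx f1 f3 f4 f2 f2'
    obtain ⟨y, hy, l, m, c, hl, hm, rfl⟩ := exists_slice hx
    have hl' : (l : ℂ) ≠ 0 := Complex.ofReal_ne_zero.2 hl.ne'
    have hyO := slice_subset hy
    have e1 : ‖(act (l : ℂ) m c y).1‖ = l := by
      simp [act, norm_smul, hy.1, abs_of_pos hl]
    have e2 : nu (act (l : ℂ) m c y).1 (act (l : ℂ) m c y).2 = c := by
      simp only [act]
      rw [nu_smul_smul hl', nu_add, nu_smul, nu_self hyO.1, ← Complex.coe_smul, nu_smul, hy.2.2]
      simp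
    rw [e1] at f1
    rw [e2] at f3 f4
    rw [hs.hom _ _ _ _ hl' hm hyO, hs'.hom _ _ _ _ hl' hm hyO] at f2 f2'
    have lo : ∀ {u β : ℝ}, 0 < u → u ≤ β → 0 ≤ Real.log (m * u) → β⁻¹ ≤ m := by
      intro u β hu hβ h
      rw [Real.log_nonneg_iff (mul_pos hm hu)] at h
      rw [inv_le_iff_one_le_mul₀ (hu.trans_le hβ)]
      exact h.trans (mul_le_mul_of_nonneg_left hβ hm.le)
    have up : ∀ {u α : ℝ}, 0 < α → α ≤ u → Real.log (m * u) ≤ 1 → m ≤ Real.exp 1 / α := by
      intro u α hα hu h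
      rw [Real.log_le_iff_le_exp (mul_pos hm (hα.trans_le hu))] at h
      rw [le_div_iff₀ hα]
      exact (mul_le_mul_of_nonneg_left hu hm.le).trans h
    refine ⟨(l, m, c, y), ⟨⟨(Real.log_nonneg_iff hl).1 f1.1, (Real.log_le_iff_le_exp hl).1 f1.2⟩,
      ⟨?_, ?_⟩, ?_, hy⟩, rfl⟩
    · rcases f2 with h | h
      · exact min_le_of_left_le (lo (hs.pos y hyO) (h1 y hy).2 h)
      · exact min_le_of_right_le (lo (hs'.pos y hyO) (h1' y hy).2 h)
    · rcases f2' with h | h
      · exact le_max_of_le_left (up ha (h1 y hy).1 h)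
      · exact le_max_of_le_right (up ha' (h1' y hy).1 h)
    · rw [mem_closedBall_zero_iff]
      refine (Complex.norm_le_abs_re_add_abs_im c).trans ?_
      rw [abs_of_nonneg f3.1, abs_of_nonneg f4.1]
      linarith [f3.2, f4.2]

theorem stokes_list (l : List (Om (UO n))) (hl : ∀ a ∈ l, IsOne a) {x : VV n} (hx : x ∈ OO n) :
    ∃ θ : List (VV n →L[ℝ] ℝ), θ.length = l.length ∧ ev l.prod x = (θ.map io).prod := by
  induction l with
  | nil => exact ⟨[], rfl, ev_one hx⟩
  | cons a l ih =>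
    obtain ⟨θ, h1, h2⟩ := ih fun b hb => hl b (List.mem_cons_of_mem _ hb)
    obtain ⟨t, ht⟩ := hl a List.mem_cons_self x hx
    exact ⟨t :: θ, by simp [h1], by rw [List.prod_cons, ev_mul, ht, h2]; rfl⟩

theorem stokes_top (l : List (Om (UO n))) (hl : ∀ a ∈ l, IsOne a) (h5 : l.length < 5)
    {γ : Om (UO n)} (h : γ ∈ (actB n).Basic) (x : VV n) : top (ev (l.prod * γ) x) = 0 := by
  by_cases hx : x ∈ OO n
  · obtain ⟨θ, h1, h2⟩ := stokes_list l hl hx
    rw [ev_mul, h2]
    exact top_horizontal (S := Bdir x) (fun v hv => basic_horizontal h hx hv) θ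
      (by rw [finrank_Bdir hx, h1]; exact h5)
  · rw [ev_of_not_mem _ hx, map_zero]

theorem stokes_top3 {a b c γ : Om (UO n)} (ha : IsOne a) (hb : IsOne b) (hc : IsOne c)
    (h : γ ∈ (actB n).Basic) (x : VV n) : top (ev (a * b * c * γ) x) = 0 := by
  have := stokes_top [a, b, c] (by simp [ha, hb, hc]) (by simp) h x
  simpa only [List.prod_cons, List.prod_nil, mul_one, mul_assoc] using this

theorem stokes_top4 {a b c e γ : Om (UO n)} (ha : IsOne a) (hb : IsOne b) (hc : IsOne c)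
    (he : IsOne e) (h : γ ∈ (actB n).Basic) (x : VV n) : top (ev (a * b * c * e * γ) x) = 0 := by
  have := stokes_top [a, b, c, e] (by simp [ha, hb, hc, he]) (by simp) h x
  simpa only [List.prod_cons, List.prod_nil, mul_one, mul_assoc] using this

/-- The compactly supported five-form dual to the orbits. -/
def wg {s : VV n → ℝ} (hs : Adm s) : Om (UO n) :=
  dst _ smooth_f1 * dst _ hs.smooth_f2 * dst _ smooth_f3 * dst _ smooth_f4 * Th0 n

theorem wg_support {s : VV n → ℝ} (hs : Adm s) :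
    ∃ K, IsCompact K ∧ K ⊆ OO n ∧ ∀ x ∉ K, ev (wg hs) x = 0 := by
  obtain ⟨K, h1, h2, h3⟩ := stokes_cpt hs hs
  refine ⟨K, h1, h2, fun x hx => ?_⟩
  by_cases hO : x ∈ OO n
  swap
  · exact ev_of_not_mem _ hO
  simp only [wg, ev_mul]
  by_cases f1 : Real.log ‖x.1‖ ∈ Icc (0 : ℝ) 1
  swap
  · rw [stokes_dst_zero smooth_f1 hO f1]; simp
  by_cases f2 : Real.log (s x) ∈ Icc (0 : ℝ) 1
  swap
  · rw [stokes_dst_zero hs.smooth_f2 hO f2]; simp
  by_cases f3 : (nu x.1 x.2).re ∈ Icc (0 : ℝ) 1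
  swap
  · rw [stokes_dst_zero smooth_f3 hO f3]; simp
  by_cases f4 : (nu x.1 x.2).im ∈ Icc (0 : ℝ) 1
  swap
  · rw [stokes_dst_zero smooth_f4 hO f4]; simp
  exact absurd (h3 x hO f1 f3 f4 (Or.inl f2.1) (Or.inl f2.2)) hx

theorem integrable_wg {s : VV n → ℝ} (hs : Adm s) (γ : Om (UO n)) :
    Integrable fun x => top (ev (wg hs * γ) x) := by
  obtain ⟨K, h1, h2, h3⟩ := wg_support hs
  refine (integrableOn_iff_integrable_of_support_subset (s := K) fun x hx => ?_).1 ?_
  · by_contra hK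
    exact hx (by simp only [ev_mul, h3 x hK, zero_mul, map_zero])
  · exact (top.continuous.comp_continuousOn
      ((smooth (wg hs * γ)).continuousOn.mono h2)).integrableOn_compact h1

/-- Integration over the unit tangent bundle. -/
def II {s : VV n → ℝ} (hs : Adm s) : Om (UO n) →ₗ[ℝ] ℝ where
  toFun γ := ∫ x, top (ev (wg hs * γ) x)
  map_add' a b := by
    rw [← integral_add (integrable_wg hs a) (integrable_wg hs b)]
    simp only [mul_add, ev_add, map_add]
  map_smul' r a := by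
    simp only [mul_smul_comm, ev_smul, map_smul, RingHom.id_apply]
    exact integral_smul r _

theorem II_apply {s : VV n → ℝ} (hs : Adm s) (γ : Om (UO n)) :
    II hs γ = ∫ x, top (ev (wg hs * γ) x) := rfl

theorem II_d {s : VV n → ℝ} (hs : Adm s) {κ : Om (UO n)} (h : κ ∈ (actB n).Basic) :
    II hs (d κ) = 0 := by
  obtain ⟨K, h1, h2, h3⟩ := wg_support hs
  have key := stokes volume (wg hs * κ) h1 h2 fun x hx => by rw [ev_mul, h3 x hx, zero_mul]
  have o1 := stokes_dst_one _ (smooth_f1 (n := n))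
  have o2 := stokes_dst_one _ hs.smooth_f2
  have o3 := stokes_dst_one _ (smooth_f3 (n := n))
  have o4 := stokes_dst_one _ (smooth_f4 (n := n))
  have e : d (wg hs * κ) = dst _ smooth_f1 * dst _ hs.smooth_f2 * dst _ smooth_f3 *
      dst _ smooth_f4 * (x0 n * κ) - wg hs * d κ := by
    simp only [wg, d_mul, stokes_d_dst, map_mul, o1.inv, o2.inv, o3.inv, o4.inv,
      stokes_th_one.inv, x0]
    noncomm_ring
  rw [e] at key
  simp only [ev_sub, map_sub, stokes_top4 o1 o2 o3 o4 (mul_mem stokes_x0_basic h), zero_sub,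
    integral_neg, neg_eq_zero] at key
  exact key

theorem II_hor {s : VV n → ℝ} (hs : Adm s) {γ : Om (UO n)} (h : γ ∈ (actB n).Basic)
    (h' : ∀ x ∈ OO n, ∃ v ∉ Bdir x, ctr v (ev γ x) = 0) : II hs γ = 0 := by
  rw [II_apply]
  refine integral_eq_zero_of_ae (Eventually.of_forall fun x => ?_)
  by_cases hx : x ∈ OO n
  swap
  · simp only [ev_of_not_mem (U := UO n) _ hx, map_zero, Pi.zero_apply]
  obtain ⟨v, hv, hv0⟩ := h' x hx
  obtain ⟨θ, h1, h2⟩ := stokes_list [dst _ smooth_f1, dst _ hs.smooth_f2, dst _ smooth_f3,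
    dst _ smooth_f4, Th0 n] (by simp [stokes_dst_one, stokes_th_one]) hx
  have e : ev (wg hs) x = (θ.map io).prod := by
    rw [← h2]
    simp only [wg, List.prod_cons, List.prod_nil, mul_one, mul_assoc]
  have hlt : Bdir x < LinearMap.ker (ctr.flip (ev γ x) : VV n →L[ℝ] Lam (VV n)).toLinearMap :=
    lt_of_le_of_ne (fun u hu => basic_horizontal h hx hu) fun e => hv (e ▸ hv0)
  have h6 := Submodule.finrank_lt_finrank_of_lt hlt
  rw [finrank_Bdir hx] at h6
  simp only [ev_mul, e, Pi.zero_apply]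
  exact top_horizontal (fun u hu => hu) θ (by rw [h1]; exact h6)

theorem II_indep {s s' : VV n → ℝ} (hs : Adm s) (hs' : Adm s') {γ : Om (UO n)}
    (h : γ ∈ (actB n).Basic) : II hs γ = II hs' γ := by
  obtain ⟨K, h1, h2, h3⟩ := stokes_cpt hs hs'
  have o1 := stokes_dst_one _ (smooth_f1 (n := n))
  have o3 := stokes_dst_one _ (smooth_f3 (n := n))
  have o4 := stokes_dst_one _ (smooth_f4 (n := n))
  obtain ⟨F, hF, hd, h0⟩ : ∃ F : Om (UO n), IsFn F ∧
      d F = dst _ hs.smooth_f2 - dst _ hs'.smooth_f2 ∧ ∀ x ∈ OO n,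
        Real.smoothTransition (Real.log (s x)) = Real.smoothTransition (Real.log (s' x)) →
          ev F x = 0 := by
    refine ⟨fn _ (Real.smoothTransition.contDiff.comp_contDiffOn hs.smooth_f2) -
      fn _ (Real.smoothTransition.contDiff.comp_contDiffOn hs'.smooth_f2), fun x hx => ?_,
      map_sub _ _ _, fun x hx e => ?_⟩
    · exact ⟨_, by rw [ev_sub, ev_fn _ _ hx, ev_fn _ _ hx, ← map_sub]⟩
    · rw [ev_sub, ev_fn _ _ hx, ev_fn _ _ hx, Function.comp_apply, Function.comp_apply, e, sub_self]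
  have key := stokes volume (F * (dst _ smooth_f1 * dst _ smooth_f3 * dst _ smooth_f4 * Th0 n * γ))
    h1 h2 fun x hx => by
      by_cases hO : x ∈ OO n
      swap
      · exact ev_of_not_mem _ hO
      simp only [ev_mul]
      by_cases f1 : Real.log ‖x.1‖ ∈ Icc (0 : ℝ) 1
      swap
      · rw [stokes_dst_zero smooth_f1 hO f1]; simp
      by_cases f3 : (nu x.1 x.2).re ∈ Icc (0 : ℝ) 1
      swap
      · rw [stokes_dst_zero smooth_f3 hO f3]; simp
      by_cases f4 : (nu x.1 x.2).im ∈ Icc (0 : ℝ) 1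
      swap
      · rw [stokes_dst_zero smooth_f4 hO f4]; simp
      rw [h0 x hO, zero_mul]
      by_cases g1 : 0 ≤ Real.log (s x) ∨ 0 ≤ Real.log (s' x)
      · by_cases g2 : Real.log (s x) ≤ 1 ∨ Real.log (s' x) ≤ 1
        · exact absurd (h3 x hO f1 f3 f4 g1 g2) hx
        · rw [not_or, not_le, not_le] at g2
          rw [Real.smoothTransition.one_of_one_le g2.1.le,
            Real.smoothTransition.one_of_one_le g2.2.le]
      · rw [not_or, not_le, not_le] at g1
        rw [Real.smoothTransition.zero_of_nonpos g1.1.le,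
          Real.smoothTransition.zero_of_nonpos g1.2.le]
  have c1 : dst _ hs.smooth_f2 * dst _ (smooth_f1 (n := n)) =
      -(dst _ smooth_f1 * dst _ hs.smooth_f2) := by
    rw [(stokes_dst_one _ hs.smooth_f2).mul_eq, o1.inv, neg_mul]
  have c2 : dst _ hs'.smooth_f2 * dst _ (smooth_f1 (n := n)) =
      -(dst _ smooth_f1 * dst _ hs'.smooth_f2) := by
    rw [(stokes_dst_one _ hs'.smooth_f2).mul_eq, o1.inv, neg_mul]
  have e : d (F * (dst _ smooth_f1 * dst _ smooth_f3 * dst _ smooth_f4 * Th0 n * γ)) =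
      wg hs' * γ - wg hs * γ - F * dst _ smooth_f1 * dst _ smooth_f3 * dst _ smooth_f4 * (x0 n * γ)
        + F * dst _ smooth_f1 * dst _ smooth_f3 * dst _ smooth_f4 * Th0 n * d γ := by
    rw [d_mul, hd, hF.inv, sub_mul]
    simp only [← mul_assoc, c1, c2]
    simp only [wg, d_mul, stokes_d_dst, map_mul, o1.inv, o3.inv, o4.inv, stokes_th_one.inv, x0]
    noncomm_ring
  rw [e] at key
  simp only [ev_add, ev_sub, map_add, map_sub,
    stokes_top3 (hF.mul_one o1) o3 o4 (mul_mem stokes_x0_basic h),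
    stokes_top4 (hF.mul_one o1) o3 o4 stokes_th_one ((actB n).d_mem h), sub_zero, add_zero] at key
  rw [integral_sub (integrable_wg hs' γ) (integrable_wg hs γ), sub_eq_zero] at key
  exact key.symm

theorem stokes_cont {s : VV n → ℝ} (hs : Adm s) (γ : Om (cyl (UO n))) :
    Continuous (Function.uncurry fun (t : ℝ) (x : VV n) =>
      top (ev (wg hs * pull (SMap.slc (UO n) t) γ) x)) := by
  obtain ⟨K, h1, h2, h3⟩ := wg_support hs
  rw [continuous_iff_continuousAt]
  rintro ⟨t, x⟩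
  by_cases hx : x ∈ OO n
  · have hU : ((cyl (UO n) : Opens _) : Set (ℝ × VV n)) ∈ 𝓝 (t, x) :=
      (cyl (UO n)).isOpen.mem_nhds ⟨trivial, hx⟩
    have c1 : ContinuousOn (fun p : ℝ × VV n => top (ev (wg hs) p.2 *
        lmap (ContinuousLinearMap.inr ℝ ℝ (VV n)) (ev γ p))) (cyl (UO n)) :=
      top.continuous.comp_continuousOn
        (((smooth (wg hs)).continuousOn.comp continuousOn_snd fun _ hp => hp.2).mul
          (contDiffOn_lmap contDiffOn_const (smooth γ)).continuousOn)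
    refine (c1.congr fun p hp => ?_).continuousAt hU
    have e : fderiv ℝ (SMap.slc (UO n) p.1).toFun p.2 = ContinuousLinearMap.inr ℝ ℝ (VV n) :=
      (hasFDerivAt_prodMk_right p.1 p.2).fderiv
    simp only [Function.uncurry]
    rw [ev_mul, ev_pull _ _ hp.2, e]
    rfl
  · have hU : (Prod.snd ⁻¹' Kᶜ : Set (ℝ × VV n)) ∈ 𝓝 (t, x) :=
      (h1.isClosed.isOpen_compl.preimage continuous_snd).mem_nhds fun h => hx (h2 h)
    refine (continuousAt_const (y := (0 : ℝ))).congr ?_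
    filter_upwards [hU] with p hp
    simp only [Function.uncurry, ev_mul, h3 p.2 hp, zero_mul, map_zero]

theorem II_Sl {s : VV n → ℝ} (hs : Adm s) (a b : ℝ) (γ : Om (cyl (UO n))) :
    II hs (Sl a b γ) = ∫ t in a..b, II hs (pull (SMap.slc (UO n) t) γ) := by
  obtain ⟨K, h1, h2, h3⟩ := wg_support hs
  simp only [II_apply]
  rw [intervalIntegral_integral_swap]
  · refine integral_congr_ae (Eventually.of_forall fun x => ?_)
    by_cases hx : x ∈ OO n
    · simp only [ev_mul]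
      rw [ev_Sl a b γ hx]
      exact ((top.comp (ContinuousLinearMap.mul ℝ (Lam (VV n)) (ev (wg hs) x))
        ).intervalIntegral_comp_comm ((continuous_ev_slc γ hx).intervalIntegrable a b)).symm
    · simp only [ev_of_not_mem (U := UO n) _ hx, map_zero, intervalIntegral.integral_zero]
  · have i1 := (stokes_cont hs γ).continuousOn.integrableOn_compact
      (μ := (volume : Measure ℝ).prod (volume : Measure (VV n))) ((isCompact_uIcc (a := a) (b := b)).prod h1)
    have i2 := (i1.mono_set (prod_mono uIoc_subset_uIcc Subset.rfl)).of_forall_sdiff_eq_zero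
      (t := uIoc a b ×ˢ univ) (measurableSet_uIoc.prod MeasurableSet.univ) fun p hp => by
        have : p.2 ∉ K := fun h => hp.2 ⟨hp.1.1, h⟩
        simp only [Function.uncurry, ev_mul, h3 p.2 this, zero_mul, map_zero]
    rwa [IntegrableOn, ← Measure.prod_restrict, Measure.restrict_univ] at i2

theorem continuous_II_slc {s : VV n → ℝ} (hs : Adm s) (γ : Om (cyl (UO n))) :
    Continuous fun t => II hs (pull (SMap.slc (UO n) t) γ) := by
  obtain ⟨K, h1, h2, h3⟩ := wg_support hs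
  refine (continuous_parametric_integral_of_continuous (μ := volume) (stokes_cont hs γ) h1).congr
    fun t => ?_
  exact setIntegral_eq_integral_of_forall_compl_eq_zero fun x hx => by
    simp only [ev_mul, h3 x hx, zero_mul, map_zero]

end Pool.Agent.Work.MP_8c604c_gt
end
end

-- merged part: Pool.Agent.Work.MP_8c604c_gt.Top
section
/-!
The topological identity for the contact volume (see PLAN.md, section T).
-/

set_option maxSynthPendingDepth 3

open Set Filter Topology MeasureTheory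
open scoped ContDiff

noncomputable section
namespace Pool.Agent.Work.MP_8c604c_gt

open TopologicalSpace Lam Om Real

variable {n : ℕ}

/-- A periodic contact flow together with a homotopy from the foot point map to two invariant maps. -/
structure TData (n : ℕ) where
  ψ : ℝ → VV n → VV n
  ψ_smooth : ContDiffOn ℝ ∞ (fun p : ℝ × VV n => ψ p.1 p.2) {p | p.2 ∈ OO n}
  ψ_mem : ∀ t, ∀ x ∈ OO n, ψ t x ∈ OO n
  ψ_zero : ∀ x ∈ OO n, ψ 0 x = x
  ψ_add : ∀ s t, ∀ x ∈ OO n, ψ (s + t) x = ψ s (ψ t x)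
  ψ_act : ∀ t l m c x, l ≠ 0 → 0 < m → x ∈ OO n → ψ t (act l m c x) = act l m c (ψ t x)
  ψ_per : ∀ x ∈ OO n, ∃ c : ℂ, ψ π x = c • x
  α : VV n → VV n →L[ℝ] ℝ
  α_smooth : ContDiffOn ℝ ∞ α (OO n)
  α_act : ∀ l m c x δ, l ≠ 0 → 0 < m → x ∈ OO n → α (act l m c x) (act l m c δ) = α x δ
  α_hor : ∀ x ∈ OO n, ∀ v ∈ Bdir x, α x v = 0
  α_inv : ∀ t, ∀ x ∈ OO n, ∀ δ, α (ψ t x) (fderiv ℝ (ψ t) x δ) = α x δ
  α_X : ∀ x ∈ OO n, α x (deriv (fun t => ψ t x) 0) = 1
  H : ℝ × VV n → E n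
  H_smooth : ContDiffOn ℝ ∞ H {p | p.2 ∈ OO n}
  H_ne : ∀ s, ∀ x ∈ OO n, H (s, x) ≠ 0
  H_eqv : ∀ s, Eqv fun x => H (s, x)
  H_zero : ∀ x ∈ OO n, H (0, x) = x.1
  H_one : ∀ t, ∀ x ∈ OO n, ∃ c : ℂ, H (1, ψ t x) = c • H (1, x)
  H_neg : ∀ t, ∀ x ∈ OO n, ∃ c : ℂ, H (-1, ψ t x) = c • H (-1, x)
  δ : ℝ
  δ_ne : δ ≠ 0
  δ_eq : ∀ x ∈ OO n,
    (∫ t in (0 : ℝ)..π, (nu (H (1, ψ t x)) (deriv (fun s => H (1, ψ s x)) t)).im) -
    (∫ t in (0 : ℝ)..π, (nu (H (-1, ψ t x)) (deriv (fun s => H (-1, ψ s x)) t)).im) = π * δ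

theorem II_x0_indep {s : VV n → ℝ} (hs : Adm s) {κ κ' : Om (UO n)} (h : κ ∈ (actB n).Basic)
    (h' : κ' ∈ (actB n).Basic) (e : d κ = x0 n ^ n) (e' : d κ' = x0 n ^ n) :
    II hs (x0 n ^ n * κ) = II hs (x0 n ^ n * κ') := by
  have h1 := II_d hs (mul_mem h (sub_mem h h'))
  rw [d_mul_closed _ (by rw [map_sub, e, e', sub_self]), e, mul_sub, map_sub] at h1
  exact sub_eq_zero.1 h1

theorem act_one (c : ℂ) (x : VV n) : act c 1 0 x = c • x := by
  simp [act, Prod.ext_iff]

theorem contDiffOn_nu {X : Type} [NormedAddCommGroup X] [NormedSpace ℝ X] {s : Set X}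
    {f f' : X → E n} (hf : ContDiffOn ℝ ∞ f s) (hf' : ContDiffOn ℝ ∞ f' s) (h0 : ∀ x ∈ s, f x ≠ 0) :
    ContDiffOn ℝ ∞ (fun x => nu (f x) (f' x)) s :=
  (contDiffOn_nuL.comp hf h0).clm_apply hf'

namespace TData
variable (D : TData n)

/-- The flow. -/
def F : Flw (UO n) where
  big := ⟨fun p => D.ψ p.1 p.2, D.ψ_smooth.mono fun _ hp => hp.2, fun p hp => D.ψ_mem _ _ hp.2⟩
  zero := D.ψ_zero
  add := D.ψ_add

/-- The homotopy. -/
def Hc : SMap (cyl (UO n)) (UE n) :=
  ⟨D.H, D.H_smooth.mono fun _ hp => hp.2, fun p hp => D.H_ne p.1 p.2 hp.2⟩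

theorem per (γ : Om (cyl (UO n))) (h : γ ∈ (actB n).cyl.Basic) : pull (D.F.cyl.tm π) γ = γ := by
  have hs : ContDiffOn ℝ ∞ (fun p : ℝ × VV n => nu p.2.1 (D.ψ π p.2).1) (cyl (UO n)) :=
    contDiffOn_nu contDiffOn_snd.fst (D.F.cyl.tm π).smooth.snd.fst fun _ hp => hp.2.1
  have he : ∀ x ∈ OO n, D.ψ π x = nu x.1 (D.ψ π x).1 • x := fun x hx => by
    obtain ⟨c, hc⟩ := D.ψ_per x hx
    rw [hc, Prod.smul_fst, nu_smul, nu_self hx.1, mul_one]
  let β : SMap (cyl (UO n)) WB :=
    ⟨fun p => (nu p.2.1 (D.ψ π p.2).1, 1, 0), hs.prodMk contDiffOn_const, fun p hp =>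
      ⟨fun h0 => (D.ψ_mem π _ hp.2).1 (by
        rw [he _ hp.2, show nu p.2.1 (D.ψ π p.2).1 = 0 from h0]; simp), one_pos⟩⟩
  let f : SMap (cyl (UO n)) (cyl (UO n)) := ⟨id, contDiffOn_id, fun _ hp => hp⟩
  rw [(actB n).cyl.gauge h f (D.F.cyl.tm π) β fun p hp => ?_, pull_id (f := f) fun _ _ => rfl]
  refine Prod.ext rfl ?_
  change D.ψ π p.2 = act _ 1 0 p.2
  rw [act_one]
  exact he _ hp.2

theorem X_eq {x : VV n} (hx : x ∈ OO n) : D.F.X x = deriv (fun t => D.ψ t x) 0 := by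
  have := (D.F.hasDerivAt 0 hx).deriv
  rw [D.F.zero x hx] at this
  exact this.symm

theorem big_end {r : ℝ} (h : ∀ t, ∀ x ∈ OO n, ∃ c : ℂ, D.H (r, D.ψ t x) = c • D.H (r, x)) :
    pull D.F.big (d (pull (SMap.slc (UO n) r) (pull D.Hc (Theta n)))) =
      pull (SMap.snd ⊤ (UO n)) (d (pull (SMap.slc (UO n) r) (pull D.Hc (Theta n)))) := by
  rw [← d_pull, ← d_pull, ← pull_comp, ← pull_comp, ← pull_comp, ← pull_comp]
  exact d_theta_line _ _ fun p hp => h p.1 p.2 hp.2

theorem inv_of_big {γ : Om (UO n)} (h : pull D.F.big γ = pull (SMap.snd ⊤ (UO n)) γ) :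
    D.F.Inv γ ∧ D.F.iX γ = 0 := by
  refine ⟨fun t => by rw [Flw.tm, pull_comp, h, pull_slc_snd], ?_⟩
  have := D.F.slc_dT_big 0 γ
  rw [h, dT_snd, map_zero, pull_id (f := D.F.tm 0) D.F.zero] at this
  exact this.symm

theorem ev_avg_iX (r : ℝ) {x : VV n} (hx : x ∈ OO n) :
    ev (D.F.avg (D.F.iX (pull (SMap.slc (UO n) r) (pull D.Hc (Theta n))))) x =
      (π⁻¹ * ∫ t in (0 : ℝ)..π,
        (nu (D.H (r, D.ψ t x)) (deriv (fun s => D.H (r, D.ψ s x)) t)).im) • 1 := by
  rw [D.F.ev_avg _ hx, mul_smul, ← intervalIntegral.integral_smul_const]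
  congr 1
  refine intervalIntegral.integral_congr fun t _ => ?_
  have hy : D.ψ t x ∈ OO n := D.ψ_mem t x hx
  have e1 := ev_pull (D.F.tm t) (D.F.iX (pull (SMap.slc (UO n) r) (pull D.Hc (Theta n)))) hx
  have e2 : (D.F.tm t).toFun x = D.ψ t x := rfl
  have hd : DifferentiableAt ℝ (D.Hc.comp (SMap.slc (UO n) r)).toFun (D.ψ t x) :=
    ((D.Hc.comp (SMap.slc (UO n) r)).smooth.contDiffAt (isOpen_OO.mem_nhds hy)).differentiableAt
      (by simp)
  have e3 := (hd.hasFDerivAt.comp_hasDerivAt t (D.F.hasDerivAt t hx)).deriv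
  rw [e2, Flw.iX, ev_ctrF _ _ _ hy, ← pull_comp, ev_pull_theta _ hy, ctr_io, AlgHom.commutes,
    Algebra.algebraMap_eq_smul_one] at e1
  rw [← pull_comp, Flw.iX, e1]
  congr 1
  rw [show deriv (fun s => D.H (r, D.ψ s x)) t = _ from e3]
  rfl

/-- The abstract context. -/
def ctx : Ctx (actB n) D.F n where
  hc t p hp x hx := D.ψ_act t _ _ _ x hp.1 hp.2 hx
  per := D.per
  al := one1 D.α D.α_smooth
  al_one := isOne_one1 _ _
  al_basic := one1_basic _ D.α_act D.α_hor
  al_inv t := Om.ext fun x hx => by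
    rw [ev_pull _ _ hx, ev_one1 _ _ ((D.F.tm t).maps hx), lmap_io, ev_one1 _ _ hx]
    congr 1
    exact ContinuousLinearMap.ext fun δ => D.α_inv t x hx δ
  al_X := Om.ext fun x hx => by
    rw [Flw.iX, ev_ctrF _ _ _ hx, ev_one1 _ _ hx, ctr_io, D.X_eq hx, D.α_X x hx, ev_one hx, map_one]
  T := pull D.Hc (Theta n)
  T_one := (isOne_one1 _ _).pull _
  b_basic := d_theta_basic _ _ fun p hp y hy => D.H_eqv y.1 _ _ _ _ hp.1 hp.2 hy.2
  tau_basic := by
    rw [← pull_comp, ← pull_comp]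
    exact theta_sub_basic _ _ _ (fun p hp y hy => D.H_eqv (-1) _ _ _ _ hp.1 hp.2 hy.2)
      fun p hp y hy => D.H_eqv y.1 _ _ _ _ hp.1 hp.2 hy.2
  nil := by rw [d_pull, ← map_pow, dTheta_pow, map_zero]
  xp_inv := (D.inv_of_big (D.big_end D.H_one)).1
  xm_inv := (D.inv_of_big (D.big_end D.H_neg)).1
  xp_X := (D.inv_of_big (D.big_end D.H_one)).2
  xm_X := (D.inv_of_big (D.big_end D.H_neg)).2
  δ := D.δ
  lam_X := Om.ext fun x hx => by
    rw [D.F.iX_avg, map_sub, map_sub, ev_sub, D.ev_avg_iX _ hx, D.ev_avg_iX _ hx, ← sub_smul,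
      ← mul_sub, D.δ_eq x hx, ← mul_assoc, inv_mul_cancel₀ pi_ne_zero, one_mul,
      Algebra.algebraMap_eq_smul_one, ev_smul, ev_one hx]

theorem slc_zero : pull (SMap.slc (UO n) 0) (d (pull D.Hc (Theta n)) ^ n) = x0 n ^ n := by
  rw [map_pow, ← d_pull, ← pull_comp, x0, Th0,
    pull_congr (f' := fstM n) fun x hx => D.H_zero x hx]

end TData

theorem TData.main (hn : 1 ≤ n) (D : TData n) {s : VV n → ℝ} (hs : Adm s) :
    ∃ κ ∈ (actB n).Basic, d κ = x0 n ^ n ∧
      |D.δ| ^ (2 * n) * |II hs (one1 D.α D.α_smooth * d (one1 D.α D.α_smooth) ^ (2 * n - 1))| =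
        2 * (n + 1) * (Nat.choose (2 * n - 1) n) * |II hs (x0 n ^ n * κ)| := by
  obtain ⟨m, rfl⟩ : ∃ m, n = m + 1 := ⟨n - 1, by omega⟩
  have hI : ∀ k ∈ (actB (m + 1)).Basic, II hs (d k) = 0 := fun k hk => II_d hs hk
  have hH : ∀ k ∈ (actB (m + 1)).Basic, D.F.iX k = 0 → II hs k = 0 := fun k hk h0 =>
    II_hor hs hk fun x hx => ⟨D.F.X x, fun hv => by
      have := D.α_hor x hx _ hv
      rw [D.X_eq hx, D.α_X x hx] at this
      exact one_ne_zero this, by rw [← ev_ctrF _ D.F.X_smooth _ hx, ← Flw.iX, h0, ev_zero]⟩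
  obtain ⟨p, pB, p', pB', dp, dp', e⟩ := D.ctx.main D.δ_ne hI hH
  have cB : d D.ctx.T ^ (m + 1) ∈ (actB (m + 1)).cyl.Basic := pow_mem D.ctx.b_basic _
  have cE : Ev (d D.ctx.T ^ (m + 1)) := D.ctx.T_one.ev_d.pow _
  have dc : d (d D.ctx.T ^ (m + 1)) = 0 := d_pow_closed (d_d _) _
  have cc : d D.ctx.T ^ (m + 1) * d D.ctx.T ^ (m + 1) = 0 := by
    rw [← pow_add, show m + 1 + (m + 1) = m + 1 + 1 + m by omega, pow_add, D.ctx.nil, zero_mul]
  have s1 : pull (SMap.slc _ 1) (d D.ctx.T ^ (m + 1)) = D.ctx.xp ^ (m + 1) := by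
    rw [map_pow, ← d_pull]; rfl
  have s2 : pull (SMap.slc _ (-1)) (d D.ctx.T ^ (m + 1)) = D.ctx.xm ^ (m + 1) := by
    rw [map_pow, ← d_pull]; rfl
  have s0 : pull (SMap.slc _ 0) (d D.ctx.T ^ (m + 1)) = x0 (m + 1) ^ (m + 1) := D.slc_zero
  obtain ⟨k, kB, dk, ek⟩ := helicity _ hI cB cE dc cc 1 0 pB (dp.trans s1.symm)
  obtain ⟨k', kB', dk', ek'⟩ := helicity _ hI cB cE dc cc (-1) 0 pB' (dp'.trans s2.symm)
  rw [s0] at dk dk' ek ek'
  rw [s1] at ek
  rw [s2, ← II_x0_indep hs kB kB' dk dk'] at ek'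
  refine ⟨k, kB, dk, ?_⟩
  rw [← ek, ← ek'] at e
  have e' := congrArg abs e
  rw [abs_mul, abs_mul, abs_mul, abs_mul, abs_pow, abs_pow, abs_neg, abs_one, one_pow, one_mul,
    Nat.abs_cast, ← two_mul, abs_mul, abs_two, abs_of_pos (by positivity : (0 : ℝ) < m + 2)] at e'
  rw [show 2 * (m + 1) - 1 = 2 * m + 1 by omega, show 2 * (m + 1) = 2 * m + 2 by omega]
  refine e'.trans ?_
  push_cast
  ring

end Pool.Agent.Work.MP_8c604c_gt
end
end

-- merged part: Pool.Agent.Work.MP_8c604c_gt.Liou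
section
/-!
Liouville theorem for the unit speed flow upstairs.
Hints. T = fderiv (psi t) x. Om_x(a,b) = D mom a (b.1) - D mom b (a.1) + dnu1 wedge drho + dnu2 wedge Theta, mom y = g y.1 y.2 = spd * g(vel);
mom (psi t y) o JJ = mom y o fst (al_inv, spd_psi), so its antisymmetrised derivative is preserved (om_psi). T preserves dnu, drho, and
Theta o T = Theta + sigma with sigma vanishing on the vectors (c z, c w), (0, c z). Hence T^* Om = U^* Om for U = 1 + dnu2 tensor Y, det U = 1.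
The Gram determinant of Om in the basis (b_i,0), (0,b_i) is (detG)^2 (block [[A, -G],[G, 0]]).
Alternatively use the forms library: top ((dA)^(2n+2)) as in NVol. Then change variables with psi t, a diffeomorphism of OO
(lintegral_image_eq_lintegral_abs_det_fderiv_mul).
-/

set_option maxSynthPendingDepth 3

open Set Filter Topology MeasureTheory
open scoped ContDiff

noncomputable section
namespace Pool.Agent.Work.MP_8c604c_gt

variable {n : ℕ} {g : Met n}

section LinAlg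
variable {W : Type} [AddCommGroup W] [Module ℝ W] {ι : Type} [Fintype ι] [DecidableEq ι]

theorem liou_gram_comp (b : Module.Basis ι ℝ W) (B : LinearMap.BilinForm ℝ W) (T : W →ₗ[ℝ] W) :
    (LinearMap.BilinForm.toMatrix b (B.comp T T)).det =
      LinearMap.det T ^ 2 * (LinearMap.BilinForm.toMatrix b B).det := by
  rw [LinearMap.BilinForm.toMatrix_comp b b, Matrix.det_mul, Matrix.det_mul, Matrix.det_transpose,
    LinearMap.det_toMatrix]
  ring

theorem liou_gram_block (b : Module.Basis ι ℝ W) (B : LinearMap.BilinForm ℝ (W × W))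
    (Gm : W → W → ℝ) (hA : ∀ a c, B a c = -B c a) (h0 : ∀ u c, B (0, u) c = Gm u c.1)
    (hz : ∀ u, Gm u 0 = 0) :
    (LinearMap.BilinForm.toMatrix (b.prod b) B).det *
        (Matrix.fromBlocks 0 1 1 0 : Matrix (ι ⊕ ι) (ι ⊕ ι) ℝ).det =
      (-1) ^ Fintype.card ι * (Matrix.of fun i j => Gm (b i) (b j)).det ^ 2 := by
  have e : LinearMap.BilinForm.toMatrix (b.prod b) B =
      Matrix.fromBlocks (Matrix.of fun i j => B (b i, 0) (b j, 0))
        (-(Matrix.of fun i j => Gm (b i) (b j)).transpose)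
        (Matrix.of fun i j => Gm (b i) (b j)) 0 := by
    ext i j
    rcases i with i | i <;> rcases j with j | j
    · simp [Module.Basis.prod_apply]
    · simp [Module.Basis.prod_apply, hA (b i, 0), h0]
    · simp [Module.Basis.prod_apply, h0]
    · simp [Module.Basis.prod_apply, h0, hz]
  rw [← Matrix.det_mul, e, Matrix.fromBlocks_multiply]
  simp only [Matrix.mul_zero, Matrix.mul_one, zero_add, add_zero]
  rw [Matrix.det_fromBlocks_zero₂₁, Matrix.det_neg, Matrix.det_transpose]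
  ring

theorem liou_alg (b : Module.Basis ι ℝ W) (B B' : LinearMap.BilinForm ℝ (W × W))
    (Gm Gm' : W → W → ℝ) (hA : ∀ a c, B a c = -B c a) (h0 : ∀ u c, B (0, u) c = Gm u c.1)
    (hz : ∀ u, Gm u 0 = 0) (hA' : ∀ a c, B' a c = -B' c a) (h0' : ∀ u c, B' (0, u) c = Gm' u c.1)
    (hz' : ∀ u, Gm' u 0 = 0) (T : (W × W) →ₗ[ℝ] (W × W)) (σ : Module.Dual ℝ (W × W)) (w : W × W)
    (hσ : σ w = 0) (h : ∀ a c, B' (T a) (T c) = B (a + σ a • w) (c + σ c • w)) :
    LinearMap.det T ^ 2 * (Matrix.of fun i j => Gm' (b i) (b j)).det ^ 2 =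
      (Matrix.of fun i j => Gm (b i) (b j)).det ^ 2 := by
  have : Module.Finite ℝ W := Module.Finite.of_basis b
  have e : B'.comp T T = B.comp (LinearMap.transvection σ w) (LinearMap.transvection σ w) := by
    refine LinearMap.ext fun a => LinearMap.ext fun c => ?_
    simpa [LinearMap.transvection.apply] using h a c
  have h1 := liou_gram_comp (b.prod b) B' T
  have h2 := liou_gram_comp (b.prod b) B (LinearMap.transvection σ w)
  rw [LinearMap.transvection.det, hσ] at h2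
  have h3 := liou_gram_block b B Gm hA h0 hz
  have h4 := liou_gram_block b B' Gm' hA' h0' hz'
  rw [e, h2] at h1
  have h5 : ((-1 : ℝ)) ^ Fintype.card ι ≠ 0 := pow_ne_zero _ (by norm_num)
  apply mul_left_cancel₀ h5
  rw [← h3, mul_left_comm, ← h4, ← mul_assoc, ← h1]
  ring

end LinAlg

/-- Wedge product of two linear forms. -/
def liouW (α β : VV n →L[ℝ] ℝ) : LinearMap.BilinForm ℝ (VV n) :=
  LinearMap.mk₂ ℝ (fun a b => α a * β b - α b * β a)
    (fun _ _ _ => by simp only [map_add]; ring)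
    (fun _ _ _ => by simp only [map_smul, smul_eq_mul]; ring)
    (fun _ _ _ => by simp only [map_add]; ring)
    (fun _ _ _ => by simp only [map_smul, smul_eq_mul]; ring)

/-- The form `om` as a bilinear form. -/
def liouO (g : Met n) (x : VV n) : LinearMap.BilinForm ℝ (VV n) :=
  LinearMap.mk₂ ℝ (fun a b => om g x a b)
    (fun _ _ _ => by
      simp only [om, map_add, Prod.fst_add, ContinuousLinearMap.add_apply]; ring)
    (fun _ _ _ => by
      simp only [om, map_smul, Prod.smul_fst, ContinuousLinearMap.smul_apply, smul_eq_mul]; ring)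
    (fun _ _ _ => by
      simp only [om, map_add, Prod.fst_add, ContinuousLinearMap.add_apply]; ring)
    (fun _ _ _ => by
      simp only [om, map_smul, Prod.smul_fst, ContinuousLinearMap.smul_apply, smul_eq_mul]; ring)

/-- Differential of the vertical coordinate. -/
def liouN (x : VV n) : VV n →L[ℝ] ℂ := fderiv ℝ (fun y : VV n => nu y.1 y.2) x

/-- The nondegenerate two-form upstairs. -/
def liouB (g : Met n) (x : VV n) : LinearMap.BilinForm ℝ (VV n) :=
  liouW (fderiv ℝ (spd g) x) (al g x) + spd g x • liouO g x +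
    liouW (Complex.reCLM.comp (liouN x)) ((rhL x.1).comp (ContinuousLinearMap.fst ℝ _ _)) +
    liouW (Complex.imCLM.comp (liouN x)) ((thL x.1).comp (ContinuousLinearMap.fst ℝ _ _))

theorem liouB_apply (g : Met n) (x a b : VV n) : liouB g x a b =
    (fderiv ℝ (spd g) x a * al g x b - fderiv ℝ (spd g) x b * al g x a) + spd g x * om g x a b +
      ((liouN x a).re * rhL x.1 b.1 - (liouN x b).re * rhL x.1 a.1) +
      ((liouN x a).im * thL x.1 b.1 - (liouN x b).im * thL x.1 a.1) := rfl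

theorem liouB_anti (g : Met n) (x a b : VV n) : liouB g x a b = -liouB g x b a := by
  simp only [liouB_apply, om]
  ring

theorem liou_diff_nu {x : VV n} (hx : x.1 ≠ 0) :
    DifferentiableAt ℝ (fun y : VV n => nu y.1 y.2) x := by
  have h1 : ContDiffAt ℝ ∞ (fun p : VV n => nu p.1 p.2) x :=
    ((contDiffOn_nuL.contDiffAt (isOpen_compl_singleton.mem_nhds hx)).comp x
      contDiffAt_fst).clm_apply contDiffAt_snd
  exact h1.differentiableAt (by simp)

theorem liou_diff_spd (h : IsMetric g) {x : VV n} (hx : x ∈ OO n) :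
    DifferentiableAt ℝ (spd g) x :=
  (h.contDiffOn_spd.contDiffAt (isOpen_OO.mem_nhds hx)).differentiableAt (by simp)

/-- Derivative in a fibre direction. -/
theorem liou_fibre {F : Type} [NormedAddCommGroup F] [NormedSpace ℝ F] {f : VV n → F} {x : VV n}
    (hf : DifferentiableAt ℝ f x) {L : E n →L[ℝ] F}
    (hL : HasFDerivAt (fun w => f (x.1, w)) L x.2) (u : E n) : fderiv ℝ f x (0, u) = L u := by
  have h1 : HasFDerivAt (fun w => f (x.1, w))
      ((fderiv ℝ f x).comp (ContinuousLinearMap.inr ℝ (E n) (E n))) x.2 :=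
    HasFDerivAt.comp (g := f) (f := fun w : E n => ((x.1, w) : VV n)) x.2 hf.hasFDerivAt
      (hasFDerivAt_prodMk_right x.1 x.2)
  rw [← h1.unique hL]
  rfl

theorem liouN_fibre {x : VV n} (hx : x.1 ≠ 0) (u : E n) : liouN x (0, u) = nu x.1 u :=
  liou_fibre (liou_diff_nu hx) (nuL x.1).hasFDerivAt u

theorem liou_spd_fibre (h : IsMetric g) {x : VV n} (hx : x ∈ OO n) (u : E n) :
    fderiv ℝ (spd g) x (0, u) = g x.1 (vel g x) u := by
  have h0 := h.spd_pos hx
  have h1 : g x.1 x.2 x.2 ≠ 0 := by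
    rw [← h.spd_sq hx.1]
    positivity
  have h2 := (((g x.1).hasFDerivAt (x := x.2)).clm_apply (hasFDerivAt_id x.2)).sqrt h1
  rw [liou_fibre (liou_diff_spd h hx) h2 u]
  have h3 : √(g x.1 x.2 x.2) = spd g x := rfl
  simp only [vel, map_smul, ContinuousLinearMap.smul_apply, smul_eq_mul, h.hor_left hx.1, id, h3,
    ContinuousLinearMap.add_apply, ContinuousLinearMap.comp_apply, ContinuousLinearMap.id_apply,
    ContinuousLinearMap.flip_apply, h.symm x.1 u x.2 hx.1]
  field_simp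
  ring

theorem liouB_fibre (h : IsMetric g) {x : VV n} (hx : x ∈ OO n) (u : E n) (c : VV n) :
    liouB g x (0, u) c = GG g x.1 u c.1 := by
  have h0 := (h.spd_pos hx).ne'
  rw [liouB_apply, om_fibre h hx, liou_spd_fibre h hx, liouN_fibre hx.1, GG_apply]
  simp only [al, ContinuousLinearMap.comp_apply, ContinuousLinearMap.coe_fst', map_zero,
    rhL_apply, thL_apply]
  have : nu x.1 (0 : E n) = 0 := (nuL x.1).map_zero
  field_simp
  ring

/-- Derivative along the circle action. -/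
theorem liou_rot {F : Type} [NormedAddCommGroup F] [NormedSpace ℝ F] {f : VV n → F} {x : VV n}
    (hf : DifferentiableAt ℝ f x) (hi : ∀ l : ℂ, l ≠ 0 → f (l • x) = f x) :
    fderiv ℝ f x (Complex.I • x) = 0 := by
  have a1 : HasDerivAt (fun r : ℝ => x + r • (Complex.I • x)) (Complex.I • x) 0 := by
    simpa using ((hasDerivAt_id (0 : ℝ)).smul_const (Complex.I • x)).const_add x
  have a2 : HasDerivAt (fun r : ℝ => f (x + r • (Complex.I • x)))
      (fderiv ℝ f x (Complex.I • x)) 0 :=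
    HasFDerivAt.comp_hasDerivAt_of_eq (hl := hf.hasFDerivAt) (hf := a1) (hy := by simp)
  have e : (fun r : ℝ => f (x + r • (Complex.I • x))) = fun _ => f x := by
    funext r
    have e1 : x + r • (Complex.I • x) = (1 + (r : ℂ) * Complex.I) • x := by
      rw [add_smul, one_smul, mul_smul, Complex.coe_smul]
    rw [e1]
    refine hi _ fun h => ?_
    have := congrArg Complex.re h
    simp at this
  rw [e] at a2
  exact a2.unique (hasDerivAt_const _ _)

theorem liouB_rot (h : IsMetric g) {x : VV n} (hx : x ∈ OO n) (c : VV n) :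
    liouB g x (Complex.I • x) c = -(liouN x c).im := by
  have hB : Complex.I • x ∈ Bdir x := Submodule.subset_span (by simp)
  have e : ∀ (l : ℂ) (y : VV n), act l 1 0 y = l • y := fun l y => by simp [act, Prod.ext_iff]
  have h1 : fderiv ℝ (spd g) x (Complex.I • x) = 0 :=
    liou_rot (liou_diff_spd h hx) fun l hl => by
      rw [← e, h.spd_act 0 hl one_pos hx.1, one_mul]
  have h2 : liouN x (Complex.I • x) = 0 :=
    liou_rot (liou_diff_nu hx.1) fun l hl => nu_smul_smul hl x.1 x.2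
  rw [liouB_apply, h1, h2, al_Bdir h hx hB, om_Bdir h hx hB]
  simp only [rhL_apply, thL_apply, Prod.smul_fst, nu_smul, nu_self hx.1]
  simp

namespace Geo
variable (G : Geo g) (h : IsMetric g)
include h

theorem liou_diff_psi (t : ℝ) {x : VV n} (hx : x ∈ OO n) : DifferentiableAt ℝ (G.psi t) x := by
  have ho : IsOpen {p : ℝ × VV n | p.2 ∈ OO n} := isOpen_OO.preimage continuous_snd
  exact (((G.contDiffOn_psi h).contDiffAt
    (ho.mem_nhds (show ((t, x) : ℝ × VV n) ∈ _ from hx))).comp x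
      (f := fun y : VV n => ((t, y) : ℝ × VV n)) (by fun_prop)).differentiableAt (by simp)

/-- First integrals have invariant differentials. -/
theorem liou_inv {F : Type} [NormedAddCommGroup F] [NormedSpace ℝ F] {f : VV n → F} (t : ℝ)
    {x : VV n} (hx : x ∈ OO n) (hf : DifferentiableAt ℝ f (G.psi t x))
    (hi : ∀ y ∈ OO n, f (G.psi t y) = f y) (a : VV n) :
    fderiv ℝ f (G.psi t x) (fderiv ℝ (G.psi t) x a) = fderiv ℝ f x a := by
  have h1 := (hf.hasFDerivAt.comp x (G.liou_diff_psi h t hx).hasFDerivAt).fderiv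
  have h2 : (f ∘ G.psi t) =ᶠ[𝓝 x] f :=
    Filter.eventually_of_mem (isOpen_OO.mem_nhds hx) fun y hy => hi y hy
  rw [← h2.fderiv_eq, h1]
  rfl

theorem liou_rho (t : ℝ) {x : VV n} (hx : x ∈ OO n) (a : VV n) :
    rhL (G.psi t x).1 (fderiv ℝ (G.psi t) x a).1 = rhL x.1 a.1 := by
  have hd : ∀ y : VV n, y.1 ≠ 0 → HasFDerivAt (fun y : VV n => Real.log ‖y.1‖)
      ((rhL y.1).comp (ContinuousLinearMap.fst ℝ (E n) (E n))) y := fun y hy =>
    HasFDerivAt.comp (g := fun z : E n => Real.log ‖z‖) (f := fun y : VV n => y.1) y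
      (hasFDerivAt_log_norm hy) hasFDerivAt_fst
  have h1 := G.liou_inv h (f := fun y : VV n => Real.log ‖y.1‖) t hx
    (hd _ (G.Z_ne h t hx)).differentiableAt
    (fun y hy => congrArg Real.log (G.norm_Z h t hy)) a
  rw [(hd _ (G.Z_ne h t hx)).fderiv, (hd _ hx.1).fderiv] at h1
  exact h1

theorem det_psi (t : ℝ) {x : VV n} (hx : x ∈ OO n) :
    |(fderiv ℝ (G.psi t) x).det| * detG g (G.Z t x) = detG g x.1 := by
  have hy := G.psi_mem h t hx
  set T := fderiv ℝ (G.psi t) x with hT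
  let σ : VV n →L[ℝ] ℝ :=
    ((thL (G.psi t x).1).comp (ContinuousLinearMap.fst ℝ _ _)).comp T -
      (thL x.1).comp (ContinuousLinearMap.fst ℝ _ _)
  have hσa : ∀ a, σ a = thL (G.psi t x).1 (T a).1 - thL x.1 a.1 := fun a => rfl
  have hσ : σ (Complex.I • x) = 0 := by
    rw [hσa, hT, G.fst_fderiv_psi h t hx, G.JJ_gauge h t hx]
    have e : (G.psi t x).1 = G.Z t x := rfl
    simp only [e, thL_apply, Prod.smul_fst, nu_smul, nu_self hx.1, nu_self (G.Z_ne h t hx),
      sub_self]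
  have hs : ∀ a, fderiv ℝ (spd g) (G.psi t x) (T a) = fderiv ℝ (spd g) x a := fun a =>
    G.liou_inv h t hx (liou_diff_spd h hy) (fun y hy => G.spd_psi h t hy) a
  have hn : ∀ a, liouN (G.psi t x) (T a) = liouN x a := fun a =>
    G.liou_inv h (f := fun y : VV n => nu y.1 y.2) t hx (liou_diff_nu hy.1)
      (fun y hy => G.nu_psi h t hy) a
  have key : ∀ a c, liouB g (G.psi t x) (T a) (T c) =
      liouB g x (a + σ a • (Complex.I • x)) (c + σ c • (Complex.I • x)) := by
    intro a c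
    have h0 : liouB g x (Complex.I • x) (Complex.I • x) = 0 := by
      have := liouB_anti g x (Complex.I • x) (Complex.I • x)
      linarith
    simp only [map_add, map_smul, LinearMap.add_apply, LinearMap.smul_apply, smul_eq_mul, h0]
    rw [liouB_anti g x a (Complex.I • x), liouB_rot h hx, liouB_rot h hx, liouB_apply, liouB_apply,
      hs, hs, hn, hn, hT, G.al_psi h t hx, G.al_psi h t hx, G.om_psi h t hx, G.liou_rho h t hx,
      G.liou_rho h t hx, G.spd_psi h t hx, ← hT, hσa, hσa]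
    ring
  have main := liou_alg (stdOrthonormalBasis ℝ (E n)).toBasis (liouB g x) (liouB g (G.psi t x))
    (fun u w => GG g x.1 u w) (fun u w => GG g (G.Z t x) u w) (liouB_anti g x) (liouB_fibre h hx)
    (fun u => map_zero _) (liouB_anti g _) (liouB_fibre h hy) (fun u => map_zero _)
    (T : VV n →ₗ[ℝ] VV n) (σ : VV n →ₗ[ℝ] ℝ) (Complex.I • x) hσ key
  have main' : T.det ^ 2 * detG g (G.Z t x) ^ 2 = detG g x.1 ^ 2 := main
  have p1 := h.detG_pos hx.1
  have p2 := h.detG_pos (G.Z_ne h t hx)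
  refine (pow_left_inj₀ (by positivity) p1.le two_ne_zero).1 ?_
  rw [mul_pow, sq_abs, main']

theorem integral_psi (t : ℝ) (f : VV n → ℝ) :
    ∫ x in OO n, f (G.psi t x) * detG g x.1 = ∫ x in OO n, f x * detG g x.1 := by
  have hinv : ∀ s : ℝ, ∀ x ∈ OO n, G.psi (-s) (G.psi s x) = x := fun s x hx => by
    rw [← G.psi_add h _ _ hx, neg_add_cancel, G.psi_zero h hx]
  have him : G.psi t '' OO n = OO n := by
    refine Subset.antisymm ?_ fun y hy => ⟨G.psi (-t) y, G.psi_mem h _ hy, ?_⟩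
    · rintro _ ⟨x, hx, rfl⟩
      exact G.psi_mem h t hx
    · simpa using hinv (-t) y hy
  have hinj : InjOn (G.psi t) (OO n) := fun x hx y hy e => by
    rw [← hinv t x hx, e, hinv t y hy]
  have h1 := integral_image_eq_integral_abs_det_fderiv_smul (volume : Measure (VV n))
    isOpen_OO.measurableSet
    (fun x hx => (G.liou_diff_psi h t hx).hasFDerivAt.hasFDerivWithinAt) hinj
    (fun x => f x * detG g x.1)
  rw [him] at h1
  rw [h1]
  refine setIntegral_congr_fun isOpen_OO.measurableSet fun x hx => ?_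
  simp only [smul_eq_mul]
  rw [← G.det_psi h t hx]
  exact by simp only [Z]; ring

end Geo

end Pool.Agent.Work.MP_8c604c_gt
end
end
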