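import Pool.Agent.Work.MP_8c604c_gt.StokesA
import Pool.Agent.Work.MP_8c604c_gt.Top

-- merged part: Pool.Agent.Work.MP_8c604c_gt.FSAux
section
/-!
Two explicit integrals for the Fubini-Study metric.
-/

set_option maxSynthPendingDepth 3

open Set Filter Topology MeasureTheory
open scoped ContDiff

noncomputable section
namespace Pool.Agent.Work.MP_8c604c_gt

open Real

variable {n : ℕ}

theorem fs_rinner (z u : E n) : inner ℝ z u = (inner ℂ z u).re := by
  simp [PiLp.inner_apply, Complex.re_sum]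

theorem fs_inner_self (z : E n) : inner ℂ z z = ((‖z‖ ^ 2 : ℝ) : ℂ) := by
  rw [inner_self_eq_norm_sq_to_K]
  simp

theorem fs_inner_of_nu {z u : E n} (hz : z ≠ 0) (h : nu z u = 0) : inner ℂ z u = 0 := by
  rw [nu_def] at h
  have : ((‖z‖ ^ 2 : ℝ) : ℂ) ≠ 0 := by
    exact_mod_cast pow_ne_zero 2 (norm_ne_zero_iff.2 hz)
  exact (div_eq_zero_iff.1 h).resolve_right this

theorem fs_GG {z : E n} (hz : z ≠ 0) (u w : E n) :
    GG (fsM n) z u w = (‖z‖ ^ 2)⁻¹ * inner ℝ u w := by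
  have h1 : inner ℂ z (hor z w) = 0 := fs_inner_of_nu hz (nu_hor hz w)
  have h2 : inner ℂ (hor z u) z = 0 := by
    rw [← inner_conj_symm, fs_inner_of_nu hz (nu_hor hz u), map_zero]
  have hu : u = hor z u + nu z u • z := by rw [hor_def]; abel
  have hw : w = hor z w + nu z w • z := by rw [hor_def]; abel
  have h3 : inner ℂ u w = inner ℂ (hor z u) (hor z w) +
      (starRingEnd ℂ) (nu z u) * nu z w * ((‖z‖ ^ 2 : ℝ) : ℂ) := by
    conv_lhs => rw [hu, hw]
    rw [inner_add_left, inner_add_right, inner_add_right, inner_smul_left, inner_smul_left,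
      inner_smul_right, inner_smul_right, h1, h2, fs_inner_self]
    ring
  have hN : ‖z‖ ^ 2 ≠ 0 := pow_ne_zero 2 (norm_ne_zero_iff.2 hz)
  rw [GG_apply, fsM_eq, fs_rinner, fs_rinner, h3]
  simp only [Complex.add_re, Complex.mul_re, Complex.ofReal_re, Complex.ofReal_im,
    Complex.conj_re, Complex.conj_im, Complex.mul_im]
  field_simp
  ring

theorem fs_detG {z : E n} (hz : z ≠ 0) : √(detG (fsM n) z) = (‖z‖⁻¹) ^ (2 * n + 2) := by
  have h : (Matrix.of fun i j => GG (fsM n) z (stdOrthonormalBasis ℝ (E n) i)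
      (stdOrthonormalBasis ℝ (E n) j)) = (‖z‖ ^ 2)⁻¹ • (1 : Matrix _ _ ℝ) := by
    ext i j
    rw [Matrix.of_apply, fs_GG hz, Matrix.smul_apply, smul_eq_mul, Matrix.one_apply,
      orthonormal_iff_ite.1 (stdOrthonormalBasis ℝ (E n)).orthonormal i j]
  rw [detG, bdet, h, Matrix.det_smul, Matrix.det_one, mul_one, Fintype.card_fin, finrank_E,
    ← inv_pow, ← pow_mul, mul_comm 2 (2 * n + 2), pow_mul]
  exact Real.sqrt_sq (by positivity)

theorem fs_int_log : ∫ y in Ioi (0 : ℝ), y⁻¹ * wt (Real.log y) = 1 := by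
  have h := integral_image_eq_integral_abs_deriv_smul (s := univ) (f := Real.exp) (f' := Real.exp)
    MeasurableSet.univ (fun x _ => (Real.hasDerivAt_exp x).hasDerivWithinAt)
    Real.exp_injective.injOn (fun y => y⁻¹ * wt (Real.log y))
  rw [image_univ, Real.range_exp, Measure.restrict_univ] at h
  rw [h, ← integral_wt]
  refine integral_congr_ae (Eventually.of_forall fun x => ?_)
  simp only [Real.log_exp, smul_eq_mul, abs_of_pos (Real.exp_pos x)]
  field_simp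

theorem vol_fsM' : vol (fsM n) = 2 * π ^ (n + 1) / n.factorial := by
  have h1 : vol (fsM n) = ∫ y : E n, (fun r : ℝ => r⁻¹ ^ (2 * n + 2) * wt (Real.log r)) ‖y‖ := by
    refine integral_congr_ae ?_
    have : ∀ᵐ y : E n, y ≠ 0 := by
      simp [ae_iff]
    filter_upwards [this] with y hy
    rw [fs_detG hy]
  have hb : (volume : Measure (E n)).real (Metric.ball 0 1) = π ^ (n + 1) / (n + 1).factorial := by
    rw [Measure.real, InnerProductSpace.volume_ball_of_dim_even (k := n + 1)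
      (by rw [finrank_E]; ring) 0 1]
    simp only [ENNReal.ofReal_one, one_pow, one_mul]
    exact ENNReal.toReal_ofReal (by positivity)
  have h2 : ∫ y in Ioi (0 : ℝ), y ^ (2 * n + 2 - 1) • (y⁻¹ ^ (2 * n + 2) * wt (Real.log y)) = 1 := by
    rw [← fs_int_log]
    refine setIntegral_congr_fun measurableSet_Ioi fun y hy => ?_
    have hy0 : y ≠ 0 := ne_of_gt hy
    simp only [smul_eq_mul, show 2 * n + 2 - 1 = 2 * n + 1 by omega]
    rw [pow_succ (y⁻¹) (2 * n + 1), inv_pow]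
    field_simp
  rw [h1, integral_fun_norm_addHaar volume
    (fun r : ℝ => r⁻¹ ^ (2 * n + 2) * wt (Real.log r)), hb, finrank_E, h2, Nat.factorial_succ]
  simp only [smul_eq_mul, nsmul_eq_mul]
  push_cast
  field_simp

theorem fs_int_th0 (hn : 1 ≤ n) : ∫ r in (0 : ℝ)..(π / 2), th0 n r = 1 / (2 * n) := by
  obtain ⟨m, rfl⟩ : ∃ m, n = m + 1 := ⟨n - 1, by omega⟩
  have hd : ∀ r ∈ uIcc (0 : ℝ) (π / 2), HasDerivAt
      (fun r => Real.sin r ^ (2 * m + 2) / (2 * ((m + 1 : ℕ) : ℝ))) (th0 (m + 1) r) r := by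
    intro r _
    have := ((Real.hasDerivAt_sin r).fun_pow (2 * m + 2)).div_const (2 * ((m + 1 : ℕ) : ℝ))
    refine this.congr_deriv ?_
    rw [th0, Real.sin_two_mul, show 2 * (m + 1) - 2 = 2 * m by omega,
      show 2 * m + 2 - 1 = 2 * m + 1 by omega]
    push_cast
    field_simp
    ring
  have hc : Continuous (th0 (m + 1)) := by
    unfold th0
    fun_prop
  rw [intervalIntegral.integral_eq_sub_of_hasDerivAt hd (hc.intervalIntegrable _ _)]
  simp

theorem model_integral' (hn : 1 ≤ n) :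
    ∫⁻ y : EuclideanSpace ℝ (Fin (2 * n)),
      (Ioo 0 (π / 2)).indicator (fun r => ENNReal.ofReal (th0 n r / r ^ (2 * n - 1))) ‖y‖ =
      ENNReal.ofReal (π ^ n / n.factorial) := by
  have : Nonempty (Fin (2 * n)) := ⟨⟨0, by omega⟩⟩
  set f : ℝ → ℝ := (Ioo 0 (π / 2)).indicator fun r => th0 n r / r ^ (2 * n - 1) with hf
  have hc : Continuous (th0 n) := by
    unfold th0
    fun_prop
  have hf0 : ∀ r, 0 ≤ f r := by
    intro r
    refine indicator_nonneg (fun r hr => div_nonneg ?_ (pow_nonneg hr.1.le _)) r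
    have h1 : 0 ≤ Real.sin r := Real.sin_nonneg_of_nonneg_of_le_pi hr.1.le (by linarith [hr.2, pi_pos])
    have h2 : 0 ≤ Real.sin (2 * r) :=
      Real.sin_nonneg_of_nonneg_of_le_pi (by linarith [hr.1]) (by linarith [hr.2])
    unfold th0
    positivity
  have hdim : Module.finrank ℝ (EuclideanSpace ℝ (Fin (2 * n))) = 2 * n := by simp
  have he : EqOn (fun y : ℝ => y ^ (2 * n - 1) • f y) ((Ioo 0 (π / 2)).indicator (th0 n)) (Ioi 0) := by
    intro y hy
    have hy0 : y ≠ 0 := ne_of_gt hy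
    by_cases h : y ∈ Ioo 0 (π / 2)
    · simp only [hf, indicator_of_mem h, smul_eq_mul]
      field_simp
    · simp only [hf, indicator_of_notMem h, smul_zero]
  have hio : IntegrableOn (th0 n) (Ioo 0 (π / 2)) :=
    (hc.integrableOn_Icc).mono_set Ioo_subset_Icc_self
  have hint : Integrable (fun y : EuclideanSpace ℝ (Fin (2 * n)) => f ‖y‖) := by
    rw [integrable_fun_norm_addHaar volume, hdim, integrableOn_congr_fun he measurableSet_Ioi]
    exact ((integrable_indicator_iff measurableSet_Ioo).2 hio).integrableOn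
  have hb : (volume : Measure (EuclideanSpace ℝ (Fin (2 * n)))).real (Metric.ball 0 1) =
      π ^ n / n.factorial := by
    rw [Measure.real, InnerProductSpace.volume_ball_of_dim_even (k := n) hdim 0 1]
    simp only [ENNReal.ofReal_one, one_pow, one_mul]
    exact ENNReal.toReal_ofReal (by positivity)
  have h3 : ∫ y in Ioi (0 : ℝ), y ^ (2 * n - 1) • f y = 1 / (2 * n) := by
    rw [setIntegral_congr_fun measurableSet_Ioi he, setIntegral_indicator measurableSet_Ioo,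
      inter_eq_right.2 Ioo_subset_Ioi_self, ← integral_Ioc_eq_integral_Ioo,
      ← intervalIntegral.integral_of_le (by positivity), fs_int_th0 hn]
  have h4 : ∫ y : EuclideanSpace ℝ (Fin (2 * n)), f ‖y‖ = π ^ n / n.factorial := by
    rw [integral_fun_norm_addHaar volume f, hdim, hb, h3]
    have : (n : ℝ) ≠ 0 := by exact_mod_cast (by omega : n ≠ 0)
    simp only [smul_eq_mul, nsmul_eq_mul]
    push_cast
    field_simp
  rw [← h4, ofReal_integral_eq_lintegral_ofReal hint (Eventually.of_forall fun y => hf0 _)]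
  refine lintegral_congr fun y => ?_
  by_cases h : ‖y‖ ∈ Ioo 0 (π / 2)
  · simp only [hf, indicator_of_mem h]
  · simp only [hf, indicator_of_notMem h, ENNReal.ofReal_zero]

end Pool.Agent.Work.MP_8c604c_gt
end
end

-- merged part: Pool.Agent.Work.MP_8c604c_gt.FS
section
/-!
Explicit data for the Fubini-Study metric.
Hints. v = vel (fsM n) x = (|z|/|h|) h with h = hor z w, s = |h|/|z|. psi t (z,w) = (Z, s V + nu Z) with Z = cos t z + sin t v,
V = -sin t z + cos t v. H (r,x) = cos (pi r/4) z + sin (pi r/4) i v. Then H (1, psi t x) = exp(-i t) H (1,x),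
H (-1, psi t x) = exp(i t) H (-1,x), so delta = -2. vol_fsM: GG (fsM n) z = |z|^(-2) times the real inner product,
integral_fun_norm_addHaar, InnerProductSpace.volume_ball_of_dim_even.
-/

set_option maxSynthPendingDepth 3

open Set Filter Topology MeasureTheory
open scoped ContDiff

noncomputable section
namespace Pool.Agent.Work.MP_8c604c_gt

open Real

variable {n : ℕ}

namespace FSD

/-- The unit horizontal velocity. -/
abbrev v (x : VV n) : E n := vel (fsM n) x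

/-- Foot point of the geodesic. -/
def Z (t : ℝ) (x : VV n) : E n := cos t • x.1 + sin t • v x

/-- Velocity of the geodesic. -/
def V (t : ℝ) (x : VV n) : E n := (-sin t) • x.1 + cos t • v x

/-- The geodesic flow. -/
def ψ (t : ℝ) (x : VV n) : VV n := (Z t x, spd (fsM n) x • V t x + nu x.1 x.2 • Z t x)

/-- The homotopy. -/
def H (p : ℝ × VV n) : E n := cos (π * p.1 / 4) • p.2.1 + sin (π * p.1 / 4) • Complex.I • v p.2

theorem g_eq {z a : E n} (hz : z ≠ 0) (ha : nu z a = 0) (u : E n) :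
    fsM n z a u = (‖z‖ ^ 2)⁻¹ * inner ℝ a u := by
  have h := fs_GG hz a u
  rw [GG_apply, ha] at h
  simpa using h

theorem nu_v {x : VV n} (hx : x ∈ OO n) : nu x.1 (v x) = 0 := isMetric_fsM.nu_vel hx.1

theorem inner_zv {x : VV n} (hx : x ∈ OO n) : inner ℂ x.1 (v x) = 0 :=
  fs_inner_of_nu hx.1 (nu_v hx)

theorem inner_vz {x : VV n} (hx : x ∈ OO n) : inner ℂ (v x) x.1 = 0 := by
  rw [← inner_conj_symm, inner_zv hx, map_zero]

theorem norm_v {x : VV n} (hx : x ∈ OO n) : ‖v x‖ ^ 2 = ‖x.1‖ ^ 2 := by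
  have h := isMetric_fsM.vel_unit hx
  have hN : ‖x.1‖ ^ 2 ≠ 0 := pow_ne_zero 2 (norm_ne_zero_iff.2 hx.1)
  rw [g_eq hx.1 (nu_v hx), real_inner_self_eq_norm_sq] at h
  exact (inv_mul_eq_one₀ hN).1 h |>.symm

theorem inner_comb {x : VV n} (hx : x ∈ OO n) (a b c d : ℂ) :
    inner ℂ (a • x.1 + b • v x) (c • x.1 + d • v x) =
      ((starRingEnd ℂ) a * c + (starRingEnd ℂ) b * d) * ((‖x.1‖ ^ 2 : ℝ) : ℂ) := by
  rw [inner_add_left, inner_add_right, inner_add_right, inner_smul_left, inner_smul_left,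
    inner_smul_left, inner_smul_left, inner_smul_right, inner_smul_right, inner_smul_right,
    inner_smul_right, inner_zv hx, inner_vz hx, fs_inner_self, fs_inner_self, norm_v hx]
  ring

theorem norm_comb {x : VV n} (hx : x ∈ OO n) {a b : ℂ}
    (h : (starRingEnd ℂ) a * a + (starRingEnd ℂ) b * b = 1) :
    ‖a • x.1 + b • v x‖ ^ 2 = ‖x.1‖ ^ 2 := by
  have h1 := inner_comb hx a b a b
  rw [h, one_mul, fs_inner_self] at h1
  exact_mod_cast h1

theorem ne_comb {x : VV n} (hx : x ∈ OO n) {a b : ℂ}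
    (h : (starRingEnd ℂ) a * a + (starRingEnd ℂ) b * b = 1) : a • x.1 + b • v x ≠ 0 := by
  intro h0
  have h1 := norm_comb hx h
  rw [h0, norm_zero] at h1
  exact pow_ne_zero 2 (norm_ne_zero_iff.2 hx.1) (by rw [← h1]; norm_num)

theorem Z_c (t : ℝ) (x : VV n) : Z t x = ((cos t : ℝ) : ℂ) • x.1 + ((sin t : ℝ) : ℂ) • v x := by
  rw [Z, Complex.coe_smul, Complex.coe_smul]

theorem V_c (t : ℝ) (x : VV n) : V t x = ((-sin t : ℝ) : ℂ) • x.1 + ((cos t : ℝ) : ℂ) • v x := by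
  rw [V, Complex.coe_smul, Complex.coe_smul]

theorem cs1 (t : ℝ) : (starRingEnd ℂ) ((cos t : ℝ) : ℂ) * ((cos t : ℝ) : ℂ) +
    (starRingEnd ℂ) ((sin t : ℝ) : ℂ) * ((sin t : ℝ) : ℂ) = 1 := by
  rw [Complex.conj_ofReal, Complex.conj_ofReal]
  have := Real.cos_sq_add_sin_sq t
  exact_mod_cast (by nlinarith : cos t * cos t + sin t * sin t = 1)

theorem cs2 (t : ℝ) : (starRingEnd ℂ) ((-sin t : ℝ) : ℂ) * ((-sin t : ℝ) : ℂ) +
    (starRingEnd ℂ) ((cos t : ℝ) : ℂ) * ((cos t : ℝ) : ℂ) = 1 := by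
  rw [Complex.conj_ofReal, Complex.conj_ofReal]
  have := Real.cos_sq_add_sin_sq t
  exact_mod_cast (by nlinarith : -sin t * -sin t + cos t * cos t = 1)

theorem Z_ne (t : ℝ) {x : VV n} (hx : x ∈ OO n) : Z t x ≠ 0 := by
  rw [Z_c]
  exact ne_comb hx (cs1 t)

theorem norm_Z (t : ℝ) {x : VV n} (hx : x ∈ OO n) : ‖Z t x‖ ^ 2 = ‖x.1‖ ^ 2 := by
  rw [Z_c]
  exact norm_comb hx (cs1 t)

theorem norm_V (t : ℝ) {x : VV n} (hx : x ∈ OO n) : ‖V t x‖ ^ 2 = ‖x.1‖ ^ 2 := by
  rw [V_c]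
  exact norm_comb hx (cs2 t)

theorem nu_ZV (t : ℝ) {x : VV n} (hx : x ∈ OO n) : nu (Z t x) (V t x) = 0 := by
  rw [nu_def, Z_c, V_c, inner_comb hx, Complex.conj_ofReal, Complex.conj_ofReal]
  push_cast
  ring

theorem unit_ZV (t : ℝ) {x : VV n} (hx : x ∈ OO n) : fsM n (Z t x) (V t x) (V t x) = 1 := by
  have hN : ‖x.1‖ ^ 2 ≠ 0 := pow_ne_zero 2 (norm_ne_zero_iff.2 hx.1)
  rw [g_eq (Z_ne t hx) (nu_ZV t hx), real_inner_self_eq_norm_sq, norm_Z t hx, norm_V t hx]
  exact inv_mul_cancel₀ hN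

theorem ψ_eq (t : ℝ) (x : VV n) : ψ t x = act 1 (spd (fsM n) x) (nu x.1 x.2) (Z t x, V t x) := by
  simp [ψ, act]

theorem ψ_mem (t : ℝ) {x : VV n} (hx : x ∈ OO n) : ψ t x ∈ OO n := by
  rw [ψ_eq]
  exact act_mem _ one_ne_zero (isMetric_fsM.spd_pos hx)
    (isMetric_fsM.unit_mem (Z_ne t hx) (nu_ZV t hx) (unit_ZV t hx)).1

theorem v_ψ (t : ℝ) {x : VV n} (hx : x ∈ OO n) : v (ψ t x) = V t x := by
  have h := isMetric_fsM.unit_mem (Z_ne t hx) (nu_ZV t hx) (unit_ZV t hx)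
  rw [ψ_eq, v, isMetric_fsM.vel_eqv _ _ _ _ one_ne_zero (isMetric_fsM.spd_pos hx) h.1, one_smul,
    h.2.2]

theorem spd_ψ (t : ℝ) {x : VV n} (hx : x ∈ OO n) : spd (fsM n) (ψ t x) = spd (fsM n) x := by
  have h := isMetric_fsM.unit_mem (Z_ne t hx) (nu_ZV t hx) (unit_ZV t hx)
  rw [ψ_eq, isMetric_fsM.spd_act _ one_ne_zero (isMetric_fsM.spd_pos hx) (Z_ne t hx), h.2.1,
    mul_one]

theorem nu_ψ (t : ℝ) {x : VV n} (hx : x ∈ OO n) : nu (ψ t x).1 (ψ t x).2 = nu x.1 x.2 := by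
  change nu (Z t x) (spd (fsM n) x • V t x + nu x.1 x.2 • Z t x) = _
  rw [nu_add, ← Complex.coe_smul, nu_smul, nu_smul, nu_ZV t hx, nu_self (Z_ne t hx)]
  ring

theorem ψ_fst (t : ℝ) (x : VV n) : (ψ t x).1 = Z t x := rfl

theorem Z_add (s t : ℝ) {x : VV n} (hx : x ∈ OO n) : Z (s + t) x = Z s (ψ t x) := by
  rw [Z, Z, v_ψ t hx, ψ_fst, Z, V, Real.cos_add, Real.sin_add]
  module

theorem V_add (s t : ℝ) {x : VV n} (hx : x ∈ OO n) : V (s + t) x = V s (ψ t x) := by
  rw [V, V, v_ψ t hx, ψ_fst, Z, V, Real.cos_add, Real.sin_add]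
  module

theorem ψ_add (s t : ℝ) {x : VV n} (hx : x ∈ OO n) : ψ (s + t) x = ψ s (ψ t x) := by
  rw [ψ, ψ, spd_ψ t hx, nu_ψ t hx, Z_add s t hx, V_add s t hx]

theorem ψ_zero {x : VV n} (hx : x ∈ OO n) : ψ 0 x = x := by
  have h := isMetric_fsM.snd_eq hx
  refine Prod.ext ?_ ?_
  · simp [ψ, Z]
  · simpa [ψ, Z, V] using h.symm

theorem ψ_pi {x : VV n} (hx : x ∈ OO n) : ψ π x = (-1 : ℂ) • x := by
  have h := isMetric_fsM.snd_eq hx
  refine Prod.ext ?_ ?_
  · simp [ψ, Z]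
  · change spd (fsM n) x • V π x + nu x.1 x.2 • Z π x = (-1 : ℂ) • x.2
    conv_rhs => rw [h]
    rw [Z, V, Real.cos_pi, Real.sin_pi]
    module

theorem ψ_act (t : ℝ) {l : ℂ} {m : ℝ} (c : ℂ) {x : VV n} (hl : l ≠ 0) (hm : 0 < m)
    (hx : x ∈ OO n) : ψ t (act l m c x) = act l m c (ψ t x) := by
  have h1 : v (act l m c x) = l • v x := isMetric_fsM.vel_eqv _ _ _ _ hl hm hx
  have h2 := isMetric_fsM.spd_act c hl hm hx.1
  have h3 : nu (act l m c x).1 (act l m c x).2 = m * nu x.1 x.2 + c := by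
    change nu (l • x.1) (l • (m • x.2 + c • x.1)) = _
    rw [nu_smul_smul hl, nu_add, ← Complex.coe_smul, nu_smul, nu_smul, nu_self hx.1, mul_one]
  have h4 : Z t (act l m c x) = l • Z t x := by
    rw [Z, Z, h1]
    change cos t • l • x.1 + _ = _
    module
  have h5 : V t (act l m c x) = l • V t x := by
    rw [V, V, h1]
    change (-sin t) • l • x.1 + _ = _
    module
  rw [ψ, h2, h3, h4, h5]
  refine Prod.ext rfl ?_
  change _ = l • (m • (spd (fsM n) x • V t x + nu x.1 x.2 • Z t x) + c • Z t x)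
  change (m * spd (fsM n) x) • l • V t x + ((m : ℂ) * nu x.1 x.2 + c) • l • Z t x = _
  module

theorem cd_v : ContDiffOn ℝ ∞ (fun p : ℝ × VV n => v p.2) {p | p.2 ∈ OO n} :=
  isMetric_fsM.contDiffOn_vel.comp contDiffOn_snd fun _ hp => hp

theorem ψ_smooth : ContDiffOn ℝ ∞ (fun p : ℝ × VV n => ψ p.1 p.2) {p | p.2 ∈ OO n} := by
  have hc : ContDiffOn ℝ ∞ (fun p : ℝ × VV n => cos p.1) {p | p.2 ∈ OO n} :=
    (Real.contDiff_cos.comp contDiff_fst).contDiffOn
  have hs : ContDiffOn ℝ ∞ (fun p : ℝ × VV n => sin p.1) {p | p.2 ∈ OO n} :=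
    (Real.contDiff_sin.comp contDiff_fst).contDiffOn
  have hZ : ContDiffOn ℝ ∞ (fun p : ℝ × VV n => Z p.1 p.2) {p | p.2 ∈ OO n} :=
    (hc.smul contDiffOn_snd.fst).add (hs.smul cd_v)
  have hV : ContDiffOn ℝ ∞ (fun p : ℝ × VV n => V p.1 p.2) {p | p.2 ∈ OO n} :=
    (hs.neg.smul contDiffOn_snd.fst).add (hc.smul cd_v)
  have h1 : ContDiffOn ℝ ∞ (fun p : ℝ × VV n => spd (fsM n) p.2) {p | p.2 ∈ OO n} :=
    isMetric_fsM.contDiffOn_spd.comp contDiffOn_snd fun _ hp => hp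
  have h2 : ContDiffOn ℝ ∞ (fun p : ℝ × VV n => nu p.2.1 p.2.2) {p | p.2 ∈ OO n} :=
    contDiffOn_nu contDiffOn_snd.fst contDiffOn_snd.snd fun _ hp => hp.1
  exact hZ.prodMk ((h1.smul hV).add (h2.smul hZ))

theorem H_smooth : ContDiffOn ℝ ∞ (H : ℝ × VV n → E n) {p | p.2 ∈ OO n} := by
  have h0 : ContDiff ℝ ∞ (fun p : ℝ × VV n => π * p.1 / 4) :=
    (contDiff_const.mul contDiff_fst).div_const 4
  have hc : ContDiffOn ℝ ∞ (fun p : ℝ × VV n => cos (π * p.1 / 4)) {p | p.2 ∈ OO n} :=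
    (Real.contDiff_cos.comp h0).contDiffOn
  have hs : ContDiffOn ℝ ∞ (fun p : ℝ × VV n => sin (π * p.1 / 4)) {p | p.2 ∈ OO n} :=
    (Real.contDiff_sin.comp h0).contDiffOn
  exact (hc.smul contDiffOn_snd.fst).add (hs.smul (cd_v.const_smul Complex.I))

theorem al_apply (x δ : VV n) : al (fsM n) x δ = fsM n x.1 (v x) δ.1 := rfl

theorem diff_v {x : VV n} (hx : x ∈ OO n) : DifferentiableAt ℝ (v : VV n → E n) x :=
  (isMetric_fsM.contDiffOn_vel.contDiffAt (isOpen_OO.mem_nhds hx)).differentiableAt (by simp)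

theorem dv1 {x : VV n} (hx : x ∈ OO n) (δ : VV n) :
    inner ℝ x.1 (fderiv ℝ v x δ) + inner ℝ δ.1 (v x) = 0 := by
  have h1 : HasFDerivAt (fun y : VV n => inner ℝ y.1 (v y)) _ x :=
    (hasFDerivAt_fst (𝕜 := ℝ) (p := x)).inner ℝ (diff_v hx).hasFDerivAt
  have h2 : HasFDerivAt (fun y : VV n => inner ℝ y.1 (v y)) (0 : VV n →L[ℝ] ℝ) x := by
    refine (hasFDerivAt_const (0 : ℝ) x).congr_of_eventuallyEq ?_
    filter_upwards [isOpen_OO.mem_nhds hx] with y hy
    rw [fs_rinner, inner_zv hy, Complex.zero_re]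
  have := congrArg (fun L : VV n →L[ℝ] ℝ => L δ) (h1.unique h2)
  simpa using this

theorem dv2 {x : VV n} (hx : x ∈ OO n) (δ : VV n) :
    inner ℝ (v x) (fderiv ℝ v x δ) = inner ℝ x.1 δ.1 := by
  have h1 : HasFDerivAt (fun y : VV n => inner ℝ (v y) (v y)) _ x :=
    (diff_v hx).hasFDerivAt.inner ℝ (diff_v hx).hasFDerivAt
  have h2 : HasFDerivAt (fun y : VV n => inner ℝ y.1 y.1) _ x :=
    (hasFDerivAt_fst (𝕜 := ℝ) (p := x)).inner ℝ (hasFDerivAt_fst (𝕜 := ℝ) (p := x))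
  have h3 := h2.congr_of_eventuallyEq (f₁ := fun y : VV n => inner ℝ (v y) (v y)) (by
    filter_upwards [isOpen_OO.mem_nhds hx] with y hy
    rw [real_inner_self_eq_norm_sq, real_inner_self_eq_norm_sq, norm_v hy])
  have := congrArg (fun L : VV n →L[ℝ] ℝ => L δ) (h1.unique h3)
  simp only [ContinuousLinearMap.comp_apply, ContinuousLinearMap.prod_apply, fderivInnerCLM_apply,
    ContinuousLinearMap.coe_fst'] at this
  rw [real_inner_comm (v x) (fderiv ℝ v x δ), real_inner_comm x.1 δ.1] at this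
  linarith

theorem α_inv (t : ℝ) {x : VV n} (hx : x ∈ OO n) (δ : VV n) :
    al (fsM n) (ψ t x) (fderiv ℝ (ψ t) x δ) = al (fsM n) x δ := by
  have hd : DifferentiableAt ℝ (ψ t : VV n → VV n) x := by
    have h0 : ContDiffOn ℝ ∞ (fun y : VV n => ((t, y) : ℝ × VV n)) (OO n) :=
      contDiffOn_const.prodMk contDiffOn_id
    have h1 := (ψ_smooth (n := n)).comp h0 fun _ hy => hy
    simp only [Function.comp_def] at h1
    exact (h1.contDiffAt (isOpen_OO.mem_nhds hx)).differentiableAt (by simp)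
  have hZ : HasFDerivAt (fun y : VV n => (ψ t y).1)
      (cos t • ContinuousLinearMap.fst ℝ (E n) (E n) + sin t • fderiv ℝ v x) x :=
    ((hasFDerivAt_fst (𝕜 := ℝ) (p := x)).const_smul (cos t)).add
      ((diff_v hx).hasFDerivAt.const_smul (sin t))
  have h2 : (fderiv ℝ (ψ t) x δ).1 = cos t • δ.1 + sin t • fderiv ℝ v x δ := by
    have := congrArg (fun L : VV n →L[ℝ] E n => L δ) (hd.hasFDerivAt.fst.unique hZ)
    simpa using this
  rw [al_apply, al_apply, v_ψ t hx, ψ_fst, g_eq (Z_ne t hx) (nu_ZV t hx), g_eq hx.1 (nu_v hx), h2,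
    norm_Z t hx, V]
  congr 1
  have e1 := dv1 hx δ
  have e2 := dv2 hx δ
  rw [real_inner_comm (v x) δ.1] at e1
  simp only [inner_add_left, inner_add_right, real_inner_smul_left, real_inner_smul_right]
  have := Real.cos_sq_add_sin_sq t
  rw [e2, eq_neg_of_add_eq_zero_left e1]
  linear_combination (inner ℝ (v x) δ.1) * this

theorem α_X {x : VV n} (hx : x ∈ OO n) : al (fsM n) x (deriv (fun t => ψ t x) 0) = 1 := by
  have hZ : HasDerivAt (fun t => Z t x) ((-sin 0) • x.1 + cos 0 • v x) 0 :=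
    ((Real.hasDerivAt_cos 0).smul_const x.1).add ((Real.hasDerivAt_sin 0).smul_const (v x))
  have hV : HasDerivAt (fun t => V t x) ((-cos 0) • x.1 + (-sin 0) • v x) 0 :=
    ((Real.hasDerivAt_sin 0).neg.smul_const x.1).add ((Real.hasDerivAt_cos 0).smul_const (v x))
  have h := hZ.prodMk ((hV.const_smul (spd (fsM n) x)).add (hZ.const_smul (nu x.1 x.2)))
  have h' : deriv (fun t => ψ t x) 0 = _ := h.deriv
  rw [h', al_apply]
  simpa using isMetric_fsM.vel_unit hx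

theorem H_ne (s : ℝ) {x : VV n} (hx : x ∈ OO n) : H (s, x) ≠ 0 := by
  have h : H (s, x) = ((cos (π * s / 4) : ℝ) : ℂ) • x.1 +
      (((sin (π * s / 4) : ℝ) : ℂ) * Complex.I) • v x := by
    rw [H, mul_smul, Complex.coe_smul, Complex.coe_smul]
  rw [h]
  refine ne_comb hx ?_
  rw [← cs1 (π * s / 4), map_mul, Complex.conj_I]
  linear_combination (-((starRingEnd ℂ) ((sin (π * s / 4) : ℝ) : ℂ) * ((sin (π * s / 4) : ℝ) : ℂ))) *
    Complex.I_mul_I

theorem H_eqv (s : ℝ) : Eqv fun x : VV n => H (s, x) := by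
  intro l m c x hl hm hx
  have h1 : v (act l m c x) = l • v x := isMetric_fsM.vel_eqv _ _ _ _ hl hm hx
  change cos (π * s / 4) • l • x.1 + sin (π * s / 4) • Complex.I • v (act l m c x) =
    l • (cos (π * s / 4) • x.1 + sin (π * s / 4) • Complex.I • v x)
  rw [h1]
  module

theorem alg1 (z w : E n) (a c s : ℝ) :
    a • (c • z + s • w) + a • Complex.I • ((-s) • z + c • w) =
      ((c : ℂ) - (s : ℂ) * Complex.I) • (a • z + a • Complex.I • w) := by
  simp only [← Complex.coe_smul, Complex.ofReal_neg]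
  match_scalars
  · ring
  · linear_combination ((a : ℂ) * (s : ℂ)) * Complex.I_mul_I

theorem alg2 (z w : E n) (a c s : ℝ) :
    a • (c • z + s • w) + (-a) • Complex.I • ((-s) • z + c • w) =
      ((c : ℂ) + (s : ℂ) * Complex.I) • (a • z + (-a) • Complex.I • w) := by
  simp only [← Complex.coe_smul, Complex.ofReal_neg]
  match_scalars
  · ring
  · linear_combination ((a : ℂ) * (s : ℂ)) * Complex.I_mul_I

theorem H_one (t : ℝ) {x : VV n} (hx : x ∈ OO n) :
    H (1, ψ t x) = (((cos t : ℝ) : ℂ) - ((sin t : ℝ) : ℂ) * Complex.I) • H (1, x) := by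
  simp only [H, mul_one, Real.cos_pi_div_four, Real.sin_pi_div_four, v_ψ t hx, ψ_fst, Z, V]
  exact alg1 _ _ _ _ _

theorem H_neg (t : ℝ) {x : VV n} (hx : x ∈ OO n) :
    H (-1, ψ t x) = (((cos t : ℝ) : ℂ) + ((sin t : ℝ) : ℂ) * Complex.I) • H (-1, x) := by
  simp only [H, mul_neg, mul_one, neg_div, Real.cos_neg, Real.sin_neg, Real.cos_pi_div_four,
    Real.sin_pi_div_four, v_ψ t hx, ψ_fst, Z, V]
  exact alg2 _ _ _ _ _

theorem nu_one (t : ℝ) {x : VV n} (hx : x ∈ OO n) :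
    nu (H (1, ψ t x)) (deriv (fun s => H (1, ψ s x)) t) = -Complex.I := by
  have hd : HasDerivAt (fun s : ℝ => (((cos s : ℝ) : ℂ) - ((sin s : ℝ) : ℂ) * Complex.I) • H (1, x))
      ((((-sin t : ℝ) : ℂ) - ((cos t : ℝ) : ℂ) * Complex.I) • H (1, x)) t :=
    ((Real.hasDerivAt_cos t).ofReal_comp.sub
      ((Real.hasDerivAt_sin t).ofReal_comp.mul_const Complex.I)).smul_const _
  have h1 : (fun s => H (1, ψ s x)) =
      fun s : ℝ => (((cos s : ℝ) : ℂ) - ((sin s : ℝ) : ℂ) * Complex.I) • H (1, x) :=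
    funext fun s => H_one s hx
  have h2 : (((-sin t : ℝ) : ℂ) - ((cos t : ℝ) : ℂ) * Complex.I) • H (1, x) =
      (-Complex.I) • H (1, ψ t x) := by
    rw [H_one t hx, smul_smul]
    congr 1
    push_cast
    linear_combination (-Complex.sin t) * Complex.I_mul_I
  rw [h1, hd.deriv, h2, nu_smul, nu_self (H_ne 1 (ψ_mem t hx)), mul_one]

theorem nu_neg (t : ℝ) {x : VV n} (hx : x ∈ OO n) :
    nu (H (-1, ψ t x)) (deriv (fun s => H (-1, ψ s x)) t) = Complex.I := by
  have hd : HasDerivAt (fun s : ℝ => (((cos s : ℝ) : ℂ) + ((sin s : ℝ) : ℂ) * Complex.I) • H (-1, x))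
      ((((-sin t : ℝ) : ℂ) + ((cos t : ℝ) : ℂ) * Complex.I) • H (-1, x)) t :=
    ((Real.hasDerivAt_cos t).ofReal_comp.add
      ((Real.hasDerivAt_sin t).ofReal_comp.mul_const Complex.I)).smul_const _
  have h1 : (fun s => H (-1, ψ s x)) =
      fun s : ℝ => (((cos s : ℝ) : ℂ) + ((sin s : ℝ) : ℂ) * Complex.I) • H (-1, x) :=
    funext fun s => H_neg s hx
  have h2 : (((-sin t : ℝ) : ℂ) + ((cos t : ℝ) : ℂ) * Complex.I) • H (-1, x) =
      Complex.I • H (-1, ψ t x) := by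
    rw [H_neg t hx, smul_smul]
    congr 1
    push_cast
    linear_combination (-Complex.sin t) * Complex.I_mul_I
  rw [h1, hd.deriv, h2, nu_smul, nu_self (H_ne (-1) (ψ_mem t hx)), mul_one]

/-- The data of the Fubini-Study metric. -/
def data (n : ℕ) : TData n where
  ψ := ψ
  ψ_smooth := ψ_smooth
  ψ_mem := fun t _ hx => ψ_mem t hx
  ψ_zero := fun _ hx => ψ_zero hx
  ψ_add := fun s t _ hx => ψ_add s t hx
  ψ_act := fun t _ _ c _ hl hm hx => ψ_act t c hl hm hx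
  ψ_per := fun _ hx => ⟨-1, ψ_pi hx⟩
  α := al (fsM n)
  α_smooth := isMetric_fsM.contDiffOn_al
  α_act := fun l m c x δ hl hm hx => by
    have h1 : v (act l m c x) = l • v x := isMetric_fsM.vel_eqv _ _ _ _ hl hm hx
    rw [al_apply, al_apply, h1]
    exact isMetric_fsM.inv l _ _ _ hl hx.1
  α_hor := fun x hx w hw => by
    obtain ⟨l, c, a, rfl⟩ := mem_Bdir.1 hw
    exact isMetric_fsM.vert' l _ hx.1
  α_inv := fun t _ hx δ => α_inv t hx δ
  α_X := fun _ hx => α_X hx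
  H := H
  H_smooth := H_smooth
  H_ne := fun s _ hx => H_ne s hx
  H_eqv := H_eqv
  H_zero := fun x _ => by simp [H]
  H_one := fun t _ hx => ⟨_, H_one t hx⟩
  H_neg := fun t _ hx => ⟨_, H_neg t hx⟩
  δ := -2
  δ_ne := by norm_num
  δ_eq := fun x hx => by
    simp only [nu_one _ hx, nu_neg _ hx]
    simp
    ring

end FSD

theorem exists_fsData (hn : 1 ≤ n) : ∃ D : TData n, D.α = al (fsM n) ∧ |D.δ| = 2 :=
  ⟨FSD.data n, rfl, by simp [FSD.data]⟩

theorem vol_fsM : vol (fsM n) = 2 * π ^ (n + 1) / n.factorial := vol_fsM'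

theorem model_integral (hn : 1 ≤ n) :
    ∫⁻ y : EuclideanSpace ℝ (Fin (2 * n)),
      (Ioo 0 (π / 2)).indicator (fun r => ENNReal.ofReal (th0 n r / r ^ (2 * n - 1))) ‖y‖ =
      ENNReal.ofReal (π ^ n / n.factorial) := model_integral' hn

end Pool.Agent.Work.MP_8c604c_gt
end
end
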