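import Pool.Agent.Work.MP_8c604c_gt.Lam

/-!
Smooth differential forms on open subsets of finite-dimensional spaces.
Hints. Everything is checked pointwise through ev and Om.ext. d_d: symmetry of second derivatives and io_anti.
d_pull: every form is locally a finite sum of f * (constant a); induct on a with Lam.ind, using d (io (theta.comp Df)) = 0;
alternatively compute fderiv of x -> lmap (Df x) (gamma (f x)) on monomials.
-/

set_option maxSynthPendingDepth 3
set_option linter.unusedSectionVars false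

open Set Filter Topology MeasureTheory
open scoped ContDiff

noncomputable section
namespace Pool.Agent.Work.MP_8c604c_gt

open TopologicalSpace Lam

variable {V V' V'' : Type} [NormedAddCommGroup V] [NormedSpace ℝ V] [FiniteDimensional ℝ V]
  [NormedAddCommGroup V'] [NormedSpace ℝ V'] [FiniteDimensional ℝ V']
  [NormedAddCommGroup V''] [NormedSpace ℝ V''] [FiniteDimensional ℝ V'']

/-- Extension by zero. -/
def ext0 (U : Opens V) (γ : U → Lam V) (x : V) : Lam V := by
  classical exact if h : x ∈ U then γ ⟨x, h⟩ else 0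

theorem ext0_of_mem {U : Opens V} (γ : U → Lam V) {x : V} (h : x ∈ U) : ext0 U γ x = γ ⟨x, h⟩ := by
  simp [ext0, h]

/-- Smooth forms on `U`. -/
def OmS (U : Opens V) : Subalgebra ℝ (U → Lam V) where
  carrier := {γ | ContDiffOn ℝ ∞ (ext0 U γ) U}
  mul_mem' {a b} ha hb := (ContDiffOn.mul ha hb).congr fun x hx => by
    simp [ext0_of_mem _ hx]
  add_mem' {a b} ha hb := (ContDiffOn.add ha hb).congr fun x hx => by
    simp [ext0_of_mem _ hx]
  algebraMap_mem' r := (contDiffOn_const (c := algebraMap ℝ (Lam V) r)).congr fun x hx => by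
    simp [ext0_of_mem _ hx]

/-- The algebra of smooth forms on `U`. -/
def Om (U : Opens V) : Type := OmS U

instance (U : Opens V) : Ring (Om U) := inferInstanceAs (Ring (OmS U))
instance (U : Opens V) : Algebra ℝ (Om U) := inferInstanceAs (Algebra ℝ (OmS U))

/-- Smooth maps between open sets. -/
structure SMap (U : Opens V) (U' : Opens V') where
  toFun : V → V'
  smooth : ContDiffOn ℝ ∞ toFun U
  maps : MapsTo toFun U U'

/-- Composition. -/
def SMap.comp {U : Opens V} {U' : Opens V'} {U'' : Opens V''} (f : SMap U' U'') (f' : SMap U U') :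
    SMap U U'' := ⟨f.toFun ∘ f'.toFun, f.smooth.comp f'.smooth f'.maps, f.maps.comp f'.maps⟩

namespace Om
variable {U : Opens V} {U' : Opens V'} {U'' : Opens V''}

/-- Value of a form at a point. -/
def ev (γ : Om U) (x : V) : Lam V := ext0 U (Subtype.val γ) x

theorem smooth (γ : Om U) : ContDiffOn ℝ ∞ (ev γ) U := Subtype.property γ

/-- A form from a smooth function. -/
def mk (F : V → Lam V) (hF : ContDiffOn ℝ ∞ F U) : Om U :=
  (⟨fun x => F x, hF.congr fun _ hx => ext0_of_mem _ hx⟩ : OmS U)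

theorem ev_mk (F : V → Lam V) (hF : ContDiffOn ℝ ∞ F U) {x : V} (hx : x ∈ U) :
    ev (mk F hF) x = F x := ext0_of_mem _ hx

theorem ext {a b : Om U} (h : ∀ x ∈ U, ev a x = ev b x) : a = b := by
  exact Subtype.ext (funext fun x =>
    (ext0_of_mem _ x.2).symm.trans ((h x x.2).trans (ext0_of_mem _ x.2)))

theorem ev_of_not_mem (a : Om U) {x : V} (hx : x ∉ U) : ev a x = 0 := by
  exact dif_neg hx

/-- Evaluation as an algebra homomorphism. -/
def evA (x : V) (hx : x ∈ U) : Om U →ₐ[ℝ] Lam V :=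
  (Pi.evalAlgHom ℝ (fun _ : U => Lam V) ⟨x, hx⟩).comp (OmS U).val

theorem evA_apply {x : V} (hx : x ∈ U) (a : Om U) : evA x hx a = ev a x := by
  exact (ext0_of_mem _ hx).symm

theorem ev_add (a b : Om U) (x : V) : ev (a + b) x = ev a x + ev b x := by
  by_cases hx : x ∈ U
  · simp only [← evA_apply hx, map_add]
  · simp [ev_of_not_mem _ hx]

theorem ev_sub (a b : Om U) (x : V) : ev (a - b) x = ev a x - ev b x := by
  by_cases hx : x ∈ U
  · simp only [← evA_apply hx, map_sub]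
  · simp [ev_of_not_mem _ hx]

theorem ev_mul (a b : Om U) (x : V) : ev (a * b) x = ev a x * ev b x := by
  by_cases hx : x ∈ U
  · simp only [← evA_apply hx, map_mul]
  · simp [ev_of_not_mem _ hx]

theorem ev_smul (r : ℝ) (a : Om U) (x : V) : ev (r • a) x = r • ev a x := by
  by_cases hx : x ∈ U
  · simp only [← evA_apply hx, map_smul]
  · simp [ev_of_not_mem _ hx]

theorem ev_zero (x : V) : ev (0 : Om U) x = 0 := by
  by_cases hx : x ∈ U
  · simp only [← evA_apply hx, map_zero]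
  · simp [ev_of_not_mem _ hx]

theorem ev_one {x : V} (hx : x ∈ U) : ev (1 : Om U) x = 1 := by
  rw [← evA_apply hx, map_one]

theorem ev_pow (a : Om U) (k : ℕ) {x : V} (hx : x ∈ U) : ev (a ^ k) x = ev a x ^ k := by
  simp only [← evA_apply hx, map_pow]

theorem Form_neg (a : Om U) (x : V) : ev (-a) x = -ev a x := by
  rw [← zero_sub, ev_sub, ev_zero, zero_sub]

theorem Form_alg (r : ℝ) {x : V} (hx : x ∈ U) :
    ev (algebraMap ℝ (Om U) r) x = algebraMap ℝ (Lam V) r := by
  rw [← evA_apply hx, AlgHom.commutes]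

theorem Form_fderiv {W : Type} [NormedAddCommGroup W] [NormedSpace ℝ W] {F : V → W}
    (h : ContDiffOn ℝ ∞ F U) : ContDiffOn ℝ ∞ (fderiv ℝ F) U :=
  h.fderiv_of_isOpen U.isOpen (by simp)

theorem Form_dat {W : Type} [NormedAddCommGroup W] [NormedSpace ℝ W] {F : V → W}
    (h : ContDiffOn ℝ ∞ F U) {x : V} (hx : x ∈ U) : DifferentiableAt ℝ F x :=
  (h.contDiffAt (U.isOpen.mem_nhds hx)).differentiableAt (by simp)

theorem Form_diff (a : Om U) {x : V} (hx : x ∈ U) : DifferentiableAt ℝ (ev a) x :=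
  Form_dat a.smooth hx

theorem Form_fd {a : Om U} {F : V → Lam V} (h : ∀ y ∈ U, ev a y = F y) {x : V} (hx : x ∈ U) :
    fderiv ℝ (ev a) x = fderiv ℝ F x :=
  (Filter.eventuallyEq_of_mem (U.isOpen.mem_nhds hx) h).fderiv_eq

/-- The grade involution as a continuous linear map. -/
def Form_invol : Lam V →L[ℝ] Lam V := LinearMap.toContinuousLinearMap invol.toLinearMap

theorem Form_sym (B : V →L[ℝ] V →L[ℝ] Lam V) (h : ∀ v w, B v w = B w v) :
    dop (dop.comp B) = 0 := by
  have e : dop (dop.comp B) =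
      ∑ i, ∑ j, io (cob V i) * io (cob V j) * B (bas V i) (bas V j) := by
    simp only [dop_apply, ContinuousLinearMap.comp_apply, Finset.mul_sum, mul_assoc]
  have e2 : dop (dop.comp B) = -dop (dop.comp B) := by
    rw [e, ← Finset.sum_neg_distrib, Finset.sum_comm]
    refine Finset.sum_congr rfl fun i _ => ?_
    rw [← Finset.sum_neg_distrib]
    refine Finset.sum_congr rfl fun j _ => ?_
    rw [io_anti, h, neg_mul]
  have e3 : (2 : ℝ) • dop (dop.comp B) = 0 := by rw [two_smul, ← eq_neg_iff_add_eq_zero, ← e2]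
  exact (smul_eq_zero.1 e3).resolve_left two_ne_zero

theorem Form_pi : ∃ π : Lam V →L[ℝ] ℝ, ∀ r, π (algebraMap ℝ _ r) = r :=
  ⟨LinearMap.toContinuousLinearMap
    (ExteriorAlgebra.algebraMapInv : Lam V →ₐ[ℝ] ℝ).toLinearMap,
    ExteriorAlgebra.algebraMap_leftInverse (V →L[ℝ] ℝ)⟩

theorem Form_iinv : ∃ π : Lam V →L[ℝ] (V →L[ℝ] ℝ), ∀ θ, π (io θ) = θ :=
  ⟨LinearMap.toContinuousLinearMap (ExteriorAlgebra.ιInv : Lam V →ₗ[ℝ] (V →L[ℝ] ℝ)),
    ExteriorAlgebra.ι_leftInverse⟩

theorem smooth_dop (γ : Om U) : ContDiffOn ℝ ∞ (fun x => dop (fderiv ℝ (ev γ) x)) U := by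
  exact dop.contDiff.comp_contDiffOn (Form_fderiv γ.smooth)

/-- Exterior derivative. -/
def d : Om U →ₗ[ℝ] Om U where
  toFun γ := mk _ (smooth_dop γ)
  map_add' := by
    refine fun a b => ext fun x hx => ?_
    rw [ev_add, ev_mk _ _ hx, ev_mk _ _ hx, ev_mk _ _ hx, funext (ev_add a b),
      fderiv_fun_add (Form_diff a hx) (Form_diff b hx), map_add]
  map_smul' := by
    refine fun r a => ext fun x hx => ?_
    rw [ev_smul, ev_mk _ _ hx, ev_mk _ _ hx, funext (ev_smul r a),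
      fderiv_fun_const_smul (Form_diff a hx), map_smul, RingHom.id_apply]

theorem ev_d (γ : Om U) {x : V} (hx : x ∈ U) : ev (d γ) x = dop (fderiv ℝ (ev γ) x) :=
  ev_mk _ _ hx

/-- Grade involution. -/
def inv : Om U →ₐ[ℝ] Om U where
  toFun γ := mk (fun x => invol (ev γ x)) (by exact Form_invol.contDiff.comp_contDiffOn γ.smooth)
  map_one' := by
    exact ext fun x hx => by simp only [ev_mk _ _ hx, ev_one hx, map_one]
  map_mul' := by exact fun a b => ext fun x hx => by simp only [ev_mul, ev_mk _ _ hx, map_mul]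
  map_zero' := by exact ext fun x hx => by simp only [ev_zero, ev_mk _ _ hx, map_zero]
  map_add' := by exact fun a b => ext fun x hx => by simp only [ev_add, ev_mk _ _ hx, map_add]
  commutes' := by
    exact fun r => ext fun x hx => by
      simp only [ev_mk _ _ hx, Form_alg r hx, AlgHom.commutes]

theorem ev_inv (γ : Om U) {x : V} (hx : x ∈ U) : ev (inv γ) x = invol (ev γ x) := ev_mk _ _ hx

/-- Pull-back. -/
def pull (f : SMap U U') : Om U' →ₐ[ℝ] Om U where
  toFun γ := mk (fun x => lmap (fderiv ℝ f.toFun x) (ev γ (f.toFun x))) (by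
    exact contDiffOn_lmap (Form_fderiv f.smooth) (γ.smooth.comp f.smooth f.maps))
  map_one' := by
    exact ext fun x hx => by simp only [ev_mk _ _ hx, ev_one (f.maps hx), map_one, ev_one hx]
  map_mul' := by exact fun a b => ext fun x hx => by simp only [ev_mul, ev_mk _ _ hx, map_mul]
  map_zero' := by exact ext fun x hx => by simp only [ev_zero, ev_mk _ _ hx, map_zero]
  map_add' := by exact fun a b => ext fun x hx => by simp only [ev_add, ev_mk _ _ hx, map_add]
  commutes' := by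
    exact fun r => ext fun x hx => by
      simp only [ev_mk _ _ hx, Form_alg r (f.maps hx), AlgHom.commutes, Form_alg r hx]

theorem ev_pull (f : SMap U U') (γ : Om U') {x : V} (hx : x ∈ U) :
    ev (pull f γ) x = lmap (fderiv ℝ f.toFun x) (ev γ (f.toFun x)) := ev_mk _ _ hx

/-- Contraction with a smooth vector field. -/
def ctrF (X : V → V) (hX : ContDiffOn ℝ ∞ X U) : Om U →ₗ[ℝ] Om U where
  toFun γ := mk (fun x => ctr (X x) (ev γ x)) (by
    exact (ctr.contDiff.comp_contDiffOn hX).clm_apply γ.smooth)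
  map_add' := by exact fun a b => ext fun x hx => by simp only [ev_add, ev_mk _ _ hx, map_add]
  map_smul' := by
    exact fun r a => ext fun x hx => by
      simp only [ev_smul, ev_mk _ _ hx, map_smul, RingHom.id_apply]

theorem ev_ctrF (X : V → V) (hX : ContDiffOn ℝ ∞ X U) (γ : Om U) {x : V} (hx : x ∈ U) :
    ev (ctrF X hX γ) x = ctr (X x) (ev γ x) := ev_mk _ _ hx

/-- Functions. -/
def fn (f : V → ℝ) (hf : ContDiffOn ℝ ∞ f U) : Om U :=
  mk (fun x => algebraMap ℝ (Lam V) (f x)) (by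
    simp only [Algebra.algebraMap_eq_smul_one]
    exact ContDiffOn.smul (g := fun _ => (1 : Lam V)) hf contDiffOn_const)

theorem ev_fn (f : V → ℝ) (hf : ContDiffOn ℝ ∞ f U) {x : V} (hx : x ∈ U) :
    ev (fn f hf) x = algebraMap ℝ (Lam V) (f x) := ev_mk _ _ hx

/-- One-forms. -/
def one1 (θ : V → V →L[ℝ] ℝ) (hθ : ContDiffOn ℝ ∞ θ U) : Om U := mk (fun x => io (θ x)) (by
  exact io.contDiff.comp_contDiffOn hθ)

theorem ev_one1 (θ : V → V →L[ℝ] ℝ) (hθ : ContDiffOn ℝ ∞ θ U) {x : V} (hx : x ∈ U) :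
    ev (one1 θ hθ) x = io (θ x) := ev_mk _ _ hx

/-- Being a function. -/
def IsFn (a : Om U) : Prop := ∀ x ∈ U, ∃ r : ℝ, ev a x = algebraMap ℝ _ r

/-- Being a one-form. -/
def IsOne (a : Om U) : Prop := ∀ x ∈ U, ∃ θ, ev a x = io θ

theorem Form_inv_pull (f : SMap U U') (a : Om U') : inv (pull f a) = pull f (inv a) :=
  ext fun x hx => by
    rw [ev_inv _ hx, ev_pull _ _ hx, ev_pull _ _ hx, ev_inv _ (f.maps hx), invol_lmap]

theorem Form_d_fn (f : V → ℝ) (hf : ContDiffOn ℝ ∞ f U) {x : V} (hx : x ∈ U) :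
    ev (d (fn f hf)) x = io (fderiv ℝ f x) := by
  rw [ev_d _ hx, Form_fd (F := fun y => f y • (1 : Lam V))
    (fun y hy => by rw [ev_fn f hf hy, Algebra.algebraMap_eq_smul_one]) hx,
    fderiv_smul_const (Form_dat hf hx), dop_smulRight, mul_one]

theorem d_mul (a b : Om U) : d (a * b) = d a * b + inv a * d b := by
  refine ext fun x hx => ?_
  rw [ev_add, ev_mul, ev_mul, ev_d _ hx, ev_d _ hx, ev_d _ hx, ev_inv _ hx, funext (ev_mul a b),
    fderiv_fun_mul' (Form_diff a hx) (Form_diff b hx), add_comm]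
  simp only [dop_apply, Finset.sum_mul, Finset.mul_sum, ← Finset.sum_add_distrib]
  refine Finset.sum_congr rfl fun i _ => ?_
  rw [← mul_assoc (invol _), ← io_mul]
  simp [mul_add, mul_assoc]

theorem d_d (a : Om U) : d (d a) = 0 := by
  refine ext fun x hx => ?_
  have h1 : DifferentiableAt ℝ (fderiv ℝ (ev a)) x :=
    ((Form_fderiv a.smooth).contDiffAt (U.isOpen.mem_nhds hx)).differentiableAt (by simp)
  rw [ev_d _ hx, Form_fd (F := dop ∘ fderiv ℝ (ev a)) (fun y hy => ev_d a hy) hx, ev_zero,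
    (dop.hasFDerivAt.comp x h1.hasFDerivAt).fderiv]
  exact Form_sym _ ((a.smooth.contDiffAt (U.isOpen.mem_nhds hx)).isSymmSndFDerivAt
    (by simpa using (ENat.LEInfty.out : (2 : WithTop ℕ∞) ≤ ∞))).eq

theorem d_one : d (1 : Om U) = 0 := by
  refine ext fun x hx => ?_
  rw [ev_d _ hx, Form_fd (fun y hy => ev_one hy) hx, ev_zero, fderiv_fun_const, Pi.zero_apply,
    map_zero]

theorem d_inv (a : Om U) : d (inv a) = -inv (d a) := by
  refine ext fun x hx => ?_
  rw [ev_d _ hx, Form_fd (F := Form_invol ∘ ev a) (fun y hy => ev_inv a hy) hx, Form_neg,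
    ev_inv _ hx, ev_d _ hx, (Form_invol.hasFDerivAt.comp x (Form_diff a hx).hasFDerivAt).fderiv]
  simp only [dop_apply, map_sum, map_mul, invol_io, neg_mul, Finset.sum_neg_distrib, neg_neg]
  rfl

theorem d_pull (f : SMap U U') (a : Om U') : d (pull f a) = pull f (d a) := by
  have hm : ∀ a b : Om U', d (pull f a) = pull f (d a) → d (pull f b) = pull f (d b) →
      d (pull f (a * b)) = pull f (d (a * b)) := fun a b ha hb => by
    rw [map_mul, d_mul, d_mul, map_add, map_mul, map_mul, ha, hb, Form_inv_pull]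
  have hf : ∀ g hg, d (pull f (fn g hg)) = pull f (d (fn g hg)) := fun g hg => ext fun x hx => by
    have e : pull f (fn g hg) = fn (g ∘ f.toFun) (hg.comp f.smooth f.maps) := ext fun y hy => by
      rw [ev_pull _ _ hy, ev_fn _ _ (f.maps hy), ev_fn _ _ hy, AlgHom.commutes, Function.comp]
    rw [e, Form_d_fn _ _ hx, ev_pull _ _ hx, Form_d_fn _ _ (f.maps hx), lmap_io,
      fderiv_comp x (Form_dat hg (f.maps hx)) (Form_dat f.smooth hx)]
  have hc : ∀ c : Lam V', d (pull f (mk (fun _ => c) contDiffOn_const)) =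
      pull f (d (mk (fun _ => c) contDiffOn_const)) := fun c => by
    induction c using Lam.ind with
    | h0 r => exact hf (fun _ => r) contDiffOn_const
    | h1 θ c ih =>
      have e : (mk (fun _ => io θ * c) contDiffOn_const : Om U') =
          d (fn θ θ.contDiff.contDiffOn) * mk (fun _ => c) contDiffOn_const := ext fun y hy => by
        rw [ev_mul, Form_d_fn _ _ hy, ev_mk _ _ hy, ev_mk _ _ hy, θ.fderiv]
      rw [e]
      exact hm _ _ (by rw [← hf, d_d, d_d, map_zero]) ih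
    | h2 a b ha hb =>
      have e : (mk (fun _ => a + b) contDiffOn_const : Om U') =
          mk (fun _ => a) contDiffOn_const + mk (fun _ => b) contDiffOn_const := ext fun y hy => by
        rw [ev_add, ev_mk _ _ hy, ev_mk _ _ hy, ev_mk _ _ hy]
      rw [e, map_add, map_add, map_add, map_add, ha, hb]
  have e : a = ∑ s, fn (fun x => (mon V').coord s (ev a x))
      ((LinearMap.toContinuousLinearMap ((mon V').coord s)).contDiff.comp_contDiffOn a.smooth) *
        mk (fun _ => mon V' s) contDiffOn_const := ext fun y hy => by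
    rw [← evA_apply hy (Finset.sum _ _), map_sum]
    simp only [evA_apply, ev_mul, ev_fn _ _ hy, ev_mk _ _ hy, ← Algebra.smul_def]
    exact ((mon V').sum_repr _).symm
  rw [e]
  simp only [map_sum]
  exact Finset.sum_congr rfl fun s _ => hm _ _ (hf _ _) (hc _)

theorem pull_comp (f : SMap U' U'') (f' : SMap U U') (a : Om U'') :
    pull (f.comp f') a = pull f' (pull f a) := by
  refine ext fun x hx => ?_
  rw [ev_pull _ _ hx, ev_pull _ _ hx, ev_pull _ _ (f'.maps hx), ← lmap_comp,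
    ← fderiv_comp x (Form_dat f.smooth (f'.maps hx)) (Form_dat f'.smooth hx)]
  rfl

theorem pull_congr {f f' : SMap U U'} (h : EqOn f.toFun f'.toFun U) (a : Om U') :
    pull f a = pull f' a := by
  refine ext fun x hx => ?_
  rw [ev_pull _ _ hx, ev_pull _ _ hx, h hx,
    (h.eventuallyEq_of_mem (U.isOpen.mem_nhds hx)).fderiv_eq]

theorem pull_id {f : SMap U U} (h : ∀ x ∈ U, f.toFun x = x) (a : Om U) : pull f a = a := by
  refine ext fun x hx => ?_
  have h' : EqOn f.toFun id U := h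
  rw [ev_pull _ _ hx, h x hx, (h'.eventuallyEq_of_mem (U.isOpen.mem_nhds hx)).fderiv_eq, fderiv_id,
    lmap_id]

theorem inv_pull (f : SMap U U') (a : Om U') : inv (pull f a) = pull f (inv a) := by
  exact Form_inv_pull f a

theorem ctrF_mul (X : V → V) (hX : ContDiffOn ℝ ∞ X U) (a b : Om U) :
    ctrF X hX (a * b) = ctrF X hX a * b + inv a * ctrF X hX b := by
  exact ext fun x hx => by simp only [ev_add, ev_mul, ev_ctrF _ _ _ hx, ev_inv _ hx, ctr_mul]

theorem ctrF_ctrF (X : V → V) (hX : ContDiffOn ℝ ∞ X U) (a : Om U) :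
    ctrF X hX (ctrF X hX a) = 0 := by
  exact ext fun x hx => by simp only [ev_zero, ev_ctrF _ _ _ hx, ctr_self]

theorem ctrF_pull (f : SMap U U') {X : V → V} (hX : ContDiffOn ℝ ∞ X U) {Y : V' → V'}
    (hY : ContDiffOn ℝ ∞ Y U') (h : ∀ x ∈ U, fderiv ℝ f.toFun x (X x) = Y (f.toFun x)) (a : Om U') :
    ctrF X hX (pull f a) = pull f (ctrF Y hY a) := by
  refine ext fun x hx => ?_
  rw [ev_ctrF _ _ _ hx, ev_pull _ _ hx, ev_pull _ _ hx, ev_ctrF _ _ _ (f.maps hx), ctr_lmap, h x hx]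

theorem ev_d_fn (f : V → ℝ) (hf : ContDiffOn ℝ ∞ f U) {x : V} (hx : x ∈ U) :
    ev (d (fn f hf)) x = io (fderiv ℝ f x) := by
  exact Form_d_fn f hf hx

theorem ev_d_one1 (θ : V → V →L[ℝ] ℝ) (hθ : ContDiffOn ℝ ∞ θ U) {x : V} (hx : x ∈ U) :
    ev (d (one1 θ hθ)) x = dop (io.comp (fderiv ℝ θ x)) := by
  rw [ev_d _ hx, Form_fd (F := io ∘ θ) (fun y hy => ev_one1 θ hθ hy) hx,
    (io.hasFDerivAt.comp x (Form_dat hθ hx).hasFDerivAt).fderiv]

theorem isFn_fn (f : V → ℝ) (hf : ContDiffOn ℝ ∞ f U) : IsFn (fn f hf) := by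
  exact fun x hx => ⟨_, ev_fn f hf hx⟩

theorem isOne_one1 (θ : V → V →L[ℝ] ℝ) (hθ : ContDiffOn ℝ ∞ θ U) : IsOne (one1 θ hθ) := by
  exact fun x hx => ⟨_, ev_one1 θ hθ hx⟩

theorem IsFn.exists {a : Om U} (h : IsFn a) : ∃ f hf, a = fn f hf := by
  obtain ⟨π, hπ⟩ := Form_pi (V := V)
  refine ⟨fun x => π (ev a x), π.contDiff.comp_contDiffOn a.smooth, ext fun x hx => ?_⟩
  obtain ⟨r, hr⟩ := h x hx
  rw [ev_fn _ _ hx, hr, hπ]

theorem IsOne.exists {a : Om U} (h : IsOne a) : ∃ θ hθ, a = one1 θ hθ := by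
  obtain ⟨π, hπ⟩ := Form_iinv (V := V)
  refine ⟨fun x => π (ev a x), π.contDiff.comp_contDiffOn a.smooth, ext fun x hx => ?_⟩
  obtain ⟨r, hr⟩ := h x hx
  rw [ev_one1 _ _ hx, hr, hπ]

theorem IsFn.commute {a : Om U} (h : IsFn a) (b : Om U) : Commute a b := by
  refine ext fun x hx => ?_
  obtain ⟨r, hr⟩ := h x hx
  rw [ev_mul, ev_mul, hr, Algebra.commutes]

theorem IsFn.inv {a : Om U} (h : IsFn a) : inv a = a := by
  refine ext fun x hx => ?_
  obtain ⟨r, hr⟩ := h x hx
  rw [ev_inv _ hx, hr, AlgHom.commutes]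

theorem IsFn.d {a : Om U} (h : IsFn a) : IsOne (d a) := by
  obtain ⟨f, hf, rfl⟩ := h.exists
  exact fun x hx => ⟨_, ev_d_fn f hf hx⟩

theorem IsFn.pull {a : Om U'} (h : IsFn a) (f : SMap U U') : IsFn (pull f a) := by
  intro x hx
  obtain ⟨r, hr⟩ := h _ (f.maps hx)
  exact ⟨r, by rw [ev_pull _ _ hx, hr, AlgHom.commutes]⟩

theorem IsFn.ctrF {a : Om U} (h : IsFn a) (X : V → V) (hX : ContDiffOn ℝ ∞ X U) :
    ctrF X hX a = 0 := by
  refine ext fun x hx => ?_
  obtain ⟨r, hr⟩ := h x hx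
  rw [ev_ctrF _ _ _ hx, hr, ctr_algebraMap, ev_zero]

theorem IsOne.add {a b : Om U} (ha : IsOne a) (hb : IsOne b) : IsOne (a + b) := by
  intro x hx
  obtain ⟨θ, h⟩ := ha x hx
  obtain ⟨θ', h'⟩ := hb x hx
  exact ⟨θ + θ', by rw [ev_add, h, h', map_add]⟩

theorem IsOne.sub {a b : Om U} (ha : IsOne a) (hb : IsOne b) : IsOne (a - b) := by
  intro x hx
  obtain ⟨θ, h⟩ := ha x hx
  obtain ⟨θ', h'⟩ := hb x hx
  exact ⟨θ - θ', by rw [ev_sub, h, h', map_sub]⟩

theorem IsOne.smul {a : Om U} (ha : IsOne a) (r : ℝ) : IsOne (r • a) := by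
  intro x hx
  obtain ⟨θ, h⟩ := ha x hx
  exact ⟨r • θ, by rw [ev_smul, h, map_smul]⟩

theorem IsFn.mul_one {a b : Om U} (ha : IsFn a) (hb : IsOne b) : IsOne (a * b) := by
  intro x hx
  obtain ⟨r, h⟩ := ha x hx
  obtain ⟨θ, h'⟩ := hb x hx
  exact ⟨r • θ, by rw [ev_mul, h, h', map_smul, Algebra.smul_def]⟩

theorem IsOne.inv {a : Om U} (h : IsOne a) : inv a = -a := by
  refine ext fun x hx => ?_
  obtain ⟨θ, hθ⟩ := h x hx
  rw [ev_inv _ hx, Form_neg, hθ, invol_io]

theorem IsOne.sq {a : Om U} (h : IsOne a) : a * a = 0 := by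
  refine ext fun x hx => ?_
  obtain ⟨θ, hθ⟩ := h x hx
  rw [ev_mul, hθ, io_sq, ev_zero]

theorem IsOne.mul_eq {a : Om U} (h : IsOne a) (b : Om U) : a * b = Om.inv b * a := by
  refine ext fun x hx => ?_
  obtain ⟨θ, hθ⟩ := h x hx
  rw [ev_mul, ev_mul, ev_inv _ hx, hθ, io_mul]

theorem IsOne.pull {a : Om U'} (h : IsOne a) (f : SMap U U') : IsOne (pull f a) := by
  intro x hx
  obtain ⟨θ, hθ⟩ := h _ (f.maps hx)
  exact ⟨_, by rw [ev_pull _ _ hx, hθ, lmap_io]⟩

theorem IsOne.ctrF {a : Om U} (h : IsOne a) (X : V → V) (hX : ContDiffOn ℝ ∞ X U) :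
    IsFn (ctrF X hX a) := by
  intro x hx
  obtain ⟨θ, hθ⟩ := h x hx
  exact ⟨_, by rw [ev_ctrF _ _ _ hx, hθ, ctr_io]⟩

theorem IsOne.commute_d {a : Om U} (h : IsOne a) (b : Om U) : Commute (Om.d a) b := by
  obtain ⟨θ, hθ, rfl⟩ := h.exists
  refine ext fun x hx => ?_
  rw [ev_mul, ev_mul, ev_d_one1 _ _ hx, (commute_dop_io _ _).eq]

theorem IsOne.inv_d {a : Om U} (h : IsOne a) : Om.inv (Om.d a) = Om.d a := by
  obtain ⟨θ, hθ, rfl⟩ := h.exists
  refine ext fun x hx => ?_
  rw [ev_inv _ hx, ev_d_one1 _ _ hx, invol_dop_io]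

end Om

end Pool.Agent.Work.MP_8c604c_gt
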