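import Pool.Agent.Work.MP_8c604c_gt.Form
import Pool.Agent.Work.MP_8c604c_gt.ODE

/-!
Integration along a real factor, the homotopy formula, basic forms, flows.
Hints. Sl commutes with d by hasFDerivAt_integral. dT_d: Lam.ctr_dop. homotopy: Sl of the t-derivative is the difference of the
end slices. Basic: a subalgebra closed under d because pull is an algebra map commuting with d.
cartan: apply homotopy to pull F.big a on [0,1]; the slices of dT (pull big a) are pull (F.at t) (ctr a) = ctr a.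
-/

set_option maxSynthPendingDepth 3
set_option linter.unusedSectionVars false

open Set Filter Topology MeasureTheory
open scoped ContDiff

noncomputable section
namespace Pool.Agent.Work.MP_8c604c_gt

open TopologicalSpace Lam

variable {V V' P : Type} [NormedAddCommGroup V] [NormedSpace ℝ V] [FiniteDimensional ℝ V]
  [NormedAddCommGroup V'] [NormedSpace ℝ V'] [FiniteDimensional ℝ V']
  [NormedAddCommGroup P] [NormedSpace ℝ P] [FiniteDimensional ℝ P]

/-- Product of open sets. -/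
def prodO (W : Opens P) (U : Opens V) : Opens (P × V) :=
  ⟨{p | p.1 ∈ W ∧ p.2 ∈ U}, (W.isOpen.preimage continuous_fst).inter (U.isOpen.preimage continuous_snd)⟩

/-- The cylinder over `U`. -/
abbrev cyl (U : Opens V) : Opens (ℝ × V) := prodO ⊤ U

namespace SMap
variable {U : Opens V} {U' : Opens V'}

/-- Projection. -/
def snd (W : Opens P) (U : Opens V) : SMap (prodO W U) U :=
  ⟨Prod.snd, contDiffOn_snd, fun _ hp => hp.2⟩

/-- Slice. -/
def slc (U : Opens V) (t : ℝ) : SMap U (cyl U) :=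
  ⟨fun x => (t, x), contDiffOn_const.prodMk contDiffOn_id, fun _ hx => ⟨trivial, hx⟩⟩

/-- Product with the identity. -/
def cylMap (f : SMap U U') : SMap (cyl U) (cyl U') :=
  ⟨fun p => (p.1, f.toFun p.2),
    contDiffOn_fst.prodMk (f.smooth.comp contDiffOn_snd fun _ hp => hp.2),
    fun _ hp => ⟨trivial, f.maps hp.2⟩⟩

end SMap

namespace Om
variable {U : Opens V} {U' : Opens V'}

/-- Pull-back by a linear map, as a continuous linear map. -/
def lmapL (L : V →L[ℝ] V') : Lam V' →L[ℝ] Lam V :=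
  LinearMap.toContinuousLinearMap (lmap L).toLinearMap

theorem lmapL_apply (L : V →L[ℝ] V') (a : Lam V') : lmapL L a = lmap L a := rfl

theorem mem_cyl {t : ℝ} {x : V} (hx : x ∈ U) : (t, x) ∈ cyl U := ⟨trivial, hx⟩

theorem smooth_inr (γ : Om (cyl U)) :
    ContDiffOn ℝ ∞ (fun p : ℝ × V => lmap (ContinuousLinearMap.inr ℝ ℝ V) (ev γ p))
      {p | p.2 ∈ (U : Set V)} :=
  (contDiffOn_lmap contDiffOn_const γ.smooth).mono fun _ hp => ⟨trivial, hp⟩

theorem cont_inr (γ : Om (cyl U)) {x : V} (hx : x ∈ U) :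
    Continuous fun t : ℝ => lmap (ContinuousLinearMap.inr ℝ ℝ V) (ev γ (t, x)) :=
  (smooth_inr γ).continuousOn.comp_continuous (continuous_id.prodMk continuous_const) fun _ => hx

theorem fderiv_slc (t : ℝ) (x : V) :
    fderiv ℝ (SMap.slc U t).toFun x = ContinuousLinearMap.inr ℝ ℝ V :=
  (hasFDerivAt_prodMk_right t x).fderiv

theorem ev_slc (t : ℝ) (γ : Om (cyl U)) {x : V} (hx : x ∈ U) :
    ev (pull (SMap.slc U t) γ) x = lmap (ContinuousLinearMap.inr ℝ ℝ V) (ev γ (t, x)) := by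
  rw [ev_pull _ _ hx, fderiv_slc]
  rfl

theorem differentiableAt_ev (γ : Om U) {x : V} (hx : x ∈ U) : DifferentiableAt ℝ (ev γ) x :=
  (γ.smooth.contDiffAt (U.isOpen.mem_nhds hx)).differentiableAt (by simp)

/-- Integral of the slices. -/
def Sl (a b : ℝ) : Om (cyl U) →ₗ[ℝ] Om U where
  toFun γ := mk (fun x => ∫ t in a..b, lmap (ContinuousLinearMap.inr ℝ ℝ V) (ev γ (t, x)))
    (contDiffOn_integral U.isOpen (smooth_inr γ) a b)
  map_add' := by
    intro γ γ'
    refine ext fun x hx => ?_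
    rw [ev_add, ev_mk _ _ hx, ev_mk _ _ hx, ev_mk _ _ hx, ← intervalIntegral.integral_add
      ((cont_inr γ hx).intervalIntegrable _ _) ((cont_inr γ' hx).intervalIntegrable _ _)]
    simp only [ev_add, map_add]
  map_smul' := by
    intro r γ
    refine ext fun x hx => ?_
    rw [RingHom.id_apply, ev_smul, ev_mk _ _ hx, ev_mk _ _ hx, ← intervalIntegral.integral_smul]
    simp only [ev_smul, map_smul]

theorem ev_Sl' (a b : ℝ) (γ : Om (cyl U)) {x : V} (hx : x ∈ U) :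
    ev (Sl a b γ) x = ∫ t in a..b, lmap (ContinuousLinearMap.inr ℝ ℝ V) (ev γ (t, x)) :=
  ev_mk _ _ hx

theorem ev_Sl (a b : ℝ) (γ : Om (cyl U)) {x : V} (hx : x ∈ U) :
    ev (Sl a b γ) x = ∫ t in a..b, ev (pull (SMap.slc U t) γ) x := by
  rw [ev_Sl' _ _ _ hx]
  simp only [ev_slc _ _ hx]

theorem continuous_ev_slc (γ : Om (cyl U)) {x : V} (hx : x ∈ U) :
    Continuous fun t => ev (pull (SMap.slc U t) γ) x := by
  simp only [ev_slc _ _ hx]
  exact cont_inr γ hx

/-- Contraction with the unit vector of the real factor. -/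
def dT : Om (cyl U) →ₗ[ℝ] Om (cyl U) := ctrF (fun _ => ((1 : ℝ), (0 : V))) contDiffOn_const

/-- Fibre integration. -/
def J (a b : ℝ) : Om (cyl U) →ₗ[ℝ] Om U := Sl a b ∘ₗ dT

theorem d_Sl (a b : ℝ) (γ : Om (cyl U)) : d (Sl a b γ) = Sl a b (d γ) := by
  refine ext fun x hx => ?_
  have hO : IsOpen {p : ℝ × V | p.2 ∈ (U : Set V)} := U.isOpen.preimage continuous_snd
  have h1 : ev (Sl a b γ) =ᶠ[𝓝 x]
      fun y => ∫ t in a..b, lmap (ContinuousLinearMap.inr ℝ ℝ V) (ev γ (t, y)) := by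
    filter_upwards [U.isOpen.mem_nhds hx] with y hy
    exact ev_Sl' _ _ _ hy
  have h2 := (hasFDerivAt_integral U.isOpen ((smooth_inr γ).of_le (by simp)) a b hx).fderiv
  have h3 : Continuous fun t : ℝ => (fderiv ℝ (fun p : ℝ × V =>
      lmap (ContinuousLinearMap.inr ℝ ℝ V) (ev γ p)) (t, x)).comp
        (ContinuousLinearMap.inr ℝ ℝ V) := by
    refine Continuous.clm_comp ?_ continuous_const
    exact ((smooth_inr γ).continuousOn_fderiv_of_isOpen hO (by simp)).comp_continuous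
      (continuous_id.prodMk continuous_const) fun _ => hx
  rw [ev_d _ hx, h1.fderiv_eq, h2, ← ContinuousLinearMap.intervalIntegral_comp_comm _
    (h3.intervalIntegrable _ _), ev_Sl _ _ _ hx]
  refine intervalIntegral.integral_congr fun t _ => ?_
  have h4 : ev (pull (SMap.slc U t) γ) =ᶠ[𝓝 x]
      (fun p : ℝ × V => lmap (ContinuousLinearMap.inr ℝ ℝ V) (ev γ p)) ∘ fun y => (t, y) := by
    filter_upwards [U.isOpen.mem_nhds hx] with y hy
    exact ev_slc _ _ hy
  have h5 : DifferentiableAt ℝ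
      (fun p : ℝ × V => lmap (ContinuousLinearMap.inr ℝ ℝ V) (ev γ p)) (t, x) :=
    ((smooth_inr γ).contDiffAt (hO.mem_nhds hx)).differentiableAt (by simp)
  have h6 := (h5.hasFDerivAt.comp x (hasFDerivAt_prodMk_right t x)).fderiv
  rw [← d_pull, ev_d _ hx, h4.fderiv_eq, h6]

theorem ev_d_dT_add (γ : Om (cyl U)) {p : ℝ × V} (hp : p ∈ cyl U) :
    ev (d (dT γ) + dT (d γ)) p = fderiv ℝ (ev γ) p ((1 : ℝ), (0 : V)) := by
  have h1 : ev (dT γ) =ᶠ[𝓝 p] fun q => ctr ((1 : ℝ), (0 : V)) (ev γ q) := by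
    filter_upwards [(cyl U).isOpen.mem_nhds hp] with q hq
    exact ev_ctrF _ _ _ hq
  have h2 : fderiv ℝ (ev (dT γ)) p = (ctr ((1 : ℝ), (0 : V))).comp (fderiv ℝ (ev γ) p) := by
    rw [h1.fderiv_eq]
    exact ((ctr ((1 : ℝ), (0 : V))).hasFDerivAt.comp p
      (differentiableAt_ev γ hp).hasFDerivAt).fderiv
  have h3 : ev (dT (d γ)) p = ctr ((1 : ℝ), (0 : V)) (dop (fderiv ℝ (ev γ) p)) := by
    rw [← ev_d _ hp]
    exact ev_ctrF _ _ _ hp
  rw [ev_add, ev_d _ hp, h2, h3, add_comm]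
  exact ctr_dop _ _

theorem homotopy (a b : ℝ) (γ : Om (cyl U)) :
    d (J a b γ) + J a b (d γ) = pull (SMap.slc U b) γ - pull (SMap.slc U a) γ := by
  have h0 : d (J a b γ) + J a b (d γ) = Sl a b (d (dT γ) + dT (d γ)) := by
    rw [map_add, ← d_Sl]
    rfl
  rw [h0]
  refine ext fun x hx => ?_
  rw [ev_sub, ev_slc _ _ hx, ev_slc _ _ hx, ev_Sl' _ _ _ hx]
  refine intervalIntegral.integral_eq_sub_of_hasDerivAt
    (f := fun t => lmap (ContinuousLinearMap.inr ℝ ℝ V) (ev γ (t, x))) (fun t _ => ?_)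
    ((cont_inr _ hx).intervalIntegrable _ _)
  rw [ev_d_dT_add γ (mem_cyl hx)]
  have h1 : HasDerivAt (fun s : ℝ => (s, x)) ((1 : ℝ), (0 : V)) t :=
    (hasDerivAt_id t).prodMk (hasDerivAt_const t x)
  have h2 := (differentiableAt_ev γ (mem_cyl (t := t) hx)).hasFDerivAt.comp_hasDerivAt t h1
  exact (lmapL (ContinuousLinearMap.inr ℝ ℝ V)).hasFDerivAt.comp_hasDerivAt t h2

theorem Sl_congr {a b : ℝ} {γ γ' : Om (cyl U)}
    (h : ∀ t ∈ uIcc a b, pull (SMap.slc U t) γ = pull (SMap.slc U t) γ') : Sl a b γ = Sl a b γ' := by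
  refine ext fun x hx => ?_
  rw [ev_Sl _ _ _ hx, ev_Sl _ _ _ hx]
  refine intervalIntegral.integral_congr fun t ht => ?_
  simp only [h t ht]

theorem Sl_const {a b : ℝ} {γ : Om (cyl U)} {η : Om U}
    (h : ∀ t ∈ uIcc a b, pull (SMap.slc U t) γ = η) : Sl a b γ = (b - a) • η := by
  refine ext fun x hx => ?_
  rw [ev_Sl _ _ _ hx, ev_smul, ← intervalIntegral.integral_const]
  refine intervalIntegral.integral_congr fun t ht => ?_
  simp only [h t ht]

theorem Sl_mul_left {a b : ℝ} {γ : Om (cyl U)} {η : Om U}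
    (h : ∀ t ∈ uIcc a b, pull (SMap.slc U t) γ = η) (γ' : Om (cyl U)) :
    Sl a b (γ * γ') = η * Sl a b γ' := by
  refine ext fun x hx => ?_
  have h1 := (ContinuousLinearMap.mul ℝ (Lam V) (ev η x)).intervalIntegral_comp_comm
    ((continuous_ev_slc γ' hx).intervalIntegrable (μ := volume) a b)
  simp only [ContinuousLinearMap.mul_apply'] at h1
  rw [ev_mul, ev_Sl _ _ _ hx, ev_Sl _ _ _ hx, ← h1]
  refine intervalIntegral.integral_congr fun t ht => ?_
  simp only [map_mul, ev_mul, h t ht]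

theorem Sl_mul_right {a b : ℝ} {γ : Om (cyl U)} {η : Om U}
    (h : ∀ t ∈ uIcc a b, pull (SMap.slc U t) γ = η) (γ' : Om (cyl U)) :
    Sl a b (γ' * γ) = Sl a b γ' * η := by
  refine ext fun x hx => ?_
  have h1 := ((ContinuousLinearMap.mul ℝ (Lam V)).flip (ev η x)).intervalIntegral_comp_comm
    ((continuous_ev_slc γ' hx).intervalIntegrable (μ := volume) a b)
  simp only [ContinuousLinearMap.flip_apply, ContinuousLinearMap.mul_apply'] at h1
  rw [ev_mul, ev_Sl _ _ _ hx, ev_Sl _ _ _ hx, ← h1]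
  refine intervalIntegral.integral_congr fun t ht => ?_
  simp only [map_mul, ev_mul, h t ht]

theorem pull_Sl (f : SMap U U') (a b : ℝ) (γ : Om (cyl U')) :
    pull f (Sl a b γ) = Sl a b (pull f.cylMap γ) := by
  refine ext fun x hx => ?_
  have h1 := (lmapL (fderiv ℝ f.toFun x)).intervalIntegral_comp_comm
    ((continuous_ev_slc γ (f.maps hx)).intervalIntegrable (μ := volume) a b)
  simp only [lmapL_apply] at h1
  rw [ev_pull _ _ hx, ev_Sl _ _ _ hx, ev_Sl _ _ _ (f.maps hx), ← h1]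
  refine intervalIntegral.integral_congr fun t _ => ?_
  have h2 : pull (SMap.slc U t) (pull f.cylMap γ) = pull f (pull (SMap.slc U' t) γ) := by
    rw [← pull_comp, ← pull_comp]
    exact pull_congr (fun _ _ => rfl) _
  simp only [h2, ev_pull f _ hx]

theorem dT_cylMap (f : SMap U U') (γ : Om (cyl U')) :
    dT (pull f.cylMap γ) = pull f.cylMap (dT γ) := by
  refine ctrF_pull _ _ _ (fun p hp => ?_) γ
  have h1 : DifferentiableAt ℝ f.toFun p.2 :=
    (f.smooth.contDiffAt (U.isOpen.mem_nhds hp.2)).differentiableAt (by simp)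
  have h2 : HasFDerivAt f.cylMap.toFun ((ContinuousLinearMap.fst ℝ ℝ V).prod
      ((fderiv ℝ f.toFun p.2).comp (ContinuousLinearMap.snd ℝ ℝ V))) p :=
    hasFDerivAt_fst.prodMk (h1.hasFDerivAt.comp p hasFDerivAt_snd)
  rw [h2.fderiv]
  simp

theorem pull_J (f : SMap U U') (a b : ℝ) (γ : Om (cyl U')) :
    pull f (J a b γ) = J a b (pull f.cylMap γ) := by
  change pull f (Sl a b (dT γ)) = Sl a b (dT (pull f.cylMap γ))
  rw [pull_Sl, dT_cylMap]

theorem ctrF_Sl {X : V → V} (hX : ContDiffOn ℝ ∞ X U)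
    (hX' : ContDiffOn ℝ ∞ (fun p : ℝ × V => ((0 : ℝ), X p.2)) (cyl U)) (a b : ℝ) (γ : Om (cyl U)) :
    ctrF X hX (Sl a b γ) = Sl a b (ctrF _ hX' γ) := by
  refine ext fun x hx => ?_
  have h1 := (ctr (X x)).intervalIntegral_comp_comm
    ((continuous_ev_slc γ hx).intervalIntegrable (μ := volume) a b)
  rw [ev_ctrF _ _ _ hx, ev_Sl _ _ _ hx, ev_Sl _ _ _ hx, ← h1]
  refine intervalIntegral.integral_congr fun t _ => ?_
  have h2 : ctrF X hX (pull (SMap.slc U t) γ) = pull (SMap.slc U t) (ctrF _ hX' γ) := by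
    refine ctrF_pull _ _ _ (fun y _ => ?_) γ
    rw [fderiv_slc]
    rfl
  simp only [← h2, ev_ctrF _ _ _ hx]

theorem ctrF_J {X : V → V} (hX : ContDiffOn ℝ ∞ X U)
    (hX' : ContDiffOn ℝ ∞ (fun p : ℝ × V => ((0 : ℝ), X p.2)) (cyl U)) (a b : ℝ) (γ : Om (cyl U)) :
    ctrF X hX (J a b γ) = -J a b (ctrF _ hX' γ) := by
  change ctrF X hX (Sl a b (dT γ)) = -Sl a b (dT (ctrF _ hX' γ))
  rw [ctrF_Sl hX hX', ← map_neg]
  congr 1
  refine ext fun p hp => ?_
  have h1 : ev (-dT (ctrF _ hX' γ)) p = -ev (dT (ctrF _ hX' γ)) p := by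
    rw [← evA_apply hp, map_neg, evA_apply]
  have h2 : ∀ δ : Om (cyl U), ev (dT δ) p = ctr ((1 : ℝ), (0 : V)) (ev δ p) := fun δ =>
    ev_ctrF _ _ _ hp
  rw [h1, h2, ev_ctrF _ _ _ hp, ev_ctrF _ _ _ hp, h2, ctr_ctr]

theorem dT_snd (γ : Om U) : dT (pull (SMap.snd ⊤ U) γ) = 0 := by
  refine ext fun p hp => ?_
  have h1 : fderiv ℝ (SMap.snd (⊤ : Opens ℝ) U).toFun p = ContinuousLinearMap.snd ℝ ℝ V :=
    hasFDerivAt_snd.fderiv
  have h2 : ∀ δ : Om (cyl U), ev (dT δ) p = ctr ((1 : ℝ), (0 : V)) (ev δ p) := fun δ =>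
    ev_ctrF _ _ _ hp
  rw [h2, ev_pull _ _ hp, ctr_lmap, h1, ev_zero]
  simp

theorem pull_slc_snd (t : ℝ) (γ : Om U) : pull (SMap.slc U t) (pull (SMap.snd ⊤ U) γ) = γ := by
  rw [← pull_comp]
  exact pull_id (fun _ _ => rfl) γ

theorem integral_mem (S : Submodule ℝ (Lam V)) {g : ℝ → Lam V} (hg : Continuous g)
    (h : ∀ t, g t ∈ S) (a b : ℝ) : ∫ t in a..b, g t ∈ S := by
  obtain ⟨T, hT⟩ := S.exists_isCompl
  let π : Lam V →L[ℝ] Lam V := LinearMap.toContinuousLinearMap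
    (S.subtype ∘ₗ S.projectionOnto T hT)
  have h1 := π.intervalIntegral_comp_comm (hg.intervalIntegrable (μ := volume) a b)
  have h2 : ∀ t, π (g t) = g t := fun t => by
    exact congrArg Subtype.val (Submodule.projectionOnto_apply_left hT ⟨g t, h t⟩)
  simp only [h2] at h1
  rw [h1]
  exact (S.projectionOnto T hT _).2

theorem IsOne.Sl {γ : Om (cyl U)} (h : IsOne γ) (a b : ℝ) : IsOne (Sl a b γ) := by
  intro x hx
  let S : Submodule ℝ (Lam V) := LinearMap.range (io (V := V) : (V →L[ℝ] ℝ) →ₗ[ℝ] Lam V)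
  have h1 : ev (Om.Sl a b γ) x ∈ S := by
    rw [ev_Sl _ _ _ hx]
    refine integral_mem S (continuous_ev_slc γ hx) (fun t => ?_) a b
    obtain ⟨θ, hθ⟩ := h.pull (SMap.slc U t) x hx
    exact ⟨θ, hθ.symm⟩
  obtain ⟨θ, hθ⟩ := h1
  exact ⟨θ, hθ.symm⟩

theorem IsFn.Sl {γ : Om (cyl U)} (h : IsFn γ) (a b : ℝ) : IsFn (Sl a b γ) := by
  intro x hx
  let S : Submodule ℝ (Lam V) := LinearMap.range (Algebra.linearMap ℝ (Lam V))
  have h1 : ev (Om.Sl a b γ) x ∈ S := by
    rw [ev_Sl _ _ _ hx]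
    refine integral_mem S (continuous_ev_slc γ hx) (fun t => ?_) a b
    obtain ⟨θ, hθ⟩ := h.pull (SMap.slc U t) x hx
    exact ⟨θ, hθ.symm⟩
  obtain ⟨θ, hθ⟩ := h1
  exact ⟨θ, hθ.symm⟩

end Om

end Pool.Agent.Work.MP_8c604c_gt
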