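import Mathlib

/-!
The exterior algebra of the dual of a finite-dimensional normed space, as a normed algebra.
Hints. Most statements follow by CliffordAlgebra.left_induction / ExteriorAlgebra.induction or from
Module.Basis.ExteriorAlgebra. top_lmap: both sides are linear in a; on basis monomials of degree < dim both vanish (grading),
on the top monomial use ExteriorAlgebra.map_apply_ιMulti and the alternating map characterisation of det (Basis.det).
contDiffOn_lmap: for fixed a by induction, then expand omega in a basis of Lam V'.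
-/

set_option maxSynthPendingDepth 3
set_option linter.unusedSectionVars false

open Set Filter Topology MeasureTheory
open scoped ContDiff

noncomputable section
namespace Pool.Agent.Work.MP_8c604c_gt

/-- Exterior algebra of the dual space. -/
def Lam (V : Type) [NormedAddCommGroup V] [NormedSpace ℝ V] : Type :=
  ExteriorAlgebra ℝ (V →L[ℝ] ℝ)

variable {V V' V'' : Type} [NormedAddCommGroup V] [NormedSpace ℝ V] [FiniteDimensional ℝ V]
  [NormedAddCommGroup V'] [NormedSpace ℝ V'] [FiniteDimensional ℝ V']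
  [NormedAddCommGroup V''] [NormedSpace ℝ V''] [FiniteDimensional ℝ V'']

namespace Lam

instance : Ring (Lam V) := inferInstanceAs (Ring (ExteriorAlgebra ℝ (V →L[ℝ] ℝ)))
instance : Algebra ℝ (Lam V) := inferInstanceAs (Algebra ℝ (ExteriorAlgebra ℝ (V →L[ℝ] ℝ)))

/-- The chosen basis of `V`. -/
def bas (V : Type) [NormedAddCommGroup V] [NormedSpace ℝ V] [FiniteDimensional ℝ V] :
    Module.Basis (Fin (Module.finrank ℝ V)) ℝ V := Module.finBasis ℝ V

/-- The dual basis, as continuous linear forms. -/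
def cob (V : Type) [NormedAddCommGroup V] [NormedSpace ℝ V] [FiniteDimensional ℝ V] :
    Module.Basis (Fin (Module.finrank ℝ V)) ℝ (V →L[ℝ] ℝ) :=
  (bas V).dualBasis.map LinearMap.toContinuousLinearMap

/-- The monomial basis. -/
def mon (V : Type) [NormedAddCommGroup V] [NormedSpace ℝ V] [FiniteDimensional ℝ V] :
    Module.Basis (Finset (Fin (Module.finrank ℝ V))) ℝ (Lam V) := (cob V).ExteriorAlgebra

instance : FiniteDimensional ℝ (Lam V) := Module.Finite.of_basis (mon V)

/-- The left regular representation in coordinates. -/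
def rep : Lam V →ₐ[ℝ] ((Finset (Fin (Module.finrank ℝ V)) → ℝ) →L[ℝ]
    (Finset (Fin (Module.finrank ℝ V)) → ℝ)) :=
  (Module.End.toContinuousLinearMap (𝕜 := ℝ) (Finset (Fin (Module.finrank ℝ V)) → ℝ)).toAlgHom.comp
    (((mon V).equivFun.conjAlgEquiv ℝ).toAlgHom.comp (Algebra.lmul ℝ (Lam V)))

theorem rep_injective : Function.Injective (rep (V := V)) :=
  (Module.End.toContinuousLinearMap (𝕜 := ℝ) _).injective.comp
    (((mon V).equivFun.conjAlgEquiv ℝ).injective.comp Algebra.lmul_injective)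

instance : NormedRing (Lam V) := NormedRing.induced (Lam V) _ (rep (V := V)) rep_injective
instance : NormedAlgebra ℝ (Lam V) := NormedAlgebra.induced ℝ (Lam V) _ (rep (V := V))
instance : CompleteSpace (Lam V) := FiniteDimensional.complete ℝ (Lam V)

/-- One-forms. -/
def io : (V →L[ℝ] ℝ) →L[ℝ] Lam V :=
  LinearMap.toContinuousLinearMap (ExteriorAlgebra.ι ℝ : (V →L[ℝ] ℝ) →ₗ[ℝ] Lam V)

/-- Contraction with a vector. -/
def ctr : V →L[ℝ] Lam V →L[ℝ] Lam V :=
  LinearMap.toContinuousLinearMap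
    ((LinearMap.toContinuousLinearMap : (Lam V →ₗ[ℝ] Lam V) ≃ₗ[ℝ] (Lam V →L[ℝ] Lam V)).toLinearMap ∘ₗ
      (CliffordAlgebra.contractLeft (Q := (0 : QuadraticForm ℝ (V →L[ℝ] ℝ)))) ∘ₗ
      (ContinuousLinearMap.coeLM ℝ) ∘ₗ (ContinuousLinearMap.apply ℝ ℝ (E := V)).toLinearMap)

/-- Pull-back by a linear map. -/
def lmap (L : V →L[ℝ] V') : Lam V' →ₐ[ℝ] Lam V :=
  ExteriorAlgebra.map (((ContinuousLinearMap.compL ℝ V V' ℝ).flip L).toLinearMap)

/-- The grade involution. -/
def invol : Lam V →ₐ[ℝ] Lam V := CliffordAlgebra.involute (Q := (0 : QuadraticForm ℝ (V →L[ℝ] ℝ)))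

/-- The algebraic part of the exterior derivative. -/
def dop : (V →L[ℝ] Lam V) →L[ℝ] Lam V :=
  ∑ i, (ContinuousLinearMap.mul ℝ (Lam V) (io (cob V i))).comp
    (ContinuousLinearMap.apply ℝ (Lam V) (bas V i))

/-- The coefficient of the top degree monomial. -/
def top : Lam V →L[ℝ] ℝ := LinearMap.toContinuousLinearMap ((mon V).coord Finset.univ)

/-- Homogeneous elements of degree `k`. -/
def deg (V : Type) [NormedAddCommGroup V] [NormedSpace ℝ V] [FiniteDimensional ℝ V] (k : ℕ) :
    Submodule ℝ (Lam V) := LinearMap.range (io (V := V) : (V →L[ℝ] ℝ) →ₗ[ℝ] Lam V) ^ k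

theorem dop_apply (A : V →L[ℝ] Lam V) : dop A = ∑ i, io (cob V i) * A (bas V i) := by
  simp [dop]

theorem io_sq (θ : V →L[ℝ] ℝ) : io θ * io θ = 0 := by
  exact ExteriorAlgebra.ι_sq_zero (R := ℝ) θ

theorem io_anti (θ θ' : V →L[ℝ] ℝ) : io θ * io θ' = -(io θ' * io θ) := by
  exact eq_neg_of_add_eq_zero_left (ExteriorAlgebra.ι_add_mul_swap (R := ℝ) θ θ')

/-- Left induction. -/
theorem aux_ind {C : Lam V → Prop} (h0 : ∀ r : ℝ, C (algebraMap ℝ _ r))
    (h1 : ∀ θ a, C a → C (io θ * a)) (h2 : ∀ a b, C a → C b → C (a + b)) (a : Lam V) : C a :=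
  CliffordAlgebra.left_induction (Q := (0 : QuadraticForm ℝ (V →L[ℝ] ℝ))) (P := C) h0 h2
    (fun x m hx => h1 m x hx) a

theorem aux_invol_io (θ : V →L[ℝ] ℝ) : invol (io θ) = -io θ :=
  CliffordAlgebra.involute_ι (Q := (0 : QuadraticForm ℝ (V →L[ℝ] ℝ))) θ

theorem io_mul (θ : V →L[ℝ] ℝ) (a : Lam V) : io θ * a = invol a * io θ := by
  induction a using aux_ind with
  | h0 r => rw [AlgHom.commutes, Algebra.commutes]
  | h1 φ a ih => rw [← mul_assoc, io_anti, map_mul, aux_invol_io, neg_mul, mul_assoc, ih,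
      neg_mul, neg_mul, mul_assoc]
  | h2 a b ha hb => rw [mul_add, map_add, add_mul, ha, hb]

theorem invol_io (θ : V →L[ℝ] ℝ) : invol (io θ) = -io θ := by
  exact aux_invol_io θ

theorem invol_invol (a : Lam V) : invol (invol a) = a := by
  exact CliffordAlgebra.involute_involute (Q := (0 : QuadraticForm ℝ (V →L[ℝ] ℝ))) a

theorem ind {C : Lam V → Prop} (h0 : ∀ r : ℝ, C (algebraMap ℝ _ r))
    (h1 : ∀ θ a, C a → C (io θ * a)) (h2 : ∀ a b, C a → C b → C (a + b)) (a : Lam V) : C a := by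
  exact aux_ind h0 h1 h2 a

theorem ctr_algebraMap (v : V) (r : ℝ) : ctr v (algebraMap ℝ (Lam V) r) = 0 := by
  exact CliffordAlgebra.contractLeft_algebraMap (0 : QuadraticForm ℝ (V →L[ℝ] ℝ)) _ r

theorem ctr_io (v : V) (θ : V →L[ℝ] ℝ) : ctr v (io θ) = algebraMap ℝ _ (θ v) := by
  exact CliffordAlgebra.contractLeft_ι (0 : QuadraticForm ℝ (V →L[ℝ] ℝ)) _ θ

theorem ctr_io_mul (v : V) (θ : V →L[ℝ] ℝ) (a : Lam V) :
    ctr v (io θ * a) = θ v • a - io θ * ctr v a := by
  exact CliffordAlgebra.contractLeft_ι_mul (Q := (0 : QuadraticForm ℝ (V →L[ℝ] ℝ))) _ θ a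

theorem ctr_mul (v : V) (a b : Lam V) : ctr v (a * b) = ctr v a * b + invol a * ctr v b := by
  induction a using aux_ind with
  | h0 r => rw [ctr_algebraMap, zero_mul, zero_add, AlgHom.commutes, ← Algebra.smul_def,
      ← Algebra.smul_def, map_smul]
  | h1 φ a ih =>
    rw [mul_assoc, ctr_io_mul, ctr_io_mul, ih, map_mul, invol_io, sub_mul, smul_mul_assoc, mul_add,
      neg_mul, neg_mul, mul_assoc, mul_assoc]
    abel
  | h2 a c ha hc =>
    rw [add_mul, map_add, ha, hc, map_add, map_add, add_mul, add_mul]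
    abel

theorem ctr_ctr (v w : V) (a : Lam V) : ctr v (ctr w a) = -ctr w (ctr v a) := by
  exact CliffordAlgebra.contractLeft_comm (Q := (0 : QuadraticForm ℝ (V →L[ℝ] ℝ))) _ _ a

theorem ctr_self (v : V) (a : Lam V) : ctr v (ctr v a) = 0 := by
  exact CliffordAlgebra.contractLeft_contractLeft (Q := (0 : QuadraticForm ℝ (V →L[ℝ] ℝ))) _ a

theorem ctr_invol (v : V) (a : Lam V) : ctr v (invol a) = -invol (ctr v a) := by
  induction a using aux_ind with
  | h0 r => rw [AlgHom.commutes, ctr_algebraMap, map_zero, neg_zero]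
  | h1 φ a ih =>
    rw [map_mul, invol_io, neg_mul, map_neg, ctr_io_mul, ctr_io_mul, ih, map_sub, map_smul, map_mul,
      invol_io, mul_neg, neg_mul]
  | h2 a c ha hc => rw [map_add, map_add, ha, hc, map_add, map_add, neg_add]

theorem lmap_io (L : V →L[ℝ] V') (θ : V' →L[ℝ] ℝ) : lmap L (io θ) = io (θ.comp L) := by
  exact ExteriorAlgebra.map_apply_ι _ θ

theorem lmap_id (a : Lam V) : lmap (ContinuousLinearMap.id ℝ V) a = a := by
  induction a using aux_ind with
  | h0 r => rw [AlgHom.commutes]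
  | h1 φ a ih => rw [map_mul, ih, lmap_io, ContinuousLinearMap.comp_id]
  | h2 a c ha hc => rw [map_add, ha, hc]

theorem lmap_comp (L : V →L[ℝ] V') (M : V' →L[ℝ] V'') (a : Lam V'') :
    lmap (M.comp L) a = lmap L (lmap M a) := by
  induction a using aux_ind with
  | h0 r => rw [AlgHom.commutes, AlgHom.commutes, AlgHom.commutes]
  | h1 φ a ih => rw [map_mul, map_mul, map_mul, ih, lmap_io, lmap_io, lmap_io,
      ContinuousLinearMap.comp_assoc]
  | h2 a c ha hc => rw [map_add, map_add, map_add, ha, hc]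

theorem ctr_lmap (L : V →L[ℝ] V') (v : V) (a : Lam V') :
    ctr v (lmap L a) = lmap L (ctr (L v) a) := by
  induction a using aux_ind with
  | h0 r => rw [AlgHom.commutes, ctr_algebraMap, ctr_algebraMap, map_zero]
  | h1 φ a ih => rw [map_mul, lmap_io, ctr_io_mul, ctr_io_mul, ih, map_sub, map_smul, map_mul,
      lmap_io, ContinuousLinearMap.comp_apply]
  | h2 a c ha hc => rw [map_add, map_add, ha, hc, map_add, map_add]

theorem invol_lmap (L : V →L[ℝ] V') (a : Lam V') : invol (lmap L a) = lmap L (invol a) := by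
  induction a using aux_ind with
  | h0 r => rw [AlgHom.commutes, AlgHom.commutes, AlgHom.commutes, AlgHom.commutes]
  | h1 φ a ih => rw [map_mul, map_mul, map_mul, map_mul, ih, lmap_io, invol_io, invol_io, map_neg,
      lmap_io]
  | h2 a c ha hc => rw [map_add, map_add, ha, hc, map_add, map_add]

theorem aux_cob_apply (i : Fin (Module.finrank ℝ V)) (v : V) : cob V i v = (bas V).repr v i := by
  simp [cob]

theorem aux_sum_bas (v : V) : ∑ i, cob V i v • bas V i = v := by
  simp only [aux_cob_apply]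
  exact (bas V).sum_repr v

theorem aux_sum_map {W : Type} [NormedAddCommGroup W] [NormedSpace ℝ W] (A : V →L[ℝ] W) (v : V) :
    ∑ i, cob V i v • A (bas V i) = A v := by
  conv_rhs => rw [← aux_sum_bas v]
  simp only [map_sum, map_smul]

theorem aux_sum_cob (θ : V →L[ℝ] ℝ) : ∑ i, θ (bas V i) • cob V i = θ := by
  ext v
  rw [← aux_sum_map θ v]
  simp only [_root_.sum_apply, _root_.smul_apply, smul_eq_mul, mul_comm]

theorem aux_cob_repr (θ : V →L[ℝ] ℝ) (i : Fin (Module.finrank ℝ V)) :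
    (cob V).repr θ i = θ (bas V i) := by
  conv_lhs => rw [← aux_sum_cob θ]
  exact congrFun ((cob V).repr_sum_self fun i => θ (bas V i)) i

theorem aux_lmap_add (M : V →L[ℝ] V') (θ : V →L[ℝ] ℝ) (w : V') (a : Lam V') :
    lmap (M + θ.smulRight w) a = lmap M a + io θ * lmap M (ctr w a) := by
  induction a using aux_ind with
  | h0 r => rw [AlgHom.commutes, AlgHom.commutes, ctr_algebraMap, map_zero, mul_zero, add_zero]
  | h1 φ a ih =>
    have h1 : φ.comp (M + θ.smulRight w) = φ.comp M + φ w • θ := by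
      ext v
      simp [mul_comm]
    have h2 : ∀ x : Lam V, io θ * (io θ * x) = 0 := fun x => by rw [← mul_assoc, io_sq, zero_mul]
    have h3 : ∀ x : Lam V, io θ * (io (φ.comp M) * x) = -(io (φ.comp M) * (io θ * x)) := fun x => by
      rw [← mul_assoc, io_anti, neg_mul, mul_assoc]
    rw [map_mul, map_mul, ih, lmap_io, lmap_io, ctr_io_mul, h1, map_add, map_smul, map_sub,
      map_smul, map_mul, lmap_io, mul_sub, h3, add_mul, mul_add, mul_add, smul_mul_assoc,
      smul_mul_assoc, h2, smul_zero, mul_smul_comm]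
    abel
  | h2 a c ha hc =>
    rw [map_add, ha, hc, map_add, map_add, map_add, mul_add]
    abel

/-- If two linear maps differ by vectors that kill `a`, the pull-backs agree. -/
theorem lmap_congr {L M : V →L[ℝ] V'} {S : Submodule ℝ V'} (h : ∀ v, L v - M v ∈ S) {a : Lam V'}
    (ha : ∀ w ∈ S, ctr w a = 0) : lmap L a = lmap M a := by
  have h1 : ∀ s : Finset (Fin (Module.finrank ℝ V)),
      lmap (M + ∑ i ∈ s, (cob V i).smulRight (L (bas V i) - M (bas V i))) a = lmap M a := by
    intro s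
    induction s using Finset.induction_on with
    | empty => rw [Finset.sum_empty, add_zero]
    | insert i s hi ih =>
      rw [Finset.sum_insert hi, add_comm (ContinuousLinearMap.smulRight _ _), ← add_assoc,
        aux_lmap_add, ha _ (h _), map_zero, mul_zero, add_zero, ih]
  have h2 : L = M + ∑ i, (cob V i).smulRight (L (bas V i) - M (bas V i)) := by
    ext v
    have h3 := aux_sum_map (L - M) v
    simp only [_root_.sub_apply] at h3
    simp only [_root_.add_apply, _root_.sum_apply,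
      ContinuousLinearMap.smulRight_apply, h3]
    abel
  rw [← h1 Finset.univ, ← h2]

theorem contDiffOn_lmap {X : Type} [NormedAddCommGroup X] [NormedSpace ℝ X] {s : Set X}
    {L : X → V →L[ℝ] V'} {γ : X → Lam V'} (hL : ContDiffOn ℝ ∞ L s) (hγ : ContDiffOn ℝ ∞ γ s) :
    ContDiffOn ℝ ∞ (fun x => lmap (L x) (γ x)) s := by
  have h1 : ∀ a : Lam V', ContDiffOn ℝ ∞ (fun x => lmap (L x) a) s := by
    intro a
    induction a using aux_ind with
    | h0 r => simpa only [AlgHom.commutes] using contDiffOn_const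
    | h1 φ a ih =>
      simp only [map_mul, lmap_io]
      exact (io.contDiff.comp_contDiffOn (contDiffOn_const.clm_comp hL)).mul ih
    | h2 a c ha hc => simpa only [map_add] using ha.add hc
  have h2 : (fun x => lmap (L x) (γ x)) = fun x => ∑ t,
      LinearMap.toContinuousLinearMap ((mon V').coord t) (γ x) • lmap (L x) (mon V' t) := by
    funext x
    conv_lhs => rw [← (mon V').sum_repr (γ x)]
    simp only [map_sum, map_smul]
    rfl
  rw [h2]
  exact ContDiffOn.sum fun t _ =>
    ((LinearMap.toContinuousLinearMap ((mon V').coord t)).contDiff.comp_contDiffOn hγ).smul (h1 _)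

theorem dop_smulRight (θ : V →L[ℝ] ℝ) (a : Lam V) : dop (θ.smulRight a) = io θ * a := by
  rw [dop_apply]
  conv_rhs => rw [← aux_sum_cob θ]
  simp only [map_sum, map_smul, Finset.sum_mul, ContinuousLinearMap.smulRight_apply,
    mul_smul_comm, smul_mul_assoc]

theorem ctr_dop (v : V) (A : V →L[ℝ] Lam V) : ctr v (dop A) + dop ((ctr v).comp A) = A v := by
  rw [dop_apply, dop_apply, map_sum, ← Finset.sum_add_distrib, ← aux_sum_map A v]
  refine Finset.sum_congr rfl fun i _ => ?_
  rw [ctr_io_mul, ContinuousLinearMap.comp_apply, sub_add_cancel]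

theorem ctr_dop_io (v : V) (B : V →L[ℝ] V →L[ℝ] ℝ) :
    ctr v (dop (io.comp B)) = io (B v - B.flip v) := by
  have h1 := ctr_dop v (io.comp B)
  have h2 : (ctr v).comp (io.comp B) = (B.flip v).smulRight (1 : Lam V) := by
    ext w
    simp only [ContinuousLinearMap.comp_apply, ctr_io, ContinuousLinearMap.smulRight_apply,
      ContinuousLinearMap.flip_apply, Algebra.algebraMap_eq_smul_one]
  rw [h2, dop_smulRight, mul_one, ContinuousLinearMap.comp_apply] at h1
  rw [map_sub, ← h1, add_sub_cancel_right]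

theorem aux_commute (θ φ : V →L[ℝ] ℝ) (a : Lam V) : Commute (io θ * io φ) a := by
  change io θ * io φ * a = a * (io θ * io φ)
  rw [mul_assoc, io_mul φ, ← mul_assoc, io_mul θ, invol_invol, mul_assoc]

theorem commute_dop_io (B : V →L[ℝ] V →L[ℝ] ℝ) (a : Lam V) : Commute (dop (io.comp B)) a := by
  rw [dop_apply]
  exact Commute.sum_left _ _ _ fun i _ => aux_commute _ _ a

theorem invol_dop_io (B : V →L[ℝ] V →L[ℝ] ℝ) : invol (dop (io.comp B)) = dop (io.comp B) := by
  simp only [dop_apply, map_sum, map_mul, ContinuousLinearMap.comp_apply, invol_io, neg_mul_neg]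

theorem lmap_dop_io (L : V →L[ℝ] V') (B : V' →L[ℝ] V' →L[ℝ] ℝ) :
    lmap L (dop (io.comp B)) = dop (io.comp (B.bilinearComp L L)) := by
  have h1 : io.comp (B.bilinearComp L L) =
      ∑ i, ((cob V' i).comp L).smulRight (io ((B (bas V' i)).comp L)) := by
    ext v
    have h2 : B.bilinearComp L L v = ∑ i, cob V' i (L v) • (B (bas V' i)).comp L := by
      ext w
      rw [ContinuousLinearMap.bilinearComp_apply, ← aux_sum_map B (L v)]
      simp only [_root_.sum_apply, _root_.smul_apply,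
        ContinuousLinearMap.comp_apply]
    simp only [ContinuousLinearMap.comp_apply, h2, map_sum, map_smul,
      _root_.sum_apply, ContinuousLinearMap.smulRight_apply]
  rw [h1, map_sum, dop_apply, map_sum]
  simp only [dop_smulRight, map_mul, ContinuousLinearMap.comp_apply, lmap_io]

theorem io_mem_deg (θ : V →L[ℝ] ℝ) : io θ ∈ deg V 1 := by
  rw [deg, pow_one]
  exact ⟨θ, rfl⟩

theorem one_mem_deg : (1 : Lam V) ∈ deg V 0 := by
  rw [deg, pow_zero]
  exact Submodule.one_le.1 le_rfl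

theorem mul_mem_deg {j k : ℕ} {a b : Lam V} (ha : a ∈ deg V j) (hb : b ∈ deg V k) :
    a * b ∈ deg V (j + k) := by
  rw [deg, pow_add]
  exact Submodule.mul_mem_mul ha hb

theorem pow_mem_deg {j : ℕ} {a : Lam V} (ha : a ∈ deg V j) (k : ℕ) : a ^ k ∈ deg V (j * k) := by
  induction k with
  | zero => simpa only [pow_zero, mul_zero] using one_mem_deg
  | succ k ih =>
    rw [pow_succ, Nat.mul_succ]
    exact mul_mem_deg ih ha

theorem dop_io_mem_deg (B : V →L[ℝ] V →L[ℝ] ℝ) : dop (io.comp B) ∈ deg V 2 := by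
  rw [dop_apply]
  exact Submodule.sum_mem _ fun i _ => mul_mem_deg (io_mem_deg _) (io_mem_deg _)

theorem aux_io_mul_mem (θ : V →L[ℝ] ℝ) {k : ℕ} {a : Lam V} (ha : a ∈ deg V k) :
    io θ * a ∈ deg V (k + 1) := by
  rw [add_comm]
  exact mul_mem_deg (io_mem_deg θ) ha

theorem aux_deg_ind {C : ℕ → Lam V → Prop} (h0 : ∀ r : ℝ, C 0 (algebraMap ℝ _ r))
    (h1 : ∀ k θ a, a ∈ deg V k → C k a → C (k + 1) (io θ * a))
    (h2 : ∀ k a b, C k a → C k b → C k (a + b)) {k : ℕ} {a : Lam V} (ha : a ∈ deg V k) : C k a :=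
  Submodule.pow_induction_on_left' _ (C := fun k a _ => C k a) h0
    (fun x y i _ _ => h2 i x y) (fun _ hm i x hx h => by
      obtain ⟨θ, rfl⟩ := LinearMap.mem_range.1 hm
      exact h1 i θ x hx h) ha

theorem lmap_mem_deg (L : V →L[ℝ] V') {k : ℕ} {a : Lam V'} (ha : a ∈ deg V' k) :
    lmap L a ∈ deg V k := by
  refine aux_deg_ind (C := fun k a => lmap L a ∈ deg V k) (fun r => ?_) (fun k θ a _ h => ?_)
    (fun k a b h1 h2 => ?_) ha
  · rw [AlgHom.commutes, Algebra.algebraMap_eq_smul_one]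
    exact Submodule.smul_mem _ _ one_mem_deg
  · rw [map_mul, lmap_io]
    exact aux_io_mul_mem _ h
  · rw [map_add]
    exact add_mem h1 h2

theorem aux_mon_mem (s : Finset (Fin (Module.finrank ℝ V))) : mon V s ∈ deg V s.card := by
  have h := ExteriorAlgebra.basis_apply_ofCard (cob V) (s := s) rfl
  have h2 : mon V s ∈ ⋀[ℝ]^s.card (V →L[ℝ] ℝ) := by
    rw [show mon V s = _ from h]
    exact ExteriorAlgebra.ιMulti_range ℝ _ ⟨_, rfl⟩
  exact h2

theorem aux_repr {k : ℕ} {a : Lam V} (ha : a ∈ deg V k) {s : Finset (Fin (Module.finrank ℝ V))}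
    (hs : s.card ≠ k) : (mon V).repr a s = 0 := by
  have h1 := congrArg (⋀[ℝ]^k (V →L[ℝ] ℝ)).subtype (((cob V).exteriorPower k).sum_repr ⟨a, ha⟩)
  rw [map_sum] at h1
  simp only [map_smul, Submodule.subtype_apply, ← ExteriorAlgebra.basis_eq_coe_basis] at h1
  have h2 : a = ∑ t : Set.powersetCard (Fin (Module.finrank ℝ V)) k,
      ((cob V).exteriorPower k).repr ⟨a, ha⟩ t • mon V t := h1.symm
  rw [h2, map_sum, Finsupp.finsetSum_apply]
  refine Finset.sum_eq_zero fun t _ => ?_
  have h3 : (t : Finset (Fin (Module.finrank ℝ V))) ≠ s := fun e => hs (e ▸ t.2)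
  rw [map_smul, Module.Basis.repr_self, Finsupp.smul_apply, Finsupp.single_eq_of_ne h3.symm,
    smul_zero]

theorem aux_top (a : Lam V) : top a = (mon V).repr a Finset.univ := rfl

theorem aux_top_mon : top (mon V Finset.univ) = 1 := by simp [aux_top]

theorem aux_top_deg {k : ℕ} {a : Lam V} (ha : a ∈ deg V k) (hk : k ≠ Module.finrank ℝ V) :
    top a = 0 := aux_repr ha (by simpa using hk.symm)

theorem aux_top_unique {f : Lam V → ℝ} (hl : IsLinearMap ℝ f)
    (hf : ∀ k, k < Module.finrank ℝ V → ∀ a ∈ deg V k, f a = 0) (a : Lam V) :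
    f a = f (mon V Finset.univ) * top a := by
  obtain ⟨f, rfl⟩ : ∃ F : Lam V →ₗ[ℝ] ℝ, ⇑F = f := ⟨hl.mk' f, rfl⟩
  conv_lhs => rw [← (mon V).sum_repr a]
  rw [map_sum, Finset.sum_eq_single Finset.univ, map_smul, smul_eq_mul, mul_comm, aux_top]
  · intro s _ hs
    have h1 : s.card < Module.finrank ℝ V := by
      simpa using (Finset.card_lt_iff_ne_univ s).2 hs
    rw [map_smul, hf _ h1 _ (aux_mon_mem s), smul_zero]
  · simp

theorem eq_zero_of_deg {k : ℕ} {a : Lam V} (ha : a ∈ deg V k) (hk : Module.finrank ℝ V < k) :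
    a = 0 := by
  refine (mon V).ext_elem fun s => ?_
  have h1 : s.card ≤ Module.finrank ℝ V := by simpa using s.card_le_univ
  rw [aux_repr ha (by omega), map_zero, Finsupp.zero_apply]

theorem eq_zero_of_top {a : Lam V} (ha : a ∈ deg V (Module.finrank ℝ V)) (h : top a = 0) :
    a = 0 := by
  refine (mon V).ext_elem fun s => ?_
  rw [map_zero, Finsupp.zero_apply]
  by_cases hs : s = Finset.univ
  · rw [hs]
    exact h
  · have h1 : s.card < Module.finrank ℝ V := by
      simpa using (Finset.card_lt_iff_ne_univ s).2 hs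
    exact aux_repr ha h1.ne

theorem aux_ctr_deg (v : V) {k : ℕ} {a : Lam V} (ha : a ∈ deg V k) :
    ctr v a ∈ deg V (k - 1) ∧ (k = 0 → ctr v a = 0) := by
  refine aux_deg_ind (C := fun k a => ctr v a ∈ deg V (k - 1) ∧ (k = 0 → ctr v a = 0))
    (fun r => ?_) (fun k θ a hk h => ⟨?_, fun h => absurd h k.succ_ne_zero⟩)
    (fun k a b h1 h2 => ⟨?_, fun h => ?_⟩) ha
  · rw [ctr_algebraMap]
    exact ⟨zero_mem _, fun _ => rfl⟩
  · rw [ctr_io_mul, Nat.add_sub_cancel]
    refine sub_mem (Submodule.smul_mem _ _ hk) ?_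
    rcases Nat.eq_zero_or_pos k with h0 | h0
    · rw [h.2 h0, mul_zero]
      exact zero_mem _
    · have h1 := aux_io_mul_mem θ h.1
      rwa [Nat.sub_add_cancel h0] at h1
  · rw [map_add]
    exact add_mem h1.1 h2.1
  · rw [map_add, h1.2 h, h2.2 h, add_zero]

theorem top_ctr (v : V) (a : Lam V) : top (ctr v a) = 0 := by
  conv_lhs => rw [← (mon V).sum_repr a]
  rw [map_sum, map_sum]
  refine Finset.sum_eq_zero fun s _ => ?_
  have h1 : s.card ≤ Module.finrank ℝ V := by simpa using s.card_le_univ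
  obtain ⟨h2, h3⟩ := aux_ctr_deg v (aux_mon_mem s)
  rw [map_smul, map_smul]
  rcases Nat.eq_zero_or_pos s.card with h | h
  · rw [h3 h, map_zero, smul_zero]
  · rw [aux_top_deg h2 (by omega), smul_zero]

theorem top_eq_zero_of_ctr {v : V} (hv : v ≠ 0) {a : Lam V} (h : ctr v a = 0) : top a = 0 := by
  obtain ⟨i, hi⟩ : ∃ i, cob V i v ≠ 0 := by
    by_contra hc
    simp only [not_exists, not_not] at hc
    apply hv
    rw [← aux_sum_bas v]
    simp only [hc, zero_smul, Finset.sum_const_zero]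
  have h1 := top_ctr v (io (cob V i) * a)
  rw [ctr_io_mul, h, mul_zero, sub_zero, map_smul, smul_eq_mul] at h1
  exact (mul_eq_zero.1 h1).resolve_left hi

/-- Fewer one-forms than horizontal directions. -/
theorem top_horizontal {S : Submodule ℝ V} {a : Lam V} (ha : ∀ v ∈ S, ctr v a = 0)
    (l : List (V →L[ℝ] ℝ)) (hl : l.length < Module.finrank ℝ S) :
    top ((l.map io).prod * a) = 0 := by
  let f : S →ₗ[ℝ] (Fin l.length → ℝ) := LinearMap.pi fun i => (l.get i).toLinearMap ∘ₗ S.subtype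
  have hf : LinearMap.ker f ≠ ⊥ := LinearMap.ker_ne_bot_of_finrank_lt (by simpa using hl)
  obtain ⟨v, hv, hv0⟩ := Submodule.exists_mem_ne_zero_of_ne_bot hf
  have h1 : ∀ θ ∈ l, θ v = 0 := fun θ hθ => by
    obtain ⟨i, rfl⟩ := List.mem_iff_get.1 hθ
    exact congrFun (LinearMap.mem_ker.1 hv) i
  refine top_eq_zero_of_ctr (v := (v : V)) (fun e => hv0 (Subtype.ext e)) ?_
  clear hv hf hl
  clear_value f
  clear f
  induction l with
  | nil => simpa using ha v v.2
  | cons θ l ih =>
    rw [List.map_cons, List.prod_cons, mul_assoc, ctr_io_mul, h1 θ List.mem_cons_self,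
      ih fun φ hφ => h1 φ (List.mem_cons_of_mem _ hφ), zero_smul, mul_zero, sub_zero]

theorem aux_mon_univ : mon V Finset.univ = (List.ofFn fun i => io (cob V i)).prod := by
  have hc : (Finset.univ : Finset (Fin (Module.finrank ℝ V))).card = Module.finrank ℝ V := by simp
  have h := ExteriorAlgebra.basis_apply_ofCard (cob V) hc
  have h2 : ⇑(Set.powersetCard.ofFinEmbEquiv.symm (Set.powersetCard.ofCard hc)) = id :=
    (Finset.orderEmbOfFin_unique hc (fun _ => Finset.mem_univ _) strictMono_id).symm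
  rw [ExteriorAlgebra.ιMulti_family, h2] at h
  exact h

theorem aux_top_prod (θ : Fin (Module.finrank ℝ V) → V →L[ℝ] ℝ) :
    top (List.ofFn fun i => io (θ i)).prod = (Matrix.of fun i j => θ i (bas V j)).det := by
  let F : (V →L[ℝ] ℝ) [⋀^Fin (Module.finrank ℝ V)]→ₗ[ℝ] Lam V := ExteriorAlgebra.ιMulti ℝ _
  have h1 := DFunLike.congr_fun
    (AlternatingMap.eq_smul_basis_det (cob V) (top.toLinearMap.compAlternatingMap F)) θ
  have h2 : top.toLinearMap.compAlternatingMap F (cob V) = 1 := by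
    rw [← aux_top_mon (V := V), aux_mon_univ]
    rfl
  rw [h2, one_smul, Module.Basis.det_apply, ← Matrix.det_transpose] at h1
  refine Eq.trans h1 ?_
  congr 1
  ext i j
  simp [Module.Basis.toMatrix_apply, aux_cob_repr]

theorem top_lmap (L : V →L[ℝ] V) (a : Lam V) : top (lmap L a) = L.det * top a := by
  have h1 := aux_top_unique (f := fun a => top (lmap L a))
    ⟨fun x y => by rw [map_add, map_add], fun c x => by rw [map_smul, map_smul]⟩
    (fun k hk b hb => aux_top_deg (lmap_mem_deg L hb) hk.ne) a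
  have h2 : top (lmap L (mon V Finset.univ)) = L.det := by
    rw [aux_mon_univ, map_list_prod, List.map_ofFn]
    have h3 := aux_top_prod fun i => (cob V i).comp L
    simp only [← lmap_io] at h3
    refine h3.trans ?_
    rw [ContinuousLinearMap.det, ← LinearMap.det_toMatrix (bas V)]
    congr 1
    ext i j
    simp [LinearMap.toMatrix_apply, aux_cob_apply]
  rw [← h2]
  exact h1

theorem top_lmap_equiv (e : V ≃L[ℝ] V') :
    ∃ κ : ℝ, κ ≠ 0 ∧ ∀ a, top (lmap (e : V →L[ℝ] V') a) = κ * top a := by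
  have hd : Module.finrank ℝ V = Module.finrank ℝ V' := e.toLinearEquiv.finrank_eq
  have h1 := aux_top_unique (f := fun a => top (lmap (e : V →L[ℝ] V') a))
    ⟨fun x y => by rw [map_add, map_add], fun c x => by rw [map_smul, map_smul]⟩
    (fun k hk b hb => aux_top_deg (lmap_mem_deg _ hb) (by omega))
  refine ⟨_, fun h0 => ?_, h1⟩
  have h2 := h1 (lmap (e.symm : V' →L[ℝ] V) (mon V Finset.univ))
  rw [h0, zero_mul, ← lmap_comp, ContinuousLinearEquiv.coe_symm_comp_coe, lmap_id,
    aux_top_mon] at h2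
  exact one_ne_zero h2

theorem top_fibre : ∃ κ : ℝ, κ ≠ 0 ∧ ∀ a : Lam (ℝ × V),
    top (lmap (ContinuousLinearMap.inr ℝ ℝ V) (ctr ((1 : ℝ), (0 : V)) a)) = κ * top a := by
  have hd : Module.finrank ℝ (ℝ × V) = 1 + Module.finrank ℝ V := by simp
  have h1 := aux_top_unique
    (f := fun a => top (lmap (ContinuousLinearMap.inr ℝ ℝ V) (ctr ((1 : ℝ), (0 : V)) a)))
    ⟨fun x y => by rw [map_add, map_add, map_add], fun c x => by rw [map_smul, map_smul, map_smul]⟩
    (fun k hk b hb => by
      obtain ⟨h2, h3⟩ := aux_ctr_deg ((1 : ℝ), (0 : V)) hb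
      rcases Nat.eq_zero_or_pos k with h | h
      · rw [h3 h, map_zero, map_zero]
      · exact aux_top_deg (lmap_mem_deg _ h2) (by omega))
  refine ⟨_, fun h0 => ?_, h1⟩
  have h2 := h1 (io (ContinuousLinearMap.fst ℝ ℝ V) *
    lmap (ContinuousLinearMap.snd ℝ ℝ V) (mon V Finset.univ))
  have h3 : (ContinuousLinearMap.snd ℝ ℝ V).comp (ContinuousLinearMap.inr ℝ ℝ V) =
      ContinuousLinearMap.id ℝ V := by
    ext v
    simp
  rw [h0, zero_mul, ctr_io_mul, ctr_lmap, ContinuousLinearMap.coe_snd', ContinuousLinearMap.coe_fst',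
    map_zero, _root_.zero_apply, map_zero, mul_zero, sub_zero, one_smul, ← lmap_comp,
    h3, lmap_id, aux_top_mon] at h2
  exact one_ne_zero h2

theorem top_prod_ne {N : ℕ} (hN : N = Module.finrank ℝ V) (θ : Fin N → V →L[ℝ] ℝ)
    (hθ : LinearIndependent ℝ θ) : top (List.ofFn fun i => io (θ i)).prod ≠ 0 := by
  subst hN
  rw [aux_top_prod]
  intro h0
  obtain ⟨c, hc, h1⟩ := Matrix.exists_vecMul_eq_zero_iff.2 h0
  refine hc (funext (Fintype.linearIndependent_iff.1 hθ c ?_))
  rw [← aux_sum_cob (∑ i, c i • θ i)]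
  refine Finset.sum_eq_zero fun j _ => ?_
  have h2 := congrFun h1 j
  simp only [Matrix.vecMul, dotProduct, Matrix.of_apply, Pi.zero_apply] at h2
  simp only [_root_.sum_apply, _root_.smul_apply, smul_eq_mul, h2,
    zero_smul]

theorem aux_add_pow {x T : Lam V} (hc : ∀ y, Commute x y) (hx : x * x = 0) (m : ℕ) :
    (x + T) ^ (m + 1) = T ^ (m + 1) + ((m : ℝ) + 1) • (x * T ^ m) := by
  induction m with
  | zero => simp [add_comm]
  | succ m ih =>
    have h1 : x * T ^ m * x = 0 := by rw [(hc _).eq, mul_assoc, hx, mul_zero]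
    rw [pow_succ, ih, add_mul, mul_add, mul_add, smul_mul_assoc, smul_mul_assoc, h1, smul_zero,
      ← pow_succ, ← (hc _).eq, mul_assoc, ← pow_succ]
    push_cast
    module

theorem aux_sum_pow {N : ℕ} (x : Fin N → Lam V) (hc : ∀ i y, Commute (x i) y)
    (hx : ∀ i, x i * x i = 0) :
    (∑ i, x i) ^ N = (N.factorial : ℝ) • (List.ofFn x).prod ∧ (∑ i, x i) ^ (N + 1) = 0 := by
  induction N with
  | zero => simp
  | succ N ih =>
    obtain ⟨h1, h2⟩ := ih (fun i => x i.succ) (fun i => hc _) fun i => hx _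
    rw [Fin.sum_univ_succ, aux_add_pow (hc 0) (hx 0), aux_add_pow (hc 0) (hx 0),
      pow_succ _ (N + 1), h2, h1, List.ofFn_succ, List.prod_cons, Nat.factorial_succ]
    simp [smul_smul]

/-- Top power of a sum of products of two one-forms. -/
theorem sum_pow {N : ℕ} (a b : Fin N → V →L[ℝ] ℝ) :
    (∑ i, io (a i) * io (b i)) ^ N =
      (N.factorial : ℝ) • (List.ofFn fun i => io (a i) * io (b i)).prod := by
  exact (aux_sum_pow (fun i => io (a i) * io (b i)) (fun i y => aux_commute _ _ y) fun i => by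
    rw [mul_assoc, ← mul_assoc (io (b i)), io_anti (b i), neg_mul, mul_assoc, io_sq, mul_zero,
      neg_zero, mul_zero]).1

theorem aux_top_list (l : List (V →L[ℝ] ℝ)) (hl : l.length = Module.finrank ℝ V)
    (h : ∀ v, (∀ θ ∈ l, θ v = 0) → v = 0) : top (l.map io).prod ≠ 0 := by
  obtain ⟨θ, rfl⟩ : ∃ θ : Fin (Module.finrank ℝ V) → V →L[ℝ] ℝ, l = List.ofFn θ :=
    ⟨fun i => l.get (i.cast hl.symm), by rw [← List.ofFn_congr hl, List.ofFn_get]⟩
  rw [List.map_ofFn]
  refine (aux_top_prod θ).trans_ne fun h0 => ?_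
  obtain ⟨c, hc, h1⟩ := Matrix.exists_mulVec_eq_zero_iff.2 h0
  refine hc (funext (Fintype.linearIndependent_iff.1 (bas V).linearIndependent c (h _ ?_)))
  intro φ hφ
  obtain ⟨i, rfl⟩ := List.mem_ofFn.1 hφ
  have h2 := congrFun h1 i
  simp only [Matrix.mulVec, dotProduct, Matrix.of_apply, Pi.zero_apply] at h2
  simp only [map_sum, map_smul, smul_eq_mul, mul_comm (c _), h2]

theorem aux_list {N : ℕ} (a b : Fin N → V →L[ℝ] ℝ) : ∃ l : List (V →L[ℝ] ℝ), l.length = 2 * N ∧
    (l.map io).prod = (List.ofFn fun i => io (a i) * io (b i)).prod ∧ ∀ i, a i ∈ l ∧ b i ∈ l := by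
  induction N with
  | zero => exact ⟨[], rfl, by simp, fun i => i.elim0⟩
  | succ N ih =>
    obtain ⟨l, h1, h2, h3⟩ := ih (fun i => a i.succ) fun i => b i.succ
    refine ⟨a 0 :: b 0 :: l, by simp [h1, Nat.mul_succ], ?_, fun i => ?_⟩
    · rw [List.map_cons, List.map_cons, List.prod_cons, List.prod_cons, h2, List.ofFn_succ,
        List.prod_cons, mul_assoc]
    · refine Fin.cases (by simp) (fun j => ?_) i
      simp [(h3 j).1, (h3 j).2]

/-- The top power of a nondegenerate two-form given in Darboux form does not vanish. -/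
theorem top_sum_pow_ne {N : ℕ} (hN : Module.finrank ℝ V = 2 * N) (a b : Fin N → V →L[ℝ] ℝ)
    (h : ∀ v, (∀ i, a i v = 0) → (∀ i, b i v = 0) → v = 0) :
    top ((∑ i, io (a i) * io (b i)) ^ N) ≠ 0 := by
  rw [sum_pow, map_smul, smul_eq_mul]
  refine mul_ne_zero (Nat.cast_ne_zero.2 N.factorial_ne_zero) ?_
  obtain ⟨l, h1, h2, h3⟩ := aux_list a b
  rw [← h2]
  exact aux_top_list l (h1.trans hN.symm) fun v hv =>
    h v (fun i => hv _ (h3 i).1) fun i => hv _ (h3 i).2

end Lam

end Pool.Agent.Work.MP_8c604c_gt
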