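import Mathlib
import Pool.Agent.Work.MP_8c604c_gt.T.OutS

-- merged part: Pool.Agent.Work.MP_8c604c_gt.Defs
section
/-!
Statement layer for MP_8c604c_gt (Blaschke conjecture for complex projective space).
A Riemannian metric on `CP^n` is written upstairs, on `E n` minus the origin.
-/

open scoped ContDiff LinearAlgebra.Projectivization

noncomputable section
namespace Pool.Agent.Work.MP_8c604c_gt

/-- `C^(n+1)` with its Hermitian structure. -/
abbrev E (n : ℕ) : Type := EuclideanSpace ℂ (Fin (n + 1))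

/-- Families of real bilinear forms on `E n`. -/
abbrev Met (n : ℕ) : Type := E n → E n →L[ℝ] E n →L[ℝ] ℝ

variable {n : ℕ}

/-- `g` is the pull-back to `E n` minus `0` of a smooth Riemannian metric on `CP^n`. -/
structure IsMetric (g : Met n) : Prop where
  smooth : ContDiffOn ℝ ∞ g {0}ᶜ
  symm : ∀ z u w, z ≠ 0 → g z u w = g z w u
  inv : ∀ (c : ℂ) z u w, c ≠ 0 → z ≠ 0 → g (c • z) (c • u) (c • w) = g z u w
  vert : ∀ (c : ℂ) z w, z ≠ 0 → g z (c • z) w = 0
  pos : ∀ z u, z ≠ 0 → (∀ c : ℂ, u ≠ c • z) → 0 < g z u u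

/-- `z` is a smooth lift of a unit speed geodesic: Euler-Lagrange equation of the energy. -/
structure IsUnitGeodesic (g : Met n) (z : ℝ → E n) : Prop where
  smooth : ContDiff ℝ ∞ z
  ne : ∀ t, z t ≠ 0
  el : ∀ t η, HasDerivAt (fun s => g (z s) (deriv z s) η)
    (1 / 2 * fderiv ℝ g (z t) η (deriv z t) (deriv z t)) t
  unit : ∀ t, g (z t) (deriv z t) (deriv z t) = 1

/-- Length of the projection of `c` restricted to `[0, 1]`. -/
def len (g : Met n) (c : ℝ → E n) : ℝ :=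
  ∫ t in (0 : ℝ)..1, √(g (c t) (deriv c t) (deriv c t))

/-- `c` is a `C^1` path in `E n` minus `0` whose projection joins `[y]` to `[y']`. -/
structure Joins (c : ℝ → E n) (y y' : E n) : Prop where
  smooth : ContDiff ℝ 1 c
  ne : ∀ s, c s ≠ 0
  start : c 0 = y
  stop : ∃ a : ℂ, c 1 = a • y'

/-- The Fubini-Study metric (sectional curvature between 1 and 4), written upstairs. -/
def fs (z u w : E n) : ℝ :=
  (‖z‖ ^ 2 * (inner ℂ u w).re - (inner ℂ u z * inner ℂ z w).re) / ‖z‖ ^ 4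

/-- `Ψ` is a smooth map of `CP^n` with `Ψ^* g = c * g_FS`: it has such smooth local lifts. -/
def PullsBack (g : Met n) (Ψ : ℙ ℂ (E n) → ℙ ℂ (E n)) (c : ℝ) : Prop :=
  ∀ z₀ : E n, z₀ ≠ 0 → ∃ U : Set (E n), IsOpen U ∧ z₀ ∈ U ∧ ∃ F : E n → E n,
    ContDiffOn ℝ ∞ F U ∧ ∀ z ∈ U, ∃ (hz : z ≠ 0) (hF : F z ≠ 0),
      Ψ (Projectivization.mk ℂ z hz) = Projectivization.mk ℂ (F z) hF ∧
      ∀ u w, g (F z) (fderiv ℝ F z u) (fderiv ℝ F z w) = c * fs z u w

end Pool.Agent.Work.MP_8c604c_gt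
end
end

-- merged part: Pool.Agent.Work.MP_8c604c_gt.Base
section
/-!
Basic objects: vertical coordinate, horizontal projection, the auxiliary metric `GG`, the open set
`OO`, the group action `act`, the geodesic flow structure `Geo`, the unit speed flow `psi`,
Jacobi fields, the Blaschke hypotheses `Bl`.
-/

set_option maxSynthPendingDepth 3
set_option linter.unusedSectionVars false

open Set Filter Topology MeasureTheory
open scoped ContDiff

noncomputable section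
namespace Pool.Agent.Work.MP_8c604c_gt

variable {n : ℕ}

/-- Phase space upstairs. -/
abbrev VV (n : ℕ) : Type := E n × E n

/-- Vertical coordinate `<z,u>/|z|^2` as a real linear map in `u`. -/
def nuL (z : E n) : E n →L[ℝ] ℂ := ((‖z‖ ^ 2)⁻¹ : ℝ) • (innerSL ℂ z).restrictScalars ℝ

/-- Vertical coordinate. -/
def nu (z u : E n) : ℂ := nuL z u

/-- Horizontal projection as a real linear map. -/
def horL (z : E n) : E n →L[ℝ] E n :=
  ContinuousLinearMap.id ℝ (E n) - ((ContinuousLinearMap.lsmul ℝ ℂ).flip z).comp (nuL z)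

/-- Horizontal projection. -/
def hor (z u : E n) : E n := horL z u

/-- The connection form `Im nu`. -/
def thL (z : E n) : E n →L[ℝ] ℝ := Complex.imCLM.comp (nuL z)

/-- The form `Re nu = d log |z|`. -/
def rhL (z : E n) : E n →L[ℝ] ℝ := Complex.reCLM.comp (nuL z)

/-- Positive definite completion of `g`. -/
def GG (g : Met n) : Met n := fun z =>
  g z + (rhL z).smulRight (rhL z) + (thL z).smulRight (thL z)

/-- Gram determinant in a Euclidean orthonormal basis. -/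
def bdet (B : E n →L[ℝ] E n →L[ℝ] ℝ) : ℝ :=
  (Matrix.of fun i j => B (stdOrthonormalBasis ℝ (E n) i) (stdOrthonormalBasis ℝ (E n) j)).det

/-- Determinant of the completed metric. -/
def detG (g : Met n) (z : E n) : ℝ := bdet (GG g z)

/-- Pairs with non-vertical second component. -/
def OO (n : ℕ) : Set (VV n) := {x | x.1 ≠ 0 ∧ ∀ c : ℂ, x.2 ≠ c • x.1}

/-- The five-dimensional group acting on `OO`, with quotient the unit tangent bundle. -/
def act (l : ℂ) (m : ℝ) (c : ℂ) (x : VV n) : VV n := (l • x.1, l • (m • x.2 + c • x.1))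

/-- Speed. -/
def spd (g : Met n) (x : VV n) : ℝ := √(g x.1 x.2 x.2)

/-- Unit horizontal velocity. -/
def vel (g : Met n) (x : VV n) : E n := (spd g x)⁻¹ • hor x.1 x.2

/-- The Lagrangian. -/
def Lg (g : Met n) (p : VV n) : ℝ := 1 / 2 * g p.1 p.2 p.2

/-- Hessian of the Lagrangian. -/
def D2 (g : Met n) (p a b : VV n) : ℝ := fderiv ℝ (fderiv ℝ (Lg g)) p a b

/-- The directions `c z + a w` of `E n` that do not move the geodesic. -/
def Bs (x : VV n) : Submodule ℝ (E n) := Submodule.span ℝ {x.1, Complex.I • x.1, x.2}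

/-- Tangent space of the orbits of `act`. -/
def Bdir (x : VV n) : Submodule ℝ (VV n) :=
  Submodule.span ℝ {x, Complex.I • x, (0, x.1), (0, Complex.I • x.1), (0, x.2)}

/-- The liftable geodesic flow upstairs. -/
structure Geo (g : Met n) where
  φ : ℝ → VV n → VV n
  smooth : ContDiffOn ℝ ∞ (fun p : ℝ × VV n => φ p.1 p.2) {p | p.2.1 ≠ 0}
  zero : ∀ x, x.1 ≠ 0 → φ 0 x = x
  add : ∀ s t x, x.1 ≠ 0 → φ (s + t) x = φ s (φ t x)
  norm_fst : ∀ t x, x.1 ≠ 0 → ‖(φ t x).1‖ = ‖x.1‖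
  nu_eq : ∀ t x, x.1 ≠ 0 → nu (φ t x).1 (φ t x).2 = nu x.1 x.2
  energy : ∀ t x, x.1 ≠ 0 → g (φ t x).1 (φ t x).2 (φ t x).2 = g x.1 x.2 x.2
  deriv_fst : ∀ t x, x.1 ≠ 0 → HasDerivAt (fun s => (φ s x).1) (hor (φ t x).1 (φ t x).2) t
  el : ∀ t x η, x.1 ≠ 0 → HasDerivAt (fun s => g (φ s x).1 (φ s x).2 η)
    (1 / 2 * fderiv ℝ g (φ t x).1 η (hor (φ t x).1 (φ t x).2) (hor (φ t x).1 (φ t x).2)) t
  smul : ∀ (c : ℂ) t x, c ≠ 0 → x.1 ≠ 0 → φ t (c • x) = c • φ t x
  shift : ∀ (c : ℂ) t x, x.1 ≠ 0 →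
    φ t (x.1, x.2 + c • x.1) = ((φ t x).1, (φ t x).2 + c • (φ t x).1)
  scale : ∀ (r : ℝ) t x, x.1 ≠ 0 → φ t (x.1, r • x.2) = ((φ (r * t) x).1, r • (φ (r * t) x).2)
  uniq : ∀ (c : ℝ → E n) (a b t₀ : ℝ), t₀ ∈ Ioo a b → ContDiffOn ℝ ∞ c (Ioo a b) →
    (∀ t ∈ Ioo a b, c t ≠ 0) →
    (∀ t ∈ Ioo a b, ∀ η, HasDerivAt (fun s => g (c s) (deriv c s) η)
      (1 / 2 * fderiv ℝ g (c t) η (deriv c t) (deriv c t)) t) →
    ∀ t ∈ Ioo a b, ∃ l : ℂ, l ≠ 0 ∧ c t = l • (φ (t - t₀) (c t₀, deriv c t₀)).1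

namespace Geo
variable {g : Met n} (G : Geo g)

/-- Unit speed flow on `OO`. -/
def psi (t : ℝ) (x : VV n) : VV n := G.φ (t / spd g x) x

/-- Foot point of the unit speed flow. -/
def Z (t : ℝ) (x : VV n) : E n := (G.psi t x).1

/-- Exponential map at `q`. -/
def ex (q u : E n) : E n := (G.φ 1 (q, u)).1

/-- Jacobi fields (not projected). -/
def JJ (t : ℝ) (x : VV n) : VV n →L[ℝ] E n := fderiv ℝ (G.Z t) x

/-- Their ordinary time derivatives. -/
def JD (t : ℝ) (x : VV n) : VV n →L[ℝ] E n := fderiv ℝ (fun y => vel g (G.psi t y)) x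

/-- Horizontal Jacobi fields. -/
def JH (t : ℝ) (x : VV n) : VV n →L[ℝ] E n := (horL (G.Z t x)).comp (G.JJ t x)

/-- Variation of the momentum. -/
def PP (t : ℝ) (x : VV n) : VV n →L[ℝ] E n →L[ℝ] ℝ :=
  fderiv ℝ (fun y => g (G.Z t y) (vel g (G.psi t y))) x

/-- The exponential map completed by the vertical coordinate. -/
def Ex (q u : E n) : E n := (Complex.exp (nu q u) / (‖q‖ : ℂ)) • G.ex q u

/-- Riemannian Jacobian of the exponential map. -/
def jac (q u : E n) : ℝ :=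
  |(fderiv ℝ (G.Ex q) u).det| * √(detG g (G.Ex q u)) / √(detG g q)

/-- Volume density in geodesic polar coordinates. -/
def th (x : VV n) (τ : ℝ) : ℝ := τ ^ (2 * n - 1) * G.jac x.1 (τ • vel g x)

/-- `K` spans the Jacobi fields vanishing at `0` and at `π/2`. -/
structure IsK (x : VV n) (K : E n) : Prop where
  hor : nu x.1 K = 0
  perp : g x.1 K x.2 = 0
  unit : g x.1 K K = 1
  ker : ∀ u, G.JH (Real.pi / 2) x (0, u) = 0 ↔ ∃ a : ℝ, u - a • K ∈ Bs x

end Geo

/-- The contact form. -/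
def al (g : Met n) (x : VV n) : VV n →L[ℝ] ℝ :=
  (g x.1 (vel g x)).comp (ContinuousLinearMap.fst ℝ (E n) (E n))

/-- Its exterior derivative. -/
def om (g : Met n) (x δ₁ δ₂ : VV n) : ℝ :=
  fderiv ℝ (fun y : VV n => g y.1 (vel g y)) x δ₁ δ₂.1 -
    fderiv ℝ (fun y : VV n => g y.1 (vel g y)) x δ₂ δ₁.1

/-- The model density of `CP^n`. -/
def th0 (n : ℕ) (τ : ℝ) : ℝ := Real.sin τ ^ (2 * n - 2) * (Real.sin (2 * τ) / 2)

/-- The weight: derivative of the smooth step function. -/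
def wt (r : ℝ) : ℝ := deriv Real.smoothTransition r

/-- `2π` times the volume of `CP^n`. -/
def vol (g : Met n) : ℝ := ∫ y : E n, √(detG g y) * wt (Real.log ‖y‖)

/-- The Fubini-Study metric as a family of bilinear forms. -/
def fsM (n : ℕ) : Met n := fun z =>
  ((‖z‖ ^ 2)⁻¹ : ℝ) • ((innerSL ℝ (E := E n)).bilinearComp (horL z) (horL z))

/-- The Blaschke hypotheses with period `π`. -/
structure Bl (g : Met n) (G : Geo g) : Prop where
  two : 2 ≤ n
  met : IsMetric g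
  per : ∀ x ∈ OO n, ∀ t, ∃ c : ℂ, G.Z (t + Real.pi) x = c • G.Z t x
  min : ∀ x ∈ OO n, ∀ t ∈ Icc 0 (Real.pi / 2), ∀ c, Joins c x.1 (G.Z t x) → t ≤ len g c

/-- Equivariance under `act`. -/
def Eqv (p : VV n → E n) : Prop :=
  ∀ l m c x, l ≠ 0 → 0 < m → x ∈ OO n → p (act l m c x) = l • p x

/-- Invariance under `act`. -/
def Inv {α : Type} (f : VV n → α) : Prop :=
  ∀ l m c x, l ≠ 0 → 0 < m → x ∈ OO n → f (act l m c x) = f x

/-! ### Elementary lemmas -/

theorem two_le_infty : (2 : WithTop ℕ∞) ≤ ∞ := by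
  exact WithTop.coe_le_coe.2 (le_top : (2 : ℕ∞) ≤ ⊤)

theorem finrank_E : Module.finrank ℝ (E n) = 2 * n + 2 := by
  rw [← Module.finrank_mul_finrank ℝ ℂ (E n), Complex.finrank_real_complex, finrank_euclideanSpace_fin]
  ring

theorem inner_re (u w : E n) : inner ℝ u w = (inner ℂ u w).re := by
  simp [PiLp.inner_apply, Complex.inner]

theorem nu_def (z u : E n) : nu z u = inner ℂ z u / ((‖z‖ ^ 2 : ℝ) : ℂ) := by
  simp [nu, nuL, div_eq_inv_mul]

theorem hor_def (z u : E n) : hor z u = u - nu z u • z := by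
  rfl

theorem nuL_apply (z u : E n) : nuL z u = nu z u := rfl
theorem horL_apply (z u : E n) : horL z u = hor z u := rfl
theorem thL_apply (z u : E n) : thL z u = (nu z u).im := rfl
theorem rhL_apply (z u : E n) : rhL z u = (nu z u).re := rfl

theorem GG_apply (g : Met n) (z u w : E n) :
    GG g z u w = g z u w + (nu z u).re * (nu z w).re + (nu z u).im * (nu z w).im := by
  rfl

theorem nu_add (z u w : E n) : nu z (u + w) = nu z u + nu z w := by
  exact map_add (nuL z) u w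

theorem nu_smul (c : ℂ) (z u : E n) : nu z (c • u) = c * nu z u := by
  rw [nu_def, nu_def, inner_smul_right, mul_div_assoc]

theorem nu_self {z : E n} (hz : z ≠ 0) : nu z z = 1 := by
  have : ((‖z‖ ^ 2 : ℝ) : ℂ) ≠ 0 := by exact_mod_cast pow_ne_zero 2 (norm_ne_zero_iff.2 hz)
  rw [nu_def, inner_self_eq_norm_sq_to_K, div_eq_one_iff_eq this]
  simp

theorem nu_smul_smul {c : ℂ} (hc : c ≠ 0) (z u : E n) : nu (c • z) (c • u) = nu z u := by
  rw [nu_def, nu_def, inner_smul_right, inner_smul_left, norm_smul, mul_pow, ← mul_assoc,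
    Complex.mul_conj, Complex.normSq_eq_norm_sq]
  have : ((‖c‖ ^ 2 : ℝ) : ℂ) ≠ 0 := by exact_mod_cast pow_ne_zero 2 (norm_ne_zero_iff.2 hc)
  rw [Complex.ofReal_mul, mul_div_mul_left _ _ this]

theorem nu_hor {z : E n} (hz : z ≠ 0) (u : E n) : nu z (hor z u) = 0 := by
  rw [hor_def, sub_eq_add_neg, ← neg_smul, nu_add, nu_smul, nu_self hz]
  ring

theorem hor_smul (c : ℂ) (z u : E n) : hor z (c • u) = c • hor z u := by
  rw [hor_def, hor_def, nu_smul, smul_sub, mul_smul]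

theorem hor_smul_left {c : ℂ} (hc : c ≠ 0) (z u : E n) : hor (c • z) u = hor z u := by
  have h := nu_smul_smul hc z u
  rw [nu_smul] at h
  rw [hor_def, hor_def, smul_smul, mul_comm, h]

theorem hor_of_nu {z u : E n} (h : nu z u = 0) : hor z u = u := by
  rw [hor_def, h, zero_smul, sub_zero]

theorem hor_eq_zero_iff {z : E n} (hz : z ≠ 0) (u : E n) : hor z u = 0 ↔ ∃ c : ℂ, u = c • z := by
  refine ⟨fun h => ⟨nu z u, sub_eq_zero.1 h⟩, ?_⟩
  rintro ⟨c, rfl⟩
  rw [hor_def, nu_smul, nu_self hz, mul_one, sub_self]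

theorem contDiffOn_nuL : ContDiffOn ℝ ∞ (nuL : E n → E n →L[ℝ] ℂ) {0}ᶜ := by
  have h1 : ContDiffOn ℝ ∞ (fun z : E n => (‖z‖ ^ 2)⁻¹) {0}ᶜ :=
    (contDiff_norm_sq ℂ).contDiffOn.inv fun z hz => pow_ne_zero 2 (norm_ne_zero_iff.2 hz)
  refine h1.smul (ContDiff.contDiffOn ?_)
  refine contDiff_clm_apply_iff.2 fun u => ?_
  exact contDiff_id.inner ℂ contDiff_const

theorem contDiffOn_horL : ContDiffOn ℝ ∞ (horL : E n → E n →L[ℝ] E n) {0}ᶜ := by
  refine contDiffOn_clm_apply.2 fun u => ?_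
  have h1 : ContDiffOn ℝ ∞ (fun z : E n => nuL z u) {0}ᶜ := contDiffOn_nuL.clm_apply contDiffOn_const
  exact contDiffOn_const.sub (h1.smul contDiffOn_id)

theorem contDiffOn_thL : ContDiffOn ℝ ∞ (thL : E n → E n →L[ℝ] ℝ) {0}ᶜ := by
  exact contDiffOn_const.clm_comp contDiffOn_nuL

theorem contDiffOn_rhL : ContDiffOn ℝ ∞ (rhL : E n → E n →L[ℝ] ℝ) {0}ᶜ := by
  exact contDiffOn_const.clm_comp contDiffOn_nuL

theorem hasFDerivAt_log_norm {z : E n} (hz : z ≠ 0) :
    HasFDerivAt (fun y : E n => Real.log ‖y‖) (rhL z) z := by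
  have h0 : ‖z‖ ^ 2 ≠ 0 := pow_ne_zero 2 (norm_ne_zero_iff.2 hz)
  have h1 := ((hasStrictFDerivAt_norm_sq z).hasFDerivAt.log h0).const_mul (1 / 2 : ℝ)
  refine (h1.congr_fderiv ?_).congr_of_eventuallyEq (Eventually.of_forall fun y => ?_)
  · ext u
    rw [rhL_apply, nu_def, Complex.div_ofReal_re]
    simp only [smul_apply, smul_eq_mul, innerSL_apply_apply, nsmul_eq_mul, Nat.cast_ofNat]
    rw [inner_re]
    field_simp
  · simp

theorem mem_OO {x : VV n} : x ∈ OO n ↔ x.1 ≠ 0 ∧ hor x.1 x.2 ≠ 0 := by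
  refine and_congr_right fun hz => ?_
  rw [Ne, hor_eq_zero_iff hz, not_exists]

theorem isOpen_OO : IsOpen (OO n) := by
  have : OO n = {x : VV n | x.1 ≠ 0} ∩ (fun x : VV n => hor x.1 x.2) ⁻¹' {0}ᶜ :=
    Set.ext fun x => mem_OO
  rw [this]
  refine ContinuousOn.isOpen_inter_preimage ?_ (isOpen_ne_fun continuous_fst continuous_const)
    isOpen_compl_singleton
  exact (contDiffOn_horL.continuousOn.comp continuousOn_fst fun _ hx => hx).clm_apply
    continuousOn_snd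

theorem csmul_eq (c : ℂ) (u : E n) : c • u = c.re • u + c.im • (Complex.I • u) := by
  conv_lhs => rw [← Complex.re_add_im c]
  rw [add_smul, mul_smul, Complex.coe_smul, Complex.coe_smul]

theorem indep_OO {x : VV n} (hx : x ∈ OO n) {c a : ℂ} (h : c • x.1 + a • x.2 = 0) :
    c = 0 ∧ a = 0 := by
  have ha : a = 0 := by
    by_contra ha
    refine hx.2 (-(a⁻¹ * c)) (smul_right_injective _ ha ?_)
    simp only
    rw [smul_smul, mul_neg, ← mul_assoc, mul_inv_cancel₀ ha, one_mul, neg_smul]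
    exact eq_neg_of_add_eq_zero_right h
  rw [ha, zero_smul, add_zero] at h
  exact ⟨(smul_eq_zero.1 h).resolve_right hx.1, ha⟩

theorem isPreconnected_OO (hn : 1 ≤ n) : IsPreconnected (OO n) := by
  have hr : (1 : Cardinal) < Module.rank ℝ (E n) := by
    rw [← Module.finrank_eq_rank, finrank_E]; exact_mod_cast (by omega : 1 < 2 * n + 2)
  have fib : ∀ z : E n, z ≠ 0 → IsPreconnected {w | (z, w) ∈ OO n} := fun z hz => by
    let K : Submodule ℝ (E n) := LinearMap.ker (nuL z : E n →ₗ[ℝ] ℂ)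
    have hK : (1 : Cardinal) < Module.rank ℝ K := by
      have h1 := LinearMap.finrank_range_add_finrank_ker (nuL z : E n →ₗ[ℝ] ℂ)
      have h2 := Submodule.finrank_le (LinearMap.range (nuL z : E n →ₗ[ℝ] ℂ))
      rw [finrank_E] at h1
      rw [Complex.finrank_real_complex] at h2
      rw [← Module.finrank_eq_rank]
      exact_mod_cast (by change 1 < Module.finrank ℝ (LinearMap.ker _); omega)
    have h3 := ((isConnected_compl_singleton_of_one_lt_rank hK 0).isPreconnected.prod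
      (isPreconnected_univ (α := ℂ))).image (fun p : K × ℂ => (p.1 : E n) + p.2 • z)
      (by fun_prop)
    convert h3 using 1
    ext w
    constructor
    · intro hw
      exact ⟨(⟨hor z w, nu_hor hz w⟩, nu z w), ⟨fun h => (mem_OO.1 hw).2 (congrArg Subtype.val h),
        trivial⟩, by simp [hor_def]⟩
    · rintro ⟨⟨k, c⟩, ⟨hk, -⟩, rfl⟩
      refine mem_OO.2 ⟨hz, ?_⟩
      have e : hor z ((k : E n) + c • z) = k := by
        rw [← horL_apply, map_add, horL_apply, horL_apply, hor_of_nu k.2,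
          (hor_eq_zero_iff hz _).2 ⟨c, rfl⟩, add_zero]
      rw [e]
      exact fun h => hk (Subtype.ext h)
  have sw : ∀ z w : E n, (z, w) ∈ OO n → (w, z) ∈ OO n := fun z w h =>
    ⟨fun h0 => h.2 0 (by simpa using h0), fun c hc => by
      have := indep_OO h (c := 1) (a := -c) (by simp only [one_smul, neg_smul]; exact add_neg_eq_zero.2 hc)
      exact one_ne_zero this.1⟩
  have f1 : ∀ z : E n, z ≠ 0 → IsPreconnected {x ∈ OO n | x.1 = z} := fun z hz => by
    convert (fib z hz).image (fun w => (z, w)) (by fun_prop) using 1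
    ext ⟨a, b⟩
    constructor
    · rintro ⟨h, rfl⟩; exact ⟨b, h, rfl⟩
    · rintro ⟨w, h, e⟩; cases e; exact ⟨h, rfl⟩
  have f2 : ∀ z : E n, z ≠ 0 → IsPreconnected {x ∈ OO n | x.2 = z} := fun z hz => by
    convert (fib z hz).image (fun w => (w, z)) (by fun_prop) using 1
    ext ⟨a, b⟩
    constructor
    · rintro ⟨h, rfl⟩; exact ⟨a, sw _ _ h, rfl⟩
    · rintro ⟨w, h, e⟩; cases e; exact ⟨sw _ _ h, rfl⟩
  refine isPreconnected_of_forall_pair fun x hx y hy => ?_
  obtain ⟨w, hw1, hw2⟩ : ∃ w, (x.1, w) ∈ OO n ∧ (y.1, w) ∈ OO n := by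
    by_cases h1 : (y.1, x.2) ∈ OO n
    · exact ⟨x.2, hx, h1⟩
    by_cases h2 : (x.1, y.2) ∈ OO n
    · exact ⟨y.2, h2, hy⟩
    obtain ⟨a, ha⟩ : ∃ a : ℂ, x.2 = a • y.1 := by
      by_contra hc; exact h1 ⟨hy.1, fun c h => hc ⟨c, h⟩⟩
    obtain ⟨b, hb⟩ : ∃ b : ℂ, y.2 = b • x.1 := by
      by_contra hc; exact h2 ⟨hx.1, fun c h => hc ⟨c, h⟩⟩
    refine ⟨x.2 + y.2, ⟨hx.1, fun c h => hx.2 (c - b) ?_⟩, ⟨hy.1, fun c h => hy.2 (c - a) ?_⟩⟩
    · rw [sub_smul, ← hb]; exact eq_sub_of_add_eq h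
    · rw [sub_smul, ← ha]; exact eq_sub_of_add_eq' h
  have hw : w ≠ 0 := (sw _ _ hw1).1
  refine ⟨({v ∈ OO n | v.1 = x.1} ∪ {v ∈ OO n | v.2 = w}) ∪ {v ∈ OO n | v.1 = y.1}, ?_,
    Or.inl (Or.inl ⟨hx, rfl⟩), Or.inr ⟨hy, rfl⟩, ?_⟩
  · rintro v ((h | h) | h) <;> exact h.1
  · exact IsPreconnected.union (y.1, w) (Or.inr ⟨hw2, rfl⟩) ⟨hw2, rfl⟩
      (IsPreconnected.union (x.1, w) ⟨hw1, rfl⟩ ⟨hw1, rfl⟩ (f1 _ hx.1) (f2 _ hw)) (f1 _ hy.1)

theorem act_mem {l : ℂ} {m : ℝ} (c : ℂ) {x : VV n} (hl : l ≠ 0) (hm : 0 < m) (hx : x ∈ OO n) :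
    act l m c x ∈ OO n := by
  refine ⟨smul_ne_zero hl hx.1, fun a h => hx.2 ((a - c) / m) ?_⟩
  have h1 : m • x.2 + c • x.1 = a • x.1 := by
    apply smul_right_injective _ hl
    simp only [act] at h ⊢
    rw [h, smul_comm]
  have hm' : (m : ℂ) ≠ 0 := by exact_mod_cast hm.ne'
  apply smul_right_injective _ hm'
  simp only
  rw [smul_smul, mul_div_cancel₀ _ hm', sub_smul, ← h1, Complex.coe_smul, add_sub_cancel_right]

/-- A compact slice meeting every orbit. -/
def slice (n : ℕ) : Set (VV n) := {x | ‖x.1‖ = 1 ∧ ‖x.2‖ = 1 ∧ nu x.1 x.2 = 0}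

theorem isCompact_slice : IsCompact (slice n) := by
  have hc : IsClosed (slice n) := by
    have : slice n = {x : VV n | ‖x.1‖ = 1} ∩ ({x | ‖x.2‖ = 1} ∩ {x | inner ℂ x.1 x.2 = (0 : ℂ)}) := by
      ext x
      refine and_congr_right fun h1 => and_congr_right fun _ => ?_
      rw [nu_def, h1]; simp
    rw [this]
    exact (isClosed_eq continuous_fst.norm continuous_const).inter
      ((isClosed_eq continuous_snd.norm continuous_const).inter
        (isClosed_eq (continuous_fst.inner continuous_snd) continuous_const))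
  refine ((isCompact_sphere (0 : E n) 1).prod (isCompact_sphere (0 : E n) 1)).of_isClosed_subset hc ?_
  exact fun x hx => ⟨by simpa using hx.1, by simpa using hx.2.1⟩

theorem slice_subset : slice n ⊆ OO n := by
  intro x hx
  have h1 : x.1 ≠ 0 := by rw [← norm_ne_zero_iff, hx.1]; exact one_ne_zero
  refine mem_OO.2 ⟨h1, ?_⟩
  rw [hor_of_nu hx.2.2, ← norm_ne_zero_iff, hx.2.1]
  exact one_ne_zero

theorem exists_slice {x : VV n} (hx : x ∈ OO n) :
    ∃ y ∈ slice n, ∃ (l m : ℝ) (c : ℂ), 0 < l ∧ 0 < m ∧ x = act (l : ℂ) m c y := by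
  obtain ⟨h1, h2⟩ := mem_OO.1 hx
  have n1 := norm_pos_iff.2 h1
  have n2 := norm_pos_iff.2 h2
  refine ⟨(‖x.1‖⁻¹ • x.1, ‖hor x.1 x.2‖⁻¹ • hor x.1 x.2), ⟨?_, ?_, ?_⟩, ‖x.1‖,
    ‖hor x.1 x.2‖ / ‖x.1‖, nu x.1 x.2, n1, div_pos n2 n1, ?_⟩
  · simp [norm_smul, n1.ne']
  · simp [norm_smul, n2.ne']
  · have := nu_hor h1 x.2
    rw [nu_def, div_eq_zero_iff] at this ⊢
    left
    rw [← Complex.coe_smul, ← Complex.coe_smul, inner_smul_left, inner_smul_right,
      this.resolve_right (by exact_mod_cast pow_ne_zero 2 n1.ne')]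
    simp
  · refine Prod.ext ?_ ?_
    · simp only [act]
      rw [Complex.coe_smul, smul_smul, mul_inv_cancel₀ n1.ne', one_smul]
    · simp only [act]
      rw [Complex.coe_smul, smul_add, smul_smul, smul_smul, smul_comm (nu x.1 x.2), smul_smul,
        mul_inv_cancel₀ n1.ne', one_smul,
        show ‖x.1‖ * (‖hor x.1 x.2‖ / ‖x.1‖) * ‖hor x.1 x.2‖⁻¹ = 1 by field_simp, one_smul, hor_def,
        sub_add_cancel]

theorem mem_Bs {x : VV n} {u : E n} : u ∈ Bs x ↔ ∃ (c : ℂ) (a : ℝ), u = c • x.1 + a • x.2 := by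
  rw [Bs, Submodule.mem_span_triple]
  constructor
  · rintro ⟨a, b, c, rfl⟩
    exact ⟨a + b * Complex.I, c, by rw [add_smul, mul_smul, Complex.coe_smul, Complex.coe_smul]⟩
  · rintro ⟨c, a, rfl⟩
    exact ⟨c.re, c.im, a, by rw [csmul_eq c]⟩

theorem mem_Bdir {x v : VV n} :
    v ∈ Bdir x ↔ ∃ (l c : ℂ) (a : ℝ), v = (l • x.1, l • x.2 + c • x.1 + a • x.2) := by
  constructor
  · intro hv
    induction hv using Submodule.span_induction with
    | mem y hy =>
      rcases hy with rfl | rfl | rfl | rfl | rfl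
      · exact ⟨1, 0, 0, by simp⟩
      · exact ⟨Complex.I, 0, 0, by simp [Prod.ext_iff]⟩
      · exact ⟨0, 1, 0, by simp⟩
      · exact ⟨0, Complex.I, 0, by simp⟩
      · exact ⟨0, 0, 1, by simp⟩
    | zero => exact ⟨0, 0, 0, by simp [Prod.ext_iff]⟩
    | add y z _ _ hy hz =>
      obtain ⟨l, c, a, rfl⟩ := hy
      obtain ⟨l', c', a', rfl⟩ := hz
      exact ⟨l + l', c + c', a + a', Prod.ext (by simp [add_smul]) (by simp only [add_smul, Prod.snd_add]; abel)⟩
    | smul r y _ hy =>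
      obtain ⟨l, c, a, rfl⟩ := hy
      exact ⟨r * l, r * c, r * a, Prod.ext (by simp [mul_smul]) (by simp [mul_smul])⟩
  · rintro ⟨l, c, a, rfl⟩
    have e : (l • x.1, l • x.2 + c • x.1 + a • x.2) = l.re • x + l.im • (Complex.I • x) +
        c.re • ((0 : E n), x.1) + c.im • ((0 : E n), Complex.I • x.1) + a • ((0 : E n), x.2) := by
      refine Prod.ext ?_ ?_
      · simp [csmul_eq l x.1]
      · simp only [Prod.snd_add, Prod.smul_snd, csmul_eq l x.2, csmul_eq c x.1]; abel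
    rw [e]
    refine add_mem (add_mem (add_mem (add_mem ?_ ?_) ?_) ?_) ?_ <;>
      exact Submodule.smul_mem _ _ (Submodule.subset_span (by simp))

theorem finrank_Bs {x : VV n} (hx : x ∈ OO n) : Module.finrank ℝ (Bs x) = 3 := by
  let f : (ℂ × ℝ) →ₗ[ℝ] E n :=
    { toFun := fun p => p.1 • x.1 + p.2 • x.2
      map_add' := fun p q => by simp only [Prod.fst_add, Prod.snd_add, add_smul]; abel
      map_smul' := fun r p => by simp [mul_smul] }
  have hr : Bs x = LinearMap.range f := Submodule.ext fun u => by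
    rw [mem_Bs]
    exact ⟨fun ⟨c, a, h⟩ => ⟨(c, a), h.symm⟩, fun ⟨p, h⟩ => ⟨p.1, p.2, h.symm⟩⟩
  have hi : Function.Injective f := by
    rw [injective_iff_map_eq_zero]
    rintro ⟨c, a⟩ h
    obtain ⟨h1, h2⟩ := indep_OO hx (c := c) (a := a) (by rw [Complex.coe_smul]; exact h)
    exact Prod.ext h1 (by exact_mod_cast h2)
  rw [hr, LinearMap.finrank_range_of_inj hi]
  simp

theorem finrank_Bdir {x : VV n} (hx : x ∈ OO n) : Module.finrank ℝ (Bdir x) = 5 := by
  let f : (ℂ × ℂ × ℝ) →ₗ[ℝ] VV n :=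
    { toFun := fun p => (p.1 • x.1, p.1 • x.2 + p.2.1 • x.1 + p.2.2 • x.2)
      map_add' := fun p q => Prod.ext (by simp [add_smul])
        (by simp only [Prod.fst_add, Prod.snd_add, add_smul]; abel)
      map_smul' := fun r p => Prod.ext (by simp [mul_smul]) (by simp [mul_smul]) }
  have hr : Bdir x = LinearMap.range f := Submodule.ext fun u => by
    rw [mem_Bdir]
    exact ⟨fun ⟨l, c, a, h⟩ => ⟨(l, c, a), h.symm⟩, fun ⟨p, h⟩ => ⟨p.1, p.2.1, p.2.2, h.symm⟩⟩
  have hi : Function.Injective f := by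
    rw [injective_iff_map_eq_zero]
    rintro ⟨l, c, a⟩ h
    have h0 : l = 0 := (smul_eq_zero.1 (congrArg Prod.fst h)).resolve_right hx.1
    subst h0
    obtain ⟨h1, h2⟩ := indep_OO hx (c := c) (a := a) (by
      rw [Complex.coe_smul]; simpa [f] using congrArg Prod.snd h)
    exact Prod.ext rfl (Prod.ext h1 (by exact_mod_cast h2))
  rw [hr, LinearMap.finrank_range_of_inj hi]
  simp

theorem bdet_comp (B : E n →L[ℝ] E n →L[ℝ] ℝ) (T : E n →L[ℝ] E n) :
    bdet (B.bilinearComp T T) = T.det ^ 2 * bdet B := by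
  set b := (stdOrthonormalBasis ℝ (E n)).toBasis with hb
  have e : ∀ C : E n →L[ℝ] E n →L[ℝ] ℝ, bdet C = (LinearMap.toMatrix₂ b b C.toLinearMap₁₂).det :=
    fun C => by
      unfold bdet; congr 1; ext i j; simp [hb]
  have e2 : (B.bilinearComp T T).toLinearMap₁₂ =
      B.toLinearMap₁₂.compl₁₂ (T : E n →ₗ[ℝ] E n) (T : E n →ₗ[ℝ] E n) := by
    ext u w; rfl
  rw [e, e, e2, LinearMap.toMatrix₂_compl₁₂ b b b b, Matrix.det_mul, Matrix.det_mul,
    Matrix.det_transpose, LinearMap.det_toMatrix]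
  change T.det * _ * T.det = _
  ring

theorem det_csmul (c : ℂ) : (c • ContinuousLinearMap.id ℝ (E n)).det = ‖c‖ ^ (2 * n + 2) := by
  have e : ((c • ContinuousLinearMap.id ℝ (E n) : E n →L[ℝ] E n) : E n →ₗ[ℝ] E n) =
      (c • (LinearMap.id : E n →ₗ[ℂ] E n)).restrictScalars ℝ := rfl
  rw [ContinuousLinearMap.det, e, LinearMap.det_restrictScalars, LinearMap.det_smul, LinearMap.det_id,
    mul_one, map_pow, Algebra.norm_complex_apply, Complex.normSq_eq_norm_sq, finrank_euclideanSpace_fin,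
    ← pow_mul]
  congr 1

namespace IsMetric
variable {g : Met n} (h : IsMetric g)
include h

theorem vert' (c : ℂ) {z : E n} (w : E n) (hz : z ≠ 0) : g z w (c • z) = 0 := by
  rw [h.symm z w _ hz, h.vert c z w hz]

theorem hor_left {z : E n} (hz : z ≠ 0) (u w : E n) : g z (hor z u) w = g z u w := by
  rw [hor_def, map_sub, sub_apply, h.vert _ z w hz, sub_zero]

theorem hor_right {z : E n} (hz : z ≠ 0) (u w : E n) : g z u (hor z w) = g z u w := by
  rw [hor_def, map_sub, h.vert' _ u hz, sub_zero]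

theorem nonneg {z : E n} (hz : z ≠ 0) (u : E n) : 0 ≤ g z u u := by
  by_cases hu : ∃ c : ℂ, u = c • z
  · obtain ⟨c, rfl⟩ := hu
    rw [h.vert c z _ hz]
  · exact (h.pos z u hz fun c hc => hu ⟨c, hc⟩).le

theorem hor_eq_zero {z u : E n} (hz : z ≠ 0) (hu : g z u u = 0) : hor z u = 0 := by
  rw [hor_eq_zero_iff hz]
  by_contra hc
  exact (h.pos z u hz fun c h' => hc ⟨c, h'⟩).ne' hu

theorem cauchy {z : E n} (hz : z ≠ 0) (u w : E n) : |g z u w| ≤ √(g z u u) * √(g z w w) := by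
  rw [← Real.sqrt_mul (h.nonneg hz u)]
  refine Real.abs_le_sqrt ?_
  have := discrim_le_zero (a := g z w w) (b := 2 * g z u w) (c := g z u u) fun t => by
    have h1 := h.nonneg hz (u + t • w)
    simp only [map_add, map_smul, add_apply, smul_apply, smul_eq_mul, h.symm z w u hz] at h1
    linarith
  rw [discrim] at this
  linarith

theorem contDiffAt {z : E n} (hz : z ≠ 0) : ContDiffAt ℝ ∞ g z := by
  exact h.smooth.contDiffAt (isOpen_compl_singleton.mem_nhds hz)

/-- Infinitesimal invariance. -/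
theorem fderiv_vert (c : ℂ) {z : E n} (hz : z ≠ 0) (u w : E n) :
    fderiv ℝ g z (c • z) u w = -g z (c • u) w - g z u (c • w) := by
  have hd : HasFDerivAt g (fderiv ℝ g z) z := ((h.contDiffAt hz).differentiableAt (by simp)).hasFDerivAt
  have l : ∀ v : E n, HasDerivAt (fun t : ℝ => (1 + (t : ℂ) * c) • v) (c • v) 0 := fun v => by
    have := (((Complex.ofRealCLM.hasDerivAt (x := (0 : ℝ))).mul_const c).const_add 1).smul_const v
    simpa using this
  have h1 := ((HasFDerivAt.comp_hasDerivAt_of_eq (0 : ℝ) hd (l z) (by simp)).clm_apply (l u)).clm_apply (l w)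
  have h2 : (fun t : ℝ => g ((1 + (t : ℂ) * c) • z) ((1 + (t : ℂ) * c) • u) ((1 + (t : ℂ) * c) • w))
      =ᶠ[𝓝 0] fun _ => g z u w := by
    have : ∀ᶠ t : ℝ in 𝓝 0, 1 + (t : ℂ) * c ≠ 0 :=
      ContinuousAt.eventually_ne (by fun_prop) (by simp)
    filter_upwards [this] with t ht using h.inv _ z u w ht hz
  have h3 := (h1.congr_of_eventuallyEq h2.symm).unique (hasDerivAt_const _ _)
  simp only [Function.comp_def, Complex.ofReal_zero, zero_mul, add_zero, one_smul, add_apply] at h3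
  linarith

/-- Derivative of the vanishing on vertical vectors. -/
theorem fderiv_vert_arg (c : ℂ) {z : E n} (hz : z ≠ 0) (a u : E n) :
    fderiv ℝ g z a u (c • z) = -g z u (c • a) := by
  have hd : HasFDerivAt g (fderiv ℝ g z) z := ((h.contDiffAt hz).differentiableAt (by simp)).hasFDerivAt
  have h1 := (hd.clm_apply (hasFDerivAt_const u z)).clm_apply ((hasFDerivAt_id z).const_smul c)
  have h2 : (fun y => g y u (c • y)) =ᶠ[𝓝 z] fun _ => 0 := by
    filter_upwards [isOpen_compl_singleton.mem_nhds hz] with y hy using h.vert' c u hy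
  have h3 := congrArg (fun L => L a)
    ((h1.congr_of_eventuallyEq h2.symm).unique (hasFDerivAt_const _ _))
  simp at h3
  linarith

theorem fderiv_symm {z : E n} (hz : z ≠ 0) (a u w : E n) :
    fderiv ℝ g z a u w = fderiv ℝ g z a w u := by
  have hd : HasFDerivAt g (fderiv ℝ g z) z := ((h.contDiffAt hz).differentiableAt (by simp)).hasFDerivAt
  have h1 := (hd.clm_apply (hasFDerivAt_const u z)).clm_apply (hasFDerivAt_const w z)
  have h1' := (hd.clm_apply (hasFDerivAt_const w z)).clm_apply (hasFDerivAt_const u z)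
  have h2 : (fun y => g y u w) =ᶠ[𝓝 z] fun y => g y w u := by
    filter_upwards [isOpen_compl_singleton.mem_nhds hz] with y hy using h.symm y u w hy
  simpa using congrArg (fun L => L a) ((h1.congr_of_eventuallyEq h2.symm).unique h1')

theorem GG_pos {z u : E n} (hz : z ≠ 0) (hu : u ≠ 0) : 0 < GG g z u u := by
  rw [GG_apply]
  have h0 := h.nonneg hz u
  by_contra hc
  have h1 := mul_self_nonneg (nu z u).re
  have h2 := mul_self_nonneg (nu z u).im
  have h3 : nu z u = 0 := Complex.ext (mul_self_eq_zero.1 (by linarith))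
    (mul_self_eq_zero.1 (by linarith))
  exact hu ((hor_of_nu h3).symm.trans (h.hor_eq_zero hz (by linarith)))

theorem GG_symm {z : E n} (hz : z ≠ 0) (u w : E n) : GG g z u w = GG g z w u := by
  rw [GG_apply, GG_apply, h.symm z u w hz]; ring

theorem GG_inv {c : ℂ} (hc : c ≠ 0) {z : E n} (hz : z ≠ 0) (u w : E n) :
    GG g (c • z) (c • u) (c • w) = GG g z u w := by
  rw [GG_apply, GG_apply, h.inv c z u w hc hz, nu_smul_smul hc, nu_smul_smul hc]

theorem contDiffOn_GG : ContDiffOn ℝ ∞ (GG g) {0}ᶜ := by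
  exact (h.smooth.add (contDiffOn_rhL.smulRight contDiffOn_rhL)).add
    (contDiffOn_thL.smulRight contDiffOn_thL)

theorem detG_pos {z : E n} (hz : z ≠ 0) : 0 < detG g z := by
  refine Matrix.PosDef.det_pos (Matrix.PosDef.of_dotProduct_mulVec_pos ?_ fun v hv => ?_)
  · ext i j
    exact h.GG_symm hz _ _
  · have hu : ∑ i, v i • stdOrthonormalBasis ℝ (E n) i ≠ 0 := fun h0 => hv (funext
      (Fintype.linearIndependent_iff.1 (stdOrthonormalBasis ℝ (E n)).orthonormal.linearIndependent v h0))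
    refine (h.GG_pos hz hu).trans_eq ?_
    simp only [dotProduct, Matrix.mulVec, map_sum, map_smul, sum_apply, smul_apply, smul_eq_mul,
      Finset.mul_sum, Matrix.of_apply, star_trivial]
    rw [Finset.sum_comm]
    exact Finset.sum_congr rfl fun i _ => Finset.sum_congr rfl fun j _ => by ring

theorem continuousOn_detG : ContinuousOn (detG g) {0}ᶜ := by
  refine (Continuous.matrix_det continuous_id).comp_continuousOn ?_
  refine continuousOn_pi.2 fun i => continuousOn_pi.2 fun j => ?_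
  exact (h.contDiffOn_GG.continuousOn.clm_apply continuousOn_const).clm_apply continuousOn_const

theorem detG_smul {c : ℂ} (hc : c ≠ 0) {z : E n} (hz : z ≠ 0) :
    detG g (c • z) * ‖c‖ ^ (4 * n + 4) = detG g z := by
  have h1 := bdet_comp (GG g (c • z)) (c • ContinuousLinearMap.id ℝ (E n))
  have h2 : (GG g (c • z)).bilinearComp (c • ContinuousLinearMap.id ℝ (E n))
      (c • ContinuousLinearMap.id ℝ (E n)) = GG g z := by
    ext u w
    exact h.GG_inv hc hz u w
  rw [h2, det_csmul] at h1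
  rw [detG, detG, h1, ← pow_mul, mul_comm]
  congr 2
  ring

theorem spd_pos {x : VV n} (hx : x ∈ OO n) : 0 < spd g x := by
  exact Real.sqrt_pos.2 (h.pos _ _ hx.1 hx.2)

theorem spd_sq {x : VV n} (hx : x.1 ≠ 0) : spd g x ^ 2 = g x.1 x.2 x.2 := by
  exact Real.sq_sqrt (h.nonneg hx _)

theorem contDiffOn_spd : ContDiffOn ℝ ∞ (spd g) (OO n) := by
  refine ContDiffOn.sqrt ?_ fun x hx => (h.pos _ _ hx.1 hx.2).ne'
  exact ((h.smooth.comp contDiffOn_fst fun _ hx => hx.1).clm_apply contDiffOn_snd).clm_apply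
    contDiffOn_snd

theorem contDiffOn_vel : ContDiffOn ℝ ∞ (vel g) (OO n) := by
  exact (h.contDiffOn_spd.inv fun x hx => (h.spd_pos hx).ne').smul
    ((contDiffOn_horL.comp contDiffOn_fst fun _ hx => hx.1).clm_apply contDiffOn_snd)

theorem contDiffOn_al : ContDiffOn ℝ ∞ (al g) (OO n) := by
  exact ((h.smooth.comp contDiffOn_fst fun _ hx => hx.1).clm_apply h.contDiffOn_vel).clm_comp
    contDiffOn_const

theorem spd_act {l : ℂ} {m : ℝ} (c : ℂ) {x : VV n} (hl : l ≠ 0) (hm : 0 < m) (hx : x.1 ≠ 0) :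
    spd g (act l m c x) = m * spd g x := by
  simp only [spd, act]
  rw [h.inv l _ _ _ hl hx]
  simp only [map_add, map_smul, add_apply, smul_apply, smul_eq_mul, h.vert c _ _ hx, h.vert' c _ hx,
    add_zero, mul_zero]
  rw [← mul_assoc, Real.sqrt_mul (mul_self_nonneg m), Real.sqrt_mul_self hm.le]

theorem vel_eqv : Eqv (vel g) := by
  intro l m c x hl hm hx
  rw [vel, h.spd_act c hl hm hx.1]
  simp only [act]
  rw [hor_smul_left hl, hor_smul, ← horL_apply, map_add, map_smul, horL_apply, horL_apply,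
    (hor_eq_zero_iff hx.1 _).2 ⟨c, rfl⟩, add_zero, vel, smul_comm, smul_smul]
  congr 2
  field_simp

theorem vel_unit {x : VV n} (hx : x ∈ OO n) : g x.1 (vel g x) (vel g x) = 1 := by
  simp only [vel, map_smul, smul_apply, smul_eq_mul]
  rw [h.hor_left hx.1, h.hor_right hx.1, ← h.spd_sq hx.1]
  have := h.spd_pos hx
  field_simp

theorem nu_vel {x : VV n} (hx : x.1 ≠ 0) : nu x.1 (vel g x) = 0 := by
  rw [vel, ← Complex.coe_smul, nu_smul, nu_hor hx, mul_zero]

theorem snd_eq {x : VV n} (hx : x ∈ OO n) : x.2 = spd g x • vel g x + nu x.1 x.2 • x.1 := by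
  rw [vel, smul_smul, mul_inv_cancel₀ (h.spd_pos hx).ne', one_smul, hor_def, sub_add_cancel]

/-- A unit horizontal vector defines a point of `OO` with that velocity. -/
theorem unit_mem {z v : E n} (hz : z ≠ 0) (h0 : nu z v = 0) (h1 : g z v v = 1) :
    (z, v) ∈ OO n ∧ spd g (z, v) = 1 ∧ vel g (z, v) = v := by
  have hs : spd g (z, v) = 1 := by simp [spd, h1]
  refine ⟨⟨hz, fun c hc => ?_⟩, hs, by simp [vel, hs, hor_of_nu h0]⟩
  simp only at hc
  rw [hc, h.vert c z _ hz] at h1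
  exact zero_ne_one h1

theorem contDiffOn_Lg : ContDiffOn ℝ ∞ (Lg g) {p | p.1 ≠ 0} := by
  exact contDiffOn_const.mul (((h.smooth.comp contDiffOn_fst fun _ hx => hx).clm_apply
    contDiffOn_snd).clm_apply contDiffOn_snd)

theorem fderiv_Lg {p : VV n} (hp : p.1 ≠ 0) (a : VV n) :
    fderiv ℝ (Lg g) p a = 1 / 2 * fderiv ℝ g p.1 a.1 p.2 p.2 + g p.1 p.2 a.2 := by
  have hd : HasFDerivAt g (fderiv ℝ g p.1) p.1 :=
    ((h.contDiffAt hp).differentiableAt (by simp)).hasFDerivAt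
  have h1 := (((hd.comp p hasFDerivAt_fst).clm_apply hasFDerivAt_snd).clm_apply
    hasFDerivAt_snd).const_mul (1 / 2 : ℝ)
  rw [show fderiv ℝ (Lg g) p = _ from h1.fderiv]
  simp [h.symm p.1 a.2 p.2 hp]
  ring

theorem D2_symm {p : VV n} (hp : p.1 ≠ 0) (a b : VV n) : D2 g p a b = D2 g p b a := by
  have hc : ContDiffAt ℝ ∞ (Lg g) p :=
    h.contDiffOn_Lg.contDiffAt ((isOpen_ne_fun continuous_fst continuous_const).mem_nhds hp)
  exact (hc.isSymmSndFDerivAt (by simp only [minSmoothness_of_isRCLikeNormedField]; exact two_le_infty)).eq a b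

theorem D2_apply {p : VV n} (hp : p.1 ≠ 0) (a b : VV n) :
    D2 g p a b = 1 / 2 * fderiv ℝ (fderiv ℝ g) p.1 a.1 b.1 p.2 p.2 + fderiv ℝ g p.1 b.1 p.2 a.2 +
      fderiv ℝ g p.1 a.1 p.2 b.2 + g p.1 a.2 b.2 := by
  have ho : {p : VV n | p.1 ≠ 0} ∈ 𝓝 p := (isOpen_ne_fun continuous_fst continuous_const).mem_nhds hp
  have hc : ContDiffAt ℝ ∞ (Lg g) p := h.contDiffOn_Lg.contDiffAt ho
  have hd : HasFDerivAt g (fderiv ℝ g p.1) p.1 :=
    ((h.contDiffAt hp).differentiableAt (by simp)).hasFDerivAt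
  have hd2 : HasFDerivAt (fderiv ℝ g) (fderiv ℝ (fderiv ℝ g) p.1) p.1 :=
    (((h.contDiffAt hp).fderiv_right (m := 1) two_le_infty).differentiableAt (by simp)).hasFDerivAt
  have h0 := (((hc.fderiv_right (m := 1) two_le_infty).differentiableAt (by simp)).hasFDerivAt).clm_apply
    (hasFDerivAt_const b p)
  have h1 := ((((((hd2.comp p hasFDerivAt_fst).clm_apply (hasFDerivAt_const b.1 p)).clm_apply
    hasFDerivAt_snd).clm_apply hasFDerivAt_snd).const_mul (1 / 2 : ℝ)).add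
    (((hd.comp p hasFDerivAt_fst).clm_apply hasFDerivAt_snd).clm_apply (hasFDerivAt_const b.2 p)))
  have h2 := congrArg (fun L => L a) ((h0.congr_of_eventuallyEq (by
    filter_upwards [ho] with q hq using (h.fderiv_Lg hq b).symm)).unique h1)
  simp [h.fderiv_symm hp b.1 a.2 p.2] at h2
  rw [D2, h2]
  ring

/-- Uniform comparison with the Euclidean norm on horizontal vectors. -/
theorem exists_comp : ∃ A : ℝ, 0 < A ∧ ∀ z u : E n, z ≠ 0 →
    ‖hor z u‖ ^ 2 ≤ A * ‖z‖ ^ 2 * g z u u ∧ ‖z‖ ^ 2 * g z u u ≤ A * ‖hor z u‖ ^ 2 := by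
  have hc : ContinuousOn (fun x : VV n => g x.1 x.2 x.2) (slice n) :=
    ((h.smooth.continuousOn.comp continuousOn_fst fun _ hx => (slice_subset hx).1).clm_apply
      continuousOn_snd).clm_apply continuousOn_snd
  have hp : ∀ x ∈ slice n, 0 < g x.1 x.2 x.2 := fun x hx =>
    h.pos _ _ (slice_subset hx).1 (slice_subset hx).2
  obtain ⟨A, hA⟩ := isCompact_slice.exists_bound_of_continuousOn hc
  obtain ⟨A', hA'⟩ := isCompact_slice.exists_bound_of_continuousOn (hc.inv₀ fun x hx => (hp x hx).ne')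
  refine ⟨max (max A A') 1, by positivity, fun z u hz => ?_⟩
  by_cases h0 : hor z u = 0
  · rw [← h.hor_left hz, h0]; simp
  have n1 := norm_pos_iff.2 hz
  have n2 := norm_pos_iff.2 h0
  have hy : (((‖z‖⁻¹ : ℝ) : ℂ) • z, ‖hor z u‖⁻¹ • hor z u) ∈ slice n := by
    refine ⟨by simp [norm_smul, n1.ne'], by simp [norm_smul, n2.ne'], ?_⟩
    have e := nu_smul_smul (c := ((‖z‖⁻¹ : ℝ) : ℂ)) (by simp [hz]) z (‖hor z u‖⁻¹ • hor z u)
    rw [nu_smul, ← Complex.coe_smul _ (hor z u), nu_smul _ z, nu_hor hz, mul_zero] at e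
    exact (mul_eq_zero.1 e).resolve_left (by simp [hz])
  have e1 : g (((‖z‖⁻¹ : ℝ) : ℂ) • z) (‖hor z u‖⁻¹ • hor z u) (‖hor z u‖⁻¹ • hor z u) *
      ‖hor z u‖ ^ 2 = ‖z‖ ^ 2 * g z u u := by
    have e := h.inv ((‖z‖⁻¹ : ℝ) : ℂ) z (hor z u) (hor z u) (by simp [hz]) hz
    rw [h.hor_left hz, h.hor_right hz, Complex.coe_smul _ (hor z u)] at e
    simp only [map_smul, smul_apply, smul_eq_mul] at e ⊢
    rw [← e]
    field_simp
  have b1 := (le_abs_self _).trans (hA _ hy)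
  have b2 := (le_abs_self _).trans (hA' _ hy)
  have b3 := hp _ hy
  simp only [Pi.inv_apply] at b1 b2 b3
  rw [inv_le_iff_one_le_mul₀ b3] at b2
  have m1 : A ≤ max (max A A') 1 := (le_max_left _ _).trans (le_max_left _ _)
  have m2 : A' ≤ max (max A A') 1 := (le_max_right _ _).trans (le_max_left _ _)
  rw [mul_assoc, ← e1]
  constructor
  · rw [← mul_assoc]
    exact le_mul_of_one_le_left (by positivity) (b2.trans (mul_le_mul_of_nonneg_right m2 b3.le))
  · exact mul_le_mul_of_nonneg_right (b1.trans m1) (by positivity)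

end IsMetric

theorem fsM_apply {z : E n} (hz : z ≠ 0) (u w : E n) : fsM n z u w = fs z u w := by
  have n1 : ‖z‖ ≠ 0 := norm_ne_zero_iff.2 hz
  have n2 : (‖z‖ : ℂ) ≠ 0 := by exact_mod_cast n1
  have e : inner ℂ (hor z u) (hor z w) = inner ℂ u w - inner ℂ u z * inner ℂ z w / ((‖z‖ ^ 2 : ℝ) : ℂ) := by
    simp only [hor_def, inner_sub_left, inner_sub_right, inner_smul_left, inner_smul_right, nu_def,
      inner_self_eq_norm_sq_to_K, map_div₀, inner_conj_symm, Complex.conj_ofReal]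
    push_cast
    simp only [Complex.coe_algebraMap]
    field_simp
    ring
  change (‖z‖ ^ 2)⁻¹ * inner ℝ (hor z u) (hor z w) = _
  rw [inner_re, e, fs, Complex.sub_re, Complex.div_ofReal_re]
  field_simp

theorem fsM_eq (z u w : E n) : fsM n z u w = (‖z‖ ^ 2)⁻¹ * inner ℝ (hor z u) (hor z w) := by
  rfl

theorem isMetric_fsM : IsMetric (fsM n) := by
  refine ⟨?_, fun z u w _ => by rw [fsM_eq, fsM_eq, real_inner_comm], fun c z u w hc hz => ?_,
    fun c z w hz => ?_, fun z u hz hu => ?_⟩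
  · refine contDiffOn_clm_apply.2 fun u => contDiffOn_clm_apply.2 fun w => ?_
    have h1 : ContDiffOn ℝ ∞ (fun z : E n => (‖z‖ ^ 2)⁻¹) {0}ᶜ :=
      (contDiff_norm_sq ℂ).contDiffOn.inv fun z hz => pow_ne_zero 2 (norm_ne_zero_iff.2 hz)
    exact h1.mul ((contDiffOn_horL.clm_apply contDiffOn_const).inner ℝ
      (contDiffOn_horL.clm_apply contDiffOn_const))
  · have : ‖c‖ ≠ 0 := norm_ne_zero_iff.2 hc
    rw [fsM_eq, fsM_eq, hor_smul_left hc, hor_smul_left hc, hor_smul, hor_smul, inner_re, inner_re,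
      inner_smul_left, inner_smul_right, ← mul_assoc (starRingEnd ℂ c), Complex.conj_mul',
      ← Complex.ofReal_pow, Complex.re_ofReal_mul, norm_smul]
    field_simp
  · rw [fsM_eq, (hor_eq_zero_iff hz _).2 ⟨c, rfl⟩]; simp
  · rw [fsM_eq]
    have := norm_pos_iff.2 hz
    exact mul_pos (by positivity) (real_inner_self_pos.2 (mem_OO.1 (⟨hz, hu⟩ : (z, u) ∈ OO n)).2)

theorem wt_nonneg (r : ℝ) : 0 ≤ wt r := by
  exact Real.smoothTransition.monotone.deriv_nonneg

theorem contDiff_wt : ContDiff ℝ ∞ wt := by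
  exact (contDiff_infty_iff_deriv.1 Real.smoothTransition.contDiff).2

theorem wt_eq_zero {r : ℝ} (hr : r ∉ Icc (0 : ℝ) 1) : wt r = 0 := by
  rcases not_and_or.1 hr with h | h
  · have : Real.smoothTransition =ᶠ[𝓝 r] fun _ => 0 := by
      filter_upwards [Iio_mem_nhds (not_le.1 h)] with t ht using
        Real.smoothTransition.zero_of_nonpos (le_of_lt ht)
    rw [wt, this.deriv_eq, deriv_const]
  · have : Real.smoothTransition =ᶠ[𝓝 r] fun _ => 1 := by
      filter_upwards [Ioi_mem_nhds (not_le.1 h)] with t ht using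
        Real.smoothTransition.one_of_one_le (le_of_lt ht)
    rw [wt, this.deriv_eq, deriv_const]

theorem integral_wt : ∫ r, wt r = 1 := by
  rw [← setIntegral_eq_integral_of_forall_compl_eq_zero fun r hr => wt_eq_zero hr,
    integral_Icc_eq_integral_Ioc, ← intervalIntegral.integral_of_le zero_le_one]
  unfold wt
  rw [intervalIntegral.integral_deriv_eq_sub (fun t _ =>
    (Real.smoothTransition.contDiff (n := 1)).differentiable one_ne_zero t)
    (contDiff_wt.continuous.intervalIntegrable _ _)]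
  simp

end Pool.Agent.Work.MP_8c604c_gt
end
end

-- merged part: Pool.Agent.Work.MP_8c604c_gt.StokesA
section
/-!
Integration of basic forms over the unit tangent bundle, written upstairs.
Hints. stokes: top (dop A) is a sum of coordinates of A (bas i); each term is the integral of a directional derivative of a smooth
compactly supported function (integral_fderiv_eq_zero type lemma, e.g. integral_bilinear_hasLineDerivAt_right_eq_neg_left_of_integrable).
The form wg s vanishes outside a compact subset of OO. II_d: d (wg * k) = (four closed one-forms) * (dTheta * k - Theta * d k), and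
top of (four one-forms) * (basic form) is 0 by Lam.top_horizontal, finrank_Bdir. II_indep: same with (f2 - f2') df1 df3 df4.
dTheta is basic for the scalar action on UE (actE); dTheta_pow: degree 2n+2 and killed by contraction with z.
-/

set_option maxSynthPendingDepth 3

open Set Filter Topology MeasureTheory
open scoped ContDiff

noncomputable section
namespace Pool.Agent.Work.MP_8c604c_gt

open TopologicalSpace Lam Om

section Gen
variable {V : Type} [NormedAddCommGroup V] [NormedSpace ℝ V] [FiniteDimensional ℝ V]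
  [MeasurableSpace V] [BorelSpace V]

theorem stokes (μ : Measure V) [μ.IsAddHaarMeasure] {U : Opens V} (γ : Om U) {K : Set V}
    (hK : IsCompact K) (hKU : K ⊆ U) (h0 : ∀ x ∉ K, ev γ x = 0) :
    ∫ x, top (ev (d γ) x) ∂μ = 0 := by
  have hz : ∀ x ∉ K, ev γ =ᶠ[𝓝 x] fun _ => 0 := fun x hx =>
    Filter.eventually_of_mem (hK.isClosed.isOpen_compl.mem_nhds hx) h0
  have hs : ContDiff ℝ ∞ (ev γ) := contDiff_iff_contDiffAt.2 fun x => by
    by_cases hx : x ∈ K
    · exact γ.smooth.contDiffAt (U.isOpen.mem_nhds (hKU hx))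
    · exact contDiffAt_const.congr_of_eventuallyEq (hz x hx)
  have hc : HasCompactSupport (ev γ) := HasCompactSupport.intro hK h0
  have h1 : ∀ x, ev (d γ) x = dop (fderiv ℝ (ev γ) x) := fun x => by
    by_cases hx : x ∈ U
    · exact ev_d γ hx
    · rw [ev_of_not_mem _ hx, (hz x fun h => hx (hKU h)).fderiv_eq, fderiv_fun_const, Pi.zero_apply,
        map_zero]
  have hi : Integrable (fderiv ℝ (ev γ)) μ :=
    (hs.continuous_fderiv (by simp)).integrable_of_hasCompactSupport (hc.fderiv ℝ)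
  have h2 : ∫ x, fderiv ℝ (ev γ) x ∂μ = 0 := by
    ext v
    rw [ContinuousLinearMap.integral_apply hi]
    have := integral_smul_fderiv_eq_neg_fderiv_smul_of_integrable (μ := μ) (f := fun _ : V => (1 : ℝ))
      (g := ev γ) (v := v) (by simp) (by simpa using hi.apply_continuousLinearMap v)
      (by simpa using hs.continuous.integrable_of_hasCompactSupport hc)
      (fun _ _ => differentiableAt_const _) (fun x _ => hs.differentiable (by simp) x)
    simpa using this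
  have h3 := (top.comp dop).integral_comp_comm hi
  rw [h2, map_zero] at h3
  simp only [h1]
  exact h3

end Gen

variable {n : ℕ}

instance volHaar : (volume : Measure (VV n)).IsAddHaarMeasure :=
  Measure.prod.instIsAddHaarMeasure _ _

/-- `OO` as an open set. -/
def UO (n : ℕ) : Opens (VV n) := ⟨OO n, isOpen_OO⟩

/-- The punctured space. -/
def UE (n : ℕ) : Opens (E n) := ⟨{0}ᶜ, isOpen_compl_singleton⟩

/-- Parameters of `act`. -/
def WB : Opens (ℂ × ℝ × ℂ) :=
  ⟨{p | p.1 ≠ 0 ∧ 0 < p.2.1}, (isOpen_ne_fun continuous_fst continuous_const).inter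
    (isOpen_lt continuous_const continuous_snd.fst)⟩

/-- The action on `OO`. -/
def actB (n : ℕ) : Act WB (UO n) where
  a := ⟨fun p => act p.1.1 p.1.2.1 p.1.2.2 p.2, by unfold act; fun_prop,
    fun _ hp => act_mem _ hp.1.1 hp.1.2 hp.2⟩
  e := (1, 1, 0)
  e_mem := ⟨one_ne_zero, one_pos⟩
  a_e := fun x _ => by simp [act]

/-- The derivative of the action. -/
def SA_D (p : (ℂ × ℝ × ℂ) × VV n) : (ℂ × ℝ × ℂ) × VV n →L[ℝ] VV n :=
  fderiv ℝ (fun p : (ℂ × ℝ × ℂ) × VV n => act p.1.1 p.1.2.1 p.1.2.2 p.2) p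

theorem SA_act (p : (ℂ × ℝ × ℂ) × VV n) : HasFDerivAt (actB n).a.toFun (SA_D p) p := by
  refine DifferentiableAt.hasFDerivAt
    (f := fun p : (ℂ × ℝ × ℂ) × VV n => act p.1.1 p.1.2.1 p.1.2.2 p.2) ?_
  unfold act
  fun_prop

theorem SA_D_apply (p v : (ℂ × ℝ × ℂ) × VV n) : SA_D p v = act p.1.1 p.1.2.1 p.1.2.2 v.2 +
    (v.1.1 • p.2.1, v.1.1 • (p.1.2.1 • p.2.2 + p.1.2.2 • p.2.1) +
      p.1.1 • (v.1.2.1 • p.2.2 + v.1.2.2 • p.2.1)) := by
  have a1 := (hasFDerivAt_fst (𝕜 := ℝ) (p := p)).fst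
  have a2 := (hasFDerivAt_fst (𝕜 := ℝ) (p := p)).snd.fst
  have a3 := (hasFDerivAt_fst (𝕜 := ℝ) (p := p)).snd.snd
  have b1 := (hasFDerivAt_snd (𝕜 := ℝ) (p := p)).fst
  have b2 := (hasFDerivAt_snd (𝕜 := ℝ) (p := p)).snd
  have h : SA_D p = _ := ((a1.smul b1).prodMk (a1.smul ((a2.smul b2).add (a3.smul b1)))).fderiv
  rw [h]
  refine Prod.ext rfl ?_
  change p.1.1 • (p.1.2.1 • v.2.2 + v.1.2.1 • p.2.2 + (p.1.2.2 • v.2.1 + v.1.2.2 • p.2.1)) +
    v.1.1 • (p.1.2.1 • p.2.2 + p.1.2.2 • p.2.1) = p.1.1 • (p.1.2.1 • v.2.2 + p.1.2.2 • v.2.1) +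
      (v.1.1 • (p.1.2.1 • p.2.2 + p.1.2.2 • p.2.1) + p.1.1 • (v.1.2.1 • p.2.2 + v.1.2.2 • p.2.1))
  simp only [smul_add]
  abel

theorem SA_D_e (x : VV n) (l c : ℂ) (a : ℝ) : SA_D ((actB n).e, x) ((l, a, c), 0) =
    (l • x.1, l • x.2 + c • x.1 + a • x.2) := by
  rw [SA_D_apply]
  simp [actB, act, add_assoc, add_comm]

theorem basic_horizontal {γ : Om (UO n)} (h : γ ∈ (actB n).Basic) {x : VV n} (hx : x ∈ OO n)
    {v : VV n} (hv : v ∈ Bdir x) : ctr v (ev γ x) = 0 := by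
  obtain ⟨l, c, a, rfl⟩ := mem_Bdir.1 hv
  have := (actB n).horizontal h hx (l, a, c)
  rwa [(SA_act _).fderiv, SA_D_e] at this

theorem basic_horizontal_cyl {γ : Om (cyl (UO n))} (h : γ ∈ (actB n).cyl.Basic) (t : ℝ) {x : VV n}
    (hx : x ∈ OO n) {v : VV n} (hv : v ∈ Bdir x) : ctr ((0 : ℝ), v) (ev γ (t, x)) = 0 := by
  obtain ⟨l, c, a, rfl⟩ := mem_Bdir.1 hv
  have h1 := (actB n).cyl.horizontal h (x := (t, x)) ⟨trivial, hx⟩ (l, a, c)
  have h2 : HasFDerivAt (actB n).cyl.a.toFun _ ((actB n).cyl.e, (t, x)) :=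
    (hasFDerivAt_fst.comp _ hasFDerivAt_snd).prodMk ((SA_act ((actB n).e, x)).comp
      (((actB n).e, (t, x)) : (ℂ × ℝ × ℂ) × ℝ × VV n)
      (hasFDerivAt_fst.prodMk (hasFDerivAt_snd.comp _ hasFDerivAt_snd)))
  rw [h2.fderiv] at h1
  rw [← SA_D_e]
  exact h1

theorem one1_basic {θ : VV n → VV n →L[ℝ] ℝ} (hθ : ContDiffOn ℝ ∞ θ (UO n))
    (h1 : ∀ l m c x δ, l ≠ 0 → 0 < m → x ∈ OO n → θ (act l m c x) (act l m c δ) = θ x δ)
    (h2 : ∀ x ∈ OO n, ∀ v ∈ Bdir x, θ x v = 0) : one1 θ hθ ∈ (actB n).Basic := by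
  refine (actB n).one1_mem hθ fun p hp x hx v => ?_
  rw [(SA_act _).fderiv, SA_D_apply, map_add]
  have hl : p.1 ≠ 0 := hp.1
  have hm : (p.2.1 : ℂ) ≠ 0 := Complex.ofReal_ne_zero.2 (ne_of_gt hp.2)
  have h3 := h2 _ (act_mem p.2.2 hp.1 hp.2 hx) _ (mem_Bdir.2 ⟨v.1.1 / p.1,
    v.1.2.2 - v.1.2.1 / p.2.1 * p.2.2, v.1.2.1 / p.2.1, rfl⟩)
  have h4 := h1 p.1 p.2.1 p.2.2 x v.2 hp.1 hp.2 hx
  refine Eq.trans ?_ ((congrArg₂ (· + ·) h4 h3).trans (add_zero _))
  congr 2
  simp only [act, ← Complex.coe_smul, Complex.ofReal_div]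
  congr 1
  · match_scalars
    field_simp
  · match_scalars
    · field_simp
    · field_simp
      ring

theorem fn_basic {f : VV n → ℝ} (hf : ContDiffOn ℝ ∞ f (UO n)) (h : Inv f) :
    fn f hf ∈ (actB n).Basic := by
  exact (actB n).fn_mem hf fun p hp x hx => h _ _ _ x hp.1 hp.2 hx

/-- The connection form. -/
def Theta (n : ℕ) : Om (UE n) := one1 thL contDiffOn_thL

/-- The foot point map. -/
def fstM (n : ℕ) : SMap (UO n) (UE n) := ⟨Prod.fst, contDiffOn_fst, fun _ hx => hx.1⟩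

/-- The pulled back connection form. -/
def Th0 (n : ℕ) : Om (UO n) := pull (fstM n) (Theta n)

/-- The pulled back Fubini-Study form. -/
def x0 (n : ℕ) : Om (UO n) := d (Th0 n)

/-- Real part of a coordinate. -/
def SA_x (j : Fin (n + 1)) : E n →L[ℝ] ℝ :=
  Complex.reCLM.comp ((EuclideanSpace.proj j : E n →L[ℂ] ℂ).restrictScalars ℝ)

/-- Imaginary part of a coordinate. -/
def SA_y (j : Fin (n + 1)) : E n →L[ℝ] ℝ :=
  Complex.imCLM.comp ((EuclideanSpace.proj j : E n →L[ℂ] ℂ).restrictScalars ℝ)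

/-- The standard symplectic form. -/
def SA_B (n : ℕ) : E n →L[ℝ] E n →L[ℝ] ℝ :=
  ∑ j, ((SA_x j).smulRight (SA_y j) - (SA_y j).smulRight (SA_x j))

theorem SA_B_apply (u w : E n) : SA_B n u w = (inner ℂ u w).im := by
  simp only [SA_B, sum_apply, PiLp.inner_apply, Complex.im_sum]
  refine Finset.sum_congr rfl fun j _ => ?_
  simp [SA_x, SA_y]
  ring

theorem SA_inner (u w : E n) : inner ℝ u w = (inner ℂ u w).re := by
  simp [PiLp.inner_apply, Complex.inner]

theorem SA_nu (z u : E n) : nu z u = ((‖z‖ ^ 2)⁻¹ : ℝ) • inner ℂ z u := rfl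

theorem SA_thL (z u : E n) : thL z u = (‖z‖ ^ 2)⁻¹ * (inner ℂ z u).im := by
  rw [thL_apply, SA_nu, Complex.smul_im, smul_eq_mul]

theorem SA_rhL (z u : E n) : rhL z u = (‖z‖ ^ 2)⁻¹ * (inner ℂ z u).re := by
  rw [rhL_apply, SA_nu, Complex.smul_re, smul_eq_mul]

theorem SA_fderiv {z : E n} (hz : z ≠ 0) : fderiv ℝ (thL : E n → E n →L[ℝ] ℝ) z =
    (‖z‖ ^ 2)⁻¹ • SA_B n - (2 : ℝ) • (rhL z).smulRight (thL z) := by
  have h0 : ‖z‖ ^ 2 ≠ 0 := pow_ne_zero 2 (norm_ne_zero_iff.2 hz)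
  have h1 : (thL : E n → E n →L[ℝ] ℝ) = (fun y : E n => (‖y‖ ^ 2)⁻¹) • fun y => SA_B n y := by
    ext y u
    rw [SA_thL, ← SA_B_apply]
    rfl
  have h2 : HasFDerivAt (fun y : E n => (‖y‖ ^ 2)⁻¹) _ z :=
    (hasFDerivAt_inv h0).comp z (hasStrictFDerivAt_norm_sq z).hasFDerivAt
  have h3 := h2.smul (SA_B n).hasFDerivAt
  rw [← h1] at h3
  rw [h3.fderiv]
  ext u w
  simp [SA_thL, SA_rhL, SA_B_apply, SA_inner]
  field_simp
  ring

theorem SA_ev {z : E n} (hz : z ≠ 0) : ev (d (Theta n)) z =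
    dop (io.comp ((‖z‖ ^ 2)⁻¹ • SA_B n - (2 : ℝ) • (rhL z).smulRight (thL z))) := by
  rw [← SA_fderiv hz]
  exact ev_d_one1 _ _ hz

theorem SA_ctr {z : E n} (hz : z ≠ 0) (u : E n) : ctr u (ev (d (Theta n)) z) =
    io ((2 * (‖z‖ ^ 2)⁻¹) • (innerSL ℝ (Complex.I • hor z u)).comp (horL z)) := by
  have h0 : ‖z‖ ^ 2 ≠ 0 := pow_ne_zero 2 (norm_ne_zero_iff.2 hz)
  rw [SA_ev hz, ctr_dop_io]
  congr 1
  ext w
  have e1 : inner ℂ w u = starRingEnd ℂ (inner ℂ u w) := (inner_conj_symm _ _).symm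
  have e2 : inner ℂ u z = starRingEnd ℂ (inner ℂ z u) := (inner_conj_symm _ _).symm
  have e3 : inner ℂ z z = ((‖z‖ ^ 2 : ℝ) : ℂ) := by
    rw [inner_self_eq_norm_sq_to_K]
    norm_cast
  simp only [sub_apply, smul_apply, ContinuousLinearMap.flip_apply,
    ContinuousLinearMap.smulRight_apply, ContinuousLinearMap.comp_apply, innerSL_apply_apply,
    horL_apply, hor_def, SA_inner, SA_B_apply, SA_thL, SA_rhL, SA_nu, smul_eq_mul, inner_smul_left,
    inner_sub_left, inner_sub_right, inner_smul_right, e1, e2, e3]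
  generalize inner ℂ u w = a
  generalize inner ℂ z u = b
  generalize inner ℂ z w = c
  generalize ‖z‖ ^ 2 = r at h0
  simp
  field_simp
  ring

theorem SA_vert {z : E n} (hz : z ≠ 0) (c : ℂ) : ctr (c • z) (ev (d (Theta n)) z) = 0 := by
  rw [SA_ctr hz, (hor_eq_zero_iff hz _).2 ⟨c, rfl⟩]
  simp

theorem SA_ctr_pow {V : Type} [NormedAddCommGroup V] [NormedSpace ℝ V] [FiniteDimensional ℝ V]
    {v : V} {a : Lam V} (h : ctr v a = 0) (k : ℕ) : ctr v (a ^ k) = 0 := by
  induction k with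
  | zero => rw [pow_zero, ← map_one (algebraMap ℝ (Lam V)), ctr_algebraMap]
  | succ k ih => rw [pow_succ, ctr_mul, ih, h, zero_mul, mul_zero, add_zero]

theorem SA_pow {z : E n} (hz : z ≠ 0) : ev (d (Theta n)) z ^ (n + 1) = 0 := by
  refine eq_zero_of_top ?_ (top_eq_zero_of_ctr hz (SA_ctr_pow ?_ _))
  · rw [finrank_E, SA_ev hz]
    exact pow_mem_deg (dop_io_mem_deg _) (n + 1)
  · simpa using SA_vert hz 1

theorem SA_dop (θ φ : E n →L[ℝ] ℝ) : dop (io.comp (θ.smulRight φ)) = io θ * io φ := by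
  rw [← dop_smulRight]
  congr 1
  ext v
  simp

theorem SA_darboux {z : E n} (hz : z ≠ 0) :
    ∑ j, io ((2 * (‖z‖ ^ 2)⁻¹) • SA_x j) * io (SA_y j) =
      ev (d (Theta n)) z + (2 : ℝ) • (io (rhL z) * io (thL z)) := by
  rw [SA_ev hz, ContinuousLinearMap.comp_sub, ContinuousLinearMap.comp_smul,
    ContinuousLinearMap.comp_smul, map_sub, map_smul, map_smul, SA_dop, sub_add_cancel, SA_B,
    ContinuousLinearMap.comp_finsetSum, map_sum, Finset.smul_sum]
  refine Finset.sum_congr rfl fun j _ => ?_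
  rw [ContinuousLinearMap.comp_sub, map_sub, SA_dop, SA_dop, io_anti (SA_y j), map_smul,
    smul_mul_assoc]
  module

theorem SA_binom {R : Type} [Ring R] {a t : R} (hc : Commute a t) (ht : t * t = 0) (k : ℕ) :
    (a + t) ^ (k + 1) = a ^ (k + 1) + (k + 1) • (t * a ^ k) := by
  induction k with
  | zero => simp
  | succ k ih =>
    have h1 : t * a ^ k * t = 0 := by rw [mul_assoc, (hc.pow_left k).eq, ← mul_assoc, ht, zero_mul]
    rw [pow_succ, ih, add_mul, mul_add, mul_add, smul_mul_assoc, smul_mul_assoc, h1, smul_zero,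
      add_zero, mul_assoc, ← pow_succ, ← pow_succ, (hc.pow_left (k + 1)).eq, succ_nsmul _ (k + 1)]
    abel

theorem dTheta_pow : d (Theta n) ^ (n + 1) = 0 := by
  refine Om.ext fun z hz => ?_
  rw [ev_pow _ _ hz, ev_zero, SA_pow hz]

theorem ctr_dTheta {z : E n} (hz : z ≠ 0) (c : ℂ) : ctr (c • z) (ev (d (Theta n)) z) = 0 := by
  exact SA_vert hz c

/-- Explicit value of the curvature form. -/
theorem ctr_dTheta_eq {z : E n} (hz : z ≠ 0) (u : E n) : ctr u (ev (d (Theta n)) z) =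
    io ((2 * (‖z‖ ^ 2)⁻¹) • (innerSL ℝ (Complex.I • hor z u)).comp (horL z)) := by
  exact SA_ctr hz u

theorem top_vol_ne {z : E n} (hz : z ≠ 0) :
    top (io (rhL z) * io (thL z) * ev (d (Theta n)) z ^ n) ≠ 0 := by
  have h0 : 2 * (‖z‖ ^ 2)⁻¹ ≠ 0 :=
    mul_ne_zero two_ne_zero (inv_ne_zero (pow_ne_zero 2 (norm_ne_zero_iff.2 hz)))
  have h1 := top_sum_pow_ne (V := E n) (N := n + 1) finrank_E
    (fun j => (2 * (‖z‖ ^ 2)⁻¹) • SA_x j) SA_y (fun v ha hb => by
      ext j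
      exact Complex.ext ((mul_eq_zero.1 (ha j)).resolve_left h0) (hb j))
  have h2 : Commute (ev (d (Theta n)) z) ((2 : ℝ) • (io (rhL z) * io (thL z))) := by
    rw [SA_ev hz]
    exact commute_dop_io _ _
  have h3 : io (rhL z) * io (thL z) * (io (rhL z) * io (thL z)) = 0 := by
    rw [mul_assoc, ← mul_assoc (io (thL z)), io_anti (thL z), neg_mul, mul_assoc, io_sq, mul_zero,
      neg_zero, mul_zero]
  rw [SA_darboux hz, SA_binom h2 (by rw [smul_mul_smul_comm, h3, smul_zero]), SA_pow hz, zero_add,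
    smul_mul_assoc, map_nsmul, map_smul] at h1
  intro h
  exact h1 (by rw [h, smul_zero, smul_zero])

section Maps
variable {V P : Type} [NormedAddCommGroup V] [NormedSpace ℝ V] [FiniteDimensional ℝ V] {U : Opens V}

/-- Multiplication by a scalar. -/
def SA_m (c : ℂ) : E n →L[ℝ] E n := c • ContinuousLinearMap.id ℝ (E n)

theorem SA_scale {c : ℂ} (hc : c ≠ 0) {z : E n} (hz : z ≠ 0) :
    lmap (SA_m c) (ev (d (Theta n)) (c • z)) = ev (d (Theta n)) z := by
  let m : SMap (UE n) (UE n) := ⟨SA_m c, (SA_m c).contDiff.contDiffOn, fun y hy => smul_ne_zero hc hy⟩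
  have h1 : pull m (Theta n) = Theta n := Om.ext fun y hy => by
    rw [ev_pull _ _ hy, Theta, ev_one1 _ _ (m.maps hy), ev_one1 _ _ hy, lmap_io]
    congr 1
    ext u
    rw [show fderiv ℝ m.toFun y = SA_m c from (SA_m c).fderiv]
    exact congrArg Complex.im (nu_smul_smul hc y u)
  have h2 := ev_pull m (d (Theta n)) (x := z) hz
  rw [← d_pull, h1, show fderiv ℝ m.toFun z = SA_m c from (SA_m c).fderiv] at h2
  exact h2.symm

omit [FiniteDimensional ℝ V] in
theorem SA_fderiv_line (f f' : SMap U (UE n)) {c : V → ℂ} {c' : V →L[ℝ] ℂ} {y : V} (hy : y ∈ U)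
    (hc : HasFDerivAt c c' y) (h : ∀ x ∈ U, f'.toFun x = c x • f.toFun x) (v : V) :
    fderiv ℝ f'.toFun y v = c y • fderiv ℝ f.toFun y v + c' v • f.toFun y := by
  have h1 := ((f.smooth.contDiffAt (U.isOpen.mem_nhds hy)).differentiableAt (by simp)).hasFDerivAt
  have h2 : f'.toFun =ᶠ[𝓝 y] c • f.toFun := Filter.eventually_of_mem (U.isOpen.mem_nhds hy) h
  rw [h2.fderiv_eq, (hc.smul h1).fderiv]
  rfl

theorem SA_pull (f : SMap U (UE n)) {y : V} (hy : y ∈ U) :
    ev (pull f (Theta n)) y = io ((thL (f.toFun y)).comp (fderiv ℝ f.toFun y)) := by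
  rw [ev_pull _ _ hy, Theta, ev_one1 _ _ (f.maps hy), lmap_io]

theorem SA_pull_line (f f' : SMap U (UE n)) {c : V → ℂ} {c' : V →L[ℝ] ℂ} {y : V} (hy : y ∈ U)
    (hc : HasFDerivAt c c' y) (h : ∀ x ∈ U, f'.toFun x = c x • f.toFun x) :
    ev (pull f' (Theta n)) y =
      ev (pull f (Theta n)) y + io (Complex.imCLM.comp ((c y)⁻¹ • c')) := by
  have h0 : c y ≠ 0 := fun h0 => f'.maps hy (by rw [h y hy, h0, zero_smul]; rfl)
  rw [SA_pull _ hy, SA_pull _ hy, ← map_add]
  congr 1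
  ext v
  change (nu (f'.toFun y) (fderiv ℝ f'.toFun y v)).im =
    (nu (f.toFun y) (fderiv ℝ f.toFun y v)).im + ((c y)⁻¹ * c' v).im
  have e : c' v • f.toFun y = c y • (((c y)⁻¹ * c' v) • f.toFun y) := by
    rw [smul_smul, mul_inv_cancel_left₀ h0]
  rw [SA_fderiv_line f f' hy hc h, h y hy, e, ← smul_add, nu_smul_smul h0, nu_add, nu_smul,
    nu_self (f.maps hy), mul_one, Complex.add_im]

theorem d_theta_line (f f' : SMap U (UE n)) (h : ∀ y ∈ U, ∃ c : ℂ, f'.toFun y = c • f.toFun y) :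
    d (pull f' (Theta n)) = d (pull f (Theta n)) := by
  have h1 : ∀ y ∈ U, f'.toFun y = nu (f.toFun y) (f'.toFun y) • f.toFun y := fun y hy => by
    obtain ⟨c, hc⟩ := h y hy
    rw [hc, nu_smul, nu_self (f.maps hy), mul_one]
  have h2 : ContDiffOn ℝ ∞ (fun y => nu (f.toFun y) (f'.toFun y)) U :=
    (contDiffOn_nuL.comp f.smooth f.maps).clm_apply f'.smooth
  rw [d_pull, d_pull]
  refine Om.ext fun y hy => ?_
  have h3 := ((h2.contDiffAt (U.isOpen.mem_nhds hy)).differentiableAt (by simp)).hasFDerivAt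
  have h4 := SA_fderiv_line f f' hy h3 h1
  have h5 := h1 y hy
  generalize nu (f.toFun y) (f'.toFun y) = c at h4 h5
  have h0 : c ≠ 0 := fun h0 => f'.maps hy (by rw [h5, h0, zero_smul]; rfl)
  rw [ev_pull _ _ hy, ev_pull _ _ hy, ← SA_scale h0 (f.maps hy), ← lmap_comp, ← h5]
  refine lmap_congr (S := (ℂ ∙ f'.toFun y).restrictScalars ℝ) (fun v => ?_) fun w hw => ?_
  · rw [h4, h5]
    refine Submodule.mem_span_singleton.2
      ⟨fderiv ℝ (fun y => nu (f.toFun y) (f'.toFun y)) y v * c⁻¹, ?_⟩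
    rw [smul_smul, inv_mul_cancel_right₀ h0]
    exact (add_sub_cancel_left _ _).symm
  · obtain ⟨k, rfl⟩ := Submodule.mem_span_singleton.1 hw
    exact SA_vert (f'.maps hy) k

theorem theta_sub_basic (A : Act WB U) (f f' : SMap U (UE n))
    (h : ∀ p ∈ WB, ∀ y ∈ U, f.toFun (A.a.toFun (p, y)) = p.1 • f.toFun y)
    (h' : ∀ p ∈ WB, ∀ y ∈ U, f'.toFun (A.a.toFun (p, y)) = p.1 • f'.toFun y) :
    pull f' (Theta n) - pull f (Theta n) ∈ A.Basic := by
  rw [A.mem_basic, map_sub, map_sub, ← pull_comp, ← pull_comp, ← pull_comp, ← pull_comp]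
  refine Om.ext fun y hy => ?_
  have hc := (hasFDerivAt_fst (𝕜 := ℝ) (p := y)).fst
  rw [ev_sub, ev_sub,
    SA_pull_line (f.comp (SMap.snd WB U)) (f.comp A.a) hy hc fun x hx => h x.1 hx.1 x.2 hx.2,
    SA_pull_line (f'.comp (SMap.snd WB U)) (f'.comp A.a) hy hc fun x hx => h' x.1 hx.1 x.2 hx.2,
    add_sub_add_right_eq_sub]

theorem d_theta_basic (A : Act WB U) (f : SMap U (UE n))
    (h : ∀ p ∈ WB, ∀ y ∈ U, f.toFun (A.a.toFun (p, y)) = p.1 • f.toFun y) :
    d (pull f (Theta n)) ∈ A.Basic := by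
  rw [A.mem_basic, ← d_pull, ← d_pull, ← pull_comp, ← pull_comp]
  exact d_theta_line _ _ fun x hx => ⟨x.1.1, h x.1 hx.1 x.2 hx.2⟩

theorem ev_pull_theta (f : SMap U (UE n)) {y : V} (hy : y ∈ U) :
    ev (pull f (Theta n)) y = io ((thL (f.toFun y)).comp (fderiv ℝ f.toFun y)) := by
  exact SA_pull f hy

end Maps

end Pool.Agent.Work.MP_8c604c_gt
end
end
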