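import Pool.Agent.Work.MP_8c604c_gt.Dist
import Pool.Agent.Work.MP_8c604c_gt.BKGAux
import Pool.Agent.Work.MP_8c604c_gt.Idx
import Pool.Agent.Work.MP_8c604c_gt.StokesA
import Pool.Agent.Work.MP_8c604c_gt.Top
import Pool.Agent.Work.MP_8c604c_gt.FS
import Pool.Agent.Work.MP_8c604c_gt.Lam

-- merged part: Pool.Agent.Work.MP_8c604c_gt.BKG1
section
/-!
The inequality along one geodesic of a Blaschke metric.
Hints. WLOG work at x with unit speed (JJ_act). Take a g-orthonormal basis u_none = K, u_(some i) of the normal space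
(dimension 2n-1, iota = Fin (2n-2)); A-fields (0, u_i); B-fields (u_j, y_j) with y_j normal chosen so that om vanishes on pairs of
B-fields (om_fibre). J t = JH t x composed with this linear map. Elements of JC map injectively modulo Bdir.
th_link: jac^2 = bdet (GG pulled back by D Ex) / detG (bdet_comp); evaluate in the basis z, i z, vel, u_i using fderiv_ex, al_inv.
-/

set_option maxSynthPendingDepth 3

open Set Filter Topology MeasureTheory
open scoped ContDiff

noncomputable section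
namespace Pool.Agent.Work.MP_8c604c_gt

open Real

variable {n : ℕ} {g : Met n}

/-- The Gram determinant of a family with as many members as the dimension. -/
theorem bkg1_exists_gram {ι : Type} [Fintype ι] [DecidableEq ι] (hι : Fintype.card ι = 2 * n + 2)
    (f : ι → E n) : ∃ c : ℝ, ∀ B : E n →L[ℝ] E n →L[ℝ] ℝ,
      (Matrix.of fun a b => B (f a) (f b)).det = c * bdet B := by
  obtain ⟨e⟩ : Nonempty (Fin (Module.finrank ℝ (E n)) ≃ ι) :=
    ⟨Fintype.equivOfCardEq (by rw [Fintype.card_fin, finrank_E, hι])⟩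
  let L : E n →L[ℝ] E n := LinearMap.toContinuousLinearMap
    ((stdOrthonormalBasis ℝ (E n)).toBasis.constr ℝ fun i => f (e i))
  have hL : ∀ i, L (stdOrthonormalBasis ℝ (E n) i) = f (e i) := fun i =>
    (stdOrthonormalBasis ℝ (E n)).toBasis.constr_basis ℝ (fun i => f (e i)) i
  refine ⟨L.det ^ 2, fun B => ?_⟩
  rw [← bdet_comp, ← Matrix.det_submatrix_equiv_self e]
  unfold bdet
  congr 1
  ext i j
  simp [ContinuousLinearMap.bilinearComp_apply, hL]

/-- Splitting off a unit vector. -/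
theorem bkg1_gram_unit {κ : Type} [Fintype κ] [DecidableEq κ] (B : E n →L[ℝ] E n →L[ℝ] ℝ) (v : E n)
    (w : κ → E n) (h1 : B v v = 1) (h0 : ∀ i, B (w i) v = 0) :
    (Matrix.of fun a b : Unit ⊕ κ =>
      B (Sum.elim (fun _ => v) w a) (Sum.elim (fun _ => v) w b)).det =
      (Matrix.of fun i j => B (w i) (w j)).det := by
  have e : (Matrix.of fun a b : Unit ⊕ κ =>
      B (Sum.elim (fun _ => v) w a) (Sum.elim (fun _ => v) w b)) =
      Matrix.fromBlocks 1 (Matrix.of fun _ j => B v (w j)) 0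
        (Matrix.of fun i j => B (w i) (w j)) := by
    ext a b
    rcases a with a | a <;> rcases b with b | b <;> simp [h1, h0]
  rw [e, Matrix.det_fromBlocks_zero₂₁, Matrix.det_one, one_mul]

/-- Splitting off the vertical plane. -/
theorem bkg1_gram_vert (h : IsMetric g) {ι : Type} [Fintype ι] [DecidableEq ι] {z : E n} (hz : z ≠ 0)
    (w : ι → E n) :
    (Matrix.of fun a b : Fin 2 ⊕ ι => GG g z (Sum.elim ![z, Complex.I • z] w a)
      (Sum.elim ![z, Complex.I • z] w b)).det = (Matrix.of fun i j => g z (w i) (w j)).det := by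
  have a1 : ∀ y, g z z y = 0 := fun y => by simpa using h.vert 1 z y hz
  have a2 : ∀ y, g z y z = 0 := fun y => by simpa using h.vert' 1 y hz
  have a3 : ∀ y, g z (Complex.I • z) y = 0 := fun y => h.vert _ z y hz
  have a4 : ∀ y, g z y (Complex.I • z) = 0 := fun y => h.vert' _ y hz
  have a5 : nu z z = 1 := nu_self hz
  have a6 : nu z (Complex.I • z) = Complex.I := by rw [nu_smul, a5, mul_one]
  let N : Matrix (Fin 2) ι ℝ := Matrix.of fun a j => ![(nu z (w j)).re, (nu z (w j)).im] a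
  have e : (Matrix.of fun a b : Fin 2 ⊕ ι => GG g z (Sum.elim ![z, Complex.I • z] w a)
      (Sum.elim ![z, Complex.I • z] w b)) =
      Matrix.fromBlocks 1 N N.transpose
        ((Matrix.of fun i j => g z (w i) (w j)) + N.transpose * N) := by
    ext a b
    rcases a with a | a <;> rcases b with b | b
    · fin_cases a <;> fin_cases b <;> simp [GG_apply, a1, a2, a3, a4, a5, a6]
    · fin_cases a <;> simp [GG_apply, a1, a3, a5, a6, N]
    · fin_cases b <;> simp [GG_apply, a2, a4, a5, a6, N]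
    · simp [GG_apply, N, Matrix.mul_apply, Fin.sum_univ_two, add_assoc]
  rw [e, Matrix.det_fromBlocks_one₁₁, add_sub_cancel_right]

namespace Geo
variable (G : Geo g) (h : IsMetric g)

theorem bkg1_diffAt_ex {q : E n} (hq : q ≠ 0) (p : E n) : DifferentiableAt ℝ (G.ex q) p := by
  have ho : IsOpen {p : VV n | p.1 ≠ 0} := isOpen_ne.preimage continuous_fst
  have h1 : ContDiffAt ℝ ∞ (fun p : VV n => G.ex p.1 p.2) (q, p) :=
    G.contDiffOn_ex.contDiffAt (ho.mem_nhds hq)
  exact (h1.differentiableAt (by simp)).comp p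
    ((differentiableAt_const q).prodMk differentiableAt_id)

theorem bkg1_diffAt_Ex {q : E n} (hq : q ≠ 0) (p : E n) : DifferentiableAt ℝ (G.Ex q) p := by
  have ho : IsOpen {p : VV n | p.1 ≠ 0} := isOpen_ne.preimage continuous_fst
  have h1 : ContDiffAt ℝ ∞ (fun p : VV n => G.Ex p.1 p.2) (q, p) :=
    G.contDiffOn_Ex.contDiffAt (ho.mem_nhds hq)
  exact (h1.differentiableAt (by simp)).comp p
    ((differentiableAt_const q).prodMk differentiableAt_id)

theorem bkg1_Ex_ne' {q : E n} (hq : q ≠ 0) (p : E n) : G.Ex q p ≠ 0 :=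
  smul_ne_zero (div_ne_zero (Complex.exp_ne_zero _) (by simpa using hq)) (G.ex_ne hq p)

theorem bkg1_fderiv_Ex_apply {q : E n} (hq : q ≠ 0) (p a : E n) :
    fderiv ℝ (G.Ex q) p a =
      (Complex.exp (nu q p) / (‖q‖ : ℂ)) • (nu q a • G.ex q p + fderiv ℝ (G.ex q) p a) := by
  have h1 := ((nuL q).hasFDerivAt (x := p)).cexp.mul_const ((‖q‖ : ℂ))⁻¹
  have h2 := h1.smul (G.bkg1_diffAt_ex hq p).hasFDerivAt
  have e : G.Ex q = (fun y => Complex.exp (nuL q y) * ((‖q‖ : ℂ))⁻¹) • G.ex q := by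
    funext y
    simp only [Ex, Pi.smul_apply', nuL_apply, div_eq_mul_inv]
  rw [e, h2.fderiv]
  simp only [ContinuousLinearMap.add_apply, ContinuousLinearMap.smul_apply,
    ContinuousLinearMap.smulRight_apply, nuL_apply, smul_eq_mul, div_eq_mul_inv, smul_add,
    smul_smul]
  rw [add_comm]
  congr 2
  ring

theorem bkg1_jac_nonneg (q u : E n) : 0 ≤ G.jac q u := by
  unfold jac; positivity

include h

theorem bkg1_jac_sq {q : E n} (hq : q ≠ 0) (u : E n) : G.jac q u ^ 2 * detG g q =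
    bdet ((GG g (G.Ex q u)).bilinearComp (fderiv ℝ (G.Ex q) u) (fderiv ℝ (G.Ex q) u)) := by
  have h1 := h.detG_pos hq
  have h2 := h.detG_pos (G.bkg1_Ex_ne' hq u)
  rw [bdet_comp]
  unfold jac
  rw [div_pow, mul_pow, sq_abs, Real.sq_sqrt h1.le, Real.sq_sqrt h2.le, div_mul_cancel₀ _ h1.ne']
  rfl

theorem jac_act {l : ℂ} (hl : l ≠ 0) (c : ℂ) {q : E n} (hq : q ≠ 0) (u : E n) :
    G.jac (l • q) (l • (u + c • q)) = G.jac q u := by
  have hlq : l • q ≠ 0 := smul_ne_zero hl hq
  have hl' : (‖l‖ : ℂ) ≠ 0 := by simpa using hl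
  have hq' : (‖q‖ : ℂ) ≠ 0 := by simpa using hq
  set μ : ℂ := l * Complex.exp c / (‖l‖ : ℂ) with hμ
  have hμ0 : μ ≠ 0 := div_ne_zero (mul_ne_zero hl (Complex.exp_ne_zero c)) hl'
  have e0 : ∀ y, G.Ex (l • q) (l • (y + c • q)) = μ • G.Ex q y := fun y => by
    unfold Ex
    rw [G.ex_smul hl hq, G.ex_add_vert hq, nu_smul_smul hl, nu_add, nu_smul, nu_self hq, mul_one,
      Complex.exp_add, norm_smul, smul_smul, smul_smul, hμ]
    congr 1
    push_cast
    field_simp
  let S : E n →L[ℝ] E n := ContinuousLinearMap.lsmul ℝ ℂ l⁻¹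
  have hS : ∀ y, S y = l⁻¹ • y := fun y => rfl
  have e1 : G.Ex (l • q) = μ • (G.Ex q ∘ fun y => S y - c • q) := by
    funext y
    rw [Pi.smul_apply, Function.comp_apply, ← e0, sub_add_cancel, hS, smul_inv_smul₀ hl]
  have e2 : S (l • (u + c • q)) - c • q = u := by
    rw [hS, inv_smul_smul₀ hl, add_sub_cancel_right]
  have d1 : HasFDerivAt (G.Ex q) (fderiv ℝ (G.Ex q) u) (S (l • (u + c • q)) - c • q) := by
    rw [e2]; exact (G.bkg1_diffAt_Ex hq u).hasFDerivAt
  have d2 := (d1.comp (l • (u + c • q)) (S.hasFDerivAt.sub_const (c • q))).const_smul μ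
  rw [← e1] at d2
  have k1 := G.bkg1_jac_sq h hlq (l • (u + c • q))
  have k2 := G.bkg1_jac_sq h hq u
  have k3 : (GG g (G.Ex (l • q) (l • (u + c • q)))).bilinearComp
      (fderiv ℝ (G.Ex (l • q)) (l • (u + c • q))) (fderiv ℝ (G.Ex (l • q)) (l • (u + c • q))) =
      ((GG g (G.Ex q u)).bilinearComp (fderiv ℝ (G.Ex q) u) (fderiv ℝ (G.Ex q) u)).bilinearComp
        S S := by
    ext a b
    rw [d2.fderiv, e0]
    simp only [ContinuousLinearMap.bilinearComp_apply, ContinuousLinearMap.smul_apply,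
      ContinuousLinearMap.comp_apply]
    exact h.GG_inv hμ0 (G.bkg1_Ex_ne' hq u) _ _
  have k4 : GG g (l • q) = (GG g q).bilinearComp S S := by
    ext a b
    rw [ContinuousLinearMap.bilinearComp_apply, ← h.GG_inv hl hq, hS, hS, smul_inv_smul₀ hl,
      smul_inv_smul₀ hl]
  have k5 : detG g (l • q) = S.det ^ 2 * detG g q := by
    unfold detG
    rw [k4, bdet_comp]
  rw [k3, bdet_comp, ← k2, ← mul_assoc, mul_comm (S.det ^ 2), mul_assoc, ← k5] at k1
  have k6 := mul_right_cancel₀ (h.detG_pos hlq).ne' k1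
  exact (pow_left_inj₀ (G.bkg1_jac_nonneg _ _) (G.bkg1_jac_nonneg _ _) two_ne_zero).1 k6

theorem th_inv (τ : ℝ) : Inv fun x => G.th x τ := by
  intro l m c x hl hm hx
  have e := G.jac_act h hl 0 hx.1 (τ • vel g x)
  rw [zero_smul, add_zero] at e
  show G.th (act l m c x) τ = G.th x τ
  unfold th
  rw [h.vel_eqv l m c x hl hm hx, smul_comm τ l, ← e]
  rfl

theorem continuousOn_jac : ContinuousOn (fun p : VV n => G.jac p.1 p.2) {p | p.1 ≠ 0} := by
  have ho : IsOpen {p : VV n | p.1 ≠ 0} := isOpen_ne.preimage continuous_fst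
  have c1 : ContinuousOn (fderiv ℝ fun p : VV n => G.Ex p.1 p.2) {p | p.1 ≠ 0} :=
    G.contDiffOn_Ex.continuousOn_fderiv_of_isOpen ho (by simp)
  have c2 : ContinuousOn (fun p : VV n => (fderiv ℝ (fun p : VV n => G.Ex p.1 p.2) p).comp
      (ContinuousLinearMap.inr ℝ (E n) (E n))) {p | p.1 ≠ 0} :=
    c1.clm_comp continuousOn_const
  have c3 : ContinuousOn (fun p : VV n => fderiv ℝ (G.Ex p.1) p.2) {p | p.1 ≠ 0} := by
    refine c2.congr fun p hp => ?_
    have h1 : ContDiffAt ℝ ∞ (fun p : VV n => G.Ex p.1 p.2) (p.1, p.2) :=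
      G.contDiffOn_Ex.contDiffAt (ho.mem_nhds hp)
    exact ((h1.differentiableAt (by simp)).hasFDerivAt.comp p.2
      (hasFDerivAt_prodMk_right p.1 p.2)).fderiv
  have c4 : ContinuousOn (fun p : VV n => detG g (G.Ex p.1 p.2)) {p | p.1 ≠ 0} :=
    h.continuousOn_detG.comp G.contDiffOn_Ex.continuousOn fun p hp => G.bkg1_Ex_ne' hp p.2
  have c5 : ContinuousOn (fun p : VV n => detG g p.1) {p | p.1 ≠ 0} :=
    h.continuousOn_detG.comp continuousOn_fst fun p hp => hp
  unfold jac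
  exact (((ContinuousLinearMap.continuous_det.comp_continuousOn c3).abs).mul c4.sqrt).div c5.sqrt
    fun p hp => (Real.sqrt_pos.2 (h.detG_pos hp)).ne'

theorem continuousOn_th : ContinuousOn (fun p : VV n × ℝ => G.th p.1 p.2) {p | p.1 ∈ OO n} := by
  have c1 : ContinuousOn (fun p : VV n × ℝ => vel g p.1) {p | p.1 ∈ OO n} :=
    h.contDiffOn_vel.continuousOn.comp continuousOn_fst fun p hp => hp
  have c2 : ContinuousOn (fun p : VV n × ℝ => ((p.1.1, p.2 • vel g p.1) : VV n))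
      {p | p.1 ∈ OO n} :=
    (continuous_fst.comp continuous_fst).continuousOn.prodMk (continuousOn_snd.smul c1)
  unfold th
  exact (continuousOn_snd.pow _).mul
    ((G.continuousOn_jac h).comp c2 fun p hp => (show p.1 ∈ OO n from hp).1)

theorem th_spd {x : VV n} (hx : x ∈ OO n) :
    G.th x (spd g x) = spd g x ^ (2 * n - 1) * G.jac x.1 x.2 := by
  have e := G.jac_act h one_ne_zero (nu x.1 x.2) hx.1 (spd g x • vel g x)
  rw [one_smul, one_smul, ← h.snd_eq hx] at e
  unfold th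
  rw [e]

/-- The density as a ratio of Gram determinants. -/
theorem th_link (hn : 1 ≤ n) {x : VV n} (hx : x ∈ OO n) {τ : ℝ} (hτ : 0 < τ) {κ : Type} [Fintype κ]
    [DecidableEq κ] (hκ : Fintype.card κ = 2 * n - 1) (u : κ → E n)
    (hu : ∀ i, g x.1 (u i) x.2 = 0) :
    G.th x τ ^ 2 * (Matrix.of fun i j => g x.1 (u i) (u j)).det =
      (Matrix.of fun i j => g (G.Z τ x) (spd g x • G.JJ τ x (0, u i))
        (spd g x • G.JJ τ x (0, u j))).det := by
  have hq := hx.1
  have hq' : (‖x.1‖ : ℂ) ≠ 0 := by simpa using hq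
  have hZ := G.Z_ne h τ hx
  have hψ := G.psi_mem h τ hx
  have hc : Fintype.card (Fin 2 ⊕ (Unit ⊕ κ)) = 2 * n + 2 := by
    simp only [Fintype.card_sum, Fintype.card_fin, Fintype.card_unit, hκ]
    omega
  have huv : ∀ i, g x.1 (u i) (vel g x) = 0 := fun i => by
    unfold vel
    rw [map_smul, h.hor_right hq, hu i, smul_zero]
  have hvu : ∀ i, g x.1 (vel g x) (u i) = 0 := fun i => by rw [h.symm _ _ _ hq, huv]
  have hvB : vel g x ∈ Bs x := by
    refine mem_Bs.2 ⟨-(((spd g x)⁻¹ : ℝ) * nu x.1 x.2), (spd g x)⁻¹, ?_⟩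
    unfold vel
    rw [hor_def, smul_sub, neg_smul, mul_smul, Complex.coe_smul]
    abel
  have hcB : ∀ c : ℂ, c • x.1 ∈ Bs x := fun c => mem_Bs.2 ⟨c, 0, by simp⟩
  have hp : nu x.1 (τ • vel g x) = 0 := by
    rw [← Complex.coe_smul, nu_smul, h.nu_vel hq, mul_zero]
  set r : ℂ := 1 / (‖x.1‖ : ℂ) with hr
  have hr0 : r ≠ 0 := one_div_ne_zero hq'
  have hE : G.Ex x.1 (τ • vel g x) = r • G.Z τ x := by
    unfold Ex
    rw [hp, Complex.exp_zero, G.ex_vel h τ hx]
  have hT : ∀ a, fderiv ℝ (G.Ex x.1) (τ • vel g x) a = r • (nu x.1 a • G.Z τ x +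
      (g x.1 (vel g x) a • vel g (G.psi τ x) + (spd g x / τ) • G.JJ τ x (0, a))) := fun a => by
    rw [G.bkg1_fderiv_Ex_apply hq, hp, Complex.exp_zero, G.ex_vel h τ hx, G.fderiv_ex h τ hx hτ]
  have hTc : ∀ c : ℂ, fderiv ℝ (G.Ex x.1) (τ • vel g x) (c • x.1) = r • (c • G.Z τ x) := fun c => by
    rw [hT, nu_smul, nu_self hq, mul_one, h.vert' c _ hq, G.JJ_Bs h τ hx (hcB c)]
    simp
  obtain ⟨c, hgram⟩ := bkg1_exists_gram hc
    (Sum.elim ![x.1, Complex.I • x.1] (Sum.elim (fun _ => vel g x) u))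
  have k1 := hgram (GG g x.1)
  rw [bkg1_gram_vert h hq, bkg1_gram_unit _ _ _ (h.vel_unit hx) huv] at k1
  have k2 := hgram ((GG g (G.Ex x.1 (τ • vel g x))).bilinearComp
    (fderiv ℝ (G.Ex x.1) (τ • vel g x)) (fderiv ℝ (G.Ex x.1) (τ • vel g x)))
  let w : κ → E n := fun i => nu x.1 (u i) • G.Z τ x + (spd g x / τ) • G.JJ τ x (0, u i)
  have hF : ∀ a : Fin 2 ⊕ (Unit ⊕ κ), fderiv ℝ (G.Ex x.1) (τ • vel g x)
      (Sum.elim ![x.1, Complex.I • x.1] (Sum.elim (fun _ => vel g x) u) a) =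
      r • Sum.elim ![G.Z τ x, Complex.I • G.Z τ x]
        (Sum.elim (fun _ => vel g (G.psi τ x)) w) a := by
    rintro (a | a | a)
    · fin_cases a
      · simpa using hTc 1
      · simpa using hTc Complex.I
    · simp only [Sum.elim_inr, Sum.elim_inl]
      rw [hT, h.nu_vel hq, h.vel_unit hx, G.JJ_Bs h τ hx hvB]
      simp
    · simp only [Sum.elim_inr]
      rw [hT, hvu]
      simp [w]
  have hwv : ∀ i, g (G.Z τ x) (w i) (vel g (G.psi τ x)) = 0 := fun i => by
    rw [h.symm _ _ _ hZ]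
    simp only [w, map_add, map_smul]
    rw [h.vert' _ _ hZ, G.al_inv h τ hx]
    simp [al]
  have hww : ∀ i j, g (G.Z τ x) (w i) (w j) = τ⁻¹ ^ 2 *
      g (G.Z τ x) (spd g x • G.JJ τ x (0, u i)) (spd g x • G.JJ τ x (0, u j)) := fun i j => by
    simp only [w, map_add, map_smul, ContinuousLinearMap.add_apply, ContinuousLinearMap.smul_apply,
      smul_eq_mul]
    rw [h.vert _ _ _ hZ, h.vert _ _ _ hZ, h.vert' _ _ hZ]
    ring
  have e1 : (Matrix.of fun a b : Fin 2 ⊕ (Unit ⊕ κ) =>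
      ((GG g (G.Ex x.1 (τ • vel g x))).bilinearComp
        (fderiv ℝ (G.Ex x.1) (τ • vel g x)) (fderiv ℝ (G.Ex x.1) (τ • vel g x)))
        (Sum.elim ![x.1, Complex.I • x.1] (Sum.elim (fun _ => vel g x) u) a)
        (Sum.elim ![x.1, Complex.I • x.1] (Sum.elim (fun _ => vel g x) u) b)) =
      Matrix.of fun a b : Fin 2 ⊕ (Unit ⊕ κ) => GG g (G.Z τ x)
        (Sum.elim ![G.Z τ x, Complex.I • G.Z τ x] (Sum.elim (fun _ => vel g (G.psi τ x)) w) a)
        (Sum.elim ![G.Z τ x, Complex.I • G.Z τ x] (Sum.elim (fun _ => vel g (G.psi τ x)) w) b) := by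
    ext a b
    simp only [Matrix.of_apply, ContinuousLinearMap.bilinearComp_apply]
    rw [hF, hF, hE, h.GG_inv hr0 hZ]
  have e2 : (Matrix.of fun i j => g (G.Z τ x) (w i) (w j)) = τ⁻¹ ^ 2 •
      Matrix.of fun i j => g (G.Z τ x) (spd g x • G.JJ τ x (0, u i))
        (spd g x • G.JJ τ x (0, u j)) := by
    ext i j
    rw [Matrix.smul_apply, Matrix.of_apply, Matrix.of_apply, hww, smul_eq_mul]
  rw [e1, bkg1_gram_vert h hZ, bkg1_gram_unit (g (G.Z τ x)) _ _ (h.vel_unit hψ) hwv, e2, Matrix.det_smul, hκ,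
    ← G.bkg1_jac_sq h hq] at k2
  have k3 : (τ ^ (2 * n - 1)) ^ 2 * (τ⁻¹ ^ 2) ^ (2 * n - 1) = 1 := by
    rw [← pow_mul, ← pow_mul, mul_comm 2 (2 * n - 1), ← mul_pow, mul_inv_cancel₀ hτ.ne', one_pow]
  unfold th
  unfold detG at k2
  rw [k1, mul_pow, mul_assoc, mul_left_comm (G.jac x.1 (τ • vel g x) ^ 2), ← k2, ← mul_assoc, k3,
    one_mul]

end Geo

end Pool.Agent.Work.MP_8c604c_gt
end
end

-- merged part: Pool.Agent.Work.MP_8c604c_gt.BKG
section
/-!
The inequality along one geodesic of a Blaschke metric.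
Hints. WLOG work at x with unit speed (JJ_act). Take a g-orthonormal basis u_none = K, u_(some i) of the normal space
(dimension 2n-1, iota = Fin (2n-2)); A-fields (0, u_i); B-fields (u_j, y_j) with y_j normal chosen so that om vanishes on pairs of
B-fields (om_fibre). J t = JH t x composed with this linear map. Elements of JC map injectively modulo Bdir.
th_link: jac^2 = bdet (GG pulled back by D Ex) / detG (bdet_comp); evaluate in the basis z, i z, vel, u_i using fderiv_ex, al_inv.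
-/

set_option maxSynthPendingDepth 3

open Set Filter Topology MeasureTheory
open scoped ContDiff

noncomputable section
namespace Pool.Agent.Work.MP_8c604c_gt

open Real

variable {n : ℕ} {g : Met n}

namespace Geo
variable (G : Geo g) (h : IsMetric g) {x : VV n} (hx : x ∈ OO n)
include h hx

theorem bkg_add (r t : ℝ) (δ : VV n) :
    G.JH (r + t) x δ = G.JH r (G.psi t x) (fderiv ℝ (G.psi t) x δ) := by
  simp only [JH, ContinuousLinearMap.comp_apply, G.JJ_add h r t hx, Z, G.psi_add h r t hx]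

theorem bkg_congr (t : ℝ) {δ δ' : VV n} (e : δ - δ' ∈ Bdir x) : G.JH t x δ = G.JH t x δ' := by
  rw [← sub_eq_zero, ← map_sub, G.JH_Bdir h t hx e]

theorem bkg_zero (u : E n) : G.JH 0 x (0, u) = 0 := by
  rw [JH, ContinuousLinearMap.comp_apply, G.JJ_zero h hx, map_zero]

theorem bkg_gram (t : ℝ) (a b : VV n) : g (G.Z t x) (G.JH t x a) (G.JH t x b) =
    g (G.Z t x) (G.JJ t x a) (G.JJ t x b) :=
  (h.hor_left (G.Z_ne h t hx) _ _).trans (h.hor_right (G.Z_ne h t hx) _ _)

theorem bkg_deriv {u : E n} (hu : g x.1 u x.2 = 0) (w : E n) :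
    g x.1 (deriv (fun r => G.JH r x (0, spd g x • u)) 0) w = g x.1 u w := by
  have h1 := G.star h 0 hx (G.bkg_zero h hx (spd g x • u)) (w, 0)
  rwa [G.JJ_zero h hx, h.bkg_fibre hx hu, Z, G.psi_zero h hx] at h1

theorem bkg_deriv2 {u w : E n} (hu : g x.1 u x.2 = 0) (hw : g x.1 w x.2 = 0) :
    g x.1 (deriv (fun r => G.JH r x (0, spd g x • u)) 0)
      (deriv (fun r => G.JH r x (0, spd g x • w)) 0) = g x.1 u w := by
  rw [G.bkg_deriv h hx hu, h.symm _ _ _ hx.1, G.bkg_deriv h hx hw, h.symm _ _ _ hx.1]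

theorem bkg_descend {t : ℝ} {δ : VV n} (e : G.JH t x δ = 0) :
    ∃ u, g (G.psi t x).1 u (G.psi t x).2 = 0 ∧
      ∀ r, G.JH (r + t) x δ = G.JH r (G.psi t x) (0, spd g (G.psi t x) • u) := by
  have hy := G.psi_mem h t hx
  obtain ⟨c, hc⟩ := (hor_eq_zero_iff hy.1 (G.JJ t x δ)).1 e
  rw [← G.fst_fderiv_psi h t hx] at hc
  simp only [G.bkg_add h hx]
  generalize fderiv ℝ (G.psi t) x δ = d at hc ⊢
  generalize G.psi t x = y at hy hc ⊢
  have h1 := h.spd_pos hy
  refine ⟨(spd g y)⁻¹ • (d.2 - c • y.2 - (g y.1 (d.2 - c • y.2) y.2 / spd g y ^ 2) • y.2), ?_,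
    fun r => G.bkg_congr h hy r (mem_Bdir.2 ⟨c, 0, g y.1 (d.2 - c • y.2) y.2 / spd g y ^ 2,
      Prod.ext (by rw [Prod.fst_sub, sub_zero, hc]) ?_⟩)⟩
  · rw [map_smul, map_sub, map_smul, smul_apply, sub_apply, smul_apply, ← h.spd_sq hy.1,
      smul_eq_mul, smul_eq_mul, div_mul_cancel₀ _ (by positivity), sub_self, mul_zero]
  · rw [Prod.snd_sub, smul_inv_smul₀ h1.ne', zero_smul, add_zero, sub_sub, sub_sub_cancel]

end Geo

namespace BKGFr
variable {ι : Type} [Fintype ι] [DecidableEq ι] {x : VV n} {K : E n}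
  {P : (Option ι → ℝ) →L[ℝ] E n} {L : JC ι →L[ℝ] VV n} (F : BKGFr g x K P L) (h : IsMetric g)
  (hx : x ∈ OO n)
include F h hx

theorem inj {ξ : JC ι} (e : L ξ ∈ Bdir x) : ξ = 0 := by
  have h1 := om_Bdir h hx e (L (-ξ.2, ξ.1))
  rw [F.om, omJ, dotProduct_neg, sub_neg_eq_add] at h1
  have h2 : ∀ a : Option ι → ℝ, 0 ≤ a ⬝ᵥ a := fun a => Finset.sum_nonneg fun _ _ => mul_self_nonneg _
  exact Prod.ext (dotProduct_self_eq_zero.1 (by linarith [h2 ξ.1, h2 ξ.2]))
    (dotProduct_self_eq_zero.1 (by linarith [h2 ξ.1, h2 ξ.2]))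

theorem normal {u : E n} (hu : g x.1 u x.2 = 0) : ∃ a, ∃ c : ℂ, u - P a = c • x.1 := by
  obtain ⟨a, ha⟩ := F.span u
  exact ⟨a, h.bkg_vert hx (by rw [map_sub, sub_apply, hu, F.perp, sub_zero]) ha⟩

theorem surj {δ : VV n} (e : g x.1 δ.1 x.2 = 0) : ∃ ξ, δ - L ξ ∈ Bdir x := by
  obtain ⟨b, c, hb⟩ := F.normal h hx e
  obtain ⟨a, ha⟩ := F.span (δ.2 - (L (0, b)).2 - c • x.2)
  obtain ⟨c', a', ha'⟩ := mem_Bs.1 ha
  refine ⟨((spd g x)⁻¹ • a, 0) + (0, b), mem_Bdir.2 ⟨c, c', a', Prod.ext ?_ ?_⟩⟩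
  · rw [Prod.fst_sub, F.fst, Prod.snd_add, zero_add, hb]
  · rw [map_add, F.fib, map_smul, smul_inv_smul₀ (h.spd_pos hx).ne', Prod.snd_sub, Prod.snd_add,
      add_assoc, ← ha']
    abel_nf

theorem conj (G : Geo g) (t : ℝ) {K' : E n} (hk : G.IsK (G.psi t x) K') :
    ∃ ξ, ξ ≠ 0 ∧ G.JH t x (L ξ) = 0 ∧ G.JH (t + π / 2) x (L ξ) = 0 ∧
      -ξ.2 none = spd g x * g (G.Z t x) K' (G.JJ t x (0, K)) := by
  have hy := G.psi_mem h t hx
  have h1 : G.psi (-t) (G.psi t x) = x := by
    rw [← G.psi_add h _ _ hx, neg_add_cancel, G.psi_zero h hx]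
  have h2 := G.al_psi h (-t) hy (0, spd g (G.psi t x) • K')
  have h3 := G.fderiv_psi_neg h (-t) hy (0, spd g (G.psi t x) • K')
  rw [neg_neg, h1] at h3
  rw [h1] at h2
  simp only [al, ContinuousLinearMap.comp_apply, ContinuousLinearMap.coe_fst', map_zero,
    h.bkg_vel hx, mul_eq_zero, inv_eq_zero, (h.spd_pos hx).ne', false_or] at h2
  obtain ⟨ξ, h4⟩ := F.surj h hx h2
  have h5 := G.fderiv_psi_Bdir h t hx h4
  rw [map_sub, h3] at h5
  have h6 : ∀ r, G.JH (r + t) x (L ξ) = G.JH r (G.psi t x) (0, spd g (G.psi t x) • K') :=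
    fun r => by rw [G.bkg_add h hx, G.bkg_congr h hy r h5]
  refine ⟨ξ, ?_, ?_, ?_, ?_⟩
  · rintro rfl
    rw [map_zero, map_zero, sub_zero] at h5
    have h7 := om_Bdir h hy h5 (K', 0)
    rw [h.bkg_fibre hy hk.perp, hk.unit] at h7
    exact one_ne_zero h7
  · rw [← zero_add t, h6, G.bkg_zero h hy]
  · rw [add_comm t, h6, hk.ker]
    exact ⟨_, sub_self (spd g (G.psi t x) • K') ▸ Submodule.zero_mem _⟩
  · have h7 := F.om ξ (Pi.single none 1, 0)
    have h8 := bkg_om_add (g := g) (G.psi t x) (((0 : E n), spd g (G.psi t x) • K') -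
      fderiv ℝ (G.psi t) x (L ξ)) (fderiv ℝ (G.psi t) x (L ξ))
      (fderiv ℝ (G.psi t) x (L (Pi.single none 1, 0)))
    rw [sub_add_cancel, om_Bdir h hy h5, zero_add, G.om_psi h t hx, h7, h.bkg_fibre hy hk.perp,
      G.fst_fderiv_psi h t hx, F.fib, F.one, omJ, dotProduct_zero, dotProduct_single, zero_sub,
      mul_one] at h8
    rw [← h8, ← smul_eq_mul, ← map_smul, ← map_smul, Prod.smul_mk, smul_zero]
    rfl

end BKGFr

namespace Bl
variable {G : Geo g} (B : Bl g G)
include B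

theorem jac_pos {q u : E n} (hq : q ≠ 0) (hu : √(g q u u) < π / 2) : 0 < G.jac q u := by
  have h1 : G.Ex q u ≠ 0 := smul_ne_zero (div_ne_zero (Complex.exp_ne_zero _)
    (Complex.ofReal_ne_zero.2 (norm_ne_zero_iff.2 hq))) (G.ex_ne hq u)
  exact div_pos (mul_pos (abs_pos.2 (B.det_Ex_ne hq hu)) (sqrt_pos.2 (B.met.detG_pos h1)))
    (sqrt_pos.2 (B.met.detG_pos hq))

theorem bkg_sys (hK : ∀ x ∈ OO n, ∃ K, G.IsK x K) {x : VV n} (hx : x ∈ OO n) {K : E n}
    (hk : G.IsK x K) {P : (Option (Fin (2 * n - 2)) → ℝ) →L[ℝ] E n}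
    {L : JC (Fin (2 * n - 2)) →L[ℝ] VV n} (F : BKGFr g x K P L) :
    ∃ A : JSys (Fin (2 * n - 2)) (E n), (∀ t, A.g t = g (G.Z t x)) ∧
      (∀ t ξ, A.J t ξ = G.JH t x (L ξ)) ∧
      ∀ τ ∈ Ioo 0 (π / 2), A.Link τ fun t => G.th (G.psi t x) τ := by
  have h := B.met
  have hz := fun t => G.Z_ne h t hx
  have c0 : ContDiff ℝ ∞ fun t : ℝ => (t, x) := contDiff_id.prodMk contDiff_const
  have c1 : ContDiff ℝ ∞ fun t => g (G.Z t x) :=
    h.smooth.comp_contDiff ((G.contDiffOn_Z h).comp_contDiff c0 fun _ => hx) hz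
  have c2 : ContDiff ℝ ∞ fun t => (G.JH t x).comp L :=
    ((G.contDiffOn_JH h).comp_contDiff c0 fun _ => hx).clm_comp contDiff_const
  have c3 : Continuous fun t => G.psi t x :=
    ((G.contDiffOn_psi h).comp_contDiff c0 fun _ => hx).continuous
  have hn : ∀ t δ, nu (G.Z t x) (G.JH t x δ) = 0 := fun t δ => nu_hor (hz t) _
  have hc : nu x.1 (G.Z π x) ≠ 0 := norm_ne_zero_iff.1 ((B.psi_pi hx).2 ▸ one_ne_zero)
  refine ⟨⟨fun t => g (G.Z t x), fun t => (G.JH t x).comp L, c1.of_le (by simp), c2.of_le (by simp),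
    fun t u w => h.symm _ u w (hz t), fun t => h.nonneg (hz t),
    fun t ξ e => (hor_of_nu (hn t _)).symm.trans (h.hor_eq_zero (hz t) e),
    fun t ξ η e => ((h.hor_right (hz t) _ _).trans (G.star h t hx e _)).trans (F.om ξ η),
    fun t => ?_, fun a => ?_, fun a a' => ?_,
    ⟨ContinuousLinearMap.lsmul ℝ ℂ (nu x.1 (G.Z π x)), fun t =>
      ⟨fun ξ => B.JH_add_pi t hx _, fun u w => ?_⟩⟩, fun t ht hne a e => ?_, fun a => ?_,
    fun t _ => ?_⟩, fun _ => rfl, fun _ _ => rfl, fun τ hτ => ⟨?_, fun t _ => ?_, ?_⟩⟩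
  · have hy := G.psi_mem h t hx
    obtain ⟨K', hk'⟩ := hK _ hy
    obtain ⟨P', L', F'⟩ := h.bkg_frame B.two hy hk'.hor hk'.perp hk'.unit
    refine le_trans (Submodule.finrank_mono ?_) ((LinearMap.finrank_range_le
      (P' : (Option (Fin (2 * n - 2)) → ℝ) →ₗ[ℝ] E n)).trans_eq (Module.finrank_fintype_fun_eq_card ℝ))
    rintro _ ⟨ξ, rfl⟩
    have h1 := G.al_inv h t hx (L ξ)
    rw [al, ContinuousLinearMap.comp_apply, ContinuousLinearMap.coe_fst', F.fst, h.bkg_vel hx,
      F.perp, mul_zero, ← h.hor_right (hz t), Geo.Z, h.bkg_vel hy, mul_eq_zero, inv_eq_zero] at h1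
    obtain ⟨a, c, e⟩ := F'.normal h hy (h1.resolve_left (h.spd_pos hy).ne')
    have h2 := congrArg (nuL (G.psi t x).1) e
    rw [map_sub, nuL_apply, nuL_apply, nuL_apply, nu_hor hy.1, F'.hor, nu_smul, nu_self hy.1,
      mul_one, sub_zero] at h2
    rw [← h2, zero_smul, sub_eq_zero] at e
    exact ⟨a, e.symm⟩
  · rw [ContinuousLinearMap.comp_apply, F.fib, G.bkg_zero h hx]
  · simp only [ContinuousLinearMap.comp_apply, F.fib]
    rw [Geo.Z, G.psi_zero h hx, G.bkg_deriv2 h hx (F.perp a) (F.perp a'), F.gram]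
  · rw [Geo.Z, B.psi_add_pi t hx]
    exact h.inv _ _ _ _ hc (hz t)
  · refine (Prod.ext_iff.1 (F.inj h hx (B.no_conj_pair hx (s := 0) (t := t) (by rwa [sub_zero])
      (by rwa [sub_zero]) ?_ e))).1
    rw [F.fib, G.bkg_zero h hx]
  · rw [ContinuousLinearMap.comp_apply, F.fib, hk.ker, ← F.one]
    constructor
    · rintro ⟨c, e⟩ i
      have h1 := h.bkg_Bs hx (F.perp (Pi.single (some i) 1)) e
      rw [map_sub, map_smul, map_smul, F.gram, F.gram] at h1
      simpa [(h.spd_pos hx).ne'] using h1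
    · intro e
      refine ⟨spd g x * a none, ?_⟩
      rw [mul_smul, ← smul_sub, ← map_smul, ← map_sub, sub_eq_zero.2, map_zero, smul_zero]
      · exact Submodule.zero_mem _
      · ext (_ | i) <;> simp [e]
  · obtain ⟨K', hk'⟩ := hK _ (G.psi_mem h t hx)
    obtain ⟨ξ, h1, h2, h3, -⟩ := F.conj h hx G t hk'
    exact ⟨ξ, h1, h2, h3⟩
  · exact ((G.continuousOn_th h).comp_continuous (c3.prodMk continuous_const)
      fun t => G.psi_mem h t hx).continuousOn
  · have hy := G.psi_mem h t hx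
    refine mul_pos (pow_pos hτ.1 _) (B.jac_pos hy.1 ?_)
    rw [map_smul, map_smul, smul_apply, h.vel_unit hy, smul_eq_mul, smul_eq_mul, mul_one,
      sqrt_mul_self hτ.1.le]
    exact hτ.2
  · intro t ξ _ e
    have hy := G.psi_mem h t hx
    have h2 := B.two
    choose u h3 h4 using fun i => G.bkg_descend h hx (δ := L (ξ i)) (e i)
    have h5 : ∀ i, deriv (fun s => G.JH s x (L (ξ i))) t =
        deriv (fun r => G.JH r (G.psi t x) (0, spd g (G.psi t x) • u i)) 0 := fun i => by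
      rw [← funext (h4 i), deriv_comp_add_const (fun s => G.JH s x (L (ξ i))), zero_add]
    have h6 : G.Z (τ + t) x = G.Z τ (G.psi t x) := by rw [Geo.Z, G.psi_add h τ t hx, Geo.Z]
    have h7 := G.th_link h (by omega) hy hτ.1 (by simp; omega) u h3
    simp only [ContinuousLinearMap.comp_apply, h5, add_comm t τ, h4, h6, G.bkg_gram h hy]
    simp only [← map_smul (G.JJ τ (G.psi t x)), Prod.smul_mk, smul_zero] at h7
    simp only [Geo.Z, G.bkg_deriv2 h hy (h3 _) (h3 _)] at h7 ⊢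
    exact h7

theorem bk_ineq (hK : ∀ x ∈ OO n, ∃ K, G.IsK x K) {x : VV n} (hx : x ∈ OO n) {τ : ℝ}
    (hτ : τ ∈ Ioo 0 (π / 2)) :
    π * log (th0 n τ) ≤ ∫ t in (0 : ℝ)..π, log (G.th (G.psi t x) τ) := by
  obtain ⟨K, hk⟩ := hK x hx
  obtain ⟨P, L, F⟩ := B.met.bkg_frame B.two hx hk.hor hk.perp hk.unit
  obtain ⟨A, -, -, h3⟩ := B.bkg_sys hK hx hk F
  have h4 := A.ineq hτ (h3 τ hτ)
  rwa [Fintype.card_fin] at h4

theorem bk_eq (hK : ∀ x ∈ OO n, ∃ K, G.IsK x K) {x : VV n} (hx : x ∈ OO n) {K : E n}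
    (hk : G.IsK x K) {τ : ℝ} (hτ : τ ∈ Ioo 0 (π / 2))
    (e : π * log (th0 n τ) = ∫ t in (0 : ℝ)..π, log (G.th (G.psi t x) τ)) {u : E n}
    (hu : g x.1 u x.2 = 0) :
    g (G.Z τ x) (spd g x • G.JJ τ x (0, u)) (spd g x • G.JJ τ x (0, u)) =
      sin τ ^ 2 * (g x.1 u u - g x.1 u K ^ 2) + (sin (2 * τ) / 2) ^ 2 * g x.1 u K ^ 2 := by
  have h := B.met
  obtain ⟨P, L, F⟩ := h.bkg_frame B.two hx hk.hor hk.perp hk.unit
  obtain ⟨A, h1, h2, h3⟩ := B.bkg_sys hK hx hk F
  obtain ⟨a, c, ha⟩ := F.normal h hx hu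
  have h4 := A.eq_case hτ (h3 τ hτ) (by rwa [Fintype.card_fin]) a a
  have h5 : ∀ w, g x.1 u w = g x.1 (P a) w := fun w => by
    rw [sub_eq_iff_eq_add.1 ha, map_add, add_apply, h.vert c _ w hx.1, zero_add]
  have h6 : G.JJ τ x (0, u) = G.JJ τ x (0, P a) := by
    rw [← sub_eq_zero, ← map_sub, Prod.mk_sub_mk, sub_zero, ha]
    exact G.JJ_Bs h τ hx (mem_Bs.2 ⟨c, 0, by rw [zero_smul, add_zero]⟩)
  rw [h1, h2, G.bkg_gram h hx, F.fib] at h4
  rw [h6, ← map_smul, Prod.smul_mk, smul_zero, h4, h5, h5, h.symm _ _ u hx.1, h5, ← F.one, F.gram,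
    F.gram, dotProduct_single, dotProduct, Fintype.sum_option]
  ring

theorem pair_ne (hK : ∀ x ∈ OO n, ∃ K, G.IsK x K) {x : VV n} (hx : x ∈ OO n) {K : E n}
    (hk : G.IsK x K) {t : ℝ} (ht : t ∈ Ioo 0 (π / 2)) {K' : E n} (hk' : G.IsK (G.psi t x) K') :
    g (G.Z t x) K' (G.JJ t x (0, K)) ≠ 0 := by
  obtain ⟨P, L, F⟩ := B.met.bkg_frame B.two hx hk.hor hk.perp hk.unit
  obtain ⟨A, -, h2, -⟩ := B.bkg_sys hK hx hk F
  obtain ⟨ξ, e1, e2, e3, e4⟩ := F.conj B.met hx G t hk'
  intro e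
  rw [e, mul_zero, neg_eq_zero] at e4
  exact A.om_ne ht e1 ((h2 _ _).trans e2) ((h2 _ _).trans e3) e4

end Bl

end Pool.Agent.Work.MP_8c604c_gt
end
end

-- merged part: Pool.Agent.Work.MP_8c604c_gt.NVolA
section
/-!
The contact volume is a universal multiple of the Riemannian volume.
Hints. Let s = spd g, a = al g, A = one1 (GG g z w o fst) = s a + Re nu * d log|z| + Im nu * Theta. Pointwise
top ((dA)^(2n+2)) = c0 * detG g z (Legendre map (z,w) -> (z, GG z w), Lam.sum_pow, top_lmap, block triangular determinant).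
Expand dA = d(s a) + dnu1 drho + dnu2 Theta + nu2 x0 and d(s a) = ds a + s da; by Lam.top_horizontal only the term
s^(2n) (dlog s) a (da)^(2n-1) dnu1 drho dnu2 Theta survives (terms with x0: the density is invariant under w -> w + c z, so take nu2 = 0,
or count fibre degrees). So the integrand of II is c1 * detG * s^(-2n) wt(log|z|) wt(log s) wt(nu1) wt(nu2). Integrate over w with a
linear map that is an isometry from the Euclidean structure to GG g z and sends two basis vectors to z, i z.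
-/

set_option maxSynthPendingDepth 3

open Set Filter Topology MeasureTheory
open scoped ContDiff

noncomputable section
namespace Pool.Agent.Work.MP_8c604c_gt

open Real

variable {n : ℕ}

/-- An orthonormal frame of the horizontal space. -/
theorem nvola_frame {g : Met n} (h : IsMetric g) {z : E n} (hz : z ≠ 0) :
    ∃ S : EuclideanSpace ℝ (Fin (2 * n)) →ₗ[ℝ] E n, (∀ y, nu z (S y) = 0) ∧
      ∀ y y', g z (S y) (S y') = inner ℝ y y' := by
  let H : Submodule ℝ (E n) := LinearMap.ker (nuL z).toLinearMap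
  have hH : Module.finrank ℝ H = 2 * n := by
    have h1 := LinearMap.finrank_range_add_finrank_ker (nuL z).toLinearMap
    have h2 : LinearMap.range (nuL z).toLinearMap = ⊤ := LinearMap.range_eq_top.2 fun c =>
      ⟨c • z, by
        show nu z (c • z) = c
        rw [nu_smul, nu_self hz, mul_one]⟩
    rw [h2, finrank_top, Complex.finrank_real_complex, finrank_E] at h1
    show Module.finrank ℝ (LinearMap.ker (nuL z).toLinearMap) = _
    omega
  let B : LinearMap.BilinForm ℝ H := LinearMap.mk₂ ℝ (fun u w => g z u w)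
    (fun _ _ _ => by simp) (fun _ _ _ => by simp) (fun _ _ _ => by simp) (fun _ _ _ => by simp)
  have hB : ∀ u w : H, B u w = g z u w := fun _ _ => rfl
  obtain ⟨v, hv⟩ := LinearMap.BilinForm.exists_orthogonal_basis (B := B)
    ⟨fun u w => h.symm z u w hz⟩
  let b := v.reindex (finCongr hH)
  have hb0 : ∀ i, nu z (b i) = 0 := fun i => (b i).2
  have hb1 : ∀ i j, i ≠ j → g z (b i) (b j) = 0 := fun i j hij => by
    simp only [b, Module.Basis.reindex_apply]
    exact hv ((finCongr hH).symm.injective.ne hij)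
  have hb2 : ∀ i, 0 < g z (b i) (b i) := fun i => by
    refine lt_of_le_of_ne (h.nonneg hz _) fun e => b.ne_zero i (Subtype.ext ?_)
    have := h.hor_eq_zero hz e.symm
    rwa [hor_of_nu (hb0 i)] at this
  obtain ⟨e, he⟩ : ∃ e : Fin (2 * n) → E n, ∀ i, e i = (√(g z (b i) (b i)))⁻¹ • (b i : E n) :=
    ⟨_, fun _ => rfl⟩
  have he0 : ∀ i, nuL z (e i) = 0 := fun i => by
    rw [he, map_smul, nuL_apply, hb0, smul_zero]
  have he1 : ∀ i j, g z (e i) (e j) = if i = j then 1 else 0 := fun i j => by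
    simp only [he, map_smul, smul_apply, smul_eq_mul]
    split_ifs with hij
    · subst hij
      have h1 := Real.mul_self_sqrt (hb2 i).le
      have h2 := (Real.sqrt_pos.2 (hb2 i)).ne'
      field_simp
      linarith
    · rw [hb1 i j hij, mul_zero, mul_zero]
  refine ⟨Fintype.linearCombination ℝ e ∘ₗ (WithLp.linearEquiv 2 ℝ _).toLinearMap, fun y => ?_,
    fun y y' => ?_⟩
  · show nuL z (∑ i, y i • e i) = 0
    simp only [map_sum, map_smul, he0, smul_zero, Finset.sum_const_zero]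
  · show g z (∑ i, y i • e i) (∑ i, y' i • e i) = _
    simp only [map_sum, map_smul, sum_apply, smul_apply, he1, smul_eq_mul, mul_ite, mul_one,
      mul_zero, Finset.sum_ite_eq', Finset.mem_univ, if_true, PiLp.inner_apply]
    exact Finset.sum_congr rfl fun i _ => by simp

/-- Fibre integrals: a function of the speed and of the vertical coordinate. -/
theorem fibre_integral {g : Met n} (h : IsMetric g) {z : E n} (hz : z ≠ 0) (f : ℝ → ENNReal)
    (hf : Measurable f) (k : ℂ → ENNReal) (hk : Measurable k) :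
    ∫⁻ w : E n, f (√(g z w w)) * k (nu z w) * ENNReal.ofReal √(detG g z) =
      (∫⁻ y : EuclideanSpace ℝ (Fin (2 * n)), f ‖y‖) * ∫⁻ c, k c := by
  obtain ⟨S, hS0, hS1⟩ := nvola_frame h hz
  have hdim : Module.finrank ℝ (E n) =
      Module.finrank ℝ (WithLp 2 (EuclideanSpace ℝ (Fin (2 * n)) × ℂ)) := by
    rw [finrank_E, (WithLp.linearEquiv 2 ℝ _).finrank_eq, Module.finrank_prod,
      finrank_euclideanSpace_fin, Complex.finrank_real_complex]
  let J : E n ≃ₗᵢ[ℝ] WithLp 2 (EuclideanSpace ℝ (Fin (2 * n)) × ℂ) :=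
    (stdOrthonormalBasis ℝ _).equiv (stdOrthonormalBasis ℝ _) (finCongr hdim)
  let L : EuclideanSpace ℝ (Fin (2 * n)) × ℂ →ₗ[ℝ] E n :=
    S.coprod ((LinearMap.toSpanSingleton ℂ (E n) z).restrictScalars ℝ)
  let T : E n →ₗ[ℝ] E n := L ∘ₗ (WithLp.linearEquiv 2 ℝ _).toLinearMap ∘ₗ J.toLinearEquiv.toLinearMap
  have hT : ∀ x, T x = S (J x).ofLp.1 + (J x).ofLp.2 • z := fun _ => rfl
  have hnu : ∀ x, nu z (T x) = (J x).ofLp.2 := fun x => by
    rw [hT, nu_add, hS0, nu_smul, nu_self hz, zero_add, mul_one]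
  have hg : ∀ x x', g z (T x) (T x') = inner ℝ (J x).ofLp.1 (J x').ofLp.1 := fun x x' => by
    rw [hT, hT, map_add, h.vert' _ _ hz, add_zero, map_add, add_apply, h.vert _ _ _ hz, add_zero,
      hS1]
  have hG : ∀ x x', GG g z (T x) (T x') = inner ℝ x x' := fun x x' => by
    rw [GG_apply, hg, hnu, hnu, ← J.inner_map_map, WithLp.prod_inner_apply, Complex.inner]
    simp only [Complex.mul_re, Complex.conj_re, Complex.conj_im]
    ring
  have hdet : (LinearMap.det T) ^ 2 * detG g z = 1 := by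
    have h1 := bdet_comp (GG g z) (LinearMap.toContinuousLinearMap T)
    rw [LinearMap.det_toContinuousLinearMap] at h1
    rw [detG, ← h1, bdet, ← Matrix.det_one (n := Fin (Module.finrank ℝ (E n)))]
    congr 1
    ext i j
    rw [Matrix.of_apply, ContinuousLinearMap.bilinearComp_apply, Matrix.one_apply]
    exact (hG _ _).trans (orthonormal_iff_ite.1 (stdOrthonormalBasis ℝ (E n)).orthonormal i j)
  have hd0 : LinearMap.det T ≠ 0 := by
    intro e
    rw [e] at hdet
    simp at hdet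
  have hsq : √(detG g z) = |(LinearMap.det T)⁻¹| := by
    rw [← Real.sqrt_sq_eq_abs, inv_pow, eq_inv_of_mul_eq_one_right hdet]
  have hF : Measurable fun w : E n => f (√(g z w w)) * k (nu z w) := by
    refine (hf.comp ?_).mul (hk.comp (nuL z).continuous.measurable)
    exact (((g z).continuous.clm_apply continuous_id).sqrt).measurable
  rw [lintegral_mul_const _ hF, mul_comm, hsq, ← smul_eq_mul, ← lintegral_smul_measure,
    ← Measure.map_linearMap_addHaar_eq_smul_addHaar volume hd0,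
    lintegral_map hF T.continuous_of_finiteDimensional.measurable]
  have hP := (WithLp.volume_preserving_ofLp (EuclideanSpace ℝ (Fin (2 * n))) ℂ).comp
    J.measurePreserving
  have hf' : Measurable fun y : EuclideanSpace ℝ (Fin (2 * n)) => f ‖y‖ := hf.comp measurable_norm
  rw [← lintegral_prod_mul hf'.aemeasurable hk.aemeasurable, ← Measure.volume_eq_prod,
    ← hP.lintegral_comp (f := fun p => f ‖p.1‖ * k p.2)
      ((hf'.comp measurable_fst).mul (hk.comp measurable_snd))]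
  refine lintegral_congr fun x => ?_
  rw [hg, hnu, real_inner_self_eq_norm_sq, Real.sqrt_sq (norm_nonneg _)]
  rfl

end Pool.Agent.Work.MP_8c604c_gt
end
end

-- merged part: Pool.Agent.Work.MP_8c604c_gt.Vol
section
/-!
The volume inequality and its equality case (see PLAN.md, section Vol).
-/

set_option maxSynthPendingDepth 3

open Set Filter Topology MeasureTheory
open scoped ContDiff

noncomputable section
namespace Pool.Agent.Work.MP_8c604c_gt

open Real

variable {n : ℕ} {g : Met n}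

theorem Vol_wt_zero : wt 0 = 0 := by
  have h : Iio (0 : ℝ) ⊆ {r | wt r = 0} := fun r hr => wt_eq_zero fun h => h.1.not_gt hr
  have h2 := (isClosed_eq contDiff_wt.continuous continuous_const).closure_subset_iff.2 h
  rw [closure_Iio] at h2
  exact h2 (mem_Iic.2 le_rfl)

theorem Vol_wt_pos : ∃ r, 0 < wt r := by
  by_contra h
  push Not at h
  have e : wt = fun _ => 0 := funext fun r => le_antisymm (h r) (wt_nonneg r)
  have := integral_wt
  rw [e] at this
  simp at this

theorem Vol_wt_lint : ∫⁻ r, ENNReal.ofReal (wt r) = 1 := by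
  rw [← ofReal_integral_eq_lintegral_ofReal
    (Integrable.of_integral_ne_zero (by rw [integral_wt]; exact one_ne_zero))
    (Eventually.of_forall wt_nonneg), integral_wt, ENNReal.ofReal_one]

/-- The weight of the vertical coordinate. -/
def Vol_k (c : ℂ) : ENNReal := ENNReal.ofReal (wt c.re) * (Ioo (-π) π).indicator 1 c.im

theorem Vol_k_meas : Measurable Vol_k :=
  (contDiff_wt.continuous.measurable.comp Complex.measurable_re).ennreal_ofReal.mul
    ((measurable_one.indicator measurableSet_Ioo).comp Complex.measurable_im)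

theorem Vol_k_lint : ∫⁻ c, Vol_k c = ENNReal.ofReal (2 * π) := by
  have h := Complex.volume_preserving_equiv_real_prod.lintegral_map_equiv
    (fun p : ℝ × ℝ => ENNReal.ofReal (wt p.1) * (Ioo (-π) π).indicator 1 p.2) _
  refine h.symm.trans ?_
  rw [Measure.volume_eq_prod, lintegral_prod_mul (f := fun r => ENNReal.ofReal (wt r))
    contDiff_wt.continuous.measurable.ennreal_ofReal.aemeasurable
    (measurable_one.indicator measurableSet_Ioo).aemeasurable, Vol_wt_lint, one_mul,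
    lintegral_indicator_one measurableSet_Ioo, Real.volume_Ioo]
  congr 1
  ring

theorem Vol_lint (h : IsMetric g) :
    ∫⁻ y : E n, ENNReal.ofReal (√(detG g y) * wt (log ‖y‖)) = ENNReal.ofReal (vol g) := by
  refine (ofReal_integral_eq_lintegral_ofReal ?_
    (Eventually.of_forall fun y => mul_nonneg (sqrt_nonneg _) (wt_nonneg _))).symm
  have hK : IsCompact (Metric.closedBall (0 : E n) (exp 1) \ Metric.ball 0 1) :=
    (isCompact_closedBall _ _).diff Metric.isOpen_ball
  have hs : Metric.closedBall (0 : E n) (exp 1) \ Metric.ball 0 1 ⊆ {0}ᶜ := by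
    rintro y hy rfl
    exact hy.2 (Metric.mem_ball_self one_pos)
  refine IntegrableOn.integrable_of_forall_notMem_eq_zero
    (ContinuousOn.integrableOn_compact hK ?_) fun y hy => ?_
  · exact ((h.continuousOn_detG.mono hs).sqrt).mul (contDiff_wt.continuous.comp_continuousOn
      (continuous_norm.continuousOn.log fun y hy => norm_ne_zero_iff.2 (hs hy)))
  · by_cases h0 : y = 0
    · rw [h0, norm_zero, log_zero, Vol_wt_zero, mul_zero]
    · have h1 : 0 < ‖y‖ := norm_pos_iff.2 h0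
      rw [wt_eq_zero, mul_zero]
      refine fun h2 => hy ⟨?_, ?_⟩
      · rw [mem_closedBall_zero_iff]
        exact (log_le_iff_le_exp h1).1 h2.2
      · rw [mem_ball_zero_iff, not_lt]
        exact (log_nonneg_iff h1).1 h2.1

/-- The region of integration. -/
def Vol_R (g : Met n) : Set (VV n) :=
  {x | x ∈ OO n ∧ spd g x < π / 2 ∧ |(nu x.1 x.2).im| < π}

/-- The weight. -/
def Vol_w (g : Met n) (x : VV n) : ℝ := wt (log ‖x.1‖) * wt (nu x.1 x.2).re * detG g x.1

/-- The integral of the Jacobian along the flow. -/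
def Vol_avg (G : Geo g) (x : VV n) : ℝ := ∫ t in (0 : ℝ)..π, G.jac (G.psi t x).1 (G.psi t x).2

theorem Vol_nu_cont : ContinuousOn (fun x : VV n => nu x.1 x.2) (OO n) :=
  (contDiffOn_nuL.continuousOn.comp continuousOn_fst fun _ hx => hx.1).clm_apply continuousOn_snd

theorem Vol_open (h : IsMetric g) : IsOpen (Vol_R g) := by
  have h1 := h.contDiffOn_spd.continuousOn.isOpen_inter_preimage isOpen_OO (isOpen_Iio (a := π / 2))
  have h2 := (Complex.continuous_im.comp_continuousOn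
    (Vol_nu_cont (n := n))).abs.isOpen_inter_preimage isOpen_OO (isOpen_Iio (a := π))
  have e : Vol_R g = OO n ∩ spd g ⁻¹' Iio (π / 2) ∩
      (OO n ∩ (fun x => |(Complex.im ∘ fun x => nu x.1 x.2) x|) ⁻¹' Iio π) := by
    ext x
    exact ⟨fun hx => ⟨⟨hx.1, hx.2.1⟩, hx.1, hx.2.2⟩, fun hx => ⟨hx.1.1, hx.1.2, hx.2.2⟩⟩
  rw [e]
  exact h1.inter h2

theorem Vol_w_cont (h : IsMetric g) : ContinuousOn (Vol_w g) (OO n) :=
  ((contDiff_wt.continuous.comp_continuousOn
    (continuous_fst.norm.continuousOn.log fun _ hx => norm_ne_zero_iff.2 hx.1)).mul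
    (contDiff_wt.continuous.comp_continuousOn
      (Complex.continuous_re.comp_continuousOn Vol_nu_cont))).mul
    (h.continuousOn_detG.comp continuousOn_fst fun _ hx => hx.1)

theorem Vol_w_nonneg (h : IsMetric g) {x : VV n} (hx : x.1 ≠ 0) : 0 ≤ Vol_w g x :=
  mul_nonneg (mul_nonneg (wt_nonneg _) (wt_nonneg _)) (h.detG_pos hx).le

theorem Vol_jac_nonneg (G : Geo g) (q u : E n) : 0 ≤ G.jac q u := by
  unfold Geo.jac
  positivity

theorem Vol_psi_mem (G : Geo g) (h : IsMetric g) (t : ℝ) {x : VV n} (hx : x ∈ Vol_R g) :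
    G.psi t x ∈ Vol_R g :=
  ⟨G.psi_mem h t hx.1, by rw [G.spd_psi h t hx.1]; exact hx.2.1,
    by rw [G.nu_psi h t hx.1]; exact hx.2.2⟩

theorem Vol_psi (G : Geo g) (h : IsMetric g) (t : ℝ) {f : VV n → ℝ} :
    ∫⁻ x in Vol_R g, ENNReal.ofReal (f (G.psi t x) * Vol_w g x) =
      ∫⁻ x in Vol_R g, ENNReal.ofReal (f x * Vol_w g x) := by
  have hinv : ∀ s x, x ∈ OO n → G.psi (-s) (G.psi s x) = x := fun s x hx => by
    rw [← G.psi_add h _ _ hx, neg_add_cancel, G.psi_zero h hx]
  have him : G.psi t '' Vol_R g = Vol_R g := by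
    refine Subset.antisymm ?_ fun x hx => ⟨_, Vol_psi_mem G h (-t) hx, ?_⟩
    · rintro _ ⟨x, hx, rfl⟩
      exact Vol_psi_mem G h t hx
    · have := hinv (-t) x hx.1
      rwa [neg_neg] at this
  have hd : ∀ x ∈ Vol_R g, HasFDerivWithinAt (G.psi t) (fderiv ℝ (G.psi t) x) (Vol_R g) x := by
    intro x hx
    have h1 : ContDiffAt ℝ ∞ (fun p : ℝ × VV n => G.psi p.1 p.2) (t, x) :=
      (G.contDiffOn_psi h).contDiffAt ((isOpen_OO.preimage continuous_snd).mem_nhds hx.1)
    have h2 : ContDiffAt ℝ ∞ (G.psi t) x := h1.comp x (contDiffAt_const.prodMk contDiffAt_id)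
    exact (h2.differentiableAt (by simp)).hasFDerivAt.hasFDerivWithinAt
  have hi : InjOn (G.psi t) (Vol_R g) := fun x hx y hy e => by
    rw [← hinv t x hx.1, e, hinv t y hy.1]
  have key := lintegral_image_eq_lintegral_abs_det_fderiv_mul volume (Vol_open h).measurableSet hd hi
    fun x => ENNReal.ofReal (f x * Vol_w g x)
  rw [him] at key
  rw [key]
  refine setLIntegral_congr_fun (Vol_open h).measurableSet fun x hx => ?_
  beta_reduce
  rw [← ENNReal.ofReal_mul (abs_nonneg _)]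
  congr 1
  have e1 : ‖(G.psi t x).1‖ = ‖x.1‖ := G.norm_Z h t hx.1
  have e2 : |(fderiv ℝ (G.psi t) x).det| * detG g (G.psi t x).1 = detG g x.1 := G.det_psi h t hx.1
  unfold Vol_w
  rw [e1, G.nu_psi h t hx.1, ← e2]
  ring

theorem Vol_jac_cont (G : Geo g) (h : IsMetric g) :
    ContinuousOn (fun p : ℝ × VV n => G.jac (G.psi p.1 p.2).1 (G.psi p.1 p.2).2)
      {p | p.2 ∈ OO n} :=
  (G.continuousOn_jac h).comp (G.contDiffOn_psi h).continuousOn fun p hp => (G.psi_mem h p.1 hp).1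

theorem Vol_jac_cont' (G : Geo g) (h : IsMetric g) {x : VV n} (hx : x ∈ OO n) :
    Continuous fun t => G.jac (G.psi t x).1 (G.psi t x).2 := by
  have := (Vol_jac_cont G h).comp_continuous (f := fun t : ℝ => (t, x)) (by fun_prop) fun _ => hx
  exact this

theorem Vol_avg_cont (G : Geo g) (h : IsMetric g) : ContinuousOn (Vol_avg G) (OO n) := by
  rw [continuousOn_iff_continuous_domRestrict]
  have := (Vol_jac_cont G h).comp_continuous (f := fun p : OO n × ℝ => (p.2, (p.1 : VV n)))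
    (by fun_prop) fun p => p.1.2
  exact intervalIntegral.continuous_parametric_intervalIntegral_of_continuous'
    (f := fun (x : OO n) t => G.jac (G.psi t x).1 (G.psi t x).2) this 0 π

theorem Vol_avg_lint (G : Geo g) (h : IsMetric g) :
    ∫⁻ x in Vol_R g, ENNReal.ofReal (Vol_avg G x * Vol_w g x) =
      ENNReal.ofReal π * ∫⁻ x in Vol_R g, ENNReal.ofReal (G.jac x.1 x.2 * Vol_w g x) := by
  have h1 : ∫⁻ t in Ioc 0 π, ∫⁻ x in Vol_R g,
      ENNReal.ofReal (G.jac (G.psi t x).1 (G.psi t x).2 * Vol_w g x) =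
      ENNReal.ofReal π * ∫⁻ x in Vol_R g, ENNReal.ofReal (G.jac x.1 x.2 * Vol_w g x) := by
    simp only [Vol_psi G h _ (f := fun x => G.jac x.1 x.2)]
    rw [setLIntegral_const, Real.volume_Ioc, sub_zero, mul_comm]
  rw [← h1, lintegral_lintegral_swap]
  · refine setLIntegral_congr_fun (Vol_open h).measurableSet fun x hx => ?_
    rw [← ofReal_integral_eq_lintegral_ofReal, integral_mul_const,
      ← intervalIntegral.integral_of_le pi_pos.le]
    · rfl
    · exact ((Vol_jac_cont' G h hx.1).mul continuous_const).integrableOn_Ioc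
    · exact Eventually.of_forall fun t =>
        mul_nonneg (Vol_jac_nonneg G _ _) (Vol_w_nonneg h hx.1.1)
  · rw [Measure.prod_restrict]
    refine ContinuousOn.aemeasurable ?_ (measurableSet_Ioc.prod (Vol_open h).measurableSet)
    exact ENNReal.continuous_ofReal.comp_continuousOn
      (((Vol_jac_cont G h).mono fun p hp => hp.2.1).mul
        ((Vol_w_cont h).comp continuousOn_snd fun p hp => hp.2.1))

theorem Vol_log {θ : ℝ → ℝ} (hc : Continuous θ) (hp : ∀ t, 0 < θ t) {a : ℝ} (ha : 0 < a) :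
    a * ((∫ t in (0 : ℝ)..π, log (θ t)) - π * log a) ≤ (∫ t in (0 : ℝ)..π, θ t) - π * a := by
  have hl : Continuous fun t => log (θ t) := hc.log fun t => (hp t).ne'
  have h1 : ∫ t in (0 : ℝ)..π, a * (log (θ t) - log a) ≤ ∫ t in (0 : ℝ)..π, (θ t - a) := by
    refine intervalIntegral.integral_mono_on pi_pos.le
      ((continuous_const.mul (hl.sub continuous_const)).intervalIntegrable _ _)
      ((hc.sub continuous_const).intervalIntegrable _ _) fun t _ => ?_
    have h2 := log_le_sub_one_of_pos (div_pos (hp t) ha)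
    rw [log_div (hp t).ne' ha.ne'] at h2
    refine (mul_le_mul_of_nonneg_left h2 ha.le).trans (le_of_eq ?_)
    field_simp
  rw [intervalIntegral.integral_const_mul,
    intervalIntegral.integral_sub (hl.intervalIntegrable _ _) intervalIntegrable_const,
    intervalIntegral.integral_sub (hc.intervalIntegrable _ _) intervalIntegrable_const] at h1
  simpa using h1

theorem Vol_th0_pos {τ : ℝ} (hτ : τ ∈ Ioo 0 (π / 2)) : 0 < th0 n τ := by
  have h1 : 0 < sin τ := sin_pos_of_pos_of_lt_pi hτ.1 (by linarith [hτ.2, pi_pos])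
  have h2 : 0 < sin (2 * τ) := sin_pos_of_pos_of_lt_pi (by linarith [hτ.1]) (by linarith [hτ.2])
  unfold th0
  positivity

theorem Vol_j_cont (h : IsMetric g) :
    ContinuousOn (fun x : VV n => th0 n (spd g x) / spd g x ^ (2 * n - 1)) (OO n) := by
  have h1 : Continuous (th0 n) := by
    unfold th0
    fun_prop
  exact (h1.comp_continuousOn h.contDiffOn_spd.continuousOn).div
    (h.contDiffOn_spd.continuousOn.pow _) fun x hx => pow_ne_zero _ (h.spd_pos hx).ne'

theorem Vol_model (hn : 1 ≤ n) (h : IsMetric g) :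
    ∫⁻ x in Vol_R g, ENNReal.ofReal (th0 n (spd g x) / spd g x ^ (2 * n - 1) * Vol_w g x) =
      ENNReal.ofReal (vol g) * ENNReal.ofReal (vol (fsM n)) := by
  have hR := (Vol_open h).measurableSet
  have hf : Measurable ((Ioo 0 (π / 2)).indicator
      fun r : ℝ => ENNReal.ofReal (th0 n r / r ^ (2 * n - 1))) := by
    refine Measurable.indicator (Measurable.ennreal_ofReal ?_) measurableSet_Ioo
    unfold th0
    fun_prop
  have hv : ENNReal.ofReal (vol (fsM n)) =
      ENNReal.ofReal (π ^ n / n.factorial) * ENNReal.ofReal (2 * π) := by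
    rw [vol_fsM, ← ENNReal.ofReal_mul (by positivity)]
    congr 1
    ring
  rw [← lintegral_indicator hR, Measure.volume_eq_prod, lintegral_prod, ← Vol_lint h,
    ← lintegral_mul_const' _ _ ENNReal.ofReal_ne_top]
  · refine lintegral_congr fun z => ?_
    by_cases hz : z = 0
    · have : ∀ u : E n, (z, u) ∉ Vol_R g := fun u hu => hu.1.1 hz
      simp only [indicator_of_notMem (this _)]
      rw [hz, norm_zero, log_zero, Vol_wt_zero]
      simp
    rw [hv, ← model_integral hn, ← Vol_k_lint, ← fibre_integral h hz _ hf _ Vol_k_meas,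
      ← lintegral_const_mul' _ _ ENNReal.ofReal_ne_top]
    refine lintegral_congr fun u => ?_
    by_cases hu : (z, u) ∈ Vol_R g
    · have h1 : √(g z u u) ∈ Ioo 0 (π / 2) := ⟨h.spd_pos hu.1, hu.2.1⟩
      have h2 : (nu z u).im ∈ Ioo (-π) π := abs_lt.1 hu.2.2
      have h3 : 0 ≤ th0 n √(g z u u) / √(g z u u) ^ (2 * n - 1) :=
        div_nonneg (Vol_th0_pos h1).le (pow_nonneg h1.1.le _)
      unfold Vol_k
      rw [indicator_of_mem hu, indicator_of_mem h1, indicator_of_mem h2, Pi.one_apply, mul_one,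
        ← ENNReal.ofReal_mul h3, ← ENNReal.ofReal_mul (mul_nonneg h3 (wt_nonneg _)),
        ← ENNReal.ofReal_mul (mul_nonneg (sqrt_nonneg _) (wt_nonneg _))]
      congr 1
      unfold Vol_w spd
      linear_combination (-(th0 n √(g z u u) / √(g z u u) ^ (2 * n - 1) * wt (log ‖z‖) *
        wt (nu z u).re)) * mul_self_sqrt (h.detG_pos hz).le
    · rw [indicator_of_notMem hu]
      by_cases h1 : √(g z u u) ∈ Ioo 0 (π / 2)
      · have h2 : (nu z u).im ∉ Ioo (-π) π := fun h2 => hu ⟨⟨hz, fun c hc => by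
          have hc' : u = c • z := hc
          rw [hc', h.vert c z _ hz, sqrt_zero] at h1
          exact h1.1.false⟩, h1.2, abs_lt.2 h2⟩
        unfold Vol_k
        rw [indicator_of_notMem h2]
        simp
      · rw [indicator_of_notMem h1]
        simp
  · rw [← Measure.volume_eq_prod, aemeasurable_indicator_iff hR]
    exact (ENNReal.continuous_ofReal.comp_continuousOn
      (((Vol_j_cont h).mul (Vol_w_cont h)).mono fun x hx => hx.1)).aemeasurable hR

namespace Bl
variable {G : Geo g} (B : Bl g G)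
include B

/-- Change of variables for the completed exponential map. -/
theorem jac_le_vol {q : E n} (hq : q ≠ 0) :
    ∫⁻ u in {u | √(g q u u) < π / 2 ∧ |(nu q u).im| < π},
      ENNReal.ofReal (G.jac q u * wt (nu q u).re * √(detG g q)) ≤ ENNReal.ofReal (vol g) := by
  have h := B.met
  have hq' : (‖q‖ : ℂ) ≠ 0 := by simpa using hq
  have hS : MeasurableSet {u : E n | √(g q u u) < π / 2 ∧ |(nu q u).im| < π} := by
    have h1 : Continuous fun u : E n => √(g q u u) := by fun_prop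
    have h2 : Continuous fun u : E n => |(nu q u).im| :=
      (Complex.continuous_im.comp (nuL q).continuous).abs
    exact ((isOpen_lt h1 continuous_const).inter (isOpen_lt h2 continuous_const)).measurableSet
  have hd : ∀ u ∈ {u : E n | √(g q u u) < π / 2 ∧ |(nu q u).im| < π},
      HasFDerivWithinAt (G.Ex q) (fderiv ℝ (G.Ex q) u)
        {u : E n | √(g q u u) < π / 2 ∧ |(nu q u).im| < π} u := by
    intro u _
    have h1 : ContDiffAt ℝ ∞ (fun p : VV n => G.Ex p.1 p.2) (q, u) :=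
      G.contDiffOn_Ex.contDiffAt ((isOpen_ne.preimage continuous_fst).mem_nhds hq)
    have h2 := h1.comp (f := fun u : E n => (q, u)) u (contDiffAt_const.prodMk contDiffAt_id)
    have h3 : ContDiffAt ℝ ∞ (G.Ex q) u := h2
    exact (h3.differentiableAt (by simp)).hasFDerivAt.hasFDerivWithinAt
  have hi : InjOn (G.Ex q) {u : E n | √(g q u u) < π / 2 ∧ |(nu q u).im| < π} := by
    intro u hu u' hu' e
    have e1 : G.ex q u = Complex.exp (nu q u' - nu q u) • G.ex q u' := by
      have h0 : Complex.exp (nu q u) / (‖q‖ : ℂ) ≠ 0 := div_ne_zero (Complex.exp_ne_zero _) hq'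
      refine smul_right_injective _ h0 ?_
      unfold Geo.Ex at e
      beta_reduce
      rw [e, smul_smul, Complex.exp_sub]
      congr 1
      field_simp
    obtain ⟨e2, e3⟩ := B.ex_inj hq hu.1 hu'.1 e1
    obtain ⟨k, hk⟩ := Complex.exp_eq_one_iff.1 e3
    have h1 := congrArg Complex.im hk
    have h2 := abs_lt.1 hu.2
    have h3 := abs_lt.1 hu'.2
    simp only [Complex.sub_im, Complex.mul_im, Complex.intCast_re, Complex.intCast_im,
      Complex.mul_re, Complex.re_ofNat, Complex.ofReal_re, Complex.im_ofNat, Complex.ofReal_im,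
      Complex.I_re, Complex.I_im, mul_zero, zero_mul, sub_zero, add_zero, mul_one] at h1
    have h4 : (k : ℝ) < 1 := by nlinarith [pi_pos]
    have h5 : (-1 : ℝ) < k := by nlinarith [pi_pos]
    have h6 : k = 0 := by
      have : k < 1 := by exact_mod_cast h4
      have : -1 < k := by exact_mod_cast h5
      omega
    rw [h6, Int.cast_zero, zero_mul, sub_eq_zero] at hk
    rw [hor_def, hor_def, hk] at e2
    exact sub_left_injective e2
  have key := lintegral_image_eq_lintegral_abs_det_fderiv_mul volume hS hd hi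
    fun y => ENNReal.ofReal (√(detG g y) * wt (log ‖y‖))
  rw [← Vol_lint h]
  refine le_trans (le_of_eq ?_) (setLIntegral_le_lintegral
    (G.Ex q '' {u : E n | √(g q u u) < π / 2 ∧ |(nu q u).im| < π}) _)
  rw [key]
  refine lintegral_congr fun u => ?_
  have e1 : log ‖G.Ex q u‖ = (nu q u).re := by
    unfold Geo.Ex
    rw [norm_smul, G.norm_ex hq, norm_div, Complex.norm_exp, Complex.norm_real, norm_norm,
      div_mul_cancel₀ _ (norm_ne_zero_iff.2 hq), log_exp]
  have h0 : √(detG g q) ≠ 0 := (sqrt_pos.2 (h.detG_pos hq)).ne'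
  rw [← ENNReal.ofReal_mul (abs_nonneg _), e1]
  congr 1
  unfold Geo.jac
  field_simp

theorem Vol_le :
    ∫⁻ x in Vol_R g, ENNReal.ofReal (G.jac x.1 x.2 * Vol_w g x) ≤
      ENNReal.ofReal (vol g) * ENNReal.ofReal (vol g) := by
  rw [← lintegral_indicator (Vol_open B.met).measurableSet, Measure.volume_eq_prod]
  refine (lintegral_prod_le _).trans ?_
  nth_rewrite 1 [← Vol_lint B.met]
  rw [← lintegral_mul_const' _ _ ENNReal.ofReal_ne_top]
  refine lintegral_mono fun z => ?_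
  by_cases hz : z = 0
  · have : ∀ u : E n, (z, u) ∉ Vol_R g := fun u hu => hu.1.1 hz
    simp only [indicator_of_notMem (this _)]
    simp
  refine le_trans ?_ (mul_le_mul_right (B.jac_le_vol hz) _)
  refine le_trans ?_ (mul_le_mul_right (lintegral_indicator_le _ _) _)
  rw [← lintegral_const_mul' _ _ ENNReal.ofReal_ne_top]
  refine lintegral_mono fun u => ?_
  by_cases hu : (z, u) ∈ Vol_R g
  · have h1 : u ∈ {u | √(g z u u) < π / 2 ∧ |(nu z u).im| < π} := hu.2
    rw [indicator_of_mem hu, indicator_of_mem h1,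
      ← ENNReal.ofReal_mul (mul_nonneg (sqrt_nonneg _) (wt_nonneg _))]
    refine le_of_eq (congrArg _ ?_)
    unfold Vol_w
    linear_combination (-(G.jac z u * wt (log ‖z‖) * wt (nu z u).re)) *
      mul_self_sqrt (B.met.detG_pos hz).le
  · rw [indicator_of_notMem hu]
    exact zero_le

theorem Vol_point {x : VV n} (hx : x ∈ OO n) (hs : spd g x < π / 2) :
    th0 n (spd g x) * ((∫ t in (0 : ℝ)..π, log (G.th (G.psi t x) (spd g x))) -
      π * log (th0 n (spd g x))) ≤ spd g x ^ (2 * n - 1) * Vol_avg G x - π * th0 n (spd g x) := by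
  have h := B.met
  have hs0 := h.spd_pos hx
  have h0 : 0 < th0 n (spd g x) := Vol_th0_pos ⟨hs0, hs⟩
  have e : ∀ t, G.th (G.psi t x) (spd g x) =
      spd g x ^ (2 * n - 1) * G.jac (G.psi t x).1 (G.psi t x).2 := fun t => by
    have := G.th_spd h (G.psi_mem h t hx)
    rwa [G.spd_psi h t hx] at this
  have hp : ∀ t, 0 < spd g x ^ (2 * n - 1) * G.jac (G.psi t x).1 (G.psi t x).2 := fun t =>
    mul_pos (pow_pos hs0 _) (B.jac_pos (G.psi_mem h t hx).1 ((G.spd_psi h t hx).trans_lt hs))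
  simp only [e]
  have hc : Continuous fun t => spd g x ^ (2 * n - 1) * G.jac (G.psi t x).1 (G.psi t x).2 :=
    continuous_const.mul (Vol_jac_cont' G h hx)
  unfold Vol_avg
  rw [← intervalIntegral.integral_const_mul (spd g x ^ (2 * n - 1))]
  exact Vol_log hc hp h0

theorem eq_of_vol_le (hK : ∀ x ∈ OO n, ∃ K, G.IsK x K) (hv : vol g ≤ vol (fsM n)) {x : VV n}
    (hx : x ∈ OO n) {τ : ℝ} (hτ : τ ∈ Ioo 0 (π / 2)) :
    π * log (th0 n τ) = ∫ t in (0 : ℝ)..π, log (G.th (G.psi t x) τ) := by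
  have h := B.met
  have hR := Vol_open h
  have hD : ∀ y ∈ Vol_R g, π * (th0 n (spd g y) / spd g y ^ (2 * n - 1)) ≤ Vol_avg G y :=
    fun y hy => by
    have h1 := B.Vol_point hy.1 hy.2.1
    have h2 := B.bk_ineq hK hy.1 ⟨h.spd_pos hy.1, hy.2.1⟩
    have h3 := mul_nonneg (Vol_th0_pos (n := n) ⟨h.spd_pos hy.1, hy.2.1⟩).le (sub_nonneg.2 h2)
    rw [← mul_div_assoc, div_le_iff₀ (pow_pos (h.spd_pos hy.1) _)]
    linarith
  have hm : ∫⁻ y in Vol_R g,
      ENNReal.ofReal (π * (th0 n (spd g y) / spd g y ^ (2 * n - 1)) * Vol_w g y) =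
      ENNReal.ofReal π * (ENNReal.ofReal (vol g) * ENNReal.ofReal (vol (fsM n))) := by
    rw [← Vol_model (by have := B.two; omega) h, ← lintegral_const_mul' _ _ ENNReal.ofReal_ne_top]
    refine lintegral_congr fun y => ?_
    rw [← ENNReal.ofReal_mul pi_pos.le, mul_assoc]
  have c1 : ContinuousOn (fun y => ENNReal.ofReal
      (π * (th0 n (spd g y) / spd g y ^ (2 * n - 1)) * Vol_w g y)) (Vol_R g) :=
    ENNReal.continuous_ofReal.comp_continuousOn
      (((continuousOn_const.mul (Vol_j_cont h)).mul (Vol_w_cont h)).mono fun y hy => hy.1)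
  have c2 : ContinuousOn (fun y => ENNReal.ofReal (Vol_avg G y * Vol_w g y)) (Vol_R g) :=
    ENNReal.continuous_ofReal.comp_continuousOn
      (((Vol_avg_cont G h).mul (Vol_w_cont h)).mono fun y hy => hy.1)
  have key := Measure.eqOn_open_of_ae_eq (μ := volume) (ae_eq_of_ae_le_of_lintegral_le
    ((ae_restrict_iff' hR.measurableSet).2 (Eventually.of_forall fun y hy =>
      ENNReal.ofReal_le_ofReal (mul_le_mul_of_nonneg_right (hD y hy) (Vol_w_nonneg h hy.1.1))))
    (by
      rw [hm]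
      exact ENNReal.mul_ne_top ENNReal.ofReal_ne_top
        (ENNReal.mul_ne_top ENNReal.ofReal_ne_top ENNReal.ofReal_ne_top))
    (c2.aemeasurable hR.measurableSet)
    (by
      rw [hm, Vol_avg_lint G h]
      exact mul_le_mul_right (B.Vol_le.trans
        (mul_le_mul_right (ENNReal.ofReal_le_ofReal hv) _)) _)) hR c1 c2
  obtain ⟨r, hr⟩ := Vol_wt_pos
  have hs := h.spd_pos hx
  have hz : 0 < ‖x.1‖ := norm_pos_iff.2 hx.1
  obtain ⟨l, hl⟩ : ∃ l : ℝ, l = exp r / ‖x.1‖ := ⟨_, rfl⟩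
  have hl0 : 0 < l := by rw [hl]; positivity
  have hl1 : (l : ℂ) ≠ 0 := by exact_mod_cast hl0.ne'
  have hm0 : 0 < τ / spd g x := div_pos hτ.1 hs
  obtain ⟨c, hc⟩ : ∃ c : ℂ, c = r - nu x.1 ((τ / spd g x) • x.2) := ⟨_, rfl⟩
  have hy := act_mem c hl1 hm0 hx
  have e1 : spd g (act l (τ / spd g x) c x) = τ := by
    rw [h.spd_act c hl1 hm0 hx.1, div_mul_cancel₀ _ hs.ne']
  have e2 : nu (act l (τ / spd g x) c x).1 (act l (τ / spd g x) c x).2 = r := by
    unfold act
    rw [nu_smul_smul hl1, nu_add, nu_smul, nu_self hx.1, hc]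
    ring
  have e3 : log ‖(act l (τ / spd g x) c x).1‖ = r := by
    unfold act
    rw [norm_smul, Complex.norm_real, Real.norm_of_nonneg hl0.le, hl, div_mul_cancel₀ _ hz.ne',
      log_exp]
  have e4 : ∀ t, G.th (G.psi t (act l (τ / spd g x) c x)) τ = G.th (G.psi t x) τ := fun t => by
    rw [G.psi_act h t c hl1 hm0 hx]
    exact G.th_inv h τ _ _ _ _ hl1 hm0 (G.psi_mem h t hx)
  generalize act l (τ / spd g x) c x = y at hy e1 e2 e3 e4
  have hyR : y ∈ Vol_R g := ⟨hy, e1 ▸ hτ.2, by rw [e2, Complex.ofReal_im, abs_zero]; exact pi_pos⟩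
  have hw : 0 < Vol_w g y := by
    unfold Vol_w
    rw [e2, e3, Complex.ofReal_re]
    exact mul_pos (mul_pos hr hr) (h.detG_pos hy.1)
  have h0 := Vol_th0_pos (n := n) hτ
  have h1 := key hyR
  have h2 := hD y hyR
  have h3 := B.Vol_point hy hyR.2.1
  beta_reduce at h1
  rw [e1] at h1 h2 h3
  have h4 : 0 ≤ π * (th0 n τ / τ ^ (2 * n - 1)) :=
    mul_nonneg pi_pos.le (div_nonneg h0.le (pow_pos hτ.1 _).le)
  rw [ENNReal.ofReal_eq_ofReal_iff (mul_nonneg h4 hw.le) (mul_nonneg (h4.trans h2) hw.le)] at h1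
  have h5 := mul_right_cancel₀ hw.ne' h1
  rw [← mul_div_assoc, div_eq_iff (pow_pos hτ.1 _).ne'] at h5
  simp only [e4] at h3
  refine le_antisymm (B.bk_ineq hK hx hτ) (sub_nonpos.1 (nonpos_of_mul_nonpos_right ?_ h0))
  linarith

end Bl

end Pool.Agent.Work.MP_8c604c_gt
end
end

-- merged part: Pool.Agent.Work.MP_8c604c_gt.NVolAux
section
/-!
Pointwise algebra for the contact volume: expansion of the top power and the Legendre map.
-/

set_option maxSynthPendingDepth 3

open Set Filter Topology MeasureTheory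
open scoped ContDiff

noncomputable section
namespace Pool.Agent.Work.MP_8c604c_gt

open Lam

section Alg
variable {V : Type} [NormedAddCommGroup V] [NormedSpace ℝ V] [FiniteDimensional ℝ V]

theorem nvol_comm (p q : V →L[ℝ] ℝ) (a : Lam V) : Commute (io p * io q) a := by
  rw [Commute, SemiconjBy, mul_assoc, io_mul q, ← mul_assoc, io_mul p, invol_invol, mul_assoc]

theorem nvol_pow (p q : V →L[ℝ] ℝ) (R : Lam V) (m : ℕ) :
    (io p * io q + R) ^ (m + 1) = R ^ (m + 1) + ((m : ℝ) + 1) • (io p * io q * R ^ m) := by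
  have h0 : io p * io q * (io p * io q) = 0 := by
    rw [← mul_assoc, (nvol_comm p q (io p)).eq, ← mul_assoc, io_sq, zero_mul, zero_mul]
  have hc := nvol_comm p q R
  generalize io p * io q = P at h0 hc
  induction m with
  | zero => simp [add_comm]
  | succ m ih =>
    rw [pow_succ', ih, add_mul, mul_add, mul_add, mul_smul_comm, mul_smul_comm, ← mul_assoc, h0,
      zero_mul, smul_zero, add_zero, ← mul_assoc, ← hc.eq, mul_assoc, ← pow_succ', ← pow_succ',
      Nat.cast_succ, add_smul ((m : ℝ) + 1), one_smul]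
    abel

theorem nvol_expand {S : Submodule ℝ V} (hS : Module.finrank ℝ S = 3) (p1 p2 p3 : V →L[ℝ] ℝ)
    {q1 q2 q3 : V →L[ℝ] ℝ} (h1 : ∀ v ∈ S, q1 v = 0) (h2 : ∀ v ∈ S, q2 v = 0)
    (h3 : ∀ v ∈ S, q3 v = 0) {Q : Lam V} (hQ : ∀ v ∈ S, ctr v Q = 0) (k : ℕ) :
    top ((io p1 * io q1 + (io p2 * io q2 + (io p3 * io q3 + Q))) ^ (k + 3)) =
      ((k : ℝ) + 3) * (k + 2) * (k + 1) *
        top (io p1 * io q1 * (io p2 * io q2 * (io p3 * io q3 * Q ^ k))) := by
  have hQ' : ∀ j, ∀ v ∈ S, ctr v (Q ^ j) = 0 := fun j v hv => by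
    induction j with
    | zero => simpa using ctr_algebraMap v 1
    | succ j ih => rw [pow_succ, ctr_mul, ih, hQ v hv, zero_mul, mul_zero, add_zero]
  have hq : ∀ {q : V →L[ℝ] ℝ} {a : Lam V}, (∀ v ∈ S, q v = 0) → (∀ v ∈ S, ctr v a = 0) →
      ∀ v ∈ S, ctr v (io q * a) = 0 := fun h ha v hv => by
    rw [ctr_io_mul, h v hv, ha v hv, zero_smul, mul_zero, sub_zero]
  have t0 : ∀ j, top (Q ^ j) = 0 := fun j => by
    simpa using top_horizontal (hQ' j) [] (by simp [hS])
  have t1 : ∀ (p : V →L[ℝ] ℝ) {q : V →L[ℝ] ℝ}, (∀ v ∈ S, q v = 0) → ∀ j,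
      top (io p * io q * Q ^ j) = 0 := fun p q h j => by
    simpa [mul_assoc] using top_horizontal (hq h (hQ' j)) [p] (by simp [hS])
  have t2 : ∀ (p p' : V →L[ℝ] ℝ) {q q' : V →L[ℝ] ℝ}, (∀ v ∈ S, q v = 0) → (∀ v ∈ S, q' v = 0) →
      ∀ j, top (io p * io q * (io p' * io q' * Q ^ j)) = 0 := fun p p' q q' h h' j => by
    have := top_horizontal (hq h (hq h' (hQ' j))) [p, p'] (by simp [hS])
    rw [mul_assoc, mul_assoc, ← mul_assoc (io q), io_anti q, neg_mul, mul_neg, map_neg,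
      neg_eq_zero]
    simpa [mul_assoc] using this
  simp only [nvol_pow, mul_add, map_add, mul_smul_comm, map_smul, t0, t1 _ h1, t1 _ h2, t1 _ h3,
    t2 _ _ h1 h2, t2 _ _ h1 h3, t2 _ _ h2 h3, smul_eq_mul]
  push_cast
  ring

theorem nvol_order (a b c d e f : V →L[ℝ] ℝ) (R : Lam V) :
    io a * io b * io c * io d * io e * (io f * R) =
      io b * io f * (io c * io a * (io d * io e * R)) := by
  have h1 : io a * io b * io c * io f = io b * io f * (io c * io a) := by
    rw [io_anti a b, io_anti c a, mul_neg, neg_mul, neg_mul, mul_assoc (io b), mul_assoc (io b),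
      (nvol_comm a c (io f)).eq, mul_assoc]
  rw [← mul_assoc (io b * io f), ← h1, mul_assoc _ (io d), mul_assoc _ (io d * io e),
    ← mul_assoc (io d * io e), (nvol_comm d e (io f)).eq]
  simp only [mul_assoc]

end Alg

variable {n : ℕ}

/-- The top power of the differential of a tautological one-form. -/
theorem nvol_legendre (n : ℕ) : ∃ c : ℝ, c ≠ 0 ∧ ∀ D : VV n →L[ℝ] E n →L[ℝ] ℝ,
    ∀ B : VV n →L[ℝ] VV n →L[ℝ] ℝ, (∀ δ δ', B δ δ' = D δ δ'.1) →
      top (dop (io.comp B) ^ (2 * n + 2)) = c * bdet (D.comp (ContinuousLinearMap.inr ℝ _ _)) := by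
  classical
  let b := stdOrthonormalBasis ℝ (E n)
  let p : Fin (Module.finrank ℝ (E n)) → VV n →L[ℝ] ℝ := fun i =>
    (innerSL ℝ (b i)).comp (ContinuousLinearMap.snd ℝ _ _)
  let q : Fin (Module.finrank ℝ (E n)) → VV n →L[ℝ] ℝ := fun i =>
    (innerSL ℝ (b i)).comp (ContinuousLinearMap.fst ℝ _ _)
  have hz : ∀ u : E n, (∀ i, inner ℝ (b i) u = 0) → u = 0 := fun u hu => by
    rw [← b.sum_repr' u]
    simp [hu]
  refine ⟨_, top_sum_pow_ne (by rw [Module.finrank_prod, two_mul]) p q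
    fun v h1 h2 => Prod.ext (hz _ h2) (hz _ h1), fun D B hB => ?_⟩
  let L : VV n →L[ℝ] VV n := (ContinuousLinearMap.fst ℝ _ _).prod
    (∑ i, (D.flip (b i)).smulRight (b i))
  have hL : ∀ δ i, inner ℝ (b i) (L δ).2 = D δ (b i) := fun δ i => by
    simp only [L, ContinuousLinearMap.prod_apply, sum_apply,
      ContinuousLinearMap.smulRight_apply, ContinuousLinearMap.flip_apply]
    exact b.orthonormal.inner_right_fintype _ i
  have e1 : dop (io.comp B) = lmap L (∑ i, io (p i) * io (q i)) := by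
    have : io.comp B = ∑ i, ((p i).comp L).smulRight (io ((q i).comp L)) := by
      refine ContinuousLinearMap.ext fun δ => ?_
      simp only [ContinuousLinearMap.comp_apply, sum_apply,
        ContinuousLinearMap.smulRight_apply, ← map_smul, ← map_sum]
      refine congrArg io (ContinuousLinearMap.ext fun δ' => ?_)
      rw [hB, ← b.sum_repr' δ'.1, map_sum, sum_apply]
      refine Finset.sum_congr rfl fun i _ => ?_
      rw [map_smul, ← hL, smul_eq_mul, mul_comm]
      rfl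
    rw [this, map_sum, map_sum]
    simp only [dop_smulRight, map_mul, lmap_io]
  have e2 : L.det = bdet (D.comp (ContinuousLinearMap.inr ℝ _ _)) := by
    have hM : LinearMap.toMatrix (b.toBasis.prod b.toBasis) (b.toBasis.prod b.toBasis)
        (L : VV n →ₗ[ℝ] VV n) = Matrix.fromBlocks 1 0 (Matrix.of fun i j => D (b j, 0) (b i))
          (Matrix.of fun i j => D (0, b i) (b j)).transpose := by
      ext (i | i) (j | j)
      · simp [LinearMap.toMatrix_apply, L, Matrix.one_apply]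
      · simp [LinearMap.toMatrix_apply, L]
      · simp [LinearMap.toMatrix_apply, OrthonormalBasis.repr_apply_apply, hL]
      · simp [LinearMap.toMatrix_apply, OrthonormalBasis.repr_apply_apply, hL]
    rw [ContinuousLinearMap.det, ← LinearMap.det_toMatrix (b.toBasis.prod b.toBasis), hM,
      Matrix.det_fromBlocks_zero₁₂, Matrix.det_one, one_mul, Matrix.det_transpose]
    rfl
  rw [e1, ← map_pow, top_lmap, e2, mul_comm, ← finrank_E]

end Pool.Agent.Work.MP_8c604c_gt
end
end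

-- merged part: Pool.Agent.Work.MP_8c604c_gt.NVol
section
/-!
The contact volume is a universal multiple of the Riemannian volume.
Hints. Let s = spd g, a = al g, A = one1 (GG g z w o fst) = s a + Re nu * d log|z| + Im nu * Theta. Pointwise
top ((dA)^(2n+2)) = c0 * detG g z (Legendre map (z,w) -> (z, GG z w), Lam.sum_pow, top_lmap, block triangular determinant).
Expand dA = d(s a) + dnu1 drho + dnu2 Theta + nu2 x0 and d(s a) = ds a + s da; by Lam.top_horizontal only the term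
s^(2n) (dlog s) a (da)^(2n-1) dnu1 drho dnu2 Theta survives (terms with x0: the density is invariant under w -> w + c z, so take nu2 = 0,
or count fibre degrees). So the integrand of II is c1 * detG * s^(-2n) wt(log|z|) wt(log s) wt(nu1) wt(nu2). Integrate over w with a
linear map that is an isometry from the Euclidean structure to GG g z and sends two basis vectors to z, i z.
-/

set_option maxSynthPendingDepth 3

open Set Filter Topology MeasureTheory
open scoped ContDiff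

noncomputable section
namespace Pool.Agent.Work.MP_8c604c_gt

open TopologicalSpace Lam Om Real

variable {n : ℕ}

theorem nvol_basic {g : Met n} (h : IsMetric g) (ha : ContDiffOn ℝ ∞ (al g) (UO n)) :
    one1 (al g) ha ∈ (actB n).Basic :=
  one1_basic _ (fun l m c x δ hl hm hx => by
    change g (l • x.1) (vel g (act l m c x)) (l • δ.1) = g x.1 (vel g x) δ.1
    rw [h.vel_eqv l m c x hl hm hx, h.inv l _ _ _ hl hx.1]) fun _ hx _ hv => al_Bdir h hx hv

theorem nvol_f1 {x : VV n} (hx : x ∈ OO n) : fderiv ℝ (fun y : VV n => Real.log ‖y.1‖) x =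
    (rhL x.1).comp (ContinuousLinearMap.fst ℝ _ _) :=
  ((hasFDerivAt_log_norm hx.1).comp x hasFDerivAt_fst).fderiv

theorem nvol_Th0 {x : VV n} (hx : x ∈ OO n) :
    ev (Th0 n) x = io ((thL x.1).comp (ContinuousLinearMap.fst ℝ _ _)) := by
  rw [Th0, ev_pull_theta _ hx]
  exact congrArg (fun T => io ((thL x.1).comp T)) fderiv_fst

theorem nvol_dec {g : Met n} (h : IsMetric g) (ha : ContDiffOn ℝ ∞ (al g) (UO n))
    (hsp : ContDiffOn ℝ ∞ (spd g) (UO n)) (c : ℝ)
    (hA : ContDiffOn ℝ ∞ (fun y : VV n =>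
      (GG g y.1 y.2 - c • thL y.1).comp (ContinuousLinearMap.fst ℝ (E n) (E n))) (UO n))
    (hN : ContDiffOn ℝ ∞ (fun y : VV n => (nu y.1 y.2).im - c) (UO n)) :
    one1 _ hA = fn _ hsp * one1 (al g) ha +
      (fn _ smooth_f3 * d (fn _ smooth_f1) + fn _ hN * Th0 n) := by
  refine Om.ext fun y hy => ?_
  have e : (GG g y.1 y.2 - c • thL y.1).comp (ContinuousLinearMap.fst ℝ (E n) (E n)) =
      spd g y • al g y + ((nu y.1 y.2).re • (rhL y.1).comp (ContinuousLinearMap.fst ℝ _ _) +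
        ((nu y.1 y.2).im - c) • (thL y.1).comp (ContinuousLinearMap.fst ℝ _ _)) := by
    refine ContinuousLinearMap.ext fun δ => ?_
    change GG g y.1 y.2 δ.1 - c * (nu y.1 δ.1).im = spd g y * g y.1 (vel g y) δ.1 +
      ((nu y.1 y.2).re * (nu y.1 δ.1).re + ((nu y.1 y.2).im - c) * (nu y.1 δ.1).im)
    rw [GG_apply, vel, map_smul, smul_apply, h.hor_left hy.1, smul_eq_mul,
      mul_inv_cancel_left₀ (h.spd_pos hy).ne']
    ring
  rw [ev_add, ev_add, ev_mul, ev_mul, ev_mul, ev_one1 _ _ hy, ev_one1 _ _ hy, ev_fn _ _ hy,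
    ev_fn _ _ hy, ev_fn _ _ hy, ev_d_fn _ _ hy, nvol_f1 hy, nvol_Th0 hy, e]
  simp only [map_add, map_smul, Algebra.smul_def]

theorem nvol_dA {g : Met n} (h : IsMetric g) (ha : ContDiffOn ℝ ∞ (al g) (UO n)) {x : VV n}
    (hx : x ∈ UO n) : ∃ (D : VV n →L[ℝ] E n →L[ℝ] ℝ) (B : VV n →L[ℝ] VV n →L[ℝ] ℝ),
      (∀ δ δ', B δ δ' = D δ δ'.1) ∧ D.comp (ContinuousLinearMap.inr ℝ _ _) = GG g x.1 ∧
      dop (io.comp B) = io (fderiv ℝ (spd g) x) * io (al g x) +
        (io (fderiv ℝ (fun y : VV n => (nu y.1 y.2).re) x) *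
            io ((rhL x.1).comp (ContinuousLinearMap.fst ℝ _ _)) +
          (io (fderiv ℝ (fun y : VV n => (nu y.1 y.2).im) x) *
            io ((thL x.1).comp (ContinuousLinearMap.fst ℝ _ _)) +
          spd g x • ev (d (one1 (al g) ha)) x)) := by
  have hsp : ContDiffOn ℝ ∞ (spd g) (UO n) := h.contDiffOn_spd
  have hO : OO n ∈ 𝓝 x := isOpen_OO.mem_nhds hx
  have hA : ContDiffOn ℝ ∞ (fun y : VV n => GG g y.1 y.2 - (nu x.1 x.2).im • thL y.1) (OO n) :=
    ((h.contDiffOn_GG.comp contDiffOn_fst fun _ hy => hy.1).clm_apply contDiffOn_snd).sub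
      ((contDiffOn_thL.comp contDiffOn_fst fun _ hy => hy.1).const_smul _)
  have hA' : ContDiffOn ℝ ∞ (fun y : VV n => (GG g y.1 y.2 - (nu x.1 x.2).im • thL y.1).comp
      (ContinuousLinearMap.fst ℝ (E n) (E n))) (UO n) := hA.clm_comp contDiffOn_const
  have hD := ((hA.contDiffAt hO).differentiableAt (by simp)).hasFDerivAt
  have hN : ContDiffOn ℝ ∞ (fun y : VV n => (nu y.1 y.2).im - (nu x.1 x.2).im) (UO n) :=
    smooth_f4.sub contDiffOn_const
  refine ⟨_, fderiv ℝ (fun y : VV n => (GG g y.1 y.2 - (nu x.1 x.2).im • thL y.1).comp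
    (ContinuousLinearMap.fst ℝ (E n) (E n))) x, fun δ δ' => ?_,
    (HasFDerivAt.comp (f := fun w => (x.1, w)) x.2 hD (hasFDerivAt_prodMk_right x.1 x.2)).unique
      ((GG g x.1).hasFDerivAt.sub_const ((nu x.1 x.2).im • thL x.1)), ?_⟩
  · rw [(hD.clm_comp (hasFDerivAt_const _ x)).fderiv]
    simp
  · rw [← ev_d_one1 _ hA' hx, nvol_dec h ha hsp _ hA' hN]
    simp only [map_add, d_mul, d_d, mul_zero, add_zero, (isFn_fn _ _).inv, ev_add, ev_mul,
      ev_fn _ _ hx, sub_self, map_zero, zero_mul, ev_d_fn _ _ hx, ev_one1 _ _ hx, nvol_f1 hx,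
      nvol_Th0 hx, fderiv_sub_const, Algebra.smul_def]
    abel

/-- The pointwise identity. -/
theorem nvol_point (hn : 1 ≤ n) : ∃ c : ℝ, c ≠ 0 ∧ ∀ (g : Met n) (h : IsMetric g)
    (ha : ContDiffOn ℝ ∞ (al g) (UO n)), ∀ x ∈ UO n,
    top (ev (wg h.adm * (one1 (al g) ha * d (one1 (al g) ha) ^ (2 * n - 1))) x) =
      c * (detG g x.1 * wt (Real.log ‖x.1‖) * ((spd g x ^ (2 * n))⁻¹ * wt (Real.log (spd g x))) *
        (wt (nu x.1 x.2).re * wt (nu x.1 x.2).im)) := by
  obtain ⟨c, hc, hL⟩ := nvol_legendre n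
  obtain ⟨k, hk⟩ : ∃ k, 2 * n = k + 1 := ⟨2 * n - 1, by omega⟩
  have hk0 : ((k : ℝ) + 3) * (k + 2) * (k + 1) ≠ 0 := by positivity
  refine ⟨c / (((k : ℝ) + 3) * (k + 2) * (k + 1)), div_ne_zero hc hk0, fun g h ha x hx => ?_⟩
  have hs := h.spd_pos hx
  obtain ⟨D, B, hB, hD, e⟩ := nvol_dA h ha hx
  have h1 := hL D B hB
  let S : Submodule ℝ (VV n) := (Bs x).map (LinearMap.inr ℝ (E n) (E n))
  have hS : Module.finrank ℝ S = 3 :=
    ((Bs x).equivMapOfInjective _ LinearMap.inr_injective).finrank_eq.symm.trans (finrank_Bs hx)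
  have hS1 : ∀ θ : E n →L[ℝ] ℝ, ∀ v ∈ S, θ.comp (ContinuousLinearMap.fst ℝ (E n) (E n)) v = 0 := by
    rintro θ _ ⟨u, -, rfl⟩
    exact map_zero θ
  have hS2 : ∀ v ∈ S, ctr v (spd g x • ev (d (one1 (al g) ha)) x) = 0 := by
    rintro _ ⟨u, hu, rfl⟩
    obtain ⟨c', a, rfl⟩ := mem_Bs.1 hu
    rw [map_smul, basic_horizontal ((actB n).d_mem (nvol_basic h ha)) hx
      (mem_Bdir.2 ⟨0, c', a, by simp⟩), smul_zero]
  rw [hD, e, hk, nvol_expand (q1 := al g x) hS _ _ _ (hS1 _) (hS1 _) (hS1 _) hS2 k, smul_pow] at h1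
  have h3 : fderiv ℝ (fun y => Real.log (spd g y)) x = (spd g x)⁻¹ • fderiv ℝ (spd g) x :=
    (((h.contDiffOn_spd.contDiffAt (isOpen_OO.mem_nhds hx)).differentiableAt
      (by simp)).hasFDerivAt.log hs.ne').fderiv
  simp only [wg, ev_mul, ev_pow _ _ hx, ev_dst _ _ hx, ev_one1 _ _ hx, nvol_f1 hx, nvol_Th0 hx, h3,
    hk, Nat.add_sub_cancel, smul_mul_assoc, mul_smul_comm, map_smul, smul_eq_mul] at h1 ⊢
  rw [nvol_order, div_mul_eq_mul_div, eq_div_iff hk0, detG]
  have h5 := mul_inv_cancel₀ (pow_ne_zero k hs.ne')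
  generalize top (V := VV n) _ = T at h1 ⊢
  rw [pow_succ, mul_inv]
  linear_combination (wt (Real.log ‖x.1‖) * wt (Real.log (spd g x)) *
    wt (nu x.1 x.2).re * wt (nu x.1 x.2).im * (spd g x)⁻¹) *
      ((spd g x ^ k)⁻¹ * h1 - (((k : ℝ) + 3) * (k + 2) * (k + 1) * T) * h5)

theorem nvol_wt0 : wt 0 = 0 :=
  IsLocalMin.deriv_eq_zero (Eventually.of_forall fun r => by
    rw [Real.smoothTransition.zero]
    exact Real.smoothTransition.nonneg r)

theorem nvol_wt_ne : ∃ r, 0 ≤ r ∧ wt r ≠ 0 := by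
  by_contra hc
  have : wt = 0 := funext fun r => by_contra fun hr =>
    hc ⟨r, by_contra fun h0 => hr (wt_eq_zero fun h1 => h0 h1.1), hr⟩
  simpa [this] using integral_wt

/-- The radial weight. -/
def nvolF (k : ℕ) (r : ℝ) : ℝ := (max r 1 ^ k)⁻¹ * wt (Real.log (max r 1))

theorem nvolF_cont (k : ℕ) : Continuous (nvolF k) := by
  have h1 : Continuous fun r : ℝ => max r 1 := continuous_id.max continuous_const
  have h2 : ∀ r : ℝ, max r 1 ≠ 0 := fun r => (one_pos.trans_le (le_max_right r 1)).ne'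
  exact ((h1.pow k).inv₀ fun r => pow_ne_zero k (h2 r)).mul
    (contDiff_wt.continuous.comp (h1.log h2))

theorem nvolF_nonneg (k : ℕ) (r : ℝ) : 0 ≤ nvolF k r :=
  mul_nonneg (inv_nonneg.2 (pow_nonneg (zero_le_one.trans (le_max_right r 1)) k)) (wt_nonneg _)

theorem nvolF_eq (k : ℕ) {r : ℝ} (hr : 0 ≤ r) : (r ^ k)⁻¹ * wt (Real.log r) = nvolF k r := by
  rcases le_or_gt 1 r with h | h
  · rw [nvolF, max_eq_left h]
  · rw [nvolF, max_eq_right h.le, Real.log_one, nvol_wt0, mul_zero]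
    rcases hr.eq_or_lt with rfl | h0
    · rw [Real.log_zero, nvol_wt0, mul_zero]
    · rw [wt_eq_zero fun h1 => (Real.log_neg h0 h).not_ge h1.1, mul_zero]

theorem nvol_pos {X : Type} [NormedAddCommGroup X] [ProperSpace X] [MeasureSpace X] [BorelSpace X]
    [(volume : Measure X).IsAddHaarMeasure] {f : X → ℝ} (hf : Continuous f) (h0 : ∀ x, 0 ≤ f x)
    {R : ℝ} (hR : ∀ x, R < ‖x‖ → f x = 0) {x : X} (hx : f x ≠ 0) :
    0 < (∫⁻ x, ENNReal.ofReal (f x)).toReal := by
  rw [← integral_eq_lintegral_of_nonneg_ae (Eventually.of_forall h0) hf.aestronglyMeasurable]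
  exact hf.integral_pos_of_hasCompactSupport_nonneg_nonzero
    (HasCompactSupport.intro (isCompact_closedBall 0 R) fun y hy => hR y (by simpa using hy)) h0 hx

theorem nvol_fibre (hn : 1 ≤ n) : ∃ c : ℝ, 0 < c ∧ ∀ (g : Met n), IsMetric g → ∀ z : E n, z ≠ 0 →
    ∫ w : E n, nvolF (2 * n) √(g z w w) * (wt (nu z w).re * wt (nu z w).im) * √(detG g z) = c := by
  obtain ⟨r, hr0, hr⟩ := nvol_wt_ne
  have hw := contDiff_wt.continuous
  have hk : Continuous fun c : ℂ => wt c.re * wt c.im :=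
    (hw.comp Complex.continuous_re).mul (hw.comp Complex.continuous_im)
  have hk0 : ∀ c : ℂ, 0 ≤ wt c.re * wt c.im := fun c => mul_nonneg (wt_nonneg _) (wt_nonneg _)
  refine ⟨(∫⁻ y : EuclideanSpace ℝ (Fin (2 * n)), ENNReal.ofReal (nvolF (2 * n) ‖y‖)).toReal *
    (∫⁻ c : ℂ, ENNReal.ofReal (wt c.re * wt c.im)).toReal, mul_pos ?_ ?_, fun g h z hz => ?_⟩
  · have : Nonempty (Fin (2 * n)) := ⟨⟨0, by omega⟩⟩
    obtain ⟨y, hy⟩ := exists_norm_eq (EuclideanSpace ℝ (Fin (2 * n))) (Real.exp_pos r).le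
    refine nvol_pos ((nvolF_cont _).comp continuous_norm) (fun _ => nvolF_nonneg _ _)
      (R := Real.exp 1) (fun x hx => ?_) (x := y) ?_
    · rw [← nvolF_eq _ (norm_nonneg x), wt_eq_zero fun h1 =>
        ((Real.lt_log_iff_exp_lt ((Real.exp_pos 1).trans hx)).2 hx).not_ge h1.2, mul_zero]
    · rw [hy, ← nvolF_eq _ (Real.exp_pos r).le, Real.log_exp]
      exact mul_ne_zero (inv_ne_zero (pow_ne_zero _ (Real.exp_pos r).ne')) hr
  · refine nvol_pos hk hk0 (R := 2) (fun x hx => by_contra fun h1 => ?_) (x := ⟨r, r⟩)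
      (mul_ne_zero hr hr)
    have h2 : x.re ∈ Icc (0 : ℝ) 1 := by_contra fun h => left_ne_zero_of_mul h1 (wt_eq_zero h)
    have h3 : x.im ∈ Icc (0 : ℝ) 1 := by_contra fun h => right_ne_zero_of_mul h1 (wt_eq_zero h)
    have h4 := Complex.norm_le_abs_re_add_abs_im x
    rw [abs_of_nonneg h2.1, abs_of_nonneg h3.1] at h4
    linarith [h2.2, h3.2]
  · have hc : Continuous fun w : E n =>
        nvolF (2 * n) √(g z w w) * (wt (nu z w).re * wt (nu z w).im) * √(detG g z) :=
      (((nvolF_cont _).comp ((g z).continuous.clm_apply continuous_id).sqrt).mul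
        (hk.comp (nuL z).continuous)).mul continuous_const
    rw [integral_eq_lintegral_of_nonneg_ae (Eventually.of_forall fun w =>
      mul_nonneg (mul_nonneg (nvolF_nonneg _ _) (hk0 _)) (Real.sqrt_nonneg _))
      hc.aestronglyMeasurable, ← ENNReal.toReal_mul, ← fibre_integral h hz
      (fun r => ENNReal.ofReal (nvolF (2 * n) r)) (nvolF_cont _).measurable.ennreal_ofReal
      (fun c => ENNReal.ofReal (wt c.re * wt c.im)) hk.measurable.ennreal_ofReal]
    refine congrArg ENNReal.toReal (lintegral_congr fun w => ?_)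
    rw [ENNReal.ofReal_mul (mul_nonneg (nvolF_nonneg _ _) (hk0 _)),
      ENNReal.ofReal_mul (nvolF_nonneg _ _)]

theorem exists_nvol (hn : 1 ≤ n) : ∃ c : ℝ, 0 < c ∧ ∀ (g : Met n) (h : IsMetric g),
    |II h.adm (one1 (al g) h.contDiffOn_al * d (one1 (al g) h.contDiffOn_al) ^ (2 * n - 1))| =
      c * vol g := by
  obtain ⟨c, hc, h1⟩ := nvol_point hn
  obtain ⟨c', hc', h2⟩ := nvol_fibre hn
  refine ⟨|c| * c', mul_pos (abs_pos.2 hc) hc', fun g h => ?_⟩
  have ha : ContDiffOn ℝ ∞ (al g) (UO n) := h.contDiffOn_al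
  let F : VV n → ℝ := fun x => √(detG g x.1) * wt (Real.log ‖x.1‖) *
    (nvolF (2 * n) √(g x.1 x.2 x.2) * (wt (nu x.1 x.2).re * wt (nu x.1 x.2).im) * √(detG g x.1))
  have hF : ∀ x, top (ev (wg h.adm * (one1 (al g) ha * d (one1 (al g) ha) ^ (2 * n - 1))) x) =
      c * F x := fun x => by
    by_cases hx : x ∈ UO n
    · rw [h1 g h ha x hx, nvolF_eq _ (h.spd_pos hx).le]
      conv_lhs => rw [← Real.mul_self_sqrt (h.detG_pos hx.1).le]
      simp only [F, spd]
      ring
    · rw [ev_of_not_mem _ hx, map_zero]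
      by_cases hz : x.1 = 0
      · simp only [F, hz, norm_zero, Real.log_zero, nvol_wt0, mul_zero, zero_mul]
      · have h3 : hor x.1 x.2 = 0 := by_contra fun h3 => hx (mem_OO.2 ⟨hz, h3⟩)
        have h4 : g x.1 x.2 x.2 = 0 := by rw [← h.hor_right hz, h3, map_zero]
        simp only [F, h4, Real.sqrt_zero, ← nvolF_eq _ le_rfl, Real.log_zero, nvol_wt0, mul_zero,
          zero_mul]
  have hi := integrable_wg h.adm (one1 (al g) ha * d (one1 (al g) ha) ^ (2 * n - 1))
  simp only [hF] at hi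
  have h5 : ∫ x, F x = c' * vol g := by
    rw [Measure.volume_eq_prod, integral_prod _ ((integrable_const_mul_iff hc.isUnit _).1 hi), vol,
      ← integral_const_mul]
    refine integral_congr_ae (Eventually.of_forall fun z => ?_)
    by_cases hz : z = 0
    · simp only [F, hz, norm_zero, Real.log_zero, nvol_wt0, mul_zero, zero_mul, integral_zero]
    · simp only [F]
      rw [integral_const_mul, h2 g h z hz, mul_comm]
  have h6 : 0 ≤ vol g := integral_nonneg fun y => mul_nonneg (Real.sqrt_nonneg _) (wt_nonneg _)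
  change |∫ x, top (ev (wg h.adm * (one1 (al g) ha * d (one1 (al g) ha) ^ (2 * n - 1))) x)| = _
  simp only [hF]
  rw [integral_const_mul, h5, abs_mul, abs_of_nonneg (mul_nonneg hc'.le h6), mul_assoc]

end Pool.Agent.Work.MP_8c604c_gt
end
end
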