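import Pool.Agent.Work.MP_8c604c_gt.Circle
import Pool.Agent.Work.MP_8c604c_gt.NVol
import Pool.Agent.Work.MP_8c604c_gt.ODE
import Pool.Agent.Work.MP_8c604c_gt.Idx
import Mathlib
import Pool.Agent.Work.MP_8c604c_gt.Top

-- merged part: Pool.Agent.Work.MP_8c604c_gt.Push
section
-- merged part: Pool.Agent.Work.MP_8c604c_gt.PushA
section
/-!
The equivariant push that shortens every closed geodesic.
Hints. xi x = integral over r in [0, pi/2] of JJ r (psi (-r) x) (0, spd x * K (psi (-r) x)); P x = the same integral with PP.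
With delta_s = D psi_(-s) (0, spd * K (psi s x)) at x, xi (psi t x) = integral over s in [t - pi/2, t] of JJ t x delta_s. Differentiate in t,
use var, JD_zero, PP_apply. At s = t - pi/2 the field is vertical and its horizontal derivative is -c K (psi t x) (it also vanishes at t + pi/2),
c > 0 because g (K, J) > 0 on (0, pi/2) (pair_ne, positive near 0). short: taylor_two with y = 0 on the compact set of
(Z t x, vel) for x in slice, t in [0,pi]; the first variation vanishes by periodicity, the second is -integral cc g(K, xi) < 0 uniformly.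
-/

set_option maxSynthPendingDepth 3

open Set Filter Topology MeasureTheory
open scoped ContDiff

noncomputable section
namespace Pool.Agent.Work.MP_8c604c_gt

open Real

variable {n : ℕ} {g : Met n}

/-- The push field and its weak Jacobi equation. -/
structure PushData (g : Met n) (G : Geo g) (KD : KData g G) where
  xi : VV n → E n
  smooth : ContDiffOn ℝ ∞ xi (OO n)
  eqv : Eqv xi
  P : VV n → E n →L[ℝ] ℝ
  P_inv : ∀ (l : ℂ) x η, l ≠ 0 → x ∈ OO n → P (l • x) (l • η) = P x η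
  cc : VV n → ℝ
  cc_cont : ContinuousOn cc (OO n)
  cc_pos : ∀ x ∈ OO n, 0 < cc x
  var : ∀ x ∈ OO n, ∀ (t : ℝ) (η : ℝ → E n) (η' : E n), HasDerivAt η η' t →
    HasDerivAt (fun s => P (G.psi s x) (η s))
      (D2 g (G.Z t x, vel g (G.psi t x)) (xi (G.psi t x), deriv (fun s => xi (G.psi s x)) t) (η t, η') +
        cc (G.psi t x) * g (G.Z t x) (KD.K (G.psi t x)) (η t)) t
  pos : ∀ x ∈ OO n, 0 < g x.1 (KD.K x) (xi x)
  posJ : ∀ x ∈ OO n, ∀ r ∈ Ioo 0 (π / 2), 0 < g (G.Z r x) (KD.K (G.psi r x)) (G.JJ r x (0, KD.K x))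

/-- All loops `t ↦ p (psi t x)` are shorter than `π`. -/
def Short {G : Geo g} (B : Bl g G) (p : VV n → E n) : Prop :=
  ∀ x ∈ OO n, Var B.met (fun t => p (G.psi t x)) 0 π < ENNReal.ofReal π

namespace PushA

theorem comp_at {X W : Type} [NormedAddCommGroup X] [NormedSpace ℝ X] [NormedAddCommGroup W]
    [NormedSpace ℝ W] {Φ : ℝ → VV n → W}
    (hΦ : ContDiffOn ℝ ∞ (fun p : ℝ × VV n => Φ p.1 p.2) {p | p.2 ∈ OO n}) {a : X → ℝ}
    {b : X → VV n} {x₀ : X} (ha : ContDiffAt ℝ ∞ a x₀) (hb : ContDiffAt ℝ ∞ b x₀)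
    (hx : b x₀ ∈ OO n) : ContDiffAt ℝ ∞ (fun x => Φ (a x) (b x)) x₀ :=
  ContDiffAt.comp (g := fun p : ℝ × VV n => Φ p.1 p.2) (f := fun x => (a x, b x)) x₀
    (hΦ.contDiffAt ((isOpen_OO.preimage continuous_snd).mem_nhds hx)) (ha.prodMk hb)

theorem comp_at' {X W : Type} [NormedAddCommGroup X] [NormedSpace ℝ X] [NormedAddCommGroup W]
    [NormedSpace ℝ W] {Φ : VV n → W} (hΦ : ContDiffOn ℝ ∞ Φ (OO n))
    {b : X → VV n} {x₀ : X} (hb : ContDiffAt ℝ ∞ b x₀)
    (hx : b x₀ ∈ OO n) : ContDiffAt ℝ ∞ (fun x => Φ (b x)) x₀ :=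
  (hΦ.contDiffAt (isOpen_OO.mem_nhds hx)).comp x₀ hb

/-- Derivative of a linear map applied to a moving vector. -/
theorem hasDerivAt_apply {V W : Type} [NormedAddCommGroup V] [NormedSpace ℝ V]
    [NormedAddCommGroup W] [NormedSpace ℝ W] {A : ℝ → V →L[ℝ] W} {u : ℝ → V} {u' : V} {D : W}
    {t : ℝ} (hA : DifferentiableAt ℝ A t) (hD : HasDerivAt (fun s => A s (u t)) D t)
    (hu : HasDerivAt u u' t) : HasDerivAt (fun s => A s (u s)) (D + A t u') t := by
  have h1 := hA.hasDerivAt.clm_apply (hasDerivAt_const t (u t))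
  have h2 := hA.hasDerivAt.clm_apply hu
  have e := hD.unique h1
  rw [map_zero, add_zero] at e
  rwa [← e] at h2

theorem smul_eq_act (l : ℂ) (x : VV n) : l • x = act l 1 0 x := by
  simp [act, Prod.ext_iff]

theorem smul_mem {l : ℂ} (hl : l ≠ 0) {x : VV n} (hx : x ∈ OO n) : l • x ∈ OO n := by
  rw [smul_eq_act]
  exact act_mem 0 hl one_pos hx

variable {G : Geo g}

theorem psi_neg_psi (h : IsMetric g) (t : ℝ) {x : VV n} (hx : x ∈ OO n) :
    G.psi (-t) (G.psi t x) = x := by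
  rw [← G.psi_add h _ _ hx, neg_add_cancel, G.psi_zero h hx]

theorem psi_psi_neg (h : IsMetric g) (t : ℝ) {x : VV n} (hx : x ∈ OO n) :
    G.psi t (G.psi (-t) x) = x := by
  rw [← G.psi_add h _ _ hx, add_neg_cancel, G.psi_zero h hx]

theorem JD_gauge (h : IsMetric g) (t : ℝ) {x : VV n} (hx : x ∈ OO n) (c : ℂ) :
    G.JD t x (c • x) = c • vel g (G.psi t x) := by
  have h1 := G.hasDerivAt_JJ h t hx (c • x)
  have h2 := (G.hasDerivAt_Z h t hx).const_smul c
  have e : (fun s => G.JJ s x (c • x)) = fun s => c • G.Z s x :=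
    funext fun s => G.JJ_gauge h s hx c
  rw [e] at h1
  exact h1.unique h2

theorem PP_smul (h : IsMetric g) (t : ℝ) {l : ℂ} (hl : l ≠ 0) {x : VV n} (hx : x ∈ OO n)
    (δ : VV n) (η : E n) : G.PP t (l • x) (l • δ) (l • η) = G.PP t x δ η := by
  have hd : ∀ y ∈ OO n, HasFDerivAt (fun y => g (G.Z t y) (vel g (G.psi t y))) (G.PP t y) y := by
    intro y hy
    have h1 : ContDiffAt ℝ ∞ (fun y => G.Z t y) y :=
      comp_at (G.contDiffOn_Z h) contDiffAt_const contDiffAt_id hy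
    have h2 : ContDiffAt ℝ ∞ (fun y => G.psi t y) y :=
      comp_at (G.contDiffOn_psi h) contDiffAt_const contDiffAt_id hy
    have h3 := ((h.contDiffAt (G.Z_ne h t hy)).comp y h1).clm_apply
      (comp_at' h.contDiffOn_vel h2 (G.psi_mem h t hy))
    exact (h3.differentiableAt (by simp)).hasFDerivAt
  have l0 : HasDerivAt (fun s : ℝ => x + s • δ) δ 0 := by
    simpa using ((hasDerivAt_id (0 : ℝ)).smul_const δ).const_add x
  have e0 : x + (0 : ℝ) • δ = x := by simp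
  have h1 := ((hd x hx).comp_hasDerivAt_of_eq 0 l0 e0.symm).clm_apply (hasDerivAt_const 0 η)
  have h2 := ((hd _ (smul_mem hl hx)).comp_hasDerivAt_of_eq 0 (l0.const_smul l)
    (by simp)).clm_apply (hasDerivAt_const 0 (l • η))
  simp only [map_zero, add_zero] at h1 h2
  refine h2.unique (h1.congr_of_eventuallyEq ?_)
  have hev : ∀ᶠ s : ℝ in 𝓝 0, x + s • δ ∈ OO n :=
    l0.continuousAt.eventually (isOpen_OO.mem_nhds (by simpa only [e0] using hx))
  filter_upwards [hev] with s hs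
  simp only [Function.comp, Pi.smul_apply]
  have hy := G.psi_mem h t hs
  have e1 : G.Z t (l • (x + s • δ)) = l • G.Z t (x + s • δ) := by
    unfold Geo.Z
    rw [G.psi_smul h t hl hs]
    rfl
  have e2 : vel g (G.psi t (l • (x + s • δ))) = l • vel g (G.psi t (x + s • δ)) := by
    rw [G.psi_smul h t hl hs, smul_eq_act]
    exact h.vel_eqv l 1 0 _ hl one_pos hy
  rw [e1, e2, h.inv l _ _ _ hl (G.Z_ne h t hs)]

theorem vel_K (h : IsMetric g) {x : VV n} (hx : x ∈ OO n) {K : E n} (hK : G.IsK x K) :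
    g x.1 (vel g x) K = 0 := by
  unfold vel
  rw [map_smul, smul_apply, h.hor_left hx.1, h.symm _ _ _ hx.1, hK.perp,
    smul_zero]

theorem JD_zero_K (h : IsMetric g) {x : VV n} (hx : x ∈ OO n) {K : E n} (hK : G.IsK x K) {a : ℝ}
    {u : E n} (hu : u - a • K ∈ Bs x) : G.JD 0 x (0, u) = ((spd g x)⁻¹ * a) • K := by
  obtain ⟨c, b, e⟩ := mem_Bs.1 hu
  have e1 : u = a • K + (c + b * nu x.1 x.2) • x.1 + (b * spd g x) • vel g x := by
    rw [sub_eq_iff_eq_add] at e
    rw [e]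
    conv_lhs => rw [h.snd_eq hx]
    rw [add_smul, smul_add, mul_smul, mul_smul, Complex.coe_smul]
    abel
  have e2 : hor x.1 u = a • K + (b * spd g x) • vel g x := by
    have f1 : horL x.1 K = K := hor_of_nu hK.hor
    have f2 : horL x.1 (vel g x) = vel g x := hor_of_nu (h.nu_vel hx.1)
    have f3 : horL x.1 ((c + b * nu x.1 x.2) • x.1) = 0 := (hor_eq_zero_iff hx.1 _).2 ⟨_, rfl⟩
    rw [← horL_apply, e1, map_add, map_add, f3, map_smul, map_smul, f1, f2, add_zero]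
  have e3 : g x.1 (vel g x) u = b * spd g x := by
    rw [e1, map_add, map_add, h.vert' _ _ hx.1, map_smul, map_smul, vel_K h hx hK, h.vel_unit hx]
    simp
  rw [G.JD_zero h hx, e2, e3, add_sub_cancel_right, mul_smul]

variable (KD : KData g G)

/-- The normalised initial condition of the conjugate field. -/
def kk (y : VV n) : VV n := (0, spd g y • KD.K y)

/-- The conjugate field that started a time `r` ago. -/
def FF (p : ℝ × VV n) : E n := G.JJ p.1 (G.psi (-p.1) p.2) (kk KD (G.psi (-p.1) p.2))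

/-- Its momentum. -/
def QQ (p : ℝ × VV n) : E n →L[ℝ] ℝ := G.PP p.1 (G.psi (-p.1) p.2) (kk KD (G.psi (-p.1) p.2))

/-- The push field. -/
def xi (x : VV n) : E n := ∫ r in (0 : ℝ)..(π / 2), FF KD (r, x)

/-- The momentum of the push field. -/
def mom (x : VV n) : E n →L[ℝ] ℝ := ∫ r in (0 : ℝ)..(π / 2), QQ KD (r, x)

/-- The initial condition at time `s`, transported to time zero. -/
def dl (x : VV n) (s : ℝ) : VV n := fderiv ℝ (G.psi (-s)) (G.psi s x) (kk KD (G.psi s x))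

/-- The moving average of the transported initial conditions. -/
def av (x : VV n) (t : ℝ) : VV n := ∫ r in (0 : ℝ)..(π / 2), dl KD x (t - r)

/-- The vertical coordinate of the conjugate field at the conjugate point. -/
def cv (y : VV n) : ℂ := nu (G.Z (π / 2) y) (G.JJ (π / 2) y (kk KD y))

/-- The derivative of the conjugate field at the conjugate point. -/
def sl (y : VV n) : ℝ := g (G.Z (π / 2) y) (KD.K (G.psi (π / 2) y))
  (G.JD (π / 2) y (kk KD y) - cv KD y • vel g (G.psi (π / 2) y))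

theorem kk_eq (y : VV n) : kk KD y = spd g y • ((0 : E n), KD.K y) := by
  simp [kk]

theorem kk_smooth (h : IsMetric g) : ContDiffOn ℝ ∞ (kk KD) (OO n) :=
  contDiffOn_const.prodMk (h.contDiffOn_spd.smul KD.smooth)

theorem kk_act (h : IsMetric g) {l : ℂ} {m : ℝ} (c : ℂ) {y : VV n} (hl : l ≠ 0) (hm : 0 < m)
    (hy : y ∈ OO n) : kk KD (act l m c y) = act l m c (kk KD y) := by
  unfold kk
  rw [h.spd_act c hl hm hy.1, KD.eqv l m c y hl hm hy]
  simp only [act, smul_zero, add_zero, mul_smul, smul_comm l]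

theorem back_at (h : IsMetric g) {p : ℝ × VV n} (hp : p.2 ∈ OO n) :
    ContDiffAt ℝ ∞ (fun p : ℝ × VV n => G.psi (-p.1) p.2) p :=
  comp_at (G.contDiffOn_psi h) contDiffAt_fst.neg contDiffAt_snd hp

theorem FF_smooth (h : IsMetric g) : ContDiffOn ℝ ∞ (FF KD) {p | p.2 ∈ OO n} := fun _ hp =>
  ((comp_at (G.contDiffOn_JJ h) contDiffAt_fst (back_at h hp) (G.psi_mem h _ hp)).clm_apply
    (comp_at' (kk_smooth KD h) (back_at h hp) (G.psi_mem h _ hp))).contDiffWithinAt

theorem QQ_smooth (h : IsMetric g) : ContDiffOn ℝ ∞ (QQ KD) {p | p.2 ∈ OO n} := fun _ hp =>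
  ((comp_at (G.contDiffOn_PP h) contDiffAt_fst (back_at h hp) (G.psi_mem h _ hp)).clm_apply
    (comp_at' (kk_smooth KD h) (back_at h hp) (G.psi_mem h _ hp))).contDiffWithinAt

theorem cont_slice {W : Type} [NormedAddCommGroup W] [NormedSpace ℝ W] {F : ℝ × VV n → W}
    (hF : ContDiffOn ℝ ∞ F {p | p.2 ∈ OO n}) {x : VV n} (hx : x ∈ OO n) :
    Continuous fun r : ℝ => F (r, x) :=
  hF.continuousOn.comp_continuous (continuous_id.prodMk continuous_const) fun _ => hx

theorem xi_smooth (h : IsMetric g) : ContDiffOn ℝ ∞ (xi KD) (OO n) :=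
  contDiffOn_integral isOpen_OO (FF_smooth KD h) 0 (π / 2)

theorem xi_eqv (h : IsMetric g) : Eqv (xi KD) := by
  intro l m c x hl hm hx
  unfold xi
  rw [← intervalIntegral.integral_smul]
  congr 1
  funext r
  have hy := G.psi_mem h (-r) hx
  simp only [FF]
  rw [G.psi_act h _ c hl hm hx, kk_act KD h c hl hm hy, G.JJ_act h r c hl hm hy]

theorem mom_apply (h : IsMetric g) {x : VV n} (hx : x ∈ OO n) (η : E n) :
    mom KD x η = ∫ r in (0 : ℝ)..(π / 2), QQ KD (r, x) η :=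
  ContinuousLinearMap.intervalIntegral_apply
    ((cont_slice (QQ_smooth KD h) hx).intervalIntegrable _ _) η

theorem mom_inv (h : IsMetric g) (l : ℂ) (x : VV n) (η : E n) (hl : l ≠ 0) (hx : x ∈ OO n) :
    mom KD (l • x) (l • η) = mom KD x η := by
  rw [mom_apply KD h (smul_mem hl hx), mom_apply KD h hx]
  congr 1
  funext r
  have hy := G.psi_mem h (-r) hx
  have e : kk KD (l • G.psi (-r) x) = l • kk KD (G.psi (-r) x) := by
    rw [smul_eq_act, kk_act KD h 0 hl one_pos hy, ← smul_eq_act]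
  simp only [QQ]
  rw [G.psi_smul h _ hl hx, e, PP_smul h r hl hy]

theorem fderiv_dl (h : IsMetric g) {x : VV n} (hx : x ∈ OO n) (s : ℝ) :
    fderiv ℝ (G.psi s) x (dl KD x s) = kk KD (G.psi s x) := by
  have := G.fderiv_psi_neg h (-s) (G.psi_mem h s hx) (kk KD (G.psi s x))
  rwa [neg_neg, psi_neg_psi h s hx] at this

theorem dl_cont (h : IsMetric g) {x : VV n} (hx : x ∈ OO n) : Continuous (dl KD x) := by
  refine continuous_iff_continuousAt.2 fun s => ?_
  have hy := G.psi_mem h s hx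
  have h1 : ContDiffAt ℝ ∞ (fun s : ℝ => G.psi s x) s :=
    comp_at (G.contDiffOn_psi h) contDiffAt_id contDiffAt_const hx
  have h2 : ContDiffAt ℝ ∞ (Function.uncurry fun s : ℝ => G.psi (-s)) (s, G.psi s x) :=
    back_at h (p := (s, G.psi s x)) hy
  have h3 := ContDiffAt.fderiv (m := ∞) h2 h1 (by simp)
  exact (h3.clm_apply (comp_at' (kk_smooth KD h) h1 hy)).continuousAt

theorem JJ_dl (h : IsMetric g) {x : VV n} (hx : x ∈ OO n) (t r : ℝ) :
    G.JJ t x (dl KD x (t - r)) = G.JJ r (G.psi (t - r) x) (kk KD (G.psi (t - r) x)) := by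
  have := G.JJ_add h r (t - r) hx (dl KD x (t - r))
  rwa [add_sub_cancel, fderiv_dl KD h hx] at this

theorem PP_dl (h : IsMetric g) {x : VV n} (hx : x ∈ OO n) (t r : ℝ) :
    G.PP t x (dl KD x (t - r)) = G.PP r (G.psi (t - r) x) (kk KD (G.psi (t - r) x)) := by
  have := G.PP_add h r (t - r) hx (dl KD x (t - r))
  rwa [add_sub_cancel, fderiv_dl KD h hx] at this

theorem dl_int (h : IsMetric g) {x : VV n} (hx : x ∈ OO n) (t : ℝ) :
    IntervalIntegrable (fun r => dl KD x (t - r)) volume 0 (π / 2) :=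
  ((dl_cont KD h hx).comp (continuous_const.sub continuous_id)).intervalIntegrable _ _

theorem xi_psi (h : IsMetric g) {x : VV n} (hx : x ∈ OO n) (t : ℝ) :
    xi KD (G.psi t x) = G.JJ t x (av KD x t) := by
  unfold xi av
  rw [← ContinuousLinearMap.intervalIntegral_comp_comm _ (dl_int KD h hx t)]
  congr 1
  funext r
  simp only [FF]
  rw [JJ_dl KD h hx, ← G.psi_add h _ _ hx, neg_add_eq_sub]

theorem mom_psi (h : IsMetric g) {x : VV n} (hx : x ∈ OO n) (t : ℝ) :
    mom KD (G.psi t x) = G.PP t x (av KD x t) := by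
  unfold mom av
  rw [← ContinuousLinearMap.intervalIntegral_comp_comm _ (dl_int KD h hx t)]
  congr 1
  funext r
  simp only [QQ]
  rw [PP_dl KD h hx, ← G.psi_add h _ _ hx, neg_add_eq_sub]

theorem hasDerivAt_av (h : IsMetric g) {x : VV n} (hx : x ∈ OO n) (t : ℝ) :
    HasDerivAt (av KD x) (dl KD x t - dl KD x (t - π / 2)) t := by
  have hc := dl_cont KD h hx
  have e : av KD x = fun t => (∫ s in (0 : ℝ)..t, dl KD x s) -
      ∫ s in (0 : ℝ)..(t - π / 2), dl KD x s := by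
    funext t
    unfold av
    rw [intervalIntegral.integral_comp_sub_left (fun s => dl KD x s) t, sub_zero,
      intervalIntegral.integral_interval_sub_left (hc.intervalIntegrable _ _)
        (hc.intervalIntegrable _ _)]
  rw [e]
  have h2 := ((hc.integral_hasStrictDerivAt 0 (t - π / 2)).hasDerivAt).scomp t
    ((hasDerivAt_id t).sub_const (π / 2))
  rw [one_smul] at h2
  exact (hc.integral_hasStrictDerivAt 0 t).hasDerivAt.sub h2

theorem JH_kk {y : VV n} (hy : y ∈ OO n) : G.JH (π / 2) y (kk KD y) = 0 := by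
  rw [kk_eq, map_smul, ((KD.isK y hy).ker _).2 ⟨1, by simp⟩, smul_zero]

theorem JJ_kk {y : VV n} (hy : y ∈ OO n) :
    G.JJ (π / 2) y (kk KD y) = cv KD y • G.Z (π / 2) y := by
  have h1 : hor (G.Z (π / 2) y) (G.JJ (π / 2) y (kk KD y)) = 0 := JH_kk KD hy
  rw [hor_def, sub_eq_zero] at h1
  exact h1

/-- The pairing of the conjugate direction with a Jacobi field near a zero of the field. -/
theorem hasDerivAt_pair (h : IsMetric g) {y : VV n} (hy : y ∈ OO n) {ξ : VV n} {t : ℝ}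
    (h0 : G.JJ t y ξ = 0) :
    HasDerivAt (fun r => g (G.Z r y) (KD.K (G.psi r y)) (G.JJ r y ξ))
      (g (G.Z t y) (KD.K (G.psi t y)) (G.JD t y ξ)) t := by
  have h1 : ContDiffAt ℝ ∞ (fun r : ℝ => G.Z r y) t :=
    comp_at (G.contDiffOn_Z h) contDiffAt_id contDiffAt_const hy
  have h2 : ContDiffAt ℝ ∞ (fun r : ℝ => G.psi r y) t :=
    comp_at (G.contDiffOn_psi h) contDiffAt_id contDiffAt_const hy
  have h3 := ((h.contDiffAt (G.Z_ne h t hy)).comp t h1).clm_apply
    (comp_at' KD.smooth h2 (G.psi_mem h t hy))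
  have h4 := hasDerivAt_apply (D := 0) (h3.differentiableAt (by simp))
    (by simp only [h0, map_zero]; exact hasDerivAt_const t 0) (G.hasDerivAt_JJ h t hy ξ)
  rw [zero_add] at h4
  exact h4

theorem pair_cont (h : IsMetric g) {y : VV n} (hy : y ∈ OO n) (ξ : VV n) :
    Continuous fun r => g (G.Z r y) (KD.K (G.psi r y)) (G.JJ r y ξ) := by
  refine continuous_iff_continuousAt.2 fun t => ?_
  have h1 : ContDiffAt ℝ ∞ (fun r : ℝ => G.Z r y) t :=
    comp_at (G.contDiffOn_Z h) contDiffAt_id contDiffAt_const hy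
  have h2 : ContDiffAt ℝ ∞ (fun r : ℝ => G.psi r y) t :=
    comp_at (G.contDiffOn_psi h) contDiffAt_id contDiffAt_const hy
  have h3 := ((h.contDiffAt (G.Z_ne h t hy)).comp t h1).clm_apply
    (comp_at' KD.smooth h2 (G.psi_mem h t hy))
  exact h3.continuousAt.clm_apply (G.hasDerivAt_JJ h t hy ξ).continuousAt

theorem posJ (B : Bl g G) {x : VV n} (hx : x ∈ OO n) {r : ℝ} (hr : r ∈ Ioo 0 (π / 2)) :
    0 < g (G.Z r x) (KD.K (G.psi r x)) (G.JJ r x (0, KD.K x)) := by
  have h := B.met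
  have hK := KD.isK x hx
  set f : ℝ → ℝ := fun r => g (G.Z r x) (KD.K (G.psi r x)) (G.JJ r x (0, KD.K x)) with hf
  have hc : Continuous f := pair_cont KD h hx _
  have hne : ∀ r ∈ Ioo 0 (π / 2), f r ≠ 0 := fun r hr =>
    B.pair_ne (fun y hy => ⟨_, KD.isK y hy⟩) hx hK hr (KD.isK _ (G.psi_mem h r hx))
  have hJ : G.JJ 0 x (0, KD.K x) = 0 := G.JJ_zero h hx _
  have hd := hasDerivAt_pair KD h hx hJ
  have hZ : G.Z 0 x = x.1 := by unfold Geo.Z; rw [G.psi_zero h hx]
  rw [JD_zero_K h hx hK (a := 1) (by simp), G.psi_zero h hx, hZ, map_smul, hK.unit, smul_eq_mul,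
    mul_one, mul_one] at hd
  have hf0 : f 0 = 0 := by simp only [hf, hJ, map_zero]
  have hs : (0 : ℝ) < (spd g x)⁻¹ := inv_pos.2 (h.spd_pos hx)
  have hev : ∀ᶠ s in 𝓝[>] (0 : ℝ), 0 < f s := by
    have h1 := (hd.tendsto_slope_zero_right).eventually (lt_mem_nhds hs)
    filter_upwards [h1, self_mem_nhdsWithin] with s h1 h2
    rw [zero_add] at h1
    change 0 < s⁻¹ • (f s - f 0) at h1
    rw [hf0, sub_zero, smul_eq_mul] at h1
    exact (mul_pos_iff_of_pos_left (inv_pos.2 h2)).1 h1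
  obtain ⟨s, hs1, hs2⟩ := (hev.and (Ioo_mem_nhdsGT hr.1)).exists
  by_contra hneg
  have hle : f r ≤ 0 := not_lt.1 hneg
  obtain ⟨u, hu, e⟩ := intermediate_value_Icc' hs2.2.le hc.continuousOn ⟨hle, hs1.le⟩
  exact hne u ⟨hs2.1.trans_le hu.1, hu.2.trans_lt hr.2⟩ e

theorem pos (B : Bl g G) {x : VV n} (hx : x ∈ OO n) : 0 < g x.1 (KD.K x) (xi KD x) := by
  have h := B.met
  have hc := cont_slice (FF_smooth KD h) hx
  unfold xi
  rw [← ContinuousLinearMap.intervalIntegral_comp_comm _ (hc.intervalIntegrable _ _)]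
  refine intervalIntegral.intervalIntegral_pos_of_pos_on
    (((g x.1 (KD.K x)).continuous.comp hc).intervalIntegrable _ _) (fun r hr => ?_)
    (by positivity)
  have hy := G.psi_mem h (-r) hx
  have h1 := posJ KD B hy hr
  unfold Geo.Z at h1
  rw [psi_psi_neg h r hx] at h1
  simp only [FF]
  rw [kk_eq, map_smul, map_smul, smul_eq_mul]
  exact mul_pos (h.spd_pos hy) h1

theorem JJ_gauged (h : IsMetric g) {y : VV n} (hy : y ∈ OO n) (r : ℝ) :
    G.JJ r y (kk KD y - cv KD y • y) = G.JJ r y (kk KD y) - cv KD y • G.Z r y := by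
  rw [map_sub, G.JJ_gauge h r hy]

theorem JD_gauged (h : IsMetric g) {y : VV n} (hy : y ∈ OO n) (r : ℝ) :
    G.JD r y (kk KD y - cv KD y • y) = G.JD r y (kk KD y) - cv KD y • vel g (G.psi r y) := by
  rw [map_sub, JD_gauge h r hy]

theorem JD_conj (B : Bl g G) {y : VV n} (hy : y ∈ OO n) :
    G.JD (π / 2) y (kk KD y) - cv KD y • vel g (G.psi (π / 2) y) =
      sl KD y • KD.K (G.psi (π / 2) y) := by
  have h := B.met
  have hy' := G.psi_mem h (π / 2) hy
  have hK := KD.isK _ hy'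
  set ξ : VV n := kk KD y - cv KD y • y with hξ
  have h0 : G.JJ (π / 2) y ξ = 0 := by rw [hξ, JJ_gauged KD h hy, JJ_kk KD hy, sub_self]
  obtain ⟨u, hu⟩ : ∃ u : E n, fderiv ℝ (G.psi (π / 2)) y ξ = (0, u) :=
    ⟨_, Prod.ext ((G.fst_fderiv_psi h _ hy ξ).trans h0) rfl⟩
  have h1 : G.JH (π / 2) (G.psi (π / 2) y) (0, u) = 0 := by
    have e1 : G.JH (π / 2) (G.psi (π / 2) y) (0, u) = G.JH (0 + π) y ξ := by
      have e2 : (0 : ℝ) + π = π / 2 + π / 2 := by ring
      rw [e2]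
      change hor (G.psi (π / 2) (G.psi (π / 2) y)).1 (G.JJ (π / 2) (G.psi (π / 2) y) (0, u)) =
        hor (G.psi (π / 2 + π / 2) y).1 (G.JJ (π / 2 + π / 2) y ξ)
      rw [G.JJ_add h _ _ hy, hu, G.psi_add h _ _ hy]
    have e3 : G.JH 0 y ξ = 0 := by
      change hor (G.Z 0 y) (G.JJ 0 y ξ) = 0
      rw [hξ, JJ_gauged KD h hy, G.JJ_zero h hy]
      exact (hor_eq_zero_iff (G.Z_ne h 0 hy) _).2 ⟨-cv KD y, by simp [kk]⟩
    rw [e1, B.JH_add_pi 0 hy, e3, smul_zero]
  obtain ⟨a, ha⟩ := (hK.ker u).1 h1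
  have h2 : G.JD (π / 2) y (kk KD y) - cv KD y • vel g (G.psi (π / 2) y) =
      ((spd g (G.psi (π / 2) y))⁻¹ * a) • KD.K (G.psi (π / 2) y) := by
    rw [← JD_gauged KD h hy, ← JD_zero_K h hy' hK ha, ← hu, ← G.JD_add h _ _ hy, zero_add]
  have h3 : sl KD y = (spd g (G.psi (π / 2) y))⁻¹ * a := by
    unfold sl
    rw [h2, map_smul, smul_eq_mul]
    exact mul_right_eq_self₀.2 (Or.inl hK.unit)
  rw [h2, h3]

theorem sl_nonpos (B : Bl g G) {y : VV n} (hy : y ∈ OO n) : sl KD y ≤ 0 := by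
  have h := B.met
  have h0 : G.JJ (π / 2) y (kk KD y - cv KD y • y) = 0 := by
    rw [JJ_gauged KD h hy, JJ_kk KD hy, sub_self]
  have hd := hasDerivAt_pair KD h hy h0
  rw [JD_gauged KD h hy] at hd
  refine le_of_tendsto hd.tendsto_slope_zero_left ?_
  have hm : Ioo (-(π / 2)) 0 ∈ 𝓝[<] (0 : ℝ) := Ioo_mem_nhdsLT (by linarith only [pi_pos])
  filter_upwards [hm] with s hs
  have hr : π / 2 + s ∈ Ioo 0 (π / 2) := ⟨by linarith only [hs, hs.1], by linarith only [hs, hs.2]⟩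
  have h1 := posJ KD B hy hr
  rw [h0, map_zero, sub_zero, JJ_gauged KD h hy, map_sub, h.vert' _ _ (G.Z_ne h _ hy), sub_zero,
    kk_eq, map_smul, map_smul, smul_eq_mul, smul_eq_mul]
  exact mul_nonpos_of_nonpos_of_nonneg (inv_nonpos.2 hs.2.le)
    (mul_pos (h.spd_pos hy) h1).le

theorem sl_smooth (h : IsMetric g) {y : VV n} (hy : y ∈ OO n) : ContDiffAt ℝ ∞ (sl KD) y := by
  have h1 : ContDiffAt ℝ ∞ (fun y => G.Z (π / 2) y) y :=
    comp_at (G.contDiffOn_Z h) contDiffAt_const contDiffAt_id hy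
  have h2 : ContDiffAt ℝ ∞ (fun y => G.psi (π / 2) y) y :=
    comp_at (G.contDiffOn_psi h) contDiffAt_const contDiffAt_id hy
  have hy' := G.psi_mem h (π / 2) hy
  have hz := G.Z_ne h (π / 2) hy
  have h3 : ContDiffAt ℝ ∞ (kk KD) y := (kk_smooth KD h).contDiffAt (isOpen_OO.mem_nhds hy)
  have h4 : ContDiffAt ℝ ∞ (fun y => G.JJ (π / 2) y (kk KD y)) y :=
    (comp_at (G.contDiffOn_JJ h) contDiffAt_const contDiffAt_id hy).clm_apply h3
  have h5 : ContDiffAt ℝ ∞ (fun y => G.JD (π / 2) y (kk KD y)) y :=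
    (comp_at (G.contDiffOn_JD h) contDiffAt_const contDiffAt_id hy).clm_apply h3
  have h6 : ContDiffAt ℝ ∞ (cv KD) y :=
    ((contDiffOn_nuL.contDiffAt (isOpen_compl_singleton.mem_nhds hz)).comp y h1).clm_apply h4
  exact (((h.contDiffAt hz).comp y h1).clm_apply (comp_at' KD.smooth h2 hy')).clm_apply
    (h5.sub (h6.smul (comp_at' h.contDiffOn_vel h2 hy')))

theorem var (B : Bl g G) {x : VV n} (hx : x ∈ OO n) (t : ℝ) (η : ℝ → E n) (η' : E n)
    (hη : HasDerivAt η η' t) :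
    HasDerivAt (fun s => mom KD (G.psi s x) (η s))
      (D2 g (G.Z t x, vel g (G.psi t x))
          (xi KD (G.psi t x), deriv (fun s => xi KD (G.psi s x)) t) (η t, η') +
        (1 - sl KD (G.psi (-(π / 2)) (G.psi t x))) *
          g (G.Z t x) (KD.K (G.psi t x)) (η t)) t := by
  have h := B.met
  have hy' := G.psi_mem h t hx
  have hz := G.Z_ne h t hx
  have hK := KD.isK _ hy'
  have ey : G.psi (-(π / 2)) (G.psi t x) = G.psi (t - π / 2) x := by
    rw [← G.psi_add h _ _ hx, neg_add_eq_sub]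
  set y := G.psi (t - π / 2) x with hy0
  have hy : y ∈ OO n := G.psi_mem h _ hx
  have e1 : G.psi (π / 2) y = G.psi t x := by rw [hy0, ← G.psi_add h _ _ hx, add_sub_cancel]
  have e2 : G.Z (π / 2) y = G.Z t x := congrArg Prod.fst e1
  have hav := hasDerivAt_av KD h hx t
  have j1 : G.JJ t x (dl KD x t) = 0 := by
    have := JJ_dl KD h hx t 0
    rwa [sub_zero, G.JJ_zero h hy'] at this
  have j2 : G.JJ t x (dl KD x (t - π / 2)) = cv KD y • G.Z t x := by
    rw [JJ_dl KD h hx, JJ_kk KD hy, e2]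
  have p1 : G.PP t x (dl KD x t) (η t) = g (G.Z t x) (KD.K (G.psi t x)) (η t) := by
    have := PP_dl KD h hx t 0
    rw [sub_zero] at this
    have hs := (h.spd_pos hy').ne'
    rw [this, G.PP_apply h 0 hy', G.JJ_zero h hy', kk,
      JD_zero_K h hy' hK (a := spd g (G.psi t x)) (by simp), inv_mul_cancel₀ hs, one_smul]
    simp only [Geo.Z, G.psi_zero h hy', map_zero, zero_apply, zero_add]
  have p2 : G.PP t x (dl KD x (t - π / 2)) (η t) =
      sl KD y * g (G.Z t x) (KD.K (G.psi t x)) (η t) -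
        g (G.Z t x) (vel g (G.psi t x)) (cv KD y • η t) := by
    have := JD_conj KD B hy
    rw [sub_eq_iff_eq_add] at this
    rw [PP_dl KD h hx, G.PP_apply h _ hy, JJ_kk KD hy, this, e1, e2, h.fderiv_vert _ hz, map_add,
      (g (G.Z t x)).map_smul (sl KD y)]
    simp only [add_apply, smul_apply, smul_eq_mul]
    ring
  have dJ : DifferentiableAt ℝ (fun s => G.JJ s x) t :=
    (comp_at (G.contDiffOn_JJ h) contDiffAt_id contDiffAt_const hx).differentiableAt (by simp)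
  have dP : DifferentiableAt ℝ (fun s => G.PP s x) t :=
    (comp_at (G.contDiffOn_PP h) contDiffAt_id contDiffAt_const hx).differentiableAt (by simp)
  have hxi := hasDerivAt_apply dJ (G.hasDerivAt_JJ h t hx (av KD x t)) hav
  have exi : (fun s => xi KD (G.psi s x)) = fun s => G.JJ s x (av KD x s) :=
    funext fun s => xi_psi KD h hx s
  have emo : (fun s => mom KD (G.psi s x) (η s)) = fun s => G.PP s x (av KD x s) (η s) :=
    funext fun s => by rw [mom_psi KD h hx s]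
  have v1 := G.var h t hx (av KD x t) hη
  have v2 := v1.unique ((dP.hasDerivAt.clm_apply (hasDerivAt_const t (av KD x t))).clm_apply hη)
  have v3 := (dP.hasDerivAt.clm_apply hav).clm_apply hη
  rw [emo, exi, hxi.deriv, xi_psi KD h hx, ey]
  refine v3.congr_deriv ?_
  have hp : (G.Z t x, vel g (G.psi t x)).1 ≠ 0 := hz
  rw [h.D2_apply hp] at v2 ⊢
  simp only [map_zero, add_zero, map_sub, map_add, j1, j2, add_apply,
    sub_apply, zero_apply, p1, p2, h.fderiv_vert_arg _ hz, h.vert _ _ _ hz] at v2 ⊢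
  linarith only [v2]

end PushA

namespace Bl
variable {G : Geo g} (B : Bl g G)
include B

theorem exists_push (KD : KData g G) : Nonempty (PushData g G KD) :=
  ⟨{ xi := PushA.xi KD
     smooth := PushA.xi_smooth KD B.met
     eqv := PushA.xi_eqv KD B.met
     P := PushA.mom KD
     P_inv := PushA.mom_inv KD B.met
     cc := fun x => 1 - PushA.sl KD (G.psi (-(π / 2)) x)
     cc_cont := fun _ hx => (contDiffAt_const.sub
       ((PushA.sl_smooth KD B.met (G.psi_mem B.met _ hx)).comp _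
         (PushA.comp_at (G.contDiffOn_psi B.met) contDiffAt_const contDiffAt_id
           hx))).continuousAt.continuousWithinAt
     cc_pos := fun _ hx => by
       have := PushA.sl_nonpos KD B (G.psi_mem B.met (-(π / 2)) hx)
       linarith only [this]
     var := fun _ hx => PushA.var KD B hx
     pos := fun _ hx => PushA.pos KD B hx
     posJ := fun _ hx _ hr => PushA.posJ KD B hx hr }⟩

end Bl

end Pool.Agent.Work.MP_8c604c_gt
end
end

-- merged part: Pool.Agent.Work.MP_8c604c_gt.ContractA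
section
/-!
Equivariant contraction of short loops (see PLAN.md, section Contract).
-/

set_option maxSynthPendingDepth 3

open Set Filter Topology MeasureTheory
open scoped ContDiff

noncomputable section
namespace Pool.Agent.Work.MP_8c604c_gt

open Real

variable {n : ℕ} {g : Met n} {G : Geo g}

/-- Smooth nowhere vanishing equivariant maps with short loops. -/
structure Good (B : Bl g G) (p : VV n → E n) : Prop where
  smooth : ContDiffOn ℝ ∞ p (OO n)
  ne : ∀ x ∈ OO n, p x ≠ 0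
  eqv : Eqv p
  short : Short B p

/-- The loop of `p` through `x` is a point of projective space. -/
def Still (G : Geo g) (p : VV n → E n) (x : VV n) : Prop := ∀ t, ∃ c : ℂ, p (G.psi t x) = c • p x

/-- Smooth homotopy through good maps, stationary outside `[0, 1]`. -/
def Htpy (B : Bl g G) (p q : VV n → E n) : Prop :=
  ∃ H : ℝ × VV n → E n, ContDiffOn ℝ ∞ H {y | y.2 ∈ OO n} ∧ (∀ s, Good B fun x => H (s, x)) ∧
    (∀ s ≤ (0 : ℝ), ∀ x ∈ OO n, H (s, x) = p x) ∧ ∀ s ≥ (1 : ℝ), ∀ x ∈ OO n, H (s, x) = q x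

theorem ContractA_congr {B : Bl g G} {p q : VV n → E n} (hp : Good B p)
    (e : ∀ x ∈ OO n, q x = p x) : Good B q := by
  refine ⟨hp.smooth.congr e, fun x hx => e x hx ▸ hp.ne x hx, fun l m c x hl hm hx => ?_,
    fun x hx => ?_⟩
  · rw [e _ (act_mem c hl hm hx), e x hx, hp.eqv l m c x hl hm hx]
  · rw [funext fun t => e _ (G.psi_mem B.met t hx)]
    exact hp.short x hx

theorem ContractA_comp {W : Type} [NormedAddCommGroup W] [NormedSpace ℝ W] {H : ℝ × VV n → W}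
    (hH : ContDiffOn ℝ ∞ H {y | y.2 ∈ OO n}) {a : ℝ → ℝ} (ha : ContDiff ℝ ∞ a) :
    ContDiffOn ℝ ∞ (fun y : ℝ × VV n => H (a y.1, y.2)) {y | y.2 ∈ OO n} :=
  hH.comp ((ha.comp contDiff_fst).prodMk contDiff_snd).contDiffOn fun _ hy => hy

theorem Htpy.refl {B : Bl g G} {p : VV n → E n} (hp : Good B p) : Htpy B p p := by
  exact ⟨fun y => p y.2, hp.smooth.comp contDiff_snd.contDiffOn fun _ hy => hy, fun _ => hp,
    fun _ _ _ _ => rfl, fun _ _ _ _ => rfl⟩

theorem Htpy.trans {B : Bl g G} {p q r : VV n → E n} (h : Htpy B p q) (h' : Htpy B q r) :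
    Htpy B p r := by
  obtain ⟨H, a1, a2, a3, a4⟩ := h
  obtain ⟨H', b1, b2, b3, b4⟩ := h'
  have e1 : ∀ s : ℝ, s ≤ 1 / 2 → ∀ x ∈ OO n,
      H (2 * s, x) + H' (2 * s - 1, x) - H (1, x) = H (2 * s, x) := fun s hs x hx => by
    rw [b3 _ (by linarith only [hs]) x hx, a4 1 le_rfl x hx, add_sub_cancel_right]
  have e2 : ∀ s : ℝ, 1 / 2 ≤ s → ∀ x ∈ OO n,
      H (2 * s, x) + H' (2 * s - 1, x) - H (1, x) = H' (2 * s - 1, x) := fun s hs x hx => by
    rw [a4 _ (by linarith) x hx, a4 1 le_rfl x hx, add_sub_cancel_left]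
  refine ⟨fun y => H (2 * y.1, y.2) + H' (2 * y.1 - 1, y.2) - H (1, y.2), ?_, fun s => ?_,
    fun s hs x hx => ?_, fun s hs x hx => ?_⟩
  · exact ((ContractA_comp a1 (a := fun s => 2 * s) (by fun_prop)).add
      (ContractA_comp b1 (a := fun s => 2 * s - 1) (by fun_prop))).sub
      (ContractA_comp a1 (a := fun _ => 1) contDiff_const)
  · rcases le_total s (1 / 2) with hs | hs
    · exact ContractA_congr (a2 (2 * s)) (e1 s hs)
    · exact ContractA_congr (b2 (2 * s - 1)) (e2 s hs)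
  · exact (e1 s (by linarith only [hs]) x hx).trans (a3 _ (by linarith) x hx)
  · exact (e2 s (by linarith) x hx).trans (b4 _ (by linarith) x hx)

theorem Htpy.good {B : Bl g G} {p q : VV n → E n} (h : Htpy B p q) : Good B q := by
  obtain ⟨H, -, a2, -, a4⟩ := h
  exact ContractA_congr (a2 1) fun x hx => (a4 1 le_rfl x hx).symm

theorem ContractA_horL {c : ℂ} (hc : c ≠ 0) (z : E n) : horL (c • z) = horL z :=
  ContinuousLinearMap.ext fun u => hor_smul_left hc z u

/-- Iterated projection onto the lines of a family. -/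
def ContractA_it (p : VV n → E n) (F : ℝ × VV n → E n) (N : ℕ) : ℕ → ℝ × VV n → E n
  | 0 => fun y => p y.2
  | k + 1 => fun y => ContractA_it p F N k y -
      horL (F (y.1 * ((k + 1 : ℕ) / N), y.2)) (ContractA_it p F N k y)

theorem ContractA_step {z z' h : E n} (hz : z ≠ 0) {a : ℂ} (ha : a ≠ 0) (e : h = a • z)
    (hd : ‖horL z' - horL z‖ < 1) : ∃ b : ℂ, b ≠ 0 ∧ h - horL z' h = b • z' := by
  refine ⟨nu z' h, fun h0 => ?_, by rw [horL_apply, hor_def, sub_sub_cancel]⟩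
  have h1 : horL z h = 0 := (hor_eq_zero_iff hz h).2 ⟨a, e⟩
  have h2 : (horL z' - horL z) h = h := by
    rw [sub_apply, h1, sub_zero, horL_apply, hor_of_nu h0]
  have h3 := (horL z' - horL z).le_opNorm h
  have h4 : 0 < ‖h‖ := norm_pos_iff.2 (e ▸ smul_ne_zero ha hz)
  rw [h2] at h3
  linarith only [h3, hd, h4, mul_pos_of_neg_of_neg (Mathlib.Tactic.Linarith.sub_neg_of_lt hd) (Mathlib.Tactic.Linarith.sub_neg_of_lt h4)]

/-- A family of lines with smooth local lifts has a smooth equivariant lift. -/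
theorem relift {p : VV n → E n} (hp : ContDiffOn ℝ ∞ p (OO n)) (he : Eqv p)
    {F : ℝ × VV n → E n} (h0 : ∀ r, ∀ x ∈ OO n, F (r, x) ≠ 0)
    (hl : ∀ y₀ : ℝ × VV n, y₀.2 ∈ OO n → ∃ f : ℝ × VV n → E n, ContDiffAt ℝ ∞ f y₀ ∧
      ∀ᶠ y in 𝓝 y₀, ∃ c : ℂ, F y = c • f y)
    (hi : ∀ r l m c x, l ≠ 0 → 0 < m → x ∈ OO n → ∃ a : ℂ, F (r, act l m c x) = a • F (r, x))
    (hs : ∀ x ∈ OO n, ∃ a : ℂ, a ≠ 0 ∧ p x = a • F (0, x)) :
    ∃ H : ℝ × VV n → E n, ContDiffOn ℝ ∞ H {y | y.2 ∈ OO n} ∧ (∀ s, Eqv fun x => H (s, x)) ∧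
      (∀ s, ∀ x ∈ OO n, ∃ a : ℂ, a ≠ 0 ∧ H (s, x) = a • F (smoothTransition s, x)) ∧
      (∀ s ≤ (0 : ℝ), ∀ x ∈ OO n, H (s, x) = p x) ∧
      ∀ s ≥ (1 : ℝ), ∀ x ∈ OO n, H (s, x) = H (1, x) := by
  have hW : IsOpen {y : ℝ × VV n | y.2 ∈ OO n} := isOpen_OO.preimage continuous_snd
  have hQ : ContDiffOn ℝ ∞ (fun y => horL (F y)) {y : ℝ × VV n | y.2 ∈ OO n} := by
    intro y₀ hy₀
    obtain ⟨f, hf, hc⟩ := hl y₀ hy₀
    have hf0 : f y₀ ≠ 0 := by
      obtain ⟨c, e⟩ := hc.self_of_nhds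
      intro h
      exact h0 y₀.1 y₀.2 hy₀ (by rw [h, smul_zero] at e; exact e)
    have h1 : ContDiffAt ℝ ∞ (fun y => horL (f y)) y₀ :=
      (contDiffOn_horL.contDiffAt (isOpen_compl_singleton.mem_nhds hf0)).comp y₀ hf
    refine (h1.congr_of_eventuallyEq ?_).contDiffWithinAt
    filter_upwards [hc, hW.mem_nhds hy₀] with y ⟨c, e⟩ hy
    have hc0 : c ≠ 0 := by
      rintro rfl
      exact h0 y.1 y.2 hy (by rw [zero_smul] at e; exact e)
    rw [e, ContractA_horL hc0]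
  have hQi : ∀ r l m c x, l ≠ 0 → 0 < m → x ∈ OO n →
      horL (F (r, act l m c x)) = horL (F (r, x)) := by
    intro r l m c x hl0 hm hx
    obtain ⟨a, e⟩ := hi r l m c x hl0 hm hx
    have ha : a ≠ 0 := by
      rintro rfl
      exact h0 r _ (act_mem c hl0 hm hx) (by rw [e, zero_smul])
    rw [e, ContractA_horL ha]
  obtain ⟨δ, hδ, hu⟩ := Metric.uniformContinuousOn_iff.1
    ((isCompact_Icc (a := (0 : ℝ)) (b := 1)).prod isCompact_slice |>.uniformContinuousOn_of_continuous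
      (hQ.continuousOn.mono fun y hy => slice_subset hy.2)) 1 one_pos
  obtain ⟨M, hM⟩ := exists_nat_one_div_lt hδ
  have hN : (0 : ℝ) < (M + 1 : ℕ) := by positivity
  have hd : ∀ r ∈ Icc (0 : ℝ) 1, ∀ r' ∈ Icc (0 : ℝ) 1, |r' - r| < δ → ∀ x ∈ OO n,
      ‖horL (F (r', x)) - horL (F (r, x))‖ < 1 := by
    intro r hr r' hr' hrr x hx
    obtain ⟨y, hy, l, m, c, hl0, hm, rfl⟩ := exists_slice hx
    have hl1 : (l : ℂ) ≠ 0 := by exact_mod_cast hl0.ne'
    rw [hQi r _ m c y hl1 hm (slice_subset hy), hQi r' _ m c y hl1 hm (slice_subset hy),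
      ← dist_eq_norm]
    refine hu (r', y) ⟨hr', hy⟩ (r, y) ⟨hr, hy⟩ ?_
    rw [Prod.dist_eq, dist_self, Real.dist_eq]
    exact max_lt hrr hδ
  have s1 : ∀ k, ContDiffOn ℝ ∞ (ContractA_it p F (M + 1) k) {y | y.2 ∈ OO n} := by
    intro k
    induction k with
    | zero => exact hp.comp contDiff_snd.contDiffOn fun _ hy => hy
    | succ k ih =>
      exact ih.sub ((ContractA_comp hQ (a := fun s => s * (((k + 1 : ℕ) : ℝ) / (M + 1 : ℕ)))
        (by fun_prop)).clm_apply ih)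
  have s2 : ∀ k r, Eqv fun x => ContractA_it p F (M + 1) k (r, x) := by
    intro k r
    induction k with
    | zero => exact he
    | succ k ih =>
      intro l m c x hl0 hm hx
      have := ih l m c x hl0 hm hx
      simp only [ContractA_it] at this ⊢
      rw [this, hQi _ l m c x hl0 hm hx, horL_apply, horL_apply, hor_smul, smul_sub]
  have s3 : ∀ r ∈ Icc (0 : ℝ) 1, ∀ x ∈ OO n, ∀ k, k ≤ M + 1 → ∃ a : ℂ, a ≠ 0 ∧
      ContractA_it p F (M + 1) k (r, x) = a • F (r * ((k : ℝ) / (M + 1 : ℕ)), x) := by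
    intro r hr x hx k
    have hm : ∀ j : ℕ, j ≤ M + 1 → r * ((j : ℝ) / (M + 1 : ℕ)) ∈ Icc (0 : ℝ) 1 := fun j hj =>
      ⟨mul_nonneg hr.1 (by positivity), mul_le_one₀ hr.2 (by positivity)
        ((div_le_one hN).2 (by exact_mod_cast hj))⟩
    induction k with
    | zero =>
      intro _
      simpa [ContractA_it] using hs x hx
    | succ k ih =>
      intro hk
      obtain ⟨a, ha, e⟩ := ih (by omega)
      refine ContractA_step (h0 _ x hx) ha e (hd _ (hm k (by omega)) _ (hm _ hk) ?_ x hx)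
      have e1 : r * (((k + 1 : ℕ) : ℝ) / (M + 1 : ℕ)) - r * ((k : ℝ) / (M + 1 : ℕ)) =
          r * (1 / ((M : ℝ) + 1)) := by
        push_cast
        ring
      rw [e1, abs_of_nonneg (mul_nonneg hr.1 (by positivity))]
      exact (mul_le_of_le_one_left (by positivity) hr.2).trans_lt hM
  have s4 : ∀ x ∈ OO n, ∀ k, ContractA_it p F (M + 1) k (0, x) = p x := by
    intro x hx k
    induction k with
    | zero => rfl
    | succ k ih =>
      obtain ⟨a, -, e⟩ := hs x hx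
      simp only [ContractA_it, ih, zero_mul]
      rw [horL_apply, (hor_eq_zero_iff (h0 0 x hx) _).2 ⟨a, e⟩, sub_zero]
  refine ⟨fun y => ContractA_it p F (M + 1) (M + 1) (smoothTransition y.1, y.2),
    ContractA_comp (s1 _) smoothTransition.contDiff, fun s => s2 (M + 1) (smoothTransition s),
    fun s x hx => ?_,
    fun s hs x hx => ?_, fun s hs x _ => ?_⟩
  · have := s3 _ ⟨smoothTransition.nonneg s, smoothTransition.le_one s⟩ x hx _ le_rfl
    rwa [div_self hN.ne', mul_one] at this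
  · simp only [smoothTransition.zero_of_nonpos hs]
    exact s4 x hx _
  · simp only [smoothTransition.one_of_one_le hs, smoothTransition.one]

/-- Squared sine of the angle between two lines. -/
def ContractA_ang (z₀ z : E n) : ℝ := ‖horL z₀ z‖ ^ 2 / ‖z‖ ^ 2

theorem ContractA_ang_smul (z₀ z : E n) {c : ℂ} (hc : c ≠ 0) :
    ContractA_ang z₀ (c • z) = ContractA_ang z₀ z := by
  unfold ContractA_ang
  rw [horL_apply, horL_apply, hor_smul, norm_smul, norm_smul, mul_pow, mul_pow,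
    mul_div_mul_left _ _ (pow_ne_zero 2 (norm_ne_zero_iff.2 hc))]

theorem ContractA_ang_smooth (z₀ : E n) : ContDiffOn ℝ ∞ (ContractA_ang z₀) {0}ᶜ :=
  (((contDiff_norm_sq ℂ).comp (horL z₀).contDiff).contDiffOn).div
    (contDiff_norm_sq ℂ).contDiffOn fun _ hz => pow_ne_zero 2 (norm_ne_zero_iff.2 hz)

/-- A smooth invariant phase function that does not vanish at a given point. -/
theorem Bl.exists_phase (B : Bl g G) {x₀ : VV n} (hx : x₀ ∈ OO n) : ∃ f : VV n → ℂ,
    ContDiffOn ℝ ∞ f (OO n) ∧ Inv f ∧ f x₀ ≠ 0 ∧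
      ∀ t, ∀ x ∈ OO n, f (G.psi t x) = Complex.exp (2 * t * Complex.I) * f x := by
  have hZ : Continuous fun t => G.Z t x₀ :=
    (G.isUnitGeodesic_Z B.met hx).smooth.continuous
  have hA : Continuous fun t => ContractA_ang x₀.1 (G.Z t x₀) :=
    (ContractA_ang_smooth x₀.1).continuousOn.comp_continuous hZ fun t => G.Z_ne B.met t hx
  have hpi := pi_pos
  obtain ⟨t₀, ht₀, hmin⟩ := (isCompact_Icc (a := π / 4) (b := 3 * π / 4)).exists_isMinOn
    ⟨π / 4, le_rfl, by linarith only [hpi]⟩ hA.continuousOn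
  set m := ContractA_ang x₀.1 (G.Z t₀ x₀) with hm
  have hm0 : 0 < m := by
    refine div_pos (pow_pos (norm_pos_iff.2 fun h => ?_) 2)
      (pow_pos (norm_pos_iff.2 (G.Z_ne B.met t₀ hx)) 2)
    obtain ⟨c, hc⟩ := (hor_eq_zero_iff hx.1 _).1 h
    exact B.Z_not_mem hx ⟨by linarith only [hpi, ht₀, ht₀.1], by linarith [ht₀.2]⟩ c hc
  set u : ℝ × VV n → ℂ := fun y => (expNegInvGlue (m - ContractA_ang x₀.1 (G.Z y.1 y.2)) : ℝ) *
    Complex.exp (-(2 * y.1 * Complex.I)) with hu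
  have hus : ContDiffOn ℝ ∞ u {y | y.2 ∈ OO n} := by
    refine ContDiffOn.mul (Complex.ofRealCLM.contDiff.comp_contDiffOn
      (expNegInvGlue.contDiff.comp_contDiffOn (contDiffOn_const.sub
        ((ContractA_ang_smooth x₀.1).comp (G.contDiffOn_Z B.met)
          fun y hy => G.Z_ne B.met y.1 hy)))) (ContDiff.contDiffOn ?_)
    exact Complex.contDiff_exp.comp ((contDiff_const.mul
      (Complex.ofRealCLM.contDiff.comp contDiff_fst)).mul contDiff_const).neg
  refine ⟨fun x => ∫ t in (0 : ℝ)..π, u (t, x), contDiffOn_integral isOpen_OO hus 0 π,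
    fun l r c x hl hr hx => ?_, fun h => ?_, fun s x hx => ?_⟩
  · simp only [hu, G.Z_eqv B.met _ l r c x hl hr hx, ContractA_ang_smul _ _ hl]
  · have hc : Continuous fun t => u (t, x₀) :=
      hus.continuousOn.comp_continuous (by fun_prop) fun _ => hx
    have h1 := Complex.reCLM.intervalIntegral_comp_comm (hc.intervalIntegrable (μ := volume) 0 π)
    have h2 : ∀ t : ℝ, Complex.reCLM (u (t, x₀)) =
        expNegInvGlue (m - ContractA_ang x₀.1 (G.Z t x₀)) * cos (2 * t) := fun t => by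
      simp [hu, Complex.exp_re]
    simp only at h
    rw [h, map_zero] at h1
    refine (intervalIntegral.integral_pos hpi (Complex.reCLM.continuous.comp hc).continuousOn
      (fun t ht => ?_) ⟨0, ⟨le_rfl, hpi.le⟩, ?_⟩).ne' h1
    · rw [Function.comp_apply, h2]
      by_cases a1 : t ≤ π / 4
      · exact mul_nonneg (expNegInvGlue.nonneg _)
          (cos_nonneg_of_mem_Icc ⟨by linarith only [hpi, ht, ht.1], by linarith only [a1]⟩)
      by_cases a2 : 3 * π / 4 ≤ t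
      · rw [← cos_sub_two_pi]
        exact mul_nonneg (expNegInvGlue.nonneg _)
          (cos_nonneg_of_mem_Icc ⟨by linarith only [a2], by linarith only [hpi, ht, ht.2]⟩)
      · rw [expNegInvGlue.zero_of_nonpos (sub_nonpos.2 (hmin ⟨by linarith only [a1], by linarith only [a2]⟩)),
          zero_mul]
    · have h3 : ContractA_ang x₀.1 (G.Z 0 x₀) = 0 := by
        rw [Geo.Z, G.psi_zero B.met hx, ContractA_ang, horL_apply,
          (hor_eq_zero_iff hx.1 _).2 ⟨1, (one_smul _ _).symm⟩]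
        simp
      rw [Function.comp_apply, h2, h3, sub_zero, mul_zero, cos_zero, mul_one]
      exact expNegInvGlue.pos_of_pos hm0
  · have hper : Function.Periodic (fun t => u (t, x)) π := fun t => by
      obtain ⟨c, hc⟩ := B.per x hx t
      have hc0 : c ≠ 0 := by
        rintro rfl
        exact G.Z_ne B.met _ hx (by rw [hc, zero_smul])
      simp only [hu, hc, ContractA_ang_smul _ _ hc0]
      congr 1
      rw [← Complex.exp_periodic (-(2 * ((t + π : ℝ) : ℂ) * Complex.I))]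
      congr 1
      push_cast
      ring
    have h1 : ∀ t : ℝ, u (t, G.psi s x) = Complex.exp (2 * s * Complex.I) * u (t + s, x) := by
      intro t
      have e : G.Z t (G.psi s x) = G.Z (t + s) x := by rw [Geo.Z, Geo.Z, G.psi_add B.met t s hx]
      simp only [hu, e]
      rw [mul_left_comm, ← Complex.exp_add]
      congr 2
      push_cast
      ring
    simp only [h1]
    rw [intervalIntegral.integral_const_mul,
      intervalIntegral.integral_comp_add_right (fun t => u (t, x)) s, zero_add, add_comm π s,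
      hper.intervalIntegral_add_eq s 0, zero_add]

end Pool.Agent.Work.MP_8c604c_gt
end
end

-- merged part: Pool.Agent.Work.MP_8c604c_gt.ContractB
section
/-!
Equivariant contraction of short loops (see PLAN.md, section Contract).
-/

set_option maxSynthPendingDepth 3

open Set Filter Topology MeasureTheory
open scoped ContDiff

noncomputable section
namespace Pool.Agent.Work.MP_8c604c_gt

open Real

variable {n : ℕ} {g : Met n} {G : Geo g}

theorem cb_per {h : ℝ → ℝ} (hs : ContDiff ℝ ∞ h) (h0 : ∀ t ≤ (0 : ℝ), h t = h 0)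
    (h1 : ∀ t ≥ (1 : ℝ), h t = h 1) : ∃ H : ℝ → ℝ, ContDiff ℝ ∞ H ∧
      (∀ t, H (t + 1) = H t + (h 1 - h 0)) ∧ ∀ t ∈ Icc (0 : ℝ) 1, H t = h t := by
  refine ⟨fun t => h (t - ⌊t⌋) + (h 1 - h 0) * ⌊t⌋, contDiff_iff_contDiffAt.2 fun a => ?_,
    fun t => ?_, fun t ht => ?_⟩
  · have hc : ContDiff ℝ ∞ fun t => h (t - ⌊a⌋) + h (t - ⌊a⌋ + 1) - h 1 + (h 1 - h 0) * ⌊a⌋ := by
      fun_prop
    refine hc.contDiffAt.congr_of_eventuallyEq ?_
    filter_upwards [Ioo_mem_nhds (a := (⌊a⌋ : ℝ) - 1) (b := ⌊a⌋ + 1)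
      (by linarith [Int.floor_le a]) (Int.lt_floor_add_one a)] with t ht
    rcases le_or_gt (⌊a⌋ : ℝ) t with h2 | h2
    · have h3 : ⌊t⌋ = ⌊a⌋ := Int.floor_eq_iff.2 ⟨h2, ht.2⟩
      rw [h3, h1 (t - ⌊a⌋ + 1) (by linarith)]
      ring
    · have h3 : ⌊t⌋ = ⌊a⌋ - 1 :=
        Int.floor_eq_iff.2 ⟨by push_cast; linarith [ht.1], by push_cast; linarith⟩
      rw [h3, h0 (t - ⌊a⌋) (by linarith)]
      push_cast
      rw [show t - ((⌊a⌋ : ℝ) - 1) = t - ⌊a⌋ + 1 by ring]
      ring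
  · simp only [Int.floor_add_one]
    push_cast
    rw [show t + 1 - ((⌊t⌋ : ℝ) + 1) = t - ⌊t⌋ by ring]
    ring
  · rcases ht.2.eq_or_lt with rfl | h2
    · simp
    · have h3 : ⌊t⌋ = 0 := Int.floor_eq_iff.2 ⟨by simpa using ht.1, by simpa using h2⟩
      simp [h3]

/-- The two functions that describe the deformation of a loop. -/
structure CbF (A b : ℝ → ℝ → ℝ) : Prop where
  sA : ContDiff ℝ ∞ fun y : ℝ × ℝ => A y.1 y.2
  sb : ContDiff ℝ ∞ fun y : ℝ × ℝ => b y.1 y.2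
  pA : ∀ ρ t, A ρ (t + π) = A ρ t
  pb : ∀ ρ t, b ρ (t + π) = b ρ t + π
  zero : ∀ t, A 0 t = 1 ∧ b 0 t = t
  one : ∀ t ∈ Icc 0 π, A 1 t = 0 ∨ b 1 t = 0 ∨ b 1 t = π
  len : ∀ ρ, ∃ m ∈ Icc 0 π, ∃ β ∈ Icc 0 π, ∃ α : ℝ → ℝ, Monotone α ∧ (∀ t, α t ∈ Icc 0 1) ∧
    (∀ t ∈ Icc 0 m, (b ρ t = 0 ∧ (β = 0 ∨ α t = 0)) ∨ (A ρ t = α t ∧ (α t = 0 ∨ b ρ t = β))) ∧
    (∀ t ∈ Icc m π, A ρ t = 1 ∧ b ρ t ∈ Icc β π) ∧ MonotoneOn (b ρ) (Icc m π)

theorem cb_funs : ∃ A b, CbF A b := by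
  have hS : ContDiff ℝ ∞ smoothTransition := smoothTransition.contDiff
  have z0 : ∀ {x : ℝ}, x ≤ 0 → smoothTransition x = 0 := smoothTransition.zero_of_nonpos
  have z1 : ∀ {x : ℝ}, 1 ≤ x → smoothTransition x = 1 := smoothTransition.one_of_one_le
  have n0 := smoothTransition.nonneg
  have n1 := smoothTransition.le_one
  have hπ := pi_pos
  obtain ⟨P, sP, pP, eP⟩ := cb_per (h := fun t => smoothTransition (2 * t - 1)) (by fun_prop)
    (fun t ht => by rw [z0 (by linarith only [ht]), z0 (by norm_num)])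
    (fun t ht => by rw [z1 (by linarith), z1 (by norm_num)])
  obtain ⟨Q, sQ, pQ, eQ⟩ := cb_per (h := fun t => smoothTransition (8 * t - 1)) (by fun_prop)
    (fun t ht => by rw [z0 (by linarith), z0 (by norm_num)])
    (fun t ht => by rw [z1 (by linarith), z1 (by norm_num)])
  obtain ⟨R, sR, pR, eR⟩ := cb_per
    (h := fun t => 1 - smoothTransition (8 * t) + smoothTransition (4 * t - 1)) (by fun_prop)
    (fun t ht => by rw [z0 (by linarith), z0 (by linarith), z0 (by norm_num), z0 (by norm_num)])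
    (fun t ht => by rw [z1 (by linarith), z1 (by linarith), z1 (by norm_num), z1 (by norm_num)])
  rw [z1 (by norm_num), z0 (by norm_num), sub_zero] at pP pQ
  rw [z1 (by norm_num), z1 (by norm_num), z0 (by norm_num), z0 (by norm_num)] at pR
  have hd : ∀ t, (t + π) / π = t / π + 1 := fun t => by rw [add_div, div_self hπ.ne']
  have hm : ∀ t ∈ Icc 0 π, t / π ∈ Icc (0 : ℝ) 1 := fun t ht =>
    ⟨div_nonneg ht.1 hπ.le, (div_le_one hπ).2 ht.2⟩
  have mo : ∀ s t : ℝ, s ≤ t →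
      smoothTransition (2 * (s / π) - 1) ≤ smoothTransition (2 * (t / π) - 1) := fun s t h =>
    smoothTransition.monotone (by linarith only [h, hπ, div_le_div_of_nonneg_right h hπ.le])
  refine ⟨fun ρ t => 1 - smoothTransition (3 * ρ - 1) * (1 - R (t / π)),
    fun ρ t => t + smoothTransition (3 * ρ) * (π * P (t / π) - t) +
      smoothTransition (3 * ρ - 2) * (π * (Q (t / π) - P (t / π))),
    by fun_prop, by fun_prop, fun ρ t => by rw [hd, pR]; ring,
    fun ρ t => by rw [hd, pP, pQ]; ring, fun t => ?_, fun t ht => ?_, fun ρ => ?_⟩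
  · rw [z0 (by norm_num), z0 (by norm_num), z0 (by norm_num)]
    exact ⟨by ring, by ring⟩
  · rw [z1 (by norm_num), z1 (by norm_num), z1 (by norm_num), eQ _ (hm t ht), eR _ (hm t ht)]
    rcases le_total (t / π) (1 / 8) with h1 | h1
    · rw [z0 (x := 8 * (t / π) - 1) (by linarith only [h1])]
      exact Or.inr (Or.inl (by ring))
    rcases le_total (t / π) (1 / 4) with h2 | h2
    · rw [z1 (x := 8 * (t / π)) (by linarith only [h1]), z0 (x := 4 * (t / π) - 1) (by linarith only [h2])]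
      exact Or.inl (by ring)
    · rw [z1 (x := 8 * (t / π) - 1) (by linarith only [h2])]
      exact Or.inr (Or.inr (by ring))
  rcases le_total ρ (1 / 3) with h1 | h1
  · simp only [z0 (x := 3 * ρ - 1) (by linarith only [h1]), z0 (x := 3 * ρ - 2) (by linarith only [h1]), zero_mul,
      add_zero, sub_zero]
    have a0 := n0 (3 * ρ)
    have a1 := sub_nonneg.2 (n1 (3 * ρ))
    refine ⟨0, ⟨le_rfl, hπ.le⟩, 0, ⟨le_rfl, hπ.le⟩, fun _ => 0, monotone_const,
      fun _ => ⟨le_rfl, zero_le_one⟩, fun t ht => Or.inl ⟨?_, Or.inl rfl⟩,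
      fun t ht => ⟨trivial, ?_⟩, fun s hs t ht h => ?_⟩
    · rw [le_antisymm ht.2 ht.1, eP _ (hm 0 ⟨le_rfl, hπ.le⟩), z0 (x := 2 * (0 / π) - 1) (by simp)]
      ring
    · rw [eP _ (hm t ht)]
      have a2 := mul_nonneg a0 (mul_nonneg hπ.le (n0 (2 * (t / π) - 1)))
      have a3 := mul_nonneg a0 (mul_nonneg hπ.le (sub_nonneg.2 (n1 (2 * (t / π) - 1))))
      exact ⟨by linarith only [a2, a1, ht, mul_nonneg a1 ht.1], by linarith only [a3, a1, ht, mul_nonneg a1 (sub_nonneg.2 ht.2)]⟩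
    · simp only [eP _ (hm s hs), eP _ (hm t ht)]
      linarith only [a1, h, a0, hπ, mo, mul_nonneg a1 (sub_nonneg.2 h),
        mul_nonneg a0 (mul_nonneg hπ.le (sub_nonneg.2 (mo s t h)))]
  · simp only [z1 (x := 3 * ρ) (by linarith only [h1]), one_mul]
    have a0 := n0 (3 * ρ - 2)
    have a1 := sub_nonneg.2 (n1 (3 * ρ - 2))
    have hh : ∀ t ∈ Icc (π / 2) π, t ∈ Icc 0 π ∧ 1 / 2 ≤ t / π := fun t ht =>
      ⟨⟨(half_pos hπ).le.trans ht.1, ht.2⟩, (le_div_iff₀ hπ).2 (by linarith only [ht, ht.1])⟩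
    refine ⟨π / 2, ⟨(half_pos hπ).le, half_le_self hπ.le⟩, smoothTransition (3 * ρ - 2) * π,
      ⟨mul_nonneg a0 hπ.le, by linarith only [a1, hπ, mul_nonneg a1 hπ.le]⟩,
      fun t => smoothTransition (4 * (t / π) - 1), fun s t h => smoothTransition.monotone
        (by linarith only [h, hπ, div_le_div_of_nonneg_right h hπ.le]), fun t => ⟨n0 _, n1 _⟩,
      fun t ht => ?_, fun t ht => ?_, fun s hs t ht h => ?_⟩
    · have h2 := hm t ⟨ht.1, ht.2.trans (half_le_self hπ.le)⟩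
      have h3 : t / π ≤ 1 / 2 := (div_le_iff₀ hπ).2 (by linarith only [ht, ht.2])
      simp only [eP _ h2, eQ _ h2, eR _ h2, z0 (x := 2 * (t / π) - 1) (by linarith only [h3])]
      rcases le_total (t / π) (1 / 8) with h4 | h4
      · rw [z0 (x := 8 * (t / π) - 1) (by linarith only [h4])]
        exact Or.inl ⟨by ring, Or.inr (z0 (by linarith only [h4]))⟩
      rcases le_total ρ (2 / 3) with h5 | h5
      · rw [z0 (x := 3 * ρ - 2) (by linarith only [h5])]
        exact Or.inl ⟨by ring, Or.inl (by ring)⟩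
      rw [z1 (x := 3 * ρ - 1) (by linarith only [h5]), z1 (x := 8 * (t / π)) (by linarith only [h4])]
      refine Or.inr ⟨by ring, ?_⟩
      rcases le_total (t / π) (1 / 4) with h6 | h6
      · exact Or.inl (z0 (by linarith only [h6]))
      · rw [z1 (x := 8 * (t / π) - 1) (by linarith only [h6])]
        exact Or.inr (by ring)
    · obtain ⟨h2, h3⟩ := hh t ht
      rw [eP _ (hm t h2), eQ _ (hm t h2), eR _ (hm t h2), z1 (x := 8 * (t / π)) (by linarith only [h3]),
        z1 (x := 4 * (t / π) - 1) (by linarith only [h3]), z1 (x := 8 * (t / π) - 1) (by linarith only [h3])]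
      have a2 := mul_nonneg a1 (mul_nonneg hπ.le (n0 (2 * (t / π) - 1)))
      have a3 := mul_nonneg a1 (mul_nonneg hπ.le (sub_nonneg.2 (n1 (2 * (t / π) - 1))))
      exact ⟨by ring, by linarith only [a2], by linarith only [a3]⟩
    · obtain ⟨h2, h3⟩ := hh t ht
      obtain ⟨h4, h5⟩ := hh s hs
      simp only [eP _ (hm t h2), eQ _ (hm t h2), eP _ (hm s h4), eQ _ (hm s h4),
        z1 (x := 8 * (t / π) - 1) (by linarith only [h3]), z1 (x := 8 * (s / π) - 1) (by linarith only [h5])]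
      linarith only [a1, hπ, mo, h, mul_nonneg a1 (mul_nonneg hπ.le (sub_nonneg.2 (mo s t h)))]

theorem cb_arg {z w : ℂ} (hz : z ≠ 0) {r t : ℝ} (hr : 0 < r)
    (h : w = r * (Complex.exp (2 * t * Complex.I) * z)) :
    ∃ k : ℤ, w.arg / 2 = z.arg / 2 + t + k * π := by
  rw [h, Complex.arg_real_mul _ hr]
  have h1 : ‖Complex.exp (2 * t * Complex.I) * z‖ = ‖z‖ := by
    rw [norm_mul, show (2 * t : ℂ) = ((2 * t : ℝ) : ℂ) by push_cast; ring,
      Complex.norm_exp_ofReal_mul_I, one_mul]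
  have h2 := Complex.norm_mul_exp_arg_mul_I (Complex.exp (2 * t * Complex.I) * z)
  rw [h1] at h2
  have h3 : (‖z‖ : ℂ) * Complex.exp (2 * t * Complex.I + z.arg * Complex.I) =
      Complex.exp (2 * t * Complex.I) * z := by
    rw [Complex.exp_add, mul_left_comm, Complex.norm_mul_exp_arg_mul_I]
  obtain ⟨k, hk⟩ := Complex.exp_eq_exp_iff_exists_int.1
    (mul_left_cancel₀ (Complex.ofReal_ne_zero.2 (norm_ne_zero_iff.2 hz)) (h2.trans h3.symm))
  have h4 := congrArg Complex.im hk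
  simp at h4
  exact ⟨k, by linarith only [h4]⟩

/-- Two vectors on the same line. -/
def CbL (a b : E n) : Prop := ∃ l : ℂ, l ≠ 0 ∧ a = l • b

theorem CbL.refl (a : E n) : CbL a a := ⟨1, one_ne_zero, (one_smul _ _).symm⟩

theorem CbL.of_eq {a b : E n} (h : a = b) : CbL a b := h ▸ CbL.refl a

theorem CbL.symm {a b : E n} (h : CbL a b) : CbL b a := by
  obtain ⟨l, hl, rfl⟩ := h
  exact ⟨l⁻¹, inv_ne_zero hl, by rw [smul_smul, inv_mul_cancel₀ hl, one_smul]⟩

theorem CbL.trans {a b c : E n} (h : CbL a b) (h' : CbL b c) : CbL a c := by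
  obtain ⟨l, hl, rfl⟩ := h
  obtain ⟨m, hm, rfl⟩ := h'
  exact ⟨l * m, mul_ne_zero hl hm, smul_smul _ _ _⟩

theorem CbL.ne {a b : E n} (h : CbL a b) (hb : b ≠ 0) : a ≠ 0 := by
  obtain ⟨l, hl, rfl⟩ := h
  exact smul_ne_zero hl hb

theorem CbL.int {c : ℝ → E n} (h : ∀ t, CbL (c (t + π)) (c t)) (t : ℝ) (k : ℤ) :
    CbL (c (t + k * π)) (c t) := by
  induction k using Int.induction_on with
  | zero => simpa using CbL.refl _
  | succ k ih =>
    have e : t + ((k + 1 : ℤ) : ℝ) * π = t + ((k : ℤ) : ℝ) * π + π := by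
      push_cast
      ring
    rw [e]
    exact (h _).trans ih
  | pred k ih =>
    have e : t + ((-k : ℤ) : ℝ) * π = t + ((-k - 1 : ℤ) : ℝ) * π + π := by
      push_cast
      ring
    rw [e] at ih
    exact (h _).symm.trans ih

theorem cb_mod (a : ℝ) : ∃ t ∈ Icc 0 π, ∃ k : ℤ, a = t + k * π :=
  ⟨a - ⌊a / π⌋ * π, ⟨Int.sub_floor_div_mul_nonneg a pi_pos,
    (Int.sub_floor_div_mul_lt a pi_pos).le⟩, _, (sub_add_cancel _ _).symm⟩

theorem cb_shift (h : IsMetric g) {c : ℝ → E n} (hp : Function.Periodic c π) (a : ℝ) :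
    Var h (fun t => c (t + a)) 0 π = Var h c 0 π := by
  obtain ⟨s, hs, k, rfl⟩ := cb_mod a
  have e : (fun t => c (t + (s + k * π))) = fun t => c (t + s) := by
    funext t
    rw [← add_assoc, hp.int_mul k]
  have e2 := Var_shift h c 0 s π
  simp only [hp _, zero_add] at e2
  rw [e, Var_shift, zero_add, ← Var_add h c hs.2 (le_add_of_nonneg_right hs.1), add_comm π s,
    ← e2, add_comm, Var_add h c hs.1 hs.2]

theorem cb_geo (h : IsMetric g) (G : Geo g) {q : E n} (hq : q ≠ 0) (u : E n) {α : ℝ → ℝ}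
    (hα : Monotone α) (h01 : ∀ t, α t ∈ Icc (0 : ℝ) 1) (a b : ℝ) :
    Var h (fun t => G.ex q (α t • u)) a b ≤ ENNReal.ofReal √(g q u u) := by
  have h1 : LipschitzOnWith (Real.toNNReal √(g q u u)) (fun s => toM h (G.φ s (q, u)).1) univ := by
    refine LipschitzOnWith.of_dist_le' fun s _ t _ => ?_
    rw [dist_toM h (G.φ_ne s hq) (G.φ_ne t hq), Real.dist_eq, mul_comm, abs_sub_comm]
    exact h.dd_φ_le G (x := (q, u)) hq s t
  have h2 := h1.comp_eVariationOn_le (g := α) (s := Icc a b) (mapsTo_univ _ _)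
  have h3 := (hα.monotoneOn univ).eVariationOn_eq (mem_univ a) (mem_univ b)
  rw [univ_inter] at h3
  have h4 : ENNReal.ofReal (α b - α a) ≤ 1 :=
    ENNReal.ofReal_le_one.2 (by linarith [(h01 a).1, (h01 b).2])
  rw [h3] at h2
  simp only [Var, G.ex_real_smul hq]
  exact h2.trans (mul_le_of_le_one_right' h4)

/-- The point at parameter `a` of the minimal geodesic from `q` to `y`. -/
def cbE (L : Lgm g G) (a : ℝ) (q y : E n) : E n := G.ex q (a • L.lg q y)

section
variable (B : Bl g G) (L : Lgm g G)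
include B

theorem cb_lg {q y y' : E n} (h : (q, y) ∈ DD g) (hy : CbL y' y) : L.lg q y' = L.lg q y := by
  obtain ⟨l, hl, rfl⟩ := hy
  exact (L.smul_right B h hl).2.1

theorem cb_lg0 {q y : E n} (hq : q ≠ 0) (hy : CbL y q) : L.lg q y = 0 := by
  obtain ⟨l, hl, rfl⟩ := hy
  exact (L.self B hq hl).2.1

theorem cbE_self (a : ℝ) {q y : E n} (hq : q ≠ 0) (hy : CbL y q) : cbE L a q y = q := by
  rw [cbE, cb_lg0 B L hq hy, smul_zero, G.ex_zero hq]

theorem cbE_ln (a : ℝ) {q y q' y' : E n} (h : (q, y) ∈ DD g) (hq : CbL q' q) (hy : CbL y' y) :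
    CbL (cbE L a q' y') (cbE L a q y) := by
  obtain ⟨l, hl, rfl⟩ := hq
  obtain ⟨h1, h2, -⟩ := L.smul_left B h hl
  refine ⟨l, hl, ?_⟩
  rw [cbE, cbE, cb_lg B L h1 hy, h2, smul_comm a l, G.ex_smul hl h.1]

omit B in
theorem cbE_one {q y : E n} (h : (q, y) ∈ DD g) : CbL (cbE L 1 q y) y := by
  rw [cbE, one_smul]
  exact CbL.symm ⟨_, L.sig_ne q y h, L.eq q y h⟩

omit B in
theorem cbE_smooth {X : Type} [NormedAddCommGroup X] [NormedSpace ℝ X] {a : X → ℝ}
    {q y : X → E n} {s : Set X} (ha : ContDiffOn ℝ ∞ a s) (hq : ContDiffOn ℝ ∞ q s)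
    (hy : ContDiffOn ℝ ∞ y s) (h : ∀ x ∈ s, (q x, y x) ∈ DD g) :
    ContDiffOn ℝ ∞ (fun x => cbE L (a x) (q x) (y x)) s :=
  G.contDiffOn_ex.comp (hq.prodMk (ha.smul (L.smooth_lg.comp (hq.prodMk hy) h)))
    fun x hx => (h x hx).1

theorem cb_loop {A b : ℝ → ℝ → ℝ} (hF : CbF A b) {c : ℝ → E n} (hc : ∀ t, (c 0, c t) ∈ DD g)
    (ρ : ℝ) : Var B.met (fun t => cbE L (A ρ t) (c 0) (c (b ρ t))) 0 π ≤ Var B.met c 0 π := by
  obtain ⟨m, hm, β, hβ, α, h1, h2, h3, h4, h5⟩ := hF.len ρ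
  have hq : c 0 ≠ 0 := (hc 0).1
  have h0 : L.lg (c 0) (c 0) = 0 := cb_lg0 B L hq (CbL.refl _)
  rw [← Var_add _ _ hm.1 hm.2, ← Var_add _ c hβ.1 hβ.2]
  refine add_le_add ?_ ?_
  · have e : Var B.met (fun t => cbE L (A ρ t) (c 0) (c (b ρ t))) 0 m =
        Var B.met (fun t => G.ex (c 0) (α t • L.lg (c 0) (c β))) 0 m := by
      refine eVariationOn.eq_of_eqOn fun t ht => congrArg (fun u => toM B.met (G.ex (c 0) u)) ?_
      rcases h3 t ht with ⟨e1, e2 | e2⟩ | ⟨e1, e2 | e2⟩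
      · rw [e1, e2, h0, smul_zero, smul_zero]
      · rw [e1, e2, h0, smul_zero, zero_smul]
      · rw [e1, e2, zero_smul, zero_smul]
      · rw [e1, e2]
    rw [e]
    refine (cb_geo B.met G hq _ h1 h2 0 m).trans ?_
    rw [L.norm_lg _ _ (hc β), ← dist_toM B.met hq (hc β).2.1, ← edist_dist]
    exact eVariationOn.edist_le (fun t => toM B.met (c t)) ⟨le_rfl, hβ.1⟩ ⟨hβ.1, le_rfl⟩
  · rw [Var_congr B.met (c := fun t => c (b ρ t)) (fun t _ => (hc _).2.1) fun t ht => by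
      rw [(h4 t ht).1]
      exact cbE_one L (hc _)]
    exact eVariationOn.comp_le_of_monotoneOn (fun t => toM B.met (c t)) (b ρ) h5
      fun t ht => (h4 t ht).2

variable {B} {p : VV n → E n} (hp : Good B p)
include hp

theorem cb_pi {x : VV n} (hx : x ∈ OO n) (t : ℝ) : CbL (p (G.psi (t + π) x)) (p (G.psi t x)) := by
  have h1 : nu x.1 (G.Z π x) ≠ 0 := by
    rw [← norm_ne_zero_iff, (B.psi_pi hx).2]
    exact one_ne_zero
  refine ⟨_, h1, ?_⟩
  rw [B.psi_add_pi t hx, ← hp.eqv _ 1 0 _ h1 one_pos (G.psi_mem B.met t hx)]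
  congr 1
  simp [act, Prod.ext_iff]

theorem cb_DD0 {x : VV n} (hx : x ∈ OO n) (t : ℝ) : (p (G.psi 0 x), p (G.psi t x)) ∈ DD g := by
  have h0 : ∀ t, p (G.psi t x) ≠ 0 := fun t => hp.ne _ (G.psi_mem B.met t hx)
  obtain ⟨s, hs, k, rfl⟩ := cb_mod t
  obtain ⟨l, hl, e⟩ := CbL.int (c := fun t => p (G.psi t x)) (cb_pi hp hx) s k
  obtain ⟨l', -, e'⟩ := cb_pi hp hx 0
  rw [zero_add] at e'
  refine ⟨h0 _, h0 _, ?_⟩
  simp only [e, dd_smul_right hl]
  exact dd_lt_of_Var B.met (c := fun t => p (G.psi t x)) (fun t _ => h0 t) ⟨l', e'⟩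
    (hp.short x hx) s hs

theorem cb_DD {x : VV n} (hx : x ∈ OO n) (s t : ℝ) : (p (G.psi s x), p (G.psi t x)) ∈ DD g := by
  have h := cb_DD0 hp (G.psi_mem B.met s hx) (t - s)
  rwa [← G.psi_add B.met _ _ hx, ← G.psi_add B.met _ _ hx, zero_add, sub_add_cancel] at h

end

/-- The deformed map, for a given phase. -/
def cbW (L : Lgm g G) (p : VV n → E n) (A b : ℝ → ℝ → ℝ) (ρ θ : ℝ) (x : VV n) : E n :=
  cbE L (A ρ θ) (p (G.psi (-θ) x)) (p (G.psi (b ρ θ - θ) x))

section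
variable {B : Bl g G} (L : Lgm g G) {p : VV n → E n} (hp : Good B p) {A b : ℝ → ℝ → ℝ}
  (hF : CbF A b) {x : VV n} (hx : x ∈ OO n)
include hp hx

theorem cbW_ne (ρ θ : ℝ) : cbW L p A b ρ θ x ≠ 0 :=
  G.ex_ne (hp.ne _ (G.psi_mem B.met _ hx)) _

theorem cbW_act (ρ θ : ℝ) {l : ℂ} {m : ℝ} (c : ℂ) (hl : l ≠ 0) (hm : 0 < m) :
    CbL (cbW L p A b ρ θ (act l m c x)) (cbW L p A b ρ θ x) := by
  have h : ∀ t, CbL (p (G.psi t (act l m c x))) (p (G.psi t x)) := fun t =>
    ⟨l, hl, by rw [G.psi_act B.met t c hl hm hx, hp.eqv _ _ _ _ hl hm (G.psi_mem B.met t hx)]⟩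
  exact cbE_ln B L _ (cb_DD hp hx _ _) (h _) (h _)

theorem cbW_still (hs : Still G p x) (ρ θ t : ℝ) : CbL (cbW L p A b ρ θ (G.psi t x)) (p x) := by
  have h : ∀ s, CbL (p (G.psi s (G.psi t x))) (p x) := fun s => by
    rw [← G.psi_add B.met _ _ hx]
    obtain ⟨c, hc⟩ := hs (s + t)
    exact ⟨c, left_ne_zero_of_smul (hc ▸ hp.ne _ (G.psi_mem B.met _ hx)), hc⟩
  rw [cbW, cbE_self B L _ ((h _).ne (hp.ne x hx)) ((h _).trans (h _).symm)]
  exact h _

theorem cbW_psi (ρ θ t : ℝ) : cbW L p A b ρ (t + θ) (G.psi t x) = cbE L (A ρ (t + θ))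
    (p (G.psi 0 (G.psi (-θ) x))) (p (G.psi (b ρ (t + θ)) (G.psi (-θ) x))) := by
  simp only [cbW, ← G.psi_add B.met _ _ hx]
  congr 3 <;> ring

include hF

theorem cbW_int (ρ θ : ℝ) (k : ℤ) : CbL (cbW L p A b ρ (θ + k * π) x) (cbW L p A b ρ θ x) := by
  refine CbL.int (c := fun t => cbW L p A b ρ t x) (fun t => ?_) θ k
  have h := cb_pi hp hx (-(t + π))
  rw [neg_add, neg_add_cancel_right, ← neg_add] at h
  rw [cbW, cbW, hF.pA, hF.pb, add_sub_add_right_eq_sub]
  exact cbE_ln B L _ (cb_DD hp hx _ _) h.symm (CbL.refl _)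

theorem cbW_zero (θ : ℝ) : CbL (cbW L p A b 0 θ x) (p x) := by
  have h := cbE_one L (cb_DD hp hx (-θ) 0)
  rw [G.psi_zero B.met hx] at h
  rwa [cbW, (hF.zero θ).1, (hF.zero θ).2, sub_self, G.psi_zero B.met hx]

theorem cb_period (ρ : ℝ) : Function.Periodic
    (fun t => cbE L (A ρ t) (p (G.psi 0 x)) (p (G.psi (b ρ t) x))) π := fun t => by
  simp only [cbE, hF.pA, hF.pb, cb_lg B L (cb_DD hp hx _ _) (cb_pi hp hx _)]

theorem cbW_short (ρ θ : ℝ) :
    Var B.met (fun t => cbW L p A b ρ (t + θ) (G.psi t x)) 0 π < ENNReal.ofReal π := by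
  have hy := G.psi_mem B.met (-θ) hx
  simp only [cbW_psi L hp hx]
  rw [cb_shift B.met (cb_period L hp hF hy ρ) θ]
  exact (cb_loop B L hF (c := fun t => p (G.psi t (G.psi (-θ) x))) (cb_DD0 hp hy) ρ).trans_lt
    (hp.short _ hy)

theorem cbW_one (θ t : ℝ) :
    cbW L p A b 1 (t + θ) (G.psi t x) = p (G.psi 0 (G.psi (-θ) x)) := by
  have hy := G.psi_mem B.met (-θ) hx
  have h0 := hp.ne _ (G.psi_mem B.met 0 hy)
  obtain ⟨s, hs, k, e⟩ := cb_mod (t + θ)
  rw [cbW_psi L hp hx, e]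
  refine ((cb_period L hp hF hy 1).int_mul k s).trans ?_
  rcases hF.one s hs with h | h | h
  · simp only [cbE, h, zero_smul, G.ex_zero h0]
  · simp only [h, cbE_self B L _ h0 (CbL.refl _)]
  · have h1 := cb_pi hp hy 0
    rw [zero_add] at h1
    simp only [h, cbE_self B L _ h0 h1]

omit hx in
theorem cbW_smooth : ContDiffOn ℝ ∞ (fun y : (ℝ × ℝ) × VV n => cbW L p A b y.1.1 y.1.2 y.2)
    {y | y.2 ∈ OO n} := by
  have h : ∀ a : (ℝ × ℝ) × VV n → ℝ, ContDiff ℝ ∞ a →
      ContDiffOn ℝ ∞ (fun y => p (G.psi (a y) y.2)) {y | y.2 ∈ OO n} := fun a ha =>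
    hp.smooth.comp ((G.contDiffOn_psi B.met).comp (ha.prodMk contDiff_snd).contDiffOn
      fun _ hy => hy) fun _ hy => G.psi_mem B.met _ hy
  exact cbE_smooth L (hF.sA.comp contDiff_fst).contDiffOn (h _ contDiff_fst.snd.neg)
    (h _ ((hF.sb.comp contDiff_fst).sub contDiff_fst.snd)) fun _ hy => cb_DD hp hy _ _

end

theorem cb_still (h : IsMetric g) {q : VV n → E n} {x : VV n} (hx : x ∈ OO n) {w : E n}
    (hw : ∀ t, CbL (q (G.psi t x)) w) : Still G q x := fun t => by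
  have h0 := hw 0
  rw [G.psi_zero h hx] at h0
  obtain ⟨l, -, e⟩ := (hw t).trans h0.symm
  exact ⟨l, e⟩

/-- A smooth local branch of the phase. -/
theorem cb_branch {f : VV n → ℂ} {x : VV n} (hf : ContDiffAt ℝ ∞ f x) (h0 : f x ≠ 0) :
    ∃ θ : VV n → ℝ, ContDiffAt ℝ ∞ θ x ∧
      ∀ y, f y ≠ 0 → ∃ k : ℤ, (f y).arg / 2 = θ y + k * π := by
  refine ⟨fun y => (f x).arg / 2 + (Complex.log (f y / f x)).im / 2, ?_, fun y hy => ?_⟩
  · have h1 : ContDiffAt ℝ ∞ Complex.log (f x / f x) := by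
      rw [div_self h0]
      exact (analyticAt_clog Complex.one_mem_slitPlane).contDiffAt.restrict_scalars ℝ
    have h2 := h1.comp x (f := fun y => f y / f x) (hf.div_const _)
    exact contDiffAt_const.add ((Complex.imCLM.contDiff.contDiffAt.comp x h2).div_const _)
  · simp only [Complex.log_im]
    refine cb_arg h0 (norm_pos_iff.2 (div_ne_zero hy h0)) ?_
    rw [← mul_assoc, show (2 * ((f y / f x).arg / 2 : ℝ) : ℂ) = (f y / f x).arg by push_cast; ring,
      Complex.norm_mul_exp_arg_mul_I, div_mul_cancel₀ _ h0]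

/-- One sweep: loops where the phase function is large become points, points stay points. -/
theorem Bl.sweep (B : Bl g G) {p : VV n → E n} (hp : Good B p) {f : VV n → ℂ}
    (hf : ContDiffOn ℝ ∞ f (OO n)) (hi : Inv f)
    (hφ : ∀ t, ∀ x ∈ OO n, f (G.psi t x) = Complex.exp (2 * t * Complex.I) * f x) {η : ℝ}
    (hη : 0 < η) : ∃ q, Htpy B p q ∧ (∀ x ∈ OO n, Still G p x → Still G q x) ∧
      ∀ x ∈ OO n, η ≤ ‖f x‖ → Still G q x := by
  obtain ⟨L⟩ := B.exists_lgm
  obtain ⟨A, b, hF⟩ := cb_funs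
  obtain ⟨κ, hκ⟩ : ∃ κ : VV n → ℝ, κ = fun x => smoothTransition (2 * ‖f x‖ ^ 2 / η ^ 2 - 1) :=
    ⟨_, rfl⟩
  have k0 : ∀ x, ‖f x‖ ^ 2 < η ^ 2 / 2 → κ x = 0 := fun x h => by
    rw [hκ]
    refine smoothTransition.zero_of_nonpos (sub_nonpos.2 ((div_le_one (pow_pos hη 2)).2 ?_))
    linarith only [h]
  have k1 : ∀ x, η ≤ ‖f x‖ → κ x = 1 := fun x h => by
    rw [hκ]
    refine smoothTransition.one_of_one_le (le_sub_iff_add_le.2 ((le_div_iff₀ (pow_pos hη 2)).2 ?_))
    linarith [pow_le_pow_left₀ hη.le h 2]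
  have k2 : ∀ x, f x = 0 → ‖f x‖ ^ 2 < η ^ 2 / 2 := fun x h => by
    rw [h, norm_zero, zero_pow two_ne_zero]
    positivity
  have kφ : ∀ t, ∀ x ∈ OO n, κ (G.psi t x) = κ x := fun t x hx => by
    simp only [hκ]
    rw [hφ t x hx, norm_mul, show (2 * t : ℂ) = ((2 * t : ℝ) : ℂ) by push_cast; ring,
      Complex.norm_exp_ofReal_mul_I, one_mul]
  have ks : ∀ x ∈ OO n, ContDiffAt ℝ ∞ κ x := fun x hx => by
    rw [hκ]
    exact smoothTransition.contDiffAt.comp x ((((contDiffAt_const.mul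
      ((hf.contDiffAt (isOpen_OO.mem_nhds hx)).norm_sq ℂ)).div_const _)).sub contDiffAt_const)
  have hO : ∀ y₀ : ℝ × VV n, y₀.2 ∈ OO n → ∀ᶠ y in 𝓝 y₀, y.2 ∈ OO n := fun y₀ hy =>
    continuous_snd.continuousAt.eventually (isOpen_OO.mem_nhds hy)
  obtain ⟨H, H1, H2, H3, H4, H5⟩ := relift hp.smooth hp.eqv
    (F := fun y => cbW L p A b (y.1 * κ y.2) ((f y.2).arg / 2) y.2)
    (fun r x hx => cbW_ne L hp hx _ _) (fun y₀ hy => by
      have hfa := hf.contDiffAt (isOpen_OO.mem_nhds hy)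
      have hfc : ContinuousAt (fun y : ℝ × VV n => f y.2) y₀ :=
        hfa.continuousAt.comp continuous_snd.continuousAt
      by_cases h0 : f y₀.2 = 0
      · refine ⟨fun y => p y.2,
          (hp.smooth.contDiffAt (isOpen_OO.mem_nhds hy)).comp y₀ contDiffAt_snd, ?_⟩
        filter_upwards [hO y₀ hy, (hfc.norm.pow 2).eventually (gt_mem_nhds (k2 _ h0))]
          with y h1 h2
        rw [k0 _ h2, mul_zero]
        exact (cbW_zero L hp hF h1 _).imp fun _ h => h.2
      · obtain ⟨θ, hθ, hk⟩ := cb_branch hfa h0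
        refine ⟨fun y => cbW L p A b (y.1 * κ y.2) (θ y.2) y.2, ?_, ?_⟩
        · exact ((cbW_smooth L hp hF).contDiffAt
            ((isOpen_OO.preimage continuous_snd).mem_nhds
              (x := ((y₀.1 * κ y₀.2, θ y₀.2), y₀.2)) hy)).comp y₀
            (f := fun y : ℝ × VV n => ((y.1 * κ y.2, θ y.2), y.2))
            (((contDiffAt_fst.mul ((ks _ hy).comp y₀ contDiffAt_snd)).prodMk
              (hθ.comp y₀ contDiffAt_snd)).prodMk contDiffAt_snd)
        · filter_upwards [hO y₀ hy, hfc.eventually_ne h0] with y h1 h2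
          obtain ⟨k, hk⟩ := hk _ h2
          rw [hk]
          exact (cbW_int L hp hF h1 _ _ k).imp fun _ h => h.2)
    (fun r l m c x hl hm hx => by
      simp only [hκ, hi l m c x hl hm hx]
      exact (cbW_act L hp hx _ _ c hl hm).imp fun _ h => h.2)
    (fun x hx => by
      simp only [zero_mul]
      exact (cbW_zero L hp hF hx _).symm)
  have H6 : ∀ s t, ∀ x ∈ OO n, CbL (H (s, G.psi t x))
      (cbW L p A b (smoothTransition s * κ x) ((f (G.psi t x)).arg / 2) (G.psi t x)) :=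
    fun s t x hx => by
      rw [← kφ t x hx]
      exact H3 s _ (G.psi_mem B.met t hx)
  have H7 : ∀ s t, ∀ x ∈ OO n, f x ≠ 0 → CbL (H (s, G.psi t x))
      (cbW L p A b (smoothTransition s * κ x) (t + (f x).arg / 2) (G.psi t x)) :=
    fun s t x hx h0 => by
      obtain ⟨k, hk⟩ := cb_arg (w := f (G.psi t x)) (t := t) h0 one_pos (by simp [hφ t x hx])
      refine (H6 s t x hx).trans ?_
      rw [hk, add_comm t]
      exact cbW_int L hp hF (G.psi_mem B.met t hx) _ _ k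
  refine ⟨fun x => H (1, x), ⟨H, H1, fun s => ⟨?_, fun x hx => ?_, H2 s, fun x hx => ?_⟩, H4, H5⟩,
    fun x hx hs => ?_, fun x hx hs => ?_⟩
  · exact H1.comp (contDiff_const.prodMk contDiff_id).contDiffOn fun _ hx => hx
  · exact CbL.ne (H3 s x hx) (cbW_ne L hp hx _ _)
  · by_cases h0 : f x = 0
    · rw [Var_congr B.met (c := fun t => p (G.psi t x))
        (fun t _ => hp.ne _ (G.psi_mem B.met t hx)) fun t _ => by
          refine (H6 s t x hx).trans ?_
          rw [k0 _ (k2 _ h0), mul_zero]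
          exact cbW_zero L hp hF (G.psi_mem B.met t hx) _]
      exact hp.short x hx
    · rw [Var_congr B.met (fun t _ => cbW_ne L hp (G.psi_mem B.met t hx) _ _)
        fun t _ => H7 s t x hx h0]
      exact cbW_short L hp hF hx _ _
  · exact cb_still B.met hx fun t => (H6 1 t x hx).trans (cbW_still L hp hx hs _ _ t)
  · refine cb_still B.met hx (w := p (G.psi 0 (G.psi (-((f x).arg / 2)) x))) fun t => ?_
    have h := H7 1 t x hx (norm_pos_iff.1 (hη.trans_le hs))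
    rwa [k1 x hs, smoothTransition.one, mul_one, cbW_one L hp hF hx] at h

end Pool.Agent.Work.MP_8c604c_gt
end
end

-- merged part: Pool.Agent.Work.MP_8c604c_gt.Push
section
/-!
The equivariant push that shortens every closed geodesic.
Hints. xi x = integral over r in [0, pi/2] of JJ r (psi (-r) x) (0, spd x * K (psi (-r) x)); P x = the same integral with PP.
With delta_s = D psi_(-s) (0, spd * K (psi s x)) at x, xi (psi t x) = integral over s in [t - pi/2, t] of JJ t x delta_s. Differentiate in t,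
use var, JD_zero, PP_apply. At s = t - pi/2 the field is vertical and its horizontal derivative is -c K (psi t x) (it also vanishes at t + pi/2),
c > 0 because g (K, J) > 0 on (0, pi/2) (pair_ne, positive near 0). short: taylor_two with y = 0 on the compact set of
(Z t x, vel) for x in slice, t in [0,pi]; the first variation vanishes by periodicity, the second is -integral cc g(K, xi) < 0 uniformly.
-/

set_option maxSynthPendingDepth 3

open Set Filter Topology MeasureTheory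
open scoped ContDiff

noncomputable section
namespace Pool.Agent.Work.MP_8c604c_gt

open Real

variable {n : ℕ} {g : Met n}

theorem push_taylor {V : Type} [NormedAddCommGroup V] [NormedSpace ℝ V] [FiniteDimensional ℝ V]
    {U : Set V} (hU : IsOpen U) {L : V → ℝ} (hL : ContDiffOn ℝ ∞ L U) {K : Set V}
    (hK : IsCompact K) (hKU : K ⊆ U) :
    ∃ C δ : ℝ, 0 < C ∧ 0 < δ ∧ ∀ p ∈ K, ∀ (ξ : V) (ε M : ℝ), ‖ξ‖ ≤ M → |ε| * M ≤ δ →
      p + ε • ξ ∈ U ∧ L (p + ε • ξ) ≤ L p + ε * fderiv ℝ L p ξ +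
        ε ^ 2 / 2 * fderiv ℝ (fderiv ℝ L) p ξ ξ + ε ^ 2 * (C * (|ε| * M ^ 3)) := by
  obtain ⟨C, δ, hC, hδ, h⟩ := taylor_two hU hL hK hKU
  have key : ∀ p ∈ K, ∀ (ξ : V) (s M : ℝ), 0 ≤ s → ‖ξ‖ ≤ M → s * M ≤ δ →
      p + s • ξ ∈ U ∧ L (p + s • ξ) ≤ L p + s * fderiv ℝ L p ξ +
        s ^ 2 / 2 * fderiv ℝ (fderiv ℝ L) p ξ ξ + s ^ 2 * (C * (s * M ^ 3)) := by
    intro p hp ξ s M hs hM hsM
    have h1 := h p hp 0 ξ s hs (by
      rw [norm_zero, zero_add]
      exact (mul_le_mul_of_nonneg_left hM hs).trans hsM)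
    simp only [add_zero, map_zero, zero_apply, mul_zero, norm_zero,
      zero_add] at h1
    refine ⟨h1.1, ?_⟩
    have h2 : C * s * (s * ‖ξ‖) ^ 2 * ‖ξ‖ = s ^ 2 * (C * (s * ‖ξ‖ ^ 3)) := by ring
    have h3 : s ^ 2 * (C * (s * ‖ξ‖ ^ 3)) ≤ s ^ 2 * (C * (s * M ^ 3)) := by gcongr
    linarith only [h1, h3, h1.2]
  refine ⟨C, δ, hC, hδ, fun p hp ξ ε M hM hε => ?_⟩
  rcases le_total 0 ε with h0 | h0
  · rw [abs_of_nonneg h0] at hε ⊢
    exact key p hp ξ ε M h0 hM hε
  · rw [abs_of_nonpos h0] at hε ⊢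
    have h1 := key p hp (-ξ) (-ε) M (neg_nonneg.mpr h0) (by rwa [norm_neg]) hε
    simp only [smul_neg, neg_smul, neg_neg, map_neg, neg_apply, mul_neg,
      neg_mul, even_two, Even.neg_pow] at h1
    refine ⟨h1.1, ?_⟩
    have h2 := h1.2
    simp only [neg_mul, mul_neg]
    exact h2

theorem push_act (c : ℂ) (x : VV n) : act c 1 0 x = c • x := by
  simp [act, Prod.ext_iff]

theorem push_open : IsOpen {p : ℝ × VV n | p.2 ∈ OO n} := isOpen_OO.preimage continuous_snd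

/-- The time derivative of a function along the flow. -/
def pushD (G : Geo g) (f : VV n → E n) (p : ℝ × VV n) : E n :=
  fderiv ℝ (fun q : ℝ × VV n => f (G.psi q.1 q.2)) p (1, 0)

theorem push_smooth (G : Geo g) (h : IsMetric g) {F : Type} [NormedAddCommGroup F]
    [NormedSpace ℝ F] {f : VV n → F} (hf : ContDiffOn ℝ ∞ f (OO n)) :
    ContDiffOn ℝ ∞ (fun q : ℝ × VV n => f (G.psi q.1 q.2)) {p | p.2 ∈ OO n} :=
  hf.comp (G.contDiffOn_psi h) fun p hp => G.psi_mem h p.1 hp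

theorem push_cont (G : Geo g) (h : IsMetric g) {f : VV n → E n} (hf : ContDiffOn ℝ ∞ f (OO n)) :
    ContinuousOn (pushD G f) {p | p.2 ∈ OO n} :=
  ((push_smooth G h hf).continuousOn_fderiv_of_isOpen push_open (by simp)).clm_apply
    continuousOn_const

theorem push_deriv (G : Geo g) (h : IsMetric g) {f : VV n → E n} (hf : ContDiffOn ℝ ∞ f (OO n))
    (t : ℝ) {x : VV n} (hx : x ∈ OO n) :
    HasDerivAt (fun s => f (G.psi s x)) (pushD G f (t, x)) t := by
  have h1 : DifferentiableAt ℝ (fun q : ℝ × VV n => f (G.psi q.1 q.2)) (t, x) :=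
    ((push_smooth G h hf).contDiffAt (push_open.mem_nhds hx)).differentiableAt (by simp)
  have h2 : HasDerivAt (fun s : ℝ => (s, x)) ((1 : ℝ), (0 : VV n)) t :=
    (hasDerivAt_id t).prodMk (hasDerivAt_const t x)
  exact h1.hasFDerivAt.comp_hasDerivAt t h2

theorem push_line {F : Type} [TopologicalSpace F] {f : ℝ × VV n → F}
    (hf : ContinuousOn f {p | p.2 ∈ OO n}) {x : VV n} (hx : x ∈ OO n) :
    Continuous fun t : ℝ => f (t, x) :=
  hf.comp_continuous (by fun_prop) fun _ => hx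

namespace Bl
variable {G : Geo g} (B : Bl g G)
include B

theorem push_bounds {KD : KData g G} (PD : PushData g G KD) : ∃ M m : ℝ, 0 < M ∧ 0 < m ∧
    ∀ t ∈ Icc 0 π, ∀ x ∈ slice n, ‖(PD.xi (G.psi t x), pushD G PD.xi (t, x))‖ ≤ M ∧
      m ≤ PD.cc (G.psi t x) * g (G.Z t x) (KD.K (G.psi t x)) (PD.xi (G.psi t x)) := by
  have h := B.met
  have hS : IsCompact (Icc (0 : ℝ) π ×ˢ slice n) := isCompact_Icc.prod isCompact_slice
  have hsub : Icc (0 : ℝ) π ×ˢ slice n ⊆ {p : ℝ × VV n | p.2 ∈ OO n} :=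
    fun p hp => slice_subset hp.2
  have hxi := (push_smooth G h PD.smooth).continuousOn
  obtain ⟨M, hM⟩ := hS.exists_bound_of_continuousOn
    ((hxi.prodMk (push_cont G h PD.smooth)).mono hsub)
  have h1 : ContinuousOn (fun p : ℝ × VV n => PD.cc (G.psi p.1 p.2)) {p | p.2 ∈ OO n} :=
    PD.cc_cont.comp (G.contDiffOn_psi h).continuousOn fun p hp => G.psi_mem h p.1 hp
  have h2 : ContinuousOn (fun p : ℝ × VV n => g (G.Z p.1 p.2)) {p | p.2 ∈ OO n} :=
    h.smooth.continuousOn.comp (G.contDiffOn_Z h).continuousOn fun p hp => G.Z_ne h p.1 hp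
  have h3 := h1.mul ((h2.clm_apply (push_smooth G h KD.smooth).continuousOn).clm_apply hxi)
  obtain ⟨m, hm, hm'⟩ := hS.exists_forall_le' (a := (0 : ℝ)) (h3.mono hsub) fun p hp =>
    mul_pos (PD.cc_pos _ (G.psi_mem h p.1 (hsub hp))) (PD.pos _ (G.psi_mem h p.1 (hsub hp)))
  refine ⟨max M 1, m, lt_max_of_lt_right one_pos, hm, fun t ht x hx => ⟨?_, hm' (t, x) ⟨ht, hx⟩⟩⟩
  exact (hM (t, x) ⟨ht, hx⟩).trans (le_max_left _ _)

theorem push_per {KD : KData g G} (PD : PushData g G KD) {x : VV n} (hx : x ∈ OO n) :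
    g (G.Z π x) (vel g (G.psi π x)) (PD.xi (G.psi π x)) =
      g (G.Z 0 x) (vel g (G.psi 0 x)) (PD.xi (G.psi 0 x)) ∧
    PD.P (G.psi π x) (PD.xi (G.psi π x)) = PD.P (G.psi 0 x) (PD.xi (G.psi 0 x)) := by
  obtain ⟨h1, h2⟩ := B.psi_pi hx
  generalize nu x.1 (G.Z π x) = c at h1 h2
  have hc : c ≠ 0 := by
    rintro rfl
    simp at h2
  have h3 : PD.xi (c • x) = c • PD.xi x := by
    rw [← push_act]
    exact PD.eqv c 1 0 x hc one_pos hx
  have h4 : vel g (c • x) = c • vel g x := by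
    rw [← push_act]
    exact B.met.vel_eqv c 1 0 x hc one_pos hx
  simp only [Geo.Z]
  rw [h1, G.psi_zero B.met hx, h3, h4]
  exact ⟨B.met.inv c _ _ _ hc hx.1, PD.P_inv c x _ hc hx⟩

theorem push_var {KD : KData g G} (PD : PushData g G KD) {x : VV n} (hx : x ∈ OO n) {ε κ : ℝ}
    (hκ : κ < 0) (h0 : ∀ t ∈ Icc 0 π, G.Z t x + ε • PD.xi (G.psi t x) ≠ 0)
    (h1 : ∀ t ∈ Icc 0 π,
      Lg g (G.Z t x + ε • PD.xi (G.psi t x), vel g (G.psi t x) + ε • pushD G PD.xi (t, x)) ≤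
        ε * fderiv ℝ (Lg g) (G.Z t x, vel g (G.psi t x)) (PD.xi (G.psi t x), pushD G PD.xi (t, x)) +
        ε ^ 2 / 2 * (D2 g (G.Z t x, vel g (G.psi t x)) (PD.xi (G.psi t x), pushD G PD.xi (t, x))
          (PD.xi (G.psi t x), pushD G PD.xi (t, x)) +
          PD.cc (G.psi t x) * g (G.Z t x) (KD.K (G.psi t x)) (PD.xi (G.psi t x))) + (1 / 2 + κ)) :
    Var B.met (fun t => G.Z t x + ε • PD.xi (G.psi t x)) 0 π < ENNReal.ofReal π := by
  have h := B.met
  have hd := fun t => push_deriv G h PD.smooth t hx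
  have hc : ∀ t, HasDerivAt (fun t => G.Z t x + ε • PD.xi (G.psi t x))
      (vel g (G.psi t x) + ε • pushD G PD.xi (t, x)) t :=
    fun t => (G.hasDerivAt_Z h t hx).add ((hd t).const_smul ε)
  have hcc : Continuous fun t => G.Z t x + ε • PD.xi (G.psi t x) :=
    continuous_iff_continuousAt.mpr fun t => (hc t).continuousAt
  have hc' : Continuous fun t => vel g (G.psi t x) + ε • pushD G PD.xi (t, x) :=
    (push_line (push_smooth G h h.contDiffOn_vel).continuousOn hx).add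
      ((push_line (push_cont G h PD.smooth) hx).const_smul ε)
  have hA : ∀ t, HasDerivAt (fun s => ε * g (G.Z s x) (vel g (G.psi s x)) (PD.xi (G.psi s x)) +
      ε ^ 2 / 2 * PD.P (G.psi s x) (PD.xi (G.psi s x)) + (1 / 2 + κ) * s)
      (ε * fderiv ℝ (Lg g) (G.Z t x, vel g (G.psi t x)) (PD.xi (G.psi t x), pushD G PD.xi (t, x)) +
        ε ^ 2 / 2 * (D2 g (G.Z t x, vel g (G.psi t x)) (PD.xi (G.psi t x), pushD G PD.xi (t, x))
          (PD.xi (G.psi t x), pushD G PD.xi (t, x)) +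
          PD.cc (G.psi t x) * g (G.Z t x) (KD.K (G.psi t x)) (PD.xi (G.psi t x))) +
        (1 / 2 + κ)) t := by
    intro t
    have a1 := (G.first_var h t hx (hd t)).const_mul ε
    have a2 := PD.var x hx t _ _ (hd t)
    rw [(hd t).deriv] at a2
    have a3 := (hasDerivAt_id t).const_mul (1 / 2 + κ)
    rw [mul_one] at a3
    exact (a1.add (a2.const_mul (ε ^ 2 / 2))).add a3
  have hL : ContinuousOn (fun t => Lg g (G.Z t x + ε • PD.xi (G.psi t x),
      vel g (G.psi t x) + ε • pushD G PD.xi (t, x))) (Icc 0 π) :=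
    h.contDiffOn_Lg.continuousOn.comp (hcc.prodMk hc').continuousOn fun t ht => h0 t ht
  have h2 := intervalIntegral.integral_le_sub_of_hasDeriv_right_of_le pi_pos.le
    (fun t _ => (hA t).continuousAt.continuousWithinAt) (fun t _ => (hA t).hasDerivWithinAt)
    hL.integrableOn_Icc fun t ht => h1 t (Ioo_subset_Icc_self ht)
  obtain ⟨e1, e2⟩ := B.push_per PD hx
  rw [e1, e2] at h2
  have h3 := h.len_le_energy pi_pos.le hcc.continuousOn hc'.continuousOn h0
  refine (Var_le_curve h pi_pos.le (fun t _ => hc t) hc'.continuousOn h0).trans_lt ?_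
  rw [ENNReal.ofReal_lt_ofReal_iff pi_pos]
  have h4 : κ * π < 0 := mul_neg_of_neg_of_pos hκ pi_pos
  linarith only [h2, h3, h4]

theorem push_short {KD : KData g G} (PD : PushData g G KD) : ∃ ε₀ : ℝ, 0 < ε₀ ∧
    (∀ ε : ℝ, |ε| ≤ ε₀ → ∀ x ∈ OO n, x.1 + ε • PD.xi x ≠ 0) ∧
    ∀ ε : ℝ, ε ≠ 0 → |ε| ≤ ε₀ → Short B fun x => x.1 + ε • PD.xi x := by
  have h := B.met
  obtain ⟨M, m, hM, hm, hb⟩ := B.push_bounds PD
  have hS : IsCompact (Icc (0 : ℝ) π ×ˢ slice n) := isCompact_Icc.prod isCompact_slice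
  have hsub : Icc (0 : ℝ) π ×ˢ slice n ⊆ {p : ℝ × VV n | p.2 ∈ OO n} :=
    fun p hp => slice_subset hp.2
  have hK := hS.image_of_continuousOn (((G.contDiffOn_Z h).continuousOn.prodMk
    (push_smooth G h h.contDiffOn_vel).continuousOn).mono hsub)
  have hU : IsOpen {p : VV n | p.1 ≠ 0} := isOpen_ne_fun continuous_fst continuous_const
  obtain ⟨C, δ, hC, hδ, hT⟩ := push_taylor hU h.contDiffOn_Lg hK (by
    rintro _ ⟨p, hp, rfl⟩
    exact G.Z_ne h p.1 (hsub hp))
  have hT' := fun (ε : ℝ) (hε : |ε| ≤ Min.min (δ / M) (m / (4 * C * M ^ 3))) t (ht : t ∈ Icc 0 π) x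
      (hx : x ∈ slice n) => hT (G.Z t x, vel g (G.psi t x)) ⟨(t, x), ⟨ht, hx⟩, rfl⟩ _ ε M
        (hb t ht x hx).1 ((le_div_iff₀ hM).mp (hε.trans (min_le_left _ _)))
  have hred : ∀ (ε l μ : ℝ) (c : ℂ) (y : VV n), 0 < l → 0 < μ → y ∈ OO n →
      (act (l : ℂ) μ c y).1 + ε • PD.xi (act (l : ℂ) μ c y) = (l : ℂ) • (y.1 + ε • PD.xi y) := by
    intro ε l μ c y hl hμ hy
    rw [PD.eqv l μ c y (by exact_mod_cast hl.ne') hμ hy, smul_add, smul_comm (l : ℂ) ε]
    rfl
  refine ⟨Min.min (δ / M) (m / (4 * C * M ^ 3)), by positivity, fun ε hε x hx => ?_,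
    fun ε h0 hε x hx => ?_⟩
  · obtain ⟨y, hy, l, μ, c, hl, hμ, rfl⟩ := exists_slice hx
    rw [hred ε l μ c y hl hμ (slice_subset hy)]
    refine smul_ne_zero (by exact_mod_cast hl.ne') ?_
    have h1 : G.Z 0 y + ε • PD.xi (G.psi 0 y) ≠ 0 := (hT' ε hε 0 ⟨le_rfl, pi_pos.le⟩ y hy).1
    rwa [Geo.Z, G.psi_zero h (slice_subset hy)] at h1
  · obtain ⟨y, hy, l, μ, c, hl, hμ, rfl⟩ := exists_slice hx
    have hy' := slice_subset hy
    have hl' : (l : ℂ) ≠ 0 := by exact_mod_cast hl.ne'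
    have h1 : ∀ t ∈ Icc 0 π, G.Z t y + ε • PD.xi (G.psi t y) ≠ 0 :=
      fun t ht => (hT' ε hε t ht y hy).1
    have h2 : C * (|ε| * M ^ 3) ≤ m / 4 := by
      have := (le_div_iff₀ (by positivity)).mp (hε.trans (min_le_right _ _))
      linarith only [this]
    have h3 : 0 < ε ^ 2 := by positivity
    refine lt_of_eq_of_lt (Var_congr h h1 fun t _ => ⟨l, hl', ?_⟩)
      (B.push_var PD hy' (κ := -(ε ^ 2 * m / 4)) (by
        have : 0 < ε ^ 2 * m := by positivity
        linarith only [this]) h1 fun t ht => ?_)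
    · simp only
      rw [G.psi_act h t c hl' hμ hy', hred ε l μ c _ hl hμ (G.psi_mem h t hy')]
      rfl
    · have h4 := (hT' ε hε t ht y hy).2
      have h5 : Lg g (G.Z t y, vel g (G.psi t y)) = 1 / 2 := by
        have := h.vel_unit (G.psi_mem h t hy')
        simp only [Lg, Geo.Z]
        rw [this, mul_one]
      have h6 := mul_le_mul_of_nonneg_left h2 h3.le
      have h7 := mul_le_mul_of_nonneg_left (hb t ht y hy).2 h3.le
      rw [h5, Prod.smul_mk, Prod.mk_add_mk] at h4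
      simp only [D2]
      linarith only [h4, h6, h7]

end Bl

end Pool.Agent.Work.MP_8c604c_gt
end
end
end

-- merged part: Pool.Agent.Work.MP_8c604c_gt.G4
section
-- merged part: Pool.Agent.Work.MP_8c604c_gt.Wind
section
/-!
Winding of nowhere vanishing complex functions on [0, pi].
Hints. Continuous logarithms on intervals and rectangles: Complex.isCoveringMap_exp or the covering Circle.exp with
IsCoveringMap.liftPath / existsUnique_continuousMap_lifts on a convex (contractible) set; clamp the variables to reduce to the whole plane.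
-/

set_option maxSynthPendingDepth 3

open Set Filter Topology MeasureTheory
open scoped ContDiff

noncomputable section
namespace Pool.Agent.Work.MP_8c604c_gt

open Real

/-- The total change of the argument of `u` on `[0, π]` is `θ`. -/
def HasWind (u : ℝ → ℂ) (θ : ℝ) : Prop :=
  ∃ l : ℝ → ℂ, ContinuousOn l (Icc 0 π) ∧ (∀ t ∈ Icc 0 π, u t = Complex.exp (l t)) ∧
    (l π - l 0).im = θ

theorem wind_exists_log {X : Type*} [TopologicalSpace X] [SimplyConnectedSpace X]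
    [LocallyPathConnectedSpace X] [Nonempty X] {g : X → ℂ} (hg : Continuous g) (h0 : ∀ x, g x ≠ 0) :
    ∃ f : X → ℂ, Continuous f ∧ ∀ x, g x = Complex.exp (f x) := by
  obtain ⟨x₀⟩ := ‹Nonempty X›
  rcases Complex.isCoveringMapOn_exp.existsUnique_continuousMap_lifts
    ⟨g, hg⟩ (Complex.exp_log (h0 x₀)) (fun x => h0 x) with ⟨f, ⟨-, hf⟩, -⟩
  exact ⟨f, map_continuous f, fun x => by simpa using (congr($hf x)).symm⟩

theorem wind_const {X : Type*} [TopologicalSpace X] {S : Set X} (hS : IsPreconnected S)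
    {d : X → ℂ} (hd : ContinuousOn d S) {c : ℂ} (h : ∀ x ∈ S, Complex.exp (d x) = c) {x y : X}
    (hx : x ∈ S) (hy : y ∈ S) : d x = d y :=
  Complex.isCoveringMap_exp.constOn_of_comp hS hd
    (fun a ha a' ha' => Subtype.ext (by simp [h a ha, h a' ha'])) hx hy

theorem wind_clamp_mem {a b : ℝ} (hab : a ≤ b) (t : ℝ) : max a (min b t) ∈ Icc a b :=
  ⟨le_max_left _ _, max_le hab (min_le_left _ _)⟩

theorem wind_clamp_eq {a b t : ℝ} (ht : t ∈ Icc a b) : max a (min b t) = t := by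
  rw [min_eq_right ht.2, max_eq_right ht.1]

theorem exists_hasWind {u : ℝ → ℂ} (hu : ContinuousOn u (Icc 0 π)) (h0 : ∀ t ∈ Icc 0 π, u t ≠ 0) :
    ∃ θ, HasWind u θ := by
  have hc : Continuous fun t : ℝ => u (max 0 (min π t)) :=
    hu.comp_continuous (by fun_prop) (wind_clamp_mem pi_pos.le)
  obtain ⟨f, hf, hfe⟩ := wind_exists_log hc (fun t => h0 _ (wind_clamp_mem pi_pos.le t))
  refine ⟨_, f, hf.continuousOn, fun t ht => ?_, rfl⟩
  rw [← hfe t, wind_clamp_eq ht]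

theorem HasWind.unique {u : ℝ → ℂ} {θ θ' : ℝ} (h : HasWind u θ) (h' : HasWind u θ') : θ = θ' := by
  obtain ⟨l, hl, he, rfl⟩ := h
  obtain ⟨l', hl', he', rfl⟩ := h'
  have key : l π - l' π = l 0 - l' 0 :=
    wind_const (d := fun t => l t - l' t) (c := 1) isPreconnected_Icc (hl.sub hl')
      (fun t ht => by
        rw [Complex.exp_sub, ← he t ht, he' t ht, div_self (Complex.exp_ne_zero _)])
      (right_mem_Icc.2 pi_pos.le) (left_mem_Icc.2 pi_pos.le)
  congr 1
  linear_combination key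

theorem HasWind.congr {u v : ℝ → ℂ} {θ : ℝ} (h : HasWind u θ) (e : ∀ t ∈ Icc 0 π, v t = u t) :
    HasWind v θ := by
  obtain ⟨l, hl, he, h3⟩ := h
  exact ⟨l, hl, fun t ht => (e t ht).trans (he t ht), h3⟩

theorem HasWind.mul {u v : ℝ → ℂ} {θ θ' : ℝ} (h : HasWind u θ) (h' : HasWind v θ') :
    HasWind (fun t => u t * v t) (θ + θ') := by
  obtain ⟨l, hl, he, rfl⟩ := h
  obtain ⟨l', hl', he', rfl⟩ := h'
  refine ⟨fun t => l t + l' t, hl.add hl', fun t ht => ?_, ?_⟩
  · simp only [Complex.exp_add, he t ht, he' t ht]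
  · simp only [Complex.sub_im, Complex.add_im]; ring

theorem hasWind_exp {a : ℝ → ℝ} (ha : ContinuousOn a (Icc 0 π)) :
    HasWind (fun t => Complex.exp (a t * Complex.I)) (a π - a 0) := by
  refine ⟨fun t => a t * Complex.I, ?_, fun t _ => rfl, ?_⟩
  · exact (Complex.continuous_ofReal.comp_continuousOn ha).mul continuousOn_const
  · simp

theorem hasWind_integral {u u' : ℝ → ℂ} (hu : ∀ t ∈ Icc 0 π, HasDerivAt u (u' t) t)
    (hu' : ContinuousOn u' (Icc 0 π)) (h0 : ∀ t ∈ Icc 0 π, u t ≠ 0) :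
    HasWind u (∫ t in (0 : ℝ)..π, (u' t / u t).im) := by
  have huc : ContinuousOn u (Icc 0 π) := fun t ht => (hu t ht).continuousAt.continuousWithinAt
  have hq : ContinuousOn (fun t => u' t / u t) (Icc 0 π) := hu'.div huc h0
  set f : ℝ → ℂ := fun t => u' (max 0 (min π t)) / u (max 0 (min π t)) with hf
  have hfc : Continuous f := hq.comp_continuous (by fun_prop) (wind_clamp_mem pi_pos.le)
  have hfe : ∀ t ∈ Icc 0 π, f t = u' t / u t := fun t ht => by simp only [hf, wind_clamp_eq ht]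
  set F : ℝ → ℂ := fun t => ∫ s in (0 : ℝ)..t, f s with hF
  have hFd : ∀ t, HasDerivAt F (f t) t := fun t =>
    (hfc.integral_hasStrictDerivAt 0 t).hasDerivAt
  have hFc : Continuous F := continuous_iff_continuousAt.2 fun t => (hFd t).continuousAt
  have h00 : (0 : ℝ) ∈ Icc 0 π := left_mem_Icc.2 pi_pos.le
  have hconst : ∀ t ∈ Icc 0 π, u t * Complex.exp (-F t) = u 0 * Complex.exp (-F 0) := by
    refine constant_of_has_deriv_right_zero (f := fun t => u t * Complex.exp (-F t))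
      (huc.mul (by fun_prop)) fun t ht => ?_
    have ht' : t ∈ Icc 0 π := Ico_subset_Icc_self ht
    have h1 := (hu t ht').mul ((hFd t).neg.cexp)
    have h2 : u' t * Complex.exp (-F t) + u t * (Complex.exp (-F t) * -f t) = 0 := by
      rw [hfe t ht']
      field_simp [h0 t ht']
      ring
    exact (h2 ▸ h1 : HasDerivAt _ (0 : ℂ) t).hasDerivWithinAt
  have hF0 : F 0 = 0 := by simp [hF]
  refine ⟨fun t => Complex.log (u 0) + F t, by fun_prop, fun t ht => ?_, ?_⟩
  · have := hconst t ht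
    rw [hF0, neg_zero, Complex.exp_zero, mul_one] at this
    rw [Complex.exp_add, Complex.exp_log (h0 0 h00), ← this, mul_assoc, ← Complex.exp_add]
    simp
  · have h1 : (F π).im = ∫ t in (0 : ℝ)..π, (f t).im := by
      simp only [hF]
      exact (Complex.imCLM.intervalIntegral_comp_comm (hfc.intervalIntegrable 0 π)).symm
    simp only [hF0, add_zero, add_sub_cancel_left, h1]
    refine intervalIntegral.integral_congr fun t ht => ?_
    rw [uIcc_of_le pi_pos.le] at ht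
    simp only [hfe t ht]

/-- Homotopy invariance when the ratio of the end values is constant. -/
theorem HasWind.homotopy {u : ℝ × ℝ → ℂ} {a b : ℝ} (hab : a ≤ b)
    (hu : ContinuousOn u (Icc a b ×ˢ Icc 0 π)) (h0 : ∀ p ∈ Icc a b ×ˢ Icc 0 π, u p ≠ 0) {κ : ℂ}
    (hκ : ∀ r ∈ Icc a b, u (r, π) = κ * u (r, 0)) {θ : ℝ} (h : HasWind (fun t => u (a, t)) θ) :
    HasWind (fun t => u (b, t)) θ := by
  have hm : ∀ p : ℝ × ℝ, (max a (min b p.1), max 0 (min π p.2)) ∈ Icc a b ×ˢ Icc 0 π :=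
    fun p => ⟨wind_clamp_mem hab _, wind_clamp_mem pi_pos.le _⟩
  have hc : Continuous fun p : ℝ × ℝ => u (max a (min b p.1), max 0 (min π p.2)) :=
    hu.comp_continuous (by fun_prop) hm
  obtain ⟨f, hf, hfe⟩ := wind_exists_log hc (fun p => h0 _ (hm p))
  have hfe' : ∀ r ∈ Icc a b, ∀ t ∈ Icc 0 π, u (r, t) = Complex.exp (f (r, t)) := fun r hr t ht => by
    rw [← hfe (r, t), wind_clamp_eq hr, wind_clamp_eq ht]
  have h00 : (0 : ℝ) ∈ Icc 0 π := left_mem_Icc.2 pi_pos.le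
  have hpp : π ∈ Icc 0 π := right_mem_Icc.2 pi_pos.le
  have hw : ∀ r ∈ Icc a b, HasWind (fun t => u (r, t)) (f (r, π) - f (r, 0)).im := fun r hr =>
    ⟨fun t => f (r, t), by fun_prop, fun t ht => hfe' r hr t ht, rfl⟩
  have key : f (a, π) - f (a, 0) = f (b, π) - f (b, 0) :=
    wind_const (d := fun r => f (r, π) - f (r, 0)) (c := κ) isPreconnected_Icc (by fun_prop)
      (fun r hr => by
        rw [Complex.exp_sub, ← hfe' r hr π hpp, ← hfe' r hr 0 h00, hκ r hr,
          mul_div_assoc, div_self (h0 (r, 0) ⟨hr, h00⟩), mul_one])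
      (left_mem_Icc.2 hab) (right_mem_Icc.2 hab)
  rw [h.unique (hw a (left_mem_Icc.2 hab)), key]
  exact hw b (right_mem_Icc.2 hab)

end Pool.Agent.Work.MP_8c604c_gt
end
end

-- merged part: Pool.Agent.Work.MP_8c604c_gt.G4A
section
/-!
The two pushes differ by the winding number j (see PLAN.md, section G4).
-/

set_option maxSynthPendingDepth 3

open Set Filter Topology MeasureTheory
open scoped ContDiff

noncomputable section
namespace Pool.Agent.Work.MP_8c604c_gt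

open Real

variable {n : ℕ} {g : Met n} {G : Geo g}

/-- Winding of a loop relative to its canonical closed lift. -/
def LoopWind (L : Lgm g G) (c : ℝ → E n) (θ : ℝ) : Prop := HasWind (fun t => L.sig (c 0) (c t)) θ

/-- Homotopy invariance for loops that stay closer than `π/2` to their base point. -/
theorem LoopWind.homotopy (B : Bl g G) (L : Lgm g G) {c : ℝ × ℝ → E n} {a b : ℝ} (hab : a ≤ b)
    (hc : ContinuousOn c (Icc a b ×ˢ Icc 0 π))
    (hD : ∀ r ∈ Icc a b, ∀ t ∈ Icc 0 π, (c (r, 0), c (r, t)) ∈ DD g) {κ : ℂ} (hκ : κ ≠ 0)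
    (he : ∀ r ∈ Icc a b, c (r, π) = κ • c (r, 0)) {θ : ℝ}
    (h : LoopWind L (fun t => c (a, t)) θ) : LoopWind L (fun t => c (b, t)) θ := by
  have h0 : (0 : ℝ) ∈ Icc 0 π := left_mem_Icc.2 pi_pos.le
  refine HasWind.homotopy (u := fun p => L.sig (c (p.1, 0)) (c p)) (κ := κ) hab ?_
    (fun p hp => L.sig_ne _ _ (hD p.1 hp.1 p.2 hp.2)) (fun r hr => ?_) h
  · refine L.smooth_sig.continuousOn.comp (f := fun p : ℝ × ℝ => (c (p.1, 0), c p))
      (ContinuousOn.prodMk (hc.comp (f := fun p : ℝ × ℝ => (p.1, (0 : ℝ))) (by fun_prop)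
        fun p hp => ⟨hp.1, h0⟩) hc) fun p hp => hD p.1 hp.1 p.2 hp.2
  · have hq : c (r, 0) ≠ 0 := (hD r hr 0 h0).1
    have h1 := (L.self B hq one_ne_zero).2.2
    rw [one_smul] at h1
    show L.sig (c (r, 0)) (c (r, π)) = κ * L.sig (c (r, 0)) (c (r, 0))
    rw [he r hr, (L.self B hq hκ).2.2, h1, mul_one]

theorem G4A_hol_ne (B : Bl g G) {x : VV n} (hx : x ∈ OO n) : nu x.1 (G.Z π x) ≠ 0 := fun e => by
  have := (B.psi_pi hx).2
  rw [e, norm_zero] at this
  exact zero_ne_one this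

theorem Good.G4A_end {B : Bl g G} {p : VV n → E n} (h : Good B p) {x : VV n} (hx : x ∈ OO n) :
    p (G.psi π x) = nu x.1 (G.Z π x) • p (G.psi 0 x) := by
  have e : ∀ l : ℂ, act l 1 0 x = l • x := fun l => by simp [act, Prod.ext_iff]
  rw [G.psi_zero B.met hx, (B.psi_pi hx).1, ← e, h.eqv _ 1 0 x (G4A_hol_ne B hx) one_pos hx]

theorem Good.G4A_DD {B : Bl g G} {p : VV n → E n} (h : Good B p) {x : VV n} (hx : x ∈ OO n) :
    ∀ t ∈ Icc 0 π, (p (G.psi 0 x), p (G.psi t x)) ∈ DD g := fun t ht =>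
  ⟨h.ne _ (G.psi_mem B.met 0 hx), h.ne _ (G.psi_mem B.met t hx),
    dd_lt_of_Var B.met (c := fun t => p (G.psi t x)) (fun s _ => h.ne _ (G.psi_mem B.met s hx))
      ⟨_, h.G4A_end hx⟩ (h.short x hx) t ht⟩

theorem G4A_psi (B : Bl g G) {x : VV n} (hx : x ∈ OO n) : ContDiff ℝ ∞ fun t => G.psi t x :=
  (G.contDiffOn_psi B.met).comp_contDiff (f := fun s : ℝ => ((s, x) : ℝ × VV n)) (by fun_prop)
    fun _ => hx

theorem Good.G4A_smooth {B : Bl g G} {p : VV n → E n} (h : Good B p) {x : VV n}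
    (hx : x ∈ OO n) : ContDiff ℝ ∞ fun t => p (G.psi t x) :=
  h.smooth.comp_contDiff (G4A_psi B hx) fun t => G.psi_mem B.met t hx

theorem Htpy.loopWind {B : Bl g G} (L : Lgm g G) {p q : VV n → E n} (h : Htpy B p q) {x : VV n}
    (hx : x ∈ OO n) {θ : ℝ} (hp : LoopWind L (fun t => p (G.psi t x)) θ) :
    LoopWind L (fun t => q (G.psi t x)) θ := by
  obtain ⟨H, h1, h2, h3, h4⟩ := h
  have e0 : (fun t => p (G.psi t x)) = fun t => H (0, G.psi t x) :=
    funext fun t => (h3 0 le_rfl _ (G.psi_mem B.met t hx)).symm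
  have e1 : (fun t => q (G.psi t x)) = fun t => H (1, G.psi t x) :=
    funext fun t => (h4 1 le_rfl _ (G.psi_mem B.met t hx)).symm
  rw [e0] at hp
  rw [e1]
  refine LoopWind.homotopy B L (c := fun y => H (y.1, G.psi y.2 x)) zero_le_one ?_
    (fun r _ => (h2 r).G4A_DD hx) (G4A_hol_ne B hx) (fun r _ => (h2 r).G4A_end hx) hp
  exact (h1.continuousOn.comp_continuous
    (continuous_fst.prodMk ((G4A_psi B hx).continuous.comp continuous_snd))
    fun y => G.psi_mem B.met y.2 hx).continuousOn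

theorem Good.exists_loopWind {B : Bl g G} (L : Lgm g G) {p : VV n → E n} (h : Good B p) {x : VV n}
    (hx : x ∈ OO n) : ∃ θ, LoopWind L (fun t => p (G.psi t x)) θ :=
  exists_hasWind (L.smooth_sig.continuousOn.comp
    (f := fun t : ℝ => (p (G.psi 0 x), p (G.psi t x)))
    (continuous_const.prodMk (h.G4A_smooth hx).continuous).continuousOn (h.G4A_DD hx))
    fun t ht => L.sig_ne _ _ (h.G4A_DD hx t ht)

theorem Good.loopWind_still {B : Bl g G} (L : Lgm g G) {q : VV n → E n} (h : Good B q) {x : VV n}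
    (hx : x ∈ OO n) (hs : Still G q x) : LoopWind L (fun t => q (G.psi t x))
      (∫ t in (0 : ℝ)..π, (nu (q (G.psi t x)) (deriv (fun s => q (G.psi s x)) t)).im) := by
  have hz : q x ≠ 0 := h.ne x hx
  have hc := h.G4A_smooth hx
  choose k hk using hs
  have hk0 : ∀ t, k t ≠ 0 := fun t e =>
    h.ne _ (G.psi_mem B.met t hx) (by rw [hk t, e, zero_smul])
  have h1 : ∀ t, nuL (q x) (q (G.psi t x)) = k t := fun t => by
    rw [nuL_apply, hk t, nu_smul, nu_self hz, mul_one]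
  have h2 := hasWind_integral (u := fun t => nuL (q x) (q (G.psi t x)))
    (u' := fun t => nuL (q x) (deriv (fun s => q (G.psi s x)) t))
    (fun t _ => (nuL (q x)).hasFDerivAt.comp_hasDerivAt t
      (hc.differentiable (by simp) t).hasDerivAt)
    ((nuL (q x)).continuous.comp (hc.continuous_deriv (by simp))).continuousOn
    fun t _ => by rw [h1]; exact hk0 t
  have h3 : ∀ t, nu (q (G.psi t x)) (deriv (fun s => q (G.psi s x)) t) =
      nuL (q x) (deriv (fun s => q (G.psi s x)) t) / nuL (q x) (q (G.psi t x)) := fun t => by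
    generalize deriv (fun s => q (G.psi s x)) t = w
    rw [h1, hk t, nuL_apply, div_eq_inv_mul, ← nu_smul, ← nu_smul_smul (hk0 t) (q x),
      smul_inv_smul₀ (hk0 t)]
  simp only [h3]
  refine h2.congr fun t _ => ?_
  show L.sig (q (G.psi 0 x)) (q (G.psi t x)) = _
  rw [h1, G.psi_zero B.met hx, hk t, (L.self B hz (hk0 t)).2.2]

end Pool.Agent.Work.MP_8c604c_gt
end
end

-- merged part: Pool.Agent.Work.MP_8c604c_gt.G4BAux1
section
/-!
Analytic tools for the comparison of the two pushes: Taylor bounds and the length of one piece.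
-/

set_option maxSynthPendingDepth 3

open Set Filter Topology MeasureTheory
open scoped ContDiff

noncomputable section
namespace Pool.Agent.Work.MP_8c604c_gt

open Real

section Pure
variable {F : Type} [NormedAddCommGroup F] [NormedSpace ℝ F]

theorem g4b_lip {f : ℝ × ℝ → F} (hf : ContDiff ℝ 1 f) (a b : ℝ) : ∃ M : ℝ, 0 ≤ M ∧
    ∀ σ, |σ| ≤ 1 → ∀ t ∈ Icc a b, ‖f (σ, t) - f (0, t)‖ ≤ M * |σ| := by
  have hK : IsCompact (Icc (-1 : ℝ) 1 ×ˢ Icc a b) := isCompact_Icc.prod isCompact_Icc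
  obtain ⟨M, hM⟩ := hK.exists_bound_of_continuousOn (hf.continuous_fderiv one_ne_zero).continuousOn
  refine ⟨max M 0, le_max_right _ _, fun σ hσ t ht => ?_⟩
  have h := Convex.norm_image_sub_le_of_norm_fderiv_le (𝕜 := ℝ) (f := f) (C := max M 0)
    (x := (0, t)) (y := (σ, t)) (fun p _ => hf.differentiable one_ne_zero p)
    (fun p hp => (hM p hp).trans (le_max_left _ _)) ((convex_Icc _ _).prod (convex_Icc _ _))
    ⟨⟨by norm_num, by norm_num⟩, ht⟩ ⟨abs_le.1 hσ, ht⟩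
  simpa using h

theorem g4b_tay {f : ℝ × ℝ → F} (hf : ContDiff ℝ ∞ f) (a b : ℝ) : ∃ M : ℝ, 0 ≤ M ∧
    ∀ σ, |σ| ≤ 1 → ∀ t ∈ Icc a b,
      ‖f (σ, t) - f (0, t) - σ • fderiv ℝ f (0, t) (1, 0)‖ ≤ M * σ ^ 2 := by
  obtain ⟨M, M0, hM⟩ := g4b_lip (f := fderiv ℝ f) (hf.fderiv_right (by norm_cast)) a b
  refine ⟨M, M0, fun σ hσ t ht => ?_⟩
  have h := Convex.norm_image_sub_le_of_norm_fderiv_le' (𝕜 := ℝ) (f := f) (C := M * |σ|)
    (s := Icc (-|σ|) |σ| ×ˢ {t}) (φ := fderiv ℝ f (0, t))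
    (x := (0, t)) (y := (σ, t)) (fun p _ => hf.differentiable (by simp) p)
    (fun p hp => by
      obtain ⟨p1, p2⟩ := p
      obtain ⟨h1, h2⟩ := hp
      obtain rfl : p2 = t := h2
      have h3 : |p1| ≤ |σ| := abs_le.2 h1
      exact (hM p1 (h3.trans hσ) p2 ht).trans (mul_le_mul_of_nonneg_left h3 M0))
    ((convex_Icc _ _).prod (convex_singleton _))
    ⟨⟨by simp, abs_nonneg _⟩, rfl⟩ ⟨⟨neg_abs_le _, le_abs_self _⟩, rfl⟩
  have e1 : ((σ, t) : ℝ × ℝ) - (0, t) = σ • ((1, 0) : ℝ × ℝ) := by simp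
  rw [e1, map_smul] at h
  refine h.trans (le_of_eq ?_)
  rw [← sq_abs σ]
  simp [sq, mul_assoc]

theorem g4b_snd {f : ℝ × ℝ → F} (hf : ContDiff ℝ ∞ f) (σ t : ℝ) :
    HasDerivAt (fun t => f (σ, t)) (fderiv ℝ f (σ, t) (0, 1)) t :=
  (hf.differentiable (by simp) (σ, t)).hasFDerivAt.comp_hasDerivAt t
    ((hasDerivAt_const t σ).prodMk (hasDerivAt_id t))

theorem g4b_fst {f : ℝ × ℝ → F} (hf : ContDiff ℝ ∞ f) (σ t : ℝ) :
    HasDerivAt (fun σ => f (σ, t)) (fderiv ℝ f (σ, t) (1, 0)) σ :=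
  (hf.differentiable (by simp) (σ, t)).hasFDerivAt.comp_hasDerivAt σ
    ((hasDerivAt_id σ).prodMk (hasDerivAt_const σ t))

theorem g4b_taylor [FiniteDimensional ℝ F] {U : Set F} (hU : IsOpen U) {L : F → ℝ}
    (hL : ContDiffOn ℝ ∞ L U) {K : Set F} (hK : IsCompact K) (hKU : K ⊆ U) :
    ∃ C δ : ℝ, 0 < C ∧ 0 < δ ∧ ∀ p ∈ K, ∀ (y ξ : F) (s : ℝ), ‖y‖ + |s| * ‖ξ‖ ≤ δ →
      p + y + s • ξ ∈ U ∧
      L (p + y + s • ξ) - L (p + y) ≤ s * fderiv ℝ L p ξ + s * fderiv ℝ (fderiv ℝ L) p y ξ +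
        s ^ 2 / 2 * fderiv ℝ (fderiv ℝ L) p ξ ξ + C * |s| * (‖y‖ + |s| * ‖ξ‖) ^ 2 * ‖ξ‖ := by
  obtain ⟨C, δ, C0, δ0, H⟩ := taylor_two hU hL hK hKU
  refine ⟨C, δ, C0, δ0, fun p hp y ξ s hs => ?_⟩
  rcases le_total 0 s with h | h
  · rw [abs_of_nonneg h] at hs ⊢
    exact H p hp y ξ s h hs
  · rw [abs_of_nonpos h] at hs ⊢
    have := H p hp y (-ξ) (-s) (neg_nonneg.2 h) (by rwa [norm_neg])
    simpa only [smul_neg, neg_smul, neg_neg, map_neg, norm_neg, neg_apply,
      mul_neg, neg_mul, even_two, Even.neg_pow] using this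

theorem g4b_small {β A C M M' : ℝ} (hβ : 0 < β) (hA : 0 < A) (hC : 0 ≤ C) (hM : 0 ≤ M)
    (hM' : 0 ≤ M') : ∃ d : ℝ, 0 < d ∧ ∀ u v : ℝ, 0 ≤ u → 0 < v → u ≤ d → v ≤ d →
      π * (C * v * (M * u + v * M) ^ 2 * M) < v * u * β - v * M' * u ^ 2 + v ^ 2 * A := by
  obtain ⟨m, m0, m1, m2⟩ : ∃ m : ℝ, 0 < m ∧ m ≤ β ∧ m ≤ A :=
    ⟨min β A, lt_min hβ hA, min_le_left _ _, min_le_right _ _⟩
  obtain ⟨Q, hQ⟩ : ∃ Q : ℝ, Q = π * C * M ^ 3 := ⟨_, rfl⟩
  have Q0 : 0 ≤ Q := by rw [hQ]; positivity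
  refine ⟨m / (2 * Q + M' + 1), by positivity, fun u v u0 v0 hu hv => ?_⟩
  obtain ⟨d, hd⟩ : ∃ d : ℝ, d = m / (2 * Q + M' + 1) := ⟨_, rfl⟩
  rw [← hd] at hu hv
  have d0 : 0 < d := v0.trans_le hv
  have hd' : d * (2 * Q + M' + 1) = m := by rw [hd]; field_simp
  have e : π * (C * v * (M * u + v * M) ^ 2 * M) = v * (Q * (u + v) ^ 2) := by rw [hQ]; ring
  have h1 : Q * (u + v) ^ 2 ≤ (u + v) * (d * (2 * Q)) := by
    have := mul_le_mul_of_nonneg_left (add_le_add hu hv) (mul_nonneg Q0 (by linarith only [u0, v0] : 0 ≤ u + v))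
    linarith only [this]
  have h2 : M' * u ^ 2 ≤ (u + v) * (d * M') := by
    have a1 := mul_le_mul_of_nonneg_left hu (mul_nonneg hM' u0)
    have a2 : 0 ≤ v * (d * M') := by positivity
    linarith only [a1, a2]
  have h3 : (u + v) * m ≤ u * β + v * A := by
    have a1 := mul_le_mul_of_nonneg_left m1 u0
    have a2 := mul_le_mul_of_nonneg_left m2 v0.le
    linarith only [a1, a2]
  have h4 : 0 < (u + v) * d := by positivity
  have h5 : Q * (u + v) ^ 2 < u * β - M' * u ^ 2 + v * A := by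
    rw [← hd'] at h3
    linarith only [h1, h2, h3, h4]
  have h6 := mul_lt_mul_of_pos_left h5 v0
  rw [e]
  linarith only [h6]

end Pure

variable {n : ℕ} {g : Met n} {G : Geo g}

theorem g4b_piece (h : IsMetric g) {c c' : ℝ → E n} {H H' m : ℝ → ℝ} {a b : ℝ} (hab : a ≤ b)
    (hc : ∀ t, HasDerivAt c (c' t) t) (hc' : Continuous c') (h0 : ∀ t ∈ Icc a b, c t ≠ 0)
    (hH : ∀ t, HasDerivAt H (H' t) t) (hm : Continuous m)
    (hle : ∀ t ∈ Icc a b, Lg g (c t, c' t) + m t ≤ H' t) :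
    ∃ l : ℝ, 0 ≤ l ∧ Var h c a b ≤ ENNReal.ofReal l ∧
      l ≤ (b - a) / 2 + H b - H a - ∫ t in a..b, m t := by
  have cc : Continuous c := continuous_iff_continuousAt.2 fun t => (hc t).continuousAt
  have cH : Continuous H := continuous_iff_continuousAt.2 fun t => (hH t).continuousAt
  refine ⟨_, intervalIntegral.integral_nonneg hab fun t _ => sqrt_nonneg _,
    Var_le_curve h hab (fun t _ => hc t) hc'.continuousOn h0, ?_⟩
  have h1 := h.len_le_energy hab cc.continuousOn hc'.continuousOn h0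
  have cL : ContinuousOn (fun t => Lg g (c t, c' t)) (Icc a b) :=
    h.contDiffOn_Lg.continuousOn.comp (cc.prodMk hc').continuousOn h0
  have h2 := intervalIntegral.integral_le_sub_of_hasDeriv_right_of_le hab cH.continuousOn
    (fun t _ => (hH t).hasDerivWithinAt) (cL.add hm.continuousOn).integrableOn_Icc
    fun t ht => hle t (Ioo_subset_Icc_self ht)
  have h3 := intervalIntegral.integral_add (μ := volume) (cL.intervalIntegrable_of_Icc hab)
    (hm.intervalIntegrable a b)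
  simp only [Pi.add_apply] at h2
  linarith only [h1, h2, h3]

theorem g4b_Lg (h : IsMetric g) {z v : E n} (hz : z ≠ 0) (hv : g z v v = 1) {l : ℂ} (hl : l ≠ 0)
    (l' : ℂ) : Lg g (l • z, l • v + l' • z) = 1 / 2 := by
  have hlz : l • z ≠ 0 := smul_ne_zero hl hz
  have e : l' • z = (l' / l) • l • z := by rw [smul_smul, div_mul_cancel₀ _ hl]
  simp only [Lg, e, map_add, add_apply, h.vert _ _ _ hlz, h.vert' _ _ hlz,
    h.inv l z v v hl hz, hv]
  norm_num

end Pool.Agent.Work.MP_8c604c_gt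
end
end

-- merged part: Pool.Agent.Work.MP_8c604c_gt.G4BAux2
section
/-!
The family of geodesic arcs between two conjugate points, and the length of a perturbed piece.
-/

set_option maxSynthPendingDepth 3

open Set Filter Topology MeasureTheory
open scoped ContDiff

noncomputable section
namespace Pool.Agent.Work.MP_8c604c_gt

open Real

variable {n : ℕ} {g : Met n} {G : Geo g}

theorem g4b_psi (h : IsMetric g) {x : VV n} (hx : x ∈ OO n) : ContDiff ℝ ∞ fun t => G.psi t x :=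
  (G.contDiffOn_psi h).comp_contDiff (contDiff_id.prodMk contDiff_const) fun _ => hx

theorem g4b_comp (h : IsMetric g) {x : VV n} (hx : x ∈ OO n) {F : Type} [NormedAddCommGroup F]
    [NormedSpace ℝ F] {f : VV n → F} (hf : ContDiffOn ℝ ∞ f (OO n)) :
    ContDiff ℝ ∞ fun t => f (G.psi t x) :=
  hf.comp_contDiff (g4b_psi h hx) fun t => G.psi_mem h t hx

theorem g4b_cZ (h : IsMetric g) {x : VV n} (hx : x ∈ OO n) : Continuous fun t => G.Z t x :=
  continuous_iff_continuousAt.2 fun t => (G.hasDerivAt_Z h t hx).continuousAt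

theorem g4b_act_smul (l : ℂ) (x : VV n) : act l 1 0 x = l • x := by
  simp [act, Prod.ext_iff]

theorem g4b_act_vel (x : VV n) :
    act 1 (spd g x)⁻¹ (-(((spd g x)⁻¹ : ℝ) * nu x.1 x.2)) x = (x.1, vel g x) := by
  simp only [act, one_smul, vel, hor_def, smul_add, smul_neg, neg_smul, mul_smul, Complex.coe_smul,
    sub_eq_add_neg]

/-- The phase of the middle arc. -/
def g4l (a : ℝ → ℝ) (p : ℝ × ℝ) : ℂ :=
  Complex.exp (((-(a p.1 * (p.2 - π / 4) / (π / 2)) : ℝ) : ℂ) * Complex.I)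

/-- The middle arc. -/
def g4W (G : Geo g) (y : VV n) (K : E n) (a : ℝ → ℝ) (p : ℝ × ℝ) : E n :=
  g4l a p • G.Z (p.2 - π / 4) (Rot g y K p.1)

theorem g4l_ne (a : ℝ → ℝ) (p : ℝ × ℝ) : g4l a p ≠ 0 := Complex.exp_ne_zero _

theorem g4l_smooth {a : ℝ → ℝ} (ha : ContDiff ℝ ∞ a) : ContDiff ℝ ∞ (g4l a) := by
  have h1 : ContDiff ℝ ∞ fun p : ℝ × ℝ => -(a p.1 * (p.2 - π / 4) / (π / 2)) :=
    (((ha.comp contDiff_fst).mul (contDiff_snd.sub contDiff_const)).div_const _).neg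
  exact ((Complex.ofRealCLM.contDiff.comp h1).mul contDiff_const).cexp

theorem g4b_rot_smooth (y : VV n) (K : E n) : ContDiff ℝ ∞ (Rot g y K) :=
  contDiff_const.prodMk ((contDiff_cos.smul contDiff_const).add (contDiff_sin.smul contDiff_const))

theorem g4b_rot_zero (y : VV n) (K : E n) : Rot g y K 0 = (y.1, vel g y) := by simp [Rot]

section W
variable (h : IsMetric g) {y : VV n} (hy : y ∈ OO n) {K : E n} (hK : G.IsK y K) {a : ℝ → ℝ}
include h hy hK

theorem g4W_smooth (ha : ContDiff ℝ ∞ a) : ContDiff ℝ ∞ (g4W G y K a) :=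
  (g4l_smooth ha).smul ((G.contDiffOn_Z h).comp_contDiff
    ((contDiff_snd.sub contDiff_const).prodMk ((g4b_rot_smooth y K).comp contDiff_fst))
    fun p => (hK.rot h hy p.1).1)

theorem g4W_left (σ : ℝ) : g4W G y K a (σ, π / 4) = y.1 := by
  simp only [g4W, g4l, sub_self, Geo.Z, G.psi_zero h (hK.rot h hy σ).1]
  simp [Rot]

omit h hy hK in
theorem g4W_right {σ : ℝ}
    (e : G.Z (π / 2) (Rot g y K σ) = Complex.exp (a σ * Complex.I) • G.Z (π / 2) y) :
    g4W G y K a (σ, 3 * π / 4) = G.Z (π / 2) y := by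
  have e1 : 3 * π / 4 - π / 4 = π / 2 := by ring
  simp only [g4W, g4l, e1, e, smul_smul, ← Complex.exp_add]
  rw [mul_div_assoc, div_self (by positivity : π / 2 ≠ 0)]
  simp

omit hK in
theorem g4W_zero (h0 : a 0 = 0) (t : ℝ) : g4W G y K a (0, t) = G.Z (t - π / 4) y := by
  simp only [g4W, g4l, h0, g4b_rot_zero, G.Z_vel h _ hy]
  simp

theorem g4W_Lg (ha : ContDiff ℝ ∞ a) (σ t : ℝ) :
    Lg g (g4W G y K a (σ, t), fderiv ℝ (g4W G y K a) (σ, t) (0, 1)) = 1 / 2 := by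
  have hR := (hK.rot h hy σ).1
  have h1 := ((G.hasDerivAt_Z h (t - π / 4) hR).scomp t ((hasDerivAt_id t).sub_const (π / 4)))
  have h2 := (g4b_snd (g4l_smooth ha) σ t).smul h1
  have h3 := (g4b_snd (g4W_smooth h hy hK ha) σ t).unique h2
  rw [h3, one_smul]
  exact g4b_Lg h (G.Z_ne h _ hR) (h.vel_unit (G.psi_mem h _ hR)) (g4l_ne _ _) _

theorem g4W_fst (ha : ContDiff ℝ ∞ a) (h0 : a 0 = 0) (t : ℝ) :
    ∃ c : ℂ, fderiv ℝ (g4W G y K a) (0, t) (1, 0) =
      G.JJ (t - π / 4) (y.1, vel g y) (0, K) + c • G.Z (t - π / 4) y := by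
  have hR := (hK.rot h hy 0).1
  have h1 : HasDerivAt (Rot g y K) (0, K) 0 := by
    have := (hasDerivAt_const (0 : ℝ) y.1).prodMk
      (((hasDerivAt_cos 0).smul_const (vel g y)).add ((hasDerivAt_sin 0).smul_const K))
    simp only [sin_zero, neg_zero, zero_smul, cos_zero, one_smul, zero_add] at this
    exact this
  have h2 : DifferentiableAt ℝ (G.Z (t - π / 4)) (Rot g y K 0) :=
    ((((G.contDiffOn_Z h).comp (contDiffOn_const.prodMk contDiffOn_id) fun _ hp => hp).contDiffAt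
      (isOpen_OO.mem_nhds hR))).differentiableAt (by simp)
  have h3 := (g4b_fst (g4l_smooth ha) 0 t).smul (h2.hasFDerivAt.comp_hasDerivAt 0 h1)
  have h4 := (g4b_fst (g4W_smooth h hy hK ha) 0 t).unique h3
  have h5 : g4l a (0, t) = 1 := by simp [g4l, h0]
  refine ⟨fderiv ℝ (g4l a) (0, t) (1, 0), ?_⟩
  rw [h4, h5, one_smul, Function.comp_apply, g4b_rot_zero, G.Z_vel h _ hy]
  rfl

omit h hy hK in
theorem g4W_per {j : ℤ} (hp : ∀ σ, a (σ + 2 * π) = a σ + 2 * π * j) (σ t : ℝ) :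
    g4W G y K a (σ + 2 * π, t) =
      Complex.exp (((-(2 * π * j * (t - π / 4) / (π / 2)) : ℝ) : ℂ) * Complex.I) •
        g4W G y K a (σ, t) := by
  have e : Rot g y K (σ + 2 * π) = Rot g y K σ := by simp [Rot]
  simp only [g4W, g4l, e, hp, smul_smul, ← Complex.exp_add]
  congr 2
  push_cast
  ring

/-- Off the original direction the middle arc stays closer than `π/2` to the base point. -/
theorem g4W_dd {σ : ℝ} (hσ : cos σ ≠ 1)
    (e : G.Z (π / 2) (Rot g y K σ) = Complex.exp (a σ * Complex.I) • G.Z (π / 2) y)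
    {κ : ℂ} (hκ : κ ≠ 0) (hp : G.Z (3 * π / 4) y = κ • G.Z (-(π / 4)) y) {t : ℝ}
    (ht : t ∈ Icc (π / 4) (3 * π / 4)) :
    dd g (G.Z (-(π / 4)) y) (g4W G y K a (σ, t)) < π / 2 := by
  obtain ⟨hR, -, hv⟩ := hK.rot h hy σ
  have hz := G.Z_ne h (-(π / 4)) hy
  have hπ := pi_pos
  rw [g4W, dd_smul_right (g4l_ne _ _)]
  dsimp only
  rcases lt_trichotomy t (π / 2) with h1 | rfl | h1
  · have h2 := h.dd_triangle hz (G.Z_ne h 0 hy) (G.Z_ne h (t - π / 4) hR)
    have h3 := h.dd_Z_le G hy (-(π / 4)) 0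
    have h4 := h.dd_Z_le G hR 0 (t - π / 4)
    have h5 : G.Z 0 (Rot g y K σ) = G.Z 0 y := by
      simp only [Geo.Z, G.psi_zero h hR, G.psi_zero h hy]
      rfl
    rw [h5, sub_zero, abs_of_nonneg (by linarith only [ht, ht.1])] at h4
    rw [abs_of_nonneg (by linarith only [hπ])] at h3
    linarith only [h1, h2, h3, h4]
  · have h2 := h.corner G hy hR rfl (r := π / 4) (r' := π / 2 - π / 4) (fun hc => hσ ?_)
      (by linarith) (by linarith only [hπ])
    · linarith only [h2]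
    · have h3 : g y.1 K (vel g y) = 0 := by
        rw [vel, map_smul, h.hor_right hy.1, hK.perp, smul_zero]
      have h4 := congrArg (fun u => g y.1 u (vel g y)) (hv.symm.trans hc)
      simpa [Rot, h.vel_unit hy, h3] using h4
  · have h2 := h.dd_triangle hz (G.Z_ne h (π / 2) hy) (G.Z_ne h (t - π / 4) hR)
    have h3 := h.dd_Z_le G hy (3 * π / 4) (π / 2)
    have h4 := h.dd_Z_le G hR (π / 2) (t - π / 4)
    rw [e, h.dd_smul_left (Complex.exp_ne_zero _), abs_of_nonpos (by linarith only [ht, ht.2])] at h4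
    rw [hp, h.dd_smul_left hκ, abs_of_nonpos (by linarith only [hπ])] at h3
    linarith only [h1, h2, h3, h4]

end W

variable {KD : KData g G}

theorem g4b_posJ (h : IsMetric g) (PD : PushData g G KD) {y : VV n} (hy : y ∈ OO n) {r : ℝ}
    (hr : r ∈ Ioo 0 (π / 2)) :
    0 < g (G.Z r y) (KD.K (G.psi r y)) (G.JJ r (y.1, vel g y) (0, KD.K y)) := by
  have hm := inv_pos.2 (h.spd_pos hy)
  have h1 := PD.posJ _ (act_mem (-(((spd g y)⁻¹ : ℝ) * nu y.1 y.2)) one_ne_zero hm hy) r hr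
  rw [G.Z_eqv h r _ _ _ _ one_ne_zero hm hy, G.psi_act h r _ one_ne_zero hm hy,
    KD.eqv _ _ _ _ one_ne_zero hm hy, KD.eqv _ _ _ _ one_ne_zero hm (G.psi_mem h r hy),
    g4b_act_vel, one_smul, one_smul, one_smul] at h1
  exact h1

/-- The push along the geodesic. -/
def g4x (PD : PushData g G KD) (x : VV n) (t : ℝ) : E n := PD.xi (G.psi t x)

/-- The weight form along the geodesic. -/
def g4k (PD : PushData g G KD) (x : VV n) (t : ℝ) : E n →L[ℝ] ℝ :=
  PD.cc (G.psi t x) • g (G.Z t x) (KD.K (G.psi t x))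

/-- The boundary term. -/
def g4H (PD : PushData g G KD) (x : VV n) (s : ℝ) (y : E n) (t : ℝ) : ℝ :=
  s * g (G.Z t x) (vel g (G.psi t x)) (g4x PD x t) +
    PD.P (G.psi t x) (s • y + (s ^ 2 / 2) • g4x PD x t)

theorem g4x_smooth (h : IsMetric g) (PD : PushData g G KD) {x : VV n} (hx : x ∈ OO n) :
    ContDiff ℝ ∞ (g4x PD x) := g4b_comp h hx PD.smooth

theorem g4k_cont (h : IsMetric g) (PD : PushData g G KD) {x : VV n} (hx : x ∈ OO n) :
    Continuous (g4k PD x) :=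
  (PD.cc_cont.comp_continuous (g4b_psi h hx).continuous fun t => G.psi_mem h t hx).smul
    ((h.smooth.continuousOn.comp_continuous (g4b_cZ h hx) fun t => G.Z_ne h t hx).clm_apply
      (g4b_comp h hx KD.smooth).continuous)

theorem g4k_pos (h : IsMetric g) (PD : PushData g G KD) {x : VV n} (hx : x ∈ OO n) (t : ℝ) :
    0 < g4k PD x t (g4x PD x t) :=
  mul_pos (PD.cc_pos _ (G.psi_mem h t hx)) (PD.pos _ (G.psi_mem h t hx))

theorem g4b_piece2 (h : IsMetric g) (PD : PushData g G KD) {x : VV n} (hx : x ∈ OO n) :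
    ∃ C δ M : ℝ, 0 < C ∧ 0 < δ ∧ 0 ≤ M ∧ ∀ (a b ρ s : ℝ) (y y' : ℝ → E n) (m : ℝ → ℝ),
      0 ≤ a → a ≤ b → b ≤ π → (∀ t, HasDerivAt y (y' t) t) → Continuous y' →
      (∀ t ∈ Icc a b, ‖(y t, y' t)‖ ≤ ρ) → ρ + |s| * M ≤ δ →
      (∀ t ∈ Icc a b, Lg g (G.Z t x + y t, vel g (G.psi t x) + y' t) = 1 / 2) → Continuous m →
      (∀ t ∈ Icc a b, m t ≤ g4k PD x t (s • y t + (s ^ 2 / 2) • g4x PD x t)) →
      (∀ t ∈ Icc a b, G.Z t x + y t + s • g4x PD x t ≠ 0) ∧ ∃ l : ℝ, 0 ≤ l ∧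
        Var h (fun t => G.Z t x + y t + s • g4x PD x t) a b ≤ ENNReal.ofReal l ∧
        l ≤ (b - a) * (1 + C * |s| * (ρ + |s| * M) ^ 2 * M) + g4H PD x s (y b) b -
          g4H PD x s (y a) a - ∫ t in a..b, m t := by
  have cv : Continuous fun t => vel g (G.psi t x) := (g4b_comp h hx h.contDiffOn_vel).continuous
  have cp : Continuous fun t => (G.Z t x, vel g (G.psi t x)) := (g4b_cZ h hx).prodMk cv
  have sx := g4x_smooth h PD hx
  have dx : ∀ t, HasDerivAt (g4x PD x) (deriv (g4x PD x) t) t := fun t =>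
    (sx.differentiable (by simp) t).hasDerivAt
  have cx : Continuous (deriv (g4x PD x)) := sx.continuous_deriv (by simp)
  obtain ⟨C, δ, C0, δ0, hT⟩ := g4b_taylor (U := {p : VV n | p.1 ≠ 0})
    (isOpen_ne_fun continuous_fst continuous_const) h.contDiffOn_Lg
    ((isCompact_Icc (a := 0) (b := π)).image cp) (by
      rintro _ ⟨t, -, rfl⟩
      exact G.Z_ne h t hx)
  obtain ⟨M, hM⟩ := (isCompact_Icc (a := 0) (b := π)).exists_bound_of_continuousOn
    (sx.continuous.prodMk cx).continuousOn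
  have M0 : 0 ≤ M := (norm_nonneg _).trans (hM 0 ⟨le_rfl, pi_pos.le⟩)
  refine ⟨C, δ, M, C0, δ0, M0, fun a b ρ s y y' m a0 hab hb hy cy hρ hδ hL cm hm => ?_⟩
  have hI : ∀ t ∈ Icc a b, t ∈ Icc 0 π := fun t ht => ⟨a0.trans ht.1, ht.2.trans hb⟩
  have hb1 : ∀ t ∈ Icc a b, ‖(y t, y' t)‖ + |s| * ‖(g4x PD x t, deriv (g4x PD x) t)‖ ≤
      ρ + |s| * M := fun t ht =>
    add_le_add (hρ t ht) (mul_le_mul_of_nonneg_left (hM t (hI t ht)) (abs_nonneg s))
  have hT' := fun t ht => hT _ (mem_image_of_mem _ (hI t ht)) (y t, y' t)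
    (g4x PD x t, deriv (g4x PD x) t) s ((hb1 t ht).trans hδ)
  refine ⟨fun t ht => (hT' t ht).1, ?_⟩
  obtain ⟨e, he⟩ : ∃ e : ℝ, e = C * |s| * (ρ + |s| * M) ^ 2 * M := ⟨_, rfl⟩
  rw [← he]
  obtain ⟨l, l0, l1, l2⟩ := g4b_piece h hab (c := fun t => G.Z t x + y t + s • g4x PD x t)
    (c' := fun t => vel g (G.psi t x) + y' t + s • deriv (g4x PD x) t)
    (H := fun t => g4H PD x s (y t) t) (m := fun t => m t - (1 / 2 + e))
    (fun t => ((G.hasDerivAt_Z h t hx).add (hy t)).add ((dx t).const_smul s))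
    ((cv.add cy).add (cx.const_smul s)) (fun t ht => (hT' t ht).1)
    (fun t => ((G.first_var h t hx (dx t)).const_mul s).add (PD.var x hx t _ _
      (((hy t).const_smul s).add ((dx t).const_smul (s ^ 2 / 2)))))
    (cm.sub continuous_const) (fun t ht => by
      have h1 := (hT' t ht).2
      have h2 := hm t ht
      have h3 : C * |s| * (‖(y t, y' t)‖ + |s| * ‖(g4x PD x t, deriv (g4x PD x) t)‖) ^ 2 *
          ‖(g4x PD x t, deriv (g4x PD x) t)‖ ≤ e := by
        rw [he]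
        have := hb1 t ht
        have := hM t (hI t ht)
        gcongr
      have h4 := h.D2_symm (p := (G.Z t x, vel g (G.psi t x))) (G.Z_ne h t hx) (y t, y' t)
        (g4x PD x t, deriv (g4x PD x) t)
      have h5 : ((s • y t + (s ^ 2 / 2) • g4x PD x t, s • y' t + (s ^ 2 / 2) • deriv (g4x PD x) t) :
          VV n) = s • (y t, y' t) + (s ^ 2 / 2) • (g4x PD x t, deriv (g4x PD x) t) := rfl
      have h6 := hL t ht
      simp only [Prod.mk_add_mk, Prod.smul_mk, h6] at h1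
      change _ ≤ s * _ + (D2 g _ (g4x PD x t, deriv (g4x PD x) t)
        (s • y t + (s ^ 2 / 2) • g4x PD x t, s • y' t + (s ^ 2 / 2) • deriv (g4x PD x) t) +
        g4k PD x t (s • y t + (s ^ 2 / 2) • g4x PD x t))
      rw [h5]
      unfold D2 at h4 ⊢
      rw [map_add, map_smul, map_smul, smul_eq_mul, smul_eq_mul, ← h4]
      linarith only [h2, h3, h1])
  refine ⟨l, l0, l1, ?_⟩
  rw [intervalIntegral.integral_sub (cm.intervalIntegrable a b) intervalIntegrable_const,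
    intervalIntegral.integral_const, smul_eq_mul] at l2
  linarith only [l2]

end Pool.Agent.Work.MP_8c604c_gt
end
end

-- merged part: Pool.Agent.Work.MP_8c604c_gt.G4B
section
/-!
The two pushes differ by the winding number j (see PLAN.md, section G4).
-/

set_option maxSynthPendingDepth 3

open Set Filter Topology MeasureTheory
open scoped ContDiff

noncomputable section
namespace Pool.Agent.Work.MP_8c604c_gt

open Real

variable {n : ℕ} {g : Met n} {G : Geo g}

/-- Projection to the middle interval. -/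
def g4cl (t : ℝ) : ℝ := max (π / 4) (min t (3 * π / 4))

theorem g4cl_cont : Continuous g4cl := continuous_const.max (continuous_id.min continuous_const)

theorem g4cl_mid {t : ℝ} (ht : t ∈ Icc (π / 4) (3 * π / 4)) : g4cl t = t := by
  rw [g4cl, min_eq_left ht.2, max_eq_right ht.1]

theorem g4cl_left {t : ℝ} (ht : t ≤ π / 4) : g4cl t = π / 4 :=
  max_eq_left ((min_le_left _ _).trans ht)

theorem g4cl_right {t : ℝ} (ht : 3 * π / 4 ≤ t) : g4cl t = 3 * π / 4 := by
  rw [g4cl, min_eq_right ht, max_eq_right (by linarith only [pi_pos])]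

section
variable {KD : KData g G}

/-- The middle arc through the point at time `π/4`. -/
def g4V (KD : KData g G) (x : VV n) (a : ℝ → ℝ) : ℝ × ℝ → E n :=
  g4W G (G.psi (π / 4) x) (KD.K (G.psi (π / 4) x)) a

/-- The two parameter family of loops. -/
def g4C (PD : PushData g G KD) (x : VV n) (a : ℝ → ℝ) (σ s t : ℝ) : E n :=
  G.Z t x + (g4V KD x a (σ, g4cl t) - g4V KD x a (0, g4cl t)) + s • g4x PD x t

/-- The properties of the winding function. -/
structure G4a (KD : KData g G) (x : VV n) (a : ℝ → ℝ) : Prop where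
  sm : ContDiff ℝ ∞ a
  zero : a 0 = 0
  per : ∀ σ, a (σ + 2 * π) = a σ + 2 * π * KD.j
  eq : ∀ σ, G.Z (π / 2) (Rot g (G.psi (π / 4) x) (KD.K (G.psi (π / 4) x)) σ) =
    Complex.exp (a σ * Complex.I) • G.Z (π / 2) (G.psi (π / 4) x)

variable (B : Bl g G) (PD : PushData g G KD) {x : VV n} (hx : x ∈ OO n) {a : ℝ → ℝ}
  (A : G4a KD x a)
include B hx

theorem g4b_shift (t : ℝ) : G.psi (t - π / 4) (G.psi (π / 4) x) = G.psi t x := by
  rw [← G.psi_add B.met _ _ hx, sub_add_cancel]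

theorem g4b_shiftZ (t : ℝ) : G.Z (t - π / 4) (G.psi (π / 4) x) = G.Z t x :=
  congrArg Prod.fst (g4b_shift B hx t)

theorem g4b_hol : ∃ κ : ℂ, κ ≠ 0 ∧ G.psi π x = κ • x :=
  ⟨_, fun h => by simpa [h] using (B.psi_pi hx).2, (B.psi_pi hx).1⟩

theorem g4H_per (s : ℝ) : g4H PD x s 0 π = g4H PD x s 0 0 := by
  obtain ⟨κ, k0, hκ⟩ := g4b_hol B hx
  have h1 := PD.eqv κ 1 0 x k0 one_pos hx
  have h2 := B.met.vel_eqv κ 1 0 x k0 one_pos hx
  rw [g4b_act_smul] at h1 h2
  simp only [g4H, g4x, Geo.Z, hκ, G.psi_zero B.met hx, h1, h2, smul_zero, zero_add, Prod.smul_fst,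
    B.met.inv κ _ _ _ k0 hx.1]
  rw [smul_comm _ κ, PD.P_inv κ x _ k0 hx]

include A

theorem g4V_smooth : ContDiff ℝ ∞ (g4V KD x a) :=
  g4W_smooth B.met (G.psi_mem B.met _ hx) (KD.isK _ (G.psi_mem B.met _ hx)) A.sm

theorem g4V_zero (t : ℝ) : g4V KD x a (0, t) = G.Z t x :=
  (g4W_zero B.met (G.psi_mem B.met _ hx) A.zero t).trans (g4b_shiftZ B hx t)

omit A in
theorem g4V_left (σ : ℝ) : g4V KD x a (σ, π / 4) - g4V KD x a (0, π / 4) = 0 := by
  have hy := G.psi_mem B.met (π / 4) hx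
  rw [g4V, g4W_left B.met hy (KD.isK _ hy), g4W_left B.met hy (KD.isK _ hy), sub_self]

omit B hx in
theorem g4V_right (σ : ℝ) : g4V KD x a (σ, 3 * π / 4) - g4V KD x a (0, 3 * π / 4) = 0 := by
  rw [g4V, g4W_right (A.eq σ), g4W_right (A.eq 0), sub_self]

theorem g4C_out (σ s : ℝ) {t : ℝ} (ht : t ≤ π / 4 ∨ 3 * π / 4 ≤ t) :
    g4C PD x a σ s t = G.Z t x + 0 + s • g4x PD x t := by
  rcases ht with ht | ht
  · rw [g4C, g4cl_left ht, g4V_left B hx]
  · rw [g4C, g4cl_right ht, g4V_right A]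

theorem g4C_short : ∃ d : ℝ, 0 < d ∧ ∀ σ s : ℝ, |σ| ≤ d → |s| ≤ d → s ≠ 0 → 0 ≤ s * σ →
    (∀ t ∈ Icc 0 π, g4C PD x a σ s t ≠ 0) ∧
      Var B.met (g4C PD x a σ s) 0 π < ENNReal.ofReal π := by
  have h := B.met
  have hπ := pi_pos
  have hy := G.psi_mem h (π / 4) hx
  have sW := g4V_smooth B hx A
  have sD : ContDiff ℝ ∞ (fderiv ℝ (g4V KD x a)) := sW.fderiv_right (by norm_cast)
  have sT : ContDiff ℝ ∞ fun p => fderiv ℝ (g4V KD x a) p (0, 1) := sD.clm_apply contDiff_const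
  have cJ : Continuous fun t : ℝ => fderiv ℝ (g4V KD x a) (0, t) (1, 0) :=
    (sD.continuous.comp (continuous_const.prodMk continuous_id)).clm_apply continuous_const
  have ck := g4k_cont h PD hx
  have ckJ := ck.clm_apply cJ
  obtain ⟨C, δ, M, C0, δ0, M0, hP⟩ := g4b_piece2 h PD hx
  obtain ⟨M1, M10, hM1⟩ := g4b_lip ((sW.prodMk sT).of_le (by simp)) (π / 4) (3 * π / 4)
  obtain ⟨M2, M20, hM2⟩ := g4b_tay sW (π / 4) (3 * π / 4)
  obtain ⟨Mk, hMk⟩ := (isCompact_Icc (a := π / 4) (b := 3 * π / 4)).exists_bound_of_continuousOn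
    ck.continuousOn
  have Mk0 : 0 ≤ Mk := (norm_nonneg _).trans (hMk (π / 4) ⟨le_rfl, by linarith only [hπ]⟩)
  obtain ⟨t0, -, ht0⟩ := (isCompact_Icc (a := π / 4) (b := 3 * π / 4)).exists_isMinOn
    ⟨π / 4, le_rfl, by linarith only [hπ]⟩ (ck.clm_apply (g4x_smooth h PD hx).continuous).continuousOn
  obtain ⟨A0, hA0⟩ : ∃ A0 : ℝ, A0 = g4k PD x t0 (g4x PD x t0) := ⟨_, rfl⟩
  have A00 : 0 < A0 := hA0 ▸ g4k_pos h PD hx t0
  have hA : ∀ t ∈ Icc (π / 4) (3 * π / 4), A0 ≤ g4k PD x t (g4x PD x t) := fun t ht =>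
    hA0 ▸ ht0 ht
  have hβ : 0 < ∫ t in (π / 4)..(3 * π / 4),
      g4k PD x t (fderiv ℝ (g4V KD x a) (0, t) (1, 0)) := by
    refine intervalIntegral.intervalIntegral_pos_of_pos_on (ckJ.intervalIntegrable _ _)
      (fun t ht => ?_) (by linarith only [hπ])
    obtain ⟨c, hc⟩ := g4W_fst h hy (KD.isK _ hy) A.sm A.zero t
    have h1 := g4b_posJ h PD hy (r := t - π / 4) ⟨by linarith only [ht, ht.1], by linarith only [ht, ht.2]⟩
    rw [g4b_shift B hx, g4b_shiftZ B hx] at h1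
    rw [g4V, hc, g4b_shiftZ B hx, g4k, smul_apply, map_add, h.vert' _ _ (G.Z_ne h t hx), add_zero]
    exact mul_pos (PD.cc_pos _ (G.psi_mem h t hx)) h1
  obtain ⟨d, d0, hd⟩ := g4b_small (A := π / 4 * A0) (M := M + M1) (M' := π / 2 * (Mk * M2)) hβ
    (by positivity) C0.le (by positivity) (by positivity)
  refine ⟨min (min d 1) (δ / (M1 + M + 1)), lt_min (lt_min d0 one_pos) (by positivity),
    fun σ s hσ hs s0 hsσ => ?_⟩
  obtain ⟨⟨hσ1, hσ2⟩, hσ3⟩ := (le_min_iff.1 hσ).imp_left le_min_iff.1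
  obtain ⟨⟨hs1, -⟩, hs3⟩ := (le_min_iff.1 hs).imp_left le_min_iff.1
  have hρ0 : 0 ≤ M1 * |σ| := by positivity
  have hδ : M1 * |σ| + |s| * M ≤ δ := by
    have a1 := mul_le_mul_of_nonneg_left hσ3 M10
    have a2 := mul_le_mul_of_nonneg_right hs3 M0
    have a3 : δ / (M1 + M + 1) * (M1 + M + 1) = δ := by field_simp
    have a4 : 0 < δ / (M1 + M + 1) := by positivity
    linarith only [a1, a2, a3, a4]
  have out := fun a b a0 hab hb => hP a b (M1 * |σ|) s (fun _ => 0) (fun _ => 0) (fun _ => 0)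
    a0 hab hb (fun t => hasDerivAt_const t 0) continuous_const
    (fun _ _ => by simpa using hρ0) hδ
    (fun t _ => by
      rw [add_zero, add_zero, Lg]
      exact (congrArg _ (h.vel_unit (G.psi_mem h t hx))).trans (mul_one _))
    continuous_const (fun t _ => by
      rw [smul_zero, zero_add, map_smul]
      exact mul_nonneg (by positivity) (g4k_pos h PD hx t).le)
  obtain ⟨n1, l1, p1, v1, b1⟩ := out 0 (π / 4) le_rfl (by linarith only [hπ]) (by linarith only [hπ])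
  obtain ⟨n3, l3, p3, v3, b3⟩ := out (3 * π / 4) π (by linarith only [hπ]) (by linarith only [hπ]) le_rfl
  obtain ⟨n2, l2, p2, v2, b2⟩ := hP (π / 4) (3 * π / 4) (M1 * |σ|) s
    (fun t => g4V KD x a (σ, t) - g4V KD x a (0, t))
    (fun t => fderiv ℝ (g4V KD x a) (σ, t) (0, 1) - fderiv ℝ (g4V KD x a) (0, t) (0, 1))
    (fun t => s * σ * g4k PD x t (fderiv ℝ (g4V KD x a) (0, t) (1, 0)) +
      (s ^ 2 / 2 * A0 - |s| * (Mk * M2) * σ ^ 2))
    (by linarith only [hπ]) (by linarith only [hπ]) (by linarith only [hπ]) (fun t => (g4b_snd sW σ t).sub (g4b_snd sW 0 t))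
    ((sT.continuous.comp (continuous_const.prodMk continuous_id)).sub
      (sT.continuous.comp (continuous_const.prodMk continuous_id)))
    (fun t ht => hM1 σ hσ2 t ht) hδ
    (fun t _ => by
      have h1 := g4b_snd sW 0 t
      rw [funext (g4V_zero B hx A)] at h1
      rw [← h1.unique (G.hasDerivAt_Z h t hx), ← g4V_zero B hx A, add_sub_cancel, add_sub_cancel]
      exact g4W_Lg h hy (KD.isK _ hy) A.sm σ t)
    ((continuous_const.mul ckJ).add continuous_const)
    (fun t ht => by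
      have h1 := (g4k PD x t).le_opNorm (g4V KD x a (σ, t) - g4V KD x a (0, t) -
        σ • fderiv ℝ (g4V KD x a) (0, t) (1, 0))
      have h2 := h1.trans (mul_le_mul (hMk t ht) (hM2 σ hσ2 t ht) (norm_nonneg _) Mk0)
      have h3 := mul_le_mul_of_nonneg_left h2 (abs_nonneg s)
      rw [Real.norm_eq_abs, ← abs_mul, map_sub (g4k PD x t) _ (σ • _), map_smul, smul_eq_mul] at h3
      have h4 := mul_le_mul_of_nonneg_left (hA t ht) (by positivity : 0 ≤ s ^ 2 / 2)
      rw [map_add, map_smul, map_smul, smul_eq_mul, smul_eq_mul]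
      linarith only [h4, h3, neg_le_of_abs_le h3])
  have e1 : EqOn (g4C PD x a σ s) (fun t => G.Z t x + 0 + s • g4x PD x t) (Icc 0 (π / 4)) :=
    fun t ht => g4C_out B PD hx A σ s (Or.inl ht.2)
  have e3 : EqOn (g4C PD x a σ s) (fun t => G.Z t x + 0 + s • g4x PD x t) (Icc (3 * π / 4) π) :=
    fun t ht => g4C_out B PD hx A σ s (Or.inr ht.1)
  have e2 : EqOn (g4C PD x a σ s) (fun t => G.Z t x + (g4V KD x a (σ, t) - g4V KD x a (0, t)) +
      s • g4x PD x t) (Icc (π / 4) (3 * π / 4)) := fun t ht => by rw [g4C, g4cl_mid ht]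
  constructor
  · intro t ht
    rcases le_total t (π / 4) with h1 | h1
    · exact e1 ⟨ht.1, h1⟩ ▸ n1 t ⟨ht.1, h1⟩
    · rcases le_total t (3 * π / 4) with h2 | h2
      · exact e2 ⟨h1, h2⟩ ▸ n2 t ⟨h1, h2⟩
      · exact e3 ⟨h2, ht.2⟩ ▸ n3 t ⟨h2, ht.2⟩
  · have w1 : Var h (g4C PD x a σ s) 0 (π / 4) ≤ ENNReal.ofReal l1 :=
      (eVariationOn.congr fun t ht => congrArg (toM h) (e1 ht)).trans_le v1
    have w2 : Var h (g4C PD x a σ s) (π / 4) (3 * π / 4) ≤ ENNReal.ofReal l2 :=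
      (eVariationOn.congr fun t ht => congrArg (toM h) (e2 ht)).trans_le v2
    have w3 : Var h (g4C PD x a σ s) (3 * π / 4) π ≤ ENNReal.ofReal l3 :=
      (eVariationOn.congr fun t ht => congrArg (toM h) (e3 ht)).trans_le v3
    rw [← Var_add h _ (b := π / 4) (by linarith only [hπ]) (by linarith only [hπ]),
      ← Var_add h _ (a := π / 4) (b := 3 * π / 4) (by linarith only [hπ]) (by linarith only [hπ])]
    refine (add_le_add w1 (add_le_add w2 w3)).trans_lt ?_
    rw [← ENNReal.ofReal_add p2 p3, ← ENNReal.ofReal_add p1 (add_nonneg p2 p3),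
      ENNReal.ofReal_lt_ofReal_iff hπ]
    rw [g4V_left B hx, g4V_right A, intervalIntegral.integral_add
      ((ckJ.intervalIntegrable _ _).const_mul _) intervalIntegrable_const,
      intervalIntegral.integral_const_mul, intervalIntegral.integral_const, smul_eq_mul] at b2
    rw [intervalIntegral.integral_zero] at b1 b3
    rw [g4H_per B PD hx] at b3
    have k1 := hd |σ| |s| (abs_nonneg _) (abs_pos.2 s0) hσ1 hs1
    rw [← abs_mul, abs_of_nonneg hsσ, sq_abs, sq_abs] at k1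
    have k2 : π * (C * |s| * (M1 * |σ| + |s| * M) ^ 2 * M) ≤
        π * (C * |s| * ((M + M1) * |σ| + |s| * (M + M1)) ^ 2 * (M + M1)) := by
      gcongr <;> linarith only [M0, M10]
    linarith only [b1, b3, b2, k1, k2]

/-- All points of the loop are closer than `π/2` to its base point. -/
def G4g (PD : PushData g G KD) (x : VV n) (a : ℝ → ℝ) (σ s : ℝ) : Prop :=
  ∀ t ∈ Icc 0 π, (g4C PD x a σ s 0, g4C PD x a σ s t) ∈ DD g

theorem g4C_hol : ∃ κ : ℂ, κ ≠ 0 ∧ ∀ σ s, g4C PD x a σ s π = κ • g4C PD x a σ s 0 := by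
  obtain ⟨κ, k0, hκ⟩ := g4b_hol B hx
  have h1 := PD.eqv κ 1 0 x k0 one_pos hx
  rw [g4b_act_smul] at h1
  refine ⟨κ, k0, fun σ s => ?_⟩
  rw [g4C_out B PD hx A σ s (Or.inr (by linarith only [pi_pos])),
    g4C_out B PD hx A σ s (Or.inl (by linarith [pi_pos]))]
  simp only [g4x, Geo.Z, hκ, G.psi_zero B.met hx, h1, add_zero, Prod.smul_fst, smul_add]
  rw [smul_comm]

theorem g4g_of_short {σ s : ℝ} (h0 : ∀ t ∈ Icc 0 π, g4C PD x a σ s t ≠ 0)
    (hV : Var B.met (g4C PD x a σ s) 0 π < ENNReal.ofReal π) : G4g PD x a σ s := by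
  obtain ⟨κ, -, hκ⟩ := g4C_hol B PD hx A
  exact fun t ht => ⟨h0 0 ⟨le_rfl, pi_pos.le⟩, h0 t ht, dd_lt_of_Var B.met h0 ⟨κ, hκ σ s⟩ hV t ht⟩

theorem g4C_mid (σ : ℝ) {t : ℝ} (ht : t ∈ Icc (π / 4) (3 * π / 4)) :
    g4C PD x a σ 0 t = g4V KD x a (σ, t) := by
  rw [g4C, g4cl_mid ht, g4V_zero B hx A, zero_smul, add_zero, add_sub_cancel]

theorem g4g_rot {σ : ℝ} (hσ : cos σ ≠ 1) : G4g PD x a σ 0 := by
  have h := B.met
  have hπ := pi_pos
  have hy := G.psi_mem h (π / 4) hx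
  obtain ⟨κ, k0, hκ⟩ := g4b_hol B hx
  have hZ : G.Z π x = κ • G.Z 0 x := by simp only [Geo.Z, hκ, G.psi_zero h hx, Prod.smul_fst]
  intro t ht
  rw [g4C_out B PD hx A σ 0 (Or.inl (by linarith only [hπ])), zero_smul, add_zero, add_zero]
  rcases le_total t (π / 4) with h1 | h1
  · rw [g4C_out B PD hx A σ 0 (Or.inl h1), zero_smul, add_zero, add_zero]
    refine ⟨G.Z_ne h _ hx, G.Z_ne h _ hx, (h.dd_Z_le G hx 0 t).trans_lt ?_⟩
    rw [sub_zero, abs_of_nonneg ht.1]
    linarith only [hπ, h1]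
  · rcases le_total t (3 * π / 4) with h2 | h2
    · rw [g4C_mid B PD hx A σ ⟨h1, h2⟩]
      have e0 := g4b_shiftZ B hx 0
      have e1 := g4b_shiftZ B hx π
      rw [zero_sub] at e0
      rw [show π - π / 4 = 3 * π / 4 by ring] at e1
      refine ⟨G.Z_ne h _ hx,
        smul_ne_zero (g4l_ne _ _) (G.Z_ne h _ ((KD.isK _ hy).rot h hy σ).1), ?_⟩
      have := g4W_dd h hy (KD.isK _ hy) hσ (A.eq σ) k0 (by rw [e0, e1, hZ]) ⟨h1, h2⟩
      rwa [e0] at this
    · rw [g4C_out B PD hx A σ 0 (Or.inr h2), zero_smul, add_zero, add_zero]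
      refine ⟨G.Z_ne h _ hx, G.Z_ne h _ hx, ?_⟩
      have := h.dd_Z_le G hx π t
      rw [hZ, h.dd_smul_left k0, abs_of_nonpos (by linarith [ht.2])] at this
      exact this.trans_lt (by linarith only [hπ, h2])

theorem g4C_path (L : Lgm g G) {σ s σ' s' θ : ℝ}
    (hg : ∀ r ∈ Icc (0 : ℝ) 1, G4g PD x a ((1 - r) * σ + r * σ') ((1 - r) * s + r * s'))
    (h : LoopWind L (g4C PD x a σ s) θ) : LoopWind L (g4C PD x a σ' s') θ := by
  obtain ⟨κ, k0, hκ⟩ := g4C_hol B PD hx A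
  have cW := (g4V_smooth B hx A).continuous
  have cZ := g4b_cZ (G := G) B.met hx
  have cx := (g4x_smooth B.met PD hx).continuous
  have cl := g4cl_cont
  have := LoopWind.homotopy B L (a := 0) (b := 1) (θ := θ)
    (c := fun p => g4C PD x a ((1 - p.1) * σ + p.1 * σ') ((1 - p.1) * s + p.1 * s') p.2)
    zero_le_one (Continuous.continuousOn (by unfold g4C; fun_prop)) (fun r hr t ht => hg r hr t ht)
    k0 (fun r _ => hκ _ _) (by simpa using h)
  simpa using this

theorem g4C_turn (L : Lgm g G) {σ θ : ℝ} (hσ : cos σ ≠ 1) (h : LoopWind L (g4C PD x a σ 0) θ) :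
    LoopWind L (g4C PD x a (σ + 2 * π) 0) (-(2 * π * KD.j) + θ) := by
  have hπ := pi_pos
  have cl := g4cl_cont
  have h1 := hasWind_exp (a := fun t => -(2 * π * KD.j * (g4cl t - π / 4) / (π / 2)))
    (Continuous.continuousOn (by fun_prop))
  have e : -(2 * π * KD.j * (g4cl π - π / 4) / (π / 2)) -
      -(2 * π * KD.j * (g4cl 0 - π / 4) / (π / 2)) = -(2 * π * KD.j) := by
    rw [g4cl_right (by linarith only [hπ]), g4cl_left (by linarith)]
    field_simp
    ring
  rw [e] at h1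
  refine (h1.mul h).congr fun t ht => ?_
  have e0 : g4C PD x a (σ + 2 * π) 0 0 = g4C PD x a σ 0 0 := by
    rw [g4C_out B PD hx A _ 0 (Or.inl (by linarith only [hπ])), g4C_out B PD hx A _ 0 (Or.inl (by linarith only [hπ]))]
  rw [e0, ← (L.smul_right B (g4g_rot B PD hx A hσ t ht) (Complex.exp_ne_zero _)).2.2]
  congr 1
  rcases le_total t (π / 4) with h2 | h2
  · rw [g4C_out B PD hx A _ 0 (Or.inl h2), g4C_out B PD hx A _ 0 (Or.inl h2), g4cl_left h2]
    simp
  · rcases le_total t (3 * π / 4) with h3 | h3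
    · rw [g4C_mid B PD hx A _ ⟨h2, h3⟩, g4C_mid B PD hx A _ ⟨h2, h3⟩, g4cl_mid ⟨h2, h3⟩]
      exact g4W_per A.per σ t
    · rw [g4C_out B PD hx A _ 0 (Or.inr h3), g4C_out B PD hx A _ 0 (Or.inr h3), g4cl_right h3]
      have e1 : ((-(2 * π * KD.j * (3 * π / 4 - π / 4) / (π / 2)) : ℝ) : ℂ) * Complex.I =
          ((-KD.j : ℤ) : ℂ) * (2 * π * Complex.I) := by
        have : -(2 * π * KD.j * (3 * π / 4 - π / 4) / (π / 2)) = -(2 * π * KD.j) := by
          field_simp
          ring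
        rw [this]
        push_cast
        ring
      rw [e1, Complex.exp_int_mul_two_pi_mul_I, one_smul]

end

theorem Bl.wind_diff (B : Bl g G) (L : Lgm g G) {KD : KData g G} (PD : PushData g G KD) {ε₀ : ℝ}
    (h0 : 0 < ε₀) (hne : ∀ ε : ℝ, |ε| ≤ ε₀ → ∀ x ∈ OO n, x.1 + ε • PD.xi x ≠ 0)
    (hs : ∀ ε : ℝ, ε ≠ 0 → |ε| ≤ ε₀ → Short B fun x => x.1 + ε • PD.xi x) {x : VV n}
    (hx : x ∈ OO n) {θ θ' : ℝ}
    (h : LoopWind L (fun t => G.Z t x + ε₀ • PD.xi (G.psi t x)) θ)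
    (h' : LoopWind L (fun t => G.Z t x + (-ε₀) • PD.xi (G.psi t x)) θ') :
    θ - θ' = -(2 * π * KD.j) := by
  obtain ⟨a, a1, a2, a3, a4⟩ := KD.wind _ (G.psi_mem B.met (π / 4) hx)
  have A : G4a KD x a := ⟨a1, a2, a3, a4⟩
  obtain ⟨d', d0', hd⟩ := g4C_short B PD hx A
  obtain ⟨d, d0, d1, d2, d3⟩ : ∃ d : ℝ, 0 < d ∧ d ≤ d' ∧ d ≤ ε₀ ∧ d ≤ 1 :=
    ⟨Min.min d' (Min.min ε₀ 1), lt_min d0' (lt_min h0 one_pos), min_le_left _ _,
      (min_le_right _ _).trans (min_le_left _ _), (min_le_right _ _).trans (min_le_right _ _)⟩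
  have hπ := pi_gt_three
  have e0 : ∀ s, g4C PD x a 0 s = fun t => G.Z t x + s • PD.xi (G.psi t x) := fun s => by
    funext t
    rw [g4C, sub_self, add_zero, g4x]
  have g0 : ∀ s, s ≠ 0 → |s| ≤ ε₀ → G4g PD x a 0 s := fun s s0 s1 => by
    refine g4g_of_short B PD hx A ?_ ?_ <;> rw [e0]
    · exact fun t _ => hne s s1 _ (G.psi_mem B.met t hx)
    · exact hs s s0 s1 x hx
  have hcos : ∀ σ : ℝ, -(2 * π) < σ → σ < 2 * π → σ ≠ 0 → cos σ ≠ 1 := fun σ h1 h2 h3 h4 =>
    h3 ((cos_eq_one_iff_of_lt_of_lt h1 h2).1 h4)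
  have step : ∀ e : ℝ, e = 1 ∨ e = -1 → ∀ τ : ℝ, LoopWind L (g4C PD x a 0 (e * ε₀)) τ →
      LoopWind L (g4C PD x a (e * d) 0) τ := fun e he τ hτ => by
    have e1 : |e| = 1 := by rcases he with rfl | rfl <;> simp
    have e2 : e ≠ 0 := by rcases he with rfl | rfl <;> simp
    refine g4C_path B PD hx A L (σ := 0) (s := e * d) (fun r hr => ?_)
      (g4C_path B PD hx A L (fun r hr => ?_) hτ)
    · rw [mul_zero, mul_zero, zero_add, add_zero]
      rcases hr.2.eq_or_lt with rfl | h1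
      · rw [sub_self, zero_mul, one_mul]
        refine g4g_rot B PD hx A (hcos _ ?_ ?_ (mul_ne_zero e2 d0.ne')) <;>
          rcases he with rfl | rfl <;> linarith only [d0, hπ, d3]
      · have h2 : 0 < 1 - r := by linarith
        have h3 := hr.1
        obtain ⟨q1, q2⟩ := hd (r * (e * d)) ((1 - r) * (e * d))
          (by rw [abs_mul, abs_mul, e1, abs_of_nonneg h3, abs_of_pos d0]; linarith only [d1, d0, h1, mul_pos_of_neg_of_neg (Mathlib.Tactic.Linarith.sub_neg_of_lt d0) (Mathlib.Tactic.Linarith.sub_neg_of_lt h1)])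
          (by rw [abs_mul, abs_mul, e1, abs_of_pos h2, abs_of_pos d0]; linarith only [d1, d0, h3, mul_nonneg_of_nonpos_of_nonpos (le_of_lt (Mathlib.Tactic.Linarith.sub_neg_of_lt d0)) (Mathlib.Tactic.Linarith.sub_nonpos_of_le h3)])
          (mul_ne_zero h2.ne' (mul_ne_zero e2 d0.ne'))
          (by rw [mul_mul_mul_comm]; exact mul_nonneg (by positivity) (mul_self_nonneg _))
        exact g4g_of_short B PD hx A q1 q2
    · have h1 : 0 ≤ 1 - r := by linarith [hr.2]
      have h2 : d ≤ (1 - r) * ε₀ + r * d := by linarith only [d2, h1, mul_nonneg_of_nonpos_of_nonpos (Mathlib.Tactic.Linarith.sub_nonpos_of_le d2) (Mathlib.Tactic.Linarith.sub_nonpos_of_le h1)]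
      have h3 : (1 - r) * ε₀ + r * d ≤ ε₀ := by linarith only [d2, hr, hr.1, mul_nonneg_of_nonpos_of_nonpos (Mathlib.Tactic.Linarith.sub_nonpos_of_le d2) (Mathlib.Tactic.Linarith.sub_nonpos_of_le hr.left)]
      have h4 : (1 - r) * (e * ε₀) + r * (e * d) = e * ((1 - r) * ε₀ + r * d) := by ring
      rw [mul_zero, mul_zero, add_zero, h4]
      refine g0 _ (mul_ne_zero e2 (by linarith)) ?_
      rwa [abs_mul, e1, one_mul, abs_of_pos (by linarith)]
  have w1 := step 1 (Or.inl rfl) θ (by rwa [e0, one_mul])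
  have w2 := step (-1) (Or.inr rfl) θ' (by rwa [e0, neg_one_mul])
  have w3 := g4C_turn B PD hx A L (hcos _ (by linarith) (by linarith) (by linarith)) w2
  have w4 : LoopWind L (g4C PD x a (-1 * d + 2 * π) 0) θ := by
    refine g4C_path B PD hx A L (fun r hr => ?_) w1
    have h1 : 0 ≤ r * (π - d) := mul_nonneg hr.1 (by linarith)
    have h2 : 0 ≤ (1 - r) * (π - d) := mul_nonneg (by linarith [hr.2]) (by linarith)
    rw [mul_zero, mul_zero, add_zero]
    exact g4g_rot B PD hx A (hcos _ (by linarith only [d0, hπ, h1]) (by linarith) (by linarith only [d0, h1]))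
  linarith only [w3, w4, HasWind.unique w3 w4]

end Pool.Agent.Work.MP_8c604c_gt
end
end

-- merged part: Pool.Agent.Work.MP_8c604c_gt.Contract
section
/-!
Equivariant contraction of short loops (see PLAN.md, section Contract).
-/

set_option maxSynthPendingDepth 3

open Set Filter Topology MeasureTheory
open scoped ContDiff

noncomputable section
namespace Pool.Agent.Work.MP_8c604c_gt

open Real

variable {n : ℕ} {g : Met n} {G : Geo g}

theorem Bl.contract (B : Bl g G) {p : VV n → E n} (hp : Good B p) :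
    ∃ q, Htpy B p q ∧ ∀ x ∈ OO n, Still G q x := by
  classical
  choose f hf hi h0 hφ using fun a : slice n => B.exists_phase (slice_subset a.2)
  obtain ⟨T, hT⟩ := isCompact_slice.elim_nhds_subcover'
    (fun a ha => {y | ‖f ⟨a, ha⟩ a‖ / 2 ≤ ‖f ⟨a, ha⟩ y‖}) fun a ha => by
      have hc : ContinuousAt (fun y => ‖f ⟨a, ha⟩ y‖) a :=
        ((hf ⟨a, ha⟩).continuousOn.continuousAt (isOpen_OO.mem_nhds (slice_subset ha))).norm
      exact hc.eventually (eventually_ge_nhds (half_lt_self (norm_pos_iff.2 (h0 ⟨a, ha⟩))))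
  have key : ∀ S : Finset (slice n), ∃ q, Htpy B p q ∧
      ∀ a ∈ S, ∀ x ∈ OO n, ‖f a a‖ / 2 ≤ ‖f a x‖ → Still G q x := fun S => by
    induction S using Finset.induction_on with
    | empty => exact ⟨p, Htpy.refl hp, by simp⟩
    | insert a S _ ih =>
      obtain ⟨q, hq, hs⟩ := ih
      obtain ⟨q', hq', h1, h2⟩ := B.sweep hq.good (hf a) (hi a) (hφ a)
        (half_pos (norm_pos_iff.2 (h0 a)))
      refine ⟨q', hq.trans hq', fun b hb x hx h => ?_⟩
      rcases Finset.mem_insert.1 hb with rfl | hb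
      · exact h2 x hx h
      · exact h1 x hx (hs b hb x hx h)
  obtain ⟨q, hq, hs⟩ := key T
  refine ⟨q, hq, fun x hx => ?_⟩
  obtain ⟨y, hy, l, m, c, hl, hm, rfl⟩ := exists_slice hx
  obtain ⟨a, ha, h⟩ := mem_iUnion₂.1 (hT hy)
  refine hs a ha _ hx ?_
  rw [hi a l m c y (by exact_mod_cast hl.ne') hm (slice_subset hy)]
  exact h

end Pool.Agent.Work.MP_8c604c_gt
end
end

-- merged part: Pool.Agent.Work.MP_8c604c_gt.G4
section
/-!
The two pushes differ by the winding number j (see PLAN.md, section G4).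
-/

set_option maxSynthPendingDepth 3

open Set Filter Topology MeasureTheory
open scoped ContDiff

noncomputable section
namespace Pool.Agent.Work.MP_8c604c_gt

open Real

variable {n : ℕ} {g : Met n} {G : Geo g}

theorem g4_al_act (h : IsMetric g) (l : ℂ) (m : ℝ) (c : ℂ) (x δ : VV n) (hl : l ≠ 0) (hm : 0 < m)
    (hx : x ∈ OO n) : al g (act l m c x) (act l m c δ) = al g x δ := by
  have h1 : vel g (act l m c x) = l • vel g x := h.vel_eqv l m c x hl hm hx
  have h0 : x.1 ≠ 0 := (mem_OO.1 hx).1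
  show g (act l m c x).1 (vel g (act l m c x)) (act l m c δ).1 = g x.1 (vel g x) δ.1
  rw [h1]
  exact h.inv l x.1 (vel g x) δ.1 hl h0

theorem g4_al_X (G : Geo g) (h : IsMetric g) (x : VV n) (hx : x ∈ OO n) :
    al g x (deriv (fun t => G.psi t x) 0) = 1 := by
  have hd : DifferentiableAt ℝ (fun t => G.psi t x) 0 := by
    have h1 : ContDiffAt ℝ ∞ (fun p : ℝ × VV n => G.psi p.1 p.2) ((0 : ℝ), x) :=
      (G.contDiffOn_psi h).contDiffAt
        ((isOpen_OO.preimage continuous_snd).mem_nhds (by simpa using hx))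
    have h2 : ContDiffAt ℝ ∞ (fun t : ℝ => ((t, x) : ℝ × VV n)) 0 := by fun_prop
    exact (h1.comp (0 : ℝ) h2).differentiableAt (by simp)
  have h1 : HasDerivAt (fun t => (G.psi t x).1) (deriv (fun t => G.psi t x) 0).1 0 :=
    (ContinuousLinearMap.fst ℝ (E n) (E n)).hasFDerivAt.comp_hasDerivAt (0 : ℝ) hd.hasDerivAt
  have h2 := G.hasDerivAt_Z h 0 hx
  have h3 : (deriv (fun t => G.psi t x) 0).1 = vel g x := by
    have := h1.unique h2
    rw [this, G.psi_zero h hx]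
  show g x.1 (vel g x) (deriv (fun t => G.psi t x) 0).1 = 1
  rw [h3]
  exact h.vel_unit hx

theorem g4_good (B : Bl g G) {KD : KData g G} (PD : PushData g G KD) {ε : ℝ}
    (hne : ∀ x ∈ OO n, x.1 + ε • PD.xi x ≠ 0) (hs : Short B fun x => x.1 + ε • PD.xi x) :
    Good B fun x => x.1 + ε • PD.xi x := by
  refine ⟨contDiffOn_fst.add (PD.smooth.const_smul ε), hne, ?_, hs⟩
  intro l m c x hl hm hx
  show (act l m c x).1 + ε • PD.xi (act l m c x) = l • (x.1 + ε • PD.xi x)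
  rw [PD.eqv l m c x hl hm hx, smul_add, smul_comm l ε]
  rfl

theorem Bl.exists_tdata (B : Bl g G) : ∃ D : TData n, D.α = al g ∧ 2 ≤ |D.δ| := by
  obtain ⟨KD⟩ := B.exists_kdata
  obtain ⟨PD⟩ := B.exists_push KD
  obtain ⟨L⟩ := B.exists_lgm
  obtain ⟨ε₀, h0, hne, hs⟩ := B.push_short PD
  have h := B.met
  have a1 : |ε₀| ≤ ε₀ := (abs_of_pos h0).le
  have a2 : |-ε₀| ≤ ε₀ := by rw [abs_neg]; exact a1
  have gp := g4_good B PD (hne ε₀ a1) (hs ε₀ h0.ne' a1)
  have gm := g4_good B PD (hne (-ε₀) a2) (hs (-ε₀) (neg_ne_zero.2 h0.ne') a2)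
  obtain ⟨qp, hp, sp⟩ := B.contract gp
  obtain ⟨qm, hm, sm⟩ := B.contract gm
  have gqp := hp.good
  have gqm := hm.good
  have hp' := hp
  have hm' := hm
  obtain ⟨Hp, Hp1, Hp2, Hp3, Hp4⟩ := hp'
  obtain ⟨Hm, Hm1, Hm2, Hm3, Hm4⟩ := hm'
  beta_reduce at Hp3 Hm3
  set χ : ℝ → ℝ := fun s => smoothTransition (3 * s) - smoothTransition (-(3 * s)) with hχ
  have χs : ContDiff ℝ ∞ χ := by
    have h1 : ContDiff ℝ ∞ smoothTransition := smoothTransition.contDiff
    exact (h1.comp (by fun_prop)).sub (h1.comp (by fun_prop))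
  have χ1 : ∀ s, 1 / 3 ≤ s → χ s = 1 := by
    intro s hs
    simp only [hχ]
    rw [smoothTransition.one_of_one_le (by linarith only [hs]),
      smoothTransition.zero_of_nonpos (by linarith only [hs]), sub_zero]
  have χ2 : ∀ s, s ≤ -(1 / 3) → χ s = -1 := by
    intro s hs
    simp only [hχ]
    rw [smoothTransition.zero_of_nonpos (by linarith only [hs]),
      smoothTransition.one_of_one_le (by linarith), zero_sub]
  have χ0 : χ 0 = 0 := by simp [hχ]
  have χb : ∀ s, |ε₀ * χ s| ≤ ε₀ := by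
    intro s
    have h1 := smoothTransition.nonneg (3 * s)
    have h2 := smoothTransition.le_one (3 * s)
    have h3 := smoothTransition.nonneg (-(3 * s))
    have h4 := smoothTransition.le_one (-(3 * s))
    have h5 : |χ s| ≤ 1 := by
      simp only [hχ]
      rw [abs_le]; constructor <;> linarith only [h1, h4, h2, h3]
    rw [abs_mul, abs_of_pos h0]
    exact mul_le_of_le_one_right h0.le h5
  set H : ℝ × VV n → E n := fun y =>
    Hp (3 * y.1 - 2, y.2) + Hm (-(3 * y.1) - 2, y.2) - y.2.1 + (ε₀ * χ y.1) • PD.xi y.2 with hH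
  have eA : ∀ s, 1 / 3 ≤ s → ∀ x ∈ OO n, H (s, x) = Hp (3 * s - 2, x) := by
    intro s hs x hx
    simp only [hH]
    rw [Hm3 _ (by linarith only [hs]) x hx, χ1 s hs, mul_one, neg_smul]
    abel
  have eB : ∀ s, s ≤ -(1 / 3) → ∀ x ∈ OO n, H (s, x) = Hm (-(3 * s) - 2, x) := by
    intro s hs x hx
    simp only [hH]
    rw [Hp3 _ (by linarith only [hs]) x hx, χ2 s hs, mul_neg, mul_one, neg_smul]
    abel
  have eC : ∀ s, -(1 / 3) ≤ s → s ≤ 1 / 3 → ∀ x ∈ OO n,
      H (s, x) = x.1 + (ε₀ * χ s) • PD.xi x := by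
    intro s hs hs' x hx
    simp only [hH]
    rw [Hp3 _ (by linarith only [hs']) x hx, Hm3 _ (by linarith only [hs]) x hx, neg_smul]
    abel
  have e1 : ∀ x ∈ OO n, H (1, x) = qp x := by
    intro x hx
    rw [eA 1 (by norm_num) x hx, Hp4 _ (by norm_num) x hx]
  have e2 : ∀ x ∈ OO n, H (-1, x) = qm x := by
    intro x hx
    rw [eB (-1) (by norm_num) x hx, Hm4 _ (by norm_num) x hx]
  have Hs : ContDiffOn ℝ ∞ H {p | p.2 ∈ OO n} := by
    have s1 : ContDiffOn ℝ ∞ (fun y : ℝ × VV n => Hp (3 * y.1 - 2, y.2)) {p | p.2 ∈ OO n} :=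
      Hp1.comp (f := fun y : ℝ × VV n => ((3 * y.1 - 2, y.2) : ℝ × VV n)) (by fun_prop)
        (fun y hy => hy)
    have s2 : ContDiffOn ℝ ∞ (fun y : ℝ × VV n => Hm (-(3 * y.1) - 2, y.2)) {p | p.2 ∈ OO n} :=
      Hm1.comp (f := fun y : ℝ × VV n => ((-(3 * y.1) - 2, y.2) : ℝ × VV n)) (by fun_prop)
        (fun y hy => hy)
    have s3 : ContDiffOn ℝ ∞ (fun y : ℝ × VV n => PD.xi y.2) {p | p.2 ∈ OO n} :=
      PD.smooth.comp contDiffOn_snd (fun y hy => hy)
    have s4 : ContDiffOn ℝ ∞ (fun y : ℝ × VV n => ε₀ * χ y.1) {p | p.2 ∈ OO n} :=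
      (contDiff_const.mul (χs.comp contDiff_fst)).contDiffOn
    exact ((s1.add s2).sub (by fun_prop)).add (s4.smul s3)
  have Hn : ∀ s, ∀ x ∈ OO n, H (s, x) ≠ 0 := by
    intro s x hx
    rcases le_total (1 / 3) s with hs1 | hs1
    · rw [eA s hs1 x hx]; exact (Hp2 _).ne x hx
    · rcases le_total s (-(1 / 3)) with hs2 | hs2
      · rw [eB s hs2 x hx]; exact (Hm2 _).ne x hx
      · rw [eC s hs2 hs1 x hx]; exact hne _ (χb s) x hx
  have He : ∀ s, Eqv fun x => H (s, x) := by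
    intro s l m c x hl hm hx
    have b1 : Hp (3 * s - 2, act l m c x) = l • Hp (3 * s - 2, x) := (Hp2 _).eqv l m c x hl hm hx
    have b2 : Hm (-(3 * s) - 2, act l m c x) = l • Hm (-(3 * s) - 2, x) :=
      (Hm2 _).eqv l m c x hl hm hx
    have b3 := PD.eqv l m c x hl hm hx
    have b4 : (act l m c x).1 = l • x.1 := rfl
    simp only [hH]
    rw [b1, b2, b3, b4, smul_add, smul_sub, smul_add, smul_comm l (ε₀ * χ s)]
  have hj : (KD.j : ℝ) ≠ 0 := by exact_mod_cast KD.j_ne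
  refine ⟨{ ψ := G.psi
            ψ_smooth := G.contDiffOn_psi h
            ψ_mem := fun t x hx => G.psi_mem h t hx
            ψ_zero := fun x hx => G.psi_zero h hx
            ψ_add := fun s t x hx => G.psi_add h s t hx
            ψ_act := fun t l m c x hl hm hx => G.psi_act h t c hl hm hx
            ψ_per := fun x hx => ⟨_, (B.psi_pi hx).1⟩
            α := al g
            α_smooth := h.contDiffOn_al
            α_act := fun l m c x δ hl hm hx => g4_al_act h l m c x δ hl hm hx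
            α_hor := fun x hx v hv => al_Bdir h hx hv
            α_inv := fun t x hx δ => G.al_psi h t hx δ
            α_X := fun x hx => g4_al_X G h x hx
            H := H
            H_smooth := Hs
            H_ne := Hn
            H_eqv := He
            H_zero := ?_
            H_one := ?_
            H_neg := ?_
            δ := -(2 * (KD.j : ℝ))
            δ_ne := neg_ne_zero.2 (mul_ne_zero two_ne_zero hj)
            δ_eq := ?_ }, rfl, ?_⟩
  · intro x hx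
    rw [eC 0 (by norm_num) (by norm_num) x hx, χ0, mul_zero, zero_smul, add_zero]
  · intro t x hx
    rw [e1 _ (G.psi_mem h t hx), e1 x hx]
    exact sp x hx t
  · intro t x hx
    rw [e2 _ (G.psi_mem h t hx), e2 x hx]
    exact sm x hx t
  · intro x hx
    have f1 : (fun s => H (1, G.psi s x)) = fun s => qp (G.psi s x) :=
      funext fun s => e1 _ (G.psi_mem h s hx)
    have f2 : (fun s => H (-1, G.psi s x)) = fun s => qm (G.psi s x) :=
      funext fun s => e2 _ (G.psi_mem h s hx)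
    have f3 : ∀ s, H (1, G.psi s x) = qp (G.psi s x) := fun s => e1 _ (G.psi_mem h s hx)
    have f4 : ∀ s, H (-1, G.psi s x) = qm (G.psi s x) := fun s => e2 _ (G.psi_mem h s hx)
    obtain ⟨θ, w1⟩ := gp.exists_loopWind L hx
    obtain ⟨θ', w2⟩ := gm.exists_loopWind L hx
    have w3 := hp.loopWind L hx w1
    have w4 := hm.loopWind L hx w2
    have w5 := HasWind.unique w3 (gqp.loopWind_still L hx (sp x hx))
    have w6 := HasWind.unique w4 (gqm.loopWind_still L hx (sm x hx))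
    have w7 := B.wind_diff L PD h0 hne hs hx w1 w2
    simp only [f3, f4]
    rw [← w5, ← w6, w7]
    ring
  · show 2 ≤ |-(2 * (KD.j : ℝ))|
    rw [abs_neg, abs_mul, abs_two]
    have h1 : (1 : ℤ) ≤ |KD.j| := Int.one_le_abs KD.j_ne
    have h2 : (1 : ℝ) ≤ |(KD.j : ℝ)| := by exact_mod_cast h1
    linarith only [h2]

end Pool.Agent.Work.MP_8c604c_gt
end
end
end
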