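import Mathlib

/-!
Statement layer of the hand-in for MP_8c604c_gt (Blaschke conjecture for complex projective space).
A Riemannian metric on the projective space of a complex Hilbert space `V` is written upstairs, on `V` minus the origin.
The hand-in uses `V = E n`, that is `C^(n+1)`, with its standard real and complex structures.
-/

open scoped ContDiff LinearAlgebra.Projectivization

noncomputable section
namespace Pool.Agent.Work.MP_8c604c_gt.St

/-- `C^(n+1)` with its Hermitian structure. -/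
abbrev E (n : ℕ) : Type := EuclideanSpace ℂ (Fin (n + 1))

/-- Families of real bilinear forms on `V`. -/
abbrev Met (V : Type) [NormedAddCommGroup V] [NormedSpace ℝ V] : Type := V → V →L[ℝ] V →L[ℝ] ℝ

variable {V : Type} [NormedAddCommGroup V] [NormedSpace ℝ V] [InnerProductSpace ℂ V]

/-- `g` is the pull-back to `V` minus `0` of a smooth Riemannian metric on the projective space. -/
structure IsMetric (g : Met V) : Prop where
  smooth : ContDiffOn ℝ ∞ g {0}ᶜ
  symm : ∀ z u w, z ≠ 0 → g z u w = g z w u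
  inv : ∀ (c : ℂ) z u w, c ≠ 0 → z ≠ 0 → g (c • z) (c • u) (c • w) = g z u w
  vert : ∀ (c : ℂ) z w, z ≠ 0 → g z (c • z) w = 0
  pos : ∀ z u, z ≠ 0 → (∀ c : ℂ, u ≠ c • z) → 0 < g z u u

/-- `z` is a smooth lift of a unit speed geodesic: Euler-Lagrange equation of the energy. -/
structure IsUnitGeodesic (g : Met V) (z : ℝ → V) : Prop where
  smooth : ContDiff ℝ ∞ z
  ne : ∀ t, z t ≠ 0
  el : ∀ t η, HasDerivAt (fun s => g (z s) (deriv z s) η)
    (1 / 2 * fderiv ℝ g (z t) η (deriv z t) (deriv z t)) t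
  unit : ∀ t, g (z t) (deriv z t) (deriv z t) = 1

/-- Length of the projection of `c` restricted to `[0, 1]`. -/
def len (g : Met V) (c : ℝ → V) : ℝ :=
  ∫ t in (0 : ℝ)..1, √(g (c t) (deriv c t) (deriv c t))

/-- `c` is a `C^1` path in `V` minus `0` whose projection joins `[y]` to `[y']`. -/
structure Joins (c : ℝ → V) (y y' : V) : Prop where
  smooth : ContDiff ℝ 1 c
  ne : ∀ s, c s ≠ 0
  start : c 0 = y
  stop : ∃ a : ℂ, c 1 = a • y'

/-- The Fubini-Study metric (sectional curvature between 1 and 4), written upstairs. -/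
def fs (z u w : V) : ℝ :=
  (‖z‖ ^ 2 * (inner ℂ u w).re - (inner ℂ u z * inner ℂ z w).re) / ‖z‖ ^ 4

/-- `Ψ` is a smooth map of the projective space with `Ψ^* g = c * g_FS`: it has such smooth local lifts. -/
def PullsBack (g : Met V) (Ψ : ℙ ℂ V → ℙ ℂ V) (c : ℝ) : Prop :=
  ∀ z₀ : V, z₀ ≠ 0 → ∃ U : Set V, IsOpen U ∧ z₀ ∈ U ∧ ∃ F : V → V,
    ContDiffOn ℝ ∞ F U ∧ ∀ z ∈ U, ∃ (hz : z ≠ 0) (hF : F z ≠ 0),
      Ψ (Projectivization.mk ℂ z hz) = Projectivization.mk ℂ (F z) hF ∧
      ∀ u w, g (F z) (fderiv ℝ F z u) (fderiv ℝ F z w) = c * fs z u w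

end Pool.Agent.Work.MP_8c604c_gt.St
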